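import Pool.Agent.MP_67227b_nt.Fb.FbLL

set_option autoImplicit false

open Filter Topology Set MeasureTheory Complex
open scoped Real ContDiff ArithmeticFunction ArithmeticFunction.Moebius ComplexConjugate

namespace Pool.Agent.MP_67227b_nt.Fb

open Pool.Agent.Lib.ZetaCount_helper33 Pool.Agent.MP_67227b_nt Pool.Agent.MP_67227b_nt.Mo

/-- **Module am** (5 lemmas, about 170 lines). PROOF. `a(1) = ∑_k μ(k) τ(k) = (1/LL) ∑_k mf k h = 1`. -/
theorem am_one {h : ℝ → ℝ} {d T : ℝ} (hL : LL h d T ≠ 0) : am h d T 1 = 1 := by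
  unfold am
  rw [Nat.cast_one, one_mul]
  have h1 : ∀ k ∈ Finset.Icc 1 (Zd d T), (μ k : ℝ) * tau h d T (1 * k) =
      ((μ k : ℝ) ^ 2 / (Nat.totient k : ℝ) * h (Real.log k / Real.log T)) / LL h d T := by
    intro k hk
    rw [one_mul, tau, if_pos (Finset.mem_Icc.1 hk).2]
    ring
  rw [Finset.sum_congr rfl h1, ← Finset.sum_div]
  exact div_self hL

theorem am_zero_of_gt {h : ℝ → ℝ} {d T : ℝ} {m : ℕ} (hm : Zd d T < m) : am h d T m = 0 := by
  unfold am
  rw [Finset.sum_eq_zero, mul_zero]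
  intro k hk
  rw [tau, if_neg, mul_zero]
  have h1 : m ≤ m * k := Nat.le_mul_of_pos_right m (Finset.mem_Icc.1 hk).1
  omega

/-- PROOF. `μ(mk) = 0` for all `k`. -/
theorem am_zero_of_nsq {h : ℝ → ℝ} {d T : ℝ} {m : ℕ} (hm : ¬ Squarefree m) : am h d T m = 0 := by
  unfold am
  rw [Finset.sum_eq_zero, mul_zero]
  intro k _
  have h1 : μ (m * k) = 0 :=
    ArithmeticFunction.moebius_eq_zero_of_not_squarefree fun h => hm h.of_mul_left
  rw [tau, h1]
  simp

private theorem am_mf_nonneg (n : ℕ) : 0 ≤ mf n := by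
  unfold mf
  positivity

private theorem am_mf_sq {n : ℕ} (h : Squarefree n) : mf n = 1 / (n.totient : ℝ) := by
  unfold mf
  have h1 : (μ n) ^ 2 = 1 := by
    rw [ArithmeticFunction.moebius_sq, if_pos h]
  have h2 : (μ n : ℝ) ^ 2 = 1 := by exact_mod_cast h1
  rw [h2]

private theorem am_mf_nsq {n : ℕ} (h : ¬ Squarefree n) : mf n = 0 := by
  unfold mf
  rw [ArithmeticFunction.moebius_eq_zero_of_not_squarefree h]
  simp

/-- the sum over the multiples of a squarefree number -/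
private theorem am_mult {m Z : ℕ} (hm : Squarefree m) :
    (m : ℝ) * ∑ k ∈ (Finset.Icc 1 Z).filter (fun k => m * k ≤ Z), mf (m * k) ≤
      ∑ n ∈ Finset.Icc 1 Z, mf n := by
  classical
  have hm0 : m ≠ 0 := hm.ne_zero
  have hmp : 0 < m := Nat.pos_of_ne_zero hm0
  have hφ : (0 : ℝ) < (m.totient : ℝ) := by
    exact_mod_cast Nat.totient_pos.2 hmp
  have e1 : ∑ k ∈ (Finset.Icc 1 Z).filter (fun k => m * k ≤ Z), mf (m * k) =
      ∑ k ∈ ((Finset.Icc 1 Z).filter (fun k => m * k ≤ Z)).filter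
        (fun k => Squarefree (m * k)), (1 / (m.totient : ℝ)) * (1 / (k.totient : ℝ)) := by
    rw [Finset.sum_filter (fun k => Squarefree (m * k))]
    refine Finset.sum_congr rfl fun k _ => ?_
    split_ifs with h
    · rw [am_mf_sq h, Nat.totient_mul (Nat.squarefree_mul_iff.1 h).1]
      push_cast
      rw [one_div_mul_one_div]
    · exact am_mf_nsq h
  rw [e1, ← Finset.mul_sum, ← mul_assoc, mul_one_div, ← MT.HWAux.sum_SD m hm0,
    Finset.sum_mul_sum, ← Finset.sum_product']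
  refine MT.HWAux.sum_le_inj _ _ _ _ (fun n => n.1 * n.2) ?_ ?_ ?_ ?_
  · rintro ⟨a, b⟩ hn
    rw [Finset.mem_product, MT.HWAux.mem_SD, Finset.mem_filter, Finset.mem_filter,
      Finset.mem_Icc] at hn
    obtain ⟨⟨⟨h1, -⟩, h2⟩, ⟨⟨h3, -⟩, h4⟩, h5⟩ := hn
    change a ∣ m at h1
    change 1 ≤ b at h3
    change m * b ≤ Z at h4
    rw [Finset.mem_Icc]
    refine ⟨Nat.mul_pos (Nat.pos_of_dvd_of_pos h1 hmp) h3, ?_⟩
    exact (Nat.mul_le_mul_right _ (Nat.le_of_dvd hmp h1)).trans h4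
  · rintro ⟨a, b⟩ hn ⟨c, e⟩ hn' h
    rw [Finset.mem_product, MT.HWAux.mem_SD, Finset.mem_filter, Finset.mem_filter,
      Finset.mem_Icc] at hn hn'
    obtain ⟨⟨⟨h1, -⟩, h2⟩, ⟨⟨h3, -⟩, h4⟩, h5⟩ := hn
    obtain ⟨⟨⟨k1, -⟩, k2⟩, ⟨⟨k3, -⟩, k4⟩, k5⟩ := hn'
    change a ∣ m at h1
    change c ∣ m at k1
    change 1 ≤ b at h3
    change Squarefree (m * b) at h5
    change Squarefree (m * e) at k5
    change a * b = c * e at h
    have hb : m.Coprime b := (Nat.squarefree_mul_iff.1 h5).1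
    have he : m.Coprime e := (Nat.squarefree_mul_iff.1 k5).1
    have g1 : Nat.gcd (a * b) m = a := by
      rw [Nat.Coprime.gcd_mul_right_cancel a hb.symm]
      exact Nat.gcd_eq_left h1
    have g2 : Nat.gcd (c * e) m = c := by
      rw [Nat.Coprime.gcd_mul_right_cancel c he.symm]
      exact Nat.gcd_eq_left k1
    have hac : a = c := by rw [← g1, ← g2, h]
    have ha : 0 < a := Nat.pos_of_dvd_of_pos h1 hmp
    rw [hac] at h ha
    have hbe : b = e := Nat.eq_of_mul_eq_mul_left ha h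
    rw [hac, hbe]
  · rintro ⟨a, b⟩ hn
    rw [Finset.mem_product, MT.HWAux.mem_SD, Finset.mem_filter, Finset.mem_filter,
      Finset.mem_Icc] at hn
    obtain ⟨⟨⟨h1, -⟩, h2⟩, ⟨⟨h3, -⟩, h4⟩, h5⟩ := hn
    change a ∣ m at h1
    change Squarefree a at h2
    change Squarefree (m * b) at h5
    change 1 / (a.totient : ℝ) * (1 / (b.totient : ℝ)) ≤ mf (a * b)
    have hsq : Squarefree (a * b) := h5.squarefree_of_dvd (mul_dvd_mul_right h1 b)
    rw [am_mf_sq hsq, Nat.totient_mul (Nat.squarefree_mul_iff.1 hsq).1]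
    push_cast
    rw [one_div_mul_one_div]
  · intro n _
    exact am_mf_nonneg n

/-- The coefficients are bounded.

PROOF. We may take `m ≤ Z` squarefree. Only `k ≤ Z/m` squarefree and coprime to `m` contribute, with
`μ(k)τ(mk) = μ(m) μ(k)² h(..)/(φ(m)φ(k) LL)`, so with `M = max_{[0,d]} h`
`|a(m)| ≤ (m/φ(m)) (M/LL) ∑_{k ≤ Z/m, (k,m)=1} mf k`, and
`(m/φ(m)) ∑_{k ≤ Z/m, (k,m)=1} mf k ≤ ∑_{k ≤ Z'} mf k`: this is `MT.HWAux.G_le_one m X` with
`X = Z/m + 1` (sums over `k < X`), right side `G 1 (X m)`, `X m ≤ Z + m ≤ 2Z`; to stay below `Z`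
reprove it directly: the products `k₁ k₂`, `k₁ ∣ m`, `k₂ ≤ Z/m` coprime to `m`, are distinct
squarefree numbers `≤ Z` and `m/φ(m) = ∑_{k₁∣m} 1/φ(k₁)` (`MT.HWAux.sum_SD`, `sum_le_inj`). (Or
bound `G 1 (2Z) ` by `MT.HWAux.G_upper` and `LL ≥ c log T`.) Then `SS ≤ C LL` (`SS_le_LL`). -/
theorem am_bdd {h : ℝ → ℝ} {d : ℝ} (hh : Hok h) (hd : 0 < d) :
    ∃ C : ℝ, 0 < C ∧ ∀ᶠ T : ℝ in atTop, ∀ m : ℕ, |am h d T m| ≤ C := by
  obtain ⟨M, hM, hM1, hM2⟩ := SS_le_LL hh hd
  obtain ⟨c, hc, hLL⟩ := LL_ge hh hd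
  refine ⟨M * M, by positivity, ?_⟩
  filter_upwards [hLL, eventually_gt_atTop (1 : ℝ)] with T hT1 hT2 m
  have hlog : 0 < Real.log T := Real.log_pos hT2
  have hL : 0 < LL h d T := lt_of_lt_of_le (by positivity) hT1
  by_cases hsq : Squarefree m
  swap
  · rw [am_zero_of_nsq hsq, abs_zero]
    positivity
  have e1 : |am h d T m| ≤ (m : ℝ) * ∑ k ∈ (Finset.Icc 1 (Zd d T)).filter
      (fun k => m * k ≤ Zd d T), mf (m * k) * (M / LL h d T) := by
    unfold am
    rw [abs_mul, Nat.abs_cast]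
    refine mul_le_mul_of_nonneg_left ?_ (Nat.cast_nonneg m)
    refine (Finset.abs_sum_le_sum_abs _ _).trans ?_
    rw [Finset.sum_filter]
    refine Finset.sum_le_sum fun k hk => ?_
    split_ifs with h1
    · rw [tau, if_pos h1]
      have hmem : m * k ∈ Finset.Icc 1 (Zd d T) :=
        Finset.mem_Icc.2 ⟨Nat.mul_pos (Nat.pos_of_ne_zero hsq.ne_zero)
          (Finset.mem_Icc.1 hk).1, h1⟩
      have h2 := Zd_arg hd hT2 hmem
      have h3 := hM1 _ ⟨h2.1, h2.2⟩
      have h4 := hh.pos (Real.log ((m * k : ℕ) : ℝ) / Real.log T)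
      have h5 : |(μ k : ℝ)| ≤ 1 := by
        exact_mod_cast ArithmeticFunction.abs_moebius_le_one (n := k)
      have h6 : |(μ (m * k) : ℝ)| = (μ (m * k) : ℝ) ^ 2 := by
        by_cases h7 : Squarefree (m * k)
        · rcases ArithmeticFunction.moebius_eq_or (m * k) with h8 | h8 | h8 <;> rw [h8] <;> simp
        · rw [ArithmeticFunction.moebius_eq_zero_of_not_squarefree h7]
          simp
      rw [abs_mul, abs_div, abs_mul, abs_div, h6, abs_of_pos h4, abs_of_pos hL, Nat.abs_cast]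
      have h9 : (μ (m * k) : ℝ) ^ 2 / ((m * k).totient : ℝ) *
          h (Real.log ((m * k : ℕ) : ℝ) / Real.log T) / LL h d T ≤ mf (m * k) * (M / LL h d T) := by
        rw [← mul_div_assoc]
        refine div_le_div_of_nonneg_right ?_ hL.le
        exact mul_le_mul_of_nonneg_left h3 (am_mf_nonneg _)
      have h10 : 0 ≤ (μ (m * k) : ℝ) ^ 2 / ((m * k).totient : ℝ) *
          h (Real.log ((m * k : ℕ) : ℝ) / Real.log T) / LL h d T := by positivity
      calc _ ≤ 1 * ((μ (m * k) : ℝ) ^ 2 / ((m * k).totient : ℝ) *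
          h (Real.log ((m * k : ℕ) : ℝ) / Real.log T) / LL h d T) :=
            mul_le_mul_of_nonneg_right h5 h10
        _ ≤ _ := by rw [one_mul]; exact h9
    · rw [tau, if_neg h1]
      simp
  rw [← Finset.sum_mul, ← mul_assoc] at e1
  have e2 := am_mult (Z := Zd d T) hsq
  have e3 := hM2 T hT2
  have e4 : 0 ≤ M / LL h d T := by positivity
  calc |am h d T m| ≤ _ := e1
    _ ≤ SS d T * (M / LL h d T) := mul_le_mul_of_nonneg_right e2 e4
    _ ≤ (M * LL h d T) * (M / LL h d T) := mul_le_mul_of_nonneg_right e3 e4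
    _ = M * M := by field_simp

/-- The sum over primes, exactly.

PROOF. `a(p)/p = ∑_k μ(k) τ(pk) = - (1/LL) ∑_{k ≤ Z/p, p∤k} mf(pk) h(log(pk)/L)`
(`μ(k) μ(pk) = - μ(k)²` and `φ(pk) = φ(p)φ(k)` for `p ∤ k`; `μ(pk) = 0` if `p ∣ k`). So the left side
is `- (1/LL) ∑_{n ≤ Z} mf(n) h(log n/L) ∑_{p ∣ n} log p` (`n = pk`), and `∑_{p∣n} log p = log n` for
squarefree `n` (`Nat.prod_primeFactors_of_squarefree`). -/
theorem sum_am_prime {h : ℝ → ℝ} {d T : ℝ} :
    ∑ p ∈ Finset.Icc 1 (Zd d T) with p.Prime, am h d T p * Real.log p / p =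
      -(1 / LL h d T) * ∑ n ∈ Finset.Icc 1 (Zd d T),
        mf n * (h (Real.log n / Real.log T) * Real.log n) := by
  classical
  set Z := Zd d T with hZ
  have hmp : ∀ p : ℕ, p.Prime → ∀ k : ℕ, (μ k : ℝ) * (μ (p * k) : ℝ) = -(μ (p * k) : ℝ) ^ 2 := by
    intro p hp k
    by_cases hpk : p ∣ k
    · have h1 : ¬ Squarefree (p * k) := by
        intro h
        have h2 : p * p ∣ p * k := mul_dvd_mul_left p hpk
        exact hp.one_lt.ne' (Nat.isUnit_iff.1 (h p h2))
      rw [ArithmeticFunction.moebius_eq_zero_of_not_squarefree h1]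
      simp
    · have h1 : p.Coprime k := (Nat.Prime.coprime_iff_not_dvd hp).2 hpk
      rw [ArithmeticFunction.isMultiplicative_moebius.map_mul_of_coprime h1,
        ArithmeticFunction.moebius_apply_prime hp]
      push_cast
      ring
  have e1 : ∀ p ∈ (Finset.Icc 1 Z).filter Nat.Prime,
      am h d T p * Real.log p / p = -(1 / LL h d T) * ∑ n ∈ (Finset.Icc 1 Z).filter (p ∣ ·),
        mf n * h (Real.log n / Real.log T) * Real.log p := by
    intro p hp
    rw [Finset.mem_filter] at hp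
    have hp0 : (p : ℝ) ≠ 0 := by exact_mod_cast hp.2.ne_zero
    have e2 : ∑ k ∈ Finset.Icc 1 Z, (μ k : ℝ) * tau h d T (p * k) =
        -(1 / LL h d T) * ∑ k ∈ (Finset.Icc 1 Z).filter (fun k => p * k ≤ Z),
          mf (p * k) * h (Real.log ((p * k : ℕ) : ℝ) / Real.log T) := by
      rw [Finset.mul_sum, Finset.sum_filter]
      refine Finset.sum_congr rfl fun k _ => ?_
      split_ifs with h1
      · rw [tau, if_pos h1, mf]
        have h2 := hmp p hp.2 k
        calc _ = (μ k : ℝ) * (μ (p * k) : ℝ) / ((p * k).totient : ℝ) *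
              h (Real.log ((p * k : ℕ) : ℝ) / Real.log T) / LL h d T := by ring
          _ = _ := by rw [h2]; ring
      · rw [tau, if_neg h1, mul_zero]
    have e3 : ∑ k ∈ (Finset.Icc 1 Z).filter (fun k => p * k ≤ Z),
          mf (p * k) * h (Real.log ((p * k : ℕ) : ℝ) / Real.log T) =
        ∑ n ∈ (Finset.Icc 1 Z).filter (p ∣ ·), mf n * h (Real.log n / Real.log T) := by
      refine Finset.sum_bij (fun k _ => p * k) ?_ ?_ ?_ ?_
      · intro k hk
        rw [Finset.mem_filter, Finset.mem_Icc] at hk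
        rw [Finset.mem_filter, Finset.mem_Icc]
        exact ⟨⟨Nat.mul_pos hp.2.pos hk.1.1, hk.2⟩, dvd_mul_right p k⟩
      · intro k _ k' _ hkk
        exact Nat.eq_of_mul_eq_mul_left hp.2.pos hkk
      · intro n hn
        rw [Finset.mem_filter, Finset.mem_Icc] at hn
        obtain ⟨⟨h1, h2⟩, k, rfl⟩ := hn
        refine ⟨k, ?_, rfl⟩
        rw [Finset.mem_filter, Finset.mem_Icc]
        have h3 : k ≤ p * k := Nat.le_mul_of_pos_left k hp.2.pos
        refine ⟨⟨?_, by omega⟩, h2⟩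
        rcases Nat.eq_zero_or_pos k with h4 | h4
        · rw [h4, mul_zero] at h1
          omega
        · exact h4
      · intro k _
        rfl
    rw [am, ← hZ, e2, e3, ← Finset.sum_mul]
    field_simp
  rw [Finset.sum_congr rfl e1, ← Finset.mul_sum]
  congr 1
  rw [Finset.sum_comm' (t' := Finset.Icc 1 Z) (s' := fun n => n.primeFactors)]
  · refine Finset.sum_congr rfl fun n hn => ?_
    rw [← Finset.mul_sum]
    by_cases hsq : Squarefree n
    · have h1 : ∑ p ∈ n.primeFactors, Real.log p = Real.log n := by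
        rw [← Real.log_prod (fun p hp => by
          exact_mod_cast (Nat.prime_of_mem_primeFactors hp).ne_zero)]
        rw [← Nat.cast_prod, Nat.prod_primeFactors_of_squarefree hsq]
      rw [h1]
      ring
    · rw [am_mf_nsq hsq]
      ring
  · intro p n
    rw [Finset.mem_filter, Finset.mem_filter, Finset.mem_Icc, Finset.mem_Icc, Nat.mem_primeFactors]
    constructor
    · rintro ⟨⟨h1, h2⟩, h3, h4⟩
      exact ⟨⟨h2, h4, by omega⟩, h3⟩
    · rintro ⟨⟨h1, h2, h3⟩, h4⟩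
      exact ⟨⟨⟨h1.one_lt.le, (Nat.le_of_dvd (Nat.pos_of_ne_zero h3) h2).trans h4.2⟩, h1⟩, h4, h2⟩

end Pool.Agent.MP_67227b_nt.Fb
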