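import Pool.Agent.MP_67227b_nt.Fb.FbAfe1
import Pool.Agent.MP_67227b_nt.Fb.FbAm

set_option autoImplicit false

open Filter Topology Set MeasureTheory Complex
open scoped Real ContDiff ArithmeticFunction ArithmeticFunction.Moebius ComplexConjugate

namespace Pool.Agent.MP_67227b_nt.Fb

open Pool.Agent.Lib.ZetaCount_helper33 Pool.Agent.MP_67227b_nt Pool.Agent.MP_67227b_nt.Mo

private theorem AFE_Gk {h κ : ℝ → ℝ} {d e T : ℝ} (he : 0 < e) (hκ : Step (1 - 2 * e) (1 - e) κ)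
    (hT : 1 < T) (γ : ℝ) :
    Gk h κ d T γ = ∑ m ∈ Finset.Icc 1 (Zd d T),
      ((am h d T m : ℝ) : ℂ) * (m : ℂ) ^ (-(1 / 2 + (γ : ℂ) * I)) * Sj κ T m γ := by
  have hL := Real.log_pos hT
  have hT0 : 0 < T := by linarith
  have e1 : Gk h κ d T γ = ∑ x ∈ (Finset.Icc 1 ⌊T⌋₊).sigma (fun n => n.divisors),
      ((am h d T x.2 : ℝ) : ℂ) * (κ (Real.log x.1 / Real.log T) : ℂ) *
        (x.1 : ℂ) ^ (-(1 / 2 + (γ : ℂ) * I)) := by
    rw [Finset.sum_sigma]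
    unfold Gk gg
    refine Finset.sum_congr rfl fun n _ => ?_
    push_cast
    rw [Finset.sum_mul, Finset.sum_mul]
  have e2 : ∑ m ∈ Finset.Icc 1 (Zd d T),
      ((am h d T m : ℝ) : ℂ) * (m : ℂ) ^ (-(1 / 2 + (γ : ℂ) * I)) * Sj κ T m γ =
      ∑ x ∈ (Finset.Icc 1 (Zd d T)) ×ˢ (Finset.Icc 1 ⌊T⌋₊),
      ((am h d T x.1 : ℝ) : ℂ) * (x.1 : ℂ) ^ (-(1 / 2 + (γ : ℂ) * I)) *
        ((κ (Real.log (x.1 * x.2) / Real.log T) : ℂ) * (x.2 : ℂ) ^ (-(1 / 2 + (γ : ℂ) * I))) := by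
    rw [Finset.sum_product]
    refine Finset.sum_congr rfl fun m _ => ?_
    unfold Sj
    rw [Finset.mul_sum]
  rw [e1, e2]
  refine Finset.sum_bij_ne_zero (fun x _ _ => (x.2, x.1 / x.2)) ?_ ?_ ?_ ?_
  · rintro ⟨n, m⟩ hx hne
    simp only [Finset.mem_sigma, Finset.mem_Icc, Nat.mem_divisors] at hx
    simp only at hne
    obtain ⟨⟨hn1, hn2⟩, hmn, hn0⟩ := hx
    have hm1 : 1 ≤ m := Nat.pos_of_dvd_of_pos hmn (by omega)
    have ham : am h d T m ≠ 0 := by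
      intro h0
      apply hne
      rw [h0]
      simp
    have hmZ : m ≤ Zd d T := by
      by_contra h0
      exact ham (am_zero_of_gt (by omega))
    simp only [Finset.mem_product, Finset.mem_Icc]
    refine ⟨⟨hm1, hmZ⟩, Nat.div_pos (Nat.le_of_dvd (by omega) hmn) hm1,
      (Nat.div_le_self n m).trans hn2⟩
  · rintro ⟨n, m⟩ hx hne ⟨n', m'⟩ hx' hne' heq
    simp only [Finset.mem_sigma, Finset.mem_Icc, Nat.mem_divisors] at hx hx'
    simp only [Prod.mk.injEq] at heq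
    obtain ⟨h1, h2⟩ := heq
    subst h1
    have h3 : n = n' := by
      rw [← Nat.mul_div_cancel' hx.2.1, ← Nat.mul_div_cancel' hx'.2.1, h2]
    subst h3
    rfl
  · rintro ⟨m, j⟩ hx hne
    simp only [Finset.mem_product, Finset.mem_Icc] at hx
    simp only at hne
    obtain ⟨⟨hm1, hm2⟩, hj1, hj2⟩ := hx
    have hκne : κ (Real.log (m * j) / Real.log T) ≠ 0 := by
      intro h0
      apply hne
      rw [h0]
      simp
    have hmj : (0 : ℝ) < (m : ℝ) * j := by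
      have h1 : (0 : ℝ) < m := by exact_mod_cast hm1
      have h2 : (0 : ℝ) < j := by exact_mod_cast hj1
      positivity
    have hlt : (m : ℝ) * j < T := by
      by_contra h0
      apply hκne
      apply hκ.zero
      rw [le_div_iff₀ hL]
      have h1 : Real.log T ≤ Real.log (m * j) := Real.log_le_log hT0 (by linarith)
      nlinarith
    have hle : m * j ≤ ⌊T⌋₊ := by
      rw [Nat.le_floor_iff hT0.le]
      push_cast
      exact hlt.le
    have hmjn : 1 ≤ m * j := Nat.mul_pos hm1 hj1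
    refine ⟨⟨m * j, m⟩, ?_, ?_, ?_⟩
    · simp only [Finset.mem_sigma, Finset.mem_Icc, Nat.mem_divisors]
      exact ⟨⟨hmjn, hle⟩, Dvd.intro _ rfl, by omega⟩
    · simp only
      intro h0
      apply hne
      rw [← h0]
      push_cast
      rw [Complex.natCast_mul_natCast_cpow]
      ring
    · simp only
      rw [Nat.mul_div_cancel_left _ (by omega)]
  · rintro ⟨n, m⟩ hx hne
    simp only [Finset.mem_sigma, Finset.mem_Icc, Nat.mem_divisors] at hx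
    obtain ⟨⟨hn1, hn2⟩, hmn, hn0⟩ := hx
    obtain ⟨j, rfl⟩ := hmn
    have hm0 : 0 < m := Nat.pos_of_ne_zero fun h0 => by simp [h0] at hn1
    simp only
    rw [Nat.mul_div_cancel_left _ hm0]
    push_cast
    rw [Complex.natCast_mul_natCast_cpow]
    ring

private theorem AFE_Uu (h κ : ℝ → ℝ) (d T γ : ℝ) :
    Uu h (fun x => 1 - κ x) d T γ = ∑ m ∈ Finset.Icc 1 (Zd d T),
      ((am h d T m : ℝ) : ℂ) * (m : ℂ) ^ (-(1 / 2 + (γ : ℂ) * I)) *
        (chi (1 / 2 + (γ : ℂ) * I) * Sr κ T m γ) := by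
  unfold Uu Vv Sr
  rw [Finset.mul_sum]
  refine Finset.sum_congr rfl fun m _ => ?_
  rw [Finset.mul_sum, Finset.mul_sum, Finset.mul_sum]
  refine Finset.sum_congr rfl fun r _ => ?_
  push_cast
  ring

/-- **Module afe** (about 120 lines). The approximate functional equation of `ζ A` at the zeros.

PROOF. `Gk(γ) = ∑_{n ≤ T} ∑_{m∣n} a(m) κ(log n/L) n^{-ρ} = ∑_{m ≤ Z} a(m) m^{-ρ} Sj κ T m γ`: put
`n = m j`; `a(m) = 0` for `m > Z`; the terms of `Sj` with `m j > T` vanish (`κ = 0` there, as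
`log(mj)/L ≥ 1`). And `Uu (1-κ)(γ) = χ(ρ) ∑_{m ≤ Z} a(m) m^{-ρ} Sr κ T m γ` by definition. So by
`afe_one` (`m ≤ Z ≤ T^d ≤ T^{1/2}`, as `d < 1/2`) and `am_bdd`:
`‖Gk + Uu‖ ≤ ∑_{m ≤ Z} C m^{-1/2} C m T^{-(1-2e)} ≤ C' Z^{3/2} T^{-(1-2e)} ≤ C' T^{3d/2 - 1 + 2e}`, and
`3d/2 + 2e ≤ (3/4)(1 - 2e) + 2e = 3/4 + e/2 ≤ 0.775`, so the exponent is `≤ -0.225`. -/
theorem S_afe (hRH : RiemannHypothesis) {h κ : ℝ → ℝ} {d e : ℝ} (hh : Hok h) (hd : 0 < d)
    (he : 0 < e) (he' : e ≤ 1 / 20) (hde : 2 * d + 2 * e < 1) (hκ : Step (1 - 2 * e) (1 - e) κ) :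
    ∀ᶠ T : ℝ in atTop, ∀ u : Zer, T1 T ≤ ord u → ord u ≤ T →
      ‖Gk h κ d T (ord u) + Uu h (fun x => 1 - κ x) d T (ord u)‖ ≤ T ^ (-(1 / 10) : ℝ) := by
  obtain ⟨C₁, hC₁, hone⟩ := afe_one hRH he he' hκ
  obtain ⟨C₂, hC₂, ham⟩ := am_bdd hh hd
  have hlim : Tendsto (fun T : ℝ => C₂ * C₁ * T ^ (-(1 / 8) : ℝ)) atTop (𝓝 0) := by
    have h1 := (tendsto_rpow_neg_atTop (y := 1 / 8) (by norm_num)).const_mul (C₂ * C₁)
    simpa using h1
  filter_upwards [hone, ham, eventually_gt_atTop 1,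
    hlim.eventually (eventually_le_nhds one_pos)] with T h1 h2 hT hsm
  intro u hu1 hu2
  have hT0 : 0 < T := by linarith
  rw [AFE_Gk he hκ hT, AFE_Uu, ← Finset.sum_add_distrib]
  have hZ : (Zd d T : ℝ) ≤ T ^ d := Nat.floor_le (by positivity)
  have hTd : 0 < T ^ d := by positivity
  have hdT : T ^ d ≤ T ^ (1 / 2 : ℝ) := Real.rpow_le_rpow_of_exponent_le hT.le (by linarith)
  have hterm : ∀ m ∈ Finset.Icc 1 (Zd d T),
      ‖((am h d T m : ℝ) : ℂ) * (m : ℂ) ^ (-(1 / 2 + (ord u : ℂ) * I)) * Sj κ T m (ord u) +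
        ((am h d T m : ℝ) : ℂ) * (m : ℂ) ^ (-(1 / 2 + (ord u : ℂ) * I)) *
        (chi (1 / 2 + (ord u : ℂ) * I) * Sr κ T m (ord u))‖ ≤
      C₂ * C₁ * T ^ (d / 2) * T ^ (-(1 - 2 * e) : ℝ) := by
    intro m hm
    rw [Finset.mem_Icc] at hm
    have hm1 : (1 : ℝ) ≤ m := by exact_mod_cast hm.1
    have hm0 : (0 : ℝ) < m := by linarith
    have hmZ : (m : ℝ) ≤ T ^ d := le_trans (by exact_mod_cast hm.2) hZ
    have h3 := h1 m u hm.1 (hmZ.trans hdT) hu1 hu2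
    have h4 := h2 m
    rw [← mul_add, norm_mul, norm_mul, Complex.norm_real, Real.norm_eq_abs,
      Complex.norm_natCast_cpow_of_pos hm.1]
    have e1 : (-(1 / 2 + (ord u : ℂ) * I)).re = -(1 / 2) := by simp
    rw [e1]
    have h5 : (m : ℝ) ^ (-(1 / 2) : ℝ) * m ≤ T ^ (d / 2) := by
      calc (m : ℝ) ^ (-(1 / 2) : ℝ) * m = (m : ℝ) ^ (1 / 2 : ℝ) := by
            conv_lhs => rw [← Real.rpow_one (m : ℝ), ← Real.rpow_mul hm0.le, ← Real.rpow_add hm0]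
            norm_num
        _ ≤ (T ^ d) ^ (1 / 2 : ℝ) := Real.rpow_le_rpow hm0.le hmZ (by norm_num)
        _ = T ^ (d / 2) := by
            rw [← Real.rpow_mul hT0.le]
            ring_nf
    calc |am h d T m| * (m : ℝ) ^ (-(1 / 2) : ℝ) *
          ‖Sj κ T m (ord u) + chi (1 / 2 + (ord u : ℂ) * I) * Sr κ T m (ord u)‖
        ≤ C₂ * (m : ℝ) ^ (-(1 / 2) : ℝ) * (C₁ * m * T ^ (-(1 - 2 * e) : ℝ)) :=
          mul_le_mul (mul_le_mul_of_nonneg_right h4 (by positivity)) h3 (norm_nonneg _)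
            (by positivity)
      _ = C₂ * C₁ * ((m : ℝ) ^ (-(1 / 2) : ℝ) * m) * T ^ (-(1 - 2 * e) : ℝ) := by ring
      _ ≤ C₂ * C₁ * T ^ (d / 2) * T ^ (-(1 - 2 * e) : ℝ) :=
          mul_le_mul_of_nonneg_right (mul_le_mul_of_nonneg_left h5 (by positivity)) (by positivity)
  refine (norm_sum_le_of_le _ hterm).trans ?_
  rw [Finset.sum_const, Nat.card_Icc, Nat.add_sub_cancel, nsmul_eq_mul]
  calc (Zd d T : ℝ) * (C₂ * C₁ * T ^ (d / 2) * T ^ (-(1 - 2 * e) : ℝ))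
      ≤ T ^ d * (C₂ * C₁ * T ^ (d / 2) * T ^ (-(1 - 2 * e) : ℝ)) :=
        mul_le_mul_of_nonneg_right hZ (by positivity)
    _ = C₂ * C₁ * T ^ (d + d / 2 + -(1 - 2 * e)) := by
        rw [Real.rpow_add hT0, Real.rpow_add hT0]
        ring
    _ ≤ C₂ * C₁ * T ^ (-(1 / 8) + -(1 / 10) : ℝ) := by
        refine mul_le_mul_of_nonneg_left ?_ (by positivity)
        refine Real.rpow_le_rpow_of_exponent_le hT.le ?_
        linarith
    _ = C₂ * C₁ * T ^ (-(1 / 8) : ℝ) * T ^ (-(1 / 10) : ℝ) := by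
        rw [Real.rpow_add hT0]
        ring
    _ ≤ 1 * T ^ (-(1 / 10) : ℝ) := mul_le_mul_of_nonneg_right hsm (by positivity)
    _ = T ^ (-(1 / 10) : ℝ) := one_mul _

end Pool.Agent.MP_67227b_nt.Fb
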