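import Pool.Agent.MP_67227b_nt.Fb.FbChiL

set_option autoImplicit false

open Filter Topology Set MeasureTheory Complex
open scoped Real ContDiff ArithmeticFunction ArithmeticFunction.Moebius ComplexConjugate

namespace Pool.Agent.MP_67227b_nt.Fb

open Pool.Agent.Lib.ZetaCount_helper33 Pool.Agent.MP_67227b_nt Pool.Agent.MP_67227b_nt.Mo

private theorem chir_log {x : ℝ} (hx : |x| ≤ 1 / 2) : |Real.log (1 + x)| ≤ 2 * |x| := by
  have h1 := abs_le.mp hx
  have h2 : 0 < 1 + x := by linarith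
  rw [abs_le]
  constructor
  · have h3 := Real.one_sub_inv_le_log_of_pos h2
    have h4 : -(2 * |x|) ≤ 1 - (1 + x)⁻¹ := by
      have h5 : 1 - (1 + x)⁻¹ = x / (1 + x) := by
        field_simp
        ring
      rw [h5, le_div_iff₀ h2]
      have h6 := neg_abs_le x
      have h7 := abs_nonneg x
      nlinarith
    linarith
  · have h3 := Real.log_le_sub_one_of_pos h2
    have h4 := le_abs_self x
    have h5 := abs_nonneg x
    linarith

private theorem chir_common : ∃ C : ℝ, 1 ≤ C ∧ ∀ (γ : ℝ) (w : ℂ), 20 ≤ γ → -1 ≤ w.re → w.re ≤ 0 →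
    |w.im| ≤ γ / 2 → C * ‖w‖ * (1 + ‖w‖) / γ ≤ 1 →
    ‖chi (1 / 2 + (γ : ℂ) * I + w) - chi (1 / 2 + (γ : ℂ) * I) *
      Complex.exp (-w * (Real.log (γ / (2 * π)) : ℂ))‖ ≤
      2 * (C * ‖w‖ * (1 + ‖w‖) / γ) * Real.exp (-w.re * Real.log (γ / (2 * π))) := by
  obtain ⟨C0, hC0, hlog⟩ := chi_logDeriv
  refine ⟨2 * (C0 + 1), by linarith, ?_⟩
  intro γ w hγ hw1 hw2 hw3 hX
  set a : ℝ := Real.log (γ / (2 * π)) with ha
  set X : ℝ := 2 * (C0 + 1) * ‖w‖ * (1 + ‖w‖) / γ with hXd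
  have hγ0 : 0 < γ := by linarith
  have hX0 : 0 ≤ X := by positivity
  set s0 : ℂ := 1 / 2 + (γ : ℂ) * I with hs0
  have hs0re : s0.re = 1 / 2 := by simp [hs0]
  have hs0im : s0.im = γ := by simp [hs0]
  -- the function
  let hfun : ℂ → ℂ := fun z => chi (s0 + z * w) * Complex.exp (z * w * a)
  let f : ℝ → ℂ := fun u => hfun u
  have hre : ∀ u : ℝ, (s0 + (u : ℂ) * w).re = 1 / 2 + u * w.re := by
    intro u
    rw [Complex.add_re, hs0re, Complex.re_ofReal_mul]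
  have him : ∀ u : ℝ, (s0 + (u : ℂ) * w).im = γ + u * w.im := by
    intro u
    rw [Complex.add_im, hs0im, Complex.im_ofReal_mul]
  have hu1 : ∀ u : ℝ, 0 ≤ u → u ≤ 1 → |u * w.im| ≤ γ / 2 := by
    intro u h0 h1
    rw [abs_mul, abs_of_nonneg h0]
    have := abs_nonneg w.im
    nlinarith
  have hder : ∀ u : ℝ, 0 ≤ u → u ≤ 1 → HasDerivAt f
      (f u * (w * (logDeriv chi (s0 + (u : ℂ) * w) + a))) u := by
    intro u h0 h1
    have hlt : (s0 + (u : ℂ) * w).re < 1 := by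
      rw [hre]
      nlinarith
    have hne : (s0 + (u : ℂ) * w).im ≠ 0 := by
      rw [him]
      have := (abs_le.mp (hu1 u h0 h1)).1
      intro h
      linarith
    have d1 : HasDerivAt chi (deriv chi (s0 + (u : ℂ) * w)) (s0 + (u : ℂ) * w) :=
      (chi_differentiableAt hlt).hasDerivAt
    have d2 : HasDerivAt (fun z : ℂ => s0 + z * w) w (u : ℂ) := by
      have := ((hasDerivAt_id (u : ℂ)).mul_const w).const_add s0
      simpa using this
    have d1' : HasDerivAt chi (deriv chi (s0 + (u : ℂ) * w)) ((fun z : ℂ => s0 + z * w) (u : ℂ)) := d1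
    have d3' := HasDerivAt.comp (h₂ := chi) (h := fun z : ℂ => s0 + z * w) (u : ℂ) d1' d2
    have d3 : HasDerivAt (fun z : ℂ => chi (s0 + z * w)) (deriv chi (s0 + (u : ℂ) * w) * w) (u : ℂ) :=
      d3'
    have d4 : HasDerivAt (fun z : ℂ => z * w * (a : ℂ)) (w * a) (u : ℂ) := by
      have := ((hasDerivAt_id (u : ℂ)).mul_const w).mul_const (a : ℂ)
      simpa using this
    have d5 : HasDerivAt (fun z : ℂ => Complex.exp (z * w * (a : ℂ)))
        (Complex.exp ((u : ℂ) * w * a) * (w * a)) (u : ℂ) := d4.cexp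
    have d6 := (d3.mul d5).comp_ofReal
    refine HasDerivAt.congr_deriv (f := f)
      (f' := deriv chi (s0 + (u : ℂ) * w) * w * Complex.exp ((u : ℂ) * w * a) +
        chi (s0 + (u : ℂ) * w) * (Complex.exp ((u : ℂ) * w * a) * (w * a))) ?_ ?_
    · exact d6
    · have hd : deriv chi (s0 + (u : ℂ) * w) =
          logDeriv chi (s0 + (u : ℂ) * w) * chi (s0 + (u : ℂ) * w) := by
        rw [logDeriv_apply, div_mul_cancel₀ _ (chi_ne_zero hlt hne)]
      rw [hd]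
      show _ = chi (s0 + (u : ℂ) * w) * Complex.exp ((u : ℂ) * w * a) * _
      ring
  have hbd : ∀ u : ℝ, 0 ≤ u → u ≤ 1 → ‖w * (logDeriv chi (s0 + (u : ℂ) * w) + a)‖ ≤ X := by
    intro u h0 h1
    have hiu := abs_le.mp (hu1 u h0 h1)
    have h3 := hlog (s0 + (u : ℂ) * w) (by rw [hre]; nlinarith) (by rw [hre]; nlinarith)
      (by rw [him]; linarith [hiu.1])
    rw [him] at h3
    have hi0 : 0 < γ + u * w.im := by linarith [hiu.1]
    have h4 : C0 / (γ + u * w.im) ≤ 2 * C0 / γ := by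
      rw [div_le_div_iff₀ hi0 hγ0]
      nlinarith [hiu.1]
    have h5 : a - Real.log ((γ + u * w.im) / (2 * π)) = -Real.log (1 + u * w.im / γ) := by
      rw [ha, Real.log_div hγ0.ne' (by positivity), Real.log_div hi0.ne' (by positivity)]
      have h6 : 1 + u * w.im / γ = (γ + u * w.im) / γ := by
        field_simp
      rw [h6, Real.log_div hi0.ne' hγ0.ne']
      ring
    have h7 : |u * w.im / γ| ≤ ‖w‖ / γ := by
      rw [abs_div, abs_of_pos hγ0]
      apply div_le_div_of_nonneg_right _ hγ0.le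
      rw [abs_mul, abs_of_nonneg h0]
      have := Complex.abs_im_le_norm w
      have := abs_nonneg w.im
      nlinarith
    have h8 : |u * w.im / γ| ≤ 1 / 2 := by
      rw [abs_div, abs_of_pos hγ0, div_le_iff₀ hγ0]
      have := hu1 u h0 h1
      linarith
    have h9 : ‖((a - Real.log ((γ + u * w.im) / (2 * π)) : ℝ) : ℂ)‖ ≤ 2 * (‖w‖ / γ) := by
      rw [Complex.norm_real, Real.norm_eq_abs, h5, abs_neg]
      exact (chir_log h8).trans (by linarith)
    have h10 : ‖logDeriv chi (s0 + (u : ℂ) * w) + a‖ ≤ 2 * C0 / γ + 2 * (‖w‖ / γ) := by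
      have e : logDeriv chi (s0 + (u : ℂ) * w) + (a : ℂ) =
          (logDeriv chi (s0 + (u : ℂ) * w) + (Real.log ((γ + u * w.im) / (2 * π)) : ℂ)) +
            ((a - Real.log ((γ + u * w.im) / (2 * π)) : ℝ) : ℂ) := by
        push_cast
        ring
      rw [e]
      refine (norm_add_le _ _).trans (add_le_add (h3.trans h4) h9)
    rw [norm_mul]
    calc ‖w‖ * ‖logDeriv chi (s0 + (u : ℂ) * w) + a‖
        ≤ ‖w‖ * (2 * C0 / γ + 2 * (‖w‖ / γ)) := mul_le_mul_of_nonneg_left h10 (norm_nonneg _)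
      _ = ‖w‖ * (2 * (C0 + ‖w‖)) / γ := by ring
      _ ≤ X := by
          rw [hXd]
          apply div_le_div_of_nonneg_right _ hγ0.le
          have := norm_nonneg w
          have : 0 ≤ ‖w‖ * (C0 * ‖w‖ + 1) := by positivity
          nlinarith
  have hf0 : f 0 = chi s0 := by
    show chi (s0 + ((0 : ℝ) : ℂ) * w) * Complex.exp (((0 : ℝ) : ℂ) * w * a) = _
    simp
  have hf0n : ‖f 0‖ = 1 := by
    rw [hf0]
    exact chi_norm_half γ
  have hgr : ∀ x ∈ Icc (0 : ℝ) 1, ‖f x - f 0‖ ≤ gronwallBound 0 X X (x - 0) := by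
    apply norm_le_gronwallBound_of_norm_deriv_right_le
      (f' := fun u => f u * (w * (logDeriv chi (s0 + (u : ℂ) * w) + a)))
    · intro u hu
      exact ((hder u hu.1 hu.2).continuousAt.sub continuousAt_const).continuousWithinAt
    · intro u hu
      exact ((hder u hu.1 hu.2.le).sub_const _).hasDerivWithinAt
    · simp
    · intro u hu
      rw [norm_mul]
      have h1 := hbd u hu.1 hu.2.le
      have h2 : ‖f u‖ ≤ ‖f u - f 0‖ + 1 := by
        have := norm_add_le (f u - f 0) (f 0)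
        rw [sub_add_cancel, hf0n] at this
        exact this
      have h3 := norm_nonneg (f u)
      calc ‖f u‖ * ‖w * (logDeriv chi (s0 + (u : ℂ) * w) + a)‖
          ≤ (‖f u - f 0‖ + 1) * X := mul_le_mul h2 h1 (norm_nonneg _) (by positivity)
        _ = X * ‖f u - f 0‖ + X := by ring
  have h1 := hgr 1 ⟨zero_le_one, le_refl _⟩
  have h2 : gronwallBound 0 X X (1 - 0) ≤ 2 * X := by
    unfold gronwallBound
    split_ifs with h
    · rw [h]
      simp
    · rw [div_self h, sub_zero, mul_one, zero_mul, zero_add, one_mul]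
      have h3 := Real.abs_exp_sub_one_le (x := X) (by rw [abs_of_nonneg hX0]; exact hX)
      rw [abs_of_nonneg hX0] at h3
      exact (le_abs_self _).trans h3
  have hf1 : f 1 = chi (s0 + w) * Complex.exp (w * a) := by
    show chi (s0 + ((1 : ℝ) : ℂ) * w) * Complex.exp (((1 : ℝ) : ℂ) * w * a) = _
    simp
  have h3 : chi (s0 + w) - chi s0 * Complex.exp (-w * (a : ℂ)) =
      (f 1 - f 0) * Complex.exp (-w * (a : ℂ)) := by
    rw [hf1, hf0, sub_mul, mul_assoc, ← Complex.exp_add]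
    have : w * (a : ℂ) + -w * (a : ℂ) = 0 := by ring
    rw [this, Complex.exp_zero, mul_one]
  rw [h3, norm_mul]
  have h4 : ‖Complex.exp (-w * (a : ℂ))‖ = Real.exp (-w.re * a) := by
    rw [Complex.norm_exp]
    congr 1
    rw [mul_comm, Complex.re_ofReal_mul, Complex.neg_re]
    ring
  rw [h4]
  exact mul_le_mul_of_nonneg_right (h1.trans h2) (Real.exp_pos _).le

/-- **Module chir** (2 theorems over a common lemma, about 200 lines). The linear phase of `χ` near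
the point `1/2 + iγ`.

COMMON LEMMA (private): there is `C` such that for `γ ≥ 20` and `w` with `-1 ≤ Re w ≤ 0`,
`|Im w| ≤ γ/2` and `X := C ‖w‖ (1 + ‖w‖)/γ ≤ 1`:
`‖χ(1/2+iγ+w) - χ(1/2+iγ) e^{-w log(γ/2π)}‖ ≤ 2 X (γ/2π)^{-Re w}`.
Proof: `f(u) = χ(1/2+iγ+uw) e^{u w log(γ/2π)}`, `0 ≤ u ≤ 1`; `‖f(0)‖ = 1` (`chi_norm_half`); the point
`s_u = 1/2+iγ+uw` has `-1/2 ≤ Re s_u ≤ 1/2` and `Im s_u ∈ [γ/2, 3γ/2]`, so by `chi_logDeriv`
`f'(u) = f(u) w (logDeriv χ (s_u) + log(γ/2π))`, and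
`‖logDeriv χ(s_u) + log(γ/2π)‖ ≤ C₀/Im s_u + |log(γ/Im s_u)| ≤ 2C₀/γ + 2‖w‖/γ`
(`|log(1+x)| ≤ 2|x|` for `|x| ≤ 1/2`). So `‖f'(u)‖ ≤ X ‖f(u)‖`; by Gronwall
(`norm_le_gronwallBound_of_norm_deriv_right_le`, or work with `f/f(0) = exp(∫)`) `‖f(u)‖ ≤ e^X ≤ 3`,
and `‖f(1) - f(0)‖ ≤ X e^X ≤ 3X`; enlarge `C`. Multiply by `e^{-w log(γ/2π)}`, of norm
`(γ/2π)^{-Re w}`.

PROOF of `chi_lin0`: `w = i(t-γ)`. If `|t-γ| ≤ γ/2` and `X ≤ 1`: the lemma, since
`‖w‖(1+‖w‖) ≤ 2(1+‖w‖²)`. Otherwise `1 + |t-γ|² ≥ c γ` and the left side is at most `2`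
(`chi_norm_half` twice). -/
theorem chi_lin0 : ∃ C : ℝ, 0 < C ∧ ∀ γ t : ℝ, 20 ≤ γ →
    ‖chi (1 / 2 + (t : ℂ) * I) -
      chi (1 / 2 + (γ : ℂ) * I) * Complex.exp (-(((t - γ) * Real.log (γ / (2 * π)) : ℝ) : ℂ) * I)‖ ≤
      C * (1 + (t - γ) ^ 2) / γ := by
  obtain ⟨C1, hC1, hcom⟩ := chir_common
  refine ⟨4 * C1 + 2, by linarith, ?_⟩
  intro γ t hγ
  have hγ0 : 0 < γ := by linarith
  set x : ℝ := |t - γ| with hx
  have hx0 : 0 ≤ x := abs_nonneg _
  have hx2 : (t - γ) ^ 2 = x ^ 2 := by rw [hx, sq_abs]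
  rw [hx2]
  have hwre : (((t - γ : ℝ) : ℂ) * I).re = 0 := by simp
  have hwim : (((t - γ : ℝ) : ℂ) * I).im = t - γ := by simp
  have hwn : ‖((t - γ : ℝ) : ℂ) * I‖ = x := by
    rw [norm_mul, Complex.norm_I, mul_one, Complex.norm_real, Real.norm_eq_abs]
  have hxx : x * (1 + x) ≤ 2 * (1 + x ^ 2) := by nlinarith [sq_nonneg (x - 1)]
  by_cases hA : x ≤ γ / 2 ∧ C1 * x * (1 + x) / γ ≤ 1
  · have h1 := hcom γ (((t - γ : ℝ) : ℂ) * I) hγ (by rw [hwre]; norm_num) (by rw [hwre])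
      (by rw [hwim]; exact hA.1) (by rw [hwn]; exact hA.2)
    rw [hwre, hwn, neg_zero, zero_mul, Real.exp_zero, mul_one] at h1
    have e1 : (1 / 2 + (γ : ℂ) * I + ((t - γ : ℝ) : ℂ) * I) = 1 / 2 + (t : ℂ) * I := by
      push_cast
      ring
    have e2 : -(((t - γ : ℝ) : ℂ) * I) * (Real.log (γ / (2 * π)) : ℂ) =
        -(((t - γ) * Real.log (γ / (2 * π)) : ℝ) : ℂ) * I := by
      push_cast
      ring
    rw [e1, e2] at h1
    refine h1.trans ?_
    have h2 : 2 * (C1 * x * (1 + x) / γ) = (2 * C1 * (x * (1 + x))) / γ := by ring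
    rw [h2]
    apply div_le_div_of_nonneg_right _ hγ0.le
    nlinarith
  · have h1 : ‖chi (1 / 2 + (t : ℂ) * I) - chi (1 / 2 + (γ : ℂ) * I) *
        Complex.exp (-(((t - γ) * Real.log (γ / (2 * π)) : ℝ) : ℂ) * I)‖ ≤ 2 := by
      refine (norm_sub_le _ _).trans ?_
      rw [norm_mul, chi_norm_half, chi_norm_half, ← Complex.ofReal_neg, Complex.norm_exp_ofReal_mul_I]
      norm_num
    refine h1.trans ?_
    rw [le_div_iff₀ hγ0]
    rw [not_and_or, not_le, not_le] at hA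
    rcases hA with hA | hA
    · have h2 : 5 * γ ≤ x ^ 2 := by nlinarith
      nlinarith
    · rw [lt_div_iff₀ hγ0] at hA
      nlinarith

/-- The same on the line `Re w = -1`, `w = -1 + iy`.

PROOF. If `|y| ≤ γ/2` and `X ≤ 1`: the common lemma gives
`2X (γ/2π) ≤ C ‖w‖(1+‖w‖) ≤ C' (1 + y²)` (`‖w‖² = 1 + y²`). Otherwise `1 + y² ≥ cγ`, and by
`chi_norm_neg` `‖χ(-1/2+i(γ+y))‖ ≤ 1 + |γ + y| ≤ 1 + γ + |y| ≤ C (1 + y²)`, while
`‖χ(1/2+iγ) e^{-w log(γ/2π)}‖ = γ/2π ≤ C (1 + y²)`. -/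
theorem chi_lin_neg : ∃ C : ℝ, 0 < C ∧ ∀ γ y : ℝ, 20 ≤ γ →
    ‖chi (1 / 2 + (γ : ℂ) * I + (-1 + (y : ℂ) * I)) -
      chi (1 / 2 + (γ : ℂ) * I) *
        Complex.exp (-(-1 + (y : ℂ) * I) * (Real.log (γ / (2 * π)) : ℂ))‖ ≤ C * (1 + y ^ 2) := by
  obtain ⟨C1, hC1, hcom⟩ := chir_common
  refine ⟨4 * C1 + 4, by linarith, ?_⟩
  intro γ y hγ
  have hγ0 : 0 < γ := by linarith
  have hπ := Real.pi_gt_three
  set w : ℂ := -1 + (y : ℂ) * I with hw
  have hwre : w.re = -1 := by simp [hw]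
  have hwim : w.im = y := by simp [hw]
  have hwn2 : ‖w‖ ^ 2 = 1 + y ^ 2 := by
    rw [Complex.sq_norm, Complex.normSq_apply, hwre, hwim]
    ring
  have hwn : 1 ≤ ‖w‖ := by
    have := norm_nonneg w
    nlinarith [sq_nonneg y]
  have hww : ‖w‖ * (1 + ‖w‖) ≤ 2 * (1 + y ^ 2) := by nlinarith
  have hexp : Real.exp (-w.re * Real.log (γ / (2 * π))) = γ / (2 * π) := by
    rw [hwre, neg_neg, one_mul, Real.exp_log (by positivity)]
  by_cases hA : |y| ≤ γ / 2 ∧ C1 * ‖w‖ * (1 + ‖w‖) / γ ≤ 1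
  · have h1 := hcom γ w hγ (by rw [hwre]) (by rw [hwre]; norm_num)
      (by rw [hwim]; exact hA.1) hA.2
    rw [hexp] at h1
    refine h1.trans ?_
    have h2 : 2 * (C1 * ‖w‖ * (1 + ‖w‖) / γ) * (γ / (2 * π)) = C1 * (‖w‖ * (1 + ‖w‖)) / π := by
      field_simp
    rw [h2, div_le_iff₀ Real.pi_pos]
    have h3 : C1 * (‖w‖ * (1 + ‖w‖)) ≤ C1 * (2 * (1 + y ^ 2)) :=
      mul_le_mul_of_nonneg_left hww (by linarith)
    have h4 : 0 ≤ (4 * C1 + 4) * (1 + y ^ 2) := by positivity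
    nlinarith [sq_nonneg y]
  · have hn1 : ‖chi (1 / 2 + (γ : ℂ) * I + w)‖ ≤ 1 + γ + |y| := by
      have e1 : (1 / 2 + (γ : ℂ) * I + w) = -1 / 2 + ((γ + y : ℝ) : ℂ) * I := by
        rw [hw]
        push_cast
        ring
      rw [e1, chi_norm_neg, div_le_iff₀ (by positivity)]
      have h5 : Real.sqrt (1 / 4 + (γ + y) ^ 2) ≤ 1 + γ + |y| := by
        apply Real.sqrt_le_iff.mpr
        have h6 := abs_nonneg y
        refine ⟨by linarith, ?_⟩
        have h7 : |γ + y| ≤ γ + |y| := by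
          have := abs_add_le γ y
          rwa [abs_of_pos hγ0] at this
        have h8 : (γ + y) ^ 2 ≤ (γ + |y|) ^ 2 := by
          rw [← sq_abs (γ + y)]
          exact pow_le_pow_left₀ (abs_nonneg _) h7 2
        nlinarith
      have h9 : 0 ≤ 1 + γ + |y| := by positivity
      nlinarith
    have hn2 : ‖chi (1 / 2 + (γ : ℂ) * I) * Complex.exp (-w * (Real.log (γ / (2 * π)) : ℂ))‖ ≤ γ := by
      rw [norm_mul, chi_norm_half, one_mul, Complex.norm_exp]
      have e2 : (-w * (Real.log (γ / (2 * π)) : ℂ)).re = -w.re * Real.log (γ / (2 * π)) := by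
        rw [mul_comm, Complex.re_ofReal_mul, Complex.neg_re]
        ring
      rw [e2, hexp, div_le_iff₀ (by positivity)]
      nlinarith
    refine (norm_sub_le _ _).trans ?_
    have hy1 : |y| ≤ 1 + y ^ 2 := by
      rw [← sq_abs y]
      nlinarith [sq_nonneg (|y| - 1), abs_nonneg y]
    have hγb : γ ≤ (2 * C1 + 1) * (1 + y ^ 2) := by
      rw [not_and_or, not_le, not_le] at hA
      rcases hA with hA | hA
      · have h2 : 5 * γ ≤ y ^ 2 := by
          rw [← sq_abs y]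
          nlinarith
        nlinarith [sq_nonneg y]
      · rw [lt_div_iff₀ hγ0] at hA
        nlinarith [sq_nonneg y]
    nlinarith [sq_nonneg y]

end Pool.Agent.MP_67227b_nt.Fb
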