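import Pool.Agent.MP_67227b_nt.Fb.FbMel
import Pool.Agent.MP_67227b_nt.Fb.FbChiR

set_option autoImplicit false

open Filter Topology Set MeasureTheory Complex
open scoped Real ContDiff ArithmeticFunction ArithmeticFunction.Moebius ComplexConjugate

namespace Pool.Agent.MP_67227b_nt.Fb

open Pool.Agent.Lib.ZetaCount_helper33 Pool.Agent.MP_67227b_nt Pool.Agent.MP_67227b_nt.Mo

namespace AfeRAux


private theorem ln_re (σ y : ℝ) : (ln σ y).re = σ := by simp [ln]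
private theorem ln_im (σ y : ℝ) : (ln σ y).im = y := by simp [ln]

private theorem ln_ne {σ : ℝ} (hσ : σ ≠ 0) (y : ℝ) : ln σ y ≠ 0 := fun h => hσ (by
  have := congrArg Complex.re h
  rwa [ln_re] at this)

private theorem ln_cont (σ : ℝ) : Continuous (ln σ) := by unfold ln; fun_prop

private theorem sq_le {σ : ℝ} (hσ : 1 ≤ |σ|) (y : ℝ) : 1 + y ^ 2 ≤ ‖ln σ y‖ ^ 2 := by
  rw [← Complex.normSq_eq_norm_sq, Complex.normSq_apply, ln_re, ln_im]
  have : 1 ≤ σ * σ := by nlinarith [abs_mul_abs_self σ, abs_nonneg σ]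
  nlinarith

/-- integrability along the line -/
private theorem H_int {κ : ℝ → ℝ} {L σ C : ℝ} (hσ : 1 ≤ |σ|) (hd : Differentiable ℂ (Rk κ L))
    (hb : ∀ y : ℝ, ‖Rk κ L (ln σ y)‖ ≤ C / (1 + ‖ln σ y‖) ^ 2) :
    Integrable fun y : ℝ => Rk κ L (ln σ y) / ln σ y := by
  have hσ0 : σ ≠ 0 := by
    intro h
    rw [h, abs_zero] at hσ
    linarith
  have hc : Continuous fun y : ℝ => Rk κ L (ln σ y) / ln σ y :=
    (hd.continuous.comp (ln_cont σ)).div (ln_cont σ) fun y => ln_ne hσ0 y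
  have hC : 0 ≤ C := by
    have := (norm_nonneg _).trans (hb 0)
    by_contra h
    push Not at h
    have h2 : C / (1 + ‖ln σ 0‖) ^ 2 < 0 := div_neg_of_neg_of_pos h (by positivity)
    linarith
  refine Integrable.mono' (integrable_inv_one_add_sq.const_mul C) hc.aestronglyMeasurable
    (Eventually.of_forall fun y => ?_)
  have h1 := sq_le hσ y
  have h2 : 1 ≤ ‖ln σ y‖ := by
    by_contra h
    push Not at h
    nlinarith [norm_nonneg (ln σ y), sq_nonneg y]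
  rw [norm_div]
  refine (div_le_self (norm_nonneg _) h2).trans ((hb y).trans ?_)
  rw [div_eq_mul_inv]
  refine mul_le_mul_of_nonneg_left (inv_anti₀ (by positivity) ?_) hC
  nlinarith [norm_nonneg (ln σ y)]

private theorem norm_pow {x : ℝ} (hx : 0 < x) (σ y : ℝ) : ‖(x : ℂ) ^ (-(ln σ y))‖ = x ^ (-σ) := by
  rw [Complex.norm_cpow_eq_rpow_re_of_pos hx, Complex.neg_re, ln_re]

private theorem pow_cont {x : ℝ} (hx : 0 < x) (σ : ℝ) :
    Continuous fun y : ℝ => (x : ℂ) ^ (-(ln σ y)) := by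
  have h := ln_cont σ
  have h0 : (x : ℂ) ≠ 0 := by exact_mod_cast hx.ne'
  exact Continuous.const_cpow (by fun_prop) (Or.inl h0)

/-- exchange of the sum and the integral -/
private theorem ser {κ c : ℝ → ℝ} {L σ : ℝ} {a : ℕ → ℂ} {x : ℕ → ℝ} (hx : ∀ j, 0 < x j)
    (hs : Summable fun j => ‖a j‖ * x j ^ (-σ))
    (hH : Integrable fun y : ℝ => Rk κ L (ln σ y) / ln σ y)
    (hm : ∀ x : ℝ, 0 < x → (1 / (2 * π : ℂ)) *
      ∫ y : ℝ, (x : ℂ) ^ (-(ln σ y)) * Rk κ L (ln σ y) / ln σ y = (c (Real.log x / L) : ℂ)) :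
    (1 / (2 * π : ℂ)) * ∫ y : ℝ, (∑' j, a j * (x j : ℂ) ^ (-(ln σ y))) *
      (Rk κ L (ln σ y) / ln σ y) = ∑' j, a j * (c (Real.log (x j) / L) : ℂ) := by
  set H : ℝ → ℂ := fun y => Rk κ L (ln σ y) / ln σ y with hHdef
  have hn : ∀ j y, ‖a j * (x j : ℂ) ^ (-(ln σ y)) * H y‖ = ‖a j‖ * x j ^ (-σ) * ‖H y‖ := by
    intro j y
    rw [norm_mul, norm_mul, norm_pow (hx j)]
  have hint : ∀ j, Integrable fun y : ℝ => a j * (x j : ℂ) ^ (-(ln σ y)) * H y := by
    intro j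
    refine Integrable.mono' (hH.norm.const_mul (‖a j‖ * x j ^ (-σ)))
      (((continuous_const.mul (pow_cont (hx j) σ)).aestronglyMeasurable).mul
        hH.aestronglyMeasurable) (Eventually.of_forall fun y => ?_)
    exact (hn j y).le
  have hsum : Summable fun j => ∫ y : ℝ, ‖a j * (x j : ℂ) ^ (-(ln σ y)) * H y‖ := by
    have h1 : (fun j => ∫ y : ℝ, ‖a j * (x j : ℂ) ^ (-(ln σ y)) * H y‖) =
        fun j => (‖a j‖ * x j ^ (-σ)) * ∫ y : ℝ, ‖H y‖ := by
      funext j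
      rw [← integral_const_mul]
      exact integral_congr_ae (Eventually.of_forall fun y => hn j y)
    rw [h1]
    exact hs.mul_right _
  have h := (hasSum_integral_of_summable_integral_norm hint hsum).tsum_eq
  have h2 : (∫ y : ℝ, (∑' j, a j * (x j : ℂ) ^ (-(ln σ y))) * H y) =
      ∫ y : ℝ, ∑' j, a j * (x j : ℂ) ^ (-(ln σ y)) * H y := by
    refine integral_congr_ae (Eventually.of_forall fun y => ?_)
    simp only
    rw [tsum_mul_right]
  rw [h2, ← h, ← tsum_mul_left]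
  refine tsum_congr fun j => ?_
  rw [← hm (x j) (hx j)]
  have h3 : (∫ y : ℝ, a j * (x j : ℂ) ^ (-(ln σ y)) * H y) =
      a j * ∫ y : ℝ, (x j : ℂ) ^ (-(ln σ y)) * Rk κ L (ln σ y) / ln σ y := by
    rw [← integral_const_mul]
    refine integral_congr_ae (Eventually.of_forall fun y => ?_)
    simp only [hHdef]
    ring
  rw [h3]
  ring

private theorem summable_32 : Summable fun j : ℕ => ((j : ℝ) + 1) ^ (-(3 / 2) : ℝ) := by
  have h := (Real.summable_nat_rpow (p := -(3 / 2))).2 (by norm_num)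
  have h2 := (summable_nat_add_iff 1).2 h
  refine h2.congr fun j => ?_
  push_cast
  rfl


end AfeRAux

open AfeRAux

/-- **Module afer** (about 200 lines). The integral over `Re w = -1` is the dual sum up to a small
error.

PROOF. `L = log T`, `ρ = 1/2 + iγ`, `w = ln (-1) y`. By `chi_fe` (`Re(ρ+w) = -1/2 < 0`, so the point is
not `0` and not `n+1`) `ζ(ρ+w) = χ(ρ+w) ζ(1-ρ-w)`, `Re(1-ρ-w) = 3/2`,
`ζ(1-ρ-w) = ∑_{r≥1} r^{-(1-ρ)} r^{w}`, of norm at most `K = ∑ r^{-3/2}`. Write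
`χ(ρ+w) = χ(ρ) e^{-w log(γ/2π)} + E(y)`, `‖E(y)‖ ≤ C (1+y²)` by `chi_lin_neg`.
(a) The error: `‖(1/2π) ∫ E(y) ζ(1-ρ-w) m^{-w} Rk(w)/w dy‖ ≤ C K m ∫ (1+y²) ‖Rk(w)‖ dy`, as
`‖m^{-w}‖ = m`, `‖w‖ ≥ 1`, and `‖Rk(w)‖ ≤ C e^{-L(1-2e)}/(1+‖w‖)^4` (`Rk_left`, `k = 4`), `‖w‖² = 1+y²`:
at most `C' m T^{-(1-2e)}`.
(b) The main part: exchange sum and integral (all is absolutely convergent) and use `mellin_left`
with `x = mγ/(2πr) > 0` (`x^{-w} = m^{-w} r^{w} e^{-w log(γ/2π)}`):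
`(1/2π) ∫ χ(ρ) e^{-w log(γ/2π)} ∑_r r^{-(1-ρ)} r^w m^{-w} Rk(w)/w dy
 = χ(ρ) ∑_{r≥1} r^{-(1-ρ)} (κ(log(mγ/2πr)/L) - 1)`; for `r > ⌊T⌋`, i.e. `r > T ≥ γ`:
`mγ/(2πr) ≤ m ≤ T^{1/2}`, so `log(..)/L ≤ 1/2 ≤ 1-2e` and the term is `0`. So this is
`- χ(ρ) Sr κ T m γ` (`1 - ρ = 1/2 - iγ`). -/
theorem afe_right {κ : ℝ → ℝ} {e : ℝ} (he : 0 < e) (he' : e ≤ 1 / 20)
    (hκ : Step (1 - 2 * e) (1 - e) κ) :
    ∃ C : ℝ, 0 < C ∧ ∀ (T : ℝ) (m : ℕ) (γ : ℝ), 3 ≤ T → 1 ≤ m → (m : ℝ) ≤ T ^ (1 / 2 : ℝ) →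
      20 ≤ γ → γ ≤ T →
      ‖Jl κ T m γ (-1) + chi (1 / 2 + (γ : ℂ) * I) * Sr κ T m γ‖ ≤
        C * m * T ^ (-(1 - 2 * e) : ℝ) := by
  obtain ⟨C₂, hC₂, hb2⟩ := Rk_left he hκ 2
  obtain ⟨C₄, hC₄, hb4⟩ := Rk_left he hκ 4
  obtain ⟨C₁, hC₁, hχ⟩ := chi_lin_neg
  set K : ℝ := ∑' j : ℕ, ((j : ℝ) + 1) ^ (-(3 / 2) : ℝ) with hK
  have hK0 : 0 ≤ K := tsum_nonneg fun j => by positivity
  refine ⟨C₁ * K * C₄ * π + 1, by positivity, ?_⟩
  intro T m γ hT hm hmT hγ hγT
  have hT0 : 0 < T := by linarith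
  have hγ0 : 0 < γ := by linarith
  have hL : 1 ≤ Real.log T := by
    rw [← Real.log_exp 1]
    exact Real.log_le_log (Real.exp_pos 1) (by linarith [Real.exp_one_lt_three])
  have hL0 : 0 < Real.log T := by linarith
  have hm0 : (0 : ℝ) < m := by exact_mod_cast hm
  have hpi := Real.pi_pos
  have hH : Integrable fun y : ℝ => Rk κ (Real.log T) (ln (-1) y) / ln (-1) y := by
    refine H_int (C := C₂ * Real.exp (Real.log T * (1 - 2 * e) * (-1))) (by simp)
      (Rk_differentiable he hκ _) fun y => ?_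
    have := hb2 (Real.log T) hL (ln (-1) y) (by rw [ln_re]; norm_num)
    rwa [ln_re] at this
  set H : ℝ → ℂ := fun y : ℝ => Rk κ (Real.log T) (ln (-1) y) / ln (-1) y with hHdef
  set ρ : ℂ := 1 / 2 + (γ : ℂ) * I with hρ
  have hρre : ρ.re = 1 / 2 := by simp [hρ]
  have hjpos : ∀ j : ℕ, (0 : ℝ) < (j : ℝ) + 1 := fun j => by positivity
  set l : ℝ := Real.log (γ / (2 * π)) with hl
  have hxpos : ∀ j : ℕ, 0 < (m : ℝ) * γ / (2 * π * ((j : ℝ) + 1)) := fun j => by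
    have := hjpos j
    positivity
  have hnorm1 : ∀ j : ℕ, ‖((j : ℂ) + 1) ^ (-(1 - ρ))‖ = ((j : ℝ) + 1) ^ (-(1 / 2) : ℝ) := by
    intro j
    have := Complex.norm_cpow_eq_rpow_re_of_pos (hjpos j) (-(1 - ρ))
    push_cast at this
    rw [this, Complex.neg_re, Complex.sub_re, hρre]
    norm_num
  have hsum : Summable fun j : ℕ => ‖((j : ℂ) + 1) ^ (-(1 - ρ))‖ *
      ((m : ℝ) * γ / (2 * π * ((j : ℝ) + 1))) ^ (-(-1) : ℝ) := by
    refine ((summable_32).mul_left ((m : ℝ) * γ / (2 * π))).congr fun j => ?_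
    rw [hnorm1, neg_neg, Real.rpow_one]
    have h1 : ((j : ℝ) + 1) ^ (-(3 / 2) : ℝ) = ((j : ℝ) + 1) ^ (-(1 / 2) : ℝ) * ((j : ℝ) + 1)⁻¹ := by
      rw [← Real.rpow_neg_one, ← Real.rpow_add (hjpos j)]
      congr 1
      norm_num
    rw [h1]
    have := (hjpos j).ne'
    field_simp
  have hser := ser (κ := κ) (c := fun v => κ v - 1) (L := Real.log T) (σ := -1)
    (a := fun j : ℕ => ((j : ℂ) + 1) ^ (-(1 - ρ)))
    (x := fun j : ℕ => (m : ℝ) * γ / (2 * π * ((j : ℝ) + 1)))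
    hxpos hsum hH (fun x hx => mellin_left he (by linarith) hκ hL hx)
  -- the zeta function on the dual line
  have hw1 : ∀ y : ℝ, 1 < (1 - ρ - ln (-1) y).re := fun y => by
    rw [Complex.sub_re, Complex.sub_re, hρre, ln_re, Complex.one_re]; norm_num
  have hZ : ∀ y : ℝ, (∑' j : ℕ, ((j : ℂ) + 1) ^ (-(1 - ρ)) *
      (((m : ℝ) * γ / (2 * π * ((j : ℝ) + 1)) : ℝ) : ℂ) ^ (-(ln (-1) y))) =
      (m : ℂ) ^ (-(ln (-1) y)) * Complex.exp (-(ln (-1) y) * l) *
        riemannZeta (1 - ρ - ln (-1) y) := by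
    intro y
    rw [zeta_eq_tsum_one_div_nat_add_one_cpow (hw1 y), ← tsum_mul_left]
    refine tsum_congr fun j => ?_
    have h3 : ((j : ℂ) + 1) ≠ 0 := by exact_mod_cast (Nat.succ_ne_zero j)
    have e1 : (((m : ℝ) * γ / (2 * π * ((j : ℝ) + 1)) : ℝ) : ℂ) ^ (-(ln (-1) y)) =
        (m : ℂ) ^ (-(ln (-1) y)) * (((γ / (2 * π) : ℝ) : ℂ) ^ (-(ln (-1) y)) *
          ((((j : ℝ) + 1)⁻¹ : ℝ) : ℂ) ^ (-(ln (-1) y))) := by
      rw [← Complex.mul_cpow_ofReal_nonneg (by positivity) (by positivity)]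
      have := Complex.mul_cpow_ofReal_nonneg hm0.le
        (by positivity : (0:ℝ) ≤ γ / (2 * π) * ((j : ℝ) + 1)⁻¹) (-(ln (-1) y))
      push_cast at this ⊢
      rw [← this]
      congr 1
      field_simp
    have e2 : ((γ / (2 * π) : ℝ) : ℂ) ^ (-(ln (-1) y)) = Complex.exp (-(ln (-1) y) * l) := by
      rw [Complex.cpow_def_of_ne_zero (by
        have : (0:ℝ) < γ / (2 * π) := by positivity
        exact_mod_cast this.ne'), ← Complex.ofReal_log (by positivity), hl]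
      congr 1
      ring
    have e3 : ((((j : ℝ) + 1)⁻¹ : ℝ) : ℂ) ^ (-(ln (-1) y)) = ((j : ℂ) + 1) ^ (ln (-1) y) := by
      rw [Complex.ofReal_inv, Complex.inv_cpow _ _ (by
        rw [Complex.arg_ofReal_of_nonneg (hjpos j).le]
        exact hpi.ne), Complex.cpow_neg, inv_inv]
      push_cast
      rfl
    have e4 : 1 / ((j : ℂ) + 1) ^ (1 - ρ - ln (-1) y) =
        ((j : ℂ) + 1) ^ (-(1 - ρ)) * ((j : ℂ) + 1) ^ (ln (-1) y) := by
      rw [← Complex.cpow_add _ _ h3, one_div, ← Complex.cpow_neg]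
      congr 1
      ring
    rw [e1, e2, e3, e4]
    ring
  -- the dual sum
  have hSr : (∑' j : ℕ, ((j : ℂ) + 1) ^ (-(1 - ρ)) * (((fun v => κ v - 1)
      (Real.log ((m : ℝ) * γ / (2 * π * ((j : ℝ) + 1))) / Real.log T) : ℝ) : ℂ)) =
      - Sr κ T m γ := by
    have hz : ∀ j ∉ Finset.range ⌊T⌋₊, ((j : ℂ) + 1) ^ (-(1 - ρ)) * (((fun v => κ v - 1)
        (Real.log ((m : ℝ) * γ / (2 * π * ((j : ℝ) + 1))) / Real.log T) : ℝ) : ℂ) = 0 := by
      intro j hj
      rw [Finset.mem_range, not_lt] at hj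
      have h1 : T < (j : ℝ) + 1 := by
        have := Nat.lt_floor_add_one T
        have h2 : ((⌊T⌋₊ : ℕ) : ℝ) ≤ j := by exact_mod_cast hj
        linarith
      have h2 : (m : ℝ) * γ / (2 * π * ((j : ℝ) + 1)) ≤ T ^ (1 / 2 : ℝ) := by
        refine le_trans ?_ hmT
        rw [div_le_iff₀ (by positivity)]
        have h3 : γ ≤ (2 * π) * ((j : ℝ) + 1) := by
          have := Real.pi_gt_three
          nlinarith
        exact mul_le_mul_of_nonneg_left h3 hm0.le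
      have h4 : Real.log ((m : ℝ) * γ / (2 * π * ((j : ℝ) + 1))) / Real.log T ≤ 1 / 2 := by
        rw [div_le_iff₀ hL0, ← Real.log_rpow hT0]
        exact Real.log_le_log (hxpos j) h2
      simp only
      rw [hκ.one _ (by linarith)]
      simp
    rw [tsum_eq_sum hz, Sr]
    have hI : Finset.Icc 1 ⌊T⌋₊ = Finset.Ico 1 (⌊T⌋₊ + 1) := by
      ext j; simp [Nat.lt_succ_iff]
    rw [hI, Finset.sum_Ico_eq_sum_range, Nat.add_sub_cancel, ← Finset.sum_neg_distrib]
    refine Finset.sum_congr rfl fun j _ => ?_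
    have h5 : -(1 - ρ) = -(1 / 2 - (γ : ℂ) * I) := by rw [hρ]; ring
    rw [h5]
    push_cast
    rw [add_comm (j : ℂ) 1, add_comm (j : ℝ) 1]
    ring
  rw [hSr] at hser
  -- the two integrands
  set F : ℝ → ℂ := fun y => riemannZeta (ρ + ln (-1) y) * (m : ℂ) ^ (-(ln (-1) y)) * H y with hF
  set G : ℝ → ℂ := fun y => chi ρ * Complex.exp (-(ln (-1) y) * l) *
    riemannZeta (1 - ρ - ln (-1) y) * (m : ℂ) ^ (-(ln (-1) y)) * H y with hG
  have hlnc := ln_cont (-1)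
  have hζ1 : Continuous fun y : ℝ => riemannZeta (ρ + ln (-1) y) := by
    refine continuous_iff_continuousAt.2 fun y => ?_
    have h1 : ρ + ln (-1) y ≠ 1 := by
      intro h
      have := congrArg Complex.re h
      rw [Complex.add_re, hρre, ln_re, Complex.one_re] at this
      norm_num at this
    exact ContinuousAt.comp (f := fun y : ℝ => ρ + ln (-1) y)
      (differentiableAt_riemannZeta h1).continuousAt (by fun_prop)
  have hζ2 : Continuous fun y : ℝ => riemannZeta (1 - ρ - ln (-1) y) := by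
    refine continuous_iff_continuousAt.2 fun y => ?_
    have h1 : 1 - ρ - ln (-1) y ≠ 1 := by
      intro h
      have := congrArg Complex.re h
      have h2 := hw1 y
      rw [this, Complex.one_re] at h2
      exact lt_irrefl _ h2
    exact ContinuousAt.comp (f := fun y : ℝ => 1 - ρ - ln (-1) y)
      (differentiableAt_riemannZeta h1).continuousAt (by fun_prop)
  have hmc : Continuous fun y : ℝ => (m : ℂ) ^ (-(ln (-1) y)) := by
    have := pow_cont hm0 (-1)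
    exact_mod_cast this
  have hmn : ∀ y : ℝ, ‖(m : ℂ) ^ (-(ln (-1) y))‖ = m := by
    intro y
    have := norm_pow hm0 (-1) y
    rw [neg_neg, Real.rpow_one] at this
    exact_mod_cast this
  have hζK : ∀ y : ℝ, ‖riemannZeta (1 - ρ - ln (-1) y)‖ ≤ K := by
    intro y
    rw [zeta_eq_tsum_one_div_nat_add_one_cpow (hw1 y), hK]
    have h1 : ∀ j : ℕ, ‖1 / ((j : ℂ) + 1) ^ (1 - ρ - ln (-1) y)‖ = ((j : ℝ) + 1) ^ (-(3 / 2) : ℝ) := by
      intro j
      have := Complex.norm_cpow_eq_rpow_re_of_pos (hjpos j) (1 - ρ - ln (-1) y)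
      push_cast at this
      rw [norm_div, norm_one, this, one_div, ← Real.rpow_neg (hjpos j).le, Complex.sub_re,
        Complex.sub_re, hρre, ln_re, Complex.one_re]
      congr 1
      norm_num
    refine tsum_of_norm_bounded (f := fun j : ℕ => 1 / ((j : ℂ) + 1) ^ (1 - ρ - ln (-1) y))
      summable_32.hasSum fun j => (h1 j).le
  have hGi : Integrable G := by
    refine Integrable.mono' (hH.norm.const_mul (‖chi ρ‖ * Real.exp l * K * m)) ?_
      (Eventually.of_forall fun y => ?_)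
    · exact ((((continuous_const.mul (by fun_prop)).mul hζ2).mul hmc).aestronglyMeasurable).mul
        hH.aestronglyMeasurable
    · have h1 : ‖Complex.exp (-(ln (-1) y) * l)‖ = Real.exp l := by
        rw [Complex.norm_exp, mul_comm, Complex.re_ofReal_mul, Complex.neg_re, ln_re]
        congr 1
        ring
      simp only [hG]
      rw [norm_mul, norm_mul, norm_mul, norm_mul, h1, hmn]
      have := hζK y
      gcongr
  -- the pointwise difference
  have hdiff : ∀ y : ℝ, ‖F y - G y‖ ≤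
      C₁ * K * C₄ * m * T ^ (-(1 - 2 * e) : ℝ) * (1 + y ^ 2)⁻¹ := by
    intro y
    have h0 : ρ + ln (-1) y ≠ 0 := by
      intro h
      have := congrArg Complex.re h
      rw [Complex.add_re, hρre, ln_re, Complex.zero_re] at this
      norm_num at this
    have h1 : ∀ n : ℕ, ρ + ln (-1) y ≠ n + 1 := by
      intro n h
      have := congrArg Complex.re h
      rw [Complex.add_re, hρre, ln_re] at this
      simp at this
      have h2 : (0:ℝ) ≤ n := Nat.cast_nonneg n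
      linarith
    have hfe := chi_fe h0 h1
    have h2 : 1 - (ρ + ln (-1) y) = 1 - ρ - ln (-1) y := by ring
    rw [h2] at hfe
    have h3 : F y - G y = (chi (ρ + ln (-1) y) - chi ρ * Complex.exp (-(ln (-1) y) * l)) *
        riemannZeta (1 - ρ - ln (-1) y) * (m : ℂ) ^ (-(ln (-1) y)) * H y := by
      simp only [hF, hG]
      rw [hfe]
      ring
    have h4 : ‖chi (ρ + ln (-1) y) - chi ρ * Complex.exp (-(ln (-1) y) * l)‖ ≤
        C₁ * (1 + y ^ 2) := by
      have := hχ γ y hγ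
      have h5 : ln (-1) y = -1 + (y : ℂ) * I := by simp [ln]
      rw [h5]
      exact this
    have h6 : ‖H y‖ ≤ C₄ * T ^ (-(1 - 2 * e) : ℝ) / (1 + y ^ 2) ^ 2 := by
      have h7 := hb4 (Real.log T) hL (ln (-1) y) (by rw [ln_re]; norm_num)
      rw [ln_re] at h7
      have h8 : Real.exp (Real.log T * (1 - 2 * e) * (-1)) = T ^ (-(1 - 2 * e) : ℝ) := by
        rw [Real.rpow_def_of_pos hT0]
        congr 1
        ring
      rw [h8] at h7
      have h9 := sq_le (σ := -1) (by simp) y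
      have h10 : 1 ≤ ‖ln (-1) y‖ := by
        by_contra h
        push Not at h
        nlinarith [norm_nonneg (ln (-1) y), sq_nonneg y]
      simp only [hHdef]
      rw [norm_div]
      refine (div_le_self (norm_nonneg _) h10).trans (h7.trans ?_)
      refine div_le_div_of_nonneg_left (by positivity) (by positivity) ?_
      have h11 : 1 + y ^ 2 ≤ (1 + ‖ln (-1) y‖) ^ 2 := by nlinarith [norm_nonneg (ln (-1) y)]
      calc (1 + y ^ 2) ^ 2 ≤ ((1 + ‖ln (-1) y‖) ^ 2) ^ 2 :=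
            pow_le_pow_left₀ (by positivity) h11 2
        _ = (1 + ‖ln (-1) y‖) ^ 4 := by ring
    rw [h3, norm_mul, norm_mul, norm_mul, hmn]
    have hTp : 0 < T ^ (-(1 - 2 * e) : ℝ) := Real.rpow_pos_of_pos hT0 _
    calc ‖chi (ρ + ln (-1) y) - chi ρ * Complex.exp (-(ln (-1) y) * l)‖ *
          ‖riemannZeta (1 - ρ - ln (-1) y)‖ * m * ‖H y‖
        ≤ (C₁ * (1 + y ^ 2)) * K * m * (C₄ * T ^ (-(1 - 2 * e) : ℝ) / (1 + y ^ 2) ^ 2) := by
          have := hζK y
          gcongr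
      _ = _ := by
          have : (1 + y ^ 2) ≠ 0 := by positivity
          field_simp
  have hFm : AEStronglyMeasurable F volume :=
    ((hζ1.mul hmc).aestronglyMeasurable).mul hH.aestronglyMeasurable
  have hDi : Integrable fun y => F y - G y :=
    Integrable.mono' (integrable_inv_one_add_sq.const_mul
      (C₁ * K * C₄ * m * T ^ (-(1 - 2 * e) : ℝ))) (hFm.sub hGi.aestronglyMeasurable)
      (Eventually.of_forall hdiff)
  have hFi : Integrable F := by
    have := hDi.add hGi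
    refine this.congr (Eventually.of_forall fun y => ?_)
    simp
  have hGint : (1 / (2 * π : ℂ)) * ∫ y : ℝ, G y = - (chi ρ * Sr κ T m γ) := by
    have h1 : (∫ y : ℝ, G y) = chi ρ * ∫ y : ℝ, (∑' j : ℕ, ((j : ℂ) + 1) ^ (-(1 - ρ)) *
        (((m : ℝ) * γ / (2 * π * ((j : ℝ) + 1)) : ℝ) : ℂ) ^ (-(ln (-1) y))) *
          (Rk κ (Real.log T) (ln (-1) y) / ln (-1) y) := by
      rw [← integral_const_mul]
      refine integral_congr_ae (Eventually.of_forall fun y => ?_)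
      simp only [hG]
      rw [hZ y]
      ring
    rw [h1, mul_left_comm, hser]
    ring
  have hJ : Jl κ T m γ (-1) + chi ρ * Sr κ T m γ = (1 / (2 * π : ℂ)) * ∫ y : ℝ, (F y - G y) := by
    rw [integral_sub hFi hGi, mul_sub, hGint]
    have : Jl κ T m γ (-1) = (1 / (2 * π : ℂ)) * ∫ y : ℝ, F y := by
      unfold Jl
      congr 1
      refine integral_congr_ae (Eventually.of_forall fun y => ?_)
      simp only [hF, hHdef]
      ring
    rw [this]
    ring
  rw [hJ, norm_mul]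
  have h1 : ‖(1 / (2 * π : ℂ))‖ ≤ 1 := by
    rw [norm_div, norm_one, norm_mul, Complex.norm_real, Real.norm_of_nonneg hpi.le]
    rw [div_le_one (by simp [hpi])]
    have := Real.pi_gt_three
    simp
    linarith
  have h2 : ‖∫ y : ℝ, (F y - G y)‖ ≤ C₁ * K * C₄ * m * T ^ (-(1 - 2 * e) : ℝ) * π := by
    refine (norm_integral_le_of_norm_le (integrable_inv_one_add_sq.const_mul
      (C₁ * K * C₄ * m * T ^ (-(1 - 2 * e) : ℝ))) (Eventually.of_forall hdiff)).trans ?_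
    rw [integral_const_mul, integral_univ_inv_one_add_sq]
  have hTp : 0 < T ^ (-(1 - 2 * e) : ℝ) := Real.rpow_pos_of_pos hT0 _
  calc ‖(1 / (2 * π : ℂ))‖ * ‖∫ y : ℝ, (F y - G y)‖
      ≤ 1 * (C₁ * K * C₄ * m * T ^ (-(1 - 2 * e) : ℝ) * π) :=
        mul_le_mul h1 h2 (norm_nonneg _) zero_le_one
    _ ≤ (C₁ * K * C₄ * π + 1) * m * T ^ (-(1 - 2 * e) : ℝ) := by
        have : 0 ≤ (m:ℝ) * T ^ (-(1 - 2 * e) : ℝ) := by positivity
        nlinarith

end Pool.Agent.MP_67227b_nt.Fb
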