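import Pool.Agent.MP_67227b_nt.Fb.FbZsDefs

set_option autoImplicit false

open Filter Topology Set MeasureTheory Complex
open scoped Real ContDiff ArithmeticFunction ArithmeticFunction.Moebius ComplexConjugate

namespace Pool.Agent.MP_67227b_nt.Fb

open Pool.Agent.Lib.ZetaCount_helper33 Pool.Agent.MP_67227b_nt Pool.Agent.MP_67227b_nt.Mo

private theorem sh_E (w w₀ : ℂ) (h0 : w₀.re = 1 / 2) (h1 : -1 ≤ w.re) (h2 : w.re ≤ 1) :
    ‖Complex.exp ((w - w₀) ^ 2)‖ ≤ Real.exp (9 / 4) * Real.exp (-(w.im - w₀.im) ^ 2) := by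
  rw [Complex.norm_exp, ← Real.exp_add]
  apply Real.exp_le_exp.mpr
  have e : ((w - w₀) ^ 2).re = (w.re - w₀.re) ^ 2 - (w.im - w₀.im) ^ 2 := by
    rw [_root_.sq, Complex.mul_re, Complex.sub_re, Complex.sub_im]
    ring
  rw [e, h0]
  nlinarith

private theorem sh_den (w w₀ : ℂ) (h0 : w₀.re = 1 / 2) (h1 : w.re = 1 ∨ w.re = -1) :
    1 / 2 ≤ ‖w - w₀‖ := by
  have h2 : |(w - w₀).re| ≤ ‖w - w₀‖ := Complex.abs_re_le_norm _
  rw [Complex.sub_re, h0] at h2
  rcases h1 with h | h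
  · rw [h] at h2
    refine le_trans ?_ h2
    rw [abs_of_pos] <;> norm_num
  · rw [h] at h2
    refine le_trans ?_ h2
    rw [abs_of_neg] <;> norm_num

private theorem ln_re (σ y : ℝ) : (ln σ y).re = σ := by
  simp [ln]

private theorem ln_im (σ y : ℝ) : (ln σ y).im = y := by
  simp [ln]

private theorem ln_cont (σ : ℝ) : Continuous (ln σ) := by
  unfold ln
  fun_prop

private theorem sh_B {w₀ : ℂ} (h0 : w₀.re = 1 / 2) {σ : ℝ} (hσ : σ = 1 ∨ σ = -1) :
    Integrable (fun y : ℝ => Complex.exp ((ln σ y - w₀) ^ 2) / (ln σ y - w₀)) ∧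
    ‖∫ y : ℝ, Complex.exp ((ln σ y - w₀) ^ 2) / (ln σ y - w₀)‖ ≤
      2 * Real.exp (9 / 4) * √π := by
  have hden : ∀ y : ℝ, 1 / 2 ≤ ‖ln σ y - w₀‖ := by
    intro y
    refine sh_den _ _ h0 ?_
    rw [ln_re]
    exact hσ
  have hb1 : -1 ≤ σ := by rcases hσ with h | h <;> rw [h] <;> norm_num
  have hb2 : σ ≤ 1 := by rcases hσ with h | h <;> rw [h] <;> norm_num
  have hpt : ∀ y : ℝ, ‖Complex.exp ((ln σ y - w₀) ^ 2) / (ln σ y - w₀)‖ ≤
      2 * Real.exp (9 / 4) * Real.exp (-(y - w₀.im) ^ 2) := by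
    intro y
    have h1 := sh_E (ln σ y) w₀ h0 (by rw [ln_re]; exact hb1) (by rw [ln_re]; exact hb2)
    rw [ln_im] at h1
    rw [norm_div, div_le_iff₀ (lt_of_lt_of_le (by norm_num) (hden y))]
    have h2 : 0 ≤ Real.exp (9 / 4) * Real.exp (-(y - w₀.im) ^ 2) := by positivity
    have h3 := hden y
    nlinarith
  have hgi : Integrable (fun y : ℝ => Real.exp (-(y - w₀.im) ^ 2)) := by
    have h1 : Integrable (fun y : ℝ => Real.exp (-1 * y ^ 2)) := integrable_exp_neg_mul_sq one_pos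
    have h2 := h1.comp_sub_right w₀.im
    refine h2.congr (Eventually.of_forall fun y => ?_)
    show Real.exp (-1 * (y - w₀.im) ^ 2) = Real.exp (-(y - w₀.im) ^ 2)
    congr 1
    ring
  have hgv : ∫ y : ℝ, Real.exp (-(y - w₀.im) ^ 2) = √π := by
    have h1 : ∫ y : ℝ, Real.exp (-(y - w₀.im) ^ 2) = ∫ y : ℝ, Real.exp (-1 * y ^ 2) := by
      rw [← integral_sub_right_eq_self (fun y : ℝ => Real.exp (-1 * y ^ 2)) w₀.im]
      refine integral_congr_ae (Eventually.of_forall fun y => ?_)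
      show Real.exp (-(y - w₀.im) ^ 2) = Real.exp (-1 * (y - w₀.im) ^ 2)
      congr 1
      ring
    rw [h1, integral_gaussian, div_one]
  have hcont : Continuous (fun y : ℝ => Complex.exp ((ln σ y - w₀) ^ 2) / (ln σ y - w₀)) := by
    refine Continuous.div ?_ ((ln_cont σ).sub continuous_const) ?_
    · exact Complex.continuous_exp.comp (((ln_cont σ).sub continuous_const).pow 2)
    · intro y h
      have := hden y
      rw [h, norm_zero] at this
      norm_num at this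
  have hmaj : Integrable (fun y : ℝ => 2 * Real.exp (9 / 4) * Real.exp (-(y - w₀.im) ^ 2)) :=
    hgi.const_mul _
  refine ⟨hmaj.mono' hcont.aestronglyMeasurable (Eventually.of_forall hpt), ?_⟩
  refine (norm_integral_le_of_norm_le hmaj (Eventually.of_forall hpt)).trans (le_of_eq ?_)
  rw [integral_const_mul, hgv]

private theorem sh_A {F : ℂ → ℂ} {w₀ : ℂ} {C : ℝ} (hF : Differentiable ℂ F)
    (h0 : w₀.re = 1 / 2)
    (hb : ∀ w : ℂ, -1 ≤ w.re → w.re ≤ 1 → 1 ≤ |w.im| → ‖F w‖ ≤ C / w.im ^ 2)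
    {σ : ℝ} (hσ : σ = 1 ∨ σ = -1) :
    Integrable (fun y : ℝ => F (ln σ y) / (ln σ y - w₀)) := by
  have hden : ∀ y : ℝ, 1 / 2 ≤ ‖ln σ y - w₀‖ := by
    intro y
    refine sh_den _ _ h0 ?_
    rw [ln_re]
    exact hσ
  have hb1 : -1 ≤ σ := by rcases hσ with h | h <;> rw [h] <;> norm_num
  have hb2 : σ ≤ 1 := by rcases hσ with h | h <;> rw [h] <;> norm_num
  have hcont : Continuous (fun y : ℝ => F (ln σ y) / (ln σ y - w₀)) := by
    refine Continuous.div (hF.continuous.comp (ln_cont σ)) ((ln_cont σ).sub continuous_const) ?_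
    intro y h
    have := hden y
    rw [h, norm_zero] at this
    norm_num at this
  -- bound on the compact interval
  obtain ⟨K, hK⟩ := (isCompact_Icc (a := (-1 : ℝ)) (b := 1)).exists_bound_of_continuousOn
    (hF.continuous.comp (ln_cont σ)).continuousOn
  have hpt : ∀ y : ℝ, ‖F (ln σ y) / (ln σ y - w₀)‖ ≤ (4 * (|K| + |C|)) * (1 + y ^ 2)⁻¹ := by
    intro y
    have hFy : ‖F (ln σ y)‖ ≤ 2 * (|K| + |C|) * (1 + y ^ 2)⁻¹ := by
      have hy0 : 0 < 1 + y ^ 2 := by positivity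
      rw [← div_eq_mul_inv, le_div_iff₀ hy0]
      by_cases hy : |y| ≤ 1
      · have h1 : ‖F (ln σ y)‖ ≤ K := hK y (abs_le.mp hy)
        have h2 : y ^ 2 ≤ 1 := (sq_le_one_iff_abs_le_one y).mpr hy
        have h3 : K ≤ |K| := le_abs_self K
        have h4 := norm_nonneg (F (ln σ y))
        have h5 := abs_nonneg C
        nlinarith [sq_nonneg y]
      · push Not at hy
        have h1 := hb (ln σ y) (by rw [ln_re]; exact hb1) (by rw [ln_re]; exact hb2)
          (by rw [ln_im]; exact hy.le)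
        rw [ln_im] at h1
        have h2 : 1 < y ^ 2 := by
          rw [← sq_abs]
          nlinarith
        rw [le_div_iff₀ (by linarith)] at h1
        have h3 : C ≤ |C| := le_abs_self C
        have h4 := norm_nonneg (F (ln σ y))
        have h5 := abs_nonneg K
        nlinarith
    rw [norm_div, div_le_iff₀ (lt_of_lt_of_le (by norm_num) (hden y))]
    have h3 := hden y
    have h6 : 0 ≤ (|K| + |C|) * (1 + y ^ 2)⁻¹ := by positivity
    nlinarith
  exact (integrable_inv_one_add_sq.const_mul _).mono' hcont.aestronglyMeasurable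
    (Eventually.of_forall hpt)

/-- **Module shift** (about 150 lines). Moving a line over a simple pole, up to the size of the
residue.

PROOF. Let `E(w) = exp((w-w₀)²)`, `G(w) = dslope (fun w => F w - F w₀ * E w) w₀ w`, which is entire
(`Differentiable ℂ`) and equals `(F w - F w₀ E w)/(w - w₀)` off `w₀`. In the strip
`-1 ≤ Re w ≤ 1` one has `‖E w‖ = exp((Re w-1/2)² - (Im w - Im w₀)²) ≤ e^{9/4} e^{-(Im w-Im w₀)²}`,
so `‖G(w)‖ → 0` uniformly as `|Im w| → ∞` and `G` is integrable over the two lines; Cauchy for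
rectangles (`Complex.integral_boundary_rect_eq_zero_of_differentiableOn`) with height `R → ∞`:
`∫ G(1+iy) dy = ∫ G(-1+iy) dy` (the horizontal sides tend to `0`). Hence the difference in the
statement is `F(w₀) (∫ E(1+iy)/(1+iy-w₀) dy - ∫ E(-1+iy)/(-1+iy-w₀) dy)`, and
`‖±1+iy-w₀‖ ≥ 1/2`, so its norm is at most `‖F w₀‖ · 2 · 2 e^{9/4} ∫ e^{-u²} du = C₀ ‖F w₀‖`. -/
theorem shift : ∃ C₀ : ℝ, 0 < C₀ ∧ ∀ (F : ℂ → ℂ) (w₀ : ℂ) (C : ℝ), Differentiable ℂ F →
    w₀.re = 1 / 2 →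
    (∀ w : ℂ, -1 ≤ w.re → w.re ≤ 1 → 1 ≤ |w.im| → ‖F w‖ ≤ C / w.im ^ 2) →
    ‖(∫ y : ℝ, F (ln 1 y) / (ln 1 y - w₀)) - ∫ y : ℝ, F (ln (-1) y) / (ln (-1) y - w₀)‖ ≤
      C₀ * ‖F w₀‖ := by
  refine ⟨4 * Real.exp (9 / 4) * √π, by positivity, ?_⟩
  intro F w₀ C hF h0 hb
  set E : ℂ → ℂ := fun w => Complex.exp ((w - w₀) ^ 2) with hE
  set H : ℂ → ℂ := fun w => F w - F w₀ * E w with hH
  have hEd : Differentiable ℂ E := by
    intro w
    exact ((differentiableAt_id.sub_const w₀).pow 2).cexp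
  have hHd : Differentiable ℂ H := hF.sub (hEd.const_mul _)
  have hH0 : H w₀ = 0 := by
    simp [hH, hE]
  set G : ℂ → ℂ := dslope H w₀ with hG
  have hGd : Differentiable ℂ G := by
    have h1 : DifferentiableOn ℂ G Set.univ :=
      (Complex.differentiableOn_dslope (Filter.univ_mem)).mpr hHd.differentiableOn
    exact differentiableOn_univ.mp h1
  have hGv : ∀ w, w ≠ w₀ → G w = F w / (w - w₀) - F w₀ * (E w / (w - w₀)) := by
    intro w hw
    rw [hG, dslope_of_ne _ hw, slope_def_field, hH0, sub_zero, hH]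
    ring
  have hlne : ∀ σ y : ℝ, σ = 1 ∨ σ = -1 → ln σ y ≠ w₀ := by
    intro σ y hσ h
    have h1 := sh_den (ln σ y) w₀ h0 (by rw [ln_re]; exact hσ)
    rw [h, sub_self, norm_zero] at h1
    norm_num at h1
  have hA1 := sh_A hF h0 hb (σ := 1) (Or.inl rfl)
  have hA2 := sh_A hF h0 hb (σ := -1) (Or.inr rfl)
  obtain ⟨hB1, hB1'⟩ := sh_B h0 (σ := 1) (Or.inl rfl)
  obtain ⟨hB2, hB2'⟩ := sh_B h0 (σ := -1) (Or.inr rfl)
  have hG1 : (fun y : ℝ => G (ln 1 y)) = fun y : ℝ => F (ln 1 y) / (ln 1 y - w₀) -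
      F w₀ * (Complex.exp ((ln 1 y - w₀) ^ 2) / (ln 1 y - w₀)) := by
    funext y
    exact hGv _ (hlne 1 y (Or.inl rfl))
  have hG2 : (fun y : ℝ => G (ln (-1) y)) = fun y : ℝ => F (ln (-1) y) / (ln (-1) y - w₀) -
      F w₀ * (Complex.exp ((ln (-1) y - w₀) ^ 2) / (ln (-1) y - w₀)) := by
    funext y
    exact hGv _ (hlne (-1) y (Or.inr rfl))
  have hGi1 : Integrable (fun y : ℝ => G (ln 1 y)) := by
    rw [hG1]
    exact hA1.sub (hB1.const_mul _)
  have hGi2 : Integrable (fun y : ℝ => G (ln (-1) y)) := by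
    rw [hG2]
    exact hA2.sub (hB2.const_mul _)
  -- horizontal sides
  set M : ℝ := |C| + ‖F w₀‖ * Real.exp (9 / 4) with hM
  have hhor : ∀ w : ℂ, -1 ≤ w.re → w.re ≤ 1 → 1 ≤ |w.im| → |w₀.im| + 1 ≤ |w.im| →
      ‖G w‖ ≤ M / (|w.im| - |w₀.im|) := by
    intro w h1 h2 h3 h4
    have h5 : |w.im| - |w₀.im| ≤ ‖w - w₀‖ := by
      have h6 : |(w - w₀).im| ≤ ‖w - w₀‖ := Complex.abs_im_le_norm _
      rw [Complex.sub_im] at h6
      exact (abs_sub_abs_le_abs_sub _ _).trans h6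
    have h7 : 0 < |w.im| - |w₀.im| := by linarith
    have hne : w ≠ w₀ := by
      rintro rfl
      rw [sub_self] at h7
      exact lt_irrefl _ h7
    have h8 : G w = H w / (w - w₀) := by
      rw [hGv w hne, hH]
      ring
    have h9 : ‖H w‖ ≤ M := by
      have a1 := hb w h1 h2 h3
      have a2 := sh_E w w₀ h0 h1 h2
      have a3 : C / w.im ^ 2 ≤ |C| := by
        have a4 : 1 ≤ w.im ^ 2 := by
          rw [← sq_abs]
          nlinarith
        rw [div_le_iff₀ (by linarith)]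
        have := le_abs_self C
        have := abs_nonneg C
        nlinarith
      have a5 : Real.exp (-(w.im - w₀.im) ^ 2) ≤ 1 := by
        rw [Real.exp_le_one_iff]
        nlinarith [sq_nonneg (w.im - w₀.im)]
      have a6 : ‖E w‖ ≤ Real.exp (9 / 4) := by
        refine a2.trans ?_
        have := Real.exp_pos (9 / 4)
        nlinarith
      calc ‖H w‖ ≤ ‖F w‖ + ‖F w₀ * E w‖ := norm_sub_le _ _
        _ ≤ |C| + ‖F w₀‖ * Real.exp (9 / 4) := by
            rw [norm_mul]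
            have := mul_le_mul_of_nonneg_left a6 (norm_nonneg (F w₀))
            linarith
    rw [h8, norm_div]
    have hM0 : 0 ≤ M := by positivity
    exact div_le_div₀ hM0 h9 h7 h5
  -- the rectangle
  have hrect : ∀ R : ℝ, 1 ≤ R → |w₀.im| + 1 ≤ R →
      ‖(∫ y in (-R)..R, G (ln 1 y)) - ∫ y in (-R)..R, G (ln (-1) y)‖ ≤
        4 * M / (R - |w₀.im|) := by
    intro R hR1 hR2
    have hRabs : |R| = R := abs_of_pos (by linarith)
    have hc := Complex.integral_boundary_rect_eq_zero_of_differentiableOn G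
      (-1 + (-R : ℝ) * I) (1 + (R : ℝ) * I) hGd.differentiableOn
    have e1 : (-1 + ((-R : ℝ) : ℂ) * I).re = -1 := by simp
    have e2 : (-1 + ((-R : ℝ) : ℂ) * I).im = -R := by simp
    have e3 : (1 + ((R : ℝ) : ℂ) * I).re = 1 := by simp
    have e4 : (1 + ((R : ℝ) : ℂ) * I).im = R := by simp
    rw [e1, e2, e3, e4] at hc
    have f1 : ∀ y : ℝ, G (((1 : ℝ) : ℂ) + (y : ℂ) * I) = G (ln 1 y) := fun y => rfl
    have f2 : ∀ y : ℝ, G (((-1 : ℝ) : ℂ) + (y : ℂ) * I) = G (ln (-1) y) := fun y => rfl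
    simp only [f1, f2] at hc
    have b1 : ‖∫ x in (-1 : ℝ)..1, G ((x : ℂ) + ((-R : ℝ) : ℂ) * I)‖ ≤
        M / (R - |w₀.im|) * |1 - (-1)| := by
      apply intervalIntegral.norm_integral_le_of_norm_le_const
      intro x hx
      rw [Set.uIoc_of_le (by norm_num)] at hx
      have g1 : ((x : ℂ) + ((-R : ℝ) : ℂ) * I).re = x := by simp
      have g2 : ((x : ℂ) + ((-R : ℝ) : ℂ) * I).im = -R := by simp
      have g3 := hhor ((x : ℂ) + ((-R : ℝ) : ℂ) * I) (by rw [g1]; exact hx.1.le)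
        (by rw [g1]; exact hx.2) (by rw [g2, abs_neg, hRabs]; exact hR1)
        (by rw [g2, abs_neg, hRabs]; exact hR2)
      rw [g2, abs_neg, hRabs] at g3
      exact g3
    have b2 : ‖∫ x in (-1 : ℝ)..1, G ((x : ℂ) + ((R : ℝ) : ℂ) * I)‖ ≤
        M / (R - |w₀.im|) * |1 - (-1)| := by
      apply intervalIntegral.norm_integral_le_of_norm_le_const
      intro x hx
      rw [Set.uIoc_of_le (by norm_num)] at hx
      have g1 : ((x : ℂ) + ((R : ℝ) : ℂ) * I).re = x := by simp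
      have g2 : ((x : ℂ) + ((R : ℝ) : ℂ) * I).im = R := by simp
      have g3 := hhor ((x : ℂ) + ((R : ℝ) : ℂ) * I) (by rw [g1]; exact hx.1.le)
        (by rw [g1]; exact hx.2) (by rw [g2, hRabs]; exact hR1)
        (by rw [g2, hRabs]; exact hR2)
      rw [g2, hRabs] at g3
      exact g3
    have e5 : |(1 : ℝ) - (-1)| = 2 := by norm_num
    rw [e5] at b1 b2
    have hd : I * ((∫ y in (-R)..R, G (ln 1 y)) - ∫ y in (-R)..R, G (ln (-1) y)) =
        (∫ x in (-1 : ℝ)..1, G ((x : ℂ) + ((R : ℝ) : ℂ) * I)) -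
        ∫ x in (-1 : ℝ)..1, G ((x : ℂ) + ((-R : ℝ) : ℂ) * I) := by
      simp only [smul_eq_mul] at hc
      linear_combination hc
    have hn : ‖(∫ y in (-R)..R, G (ln 1 y)) - ∫ y in (-R)..R, G (ln (-1) y)‖ =
        ‖(∫ x in (-1 : ℝ)..1, G ((x : ℂ) + ((R : ℝ) : ℂ) * I)) -
        ∫ x in (-1 : ℝ)..1, G ((x : ℂ) + ((-R : ℝ) : ℂ) * I)‖ := by
      rw [← hd, norm_mul, Complex.norm_I, one_mul]
    rw [hn]
    refine (norm_sub_le _ _).trans ?_
    have e6 : 4 * M / (R - |w₀.im|) = M / (R - |w₀.im|) * 2 + M / (R - |w₀.im|) * 2 := by ring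
    rw [e6]
    exact add_le_add b2 b1
  -- the limit
  have hlim : Tendsto (fun R : ℝ => (∫ y in (-R)..R, G (ln 1 y)) - ∫ y in (-R)..R, G (ln (-1) y))
      atTop (𝓝 ((∫ y, G (ln 1 y)) - ∫ y, G (ln (-1) y))) :=
    (intervalIntegral_tendsto_integral hGi1 tendsto_neg_atTop_atBot tendsto_id).sub
      (intervalIntegral_tendsto_integral hGi2 tendsto_neg_atTop_atBot tendsto_id)
  have hzero : Tendsto (fun R : ℝ => (∫ y in (-R)..R, G (ln 1 y)) - ∫ y in (-R)..R, G (ln (-1) y))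
      atTop (𝓝 0) := by
    have h1 : Tendsto (fun R : ℝ => 4 * M / (R - |w₀.im|)) atTop (𝓝 0) := by
      apply Tendsto.const_div_atTop
      exact tendsto_atTop_add_const_right _ _ tendsto_id
    refine squeeze_zero_norm' ?_ h1
    filter_upwards [eventually_ge_atTop (1 : ℝ), eventually_ge_atTop (|w₀.im| + 1)] with R hR1 hR2
    exact hrect R hR1 hR2
  have heq : (∫ y, G (ln 1 y)) - ∫ y, G (ln (-1) y) = 0 := tendsto_nhds_unique hlim hzero
  rw [hG1, hG2, integral_sub hA1 (hB1.const_mul _), integral_sub hA2 (hB2.const_mul _),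
    integral_const_mul, integral_const_mul] at heq
  have hfin : (∫ y : ℝ, F (ln 1 y) / (ln 1 y - w₀)) - ∫ y : ℝ, F (ln (-1) y) / (ln (-1) y - w₀) =
      F w₀ * ((∫ y : ℝ, Complex.exp ((ln 1 y - w₀) ^ 2) / (ln 1 y - w₀)) -
        ∫ y : ℝ, Complex.exp ((ln (-1) y - w₀) ^ 2) / (ln (-1) y - w₀)) := by
    linear_combination heq
  rw [hfin, norm_mul, mul_comm]
  refine mul_le_mul_of_nonneg_right ?_ (norm_nonneg _)
  refine (norm_sub_le _ _).trans ?_
  linarith

end Pool.Agent.MP_67227b_nt.Fb
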