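import Pool.Agent.MP_67227b_nt.Fb.FbDefs

set_option autoImplicit false

open Filter Topology Set MeasureTheory Complex
open scoped Real ContDiff ArithmeticFunction ArithmeticFunction.Moebius ComplexConjugate

namespace Pool.Agent.MP_67227b_nt.Fb

open Pool.Agent.Lib.ZetaCount_helper33 Pool.Agent.MP_67227b_nt Pool.Agent.MP_67227b_nt.Mo

namespace chib

private theorem cos_sq_norm (x y : ℝ) (hx : Real.cos x ^ 2 = 1 / 2) :
    ‖Complex.cos ((x : ℂ) + (y : ℂ) * I)‖ ^ 2 = Real.cosh (2 * y) / 2 := by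
  have hs : Real.sin x ^ 2 = 1 / 2 := by
    have := Real.sin_sq_add_cos_sq x
    linarith
  rw [Complex.cos_add_mul_I, ← Complex.ofReal_cos, ← Complex.ofReal_cosh, ← Complex.ofReal_sin,
    ← Complex.ofReal_sinh, ← Complex.normSq_eq_norm_sq]
  have h1 : ((Real.cos x : ℂ) * (Real.cosh y : ℂ) - (Real.sin x : ℂ) * (Real.sinh y : ℂ) * I) =
      ((Real.cos x * Real.cosh y : ℝ) : ℂ) + ((-(Real.sin x * Real.sinh y) : ℝ) : ℂ) * I := by
    push_cast
    ring
  rw [h1, Complex.normSq_add_mul_I, Real.cosh_two_mul]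
  have h2 : (Real.cos x * Real.cosh y) ^ 2 + (-(Real.sin x * Real.sinh y)) ^ 2 =
      Real.cos x ^ 2 * Real.cosh y ^ 2 + Real.sin x ^ 2 * Real.sinh y ^ 2 := by ring
  rw [h2, hx, hs]
  ring

private theorem gamma_sq (t : ℝ) :
    ‖Complex.Gamma (1 / 2 - (t : ℂ) * I)‖ ^ 2 = π / Real.cosh (π * t) := by
  have h1 := Complex.Gamma_mul_Gamma_one_sub (1 / 2 - (t : ℂ) * I)
  have h2 : 1 - (1 / 2 - (t : ℂ) * I) = (starRingEnd ℂ) (1 / 2 - (t : ℂ) * I) := by
    simp only [map_sub, map_mul, map_div₀, map_one, Complex.conj_ofReal, Complex.conj_I,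
      Complex.conj_ofNat]
    ring
  rw [h2, Complex.Gamma_conj] at h1
  have h3 : Complex.sin (π * (1 / 2 - (t : ℂ) * I)) = (Real.cosh (π * t) : ℂ) := by
    have h4 : (π : ℂ) * (1 / 2 - (t : ℂ) * I) = π / 2 - ((π * t : ℝ) : ℂ) * I := by
      push_cast
      ring
    rw [h4, Complex.sin_pi_div_two_sub, Complex.cos_mul_I, Complex.ofReal_cosh]
  rw [h3] at h1
  have h5 := congrArg norm h1
  rw [norm_mul, Complex.norm_conj, norm_div, Complex.norm_real, Complex.norm_real,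
    Real.norm_eq_abs, Real.norm_eq_abs, abs_of_pos Real.pi_pos, abs_of_pos (Real.cosh_pos _)] at h5
  rw [sq, h5]

private theorem pow_norm (z : ℂ) : ‖(2 * π : ℂ) ^ (-z)‖ = (2 * π) ^ (-z.re) := by
  have h1 : (2 * π : ℂ) = ((2 * π : ℝ) : ℂ) := by push_cast; ring
  rw [h1, Complex.norm_cpow_eq_rpow_re_of_pos (by positivity), Complex.neg_re]

end chib

/-- **Module chib** (5 small lemmas, about 130 lines). The functional equation.

PROOF. `riemannZeta_one_sub` (Mathlib) at `1 - s`. -/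
theorem chi_fe {s : ℂ} (h0 : s ≠ 0) (h1 : ∀ n : ℕ, s ≠ n + 1) :
    riemannZeta s = chi s * riemannZeta (1 - s) := by
  have h2 := riemannZeta_one_sub (s := 1 - s) (fun n h => h1 n (by linear_combination -h))
    (fun h => h0 (by linear_combination -h))
  rw [sub_sub_cancel] at h2
  rw [h2]
  rfl

/-- `|χ| = 1` on the critical line. PROOF. `1 - s = 1/2 - it`. The reflection formula
(`Complex.Gamma_mul_Gamma_one_sub`) at `1/2 - it` gives
`Γ(1/2-it) Γ(1/2+it) = π / sin(π(1/2-it)) = π / cosh(πt)`, and `Γ(1/2+it) = conj Γ(1/2-it)`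
(`Complex.Gamma_conj`), so `‖Γ(1/2-it)‖² = π/cosh(πt)`. Further `‖(2π)^(-(1/2-it))‖² = 1/(2π)` and
`‖cos(π/4 - iπt/2)‖² = cos²(π/4) cosh²(πt/2) + sin²(π/4) sinh²(πt/2) = cosh(πt)/2`. So
`‖χ‖² = 4 · 1/(2π) · π/cosh(πt) · cosh(πt)/2 = 1`. -/
theorem chi_norm_half (t : ℝ) : ‖chi (1 / 2 + (t : ℂ) * I)‖ = 1 := by
  have hz : 1 - (1 / 2 + (t : ℂ) * I) = 1 / 2 - (t : ℂ) * I := by ring
  have hcos : Complex.cos (π * (1 / 2 - (t : ℂ) * I) / 2) =
      Complex.cos (((π / 4 : ℝ) : ℂ) + ((-(π * t / 2) : ℝ) : ℂ) * I) := by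
    congr 1
    push_cast
    ring
  have h1 := chib.cos_sq_norm (π / 4) (-(π * t / 2)) (by
    rw [Real.cos_pi_div_four, div_pow, Real.sq_sqrt (by norm_num)]
    norm_num)
  have h2 := chib.gamma_sq t
  have h3 : ‖(2 * π : ℂ) ^ (-(1 / 2 - (t : ℂ) * I))‖ ^ 2 = 1 / (2 * π) := by
    rw [chib.pow_norm, ← Real.rpow_natCast, ← Real.rpow_mul (by positivity)]
    have h4 : -(1 / 2 - (t : ℂ) * I).re * ((2 : ℕ) : ℝ) = -1 := by
      simp
    rw [h4, Real.rpow_neg_one, one_div]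
  have hc : 0 < Real.cosh (π * t) := Real.cosh_pos _
  have h5 : ‖chi (1 / 2 + (t : ℂ) * I)‖ ^ 2 = 1 := by
    unfold chi
    rw [hz, norm_mul, norm_mul, norm_mul, mul_pow, mul_pow, mul_pow, h3, h2, hcos, h1]
    have h6 : Real.cosh (2 * (-(π * t / 2))) = Real.cosh (π * t) := by
      rw [← Real.cosh_neg (π * t)]
      congr 1
      ring
    rw [h6]
    have hpi := Real.pi_pos
    simp only [Complex.norm_ofNat]
    field_simp
  have h6 := norm_nonneg (chi (1 / 2 + (t : ℂ) * I))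
  nlinarith

/-- The exact modulus on the line `Re s = -1/2`. PROOF. `1 - s = 3/2 - it`,
`Γ(3/2-it) = (1/2-it) Γ(1/2-it)`, `‖Γ(3/2-it)‖² = (1/4+t²) π/cosh(πt)`, `‖(2π)^(-(3/2-it))‖² = (2π)^(-3)`,
`‖cos(3π/4 - iπt/2)‖² = (1/2)(cosh²(πt/2) + sinh²(πt/2)) = cosh(πt)/2`. So
`‖χ‖² = 4 (2π)^(-3) (1/4+t²) π/2 = (1/4+t²)/(4π²)`. -/
theorem chi_norm_neg (t : ℝ) :
    ‖chi (-1 / 2 + (t : ℂ) * I)‖ = Real.sqrt (1 / 4 + t ^ 2) / (2 * π) := by
  have hz : 1 - (-1 / 2 + (t : ℂ) * I) = (1 / 2 - (t : ℂ) * I) + 1 := by ring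
  have hcos : Complex.cos (π * ((1 / 2 - (t : ℂ) * I) + 1) / 2) =
      Complex.cos (((3 * π / 4 : ℝ) : ℂ) + ((-(π * t / 2) : ℝ) : ℂ) * I) := by
    congr 1
    push_cast
    ring
  have h1 := chib.cos_sq_norm (3 * π / 4) (-(π * t / 2)) (by
    have h0 : (3 * π / 4 : ℝ) = π - π / 4 := by ring
    rw [h0, Real.cos_pi_sub, neg_sq, Real.cos_pi_div_four, div_pow, Real.sq_sqrt (by norm_num)]
    norm_num)
  have h2 := chib.gamma_sq t
  have hne : (1 / 2 - (t : ℂ) * I) ≠ 0 := fun h => by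
    have := congrArg Complex.re h
    simp at this
  have hG : ‖Complex.Gamma ((1 / 2 - (t : ℂ) * I) + 1)‖ ^ 2 =
      (1 / 4 + t ^ 2) * (π / Real.cosh (π * t)) := by
    rw [Complex.Gamma_add_one _ hne, norm_mul, mul_pow, h2]
    congr 1
    rw [← Complex.normSq_eq_norm_sq]
    have h7 : (1 / 2 - (t : ℂ) * I) = ((1 / 2 : ℝ) : ℂ) + ((-t : ℝ) : ℂ) * I := by
      push_cast
      ring
    rw [h7, Complex.normSq_add_mul_I]
    ring
  have h3 : ‖(2 * π : ℂ) ^ (-((1 / 2 - (t : ℂ) * I) + 1))‖ ^ 2 = 1 / (2 * π) ^ 3 := by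
    rw [chib.pow_norm, ← Real.rpow_natCast, ← Real.rpow_mul (by positivity)]
    have h4 : -((1 / 2 - (t : ℂ) * I) + 1).re * ((2 : ℕ) : ℝ) = -((3 : ℕ) : ℝ) := by
      simp
      norm_num
    rw [h4, Real.rpow_neg (by positivity), Real.rpow_natCast, one_div]
  have hc : 0 < Real.cosh (π * t) := Real.cosh_pos _
  have hpi := Real.pi_pos
  have h5 : ‖chi (-1 / 2 + (t : ℂ) * I)‖ ^ 2 = (Real.sqrt (1 / 4 + t ^ 2) / (2 * π)) ^ 2 := by
    unfold chi
    rw [hz, norm_mul, norm_mul, norm_mul, mul_pow, mul_pow, mul_pow, h3, hG, hcos, h1]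
    have h6 : Real.cosh (2 * (-(π * t / 2))) = Real.cosh (π * t) := by
      rw [← Real.cosh_neg (π * t)]
      congr 1
      ring
    rw [h6, div_pow, Real.sq_sqrt (by positivity)]
    simp only [Complex.norm_ofNat]
    field_simp
  exact (sq_eq_sq₀ (norm_nonneg _) (by positivity)).1 h5

/-- `χ` is differentiable to the left of `1` (there `Re (1 - s) > 0`). -/
theorem chi_differentiableAt {s : ℂ} (hs : s.re < 1) : DifferentiableAt ℂ chi s := by
  unfold chi
  have h1 : DifferentiableAt ℂ (fun s : ℂ => Complex.Gamma (1 - s)) s := by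
    have h2 : DifferentiableAt ℂ Complex.Gamma (1 - s) := by
      refine Complex.differentiableAt_Gamma _ fun m h => ?_
      have h3 := congrArg Complex.re h
      simp at h3
      have : (0 : ℝ) ≤ m := Nat.cast_nonneg m
      linarith
    exact h2.comp s (by fun_prop)
  have h3 : (2 * π : ℂ) ≠ 0 := by
    have := Real.pi_ne_zero
    simp [this]
  have h4 : DifferentiableAt ℂ (fun s : ℂ => (2 * π : ℂ) ^ (-(1 - s))) s :=
    DifferentiableAt.const_cpow (by fun_prop) (Or.inl h3)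
  have h5 : DifferentiableAt ℂ (fun s : ℂ => Complex.cos (π * (1 - s) / 2)) s := by
    fun_prop
  exact (((differentiableAt_const _).mul h4).mul h1).mul h5

/-- `χ(s) ≠ 0` for `Re s < 1`, `Im s ≠ 0`: `Γ(1-s) ≠ 0` as `Re(1-s) > 0`, and the zeros of the cosine
are real (`Complex.cos_ne_zero_iff`). -/
theorem chi_ne_zero {s : ℂ} (hs : s.re < 1) (hs' : s.im ≠ 0) : chi s ≠ 0 := by
  unfold chi
  have h3 : (2 * π : ℂ) ≠ 0 := by
    have := Real.pi_ne_zero
    simp [this]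
  refine mul_ne_zero (mul_ne_zero (mul_ne_zero two_ne_zero ?_) ?_) ?_
  · rw [Complex.cpow_def_of_ne_zero h3]
    exact Complex.exp_ne_zero _
  · exact Complex.Gamma_ne_zero_of_re_pos (by simp; linarith)
  · rw [Complex.cos_ne_zero_iff]
    intro k h
    have h4 := congrArg Complex.im h
    have h5 : ((π : ℂ) * (1 - s) / 2) = ((π / 2 : ℝ) : ℂ) * (1 - s) := by
      push_cast
      ring
    have h6 : ((2 * (k : ℂ) + 1) * π / 2) = (((2 * k + 1) * π / 2 : ℝ) : ℂ) := by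
      push_cast
      ring
    rw [h5, h6, Complex.ofReal_im, Complex.im_ofReal_mul] at h4
    exact hs' (by simpa [Real.pi_ne_zero] using h4)

/-- On the critical line `χ` is continuous. -/
theorem continuous_chi_half : Continuous fun t : ℝ => chi (1 / 2 + (t : ℂ) * I) := by
  rw [continuous_iff_continuousAt]
  intro t
  have h1 : ContinuousAt chi (1 / 2 + (t : ℂ) * I) :=
    (chi_differentiableAt (by simp; norm_num)).continuousAt
  exact ContinuousAt.comp (g := chi) (f := fun t : ℝ => 1 / 2 + (t : ℂ) * I) h1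
    (by fun_prop)

end Pool.Agent.MP_67227b_nt.Fb
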