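import Pool.Agent.MP_67227b_nt.Fb.FbZsDefs
import Pool.Agent.MP_67227b_nt.Fb.FbChiB

set_option autoImplicit false

open Filter Topology Set MeasureTheory Complex
open scoped Real ContDiff ArithmeticFunction ArithmeticFunction.Moebius ComplexConjugate

namespace Pool.Agent.MP_67227b_nt.Fb

open Pool.Agent.Lib.ZetaCount_helper33 Pool.Agent.MP_67227b_nt Pool.Agent.MP_67227b_nt.Mo

/-- **Module zs** (2 theorems, about 170 lines). `(s-1)ζ(s)` is entire.

PROOF. Away from `1` it is `differentiableAt_riemannZeta`; near `1` it is differentiable on the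
punctured neighbourhood and continuous at `1` (`riemannZeta_residue_one`), so analytic there
(`Complex.analyticAt_of_differentiable_on_punctured_nhds_of_continuousAt`). -/
theorem zs_differentiable : Differentiable ℂ zs := by
  have hne : ∀ s : ℂ, s ≠ 1 → DifferentiableAt ℂ zs s := by
    intro s hs
    have h1 : zs =ᶠ[𝓝 s] fun s => (s - 1) * riemannZeta s := by
      filter_upwards [isOpen_ne.mem_nhds hs] with z hz
      unfold zs
      rw [if_neg hz]
    have h2 : DifferentiableAt ℂ (fun s => (s - 1) * riemannZeta s) s :=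
      (differentiableAt_id.sub_const 1).mul (differentiableAt_riemannZeta hs)
    exact h2.congr_of_eventuallyEq h1
  intro s
  by_cases hs : s = 1
  · subst hs
    have hc : ContinuousAt zs 1 := by
      rw [← continuousWithinAt_compl_self]
      have h1 : zs 1 = 1 := by
        unfold zs
        rw [if_pos rfl]
      unfold ContinuousWithinAt
      rw [h1]
      refine riemannZeta_residue_one.congr' ?_
      filter_upwards [self_mem_nhdsWithin] with z hz
      have hz' : z ≠ 1 := hz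
      unfold zs
      rw [if_neg hz']
    have h2 : AnalyticAt ℂ zs 1 := by
      refine Complex.analyticAt_of_differentiable_on_punctured_nhds_of_continuousAt ?_ hc
      filter_upwards [self_mem_nhdsWithin] with z hz
      exact hne z hz
    exact h2.differentiableAt
  · exact hne s hs

private theorem zs_zeta_bd : ∃ K : ℝ, 0 < K ∧ ∀ s : ℂ, s.re = 3 / 2 → ‖riemannZeta s‖ ≤ K := by
  have hsum : Summable (fun n : ℕ => 1 / (n : ℝ) ^ (3 / 2 : ℝ)) :=
    Real.summable_one_div_nat_rpow.mpr (by norm_num)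
  refine ⟨(∑' n : ℕ, 1 / (n : ℝ) ^ (3 / 2 : ℝ)) + 1, ?_, ?_⟩
  · have : 0 ≤ ∑' n : ℕ, 1 / (n : ℝ) ^ (3 / 2 : ℝ) := tsum_nonneg fun n => by positivity
    linarith
  · intro s hs
    rw [zeta_eq_tsum_one_div_nat_cpow (by rw [hs]; norm_num)]
    have hn : ∀ n : ℕ, ‖1 / (n : ℂ) ^ s‖ = 1 / (n : ℝ) ^ (3 / 2 : ℝ) := by
      intro n
      rw [norm_div, norm_one, Complex.norm_natCast_cpow_of_re_ne_zero _ (by rw [hs]; norm_num), hs]
    have h1 : ‖∑' n : ℕ, 1 / (n : ℂ) ^ s‖ ≤ ∑' n : ℕ, ‖1 / (n : ℂ) ^ s‖ := by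
      refine norm_tsum_le_tsum_norm ?_
      simp_rw [hn]
      exact hsum
    simp_rw [hn] at h1
    linarith

private theorem zs_sin (w : ℂ) : ‖Complex.sin w‖ ≤ Real.exp |w.im| := by
  have h1 : Complex.sin w = (Complex.exp (-w * I) - Complex.exp (w * I)) * I / 2 := rfl
  have h2 : ‖Complex.exp (-w * I)‖ = Real.exp w.im := by
    rw [Complex.norm_exp]
    congr 1
    simp
  have h3 : ‖Complex.exp (w * I)‖ = Real.exp (-w.im) := by
    rw [Complex.norm_exp]
    congr 1
    simp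
  have h4 : Real.exp w.im ≤ Real.exp |w.im| := Real.exp_le_exp.mpr (le_abs_self _)
  have h5 : Real.exp (-w.im) ≤ Real.exp |w.im| := Real.exp_le_exp.mpr (neg_le_abs _)
  rw [h1, norm_div, norm_mul, Complex.norm_I, mul_one]
  have h6 : ‖(2 : ℂ)‖ = 2 := by simp
  rw [h6, div_le_iff₀ (by norm_num)]
  refine (norm_sub_le _ _).trans ?_
  rw [h2, h3]
  linarith

private theorem zs_gamma : ∃ G : ℝ, 0 < G ∧ ∀ s : ℂ, -(1 / 2) ≤ s.re → s.re ≤ 3 / 2 → s.im ≠ 0 →
    ‖(Complex.Gammaℝ s)⁻¹‖ ≤ G * Real.exp (π / 2 * |s.im|) := by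
  obtain ⟨G, hG⟩ := (isCompact_Icc (a := (1 / 4 : ℝ)) (b := 5 / 4)).exists_bound_of_continuousOn
    (f := Real.Gamma) (fun x hx => (Real.differentiableAt_Gamma fun m h => by
      have h1 : (0 : ℝ) ≤ m := Nat.cast_nonneg m
      have h2 := hx.1
      rw [h] at h2
      linarith).continuousAt.continuousWithinAt)
  refine ⟨|G| + 1, by positivity, ?_⟩
  intro s h1 h2 him
  have hGne : Complex.Gammaℝ s ≠ 0 := Gammaℝ_ne_zero_of_im him
  rw [Complex.Gammaℝ_def] at hGne ⊢
  have hne1 : Complex.Gamma (s / 2) ≠ 0 := right_ne_zero_of_mul hGne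
  have hrefl := Complex.Gamma_mul_Gamma_one_sub (s / 2)
  have hre : (1 - s / 2).re = 1 - s.re / 2 := by simp
  have hne2 : Complex.Gamma (1 - s / 2) ≠ 0 := by
    apply Complex.Gamma_ne_zero_of_re_pos
    rw [hre]
    linarith
  have hsin : Complex.sin (π * (s / 2)) ≠ 0 := by
    intro h
    rw [h, div_zero] at hrefl
    exact (mul_ne_zero hne1 hne2) hrefl
  have hπ : (π : ℂ) ≠ 0 := by exact_mod_cast Real.pi_ne_zero
  have hinv : (Complex.Gamma (s / 2))⁻¹ =
      Complex.Gamma (1 - s / 2) * Complex.sin (π * (s / 2)) / π := by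
    rw [eq_div_iff hsin] at hrefl
    rw [eq_div_iff hπ, inv_mul_eq_iff_eq_mul₀ hne1]
    rw [← mul_assoc]
    exact hrefl.symm
  rw [mul_inv, norm_mul, hinv, norm_div, norm_mul]
  have hp1 : ‖((π : ℂ) ^ (-s / 2))⁻¹‖ ≤ π := by
    rw [norm_inv, Complex.norm_cpow_eq_rpow_re_of_pos Real.pi_pos]
    have h3 : (-s / 2).re = -(s.re / 2) := by
      simp
      ring
    rw [h3, Real.rpow_neg Real.pi_pos.le, inv_inv]
    calc π ^ (s.re / 2) ≤ π ^ (1 : ℝ) := by
          apply Real.rpow_le_rpow_of_exponent_le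
          · linarith [Real.pi_gt_three]
          · linarith
      _ = π := Real.rpow_one _
  have hp2 : ‖Complex.Gamma (1 - s / 2)‖ ≤ |G| + 1 := by
    have h3 := norm_Gamma_le (s := 1 - s / 2) (by rw [hre]; linarith)
    have h4 := hG (1 - s.re / 2) ⟨by linarith, by linarith⟩
    rw [hre] at h3
    have h5 : Real.Gamma (1 - s.re / 2) ≤ ‖Real.Gamma (1 - s.re / 2)‖ := le_abs_self _
    have h6 := le_abs_self G
    linarith
  have hp3 : ‖Complex.sin (π * (s / 2))‖ ≤ Real.exp (π / 2 * |s.im|) := by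
    refine (zs_sin _).trans (le_of_eq ?_)
    congr 1
    have h3 : ((π : ℂ) * (s / 2)).im = π / 2 * s.im := by
      have : ((π : ℂ) * (s / 2)) = ((π / 2 : ℝ) : ℂ) * s := by
        push_cast
        ring
      rw [this, Complex.im_ofReal_mul]
    rw [h3, abs_mul, abs_of_pos (by positivity)]
  have hp4 : ‖(π : ℂ)‖ = π := by
    rw [Complex.norm_real, Real.norm_eq_abs, abs_of_pos Real.pi_pos]
  rw [hp4]
  have hG0 : 0 < |G| + 1 := by positivity
  calc ‖((π : ℂ) ^ (-s / 2))⁻¹‖ * (‖Complex.Gamma (1 - s / 2)‖ * ‖Complex.sin (π * (s / 2))‖ / π)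
      ≤ π * ((|G| + 1) * Real.exp (π / 2 * |s.im|) / π) := by
        have := Real.pi_pos
        gcongr
    _ = (|G| + 1) * Real.exp (π / 2 * |s.im|) := by
        field_simp

/-- Polynomial growth in the strip `-1/2 ≤ Re s ≤ 3/2`.

PROOF. Phragmen-Lindelof (`PhragmenLindelof.vertical_strip`, `a = -1/2`, `b = 3/2`, so the allowed a
priori growth is `exp(B exp(c |Im s|))` with some `c < π/2`, e.g. `c = 1`) for
`f(s) = zs(s)/(s+2)²`.
Edges: `Re s = 3/2`: `‖ζ(s)‖ ≤ ∑ n^{-3/2} =: K`, `‖s - 1‖ ≤ ‖s+2‖`. `Re s = -1/2`: by `chi_fe`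
(`s ≠ 0`, `s ≠ n+1` since `Re s < 0`) `ζ(s) = χ(s) ζ(1-s)`, `Re(1-s) = 3/2`,
`‖χ(s)‖ = √(1/4+t²)/(2π)` (`chi_norm_neg`), so `‖zs(s)‖ ≤ K ‖s-1‖ (1+|t|) ≤ C ‖s+2‖²`.
A priori growth in the strip: `xi s = s(1-s) Λ₀(s) - 1` is at most `C(1+‖s‖)²` in the strip
(`exists_norm_completedRiemannZeta₀_le` in Lib/ZetaCount_helper33/XiBounds), and
`xi s = s (1-s) Gammaℝ(s) ζ(s)` (`xi_eq'`), so `zs(s) = - xi(s)/(s Gammaℝ(s))`; for `|Im s| ≥ 1`
`1/Γ(s/2) = Γ(1-s/2) sin(πs/2)/π`, `Re(1 - s/2) ∈ [1/4, 5/4]`, `‖Γ(z)‖ ≤ Γ(Re z) ≤ C` there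
(`Complex.norm_Gamma_le` or `Complex.Gamma_eq_integral`; `Real.Gamma` is continuous on
`[1/4, 5/4]`), `‖sin(πs/2)‖ ≤ e^{π|t|/2}`; so `‖zs(s)‖ ≤ C (1+|t|)² e^{π|t|/2} ≤ exp(B exp |t|)`; for
`|Im s| ≤ 1` it is bounded by compactness. (`f` is differentiable in the strip as `s + 2 ≠ 0`.) -/
theorem zs_growth : ∃ C : ℝ, 0 < C ∧ ∀ s : ℂ, -(1 / 2) ≤ s.re → s.re ≤ 3 / 2 →
    ‖zs s‖ ≤ C * (1 + |s.im|) ^ 2 := by
  obtain ⟨K, hK0, hK⟩ := zs_zeta_bd
  obtain ⟨G, hG0, hG⟩ := zs_gamma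
  obtain ⟨C1, hC10, hC1⟩ := exists_norm_completedRiemannZeta₀_le (-(1 / 2)) (3 / 2)
  set f : ℂ → ℂ := fun s => zs s / (s + 2) ^ 2 with hf
  have hs2 : ∀ s : ℂ, -(1 / 2) ≤ s.re → 3 / 2 ≤ ‖s + 2‖ := by
    intro s hs
    have h1 : |(s + 2).re| ≤ ‖s + 2‖ := Complex.abs_re_le_norm _
    have h2 : (s + 2).re = s.re + 2 := by simp
    rw [h2] at h1
    have h3 := le_abs_self (s.re + 2)
    linarith
  have hs1 : ∀ s : ℂ, -(1 / 2) ≤ s.re → ‖s - 1‖ ≤ 3 * ‖s + 2‖ := by
    intro s hs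
    have h1 := hs2 s hs
    have h2 : ‖s - 1‖ ≤ ‖s + 2‖ + ‖(3 : ℂ)‖ := by
      have : s - 1 = (s + 2) - 3 := by ring
      rw [this]
      exact norm_sub_le _ _
    have h3 : ‖(3 : ℂ)‖ = 3 := by simp
    rw [h3] at h2
    linarith
  have hzs : ∀ s : ℂ, s ≠ 1 → zs s = (s - 1) * riemannZeta s := by
    intro s hs
    unfold zs
    rw [if_neg hs]
  -- the bound
  obtain ⟨M, hM⟩ : ∃ M : ℝ, M = 3 * K := ⟨_, rfl⟩
  have hea : ∀ z : ℂ, z.re = -(1 / 2) → ‖f z‖ ≤ M := by
    intro z hz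
    have h1 : z ≠ 1 := by
      rintro rfl
      norm_num at hz
    have h0 : z ≠ 0 := by
      rintro rfl
      norm_num at hz
    have hn : ∀ n : ℕ, z ≠ n + 1 := by
      rintro n rfl
      have h2 : ((n : ℂ) + 1).re = n + 1 := by simp
      rw [h2] at hz
      have : (0 : ℝ) ≤ n := Nat.cast_nonneg n
      linarith
    have h2 : z = -1 / 2 + (z.im : ℂ) * I := by
      apply Complex.ext
      · simp
        rw [hz]
        norm_num
      · simp
    have h3 : ‖chi z‖ = Real.sqrt (1 / 4 + z.im ^ 2) / (2 * π) := by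
      conv_lhs => rw [h2]
      exact chi_norm_neg z.im
    have h4 := hs2 z hz.ge
    have h5 := hs1 z hz.ge
    have h6 : Real.sqrt (1 / 4 + z.im ^ 2) ≤ ‖z + 2‖ := by
      apply Real.sqrt_le_iff.mpr
      refine ⟨norm_nonneg _, ?_⟩
      rw [Complex.sq_norm, Complex.normSq_apply]
      have a1 : (z + 2).re = z.re + 2 := by simp
      have a2 : (z + 2).im = z.im := by simp
      rw [a1, a2, hz]
      nlinarith
    have h7 : ‖riemannZeta (1 - z)‖ ≤ K := by
      apply hK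
      simp
      rw [hz]
      norm_num
    have h8 : ‖chi z‖ ≤ ‖z + 2‖ := by
      rw [h3, div_le_iff₀ (by positivity)]
      have := Real.pi_gt_three
      nlinarith
    rw [hf]
    show ‖zs z / (z + 2) ^ 2‖ ≤ M
    rw [hzs z h1, chi_fe h0 hn, norm_div, norm_pow, norm_mul, norm_mul,
      div_le_iff₀ (by positivity), hM]
    calc ‖z - 1‖ * (‖chi z‖ * ‖riemannZeta (1 - z)‖) ≤ (3 * ‖z + 2‖) * (‖z + 2‖ * K) := by
          gcongr
      _ = 3 * K * ‖z + 2‖ ^ 2 := by ring
  have heb : ∀ z : ℂ, z.re = 3 / 2 → ‖f z‖ ≤ M := by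
    intro z hz
    have h1 : z ≠ 1 := by
      rintro rfl
      norm_num at hz
    have h4 := hs2 z (by rw [hz]; norm_num)
    have h5 := hs1 z (by rw [hz]; norm_num)
    have h7 := hK z hz
    show ‖zs z / (z + 2) ^ 2‖ ≤ M
    rw [hzs z h1, norm_div, norm_pow, norm_mul, div_le_iff₀ (by positivity), hM]
    calc ‖z - 1‖ * ‖riemannZeta z‖ ≤ (3 * ‖z + 2‖) * K := by
          gcongr
      _ ≤ 3 * K * ‖z + 2‖ ^ 2 := by
          have : 0 ≤ K * ‖z + 2‖ := by positivity
          nlinarith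
  have hfd : DiffContOnCl ℂ f (re ⁻¹' Ioo (-(1 / 2)) (3 / 2)) := by
    apply DifferentiableOn.diffContOnCl
    intro z hz
    have hcl : closure (re ⁻¹' Ioo (-(1 / 2) : ℝ) (3 / 2)) ⊆ re ⁻¹' Icc (-(1 / 2)) (3 / 2) :=
      closure_minimal (preimage_mono Ioo_subset_Icc_self) (isClosed_Icc.preimage Complex.continuous_re)
    have hz' := hcl hz
    have h4 := hs2 z hz'.1
    have h5 : (z + 2) ^ 2 ≠ 0 := by
      apply pow_ne_zero
      intro h
      rw [h, norm_zero] at h4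
      linarith
    exact ((zs_differentiable z).div ((differentiableAt_id.add_const 2).pow 2) h5).differentiableWithinAt
  have hB : ∃ c < π / (3 / 2 - -(1 / 2)), ∃ B : ℝ,
      f =O[comap (_root_.abs ∘ im) atTop ⊓ 𝓟 (re ⁻¹' Ioo (-(1 / 2)) (3 / 2))]
        fun z ↦ Real.exp (B * Real.exp (c * |z.im|)) := by
    refine ⟨1, ?_, 2, ?_⟩
    · have := Real.pi_gt_three
      norm_num
      linarith
    · refine Asymptotics.IsBigO.of_bound (2 * (C1 + 2) * G) ?_
      rw [Filter.eventually_inf_principal]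
      have h1 : ∀ᶠ z : ℂ in comap (_root_.abs ∘ im) atTop, (1 : ℝ) ≤ |z.im| :=
        tendsto_comap.eventually_ge_atTop 1
      filter_upwards [h1] with z hz1 hz
      have hz2 : -(1 / 2) < z.re := hz.1
      have hz3 : z.re < 3 / 2 := hz.2
      have him : z.im ≠ 0 := by
        intro h
        rw [h, abs_zero] at hz1
        linarith
      have h0 : z ≠ 0 := by
        rintro rfl
        exact him rfl
      have hne1 : z ≠ 1 := by
        rintro rfl
        exact him rfl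
      have hnz : 1 ≤ ‖z‖ := hz1.trans (Complex.abs_im_le_norm z)
      have hnz1 : 1 ≤ ‖1 - z‖ := by
        have h2 := Complex.abs_im_le_norm (1 - z)
        have h3 : (1 - z).im = -z.im := by simp
        rw [h3, abs_neg] at h2
        linarith
      have hcomp : ‖completedRiemannZeta z‖ ≤ C1 + 2 := by
        rw [completedRiemannZeta_eq]
        have h2 := hC1 z hz2.le hz3.le
        have h3 : ‖1 / z‖ ≤ 1 := by
          rw [norm_div, norm_one, div_le_one (by linarith)]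
          exact hnz
        have h4 : ‖1 / (1 - z)‖ ≤ 1 := by
          rw [norm_div, norm_one, div_le_one (by linarith)]
          exact hnz1
        refine (norm_sub_le _ _).trans ?_
        have h5 := norm_sub_le (completedRiemannZeta₀ z) (1 / z)
        linarith
      have hgam := hG z hz2.le hz3.le him
      have h4 := hs2 z hz2.le
      have h5 := hs1 z hz2.le
      have hexp : Real.exp (π / 2 * |z.im|) ≤ Real.exp (2 * Real.exp (1 * |z.im|)) := by
        apply Real.exp_le_exp.mpr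
        have h6 : |z.im| ≤ Real.exp (1 * |z.im|) := by
          rw [one_mul]
          have := Real.add_one_le_exp |z.im|
          linarith
        have h7 := Real.pi_le_four
        have h8 := abs_nonneg z.im
        nlinarith
      have hx : ‖Real.exp (2 * Real.exp (1 * |z.im|))‖ = Real.exp (2 * Real.exp (1 * |z.im|)) :=
        Real.norm_of_nonneg (Real.exp_pos _).le
      rw [hx]
      show ‖zs z / (z + 2) ^ 2‖ ≤ _
      rw [hzs z hne1, riemannZeta_def_of_ne_zero h0, div_eq_mul_inv (completedRiemannZeta z),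
        norm_div, norm_pow, norm_mul, norm_mul, div_le_iff₀ (by positivity)]
      have hE := Real.exp_pos (2 * Real.exp (1 * |z.im|))
      calc ‖z - 1‖ * (‖completedRiemannZeta z‖ * ‖(Complex.Gammaℝ z)⁻¹‖)
          ≤ (3 * ‖z + 2‖) * ((C1 + 2) * (G * Real.exp (2 * Real.exp (1 * |z.im|)))) := by
            gcongr
            exact hgam.trans (mul_le_mul_of_nonneg_left hexp hG0.le)
        _ ≤ 2 * (C1 + 2) * G * Real.exp (2 * Real.exp (1 * |z.im|)) * ‖z + 2‖ ^ 2 := by
            have h9 : 0 ≤ (C1 + 2) * G * Real.exp (2 * Real.exp (1 * |z.im|)) * ‖z + 2‖ := by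
              positivity
            nlinarith
  refine ⟨M * (49 / 4), by rw [hM]; positivity, ?_⟩
  intro s h1 h2
  have h3 := PhragmenLindelof.vertical_strip hfd hB hea heb h1 h2
  have h4 := hs2 s h1
  have h5 : ‖zs s‖ ≤ M * ‖s + 2‖ ^ 2 := by
    have h6 : ‖zs s / (s + 2) ^ 2‖ ≤ M := h3
    rw [norm_div, norm_pow, div_le_iff₀ (by positivity)] at h6
    exact h6
  have h6 : ‖s + 2‖ ≤ 7 / 2 * (1 + |s.im|) := by
    have h7 := Complex.norm_le_abs_re_add_abs_im (s + 2)
    have a1 : (s + 2).re = s.re + 2 := by simp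
    have a2 : (s + 2).im = s.im := by simp
    rw [a1, a2, abs_of_pos (by linarith)] at h7
    have := abs_nonneg s.im
    linarith
  have hM0 : 0 ≤ M := by rw [hM]; positivity
  calc ‖zs s‖ ≤ M * ‖s + 2‖ ^ 2 := h5
    _ ≤ M * (7 / 2 * (1 + |s.im|)) ^ 2 := by gcongr
    _ = M * (49 / 4) * (1 + |s.im|) ^ 2 := by ring

end Pool.Agent.MP_67227b_nt.Fb
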