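import Pool.Agent.MP_67227b_nt.Fb.FbAfeL
import Pool.Agent.MP_67227b_nt.Fb.FbAfeR
import Pool.Agent.MP_67227b_nt.Fb.FbZs
import Pool.Agent.MP_67227b_nt.Fb.FbShift

set_option autoImplicit false

open Filter Topology Set MeasureTheory Complex
open scoped Real ContDiff ArithmeticFunction ArithmeticFunction.Moebius ComplexConjugate

namespace Pool.Agent.MP_67227b_nt.Fb

open Pool.Agent.Lib.ZetaCount_helper33 Pool.Agent.MP_67227b_nt Pool.Agent.MP_67227b_nt.Mo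

/-- The function whose line integrals are compared. -/
private noncomputable def afeF (κ : ℝ → ℝ) (L : ℝ) (m : ℕ) (ρ w : ℂ) : ℂ :=
  dslope (fun w => zs (ρ + w)) 0 w * (m : ℂ) ^ (-w) * Rk κ L w

private theorem AFE1_diff {κ : ℝ → ℝ} {e : ℝ} (he : 0 < e) (hκ : Step (1 - 2 * e) (1 - e) κ)
    (L : ℝ) {m : ℕ} (hm : 1 ≤ m) (ρ : ℂ) : Differentiable ℂ (afeF κ L m ρ) := by
  have h1 : Differentiable ℂ (fun w => zs (ρ + w)) :=
    zs_differentiable.comp (by fun_prop : Differentiable ℂ fun w : ℂ => ρ + w)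
  have h2 : Differentiable ℂ (dslope (fun w => zs (ρ + w)) 0) := by
    have h3 := (Complex.differentiableOn_dslope (s := univ) (c := (0 : ℂ))
      (f := fun w => zs (ρ + w)) Filter.univ_mem).2 h1.differentiableOn
    exact differentiableOn_univ.1 h3
  have h3 : Differentiable ℂ (fun w : ℂ => (m : ℂ) ^ (-w)) := fun w =>
    (differentiableAt_id.neg).const_cpow (Or.inl (by exact_mod_cast (show m ≠ 0 by omega)))
  exact (h2.mul h3).mul (Rk_differentiable he hκ L)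

private theorem AFE1_val (κ : ℝ → ℝ) (L : ℝ) (m : ℕ) {ρ : ℂ} (h0 : zs ρ = 0) {w : ℂ}
    (hw : w ≠ 0) : afeF κ L m ρ w = zs (ρ + w) / w * (m : ℂ) ^ (-w) * Rk κ L w := by
  unfold afeF
  rw [dslope_of_ne _ hw, slope_def_field]
  simp [h0]

private theorem AFE1_quot (κ : ℝ → ℝ) (L : ℝ) (m : ℕ) {ρ : ℂ} (h0 : zs ρ = 0) {w : ℂ}
    (hw : w ≠ 0) (hw' : ρ + w ≠ 1) : afeF κ L m ρ w / (w - (1 - ρ)) =
      riemannZeta (ρ + w) * (m : ℂ) ^ (-w) * Rk κ L w / w := by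
  rw [AFE1_val κ L m h0 hw, zs, if_neg hw']
  have h1 : w - (1 - ρ) ≠ 0 := by
    intro h
    apply hw'
    linear_combination h
  have e : ρ + w - 1 = w - (1 - ρ) := by ring
  rw [e]
  field_simp

private theorem AFE1_cpow {m : ℕ} (hm : 1 ≤ m) (w : ℂ) (hw : -1 ≤ w.re) :
    ‖(m : ℂ) ^ (-w)‖ ≤ m := by
  rw [Complex.norm_natCast_cpow_of_pos (by omega)]
  calc (m : ℝ) ^ ((-w).re) ≤ (m : ℝ) ^ (1 : ℝ) :=
        Real.rpow_le_rpow_of_exponent_le (by exact_mod_cast hm) (by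
          simp only [Complex.neg_re]
          linarith)
    _ = m := Real.rpow_one _

private theorem AFE1_cpow1 {m : ℕ} (hm : 1 ≤ m) (w : ℂ) (hw : 0 ≤ w.re) :
    ‖(m : ℂ) ^ (-w)‖ ≤ 1 := by
  rw [Complex.norm_natCast_cpow_of_pos (by omega)]
  exact Real.rpow_le_one_of_one_le_of_nonpos (by exact_mod_cast hm) (by
    simp only [Complex.neg_re]
    linarith)

private theorem AFE1_ln (σ y : ℝ) : (ln σ y).re = σ ∧ (ln σ y).im = y := by
  unfold ln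
  simp

private theorem AFE1_Rk {κ : ℝ → ℝ} {e : ℝ} (he : 0 < e) (he' : e ≤ 1 / 20)
    (hκ : Step (1 - 2 * e) (1 - e) κ) :
    ∃ C : ℝ, 0 < C ∧ ∀ L : ℝ, 1 ≤ L → ∀ w : ℂ, -1 ≤ w.re → w.re ≤ 1 →
      ‖Rk κ L w‖ ≤ C * Real.exp L / (1 + ‖w‖) ^ 4 := by
  obtain ⟨C₁, hC₁, h1⟩ := Rk_left he hκ 4
  obtain ⟨C₂, hC₂, h2⟩ := Rk_right he hκ 4
  refine ⟨C₁ + C₂, by positivity, fun L hL w hw1 hw2 => ?_⟩
  rcases le_total w.re 0 with h | h
  · refine (h1 L hL w h).trans ?_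
    have h3 : L * (1 - 2 * e) * w.re ≤ L := by
      have : L * (1 - 2 * e) * w.re ≤ 0 :=
        mul_nonpos_of_nonneg_of_nonpos (mul_nonneg (by linarith) (by linarith)) h
      linarith
    refine div_le_div_of_nonneg_right ?_ (by positivity)
    exact mul_le_mul (by linarith) (Real.exp_le_exp.2 h3) (Real.exp_pos _).le (by positivity)
  · refine (h2 L hL w h).trans ?_
    have h3 : L * (1 - e) * w.re ≤ L := by
      have h4 : (1 - e) * w.re ≤ 1 := by nlinarith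
      calc L * (1 - e) * w.re = L * ((1 - e) * w.re) := by ring
        _ ≤ L * 1 := mul_le_mul_of_nonneg_left h4 (by linarith)
        _ = L := mul_one L
    refine div_le_div_of_nonneg_right ?_ (by positivity)
    exact mul_le_mul (by linarith) (Real.exp_le_exp.2 h3) (Real.exp_pos _).le (by positivity)

private theorem AFE1_bound {κ : ℝ → ℝ} {e : ℝ} (he : 0 < e) (he' : e ≤ 1 / 20)
    (hκ : Step (1 - 2 * e) (1 - e) κ) {L : ℝ} (hL : 1 ≤ L) {m : ℕ} (hm : 1 ≤ m) {γ : ℝ}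
    (hγ : 0 ≤ γ) (h0 : zs (1 / 2 + (γ : ℂ) * I) = 0) :
    ∃ C : ℝ, ∀ w : ℂ, -1 ≤ w.re → w.re ≤ 1 → 1 ≤ |w.im| →
      ‖afeF κ L m (1 / 2 + (γ : ℂ) * I) w‖ ≤ C / w.im ^ 2 := by
  obtain ⟨C₁, hC₁, h1⟩ := zs_growth
  obtain ⟨C₂, hC₂, h2⟩ := AFE1_Rk he he' hκ
  refine ⟨C₁ * (1 + γ) ^ 2 * m * (C₂ * Real.exp L), fun w hw1 hw2 hw3 => ?_⟩
  have hw0 : w ≠ 0 := by
    intro h
    rw [h] at hw3
    simp at hw3
    linarith
  have hm' : (0 : ℝ) ≤ m := Nat.cast_nonneg m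
  have him : |w.im| ≤ ‖w‖ := Complex.abs_im_le_norm w
  have hn : 1 ≤ ‖w‖ := hw3.trans him
  have h3 : ‖zs (1 / 2 + (γ : ℂ) * I + w)‖ ≤ C₁ * (1 + γ) ^ 2 * (1 + |w.im|) ^ 2 := by
    have hre : (1 / 2 + (γ : ℂ) * I + w).re = 1 / 2 + w.re := by simp
    have him2 : (1 / 2 + (γ : ℂ) * I + w).im = γ + w.im := by simp
    have h4 := h1 (1 / 2 + (γ : ℂ) * I + w) (by rw [hre]; linarith) (by rw [hre]; linarith)
    rw [him2] at h4
    refine h4.trans ?_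
    rw [mul_assoc, ← mul_pow]
    refine mul_le_mul_of_nonneg_left (pow_le_pow_left₀ (by positivity) ?_ 2) hC₁.le
    have h5 := abs_add_le γ w.im
    rw [abs_of_nonneg hγ] at h5
    nlinarith [abs_nonneg w.im]
  have h4 := AFE1_cpow hm w hw1
  have h5 := h2 L hL w hw1 hw2
  rw [AFE1_val κ L m h0 hw0, norm_mul, norm_mul, norm_div]
  have h6 : ‖zs (1 / 2 + (γ : ℂ) * I + w)‖ / ‖w‖ ≤ C₁ * (1 + γ) ^ 2 * (1 + |w.im|) ^ 2 :=
    (div_le_self (norm_nonneg _) hn).trans h3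
  have h7 : ‖Rk κ L w‖ ≤ C₂ * Real.exp L / (1 + |w.im|) ^ 4 := by
    refine h5.trans ?_
    exact div_le_div_of_nonneg_left (by positivity) (by positivity)
      (pow_le_pow_left₀ (by positivity) (by linarith) 4)
  have hsq : w.im ^ 2 ≤ (1 + |w.im|) ^ 2 := by
    rw [← sq_abs]
    exact pow_le_pow_left₀ (abs_nonneg _) (by linarith [abs_nonneg w.im]) 2
  have hpos : 0 < w.im ^ 2 := by
    rw [← sq_abs]
    positivity
  calc _ ≤ (C₁ * (1 + γ) ^ 2 * (1 + |w.im|) ^ 2) * m * (C₂ * Real.exp L / (1 + |w.im|) ^ 4) := by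
        refine mul_le_mul (mul_le_mul h6 h4 (norm_nonneg _) (by positivity)) h7 (norm_nonneg _)
          (by positivity)
    _ = (C₁ * (1 + γ) ^ 2 * m * (C₂ * Real.exp L)) / (1 + |w.im|) ^ 2 := by
        field_simp
    _ ≤ _ := div_le_div_of_nonneg_left (by positivity) hpos hsq

private theorem AFE1_line (κ : ℝ → ℝ) (T : ℝ) (m : ℕ) {γ : ℝ} (_hγ : 0 < γ)
    (h0 : zs (1 / 2 + (γ : ℂ) * I) = 0) {σ : ℝ} (hσ : σ ≠ 0) (hσ' : σ ≠ 1 / 2) :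
    (1 / (2 * π : ℂ)) * (∫ y : ℝ, afeF κ (Real.log T) m (1 / 2 + (γ : ℂ) * I) (ln σ y) /
      (ln σ y - (1 - (1 / 2 + (γ : ℂ) * I)))) = Jl κ T m γ σ := by
  unfold Jl
  congr 1
  refine integral_congr_ae (Eventually.of_forall fun y => ?_)
  obtain ⟨h1, h2⟩ := AFE1_ln σ y
  simp only
  rw [AFE1_quot κ (Real.log T) m h0]
  · intro h
    rw [h] at h1
    simp at h1
    exact hσ h1.symm
  · intro h
    have h3 := congrArg Complex.re h
    simp [h1] at h3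
    apply hσ'
    linarith

private theorem AFE1_w0 {κ : ℝ → ℝ} {e : ℝ} (he : 0 < e) (he' : e ≤ 1 / 20)
    (hκ : Step (1 - 2 * e) (1 - e) κ) :
    ∃ C : ℝ, 0 < C ∧ ∀ T : ℝ, 1 ≤ Real.log T → 0 < T → ∀ (m : ℕ) (γ : ℝ), 1 ≤ m →
      T ^ (1 / 2 : ℝ) ≤ γ → zs (1 / 2 + (γ : ℂ) * I) = 0 →
      ‖afeF κ (Real.log T) m (1 / 2 + (γ : ℂ) * I) (1 - (1 / 2 + (γ : ℂ) * I))‖ ≤
        C * T ^ (-(1 - 2 * e) : ℝ) := by
  obtain ⟨C₂, hC₂, h2⟩ := AFE1_Rk he he' hκ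
  refine ⟨C₂, hC₂, fun T hL hT m γ hm hγ h0 => ?_⟩
  have hT1 : 1 ≤ T := by
    by_contra h
    have := Real.log_nonpos hT.le (by linarith)
    linarith
  have hTh : 0 < T ^ (1 / 2 : ℝ) := by positivity
  have hγ0 : 0 < γ := lt_of_lt_of_le hTh hγ
  obtain ⟨w, hw⟩ : ∃ w : ℂ, w = 1 - (1 / 2 + (γ : ℂ) * I) := ⟨_, rfl⟩
  rw [← hw]
  have hre : w.re = 1 / 2 := by
    rw [hw]
    simp
    norm_num
  have him : w.im = -γ := by
    rw [hw]
    simp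
  have hw0 : w ≠ 0 := by
    intro h
    rw [h] at hre
    norm_num at hre
  have h1w : 1 / 2 + (γ : ℂ) * I + w = 1 := by
    rw [hw]
    ring
  have hzs : zs 1 = 1 := by simp [zs]
  have hnw : γ ≤ ‖w‖ := by
    have h3 := Complex.abs_im_le_norm w
    rw [him, abs_neg, abs_of_pos hγ0] at h3
    exact h3
  rw [AFE1_val κ _ m h0 hw0, h1w, hzs, norm_mul, norm_mul, norm_div, norm_one]
  have h3 := AFE1_cpow1 hm w (by rw [hre]; norm_num)
  have h4 := h2 (Real.log T) hL w (by rw [hre]; norm_num) (by rw [hre]; norm_num)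
  rw [Real.exp_log hT] at h4
  have h5 : ‖Rk κ (Real.log T) w‖ ≤ C₂ * T / γ ^ 4 := by
    refine h4.trans ?_
    exact div_le_div_of_nonneg_left (by positivity) (by positivity)
      (pow_le_pow_left₀ hγ0.le (by linarith [norm_nonneg w]) 4)
  have h6 : 1 / ‖w‖ ≤ 1 := by
    rw [div_le_one (by linarith)]
    have : 1 ≤ T ^ (1 / 2 : ℝ) := Real.one_le_rpow hT1 (by norm_num)
    linarith
  have h7 : T ^ 2 ≤ γ ^ 4 := by
    calc T ^ 2 = (T ^ (1 / 2 : ℝ)) ^ 4 := by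
          rw [← Real.rpow_natCast, ← Real.rpow_natCast, ← Real.rpow_mul hT.le]
          norm_num
      _ ≤ γ ^ 4 := pow_le_pow_left₀ hTh.le hγ 4
  have h8 : T ^ (-(1 : ℝ)) ≤ T ^ (-(1 - 2 * e) : ℝ) :=
    Real.rpow_le_rpow_of_exponent_le hT1 (by linarith)
  calc 1 / ‖w‖ * ‖(m : ℂ) ^ (-w)‖ * ‖Rk κ (Real.log T) w‖
      ≤ 1 * 1 * (C₂ * T / γ ^ 4) :=
        mul_le_mul (mul_le_mul h6 h3 (norm_nonneg _) zero_le_one) h5 (norm_nonneg _) (by norm_num)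
    _ ≤ 1 * 1 * (C₂ * T / T ^ 2) := by
        refine mul_le_mul_of_nonneg_left ?_ (by norm_num)
        exact div_le_div_of_nonneg_left (by positivity) (by positivity) h7
    _ = C₂ * T ^ (-(1 : ℝ)) := by
        rw [Real.rpow_neg_one]
        field_simp
    _ ≤ _ := mul_le_mul_of_nonneg_left h8 hC₂.le

/-- **Module afe1** (about 160 lines). The approximate functional equation of one smooth piece at
the zeros.

PROOF. `L = log T`, `γ = ord u`, `ρ = 1/2+iγ = u.1` (`Mo.zer_eq hRH u`), `ζ(ρ) = 0` (from `xi ρ = 0` and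
`xi_eq'`, with `Gammaℝ ρ ≠ 0` since `Re ρ > 0`), so `zs ρ = 0`. Put `w₀ = 1 - ρ = 1/2 - iγ` and
`F(w) = dslope (fun w => zs (ρ + w)) 0 w * exp(-w log m) * Rk κ L w`: entire (`zs_differentiable`,
`Rk_differentiable`, differentiability of `dslope`), and for `w ≠ 0`, `w ≠ w₀`:
`F(w)/(w - w₀) = ζ(ρ+w) m^{-w} Rk(w)/w`, because `zs(ρ+w) = (ρ+w-1) ζ(ρ+w) = (w-w₀) ζ(ρ+w)`; so the two
integrals of `shift` are `2π Jl κ T m γ 1` and `2π Jl κ T m γ (-1)` (on the lines `w ≠ 0`, `w ≠ w₀`).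
Hypothesis of `shift`: for `|Im w| ≥ 1`, `-1 ≤ Re w ≤ 1`: `‖zs(ρ+w)/w‖ ≤ C (1+γ+|Im w|)²`
(`zs_growth`), `‖m^{-w}‖ ≤ m`, `‖Rk(w)‖ ≤ C e^{L}/(1+‖w‖)^4` (`Rk_left`, `Rk_right`, `k = 4`); so
`‖F(w)‖ ≤ C_{γ,T,m}/(Im w)²`.
`F(w₀) = (zs(1)/w₀) m^{-w₀} Rk(w₀)`, `zs 1 = 1`, `‖w₀‖ ≥ γ`, `‖m^{-w₀}‖ ≤ 1`,
`‖Rk(w₀)‖ ≤ C e^{L(1-e)/2}/(1+γ)^4` (`Rk_right`): `‖F(w₀)‖ ≤ C T^{1/2} γ^{-4} ≤ C T^{-1} ≤ C m T^{-(1-2e)}`
for `γ ≥ T/log T` and `T` large.
Conclude with `afe_left` and `afe_right`: `Sj + χ Sr = (Jl(1) - Jl(-1)) + (Jl(-1) + χ Sr)`. -/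
theorem afe_one (hRH : RiemannHypothesis) {κ : ℝ → ℝ} {e : ℝ} (he : 0 < e) (he' : e ≤ 1 / 20)
    (hκ : Step (1 - 2 * e) (1 - e) κ) :
    ∃ C : ℝ, 0 < C ∧ ∀ᶠ T : ℝ in atTop, ∀ (m : ℕ) (u : Zer), 1 ≤ m →
      (m : ℝ) ≤ T ^ (1 / 2 : ℝ) → T1 T ≤ ord u → ord u ≤ T →
      ‖Sj κ T m (ord u) + chi (1 / 2 + (ord u : ℂ) * I) * Sr κ T m (ord u)‖ ≤
        C * m * T ^ (-(1 - 2 * e) : ℝ) := by
  obtain ⟨C₀, hC₀, hshift⟩ := shift
  obtain ⟨C₁, hC₁, hw0⟩ := AFE1_w0 he he' hκ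
  obtain ⟨C₂, hC₂, hright⟩ := afe_right he he' hκ
  refine ⟨C₀ * C₁ + C₂, by positivity, ?_⟩
  have hT1big : ∀ᶠ T : ℝ in atTop, T ^ (1 / 2 : ℝ) ≤ T1 T := by
    have h1 : ∀ᶠ T : ℝ in atTop, ‖Real.log T‖ ≤ 1 * ‖T ^ (1 / 2 : ℝ)‖ :=
      (isLittleO_log_rpow_atTop (by norm_num : (0 : ℝ) < 1 / 2)).bound one_pos
    filter_upwards [h1, eventually_gt_atTop 1] with T h2 hT
    have hT0 : 0 < T := by linarith
    have hL := Real.log_pos hT
    rw [one_mul, Real.norm_of_nonneg hL.le, Real.norm_of_nonneg (by positivity)] at h2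
    unfold T1
    rw [le_div_iff₀ hL]
    calc T ^ (1 / 2 : ℝ) * Real.log T ≤ T ^ (1 / 2 : ℝ) * T ^ (1 / 2 : ℝ) :=
          mul_le_mul_of_nonneg_left h2 (by positivity)
      _ = T := by
          rw [← Real.rpow_add hT0]
          norm_num
  filter_upwards [hT1big, eventually_ge_atTop 400, eventually_ge_atTop (Real.exp 1)] with T hTb hT hTe
  intro m u hm hmT hu1 hu2
  have hT0 : 0 < T := by linarith
  have hL : 1 ≤ Real.log T := by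
    rw [Real.le_log_iff_exp_le hT0]
    exact hTe
  have h20 : 20 ≤ T ^ (1 / 2 : ℝ) := by
    have e1 : (20 : ℝ) = 400 ^ (1 / 2 : ℝ) := by
      rw [show (400 : ℝ) = 20 ^ (2 : ℝ) by norm_num, ← Real.rpow_mul (by norm_num)]
      norm_num
    rw [e1]
    exact Real.rpow_le_rpow (by norm_num) hT (by norm_num)
  have hγ : T ^ (1 / 2 : ℝ) ≤ ord u := hTb.trans hu1
  have hγ0 : 0 < ord u := by linarith
  have hz := zer_eq hRH u
  have him : u.1.im ≠ 0 := by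
    have : u.1.im = ord u := rfl
    rw [this]
    exact hγ0.ne'
  have hζ : riemannZeta u.1 = 0 := (xi_eq_zero_iff him).1 u.2
  have h0 : zs (1 / 2 + (ord u : ℂ) * I) = 0 := by
    rw [← hz]
    unfold zs
    rw [if_neg, hζ, mul_zero]
    intro h
    apply him
    rw [h]
    simp
  obtain ⟨C, hC⟩ := AFE1_bound he he' hκ hL hm hγ0.le h0
  have hre : (1 - (1 / 2 + (ord u : ℂ) * I)).re = 1 / 2 := by
    simp
    norm_num
  have h1 := hshift (afeF κ (Real.log T) m (1 / 2 + (ord u : ℂ) * I))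
    (1 - (1 / 2 + (ord u : ℂ) * I)) C (AFE1_diff he hκ _ hm _) hre hC
  have h2 := hw0 T hL hT0 m (ord u) hm hγ h0
  have h3 := hright T m (ord u) (by linarith) hm hmT (by linarith) hu2
  have e1 := AFE1_line κ T m hγ0 h0 (σ := 1) one_ne_zero (by norm_num)
  have e2 := AFE1_line κ T m hγ0 h0 (σ := -1) (by norm_num) (by norm_num)
  have e3 := afe_left he hκ (T := T) (by linarith) hm (ord u)
  have hm1 : (1 : ℝ) ≤ m := by exact_mod_cast hm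
  have hTp : 0 < T ^ (-(1 - 2 * e) : ℝ) := by positivity
  have h4 : ‖Jl κ T m (ord u) 1 - Jl κ T m (ord u) (-1)‖ ≤
      C₀ * C₁ * T ^ (-(1 - 2 * e) : ℝ) := by
    rw [← e1, ← e2, ← mul_sub, norm_mul]
    have h5 : ‖(1 / (2 * π : ℂ))‖ ≤ 1 := by
      have h6 : (1 / (2 * π : ℂ)) = ((1 / (2 * π) : ℝ) : ℂ) := by push_cast; ring
      rw [h6, Complex.norm_real, Real.norm_of_nonneg (by positivity)]
      rw [div_le_one (by positivity)]
      linarith [Real.pi_gt_three]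
    calc _ ≤ 1 * (C₀ * (C₁ * T ^ (-(1 - 2 * e) : ℝ))) :=
          mul_le_mul h5 (h1.trans (mul_le_mul_of_nonneg_left h2 hC₀.le)) (norm_nonneg _) zero_le_one
      _ = _ := by ring
  have h5 : Sj κ T m (ord u) + chi (1 / 2 + (ord u : ℂ) * I) * Sr κ T m (ord u) =
      (Jl κ T m (ord u) 1 - Jl κ T m (ord u) (-1)) +
        (Jl κ T m (ord u) (-1) + chi (1 / 2 + (ord u : ℂ) * I) * Sr κ T m (ord u)) := by
    rw [e3]
    ring
  rw [h5]
  calc _ ≤ C₀ * C₁ * T ^ (-(1 - 2 * e) : ℝ) + C₂ * m * T ^ (-(1 - 2 * e) : ℝ) :=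
        (norm_add_le _ _).trans (add_le_add h4 h3)
    _ ≤ C₀ * C₁ * T ^ (-(1 - 2 * e) : ℝ) * m + C₂ * m * T ^ (-(1 - 2 * e) : ℝ) := by
        have := le_mul_of_one_le_right (by positivity : 0 ≤ C₀ * C₁ * T ^ (-(1 - 2 * e) : ℝ)) hm1
        linarith
    _ = _ := by ring

end Pool.Agent.MP_67227b_nt.Fb
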