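import Pool.Agent.MP_67227b_nt.Fb.FbMel

set_option autoImplicit false

open Filter Topology Set MeasureTheory Complex
open scoped Real ContDiff ArithmeticFunction ArithmeticFunction.Moebius ComplexConjugate

namespace Pool.Agent.MP_67227b_nt.Fb

open Pool.Agent.Lib.ZetaCount_helper33 Pool.Agent.MP_67227b_nt Pool.Agent.MP_67227b_nt.Mo

namespace AfeLAux

private theorem ln_re (σ y : ℝ) : (ln σ y).re = σ := by simp [ln]
private theorem ln_im (σ y : ℝ) : (ln σ y).im = y := by simp [ln]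

private theorem ln_ne {σ : ℝ} (hσ : σ ≠ 0) (y : ℝ) : ln σ y ≠ 0 := fun h => hσ (by
  have := congrArg Complex.re h
  rwa [ln_re] at this)

private theorem ln_cont (σ : ℝ) : Continuous (ln σ) := by unfold ln; fun_prop

private theorem sq_le {σ : ℝ} (hσ : 1 ≤ |σ|) (y : ℝ) : 1 + y ^ 2 ≤ ‖ln σ y‖ ^ 2 := by
  rw [← Complex.normSq_eq_norm_sq, Complex.normSq_apply, ln_re, ln_im]
  have : 1 ≤ σ * σ := by nlinarith [abs_mul_abs_self σ, abs_nonneg σ]
  nlinarith

/-- integrability along the line -/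
private theorem H_int {κ : ℝ → ℝ} {L σ C : ℝ} (hσ : 1 ≤ |σ|) (hd : Differentiable ℂ (Rk κ L))
    (hb : ∀ y : ℝ, ‖Rk κ L (ln σ y)‖ ≤ C / (1 + ‖ln σ y‖) ^ 2) :
    Integrable fun y : ℝ => Rk κ L (ln σ y) / ln σ y := by
  have hσ0 : σ ≠ 0 := by
    intro h
    rw [h, abs_zero] at hσ
    linarith
  have hc : Continuous fun y : ℝ => Rk κ L (ln σ y) / ln σ y :=
    (hd.continuous.comp (ln_cont σ)).div (ln_cont σ) fun y => ln_ne hσ0 y
  have hC : 0 ≤ C := by
    have := (norm_nonneg _).trans (hb 0)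
    by_contra h
    push Not at h
    have h2 : C / (1 + ‖ln σ 0‖) ^ 2 < 0 := div_neg_of_neg_of_pos h (by positivity)
    linarith
  refine Integrable.mono' (integrable_inv_one_add_sq.const_mul C) hc.aestronglyMeasurable
    (Eventually.of_forall fun y => ?_)
  have h1 := sq_le hσ y
  have h2 : 1 ≤ ‖ln σ y‖ := by
    by_contra h
    push Not at h
    nlinarith [norm_nonneg (ln σ y), sq_nonneg y]
  rw [norm_div]
  refine (div_le_self (norm_nonneg _) h2).trans ((hb y).trans ?_)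
  rw [div_eq_mul_inv]
  refine mul_le_mul_of_nonneg_left (inv_anti₀ (by positivity) ?_) hC
  nlinarith [norm_nonneg (ln σ y)]

private theorem norm_pow {x : ℝ} (hx : 0 < x) (σ y : ℝ) : ‖(x : ℂ) ^ (-(ln σ y))‖ = x ^ (-σ) := by
  rw [Complex.norm_cpow_eq_rpow_re_of_pos hx, Complex.neg_re, ln_re]

private theorem pow_cont {x : ℝ} (hx : 0 < x) (σ : ℝ) :
    Continuous fun y : ℝ => (x : ℂ) ^ (-(ln σ y)) := by
  have h := ln_cont σ
  have h0 : (x : ℂ) ≠ 0 := by exact_mod_cast hx.ne'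
  exact Continuous.const_cpow (by fun_prop) (Or.inl h0)

/-- exchange of the sum and the integral -/
private theorem ser {κ c : ℝ → ℝ} {L σ : ℝ} {a : ℕ → ℂ} {x : ℕ → ℝ} (hx : ∀ j, 0 < x j)
    (hs : Summable fun j => ‖a j‖ * x j ^ (-σ))
    (hH : Integrable fun y : ℝ => Rk κ L (ln σ y) / ln σ y)
    (hm : ∀ x : ℝ, 0 < x → (1 / (2 * π : ℂ)) *
      ∫ y : ℝ, (x : ℂ) ^ (-(ln σ y)) * Rk κ L (ln σ y) / ln σ y = (c (Real.log x / L) : ℂ)) :
    (1 / (2 * π : ℂ)) * ∫ y : ℝ, (∑' j, a j * (x j : ℂ) ^ (-(ln σ y))) *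
      (Rk κ L (ln σ y) / ln σ y) = ∑' j, a j * (c (Real.log (x j) / L) : ℂ) := by
  set H : ℝ → ℂ := fun y => Rk κ L (ln σ y) / ln σ y with hHdef
  have hn : ∀ j y, ‖a j * (x j : ℂ) ^ (-(ln σ y)) * H y‖ = ‖a j‖ * x j ^ (-σ) * ‖H y‖ := by
    intro j y
    rw [norm_mul, norm_mul, norm_pow (hx j)]
  have hint : ∀ j, Integrable fun y : ℝ => a j * (x j : ℂ) ^ (-(ln σ y)) * H y := by
    intro j
    refine Integrable.mono' (hH.norm.const_mul (‖a j‖ * x j ^ (-σ)))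
      (((continuous_const.mul (pow_cont (hx j) σ)).aestronglyMeasurable).mul
        hH.aestronglyMeasurable) (Eventually.of_forall fun y => ?_)
    exact (hn j y).le
  have hsum : Summable fun j => ∫ y : ℝ, ‖a j * (x j : ℂ) ^ (-(ln σ y)) * H y‖ := by
    have h1 : (fun j => ∫ y : ℝ, ‖a j * (x j : ℂ) ^ (-(ln σ y)) * H y‖) =
        fun j => (‖a j‖ * x j ^ (-σ)) * ∫ y : ℝ, ‖H y‖ := by
      funext j
      rw [← integral_const_mul]
      exact integral_congr_ae (Eventually.of_forall fun y => hn j y)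
    rw [h1]
    exact hs.mul_right _
  have h := (hasSum_integral_of_summable_integral_norm hint hsum).tsum_eq
  have h2 : (∫ y : ℝ, (∑' j, a j * (x j : ℂ) ^ (-(ln σ y))) * H y) =
      ∫ y : ℝ, ∑' j, a j * (x j : ℂ) ^ (-(ln σ y)) * H y := by
    refine integral_congr_ae (Eventually.of_forall fun y => ?_)
    simp only
    rw [tsum_mul_right]
  rw [h2, ← h, ← tsum_mul_left]
  refine tsum_congr fun j => ?_
  rw [← hm (x j) (hx j)]
  have h3 : (∫ y : ℝ, a j * (x j : ℂ) ^ (-(ln σ y)) * H y) =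
      a j * ∫ y : ℝ, (x j : ℂ) ^ (-(ln σ y)) * Rk κ L (ln σ y) / ln σ y := by
    rw [← integral_const_mul]
    refine integral_congr_ae (Eventually.of_forall fun y => ?_)
    simp only [hHdef]
    ring
  rw [h3]
  ring

private theorem summable_32 : Summable fun j : ℕ => ((j : ℝ) + 1) ^ (-(3 / 2) : ℝ) := by
  have h := (Real.summable_nat_rpow (p := -(3 / 2))).2 (by norm_num)
  have h2 := (summable_nat_add_iff 1).2 h
  refine h2.congr fun j => ?_
  push_cast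
  rfl

end AfeLAux

open AfeLAux

/-- **Module afel** (about 110 lines). The integral over `Re w = 1` is the truncated sum.

PROOF. `L = log T ≥ 1`. For `w = ln 1 y`: `Re(1/2 + iγ + w) = 3/2 > 1`, so
`ζ(1/2+iγ+w) = ∑_{j ≥ 1} j^{-1/2-iγ} j^{-w}` (`zeta_eq_tsum_one_div_nat_cpow` or
`LSeries`), absolutely and uniformly in `y` (`∑ j^{-3/2}`), and `∫ ‖m^{-w} Rk(w)/w‖ dy < ∞` by
`Rk_right` (`k = 2`; `‖w‖ ≥ 1`). Exchange sum and integral (`integral_tsum`-type lemma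
`MeasureTheory.hasSum_integral_of_summable_integral_norm`) and use `mellin_right` with `x = m j`
(`(mj)^{-w} = m^{-w} j^{-w}`): `Jl κ T m γ 1 = ∑_{j≥1} j^{-1/2-iγ} κ(log(mj)/L)`, and for
`j > ⌊T⌋`: `mj ≥ T`, so `log(mj)/L ≥ 1 ≥ 1-e` and `κ = 0`. -/
theorem afe_left {κ : ℝ → ℝ} {e : ℝ} (he : 0 < e) (hκ : Step (1 - 2 * e) (1 - e) κ) {T : ℝ}
    (hT : 3 ≤ T) {m : ℕ} (hm : 1 ≤ m) (γ : ℝ) : Jl κ T m γ 1 = Sj κ T m γ := by
  have hT0 : 0 < T := by linarith
  have hL : 1 ≤ Real.log T := by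
    rw [← Real.log_exp 1]
    exact Real.log_le_log (Real.exp_pos 1) (by linarith [Real.exp_one_lt_three])
  have hL0 : 0 < Real.log T := by linarith
  have hm0 : (0 : ℝ) < m := by exact_mod_cast hm
  obtain ⟨C, hC, hb⟩ := Rk_right he hκ 2
  have hH : Integrable fun y : ℝ => Rk κ (Real.log T) (ln 1 y) / ln 1 y := by
    refine H_int (C := C * Real.exp (Real.log T * (1 - e) * 1)) (by simp)
      (Rk_differentiable he hκ _) fun y => ?_
    have := hb (Real.log T) hL (ln 1 y) (by rw [ln_re]; norm_num)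
    rwa [ln_re] at this
  set ρ : ℂ := 1 / 2 + (γ : ℂ) * I with hρ
  have hρre : ρ.re = 1 / 2 := by simp [hρ]
  have hjpos : ∀ j : ℕ, (0 : ℝ) < (j : ℝ) + 1 := fun j => by positivity
  have hser := ser (κ := κ) (c := κ) (L := Real.log T) (σ := 1)
    (a := fun j : ℕ => ((j : ℂ) + 1) ^ (-ρ)) (x := fun j : ℕ => (m : ℝ) * ((j : ℝ) + 1))
    (fun j => mul_pos hm0 (hjpos j)) ?_ hH (fun x hx => mellin_right he hκ hL hx)
  · have hJ : Jl κ T m γ 1 = (1 / (2 * π : ℂ)) * ∫ y : ℝ,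
        (∑' j : ℕ, ((j : ℂ) + 1) ^ (-ρ) * (((m : ℝ) * ((j : ℝ) + 1) : ℝ) : ℂ) ^ (-(ln 1 y))) *
          (Rk κ (Real.log T) (ln 1 y) / ln 1 y) := by
      unfold Jl
      congr 1
      refine integral_congr_ae (Eventually.of_forall fun y => ?_)
      simp only
      have h1 : 1 < (ρ + ln 1 y).re := by
        rw [Complex.add_re, hρre, ln_re]; norm_num
      rw [zeta_eq_tsum_one_div_nat_add_one_cpow h1, ← tsum_mul_right, mul_div_assoc,
        ← tsum_mul_right, ← tsum_mul_right]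
      refine tsum_congr fun j => ?_
      have h2 : (((m : ℝ) * ((j : ℝ) + 1) : ℝ) : ℂ) ^ (-(ln 1 y)) =
          (m : ℂ) ^ (-(ln 1 y)) * ((j : ℂ) + 1) ^ (-(ln 1 y)) := by
        have := Complex.mul_cpow_ofReal_nonneg hm0.le (hjpos j).le (-(ln 1 y))
        push_cast at this ⊢
        exact this
      have h3 : ((j : ℂ) + 1) ≠ 0 := by exact_mod_cast (Nat.succ_ne_zero j)
      have h4 : 1 / ((j : ℂ) + 1) ^ (ρ + ln 1 y) =
          ((j : ℂ) + 1) ^ (-ρ) * ((j : ℂ) + 1) ^ (-(ln 1 y)) := by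
        rw [← Complex.cpow_add _ _ h3, one_div, ← Complex.cpow_neg]
        congr 1
        ring
      rw [h2, h4]
      ring
    rw [hJ, hser]
    have hz : ∀ j ∉ Finset.range ⌊T⌋₊, ((j : ℂ) + 1) ^ (-ρ) *
        (κ (Real.log ((m : ℝ) * ((j : ℝ) + 1)) / Real.log T) : ℂ) = 0 := by
      intro j hj
      rw [Finset.mem_range, not_lt] at hj
      have h1 : T < (j : ℝ) + 1 := by
        have := Nat.lt_floor_add_one T
        have h2 : ((⌊T⌋₊ : ℕ) : ℝ) ≤ j := by exact_mod_cast hj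
        linarith
      have h2 : T ≤ (m : ℝ) * ((j : ℝ) + 1) := by
        have h3 : (1 : ℝ) ≤ m := by exact_mod_cast hm
        nlinarith
      have h4 : 1 ≤ Real.log ((m : ℝ) * ((j : ℝ) + 1)) / Real.log T := by
        rw [le_div_iff₀ hL0, one_mul]
        exact Real.log_le_log hT0 h2
      rw [hκ.zero _ (by linarith)]
      simp
    rw [tsum_eq_sum hz, Sj]
    have hI : Finset.Icc 1 ⌊T⌋₊ = Finset.Ico 1 (⌊T⌋₊ + 1) := by
      ext j; simp [Nat.lt_succ_iff]
    rw [hI, Finset.sum_Ico_eq_sum_range, Nat.add_sub_cancel]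
    refine Finset.sum_congr rfl fun j _ => ?_
    push_cast
    rw [mul_comm, add_comm (j : ℂ) 1, add_comm (j : ℝ) 1]
  · refine ((summable_32).mul_left ((m : ℝ) ^ (-1 : ℝ))).congr fun j => ?_
    have h1 : ‖((j : ℂ) + 1) ^ (-ρ)‖ = ((j : ℝ) + 1) ^ (-(1 / 2) : ℝ) := by
      have := Complex.norm_cpow_eq_rpow_re_of_pos (hjpos j) (-ρ)
      push_cast at this
      rw [this, Complex.neg_re, hρre]
    rw [h1, Real.mul_rpow hm0.le (hjpos j).le, mul_left_comm, ← Real.rpow_add (hjpos j)]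
    congr 2
    norm_num

end Pool.Agent.MP_67227b_nt.Fb
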