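import Pool.Agent.MP_67227b_nt.Fb.FbDefs

set_option autoImplicit false

open Filter Topology Set MeasureTheory Complex
open scoped Real ContDiff ArithmeticFunction ArithmeticFunction.Moebius ComplexConjugate

namespace Pool.Agent.MP_67227b_nt.Fb

open Pool.Agent.Lib.ZetaCount_helper33 Pool.Agent.MP_67227b_nt Pool.Agent.MP_67227b_nt.Mo

/-- `μ(k)²/φ(k)`. -/
noncomputable def mf (k : ℕ) : ℝ := (μ k : ℝ) ^ 2 / (Nat.totient k : ℝ)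

/-- `∑_{k ≤ Z} μ(k)²/φ(k)`. -/
noncomputable def SS (d T : ℝ) : ℝ := ∑ k ∈ Finset.Icc 1 (Zd d T), mf k

/-- The bounded Lipschitz profiles which vanish up to `x₀`. -/
structure PB (x₀ B : ℝ) (lam : ℝ → ℝ) : Prop where
  zero : ∀ x, x ≤ x₀ → lam x = 0
  bdd : ∀ x, x ≤ 2 → |lam x| ≤ B
  lip : ∀ x y, x ≤ 2 → y ≤ 2 → |lam x - lam y| ≤ B * |x - y|

/-- The dual polynomial with the cut not depending on `t`. -/
noncomputable def V0 (h lam : ℝ → ℝ) (d T t : ℝ) : ℂ :=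
  ∑ m ∈ Finset.Icc 1 (Zd d T), ∑ r ∈ Finset.Icc 1 ⌊T⌋₊,
    ((am h d T m * lam (1 + (Real.log m - Real.log r) / Real.log T) : ℝ) : ℂ) *
      (m : ℂ) ^ (-(1 / 2 + (t : ℂ) * I)) * (r : ℂ) ^ (-(1 / 2 - (t : ℂ) * I))

/-- `K(g) = ∑_{k ≤ T} λ(log(gT/k)/log T)²/k`. -/
noncomputable def Kg (lam : ℝ → ℝ) (T : ℝ) (g : ℕ) : ℝ :=
  ∑ k ∈ Finset.Icc 1 ⌊T⌋₊, lam (1 + (Real.log g - Real.log k) / Real.log T) ^ 2 / (k : ℝ)

/-- The diagonal of the mean square of `V0`. -/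
noncomputable def Dg (h lam : ℝ → ℝ) (d T : ℝ) : ℝ :=
  ∑ m ∈ Finset.Icc 1 (Zd d T), ∑ m' ∈ Finset.Icc 1 (Zd d T),
    am h d T m * am h d T m' / ((m : ℝ) * m') *
      ((Nat.gcd m m' : ℝ) * Kg lam T (Nat.gcd m m'))

/-- `∫_{-1}^y λ(1+x)² dx`. -/
noncomputable def kk (lam : ℝ → ℝ) (y : ℝ) : ℝ := ∫ x in (-1 : ℝ)..y, lam (1 + x) ^ 2

/-- The main term of the diagonal. -/
noncomputable def Mn (h lam : ℝ → ℝ) (d T : ℝ) : ℝ :=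
  Real.log T / LL h d T ^ 2 * ∑ k ∈ Finset.Icc 1 (Zd d T),
    mf k * (h (Real.log k / Real.log T) ^ 2 * kk lam (Real.log k / Real.log T))

end Pool.Agent.MP_67227b_nt.Fb
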