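import Pool.Agent.MP_67227b_nt.Fb.FbAm

set_option autoImplicit false

open Filter Topology Set MeasureTheory Complex
open scoped Real ContDiff ArithmeticFunction ArithmeticFunction.Moebius ComplexConjugate

namespace Pool.Agent.MP_67227b_nt.Fb

open Pool.Agent.Lib.ZetaCount_helper33 Pool.Agent.MP_67227b_nt Pool.Agent.MP_67227b_nt.Mo

/-- The sum over the prime powers on the diagonal. -/
noncomputable def PG (h κ : ℝ → ℝ) (d T : ℝ) : ℝ :=
  (1 / Real.log T) * ∑ n ∈ Finset.Icc 1 ⌊T⌋₊,
    Λ n / n * (gg h d T n * κ (Real.log n / Real.log T))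

namespace ArGAux

/-- The coefficients of `ζ A` at the prime powers. -/
theorem gg_prime_pow {h : ℝ → ℝ} {d T : ℝ} (hL : LL h d T ≠ 0) {p k : ℕ} (hp : p.Prime)
    (hk : 1 ≤ k) : gg h d T (p ^ k) = 1 + am h d T p := by
  unfold gg
  rw [Nat.sum_divisors_prime_pow hp]
  have h1 : ∑ i ∈ Finset.range (k + 1), am h d T (p ^ i) =
      ∑ i ∈ Finset.range 2, am h d T (p ^ i) := by
    symm
    refine Finset.sum_subset (Finset.range_mono (by omega)) fun i _ hi => ?_
    have hi2 : 2 ≤ i := by
      rw [Finset.mem_range] at hi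
      omega
    refine am_zero_of_nsq ?_
    rw [Nat.squarefree_pow_iff hp.one_lt.ne' (by omega)]
    rintro ⟨-, h3⟩
    omega
  rw [h1, Finset.sum_range_succ, Finset.sum_range_one, pow_zero, pow_one, am_one hL]

/-- The term of a number. -/
theorem term_eq {h : ℝ → ℝ} {d T : ℝ} (hL : LL h d T ≠ 0) (n : ℕ) (y : ℝ) :
    Λ n / n * (gg h d T n * y) = Λ n / n * y +
      (if n.Prime then Λ n / n * (am h d T n * y) else 0) +
      (if n.Prime then 0 else Λ n) / n * (am h d T n.minFac * y) := by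
  by_cases h0 : Λ n = 0
  · simp [h0]
  · have hpp : IsPrimePow n := ArithmeticFunction.vonMangoldt_ne_zero_iff.1 h0
    obtain ⟨p, k, hp, hk, rfl⟩ := (isPrimePow_nat_iff _).1 hpp
    rw [gg_prime_pow hL hp hk]
    by_cases hpr : (p ^ k).Prime
    · have hk1 : k = 1 := by
        by_contra h2
        exact Nat.Prime.not_prime_pow (by omega) hpr
      subst hk1
      rw [if_pos hpr, if_pos hpr, pow_one]
      ring
    · rw [if_neg hpr, if_neg hpr, Nat.Prime.pow_minFac hp (by omega)]
      ring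

end ArGAux

open ArGAux

/-- **Module arg** (about 180 lines). The limit of the prime power sum.

PROOF. For `n = p^k`: `gg(n) = a(1) + a(p) + ... = 1 + a(p)` for large `T` (`am_one`;
`a(p^j) = 0` for `j ≥ 2`, `am_zero_of_nsq`). So with `κ_n = κ(log n/L)`, `∑ Λ(n)/n gg(n) κ_n =
∑ Λ(n)/n κ_n + ∑_p a(p) (log p/p) κ_p + R`, `|R| ≤ ∑_p ∑_{k≥2} |a(p)| log p/p^k ≤ C` (`am_bdd`;
`∑_p log p/(p(p-1)) < ∞`, see `PrimeSqAux.exists_nonprime` in Mo/PrimeSq: the sum of `Λ(n)/n` over the
non-primes `n ≤ N` is bounded). The first sum divided by `L` tends to `∫_0^1 κ` (`riem_mangoldt`). In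
the second only `p ≤ Z` contribute (`am_zero_of_gt`), where `log p/L ≤ d ≤ 1-2e`, so `κ_p = 1`, and by
`sum_am_prime` it is `-(1/LL) ∑_{n ≤ Z} mf(n) h(log n/L) log n`; divided by `L` this is
`-[(1/L) ∑ mf(n) (log n/L) h(log n/L)]/(LL/L) → - ∫_0^d y h(y) dy/∫_0^d h` (`riem`, `LL_tendsto`). -/
theorem PG_tendsto {h κ : ℝ → ℝ} {d e : ℝ} (hh : Hok h) (hd : 0 < d) (he : 0 < e)
    (hde : 2 * d + 2 * e < 1) (hκ : Step (1 - 2 * e) (1 - e) κ) :
    Tendsto (fun T : ℝ => PG h κ d T) atTop (𝓝 ((∫ x in (0 : ℝ)..1, κ x) -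
      (∫ y in (0 : ℝ)..d, y * h y) / (∫ y in (0 : ℝ)..d, h y))) := by
  obtain ⟨C, hC, ham⟩ := am_bdd hh hd
  obtain ⟨C', hC', hnp⟩ := PrimeSqAux.exists_nonprime
  obtain ⟨c, hc, hLL⟩ := LL_ge hh hd
  -- the three parts
  have t1 := riem_mangoldt hκ.smooth.continuous
  have t2 : Tendsto (fun T : ℝ => ((1 / Real.log T) * ∑ k ∈ Finset.Icc 1 (Zd d T),
      mf k * (fun y => y * h y) (Real.log k / Real.log T)) / (LL h d T / Real.log T)) atTop
      (𝓝 ((∫ y in (0 : ℝ)..d, y * h y) / (∫ y in (0 : ℝ)..d, h y))) :=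
    (riem (continuous_id.mul hh.cont) hd).div (LL_tendsto hh hd) (integral_h_pos hh hd).ne'
  have t3 : Tendsto (fun T : ℝ => (1 / Real.log T) * ∑ n ∈ Finset.Icc 1 ⌊T⌋₊,
      (if n.Prime then 0 else Λ n) / n * (am h d T n.minFac * κ (Real.log n / Real.log T))) atTop
      (𝓝 0) := by
    rw [tendsto_zero_iff_norm_tendsto_zero]
    have hz : Tendsto (fun T : ℝ => (C' * C) * (Real.log T)⁻¹) atTop (𝓝 0) := by
      have := (tendsto_inv_atTop_zero.comp Real.tendsto_log_atTop).const_mul (C' * C)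
      simpa [Function.comp_def] using this
    refine squeeze_zero' (Filter.Eventually.of_forall fun T => norm_nonneg _) ?_ hz
    filter_upwards [ham, Real.tendsto_log_atTop.eventually_ge_atTop 1] with T haT hL
    have hL0 : 0 < Real.log T := by linarith
    rw [norm_mul, Real.norm_eq_abs, abs_of_pos (by positivity : 0 < 1 / Real.log T)]
    have h1 : ‖∑ n ∈ Finset.Icc 1 ⌊T⌋₊, (if n.Prime then 0 else Λ n) / (n : ℝ) *
        (am h d T n.minFac * κ (Real.log n / Real.log T))‖ ≤ C' * C := by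
      calc _ ≤ ∑ n ∈ Finset.Icc 1 ⌊T⌋₊, (if n.Prime then 0 else Λ n) / (n : ℝ) * C := by
            refine (norm_sum_le _ _).trans (Finset.sum_le_sum fun n _ => ?_)
            have h2 : (0 : ℝ) ≤ (if n.Prime then 0 else Λ n) / (n : ℝ) := by
              split_ifs
              · simp
              · positivity
            rw [norm_mul, Real.norm_eq_abs, abs_of_nonneg h2, norm_mul, Real.norm_eq_abs,
              Real.norm_eq_abs]
            refine mul_le_mul_of_nonneg_left ?_ h2
            have hk : |κ (Real.log n / Real.log T)| ≤ 1 := by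
              rw [abs_of_nonneg (hκ.nonneg _)]
              exact hκ.le_one _
            calc |am h d T n.minFac| * |κ (Real.log n / Real.log T)| ≤ C * 1 := by
                  gcongr
                  exact haT _
              _ = C := mul_one C
        _ = (∑ n ∈ Finset.Icc 1 ⌊T⌋₊, (if n.Prime then 0 else Λ n) / (n : ℝ)) * C := by
            rw [Finset.sum_mul]
        _ ≤ C' * C := by
            have h3 := hnp ⌊T⌋₊
            have h4 : Finset.Icc 1 ⌊T⌋₊ = Finset.Ioc 0 ⌊T⌋₊ := by
              ext n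
              simp only [Finset.mem_Icc, Finset.mem_Ioc]
              omega
            rw [h4]
            gcongr
    calc _ ≤ 1 / Real.log T * (C' * C) := by gcongr
      _ = _ := by ring
  have hsum := (t1.sub t2).add t3
  rw [add_zero] at hsum
  refine hsum.congr' ?_
  filter_upwards [hLL, eventually_ge_atTop 3] with T hLT h3
  have hT0 : 0 < T := by linarith
  have hT1 : 1 < T := by linarith
  have hL0 : 0 < Real.log T := Real.log_pos hT1
  have hLL0 : 0 < LL h d T := lt_of_lt_of_le (by positivity) hLT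
  have e1 : ∑ n ∈ Finset.Icc 1 ⌊T⌋₊, Λ n / n * (gg h d T n * κ (Real.log n / Real.log T)) =
      (∑ n ∈ Finset.Icc 1 ⌊T⌋₊, Λ n / n * κ (Real.log n / Real.log T)) +
      (∑ n ∈ Finset.Icc 1 ⌊T⌋₊, (if n.Prime then
        Λ n / n * (am h d T n * κ (Real.log n / Real.log T)) else 0)) +
      ∑ n ∈ Finset.Icc 1 ⌊T⌋₊, (if n.Prime then 0 else Λ n) / n *
        (am h d T n.minFac * κ (Real.log n / Real.log T)) := by
    rw [← Finset.sum_add_distrib, ← Finset.sum_add_distrib]
    exact Finset.sum_congr rfl fun n _ => term_eq hLL0.ne' n _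
  have hZT : Zd d T ≤ ⌊T⌋₊ := by
    refine Nat.floor_le_floor ?_
    calc T ^ d ≤ T ^ (1 : ℝ) := Real.rpow_le_rpow_of_exponent_le hT1.le (by linarith)
      _ = T := Real.rpow_one T
  have e2 : ∑ n ∈ Finset.Icc 1 ⌊T⌋₊, (if n.Prime then
        Λ n / n * (am h d T n * κ (Real.log n / Real.log T)) else 0) =
      -(1 / LL h d T) * ∑ n ∈ Finset.Icc 1 (Zd d T),
        mf n * (h (Real.log n / Real.log T) * Real.log n) := by
    rw [← sum_am_prime, Finset.sum_filter]
    symm
    rw [← Finset.sum_subset (Finset.Icc_subset_Icc_right hZT) (f := fun n => if n.Prime then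
        Λ n / n * (am h d T n * κ (Real.log n / Real.log T)) else 0)]
    · refine Finset.sum_congr rfl fun n hn => ?_
      by_cases hp : n.Prime
      · rw [if_pos hp, if_pos hp, ArithmeticFunction.vonMangoldt_apply_prime hp]
        have hk : κ (Real.log n / Real.log T) = 1 := by
          refine hκ.one _ ?_
          have := (Zd_arg hd hT1 hn).2
          linarith
        rw [hk]
        ring
      · rw [if_neg hp, if_neg hp]
    · intro n hn hn2
      have hn1 := (Finset.mem_Icc.1 hn).1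
      have hn3 : Zd d T < n := by
        by_contra h6
        push Not at h6
        exact hn2 (Finset.mem_Icc.2 ⟨hn1, h6⟩)
      rw [am_zero_of_gt hn3]
      simp
  have e3 : ∑ n ∈ Finset.Icc 1 (Zd d T), mf n * (h (Real.log n / Real.log T) * Real.log n) =
      Real.log T * ∑ k ∈ Finset.Icc 1 (Zd d T),
        mf k * (fun y => y * h y) (Real.log k / Real.log T) := by
    rw [Finset.mul_sum]
    refine Finset.sum_congr rfl fun n _ => ?_
    simp only
    field_simp
  unfold PG
  rw [e1, e2, e3]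
  simp only
  field_simp
  ring

end Pool.Agent.MP_67227b_nt.Fb
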