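import Pool.Agent.MP_67227b_nt.Fb.FbAm

set_option autoImplicit false

open Filter Topology Set MeasureTheory Complex
open scoped Real ContDiff ArithmeticFunction ArithmeticFunction.Moebius ComplexConjugate

namespace Pool.Agent.MP_67227b_nt.Fb

open Pool.Agent.Lib.ZetaCount_helper33 Pool.Agent.MP_67227b_nt Pool.Agent.MP_67227b_nt.Mo

namespace dsqm

private noncomputable def H (N : ℕ) : ℝ := ∑ n ∈ Finset.Icc 1 N, ((n : ℝ))⁻¹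

private theorem H_le (N : ℕ) : H N ≤ 1 + Real.log N := by
  have h := harmonic_le_one_add_log N
  have h2 : H N = ((harmonic N : ℚ) : ℝ) := by
    rw [harmonic_eq_sum_Icc]
    unfold H
    push_cast
    rfl
  rw [h2]
  exact h

private theorem H_nonneg (N : ℕ) : 0 ≤ H N := Finset.sum_nonneg fun n _ => by positivity

private theorem sum_le (N : ℕ) : ∑ n ∈ Finset.Icc 1 N, ((n.divisors.card : ℝ)) ^ 2 / n ≤
    H N ^ 4 := by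
  have h1 : ∑ n ∈ Finset.Icc 1 N, ((n.divisors.card : ℝ)) ^ 2 / n =
      ∑ x ∈ (Finset.Icc 1 N).sigma (fun n => n.divisors ×ˢ n.divisors), ((x.1 : ℝ))⁻¹ := by
    rw [Finset.sum_sigma]
    refine Finset.sum_congr rfl fun n _ => ?_
    show _ = ∑ _s ∈ n.divisors ×ˢ n.divisors, ((n : ℝ))⁻¹
    rw [Finset.sum_const, Finset.card_product, nsmul_eq_mul]
    push_cast
    ring
  rw [h1]
  let φ : (Σ _ : ℕ, ℕ × ℕ) → ℕ × ℕ × ℕ × ℕ := fun x =>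
    (Nat.gcd x.2.1 x.2.2, x.2.1 / Nat.gcd x.2.1 x.2.2, x.2.2 / Nat.gcd x.2.1 x.2.2,
      x.1 / Nat.lcm x.2.1 x.2.2)
  let v : ℕ × ℕ × ℕ × ℕ → ℝ := fun y =>
    ((y.1 : ℝ))⁻¹ * (((y.2.1 : ℝ))⁻¹ * (((y.2.2.1 : ℝ))⁻¹ * ((y.2.2.2 : ℝ))⁻¹))
  have key : ∀ x ∈ (Finset.Icc 1 N).sigma (fun n => n.divisors ×ˢ n.divisors),
      x.2.1 = (φ x).1 * (φ x).2.1 ∧ x.2.2 = (φ x).1 * (φ x).2.2.1 ∧
      x.1 = (φ x).1 * (φ x).2.1 * (φ x).2.2.1 * (φ x).2.2.2 ∧ x.1 ∈ Finset.Icc 1 N := by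
    rintro ⟨n, a, b⟩ hx
    rw [Finset.mem_sigma, Finset.mem_product] at hx
    obtain ⟨hn, ha, hb⟩ := hx
    have hn' : n ∈ Finset.Icc 1 N := hn
    have ha1 : a ∣ n := Nat.dvd_of_mem_divisors ha
    have hb1 : b ∣ n := Nat.dvd_of_mem_divisors hb
    have hl : Nat.lcm a b ∣ n := Nat.lcm_dvd ha1 hb1
    have e1 : a = Nat.gcd a b * (a / Nat.gcd a b) := (Nat.mul_div_cancel' (Nat.gcd_dvd_left a b)).symm
    have e2 : b = Nat.gcd a b * (b / Nat.gcd a b) := (Nat.mul_div_cancel' (Nat.gcd_dvd_right a b)).symm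
    have e3 : Nat.lcm a b = Nat.gcd a b * (a / Nat.gcd a b) * (b / Nat.gcd a b) := by
      rw [← e1, Nat.lcm, Nat.mul_div_assoc _ (Nat.gcd_dvd_right a b)]
    refine ⟨e1, e2, ?_, hn'⟩
    show n = Nat.gcd a b * (a / Nat.gcd a b) * (b / Nat.gcd a b) * (n / Nat.lcm a b)
    rw [← e3, Nat.mul_div_cancel' hl]
  have hinj : Set.InjOn φ ((Finset.Icc 1 N).sigma (fun n => n.divisors ×ˢ n.divisors) : Set _) := by
    intro x hx y hy hxy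
    obtain ⟨a1, a2, a3, _⟩ := key x hx
    obtain ⟨b1, b2, b3, _⟩ := key y hy
    rw [hxy] at a1 a2 a3
    rcases x with ⟨n, a, b⟩
    rcases y with ⟨n', a', b'⟩
    have h1 : n = n' := a3.trans b3.symm
    have h2 : a = a' := a1.trans b1.symm
    have h3 : b = b' := a2.trans b2.symm
    subst h1 h2 h3
    rfl
  have h2 : ∑ x ∈ (Finset.Icc 1 N).sigma (fun n => n.divisors ×ˢ n.divisors), ((x.1 : ℝ))⁻¹ =
      ∑ y ∈ ((Finset.Icc 1 N).sigma (fun n => n.divisors ×ˢ n.divisors)).image φ, v y := by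
    rw [Finset.sum_image hinj]
    refine Finset.sum_congr rfl fun x hx => ?_
    obtain ⟨_, _, a3, _⟩ := key x hx
    show ((x.1 : ℝ))⁻¹ = (((φ x).1 : ℝ))⁻¹ * ((((φ x).2.1 : ℝ))⁻¹ *
      ((((φ x).2.2.1 : ℝ))⁻¹ * (((φ x).2.2.2 : ℝ))⁻¹))
    rw [a3]
    push_cast
    rw [mul_inv, mul_inv, mul_inv]
    ring
  rw [h2]
  have h3 : ((Finset.Icc 1 N).sigma (fun n => n.divisors ×ˢ n.divisors)).image φ ⊆
      Finset.Icc 1 N ×ˢ (Finset.Icc 1 N ×ˢ (Finset.Icc 1 N ×ˢ Finset.Icc 1 N)) := by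
    intro y hy
    obtain ⟨x, hx, rfl⟩ := Finset.mem_image.1 hy
    obtain ⟨_, _, a3, a4⟩ := key x hx
    rw [a3] at a4
    obtain ⟨h4, h5⟩ := Finset.mem_Icc.1 a4
    have h6 : (φ x).1 * (φ x).2.1 * (φ x).2.2.1 * (φ x).2.2.2 ≠ 0 := by omega
    have h7 := Nat.pos_of_ne_zero h6
    have d1 : (φ x).1 ∣ (φ x).1 * (φ x).2.1 * (φ x).2.2.1 * (φ x).2.2.2 :=
      ⟨(φ x).2.1 * (φ x).2.2.1 * (φ x).2.2.2, by ring⟩
    have d2 : (φ x).2.1 ∣ (φ x).1 * (φ x).2.1 * (φ x).2.2.1 * (φ x).2.2.2 :=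
      ⟨(φ x).1 * (φ x).2.2.1 * (φ x).2.2.2, by ring⟩
    have d3 : (φ x).2.2.1 ∣ (φ x).1 * (φ x).2.1 * (φ x).2.2.1 * (φ x).2.2.2 :=
      ⟨(φ x).1 * (φ x).2.1 * (φ x).2.2.2, by ring⟩
    have d4 : (φ x).2.2.2 ∣ (φ x).1 * (φ x).2.1 * (φ x).2.2.1 * (φ x).2.2.2 :=
      ⟨(φ x).1 * (φ x).2.1 * (φ x).2.2.1, by ring⟩
    simp only [Finset.mem_product, Finset.mem_Icc]
    exact ⟨⟨Nat.pos_of_dvd_of_pos d1 h7, (Nat.le_of_dvd h7 d1).trans h5⟩,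
      ⟨Nat.pos_of_dvd_of_pos d2 h7, (Nat.le_of_dvd h7 d2).trans h5⟩,
      ⟨Nat.pos_of_dvd_of_pos d3 h7, (Nat.le_of_dvd h7 d3).trans h5⟩,
      ⟨Nat.pos_of_dvd_of_pos d4 h7, (Nat.le_of_dvd h7 d4).trans h5⟩⟩
  refine (Finset.sum_le_sum_of_subset_of_nonneg h3 fun y _ _ => by
    show 0 ≤ ((y.1 : ℝ))⁻¹ * (((y.2.1 : ℝ))⁻¹ * (((y.2.2.1 : ℝ))⁻¹ * ((y.2.2.2 : ℝ))⁻¹))
    positivity).trans (le_of_eq ?_)
  rw [Finset.sum_product]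
  simp only [Finset.sum_product, v, ← Finset.mul_sum, ← Finset.sum_mul]
  show H N * (H N * (H N * H N)) = _
  ring

end dsqm

/-- **Module dsq** (4 lemmas, about 140 lines). Divisor sums.

PROOF. `d(n)² = ∑_{a∣n, b∣n} 1`, so `∑_{n ≤ N} d(n)²/n = ∑_{a,b ≤ N} ∑_{n ≤ N, lcm(a,b)∣n} 1/n
≤ ∑_{a,b ≤ N} (1/lcm(a,b)) H_N`, and with `g = gcd(a,b)`, `a = g a'`, `b = g b'`,
`1/lcm(a,b) = 1/(g a' b')`: at most `H_N^4`, `H_N ≤ 1 + log N` (`Mo.HS_le` or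
`harmonic_le_one_add_log`). -/
theorem dsq (N : ℕ) : ∑ n ∈ Finset.Icc 1 N, ((n.divisors.card : ℝ)) ^ 2 / n ≤
    (1 + Real.log N) ^ 4 :=
  (dsqm.sum_le N).trans (pow_le_pow_left₀ (dsqm.H_nonneg N) (dsqm.H_le N) 4)

/-- PROOF. `1 ≤ N/n` in `dsq`. -/
theorem dsq' (N : ℕ) : ∑ n ∈ Finset.Icc 1 N, ((n.divisors.card : ℝ)) ^ 2 ≤
    N * (1 + Real.log N) ^ 4 := by
  refine le_trans ?_ (mul_le_mul_of_nonneg_left (dsq N) (Nat.cast_nonneg N))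
  rw [Finset.mul_sum]
  refine Finset.sum_le_sum fun n hn => ?_
  obtain ⟨h1, h2⟩ := Finset.mem_Icc.1 hn
  have h1' : (0 : ℝ) < n := by exact_mod_cast h1
  have h2' : (n : ℝ) ≤ N := by exact_mod_cast h2
  rw [mul_div_assoc', le_div_iff₀ h1', mul_comm]
  exact mul_le_mul_of_nonneg_right h2' (by positivity)

/-- PROOF. Cauchy-Schwarz and `dsq`. -/
theorem d_half (N : ℕ) : ∑ n ∈ Finset.Icc 1 N, (n.divisors.card : ℝ) / Real.sqrt n ≤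
    Real.sqrt N * (1 + Real.log N) ^ 2 := by
  have h1 := Finset.sum_mul_sq_le_sq_mul_sq (Finset.Icc 1 N)
    (fun n : ℕ => (n.divisors.card : ℝ) / Real.sqrt n) fun _ => (1 : ℝ)
  simp only [mul_one, one_pow, Finset.sum_const, Nat.card_Icc, add_tsub_cancel_right,
    nsmul_eq_mul] at h1
  have h2 : ∑ n ∈ Finset.Icc 1 N, ((n.divisors.card : ℝ) / Real.sqrt n) ^ 2 ≤
      (1 + Real.log N) ^ 4 := by
    refine le_trans (le_of_eq ?_) (dsq N)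
    refine Finset.sum_congr rfl fun n _ => ?_
    rw [div_pow, Real.sq_sqrt (Nat.cast_nonneg n)]
  have hlog : 0 ≤ Real.log N := Real.log_natCast_nonneg N
  have h3 : (∑ n ∈ Finset.Icc 1 N, (n.divisors.card : ℝ) / Real.sqrt n) ^ 2 ≤
      (Real.sqrt N * (1 + Real.log N) ^ 2) ^ 2 := by
    refine h1.trans ?_
    rw [mul_pow, Real.sq_sqrt (Nat.cast_nonneg N), ← pow_mul, mul_comm]
    exact mul_le_mul_of_nonneg_left h2 (Nat.cast_nonneg N)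
  exact abs_le_of_sq_le_sq' h3 (by positivity) |>.2

/-- PROOF. `am_bdd`. -/
theorem gg_le {h : ℝ → ℝ} {d : ℝ} (hh : Hok h) (hd : 0 < d) :
    ∃ C : ℝ, 0 < C ∧ ∀ᶠ T : ℝ in atTop, ∀ n : ℕ, |gg h d T n| ≤ C * (n.divisors.card : ℝ) := by
  obtain ⟨C, hC, hev⟩ := am_bdd hh hd
  refine ⟨C, hC, ?_⟩
  filter_upwards [hev] with T hT n
  unfold gg
  refine (Finset.abs_sum_le_sum_abs _ _).trans ((Finset.sum_le_sum fun m _ => hT m).trans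
    (le_of_eq ?_))
  rw [Finset.sum_const, nsmul_eq_mul, mul_comm]

end Pool.Agent.MP_67227b_nt.Fb
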