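import Pool.Agent.MP_67227b_nt.Fb.FbDt
import Pool.Agent.MP_67227b_nt.Fb.FbDsq

set_option autoImplicit false

open Filter Topology Set MeasureTheory Complex
open scoped Real ContDiff ArithmeticFunction ArithmeticFunction.Moebius ComplexConjugate

namespace Pool.Agent.MP_67227b_nt.Fb

open Pool.Agent.Lib.ZetaCount_helper33 Pool.Agent.MP_67227b_nt Pool.Agent.MP_67227b_nt.Mo

namespace ArchGAux

open MeanBBAux

/-- Powers of the logarithm are small. -/
theorem tendsto_log_pow (k : ℕ) {a : ℝ} (ha : 0 < a) :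
    Tendsto (fun T : ℝ => (1 + Real.log T) ^ k / T ^ a) atTop (𝓝 0) := by
  have h1 : Tendsto (fun T : ℝ => 2 ^ k * (Real.log T ^ (k : ℝ) / T ^ a)) atTop (𝓝 (2 ^ k * 0)) :=
    (isLittleO_log_rpow_rpow_atTop (k : ℝ) ha).tendsto_div_nhds_zero.const_mul _
  rw [mul_zero] at h1
  refine squeeze_zero' ?_ ?_ h1
  · filter_upwards [eventually_ge_atTop (1 : ℝ)] with T hT
    have := Real.log_nonneg hT
    positivity
  · filter_upwards [eventually_gt_atTop (0 : ℝ), Real.tendsto_log_atTop.eventually_ge_atTop 1]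
      with T hT hL
    rw [Real.rpow_natCast, ← mul_div_assoc, ← mul_pow]
    have : 1 + Real.log T ≤ 2 * Real.log T := by linarith
    gcongr

theorem cpow_eq {n : ℕ} (hn : n ≠ 0) (t : ℝ) :
    (n : ℂ) ^ (-(1 / 2 + (t : ℂ) * I)) = ((1 / Real.sqrt n : ℝ) : ℂ) * E (-(Real.log n)) t := by
  have hn0 : (n : ℂ) ≠ 0 := by exact_mod_cast hn
  have hn1 : (0 : ℝ) < n := by exact_mod_cast Nat.pos_of_ne_zero hn
  have h1 : Real.sqrt n = Real.exp (Real.log n / 2) := by
    rw [Real.sqrt_eq_rpow, Real.rpow_def_of_pos hn1]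
    congr 1
    ring
  rw [Complex.cpow_def_of_ne_zero hn0, ← Complex.natCast_log, h1,
    show 1 / Real.exp (Real.log n / 2) = Real.exp (-(Real.log n / 2)) by
      rw [Real.exp_neg, one_div]]
  unfold E
  rw [Complex.ofReal_exp, ← Complex.exp_add]
  congr 1
  push_cast
  ring

theorem conj_E (l t : ℝ) : conj (E l t) = E (-l) t := by
  unfold E
  rw [← Complex.exp_conj]
  congr 1
  simp only [map_mul, conj_I, conj_ofReal]
  push_cast
  ring

/-- The polynomial in terms of the exponentials. -/
theorem conj_Gk (h κ : ℝ → ℝ) (d T t : ℝ) :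
    conj (Gk h κ d T t) = ∑ n ∈ Finset.Icc 1 ⌊T⌋₊,
      ((gg h d T n * κ (Real.log n / Real.log T) / Real.sqrt n : ℝ) : ℂ) * E (Real.log n) t := by
  unfold Gk
  rw [map_sum]
  refine Finset.sum_congr rfl fun n hn => ?_
  have hn1 : n ≠ 0 := by
    have := (Finset.mem_Icc.1 hn).1
    omega
  rw [cpow_eq hn1, map_mul, map_mul, conj_ofReal, conj_ofReal, conj_E, neg_neg]
  push_cast
  ring

theorem gg_one (h : ℝ → ℝ) (d T : ℝ) : gg h d T 1 = am h d T 1 := by
  simp [gg]

end ArchGAux

open ArchGAux MeanBBAux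

/-- **Module archg** (about 110 lines). The archimedean part of the mean of `G`.

PROOF. `conj (Gk t) = ∑_n gg(n) κ(log n/L) n^{-1/2} e^{it log n}`. The term `n = 1` is
`gg(1) κ(0) = a(1) = 1` (`am_one`, `LL ≠ 0` for large `T` by `LL_ge`; `κ(0) = 1` as `0 ≤ 1 - 2e`), and
contributes `(1/T) ∫ dT → 1` (`dT_mean`). The terms `n ≥ 2` contribute by `dT_ibp` (`ℓ = log n ≥ log 2`;
`T1 T ≥ 1`) at most `(1/T) ∑_{n ≤ T} C d(n) n^{-1/2}/log 2 ≤ C T^{-1/2} (1+log T)² → 0`
(`gg_le`, `d_half`). -/
theorem arch_G {h κ : ℝ → ℝ} {d e : ℝ} (hh : Hok h) (hd : 0 < d) (he : 0 < e) (he2 : e < 1 / 2)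
    (hκ : Step (1 - 2 * e) (1 - e) κ) :
    Tendsto (fun T : ℝ => (1 / (T : ℂ)) * ∫ t in (T1 T)..(T2 T),
      dT (Real.log T) t * conj (Gk h κ d T t)) atTop (𝓝 1) := by
  obtain ⟨C, hC, hibp⟩ := dT_ibp
  obtain ⟨C', hC', hgg⟩ := gg_le hh hd
  obtain ⟨c, hc, hLL⟩ := LL_ge hh hd
  -- the error
  have herr : Tendsto (fun T : ℝ => (C' * C / Real.log 2) * ((1 + Real.log T) ^ 2 / T ^ (1 / 2 : ℝ)))
      atTop (𝓝 0) := by
    have := (tendsto_log_pow 2 (show (0 : ℝ) < 1 / 2 by norm_num)).const_mul (C' * C / Real.log 2)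
    rwa [mul_zero] at this
  have hdiff : Tendsto (fun T : ℝ => (1 / (T : ℂ)) * (∫ t in (T1 T)..(T2 T),
      dT (Real.log T) t * conj (Gk h κ d T t)) -
        (1 / (T : ℂ)) * ∫ t in (T1 T)..(T2 T), dT (Real.log T) t) atTop (𝓝 0) := by
    rw [tendsto_zero_iff_norm_tendsto_zero]
    refine squeeze_zero' (Filter.Eventually.of_forall fun T => norm_nonneg _) ?_ herr
    filter_upwards [DtAux.ev_range, hgg, hLL] with T hT hgT hLT
    obtain ⟨h3, hL, h1, h12, h2⟩ := hT
    have hT0 : 0 < T := by linarith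
    have hL0 : 0 < Real.log T := by linarith
    have hLL0 : LL h d T ≠ 0 := (lt_of_lt_of_le (by positivity) hLT).ne'
    have hN1 : 1 ≤ ⌊T⌋₊ := Nat.le_floor (by push_cast; linarith)
    set N := ⌊T⌋₊ with hN
    set co : ℕ → ℝ := fun n => gg h d T n * κ (Real.log n / Real.log T) / Real.sqrt n with hco
    have hco1 : co 1 = 1 := by
      simp only [hco, gg_one, am_one hLL0, Nat.cast_one, Real.log_one, zero_div, Real.sqrt_one,
        div_one, one_mul]
      exact hκ.one 0 (by linarith)
    have hcob : ∀ n : ℕ, |co n| ≤ C' * ((n.divisors.card : ℝ) / Real.sqrt n) := by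
      intro n
      simp only [hco]
      rw [abs_div, abs_mul, abs_of_nonneg (Real.sqrt_nonneg _), ← mul_div_assoc]
      refine div_le_div_of_nonneg_right ?_ (Real.sqrt_nonneg _)
      have hk : |κ (Real.log n / Real.log T)| ≤ 1 := by
        rw [abs_of_nonneg (hκ.nonneg _)]
        exact hκ.le_one _
      calc |gg h d T n| * |κ (Real.log n / Real.log T)| ≤ (C' * n.divisors.card) * 1 := by
            gcongr
            exact hgT n
        _ = _ := mul_one _
    have hint : ∀ n : ℕ, IntervalIntegrable (fun t : ℝ => ((co n : ℝ) : ℂ) *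
        (dT (Real.log T) t * E (Real.log n) t)) volume (T1 T) (T2 T) := fun n =>
      (continuous_const.mul ((MeanMainAux.continuous_dT _).mul
        (E_continuous _))).intervalIntegrable _ _
    have e1 : ∫ t in (T1 T)..(T2 T), dT (Real.log T) t * conj (Gk h κ d T t) =
        ∑ n ∈ Finset.Icc 1 N, ((co n : ℝ) : ℂ) *
          ∫ t in (T1 T)..(T2 T), dT (Real.log T) t * E (Real.log n) t := by
      have e2 : (fun t : ℝ => dT (Real.log T) t * conj (Gk h κ d T t)) = fun t =>
          ∑ n ∈ Finset.Icc 1 N, ((co n : ℝ) : ℂ) * (dT (Real.log T) t * E (Real.log n) t) := by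
        funext t
        rw [conj_Gk, Finset.mul_sum]
        refine Finset.sum_congr rfl fun n _ => ?_
        simp only [hco]
        ring
      rw [e2, intervalIntegral.integral_finsetSum fun n _ => hint n]
      refine Finset.sum_congr rfl fun n _ => ?_
      rw [intervalIntegral.integral_const_mul]
    have e3 : Finset.Icc 1 N = insert 1 (Finset.Icc 2 N) := by
      ext n
      simp only [Finset.mem_Icc, Finset.mem_insert]
      omega
    have e4 : (1 : ℕ) ∉ Finset.Icc 2 N := by simp
    have e5 : ∫ t in (T1 T)..(T2 T), dT (Real.log T) t * E (Real.log (1 : ℕ)) t =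
        ∫ t in (T1 T)..(T2 T), dT (Real.log T) t := by
      refine intervalIntegral.integral_congr fun t _ => ?_
      simp [E_zero]
    rw [e1, e3, Finset.sum_insert e4, hco1, e5, Complex.ofReal_one, one_mul, mul_add,
      add_sub_cancel_left, norm_mul, norm_div, norm_one, norm_real, Real.norm_eq_abs,
      abs_of_pos hT0]
    have hsum : ‖∑ n ∈ Finset.Icc 2 N, ((co n : ℝ) : ℂ) *
          ∫ t in (T1 T)..(T2 T), dT (Real.log T) t * E (Real.log n) t‖ ≤
        (C' * C / Real.log 2) * (Real.sqrt T * (1 + Real.log T) ^ 2) := by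
      calc _ ≤ ∑ n ∈ Finset.Icc 2 N, (C' * ((n.divisors.card : ℝ) / Real.sqrt n)) *
            (C / Real.log 2) := by
            refine (norm_sum_le _ _).trans (Finset.sum_le_sum fun n hn => ?_)
            have hn2 : 2 ≤ n := (Finset.mem_Icc.1 hn).1
            have hlog : Real.log 2 ≤ Real.log n :=
              Real.log_le_log (by norm_num) (by exact_mod_cast hn2)
            have hlog2 : 0 < Real.log 2 := Real.log_pos (by norm_num)
            rw [norm_mul, norm_real, Real.norm_eq_abs]
            refine mul_le_mul (hcob n) ?_ (norm_nonneg _) (by positivity)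
            have h6 := hibp T (T1 T) (T2 T) (Real.log n) h3 h1 h12 h2 (by linarith)
            refine h6.trans ?_
            rw [abs_of_pos (by linarith)]
            gcongr
        _ = (C' * C / Real.log 2) * ∑ n ∈ Finset.Icc 2 N,
              (n.divisors.card : ℝ) / Real.sqrt n := by
            rw [Finset.mul_sum]
            exact Finset.sum_congr rfl fun n _ => by ring
        _ ≤ (C' * C / Real.log 2) * (Real.sqrt T * (1 + Real.log T) ^ 2) := by
            have hlog2 : 0 < Real.log 2 := Real.log_pos (by norm_num)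
            refine mul_le_mul_of_nonneg_left ?_ (by positivity)
            calc _ ≤ ∑ n ∈ Finset.Icc 1 N, (n.divisors.card : ℝ) / Real.sqrt n := by
                  refine Finset.sum_le_sum_of_subset_of_nonneg ?_ fun _ _ _ => by positivity
                  rw [e3]
                  exact Finset.subset_insert _ _
              _ ≤ Real.sqrt N * (1 + Real.log N) ^ 2 := d_half N
              _ ≤ _ := by
                  have hNT : (N : ℝ) ≤ T := Nat.floor_le hT0.le
                  have hN0 : (1 : ℝ) ≤ N := by exact_mod_cast hN1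
                  have hlN : 0 ≤ Real.log N := Real.log_nonneg hN0
                  have hlNT : Real.log N ≤ Real.log T := Real.log_le_log (by linarith) hNT
                  have hsN : Real.sqrt N ≤ Real.sqrt T := Real.sqrt_le_sqrt hNT
                  gcongr
    refine (mul_le_mul_of_nonneg_left hsum (by positivity)).trans (le_of_eq ?_)
    have hs : Real.sqrt T = T ^ (1 / 2 : ℝ) := Real.sqrt_eq_rpow T
    have hs2 : T ^ (1 / 2 : ℝ) * T ^ (1 / 2 : ℝ) = T := by
      rw [← Real.rpow_add hT0]
      norm_num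
    have hs0 : T ^ (1 / 2 : ℝ) ≠ 0 := (Real.rpow_pos_of_pos hT0 _).ne'
    rw [hs]
    have hlog2 : Real.log 2 ≠ 0 := (Real.log_pos (by norm_num)).ne'
    field_simp
    rw [pow_two (T ^ (1 / 2 : ℝ)), hs2]
  have := hdiff.add dT_mean
  simpa using this

end Pool.Agent.MP_67227b_nt.Fb
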