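import Pool.Agent.MP_67227b_nt.Fb.FbMont1

set_option autoImplicit false

open Filter Topology Set MeasureTheory Complex
open scoped Real ContDiff ArithmeticFunction ArithmeticFunction.Moebius ComplexConjugate

namespace Pool.Agent.MP_67227b_nt.Fb

open Pool.Agent.Lib.ZetaCount_helper33 Pool.Agent.MP_67227b_nt Pool.Agent.MP_67227b_nt.Mo

/-- Module BDD (a). A positive definite majorant with small support.
PROOF. Take a smooth even real `ρ ≥ 0` supported in `[-2/5, 2/5]`, `ρ > 0` on `[-1/5,1/5]`
(e.g. `ContDiffBump` or `Real.smoothTransition`), and `g = C · (ρ ⋆ ρ)`, `g(x) = C ∫ ρ(y) ρ(x-y) dy`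
(as `ρ` is even this is the autocorrelation): smooth, supported in `[-4/5, 4/5]`, `≥ 0`, and
`gs g u = C (gs ρ u)²` with `gs ρ u` real, so `≥ 0`; `g` is positive on `[-1/4, 1/4]` (both `y` and
`x-y` in `(-1/5,1/5)` for `y` near `x/2`), so for `C` large `g ≥ 1` there. -/
theorem exists_majorant : ∃ g : ℝ → ℝ, Bump (4 / 5) (cf g) ∧ (∀ x, 0 ≤ g x) ∧
    (∀ x, |x| ≤ 1 / 4 → 1 ≤ g x) ∧
    ∀ u : ℝ, (gs (cf g) (u : ℂ)).im = 0 ∧ 0 ≤ (gs (cf g) (u : ℂ)).re := by
  let ρ : ContDiffBump (0 : ℝ) := ⟨1 / 5, 2 / 5, by norm_num, by norm_num⟩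
  have hρc : Continuous (ρ : ℝ → ℝ) := ρ.continuous
  have hρs : HasCompactSupport (ρ : ℝ → ℝ) := ρ.hasCompactSupport
  have hρi : Integrable (ρ : ℝ → ℝ) := hρc.integrable_of_hasCompactSupport hρs
  have hone : ∀ x : ℝ, |x| ≤ 1 / 5 → ρ x = 1 := by
    intro x hx
    apply ρ.one_of_mem_closedBall
    rw [Metric.mem_closedBall, Real.dist_eq, sub_zero]
    exact hx
  have hzero : ∀ x : ℝ, 2 / 5 ≤ |x| → ρ x = 0 := by
    intro x hx
    apply ρ.zero_of_le_dist
    rw [Real.dist_eq, sub_zero]
    exact hx
  set c : ℝ → ℝ := MeasureTheory.convolution (ρ : ℝ → ℝ) (ρ : ℝ → ℝ)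
    (ContinuousLinearMap.mul ℝ ℝ) volume with hc
  have hce : ∀ x, c x = ∫ t, ρ t * ρ (x - t) := by
    intro x
    rw [hc, MeasureTheory.convolution_def]
    rfl
  have hcs : ContDiff ℝ ∞ c :=
    hρs.contDiff_convolution_right (ContinuousLinearMap.mul ℝ ℝ) hρi.locallyIntegrable
      ρ.contDiff
  have hint : ∀ x : ℝ, Integrable fun t => ρ t * ρ (x - t) := by
    intro x
    have : Continuous fun t => ρ t * ρ (x - t) := hρc.mul (hρc.comp (by fun_prop))
    exact this.integrable_of_hasCompactSupport (hρs.mul_right)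
  have hc0 : ∀ x, 0 ≤ c x := by
    intro x
    rw [hce]
    exact integral_nonneg fun t => mul_nonneg ρ.nonneg ρ.nonneg
  have hsupp : ∀ x, 4 / 5 < |x| → c x = 0 := by
    intro x hx
    rw [hce]
    have : (fun t => ρ t * ρ (x - t)) = fun _ => 0 := by
      funext t
      rcases le_or_gt (2 / 5) |t| with h | h
      · rw [hzero t h, zero_mul]
      · have : 2 / 5 ≤ |x - t| := by
          have h2 := abs_sub_abs_le_abs_sub x t
          linarith
        rw [hzero _ this, mul_zero]
    rw [this, integral_zero]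
  have hbig : ∀ x, |x| ≤ 1 / 4 → 3 / 20 ≤ c x := by
    intro x hx
    rw [hce]
    have h1 : (∫ t in Icc (x / 2 - 3 / 40) (x / 2 + 3 / 40), ρ t * ρ (x - t)) = 3 / 20 := by
      have h2 : EqOn (fun t => ρ t * ρ (x - t)) (fun _ => (1 : ℝ))
          (Icc (x / 2 - 3 / 40) (x / 2 + 3 / 40)) := by
        intro t ht
        have h3 := abs_le.1 hx
        have h4 : |t| ≤ 1 / 5 := abs_le.2 ⟨by linarith [ht.1, h3.1], by linarith [ht.2, h3.2]⟩
        have h5 : |x - t| ≤ 1 / 5 := abs_le.2 ⟨by linarith [ht.2, h3.1], by linarith [ht.1, h3.2]⟩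
        show ρ t * ρ (x - t) = 1
        rw [hone t h4, hone _ h5, one_mul]
      rw [setIntegral_congr_fun measurableSet_Icc h2]
      simp only [integral_const, MeasurableSet.univ, measureReal_restrict_apply,
            univ_inter, Real.volume_real_Icc, smul_eq_mul, mul_one]
      rw [max_eq_left (by linarith)]
      ring
    rw [← h1]
    exact setIntegral_le_integral (hint x)
      (Eventually.of_forall fun t => mul_nonneg ρ.nonneg ρ.nonneg)
  refine ⟨fun x => 7 * c x, ⟨?_, ?_⟩, ?_, ?_, ?_⟩
  · exact ofRealCLM.contDiff.comp (contDiff_const.mul hcs)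
  · intro v hv
    simp [cf, hsupp v hv]
  · intro x
    have := hc0 x
    positivity
  · intro x hx
    have := hbig x hx
    show 1 ≤ 7 * c x
    linarith
  · intro u
    set f : ℝ → ℂ := fun x => (ρ x : ℂ) * Complex.exp (2 * π * I * x * u) with hf
    have hfc : Continuous f := by
      rw [hf]
      exact (continuous_ofReal.comp hρc).mul (by fun_prop)
    have hfi : Integrable f := by
      refine hfc.integrable_of_hasCompactSupport ?_
      refine HasCompactSupport.intro (isCompact_Icc (a := (-1 : ℝ)) (b := 1)) ?_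
      intro x hx
      have h2 : 2 / 5 ≤ |x| := by
        by_contra h
        push Not at h
        have := abs_lt.1 h
        exact hx ⟨by linarith, by linarith⟩
      simp [hf, hzero x h2]
    have hconv : ∀ x, MeasureTheory.convolution f f (ContinuousLinearMap.mul ℝ ℂ) volume x =
        (c x : ℂ) * Complex.exp (2 * π * I * x * u) := by
      intro x
      rw [MeasureTheory.convolution_def]
      have h1 : ∀ t, ((ContinuousLinearMap.mul ℝ ℂ) (f t)) (f (x - t)) =
          ((ρ t * ρ (x - t) : ℝ) : ℂ) * Complex.exp (2 * π * I * x * u) := by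
        intro t
        show f t * f (x - t) = _
        simp only [hf]
        have : Complex.exp (2 * π * I * x * u) = Complex.exp (2 * π * I * t * u) *
            Complex.exp (2 * π * I * (x - t : ℝ) * u) := by
          rw [← Complex.exp_add]
          congr 1
          push_cast
          ring
        rw [this]
        push_cast
        ring
      simp_rw [h1]
      rw [integral_mul_const, hce x]
      congr 1
      exact integral_ofReal
    have hsq : (∫ x : ℝ, (c x : ℂ) * Complex.exp (2 * π * I * x * u)) =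
        (∫ x, f x) * ∫ x, f x := by
      have h2 : (∫ x, MeasureTheory.convolution f f (ContinuousLinearMap.mul ℝ ℂ) volume x) =
          (ContinuousLinearMap.mul ℝ ℂ) (∫ x, f x) (∫ x, f x) := integral_convolution _ hfi hfi
      simp_rw [hconv] at h2
      exact h2
    have hreal : (∫ x, f x).im = 0 := by
      have hconj : conj (∫ x, f x) = ∫ x, f x := by
        rw [← integral_conj, ← integral_neg_eq_self]
        apply integral_congr_ae
        refine Eventually.of_forall fun x => ?_
        show conj (f (-x)) = f x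
        simp only [hf, map_mul, Complex.conj_ofReal]
        have h1 : ρ (-x) = ρ x := ρ.neg x
        rw [h1, ← Complex.exp_conj]
        congr 2
        simp only [map_mul, Complex.conj_ofReal, Complex.conj_I, map_ofNat]
        push_cast
        ring
      exact Complex.conj_eq_iff_im.1 hconj
    have hgs : gs (cf fun x => 7 * c x) (u : ℂ) = 7 * ((∫ x, f x) * ∫ x, f x) := by
      rw [← hsq, ← integral_const_mul]
      unfold gs cf
      apply integral_congr_ae
      refine Eventually.of_forall fun x => ?_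
      show ((7 * c x : ℝ) : ℂ) * Complex.exp (2 * π * I * x * u) =
        7 * ((c x : ℂ) * Complex.exp (2 * π * I * x * u))
      push_cast
      ring
    have hr : (∫ x, f x) = (((∫ x, f x).re : ℝ) : ℂ) :=
      Complex.ext (by simp) (by simp [hreal])
    rw [hgs, hr]
    have h7 : (7 : ℂ) * ((((∫ x, f x).re : ℝ) : ℂ) * (((∫ x, f x).re : ℝ) : ℂ)) =
        ((7 * ((∫ x, f x).re * (∫ x, f x).re) : ℝ) : ℂ) := by push_cast; ring
    rw [h7]
    refine ⟨Complex.ofReal_im _, ?_⟩
    rw [Complex.ofReal_re]
    have := mul_self_nonneg (∫ x, f x).re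
    positivity

/-- Module BDD (b). PROOF. With `g` of `exists_majorant` and `g₁(x) = g(x-1)` (a `Bump 2`):
`∫_{3/4}^{5/4} F ≤ ∫ g₁ F` (`montF_nonneg`), which by `integral_montF` is the pair sum of
`Re(gs g₁(u)) w`, where `gs g₁ u = e^{2πiu} gs g u`, so `|Re(gs g₁ u)| ≤ gs g u`, and `0 ≤ w ≤ 1`:
so it is at most the pair sum of `Re gs g`, which converges by `Mo.tendsto_pairs hRH (η := cf g)`
(`δ = 4/5 < 1`), hence is bounded for large `T`. -/
theorem S_bdd (hRH : RiemannHypothesis) : ∃ C : ℝ, 0 < C ∧
    ∀ᶠ T : ℝ in atTop, (∫ x in (3 / 4 : ℝ)..(5 / 4), montF T x) ≤ C := by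
  obtain ⟨g, hg, hg0, hg1, hgs⟩ := exists_majorant
  have hg₁ : Bump 2 (cf fun x => g (x - 1)) := by
    constructor
    · have := hg.smooth.comp (contDiff_id.sub contDiff_const : ContDiff ℝ ∞ fun x : ℝ => x - 1)
      exact this
    · intro v hv
      have : 4 / 5 < |v - 1| := by
        have h1 := abs_sub_abs_le_abs_sub v 1
        rw [abs_one] at h1
        linarith
      exact hg.supp _ this
  have hshift : ∀ u : ℝ, gs (cf fun x => g (x - 1)) (u : ℂ) =
      Complex.exp (2 * π * I * u) * gs (cf g) (u : ℂ) := by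
    intro u
    unfold gs cf
    rw [← integral_const_mul]
    have h1 : (∫ x : ℝ, (g (x - 1) : ℂ) * Complex.exp (2 * π * I * (((x - 1 : ℝ) : ℂ) + 1) * u)) =
        ∫ x : ℝ, (g x : ℂ) * Complex.exp (2 * π * I * ((x : ℂ) + 1) * u) :=
      integral_sub_right_eq_self
        (fun x : ℝ => (g x : ℂ) * Complex.exp (2 * π * I * ((x : ℂ) + 1) * u)) (1 : ℝ)
    have h2 : (fun x : ℝ => (g (x - 1) : ℂ) * Complex.exp (2 * π * I * (((x - 1 : ℝ) : ℂ) + 1) * u))
        = fun v : ℝ => (g (v - 1) : ℂ) * Complex.exp (2 * π * I * v * u) := by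
      funext x
      congr 3
      push_cast
      ring
    rw [h2] at h1
    rw [h1]
    apply integral_congr_ae
    refine Eventually.of_forall fun x => ?_
    show (g x : ℂ) * Complex.exp (2 * π * I * ((x : ℂ) + 1) * u) =
      Complex.exp (2 * π * I * u) * ((g x : ℂ) * Complex.exp (2 * π * I * x * u))
    have h3 : Complex.exp (2 * π * I * ((x : ℂ) + 1) * u) = Complex.exp (2 * π * I * u) *
        Complex.exp (2 * π * I * x * u) := by
      rw [← Complex.exp_add]
      congr 1
      ring
    rw [h3]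
    ring
  have hre : ∀ u : ℝ, (gs (cf fun x => g (x - 1)) (u : ℂ)).re ≤ (gs (cf g) (u : ℂ)).re := by
    intro u
    rw [hshift u]
    have h0 := hgs u
    calc (Complex.exp (2 * π * I * u) * gs (cf g) (u : ℂ)).re
        ≤ ‖Complex.exp (2 * π * I * u) * gs (cf g) (u : ℂ)‖ := Complex.re_le_norm _
      _ = ‖gs (cf g) (u : ℂ)‖ := by
          rw [norm_mul, show 2 * (π : ℂ) * I * u = ((2 * π * u : ℝ) : ℂ) * I by push_cast; ring,
            norm_exp_ofReal_mul_I, one_mul]
      _ = (gs (cf g) (u : ℂ)).re := by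
          rw [Complex.norm_def, Complex.normSq_apply, h0.1, mul_zero, add_zero,
            Real.sqrt_mul_self h0.2]
  have hlim := tendsto_pairs hRH (show (0 : ℝ) ≤ 4 / 5 by norm_num) (by norm_num) hg
  have hlim2 := (Complex.continuous_re.tendsto _).comp hlim
  set l := (cf g 0 + ∫ x : ℝ, ((|x| : ℝ) : ℂ) * cf g x).re with hl
  refine ⟨|l| + 1, by positivity, ?_⟩
  have hev := hlim2.eventually (gt_mem_nhds (show l < |l| + 1 by linarith [le_abs_self l]))
  filter_upwards [hev, eventually_gt_atTop (1 : ℝ)] with T hT hT1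
  have hF := montF_nonneg hT1
  have hFc := continuous_montF T
  have hgc : Continuous g := by
    have h1 := Complex.continuous_re.comp hg.smooth.continuous
    have h2 : (Complex.re ∘ cf g) = g := by funext x; simp [cf]
    rwa [h2] at h1
  have hg₁c : Continuous fun x => g (x - 1) := hgc.comp (by fun_prop)
  have hprod : Continuous fun x => g (x - 1) * montF T x := hg₁c.mul hFc
  have hpi : Integrable fun x => g (x - 1) * montF T x := by
    refine hprod.integrable_of_hasCompactSupport ?_
    refine HasCompactSupport.intro (isCompact_Icc (a := (-2 : ℝ)) (b := 2)) ?_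
    intro x hx
    have h1 : 2 < |x| := by
      by_contra h
      exact hx (abs_le.1 (not_lt.1 h))
    have h2 := hg₁.supp x h1
    have h3 : g (x - 1) = 0 := by
      have h4 : ((g (x - 1) : ℝ) : ℂ) = 0 := h2
      exact_mod_cast h4
    rw [h3, zero_mul]
  have hzs := zeroScale_pos hT1
  calc (∫ x in (3 / 4 : ℝ)..(5 / 4), montF T x)
      ≤ ∫ x in (3 / 4 : ℝ)..(5 / 4), g (x - 1) * montF T x := by
        apply intervalIntegral.integral_mono_on (by norm_num) (hFc.intervalIntegrable _ _)
          (hprod.intervalIntegrable _ _)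
        intro x hx
        have h1 : 1 ≤ g (x - 1) := by
          apply hg1
          rw [abs_le]
          constructor <;> linarith [hx.1, hx.2]
        nlinarith [hF x]
    _ ≤ ∫ x, g (x - 1) * montF T x := by
        rw [intervalIntegral.integral_of_le (by norm_num)]
        exact setIntegral_le_integral hpi
          (Eventually.of_forall fun x => mul_nonneg (hg0 _) (hF x))
    _ = (∑ i ∈ PT goodFamily_zeta T, ∑ j ∈ PT goodFamily_zeta T,
        (gs (cf fun x => g (x - 1))
          (((zetaOrdinate i - zetaOrdinate j) * Real.log T / (2 * π) : ℝ) : ℂ)).re *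
          (4 / (4 + (zetaOrdinate i - zetaOrdinate j) ^ 2))) / zeroScale T :=
        integral_montF (by norm_num) hg₁ T
    _ ≤ (∑ i ∈ PT goodFamily_zeta T, ∑ j ∈ PT goodFamily_zeta T,
        (gs (cf g) (((zetaOrdinate i - zetaOrdinate j) * Real.log T / (2 * π) : ℝ) : ℂ)).re) /
          zeroScale T := by
        apply div_le_div_of_nonneg_right _ hzs.le
        refine Finset.sum_le_sum fun i _ => Finset.sum_le_sum fun j _ => ?_
        set u := (zetaOrdinate i - zetaOrdinate j) * Real.log T / (2 * π)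
        have hw0 : 0 ≤ 4 / (4 + (zetaOrdinate i - zetaOrdinate j) ^ 2) := by positivity
        have hw1 : 4 / (4 + (zetaOrdinate i - zetaOrdinate j) ^ 2) ≤ 1 := by
          rw [div_le_one (by positivity)]
          nlinarith [sq_nonneg (zetaOrdinate i - zetaOrdinate j)]
        calc _ ≤ (gs (cf g) (u : ℂ)).re * (4 / (4 + (zetaOrdinate i - zetaOrdinate j) ^ 2)) :=
              mul_le_mul_of_nonneg_right (hre u) hw0
          _ ≤ (gs (cf g) (u : ℂ)).re * 1 := mul_le_mul_of_nonneg_left hw1 (hgs u).2
          _ = _ := mul_one _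
    _ = ((∑ i ∈ PT goodFamily_zeta T, ∑ j ∈ PT goodFamily_zeta T,
        gs (cf g) (((zetaOrdinate i - zetaOrdinate j) * Real.log T / (2 * π) : ℝ) : ℂ)) /
          (zeroScale T : ℂ)).re := by
        rw [Complex.div_ofReal_re]
        simp only [Complex.re_sum]
    _ ≤ |l| + 1 := hT.le

end Pool.Agent.MP_67227b_nt.Fb
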