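import Pool.Agent.MP_67227b_nt.Fb.FbInner

set_option autoImplicit false

open Filter Topology Set MeasureTheory Complex
open scoped Real ContDiff ArithmeticFunction ArithmeticFunction.Moebius ComplexConjugate

namespace Pool.Agent.MP_67227b_nt.Fb

open Pool.Agent.Lib.ZetaCount_helper33 Pool.Agent.MP_67227b_nt Pool.Agent.MP_67227b_nt.Mo

private theorem br_integral {T : ℝ} {K : ℝ → ℝ → ℂ} (hK : ∀ γ, Continuous (K γ)) {f : ℝ → ℂ}
    {a b : ℝ} (hab : a ≤ b) (hf : ContinuousOn f (Icc a b)) :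
    (∫ t in a..b, innerSum T (fun γ => K γ t) * f t) =
      innerSum T (fun γ => ∫ t in a..b, K γ t * f t) := by
  unfold innerSum
  simp only [Finset.sum_mul]
  rw [intervalIntegral.integral_finsetSum]
  intro j _
  apply ContinuousOn.intervalIntegrable
  rw [uIcc_of_le hab]
  exact (hK _).continuousOn.mul hf

private theorem br_cont {T : ℝ} {K : ℝ → ℝ → ℂ} (hK : ∀ γ, Continuous (K γ)) :
    Continuous fun t => innerSum T (fun γ => K γ t) := by
  unfold innerSum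
  exact continuous_finsetSum _ fun j _ => hK _

private theorem br_split {h : ℝ → ℂ} {a b q A B : ℝ} (hq : 0 ≤ q) (hab : a + 2 * q ≤ b - 2 * q)
    (hh : ContinuousOn h (Icc a b)) (hA : ∀ t ∈ Icc a b, ‖h t‖ ≤ A)
    (hB : ∀ t, a + 2 * q ≤ t → t ≤ b - 2 * q → ‖h t‖ ≤ B) (hB0 : 0 ≤ B) :
    ‖∫ t in a..b, h t‖ ≤ 4 * q * A + (b - a) * B := by
  have hI : ∀ c d : ℝ, a ≤ c → c ≤ d → d ≤ b → IntervalIntegrable h volume c d := by
    intro c d h1 h2 h3
    apply ContinuousOn.intervalIntegrable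
    rw [uIcc_of_le h2]
    exact hh.mono (Icc_subset_Icc h1 h3)
  have e : (∫ t in a..b, h t) = (∫ t in a..(a + 2 * q), h t) +
      (∫ t in (a + 2 * q)..(b - 2 * q), h t) + ∫ t in (b - 2 * q)..b, h t := by
    rw [intervalIntegral.integral_add_adjacent_intervals (hI _ _ le_rfl (by linarith) (by linarith))
      (hI _ _ (by linarith) hab (by linarith)),
      intervalIntegral.integral_add_adjacent_intervals (hI _ _ le_rfl (by linarith) (by linarith))
      (hI _ _ (by linarith) (by linarith) le_rfl)]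
  rw [e]
  have h1 : ‖∫ t in a..(a + 2 * q), h t‖ ≤ A * |a + 2 * q - a| := by
    apply intervalIntegral.norm_integral_le_of_norm_le_const
    intro t ht
    rw [uIoc_of_le (by linarith)] at ht
    exact hA t ⟨ht.1.le, by linarith [ht.2]⟩
  have h2 : ‖∫ t in (a + 2 * q)..(b - 2 * q), h t‖ ≤ B * |b - 2 * q - (a + 2 * q)| := by
    apply intervalIntegral.norm_integral_le_of_norm_le_const
    intro t ht
    rw [uIoc_of_le hab] at ht
    exact hB t ht.1.le ht.2
  have h3 : ‖∫ t in (b - 2 * q)..b, h t‖ ≤ A * |b - (b - 2 * q)| := by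
    apply intervalIntegral.norm_integral_le_of_norm_le_const
    intro t ht
    rw [uIoc_of_le (by linarith)] at ht
    exact hA t ⟨by linarith [ht.1], ht.2⟩
  rw [abs_of_nonneg (by linarith)] at h1 h2 h3
  have h4 := norm_add₃_le (a := ∫ t in a..(a + 2 * q), h t)
    (b := ∫ t in (a + 2 * q)..(b - 2 * q), h t) (c := ∫ t in (b - 2 * q)..b, h t)
  have h5 : B * (b - 2 * q - (a + 2 * q)) ≤ (b - a) * B := by nlinarith
  nlinarith

private theorem br_lim (C : ℝ) :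
    ∀ᶠ T : ℝ in atTop, 2 * T ^ (-(1 / 10) : ℝ) + 5 * C * (Real.log T * T ^ (-(3 / 20) : ℝ)) ≤
      T ^ (-(1 / 20) : ℝ) := by
  have h1 : Tendsto (fun T : ℝ => 2 * T ^ (-(1 / 20) : ℝ)) atTop (𝓝 (2 * 0)) :=
    (tendsto_rpow_neg_atTop (by norm_num)).const_mul 2
  have h2 : Tendsto (fun T : ℝ => 5 * C * (Real.log T * T ^ (-(1 / 10) : ℝ))) atTop
      (𝓝 (5 * C * 0)) := by
    apply Tendsto.const_mul
    have h := (isLittleO_log_rpow_atTop (r := 1 / 10) (by norm_num)).tendsto_div_nhds_zero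
    refine h.congr' ?_
    filter_upwards [eventually_gt_atTop 0] with T hT
    rw [Real.rpow_neg hT.le, div_eq_mul_inv]
  have h3 := h1.add h2
  simp only [mul_zero, add_zero] at h3
  filter_upwards [h3.eventually_le_const (show (0 : ℝ) < 1 by norm_num), eventually_gt_atTop 0]
    with T hT hT0
  have e1 : T ^ (-(1 / 10) : ℝ) = T ^ (-(1 / 20) : ℝ) * T ^ (-(1 / 20) : ℝ) := by
    rw [← Real.rpow_add hT0]; norm_num
  have e2 : T ^ (-(3 / 20) : ℝ) = T ^ (-(1 / 10) : ℝ) * T ^ (-(1 / 20) : ℝ) := by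
    rw [← Real.rpow_add hT0]; norm_num
  have hp : 0 ≤ T ^ (-(1 / 20) : ℝ) := Real.rpow_nonneg hT0.le _
  rw [e2]
  nth_rewrite 1 [e1]
  calc _ = (2 * T ^ (-(1 / 20) : ℝ) + 5 * C * (Real.log T * T ^ (-(1 / 10) : ℝ))) *
        T ^ (-(1 / 20) : ℝ) := by ring
    _ ≤ 1 * T ^ (-(1 / 20) : ℝ) := mul_le_mul_of_nonneg_right hT hp
    _ = _ := one_mul _

/-- Module BRIDGE.

PROOF. Let `L = log T`, `S_in(t)` the inner part and `R(t) = SZ - S_in` (`rest_bound`). `S_in` is a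
finite sum: `(1/T)∫_{T1}^{T2} S_in f = (1/T) innerSum T (fun γ => ∫ gs ψ((γ-t)L/2π) f(t) dt)`
(`intervalIntegral.integral_finset_sum`, `Finset.sum_mul`; the terms are continuous on `[T1, T2]`).
By hypothesis each `∫ gs.. f = (2π/L)(g(γ) + O(T^(-1/10)))`, and `(1/T)(2π/L) = 1/zeroScale T`
(`zeroScale T = T/(2π)·log T`), so this is `innerSum T g/zeroScale T` with error at most
`(1/zeroScale T) · 2 T^(-1/10) zeroScale T = 2T^(-1/10)` (`norm_innerSum_le` applied to the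
difference; split `innerSum` linearly). The rest: `R` is continuous (or measurable:
`ED92.continuous_SZ`) and `(1/T)∫_{T1}^{T2} ‖R‖‖f‖ ≤ (1/T) T^(3/5) (T · C log T/T +
4 T^(1/4) C log T) ≤ 5 C log T T^(-3/20)`; together `≤ T^(-1/20)` for `T` large. -/
theorem S_bridge (hRH : RiemannHypothesis) {ψ : ℝ → ℝ} {δ : ℝ} (hδ : 0 ≤ δ)
    (hψ : Bump δ (cf ψ)) :
    ∀ᶠ T : ℝ in atTop, ∀ f g : ℝ → ℂ, ContinuousOn f (Icc (T1 T) (T2 T)) →
      (∀ t ∈ Icc (T1 T) (T2 T), ‖f t‖ ≤ T ^ (3 / 5 : ℝ)) →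
      (∀ γ : ℝ, T1 T + T ^ (1 / 4 : ℝ) ≤ γ → γ ≤ T2 T - T ^ (1 / 4 : ℝ) →
        ‖((Real.log T / (2 * π) : ℝ) : ℂ) * (∫ t in (T1 T)..(T2 T),
          gs (cf ψ) (((γ - t) * Real.log T / (2 * π) : ℝ) : ℂ) * f t) - g γ‖ ≤
          T ^ (-(1 / 10) : ℝ)) →
      ‖(1 / (T : ℂ)) * (∫ t in (T1 T)..(T2 T), SZ (Real.log T) (cf ψ) t * f t) -
        innerSum T g / (zeroScale T : ℂ)‖ ≤ T ^ (-(1 / 20) : ℝ) := by
  obtain ⟨C, hC, hR⟩ := rest_bound hRH hδ hψ
  obtain ⟨C', hC', hB⟩ := gs_real_bound hδ hψ 2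
  have hgc := continuous_gs hδ hψ
  have hq : Tendsto (fun T : ℝ => T ^ (-(3 / 4) : ℝ)) atTop (𝓝 0) :=
    tendsto_rpow_neg_atTop (by norm_num)
  filter_upwards [hR, norm_innerSum_le, br_lim C, Real.tendsto_log_atTop.eventually_ge_atTop
    (2 * π), eventually_gt_atTop 16, (tendsto_rpow_neg_atTop (y := 1 / 4)
      (by norm_num)).eventually_le_const (show (0 : ℝ) < 1 / 16 by norm_num)] with
    T hR hI hlim hL hT3 hsm f g hf hfb hfg
  have hpi := Real.pi_pos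
  have hT0 : 0 < T := by linarith
  have hL0 : 0 < Real.log T := Real.log_pos (by linarith)
  have hz := zeroScale_pos (show 1 < T by linarith)
  set K : ℝ → ℝ → ℂ := fun γ t => gs (cf ψ) (((γ - t) * Real.log T / (2 * π) : ℝ) : ℂ) with hK
  have hKc : ∀ γ, Continuous (K γ) := fun γ => ED92.continuous_term hgc _ _
  have hSc : Continuous (SZ (Real.log T) (cf ψ)) := ED92.continuous_SZ hRH hC' hB hL hgc
  have hSin : Continuous fun t => innerSum T (fun γ => K γ t) := br_cont hKc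
  have hqp : 0 < T ^ (1 / 4 : ℝ) := Real.rpow_pos_of_pos hT0 _
  -- size of the quarter power
  have hq4 : T ^ (1 / 4 : ℝ) ≤ T / 16 ∧ T ^ (3 / 4 : ℝ) ≤ T / 16 := by
    have e1 : T ^ (3 / 4 : ℝ) = T * T ^ (-(1 / 4) : ℝ) := by
      rw [← Real.rpow_one_add' hT0.le (by norm_num)]; norm_num
    have e2 : T ^ (1 / 4 : ℝ) ≤ T ^ (3 / 4 : ℝ) :=
      Real.rpow_le_rpow_of_exponent_le (by linarith) (by norm_num)
    have e3 : T ^ (3 / 4 : ℝ) ≤ T / 16 := by
      rw [e1]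
      calc T * T ^ (-(1 / 4) : ℝ) ≤ T * (1 / 16) := mul_le_mul_of_nonneg_left hsm hT0.le
        _ = _ := by ring
    exact ⟨e2.trans e3, e3⟩
  have hT1h : T1 T ≤ T / 2 := by
    unfold T1
    apply div_le_div_of_nonneg_left hT0.le (by norm_num)
    linarith [Real.pi_gt_three]
  have hT1p : 0 < T1 T := div_pos hT0 hL0
  have hT2 : T2 T = T - T ^ (3 / 4 : ℝ) := rfl
  have hT34 : 0 ≤ T ^ (3 / 4 : ℝ) := Real.rpow_nonneg hT0.le _
  have h12 : T1 T + 2 * T ^ (1 / 4 : ℝ) ≤ T2 T - 2 * T ^ (1 / 4 : ℝ) := by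
    rw [hT2]; linarith [hq4.1, hq4.2]
  have h12' : T1 T ≤ T2 T := by linarith
  -- the inner part
  have hinner : (∫ t in (T1 T)..(T2 T), innerSum T (fun γ => K γ t) * f t) =
      innerSum T (fun γ => ∫ t in (T1 T)..(T2 T), K γ t * f t) := br_integral hKc h12' hf
  have hzc : (zeroScale T : ℂ) ≠ 0 := by exact_mod_cast hz.ne'
  have hTc : (T : ℂ) ≠ 0 := by exact_mod_cast hT0.ne'
  have hLc : ((Real.log T : ℝ) : ℂ) ≠ 0 := by exact_mod_cast hL0.ne'
  have hpc : (π : ℂ) ≠ 0 := by exact_mod_cast Real.pi_ne_zero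
  have hsplit : (∫ t in (T1 T)..(T2 T), SZ (Real.log T) (cf ψ) t * f t) =
      (∫ t in (T1 T)..(T2 T), (SZ (Real.log T) (cf ψ) t - innerSum T (fun γ => K γ t)) * f t) +
        ∫ t in (T1 T)..(T2 T), innerSum T (fun γ => K γ t) * f t := by
    rw [← intervalIntegral.integral_add]
    · congr 1
      ext t
      ring
    · apply ContinuousOn.intervalIntegrable
      rw [uIcc_of_le h12']
      exact (hSc.sub hSin).continuousOn.mul hf
    · apply ContinuousOn.intervalIntegrable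
      rw [uIcc_of_le h12']
      exact hSin.continuousOn.mul hf
  have hdiff : (1 / (T : ℂ)) * innerSum T (fun γ => ∫ t in (T1 T)..(T2 T), K γ t * f t) -
      innerSum T g / (zeroScale T : ℂ) = innerSum T (fun γ =>
        ((Real.log T / (2 * π) : ℝ) : ℂ) * (∫ t in (T1 T)..(T2 T), K γ t * f t) - g γ) /
        (zeroScale T : ℂ) := by
    unfold innerSum
    rw [Finset.sum_sub_distrib, ← Finset.mul_sum, sub_div]
    congr 1
    unfold zeroScale
    push_cast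
    field_simp
  have hI2 := hI (fun γ => ((Real.log T / (2 * π) : ℝ) : ℂ) *
    (∫ t in (T1 T)..(T2 T), K γ t * f t) - g γ) (T ^ (-(1 / 10) : ℝ))
    (Real.rpow_nonneg hT0.le _) (fun γ h1 h2 _ => hfg γ h1 h2)
  have hB2 : ‖(1 / (T : ℂ)) * innerSum T (fun γ => ∫ t in (T1 T)..(T2 T), K γ t * f t) -
      innerSum T g / (zeroScale T : ℂ)‖ ≤ 2 * T ^ (-(1 / 10) : ℝ) := by
    rw [hdiff, norm_div, Complex.norm_real, Real.norm_of_nonneg hz.le, div_le_iff₀ hz]
    exact hI2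
  -- the rest
  have hrest : ‖∫ t in (T1 T)..(T2 T),
      (SZ (Real.log T) (cf ψ) t - innerSum T (fun γ => K γ t)) * f t‖ ≤
      4 * T ^ (1 / 4 : ℝ) * (C * Real.log T * T ^ (3 / 5 : ℝ)) +
        (T2 T - T1 T) * (C * Real.log T / T * T ^ (3 / 5 : ℝ)) := by
    apply br_split hqp.le h12
    · exact (hSc.sub hSin).continuousOn.mul hf
    · intro t ht
      rw [norm_mul]
      exact mul_le_mul (hR t ht).1 (hfb t ht) (norm_nonneg _) (by positivity)
    · intro t ht1 ht2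
      have ht : t ∈ Icc (T1 T) (T2 T) := ⟨by linarith, by linarith⟩
      rw [norm_mul]
      exact mul_le_mul ((hR t ht).2 ht1 ht2) (hfb t ht) (norm_nonneg _) (by positivity)
    · positivity
  have h35 : 0 ≤ T ^ (3 / 5 : ℝ) := Real.rpow_nonneg hT0.le _
  have hrest2 : ‖(1 / (T : ℂ)) * ∫ t in (T1 T)..(T2 T),
      (SZ (Real.log T) (cf ψ) t - innerSum T (fun γ => K γ t)) * f t‖ ≤
      5 * C * (Real.log T * T ^ (-(3 / 20) : ℝ)) := by
    rw [norm_mul]
    have hnT : ‖(1 / (T : ℂ))‖ = 1 / T := by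
      rw [norm_div, norm_one, Complex.norm_real, Real.norm_of_nonneg hT0.le]
    rw [hnT]
    have e1 : T ^ (-(3 / 20) : ℝ) = T⁻¹ * (T ^ (1 / 4 : ℝ) * T ^ (3 / 5 : ℝ)) := by
      rw [← Real.rpow_neg_one, ← Real.rpow_add hT0, ← Real.rpow_add hT0]; norm_num
    have e2 : (1 : ℝ) ≤ T ^ (1 / 4 : ℝ) := Real.one_le_rpow (by linarith) (by norm_num)
    have e3 : (T2 T - T1 T) * (C * Real.log T / T * T ^ (3 / 5 : ℝ)) ≤
        T ^ (1 / 4 : ℝ) * (C * Real.log T * T ^ (3 / 5 : ℝ)) := by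
      have h1 : T2 T - T1 T ≤ T := by rw [hT2]; linarith
      calc (T2 T - T1 T) * (C * Real.log T / T * T ^ (3 / 5 : ℝ))
          ≤ T * (C * Real.log T / T * T ^ (3 / 5 : ℝ)) :=
            mul_le_mul_of_nonneg_right h1 (by positivity)
        _ = 1 * (C * Real.log T * T ^ (3 / 5 : ℝ)) := by field_simp
        _ ≤ _ := mul_le_mul_of_nonneg_right e2 (by positivity)
    rw [e1]
    calc 1 / T * ‖∫ t in (T1 T)..(T2 T),
          (SZ (Real.log T) (cf ψ) t - innerSum T (fun γ => K γ t)) * f t‖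
        ≤ 1 / T * (4 * T ^ (1 / 4 : ℝ) * (C * Real.log T * T ^ (3 / 5 : ℝ)) +
            T ^ (1 / 4 : ℝ) * (C * Real.log T * T ^ (3 / 5 : ℝ))) :=
          mul_le_mul_of_nonneg_left (hrest.trans (by linarith)) (by positivity)
      _ = _ := by rw [one_div]; ring
  rw [hsplit, hinner, mul_add, add_sub_assoc]
  refine (norm_add_le _ _).trans ?_
  linarith

end Pool.Agent.MP_67227b_nt.Fb
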