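import Pool.Agent.MP_67227b_nt.Fb.FbArG
import Pool.Agent.MP_67227b_nt.Fb.FbDsq

set_option autoImplicit false

open Filter Topology Set MeasureTheory Complex
open scoped Real ContDiff ArithmeticFunction ArithmeticFunction.Moebius ComplexConjugate

namespace Pool.Agent.MP_67227b_nt.Fb

open Pool.Agent.Lib.ZetaCount_helper33 Pool.Agent.MP_67227b_nt Pool.Agent.MP_67227b_nt.Mo

namespace BtGAux

open MeanBBAux (E E_continuous E_mul E_zero E_norm int_E_zero int_E_le tm tm_continuous two_le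
  bump_bdd)

/-- Powers of the logarithm are small. -/
theorem tendsto_log_pow (k : ℕ) {a : ℝ} (ha : 0 < a) :
    Tendsto (fun T : ℝ => (1 + Real.log T) ^ k / T ^ a) atTop (𝓝 0) := by
  have h1 : Tendsto (fun T : ℝ => 2 ^ k * (Real.log T ^ (k : ℝ) / T ^ a)) atTop (𝓝 (2 ^ k * 0)) :=
    (isLittleO_log_rpow_rpow_atTop (k : ℝ) ha).tendsto_div_nhds_zero.const_mul _
  rw [mul_zero] at h1
  refine squeeze_zero' ?_ ?_ h1
  · filter_upwards [eventually_ge_atTop (1 : ℝ)] with T hT
    have := Real.log_nonneg hT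
    positivity
  · filter_upwards [eventually_gt_atTop (0 : ℝ), Real.tendsto_log_atTop.eventually_ge_atTop 1]
      with T hT hL
    rw [Real.rpow_natCast, ← mul_div_assoc, ← mul_pow]
    have : 1 + Real.log T ≤ 2 * Real.log T := by linarith
    gcongr

theorem cpow_eq {n : ℕ} (hn : n ≠ 0) (t : ℝ) :
    (n : ℂ) ^ (-(1 / 2 + (t : ℂ) * I)) = ((1 / Real.sqrt n : ℝ) : ℂ) * E (-(Real.log n)) t := by
  have hn0 : (n : ℂ) ≠ 0 := by exact_mod_cast hn
  have hn1 : (0 : ℝ) < n := by exact_mod_cast Nat.pos_of_ne_zero hn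
  have h1 : Real.sqrt n = Real.exp (Real.log n / 2) := by
    rw [Real.sqrt_eq_rpow, Real.rpow_def_of_pos hn1]
    congr 1
    ring
  rw [Complex.cpow_def_of_ne_zero hn0, ← Complex.natCast_log, h1,
    show 1 / Real.exp (Real.log n / 2) = Real.exp (-(Real.log n / 2)) by
      rw [Real.exp_neg, one_div]]
  unfold E
  rw [Complex.ofReal_exp, ← Complex.exp_add]
  congr 1
  push_cast
  ring

theorem conj_E (l t : ℝ) : conj (E l t) = E (-l) t := by
  unfold E
  rw [← Complex.exp_conj]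
  congr 1
  simp only [map_mul, conj_I, conj_ofReal]
  push_cast
  ring

/-- The kernel; it vanishes on the diagonal. -/
noncomputable def K (n m : ℕ) : ℝ := 1 / (Real.sqrt n * Real.sqrt m * |Real.log n - Real.log m|)

theorem K_nonneg (n m : ℕ) : 0 ≤ K n m := by
  unfold K
  positivity

theorem K_comm (n m : ℕ) : K n m = K m n := by
  unfold K
  rw [abs_sub_comm, mul_comm (Real.sqrt n)]

theorem K_le {n m : ℕ} (hn : 1 ≤ n) (hm : 1 ≤ m) : K n m ≤ 1 / ((n - m : ℕ) : ℝ) +
    1 / ((m - n : ℕ) : ℝ) + 1 / (n : ℝ) + 1 / (m : ℝ) := by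
  have p1 : (0 : ℝ) ≤ 1 / ((n - m : ℕ) : ℝ) := by positivity
  have p2 : (0 : ℝ) ≤ 1 / ((m - n : ℕ) : ℝ) := by positivity
  have p3 : (0 : ℝ) ≤ 1 / (n : ℝ) := by positivity
  have p4 : (0 : ℝ) ≤ 1 / (m : ℝ) := by positivity
  rcases lt_trichotomy n m with h | h | h
  · have := OD92.inv_kernel_le (n := m) (m := n) hn h
    rw [K_comm]
    unfold K
    linarith
  · subst h
    unfold K
    rw [sub_self, abs_zero, mul_zero, div_zero]
    linarith
  · have := OD92.inv_kernel_le (n := n) (m := m) hm h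
    unfold K
    linarith

theorem sum_trunc_le' {N n : ℕ} :
    ∑ m ∈ Finset.range (N + 1), 1 / ((m - n : ℕ) : ℝ) ≤ OD92.HS N := by
  have h1 : ∑ m ∈ Finset.range (N + 1), 1 / ((m - n : ℕ) : ℝ) =
      ∑ m ∈ Finset.Ico n (N + 1), 1 / ((m - n : ℕ) : ℝ) := by
    symm
    apply Finset.sum_subset
    · intro x hx
      rw [Finset.mem_Ico] at hx
      exact Finset.mem_range.2 hx.2
    · intro x hx hx2
      rw [Finset.mem_range] at hx
      rw [Finset.mem_Ico] at hx2
      have : x - n = 0 := by omega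
      rw [this]
      simp
  rw [h1, Finset.sum_Ico_eq_sum_range]
  have h2 : ∀ j ∈ Finset.range (N + 1 - n), 1 / ((n + j - n : ℕ) : ℝ) = 1 / (j : ℝ) := by
    intro j _
    rw [Nat.add_sub_cancel_left]
  rw [Finset.sum_congr rfl h2]
  unfold OD92.HS
  exact Finset.sum_le_sum_of_subset_of_nonneg (Finset.range_mono (by omega))
    fun _ _ _ => by positivity

/-- The sum of a row of the kernel. -/
theorem row_sum {N n : ℕ} (hn : n ∈ Finset.Icc 1 N) :
    ∑ m ∈ Finset.Icc 1 N, K n m ≤ 3 * (1 + Real.log N) + N / n := by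
  have hn1 : 1 ≤ n := (Finset.mem_Icc.1 hn).1
  have hsub : Finset.Icc 1 N ⊆ Finset.range (N + 1) := by
    intro x hx
    have := (Finset.mem_Icc.1 hx).2
    exact Finset.mem_range.2 (by omega)
  have h1 : ∑ m ∈ Finset.Icc 1 N, K n m ≤ ∑ m ∈ Finset.Icc 1 N, (1 / ((n - m : ℕ) : ℝ) +
      1 / ((m - n : ℕ) : ℝ) + 1 / (n : ℝ) + 1 / (m : ℝ)) :=
    Finset.sum_le_sum fun m hm => K_le hn1 (Finset.mem_Icc.1 hm).1
  refine h1.trans ?_
  rw [Finset.sum_add_distrib, Finset.sum_add_distrib, Finset.sum_add_distrib]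
  have a1 : ∑ m ∈ Finset.Icc 1 N, 1 / ((n - m : ℕ) : ℝ) ≤ OD92.HS N :=
    (Finset.sum_le_sum_of_subset_of_nonneg hsub fun _ _ _ => by positivity).trans
      (OD92.sum_trunc_le (hsub hn))
  have a2 : ∑ m ∈ Finset.Icc 1 N, 1 / ((m - n : ℕ) : ℝ) ≤ OD92.HS N :=
    (Finset.sum_le_sum_of_subset_of_nonneg hsub fun _ _ _ => by positivity).trans sum_trunc_le'
  have a3 : ∑ _m ∈ Finset.Icc 1 N, 1 / (n : ℝ) = N / n := by
    rw [Finset.sum_const, Nat.card_Icc, nsmul_eq_mul]
    simp
    ring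
  have a4 : ∑ m ∈ Finset.Icc 1 N, 1 / (m : ℝ) ≤ OD92.HS N :=
    Finset.sum_le_sum_of_subset_of_nonneg hsub fun _ _ _ => by positivity
  have a5 := OD92.HS_le N
  linarith

/-- The length of the range of `t`. -/
theorem len_tendsto : Tendsto (fun T : ℝ => (T2 T - T1 T) / T) atTop (𝓝 1) := by
  have h1 : Tendsto (fun T : ℝ => T ^ (-(1 / 4 : ℝ))) atTop (𝓝 0) :=
    tendsto_rpow_neg_atTop (by norm_num)
  have h2 : Tendsto (fun T : ℝ => (Real.log T)⁻¹) atTop (𝓝 0) :=
    tendsto_inv_atTop_zero.comp Real.tendsto_log_atTop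
  have h3 : Tendsto (fun T : ℝ => 1 - T ^ (-(1 / 4 : ℝ)) - (Real.log T)⁻¹) atTop
      (𝓝 (1 - 0 - 0)) := (tendsto_const_nhds.sub h1).sub h2
  rw [sub_zero, sub_zero] at h3
  refine h3.congr' ?_
  filter_upwards [eventually_gt_atTop (1 : ℝ)] with T hT
  have hT0 : 0 < T := by linarith
  have hL : 0 < Real.log T := Real.log_pos hT
  have e : T ^ (3 / 4 : ℝ) = T * T ^ (-(1 / 4 : ℝ)) := by
    rw [show (3 / 4 : ℝ) = 1 + (-(1 / 4)) by norm_num, Real.rpow_add hT0, Real.rpow_one]
  unfold T2 T1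
  rw [e]
  field_simp

/-- The error term, for a pair. -/
theorem pair_le {N n m : ℕ} {ψ : ℝ → ℝ} {am' : ℝ} {C M L A B : ℝ} (hC : 0 ≤ C) (hM : 0 ≤ M)
    (hψ : ∀ v, |ψ v| ≤ M) (ha : |am'| ≤ C * ((m.divisors.card : ℝ) / Real.sqrt m))
    (hn : n ∈ Finset.Icc 1 N) (hm : m ∈ Finset.Icc 1 N) :
    ‖((Λ n / Real.sqrt n * am' : ℝ) : ℂ) *
      ((if n = m then 0 else (ψ (Real.log n / L) : ℂ) *
        ∫ t in A..B, E (Real.log m - Real.log n) t) +
        (ψ (-(Real.log n / L)) : ℂ) * ∫ t in A..B, E (Real.log n + Real.log m) t)‖ ≤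
      Real.log N * (C * M) * (2 * ((m.divisors.card : ℝ) * K m n) +
        4 * (1 / Real.sqrt n * ((m.divisors.card : ℝ) / Real.sqrt m))) := by
  have hn1 : 1 ≤ n := (Finset.mem_Icc.1 hn).1
  have hm1 : 1 ≤ m := (Finset.mem_Icc.1 hm).1
  have hn0 : (0 : ℝ) < n := by exact_mod_cast hn1
  have hm0 : (0 : ℝ) < m := by exact_mod_cast hm1
  have hsn : 0 < Real.sqrt n := Real.sqrt_pos.2 hn0
  have hsm : 0 < Real.sqrt m := Real.sqrt_pos.2 hm0
  have hlN : 0 ≤ Real.log N := Real.log_natCast_nonneg N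
  have hK0 := K_nonneg m n
  have hnr : n ∈ Finset.range (N + 1) := by
    have := (Finset.mem_Icc.1 hn).2
    exact Finset.mem_range.2 (by omega)
  have hLam := OD92.vonMangoldt_le_logN hnr
  have hLam0 : 0 ≤ Λ n := ArithmeticFunction.vonMangoldt_nonneg
  by_cases h0 : Λ n = 0
  · rw [h0]
    simp only [zero_div, zero_mul, Complex.ofReal_zero, norm_zero]
    positivity
  have hn2 : 2 ≤ n := two_le h0
  have hlog2 : (1 : ℝ) / 2 ≤ Real.log 2 := by linarith [Real.log_two_gt_d9]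
  have hlogn : Real.log 2 ≤ Real.log n := Real.log_le_log (by norm_num) (by exact_mod_cast hn2)
  have hlogm : 0 ≤ Real.log m := Real.log_natCast_nonneg m
  have hco : ‖((Λ n / Real.sqrt n * am' : ℝ) : ℂ)‖ ≤
      Real.log N / Real.sqrt n * (C * ((m.divisors.card : ℝ) / Real.sqrt m)) := by
    rw [norm_real, Real.norm_eq_abs, abs_mul, abs_of_nonneg (by positivity : 0 ≤ Λ n / Real.sqrt n)]
    gcongr
  have hp2 : ‖(ψ (-(Real.log n / L)) : ℂ) * ∫ t in A..B, E (Real.log n + Real.log m) t‖ ≤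
      M * 4 := by
    rw [norm_mul, norm_real, Real.norm_eq_abs]
    have h1 := int_E_le (l := Real.log n + Real.log m) (by linarith) A B
    have h2 : 2 / |Real.log n + Real.log m| ≤ 4 := by
      rw [abs_of_pos (by linarith), div_le_iff₀ (by linarith)]
      linarith
    exact mul_le_mul (hψ _) (h1.trans h2) (norm_nonneg _) hM
  have hp1 : ‖(if n = m then 0 else (ψ (Real.log n / L) : ℂ) *
        ∫ t in A..B, E (Real.log m - Real.log n) t)‖ ≤
      M * (2 * (Real.sqrt m * Real.sqrt n * K m n)) := by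
    split_ifs with h
    · rw [norm_zero]
      positivity
    · have hne : Real.log m - Real.log n ≠ 0 := by
        intro h3
        have h4 : Real.log m = Real.log n := by linarith
        have h5 := Real.log_injOn_pos (Set.mem_Ioi.2 hm0) (Set.mem_Ioi.2 hn0) h4
        exact h (by exact_mod_cast h5.symm)
      have habs : 0 < |Real.log m - Real.log n| := abs_pos.2 hne
      rw [norm_mul, norm_real, Real.norm_eq_abs]
      have h1 := int_E_le hne A B
      have h2 : 2 / |Real.log m - Real.log n| = 2 * (Real.sqrt m * Real.sqrt n * K m n) := by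
        unfold K
        field_simp
      rw [h2] at h1
      exact mul_le_mul (hψ _) h1 (norm_nonneg _) hM
  rw [norm_mul]
  calc _ ≤ (Real.log N / Real.sqrt n * (C * ((m.divisors.card : ℝ) / Real.sqrt m))) *
        (M * (2 * (Real.sqrt m * Real.sqrt n * K m n)) + M * 4) := by
        refine mul_le_mul hco ((norm_add_le _ _).trans (add_le_add hp1 hp2)) (norm_nonneg _)
          (by positivity)
    _ = _ := by
        field_simp

/-- The sum of the errors. -/
theorem sum_pair_le (N : ℕ) : ∑ n ∈ Finset.Icc 1 N, ∑ m ∈ Finset.Icc 1 N,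
    (2 * ((m.divisors.card : ℝ) * K m n) +
        4 * (1 / Real.sqrt n * ((m.divisors.card : ℝ) / Real.sqrt m))) ≤
      12 * (N * (1 + Real.log N) ^ 5) := by
  have hlN : 0 ≤ Real.log N := Real.log_natCast_nonneg N
  have hx : (1 : ℝ) ≤ 1 + Real.log N := by linarith
  have hd : ∀ m ∈ Finset.Icc 1 N, (1 : ℝ) ≤ (m.divisors.card : ℝ) := by
    intro m hm
    have hm1 : 1 ≤ m := (Finset.mem_Icc.1 hm).1
    have : 0 < m.divisors.card := Finset.card_pos.2 ⟨1, Nat.one_mem_divisors.2 (by omega)⟩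
    exact_mod_cast this
  have hd2 : ∀ m ∈ Finset.Icc 1 N, (m.divisors.card : ℝ) ≤ (m.divisors.card : ℝ) ^ 2 := by
    intro m hm
    have := hd m hm
    nlinarith
  have s1 : ∑ n ∈ Finset.Icc 1 N, ∑ m ∈ Finset.Icc 1 N, (m.divisors.card : ℝ) * K m n ≤
      4 * (N * (1 + Real.log N) ^ 5) := by
    rw [Finset.sum_comm]
    simp_rw [← Finset.mul_sum]
    calc _ ≤ ∑ m ∈ Finset.Icc 1 N, (m.divisors.card : ℝ) ^ 2 *
            (3 * (1 + Real.log N) + N / m) := by
          refine Finset.sum_le_sum fun m hm => ?_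
          refine mul_le_mul (hd2 m hm) (row_sum hm) ?_ (by positivity)
          exact Finset.sum_nonneg fun _ _ => K_nonneg _ _
      _ = 3 * (1 + Real.log N) * (∑ m ∈ Finset.Icc 1 N, (m.divisors.card : ℝ) ^ 2) +
            N * ∑ m ∈ Finset.Icc 1 N, (m.divisors.card : ℝ) ^ 2 / m := by
          rw [Finset.mul_sum, Finset.mul_sum, ← Finset.sum_add_distrib]
          exact Finset.sum_congr rfl fun n _ => by ring
      _ ≤ 3 * (1 + Real.log N) * (N * (1 + Real.log N) ^ 4) + N * (1 + Real.log N) ^ 4 := by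
          have := dsq' N
          have := dsq N
          gcongr
      _ ≤ 4 * (N * (1 + Real.log N) ^ 5) := by
          have h0 : (0 : ℝ) ≤ N * (1 + Real.log N) ^ 4 := by positivity
          nlinarith
  have s2 : ∑ n ∈ Finset.Icc 1 N, ∑ m ∈ Finset.Icc 1 N,
      (1 / Real.sqrt n * ((m.divisors.card : ℝ) / Real.sqrt m)) ≤ N * (1 + Real.log N) ^ 5 := by
    simp_rw [← Finset.mul_sum]
    rw [← Finset.sum_mul]
    have h1 : ∑ n ∈ Finset.Icc 1 N, 1 / Real.sqrt (n : ℝ) ≤
        Real.sqrt N * (1 + Real.log N) ^ 2 := by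
      refine le_trans (Finset.sum_le_sum fun n hn => ?_) (d_half N)
      have := hd n hn
      gcongr
    have h2 := d_half N
    calc _ ≤ (Real.sqrt N * (1 + Real.log N) ^ 2) * (Real.sqrt N * (1 + Real.log N) ^ 2) := by
          gcongr
      _ = (Real.sqrt N * Real.sqrt N) * (1 + Real.log N) ^ 4 := by ring
      _ = N * (1 + Real.log N) ^ 4 := by rw [Real.mul_self_sqrt (Nat.cast_nonneg N)]
      _ ≤ N * (1 + Real.log N) ^ 5 := by
          refine mul_le_mul_of_nonneg_left ?_ (Nat.cast_nonneg N)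
          exact pow_le_pow_right₀ hx (by norm_num)
  simp_rw [Finset.sum_add_distrib, ← Finset.mul_sum] at s1 s2 ⊢
  linarith

end BtGAux

open BtGAux

open MeanBBAux (E E_continuous E_mul E_zero E_norm int_E_zero int_E_le tm tm_continuous two_le
  bump_bdd)

/-- **Module btg** (about 230 lines). The prime part of the mean of `G`.

PROOF. `BT L ψ t = -(1/L) ∑_{n ≤ T} Λ(n) n^{-1/2} (ψ(log n/L) e^{-it log n} + ψ(-log n/L) e^{it log n})`
(`⌊exp L⌋₊ = ⌊T⌋₊`), `conj (Gk t) = ∑_{n'} c_{n'} n'^{-1/2} e^{it log n'}`, `c_{n'} = gg(n') κ(log n'/L)`.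
Integrate over `[T1, T2]`: the terms `n = n'` of the first part give
`-(T2-T1)/(TL) ∑ Λ(n)/n c_n` (`ψ κ = κ` at `log n/L ≥ 0`), and `(T2-T1)/T → 1`, `PG` converges
(`PG_tendsto`). In the others `n ≤ N := ⌊T^{δ'}⌋`, `n' ≤ N`, `δ' = max(δ, 1-e) < 1`, `|Λ(n)| ≤ log N`,
`|ψ| ≤ M`, `|c_{n'}| ≤ C d(n')` (`gg_le`), and they are at most `(C/(TL)) ∑ Λ(n) d(n') (n n')^{-1/2}
2/|log n ∓ log n'|` (`Mo` MeanBB `int_E_le`); for the minus sign `n ≠ n'` and
`1/(√n√n'|log n - log n'|) ≤ 1/|n-n'| + 1/min(n,n')` (`Mo.inv_kernel_le`); for the plus sign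
`log n + log n' ≥ log 2` as `n ≥ 2` (`Λ(1) = 0`). Sum over `n ≤ N` first:
`∑_{n} (1/|n-n'| + 1/n + 1/n') ≤ 3 H_N + N/n'`, so the total is at most
`(C/T) (H_N ∑ d(n') + N ∑ d(n')/n') ≤ (C/T) N (1+log N)^6 → 0` (`d ≤ d²`, `dsq`, `dsq'`); for the plus
sign `(C/T) log N · 2√N · √N (1+log N)² → 0` (`d_half`). -/
theorem BT_G {h κ ψ : ℝ → ℝ} {d e δ : ℝ} (hh : Hok h) (hd : 0 < d)
    (he : 0 < e) (hde : 2 * d + 2 * e < 1) (hκ : Step (1 - 2 * e) (1 - e) κ) (hδ : 0 ≤ δ)
    (hδ1 : δ < 1) (hψ : Bump δ (cf ψ)) (hψ1 : ∀ x, 0 ≤ x → x ≤ 1 - e → ψ x = 1) :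
    Tendsto (fun T : ℝ => (1 / (T : ℂ)) * (∫ t in (T1 T)..(T2 T),
      BT (Real.log T) (cf ψ) t * conj (Gk h κ d T t)) + (PG h κ d T : ℂ)) atTop (𝓝 0) := by
  obtain ⟨M, hM0, hMc⟩ := bump_bdd hψ
  have hM : ∀ v, |ψ v| ≤ M := fun v => by
    have := hMc v
    unfold cf at this
    rwa [norm_real, Real.norm_eq_abs] at this
  obtain ⟨C, hC, hgg⟩ := gg_le hh hd
  set b : ℝ := max ((1 + δ) / 2) (1 - e) with hbdef
  have hb1 : b < 1 := max_lt (by linarith) (by linarith)
  have hb0 : 0 < b := lt_of_lt_of_le (by linarith) (le_max_left _ _)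
  have hbδ : δ ≤ b := le_trans (by linarith) (le_max_left _ _)
  have hbe : 1 - e ≤ b := le_max_right _ _
  have hPG := PG_tendsto hh hd he hde hκ
  have l1 : Tendsto (fun T : ℝ => |PG h κ d T * (1 - (T2 T - T1 T) / T)|) atTop (𝓝 0) := by
    have h1 : Tendsto (fun T : ℝ => 1 - (T2 T - T1 T) / T) atTop (𝓝 (1 - 1)) :=
      tendsto_const_nhds.sub len_tendsto
    have h2 := (hPG.mul h1).abs
    rw [sub_self, mul_zero, abs_zero] at h2
    exact h2
  have l2 : Tendsto (fun T : ℝ => (12 * (C * M)) * ((1 + Real.log T) ^ 5 / T ^ (1 - b))) atTop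
      (𝓝 0) := by
    have := (tendsto_log_pow 5 (show 0 < 1 - b by linarith)).const_mul (12 * (C * M))
    rwa [mul_zero] at this
  have l3 := l1.add l2
  rw [add_zero] at l3
  rw [tendsto_zero_iff_norm_tendsto_zero]
  refine squeeze_zero' (Filter.Eventually.of_forall fun T => norm_nonneg _) ?_ l3
  filter_upwards [hgg, eventually_ge_atTop 3] with T hgT h3
  have hT0 : 0 < T := by linarith
  have hT1 : 1 < T := by linarith
  have hL : 1 ≤ Real.log T := by
    rw [Real.le_log_iff_exp_le hT0]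
    linarith [Real.exp_one_lt_d9]
  set L := Real.log T with hLdef
  have hL0 : 0 < L := by linarith
  have hpos : 0 < T ^ b := Real.rpow_pos_of_pos hT0 _
  set N := ⌊T ^ b⌋₊ with hN
  have hNle : (N : ℝ) ≤ T ^ b := Nat.floor_le hpos.le
  have hpT : T ^ b ≤ T := by
    calc T ^ b ≤ T ^ (1 : ℝ) := Real.rpow_le_rpow_of_exponent_le hT1.le hb1.le
      _ = T := Real.rpow_one T
  have hNT : N ≤ ⌊T⌋₊ := Nat.floor_le_floor hpT
  have hN1 : 1 ≤ N := Nat.le_floor (by
    push_cast
    exact Real.one_le_rpow hT1.le hb0.le)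
  have hNexp : N ≤ ⌊Real.exp L⌋₊ := by
    rw [hLdef, Real.exp_log hT0]
    exact hNT
  have hN2 : Real.exp (δ * L) < N + 1 := by
    refine lt_of_le_of_lt ?_ (Nat.lt_floor_add_one (T ^ b))
    rw [mul_comm, hLdef, ← Real.rpow_def_of_pos hT0]
    exact Real.rpow_le_rpow_of_exponent_le hT1.le hbδ
  have hlN0 : 0 ≤ Real.log N := Real.log_natCast_nonneg N
  have hlN : Real.log N ≤ L :=
    Real.log_le_log (by exact_mod_cast hN1) (hNle.trans hpT)
  set a : ℕ → ℝ := fun n => gg h d T n * κ (Real.log n / L) / Real.sqrt n with hadef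
  have ha : ∀ n, |a n| ≤ C * ((n.divisors.card : ℝ) / Real.sqrt n) := by
    intro n
    simp only [hadef]
    rw [abs_div, abs_mul, abs_of_nonneg (Real.sqrt_nonneg _), ← mul_div_assoc]
    refine div_le_div_of_nonneg_right ?_ (Real.sqrt_nonneg _)
    have hk : |κ (Real.log n / L)| ≤ 1 := by
      rw [abs_of_nonneg (hκ.nonneg _)]
      exact hκ.le_one _
    calc |gg h d T n| * |κ (Real.log n / L)| ≤ (C * n.divisors.card) * 1 := by
          gcongr
          exact hgT n
      _ = _ := mul_one _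
  have hkz : ∀ n : ℕ, N < n → κ (Real.log n / L) = 0 := by
    intro n hn3
    have hn4 : T ^ b < n := Nat.lt_of_floor_lt hn3
    refine hκ.zero _ ?_
    rw [le_div_iff₀ hL0, hLdef]
    have h5 : b * Real.log T ≤ Real.log n := by
      rw [← Real.log_rpow hT0]
      exact Real.log_le_log hpos hn4.le
    exact (mul_le_mul_of_nonneg_right hbe hL0.le).trans h5
  have hG : ∀ t : ℝ, conj (Gk h κ d T t) = ∑ n ∈ Finset.Icc 1 N, ((a n : ℝ) : ℂ) *
      E (Real.log n) t := by
    intro t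
    have h5 : conj (Gk h κ d T t) = ∑ n ∈ Finset.Icc 1 ⌊T⌋₊, ((a n : ℝ) : ℂ) *
        E (Real.log n) t := by
      unfold Gk
      rw [map_sum]
      refine Finset.sum_congr rfl fun n hn => ?_
      have hn1 : n ≠ 0 := by
        have := (Finset.mem_Icc.1 hn).1
        omega
      rw [cpow_eq hn1, map_mul, map_mul, conj_ofReal, conj_ofReal, conj_E, neg_neg]
      simp only [hadef]
      push_cast
      ring
    rw [h5]
    symm
    refine Finset.sum_subset (Finset.Icc_subset_Icc_right hNT) fun n hn hn2 => ?_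
    have hn1 := (Finset.mem_Icc.1 hn).1
    have hn3 : N < n := by
      by_contra h6
      push Not at h6
      exact hn2 (Finset.mem_Icc.2 ⟨hn1, h6⟩)
    simp only [hadef]
    rw [hkz n hn3]
    simp
  have hBT : ∀ t : ℝ, BT L (cf ψ) t = -(1 / L : ℂ) * ∑ n ∈ Finset.Icc 1 N,
      ((Λ n / Real.sqrt n : ℝ) : ℂ) * ((ψ (Real.log n / L) : ℂ) * E (-(Real.log n)) t +
        (ψ (-(Real.log n / L)) : ℂ) * E (Real.log n) t) := by
    intro t
    rw [MeanBBAux.BT_eq hψ hL0 hNexp hN2 t]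
    congr 1
    symm
    refine Finset.sum_subset ?_ fun n hn hn2 => ?_
    · intro n hn
      have := (Finset.mem_Icc.1 hn).2
      exact Finset.mem_range.2 (by omega)
    · have hn0 : n = 0 := by
        rw [Finset.mem_range] at hn
        rw [Finset.mem_Icc] at hn2
        omega
      subst hn0
      simp
  have hpt : ∀ t : ℝ, BT L (cf ψ) t * conj (Gk h κ d T t) =
      -(1 / L : ℂ) * ∑ n ∈ Finset.Icc 1 N, ∑ m ∈ Finset.Icc 1 N,
        ((Λ n / Real.sqrt n * a m : ℝ) : ℂ) * ((ψ (Real.log n / L) : ℂ) *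
          E (Real.log m - Real.log n) t + (ψ (-(Real.log n / L)) : ℂ) *
          E (Real.log n + Real.log m) t) := by
    intro t
    rw [hBT, hG, mul_assoc, Finset.sum_mul_sum]
    congr 1
    refine Finset.sum_congr rfl fun n _ => Finset.sum_congr rfl fun m _ => ?_
    rw [show Real.log m - Real.log n = -(Real.log n) + Real.log m by ring, ← E_mul, ← E_mul]
    push_cast
    ring
  have hint : ∀ n m : ℕ, IntervalIntegrable (fun t : ℝ => ((Λ n / Real.sqrt n * a m : ℝ) : ℂ) *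
      ((ψ (Real.log n / L) : ℂ) * E (Real.log m - Real.log n) t +
        (ψ (-(Real.log n / L)) : ℂ) * E (Real.log n + Real.log m) t)) volume (T1 T) (T2 T) :=
    fun n m => (continuous_const.mul ((continuous_const.mul (E_continuous _)).add
      (continuous_const.mul (E_continuous _)))).intervalIntegrable _ _
  have e1 : ∫ t in (T1 T)..(T2 T), BT L (cf ψ) t * conj (Gk h κ d T t) =
      -(1 / L : ℂ) * ∑ n ∈ Finset.Icc 1 N, ∑ m ∈ Finset.Icc 1 N,
        ((Λ n / Real.sqrt n * a m : ℝ) : ℂ) * ((ψ (Real.log n / L) : ℂ) *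
          (∫ t in (T1 T)..(T2 T), E (Real.log m - Real.log n) t) +
          (ψ (-(Real.log n / L)) : ℂ) *
          ∫ t in (T1 T)..(T2 T), E (Real.log n + Real.log m) t) := by
    rw [intervalIntegral.integral_congr fun t _ => hpt t, intervalIntegral.integral_const_mul,
      intervalIntegral.integral_finsetSum]
    · congr 1
      refine Finset.sum_congr rfl fun n _ => ?_
      rw [intervalIntegral.integral_finsetSum fun m _ => hint n m]
      refine Finset.sum_congr rfl fun m _ => ?_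
      have i1 : IntervalIntegrable (fun t : ℝ => (ψ (Real.log n / L) : ℂ) *
          E (Real.log m - Real.log n) t) volume (T1 T) (T2 T) :=
        (continuous_const.mul (E_continuous _)).intervalIntegrable _ _
      have i2 : IntervalIntegrable (fun t : ℝ => (ψ (-(Real.log n / L)) : ℂ) *
          E (Real.log n + Real.log m) t) volume (T1 T) (T2 T) :=
        (continuous_const.mul (E_continuous _)).intervalIntegrable _ _
      rw [intervalIntegral.integral_const_mul, intervalIntegral.integral_add i1 i2,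
        intervalIntegral.integral_const_mul, intervalIntegral.integral_const_mul]
    · intro n _
      exact (continuous_finsetSum _ fun m _ => (continuous_const.mul ((continuous_const.mul
        (E_continuous _)).add (continuous_const.mul (E_continuous _))))).intervalIntegrable _ _
  set R : ℂ := ∑ n ∈ Finset.Icc 1 N, ∑ m ∈ Finset.Icc 1 N,
    ((Λ n / Real.sqrt n * a m : ℝ) : ℂ) *
      ((if n = m then 0 else (ψ (Real.log n / L) : ℂ) *
        ∫ t in (T1 T)..(T2 T), E (Real.log m - Real.log n) t) +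
        (ψ (-(Real.log n / L)) : ℂ) * ∫ t in (T1 T)..(T2 T), E (Real.log n + Real.log m) t)
    with hR
  have hRb : ‖R‖ ≤ L * ((12 * (C * M)) * (T ^ b * (1 + L) ^ 5)) := by
    calc ‖R‖ ≤ ∑ n ∈ Finset.Icc 1 N, ∑ m ∈ Finset.Icc 1 N,
          Real.log N * (C * M) * (2 * ((m.divisors.card : ℝ) * BtGAux.K m n) +
            4 * (1 / Real.sqrt n * ((m.divisors.card : ℝ) / Real.sqrt m))) := by
          refine (norm_sum_le _ _).trans (Finset.sum_le_sum fun n hn => ?_)
          refine (norm_sum_le _ _).trans (Finset.sum_le_sum fun m hm => ?_)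
          exact pair_le hC.le hM0.le hM (ha m) hn hm
      _ = Real.log N * (C * M) * ∑ n ∈ Finset.Icc 1 N, ∑ m ∈ Finset.Icc 1 N,
          (2 * ((m.divisors.card : ℝ) * BtGAux.K m n) +
            4 * (1 / Real.sqrt n * ((m.divisors.card : ℝ) / Real.sqrt m))) := by
          simp_rw [Finset.mul_sum]
      _ ≤ Real.log N * (C * M) * (12 * (N * (1 + Real.log N) ^ 5)) := by
          have := sum_pair_le N
          gcongr
      _ ≤ L * (C * M) * (12 * (T ^ b * (1 + L) ^ 5)) := by gcongr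
      _ = _ := by ring
  have hdiag : ∑ n ∈ Finset.Icc 1 N, ((Λ n / Real.sqrt n * a n : ℝ) : ℂ) *
      (ψ (Real.log n / L) : ℂ) = ((L * PG h κ d T : ℝ) : ℂ) := by
    have h5 : L * PG h κ d T = ∑ n ∈ Finset.Icc 1 ⌊T⌋₊,
        Λ n / n * (gg h d T n * κ (Real.log n / L)) := by
      unfold PG
      rw [← mul_assoc, mul_one_div, div_self hL0.ne', one_mul]
    rw [h5, ← Finset.sum_subset (Finset.Icc_subset_Icc_right hNT), Complex.ofReal_sum]
    · refine Finset.sum_congr rfl fun n hn => ?_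
      have hn1 : 1 ≤ n := (Finset.mem_Icc.1 hn).1
      have hn0 : (0 : ℝ) < n := by exact_mod_cast hn1
      have hsn : 0 < Real.sqrt n := Real.sqrt_pos.2 hn0
      have h6 : κ (Real.log n / L) * ψ (Real.log n / L) = κ (Real.log n / L) := by
        by_cases h7 : Real.log n / L ≤ 1 - e
        · rw [hψ1 _ (div_nonneg (Real.log_natCast_nonneg n) hL0.le) h7, mul_one]
        · push Not at h7
          rw [hκ.zero _ h7.le, zero_mul]
      rw [← Complex.ofReal_mul]
      congr 1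
      simp only [hadef]
      calc Λ n / Real.sqrt n * (gg h d T n * κ (Real.log n / L) / Real.sqrt n) *
            ψ (Real.log n / L) = Λ n / (Real.sqrt n * Real.sqrt n) * (gg h d T n *
              (κ (Real.log n / L) * ψ (Real.log n / L))) := by
            field_simp
        _ = _ := by rw [h6, Real.mul_self_sqrt hn0.le]
    · intro n hn hn2
      have hn1 := (Finset.mem_Icc.1 hn).1
      have hn3 : N < n := by
        by_contra h6
        push Not at h6
        exact hn2 (Finset.mem_Icc.2 ⟨hn1, h6⟩)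
      rw [hkz n hn3]
      simp
  have e2 : ∫ t in (T1 T)..(T2 T), BT L (cf ψ) t * conj (Gk h κ d T t) =
      -(1 / L : ℂ) * (((L * PG h κ d T : ℝ) : ℂ) * ((T2 T - T1 T : ℝ) : ℂ) + R) := by
    rw [e1, ← hdiag, hR, Finset.sum_mul, ← Finset.sum_add_distrib]
    congr 1
    refine Finset.sum_congr rfl fun n hn => ?_
    have h5 : ((Λ n / Real.sqrt n * a n : ℝ) : ℂ) * (ψ (Real.log n / L) : ℂ) *
        ((T2 T - T1 T : ℝ) : ℂ) = ∑ m ∈ Finset.Icc 1 N, (if n = m then
          ((Λ n / Real.sqrt n * a m : ℝ) : ℂ) * ((ψ (Real.log n / L) : ℂ) *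
          (∫ t in (T1 T)..(T2 T), E (Real.log m - Real.log n) t)) else 0) := by
      rw [Finset.sum_ite_eq, if_pos hn, sub_self, int_E_zero, mul_assoc]
    rw [h5, ← Finset.sum_add_distrib]
    refine Finset.sum_congr rfl fun m _ => ?_
    split_ifs with h6
    · ring
    · ring
  rw [e2]
  have hLc : (L : ℂ) ≠ 0 := by exact_mod_cast hL0.ne'
  have hTc : (T : ℂ) ≠ 0 := by exact_mod_cast hT0.ne'
  have e3 : (1 / (T : ℂ)) * (-(1 / L : ℂ) * (((L * PG h κ d T : ℝ) : ℂ) *
      ((T2 T - T1 T : ℝ) : ℂ) + R)) + (PG h κ d T : ℂ) =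
      ((PG h κ d T * (1 - (T2 T - T1 T) / T) : ℝ) : ℂ) + (-(1 / ((T * L : ℝ) : ℂ))) * R := by
    push_cast
    field_simp
    ring
  rw [e3]
  refine (norm_add_le _ _).trans (add_le_add ?_ ?_)
  · rw [norm_real, Real.norm_eq_abs]
  · rw [norm_mul, norm_neg, norm_div, norm_one, norm_real, Real.norm_eq_abs,
      abs_of_pos (by positivity : 0 < T * L)]
    calc 1 / (T * L) * ‖R‖ ≤ 1 / (T * L) * (L * ((12 * (C * M)) * (T ^ b * (1 + L) ^ 5))) := by
          gcongr
      _ = (12 * (C * M)) * ((1 + L) ^ 5 / T ^ (1 - b)) := by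
          have h5 : T ^ (1 - b) * T ^ b = T := by
            rw [← Real.rpow_add hT0, sub_add_cancel, Real.rpow_one]
          have h6 : 0 < T ^ (1 - b) := Real.rpow_pos_of_pos hT0 _
          have h7 : T ^ b / T = 1 / T ^ (1 - b) := by
            rw [div_eq_div_iff hT0.ne' h6.ne', one_mul, mul_comm, h5]
          calc _ = (12 * (C * M)) * ((1 + L) ^ 5 * (T ^ b / T)) := by
                field_simp
            _ = _ := by rw [h7, mul_one_div]

end Pool.Agent.MP_67227b_nt.Fb
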