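import Pool.Agent.MP_67227b_nt.Fb.FbChiR

set_option autoImplicit false

open Filter Topology Set MeasureTheory Complex
open scoped Real ContDiff ArithmeticFunction ArithmeticFunction.Moebius ComplexConjugate

namespace Pool.Agent.MP_67227b_nt.Fb

open Pool.Agent.Lib.ZetaCount_helper33 Pool.Agent.MP_67227b_nt Pool.Agent.MP_67227b_nt.Mo

/-- On the critical line `chi` has modulus one. -/
theorem chi_norm (t : ℝ) : ‖chi (1 / 2 + (t : ℂ) * I)‖ = 1 := chi_norm_half t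

theorem chi_cont : Continuous fun t : ℝ => chi (1 / 2 + (t : ℂ) * I) := continuous_chi_half

/-- The linear approximation of the phase of `chi`. -/
theorem chi_lin : ∃ C : ℝ, 0 < C ∧ ∀ t γ : ℝ, 20 ≤ t → 20 ≤ γ →
    ‖chi (1 / 2 + (t : ℂ) * I) - chi (1 / 2 + (γ : ℂ) * I) *
      Complex.exp (-(I * ((t - γ : ℝ) : ℂ) * ((Real.log (γ / (2 * π)) : ℝ) : ℂ)))‖ ≤
      C * (1 + |t - γ| ^ 2) / γ := by
  obtain ⟨C, hC, h⟩ := chi_lin0
  refine ⟨C, hC, fun t γ _ hγ => ?_⟩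
  have h1 := h γ t hγ
  have e : -(((t - γ) * Real.log (γ / (2 * π)) : ℝ) : ℂ) * I =
      -(I * ((t - γ : ℝ) : ℂ) * ((Real.log (γ / (2 * π)) : ℝ) : ℂ)) := by
    rw [Complex.ofReal_mul]
    ring
  rw [e] at h1
  rwa [sq_abs]

end Pool.Agent.MP_67227b_nt.Fb
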