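import Pool.Agent.MP_67227b_nt.Fb.FbDig
import Pool.Agent.MP_67227b_nt.Fb.FbChiB

set_option autoImplicit false

open Filter Topology Set MeasureTheory Complex
open scoped Real ContDiff ArithmeticFunction ArithmeticFunction.Moebius ComplexConjugate

namespace Pool.Agent.MP_67227b_nt.Fb

open Pool.Agent.Lib.ZetaCount_helper33 Pool.Agent.MP_67227b_nt Pool.Agent.MP_67227b_nt.Mo

private theorem chil_deriv {s : ℂ} (hs : s.re < 1) (hs' : s.im ≠ 0) :
    logDeriv chi s = Complex.log (2 * π) - Complex.digamma (1 - s) +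
      (π / 2 : ℂ) * Complex.tan (π * (1 - s) / 2) := by
  have h2pi : (2 * π : ℂ) ≠ 0 := by
    have := Real.pi_pos.ne'
    simp [this]
  have hG : Complex.Gamma (1 - s) ≠ 0 := by
    refine Complex.Gamma_ne_zero_of_re_pos ?_
    simp only [Complex.sub_re, Complex.one_re]
    linarith
  have hne := chi_ne_zero hs hs'
  have hcos : Complex.cos (π * (1 - s) / 2) ≠ 0 := by
    intro h
    refine hne ?_
    unfold chi
    rw [h, mul_zero]
  have hpow : (2 * π : ℂ) ^ (-(1 - s)) ≠ 0 := by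
    rw [Complex.cpow_def_of_ne_zero h2pi]
    exact Complex.exp_ne_zero _
  have d0 : HasDerivAt (fun s : ℂ => 1 - s) (-1) s := by
    simpa using (hasDerivAt_id s).const_sub 1
  have d1 : HasDerivAt (fun s : ℂ => (2 * π : ℂ) ^ (-(1 - s)))
      ((2 * π : ℂ) ^ (-(1 - s)) * Complex.log (2 * π) * (-(-1))) s :=
    HasDerivAt.const_cpow d0.neg (Or.inl h2pi)
  have hGd : DifferentiableAt ℂ Complex.Gamma (1 - s) := by
    refine Complex.differentiableAt_Gamma _ fun m hm => ?_
    have h1 := congrArg Complex.re hm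
    simp only [Complex.sub_re, Complex.one_re, Complex.neg_re, Complex.natCast_re] at h1
    have h2 : (0 : ℝ) ≤ m := Nat.cast_nonneg m
    linarith
  have d2 : HasDerivAt (fun s : ℂ => Complex.Gamma (1 - s))
      (deriv Complex.Gamma (1 - s) * (-1)) s := hGd.hasDerivAt.comp s d0
  have d3 : HasDerivAt (fun s : ℂ => Complex.cos (π * (1 - s) / 2))
      (-Complex.sin (π * (1 - s) / 2) * ((π * (-1)) / 2)) s := by
    have h := (d0.const_mul (π : ℂ)).div_const 2
    exact (Complex.hasDerivAt_cos _).comp s h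
  have d4 := ((d1.const_mul (2 : ℂ)).mul d2).mul d3
  have d5 : HasDerivAt chi (((2 * ((2 * π : ℂ) ^ (-(1 - s)) * Complex.log (2 * π) * (-(-1)))) *
      Complex.Gamma (1 - s) + 2 * (2 * π : ℂ) ^ (-(1 - s)) *
        (deriv Complex.Gamma (1 - s) * (-1))) * Complex.cos (π * (1 - s) / 2) +
      2 * (2 * π : ℂ) ^ (-(1 - s)) * Complex.Gamma (1 - s) *
        (-Complex.sin (π * (1 - s) / 2) * ((π * (-1)) / 2))) s := d4
  rw [logDeriv_apply, d5.deriv]
  unfold chi
  rw [Complex.digamma_def, logDeriv_apply, Complex.tan_eq_sin_div_cos]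
  generalize Complex.cos (π * (1 - s) / 2) = c at *
  generalize Complex.sin (π * (1 - s) / 2) = si at *
  generalize Complex.Gamma (1 - s) = g at *
  generalize deriv Complex.Gamma (1 - s) = g' at *
  generalize (2 * π : ℂ) ^ (-(1 - s)) = a at *
  field_simp
  ring

private theorem chil_tan {w : ℂ} {y : ℝ} (hy : 0 < y) (hw : w.im = -y) :
    ‖Complex.tan w + I‖ ≤ 1 / y := by
  have h1 : Complex.sin w + I * Complex.cos w = I * Complex.exp (-w * I) := by
    rw [Complex.sin, Complex.cos]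
    ring
  have hn1 : ‖Complex.exp (-w * I)‖ = Real.exp (-y) := by
    rw [Complex.norm_exp]
    congr 1
    simp [hw]
  have hn2 : ‖Complex.exp (w * I)‖ = Real.exp y := by
    rw [Complex.norm_exp]
    congr 1
    simp [hw]
  have hc : (Real.exp y - Real.exp (-y)) / 2 ≤ ‖Complex.cos w‖ := by
    rw [Complex.cos, norm_div]
    have h2 : ‖(2 : ℂ)‖ = 2 := by simp
    rw [h2]
    refine div_le_div_of_nonneg_right ?_ (by norm_num)
    rw [← hn1, ← hn2]
    have h3 := norm_sub_norm_le (Complex.exp (w * I)) (-Complex.exp (-w * I))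
    rwa [norm_neg, sub_neg_eq_add] at h3
  have hpos : 0 < (Real.exp y - Real.exp (-y)) / 2 := by
    have := Real.exp_lt_exp.2 (by linarith : -y < y)
    linarith
  have hcn : 0 < ‖Complex.cos w‖ := lt_of_lt_of_le hpos hc
  have hc0 : Complex.cos w ≠ 0 := norm_pos_iff.1 hcn
  have h4 : Complex.tan w + I = I * Complex.exp (-w * I) / Complex.cos w := by
    rw [Complex.tan_eq_sin_div_cos, ← h1]
    field_simp
  rw [h4, norm_div, norm_mul, Complex.norm_I, one_mul, hn1, div_le_div_iff₀ hcn hy, one_mul]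
  refine le_trans ?_ hc
  have h5 : y * 2 ≤ Real.exp (2 * y) - 1 := by
    have := Real.add_one_le_exp (2 * y)
    linarith
  have h6 : Real.exp y = Real.exp (-y) * Real.exp (2 * y) := by
    rw [← Real.exp_add]
    congr 1
    ring
  rw [h6]
  have h7 := Real.exp_pos (-y)
  nlinarith

private theorem chil_log {z : ℂ} {t : ℝ} (ht : 0 < t) (h0 : 0 ≤ z.re) (h1 : z.re ≤ 3 / 2)
    (hz : z.im = -t) :
    ‖(Real.log t : ℂ) - π / 2 * I - Complex.log z‖ ≤ 3 / 2 / t := by
  have hI : Complex.log ((t : ℂ) * (-I)) = (Real.log t : ℂ) - π / 2 * I := by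
    rw [Complex.log_ofReal_mul ht (neg_ne_zero.2 Complex.I_ne_zero), Complex.log_neg_I]
    ring
  rw [← hI]
  have him : ∀ w : ℂ, w.im ≤ -t → w ∈ Complex.slitPlane := by
    intro w hw
    right
    intro h
    rw [h] at hw
    linarith
  have hd : ∀ w ∈ {w : ℂ | w.im ≤ -t}, DifferentiableAt ℂ Complex.log w := fun w hw =>
    (Complex.hasDerivAt_log (him w hw)).differentiableAt
  have hb : ∀ w ∈ {w : ℂ | w.im ≤ -t}, ‖deriv Complex.log w‖ ≤ 1 / t := by
    intro w hw
    rw [(Complex.hasDerivAt_log (him w hw)).deriv, norm_inv, ← one_div]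
    refine one_div_le_one_div_of_le ht ?_
    have h2 : t ≤ |w.im| := by
      have h3 : w.im ≤ -t := hw
      rw [abs_of_nonpos (by linarith)]
      linarith
    exact h2.trans (Complex.abs_im_le_norm w)
  have h2 := Convex.norm_image_sub_le_of_norm_deriv_le hd hb (convex_halfSpace_im_le (-t))
    (show z ∈ {w : ℂ | w.im ≤ -t} from hz.le)
    (show (t : ℂ) * (-I) ∈ {w : ℂ | w.im ≤ -t} by simp)
  refine h2.trans ?_
  have h3 : (t : ℂ) * (-I) - z = ((-z.re : ℝ) : ℂ) := by
    apply Complex.ext <;> simp [hz]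
  rw [h3, Complex.norm_real, Real.norm_eq_abs, abs_neg, abs_of_nonneg h0]
  calc 1 / t * z.re ≤ 1 / t * (3 / 2) := mul_le_mul_of_nonneg_left h1 (by positivity)
    _ = 3 / 2 / t := by ring

/-- **Module chil** (about 130 lines). `χ'/χ (s) = - log(Im s/2π) + O(1/Im s)` for
`-1/2 ≤ Re s ≤ 1/2`, `Im s ≥ 2`.

PROOF. Put `z = 1 - s`, `1/2 ≤ Re z ≤ 3/2`, `Im z = -t`, `t = Im s`. Differentiating the four factors
of `chi` (as functions of `s`; all are differentiable and nonzero here):
`logDeriv chi s = log (2π) - digamma z + (π/2) tan(πz/2)`.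
(a) `tan(w) + i` for `Im w = -y < 0`: `tan w = sin w/cos w` and `tan w + i = (sin w + i cos w)/cos w`,
`sin w + i cos w = i e^{-iw}`, of norm `e^{Im w} = e^{-y}`, while `‖cos w‖ ≥ sinh y ≥ (e^y - 1)/2`;
so with `y = πt/2 ≥ 3`: `‖tan w + i‖ ≤ 4 e^{-2y} ≤ 4/t` (only `C/t` is needed).
(b) `digamma z = log z + O(1/t)` by `digamma_log`.
(c) `log z = log t - iπ/2 + O(1/t)`: `z = -it (1 + i Re z/t)`. Either use
`Complex.log z = log‖z‖ + i arg z` with `0 ≤ log ‖z‖ - log t = (1/2) log(1 + (Re z/t)²) ≤ 2/t²` and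
`arg z` (`z` in the fourth quadrant: `arg z = arcsin(Im z/‖z‖)`), or the mean value inequality for
`Complex.log` on the segment from `-it` to `z` (all its points have `Im = -t < 0`, so they lie in
the slit plane, the derivative is `1/w` with `‖w‖ ≥ t`, the length is `Re z ≤ 3/2`): this gives
`‖log z - log(-it)‖ ≤ 3/(2t)`, and `log(-it) = log t - iπ/2` (`Complex.log_ofReal_mul`,
`Complex.log_neg_I`).
Sum: `log 2π - log t + iπ/2 + (π/2)(-i) + O(1/t) = -log(t/2π) + O(1/t)`. -/
theorem chi_logDeriv : ∃ C : ℝ, 0 < C ∧ ∀ s : ℂ, -(1 / 2) ≤ s.re → s.re ≤ 1 / 2 → 2 ≤ s.im →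
    ‖logDeriv chi s + (Real.log (s.im / (2 * π)) : ℂ)‖ ≤ C / s.im := by
  obtain ⟨C, hC, hdig⟩ := digamma_log
  refine ⟨C + 3, by linarith, fun s h1 h2 h3 => ?_⟩
  have ht : 0 < s.im := by linarith
  have hpi := Real.pi_pos
  have hre : (1 - s).re = 1 - s.re := by simp
  have him : (1 - s).im = -s.im := by simp
  have e1 := hdig (1 - s) (by rw [hre]; linarith) (by rw [him, abs_neg, abs_of_pos ht]; linarith)
  rw [him, abs_neg, abs_of_pos ht] at e1
  have e2 := chil_log (z := 1 - s) ht (by rw [hre]; linarith) (by rw [hre]; linarith) him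
  have e3 := chil_tan (w := π * (1 - s) / 2) (y := π * s.im / 2) (by positivity) (by
    have h4 : (π * (1 - s) / 2 : ℂ) = ((π / 2 : ℝ) : ℂ) * (1 - s) := by push_cast; ring
    rw [h4, Complex.im_ofReal_mul, him]
    ring)
  have e4 : logDeriv chi s + (Real.log (s.im / (2 * π)) : ℂ) =
      ((Real.log s.im : ℂ) - π / 2 * I - Complex.log (1 - s)) -
        (Complex.digamma (1 - s) - Complex.log (1 - s)) +
        (π / 2 : ℂ) * (Complex.tan (π * (1 - s) / 2) + I) := by
    have h5 : (Complex.log (2 * π : ℂ)) = (Real.log (2 * π) : ℂ) := by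
      rw [Complex.ofReal_log (by positivity)]
      push_cast
      rfl
    rw [chil_deriv (by linarith) ht.ne', h5, Real.log_div ht.ne' (by positivity)]
    push_cast
    ring
  rw [e4]
  refine (norm_add_le _ _).trans ?_
  have e5 : ‖(π / 2 : ℂ) * (Complex.tan (π * (1 - s) / 2) + I)‖ ≤ 1 / s.im := by
    rw [norm_mul]
    have h6 : ‖(π / 2 : ℂ)‖ = π / 2 := by
      have h7 : (π / 2 : ℂ) = ((π / 2 : ℝ) : ℂ) := by push_cast; ring
      rw [h7, Complex.norm_real, Real.norm_eq_abs, abs_of_pos (by positivity)]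
    rw [h6]
    calc π / 2 * ‖Complex.tan (π * (1 - s) / 2) + I‖ ≤ π / 2 * (1 / (π * s.im / 2)) :=
          mul_le_mul_of_nonneg_left e3 (by positivity)
      _ = 1 / s.im := by field_simp
  have e6 := norm_sub_le ((Real.log s.im : ℂ) - π / 2 * I - Complex.log (1 - s))
    (Complex.digamma (1 - s) - Complex.log (1 - s))
  have e7 : (C + 3) / s.im = C / s.im + 3 / 2 / s.im + 1 / s.im + 1 / 2 / s.im := by ring
  have e8 : 0 ≤ 1 / 2 / s.im := by positivity
  rw [e7]
  linarith

end Pool.Agent.MP_67227b_nt.Fb
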