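import Pool.Agent.MP_67227b_nt.Fb.FbDefs

set_option autoImplicit false

open Filter Topology Set MeasureTheory Complex
open scoped Real ContDiff ArithmeticFunction ArithmeticFunction.Moebius ComplexConjugate

namespace Pool.Agent.MP_67227b_nt.Fb

open Pool.Agent.Lib.ZetaCount_helper33 Pool.Agent.MP_67227b_nt Pool.Agent.MP_67227b_nt.Mo

/-- Module CHO (a). Smooth steps: `κ x = 1 - smoothTransition((x-x₀)/(x₁-x₀))`. -/
theorem exists_step {x₀ x₁ : ℝ} (h : x₀ < x₁) : ∃ κ : ℝ → ℝ, Step x₀ x₁ κ := by
  have h0 : 0 < x₁ - x₀ := by linarith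
  refine ⟨fun x => 1 - Real.smoothTransition ((x - x₀) / (x₁ - x₀)), ?_, ?_, ?_, ?_, ?_⟩
  · exact contDiff_const.sub (Real.smoothTransition.contDiff.comp
      ((contDiff_id.sub contDiff_const).div_const _))
  · intro x hx
    rw [Real.smoothTransition.zero_of_nonpos (div_nonpos_of_nonpos_of_nonneg (by linarith) h0.le),
      sub_zero]
  · intro x hx
    rw [Real.smoothTransition.one_of_one_le ((one_le_div h0).2 (by linarith)), sub_self]
  · intro x
    linarith [Real.smoothTransition.le_one ((x - x₀) / (x₁ - x₀))]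
  · intro x
    linarith [Real.smoothTransition.nonneg ((x - x₀) / (x₁ - x₀))]

/-- Module CHO (b). A smooth minorant of a positive continuous function.
PROOF. Put `η = log(1+ε)/4 > 0`. By the Weierstrass theorem (`exists_polynomial_near_of_continuousOn`
on `Icc 0 1`) there is a polynomial `p` with `|p x - (log(v x)/2 - η)| < η` on `[0,1]`; put
`φ = exp ∘ p`. Then `φ² < exp(log v) = v` and `φ² > exp(log v - 4η) = v/(1+ε)`. -/
theorem exists_phi {v : ℝ → ℝ} (hv : Hok v) {ε : ℝ} (hε : 0 < ε) :
    ∃ φ : ℝ → ℝ, ContDiff ℝ ∞ φ ∧ (∀ x, 0 < φ x) ∧ ∀ x ∈ Icc (0 : ℝ) 1,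
      φ x ^ 2 ≤ v x ∧ 1 / φ x ^ 2 ≤ (1 + ε) / v x := by
  have hη : 0 < Real.log (1 + ε) / 4 := by
    have := Real.log_pos (show 1 < 1 + ε by linarith)
    positivity
  set η := Real.log (1 + ε) / 4 with hηd
  have hcont : ContinuousOn (fun x => Real.log (v x) / 2 - η) (Icc 0 1) := by
    have : Continuous fun x => Real.log (v x) := hv.cont.log fun x => (hv.pos x).ne'
    exact ((this.div_const 2).sub continuous_const).continuousOn
  obtain ⟨p, hp⟩ := exists_polynomial_near_of_continuousOn 0 1 _ hcont η hη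
  refine ⟨fun x => Real.exp (p.eval x), ?_, fun x => Real.exp_pos _, ?_⟩
  · refine Real.contDiff_exp.comp ?_
    have h := p.contDiff_aeval (𝕜 := ℝ) (n := ∞)
    simpa [Polynomial.aeval_def, Polynomial.eval₂_eq_eval_map] using h
  · intro x hx
    have h1 := abs_lt.1 (hp x hx)
    have hvx := hv.pos x
    have h2 : Real.exp (p.eval x) ^ 2 = Real.exp (2 * p.eval x) := by
      rw [← Real.exp_nat_mul]; norm_num
    constructor
    · rw [h2]
      calc Real.exp (2 * p.eval x) ≤ Real.exp (Real.log (v x)) :=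
            Real.exp_le_exp.2 (by linarith [h1.2])
        _ = v x := Real.exp_log hvx
    · rw [h2, div_le_div_iff₀ (Real.exp_pos _) hvx, one_mul]
      calc v x = Real.exp (Real.log (v x)) := (Real.exp_log hvx).symm
        _ ≤ Real.exp (Real.log (1 + ε) + 2 * p.eval x) := by
            apply Real.exp_le_exp.2
            linarith [h1.1]
        _ = (1 + ε) * Real.exp (2 * p.eval x) := by
            rw [Real.exp_add, Real.exp_log (by linarith)]

/-- The optimal weight `h(y) = y/V(y)`, `V(y) = ∫_0^y 1/v`, continued by `v(0)` to `y ≤ 0`. -/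
noncomputable def hopt (v : ℝ → ℝ) (y : ℝ) : ℝ := if y ≤ 0 then v 0 else
  y / ∫ x in (0 : ℝ)..y, 1 / v x

/-- Module CHO (c). PROOF. For `y > 0`, `V(y) > 0` is differentiable with derivative `1/v(y)`, so `h`
is continuous and positive there; `V(y)/y → 1/v(0)` as `y → 0+` (the derivative of `V` at `0`), so
`h` is continuous at `0`. -/
theorem hopt_ok {v : ℝ → ℝ} (hv : Hok v) : Hok (hopt v) := by
  have hc : Continuous fun x => 1 / v x := by
    simp only [one_div]
    exact hv.cont.inv₀ fun x => (hv.pos x).ne'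
  have hp : ∀ x, 0 < 1 / v x := fun x => one_div_pos.2 (hv.pos x)
  set W : ℝ → ℝ := fun y => ∫ t in (0 : ℝ)..1, 1 / v (y * t) with hW
  have hWc : Continuous W := by
    rw [hW]
    apply intervalIntegral.continuous_parametric_intervalIntegral_of_continuous'
    exact hc.comp (by fun_prop)
  have hWp : ∀ y, 0 < W y := by
    intro y
    apply intervalIntegral.intervalIntegral_pos_of_pos
    · exact (hc.comp (by fun_prop)).intervalIntegrable _ _
    · intro x; exact hp _
    · norm_num
  have hW0 : W 0 = 1 / v 0 := by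
    simp only [hW, zero_mul]
    rw [intervalIntegral.integral_const, smul_eq_mul]
    ring
  have heq : hopt v = fun y => 1 / W (max y 0) := by
    funext y
    unfold hopt
    by_cases hy : y ≤ 0
    · rw [if_pos hy, max_eq_right hy, hW0, one_div_one_div]
    · push Not at hy
      rw [if_neg (not_le.2 hy), max_eq_left hy.le]
      have h1 : W y = y⁻¹ * ∫ x in (0 : ℝ)..y, 1 / v x := by
        simp only [hW]
        rw [intervalIntegral.integral_comp_mul_left (fun x => 1 / v x) hy.ne']
        simp
      rw [h1]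
      field_simp
  rw [heq]
  refine ⟨?_, fun x => one_div_pos.2 (hWp _)⟩
  simp only [one_div]
  exact (hWc.comp (by fun_prop)).inv₀ fun x => (hWp _).ne'

end Pool.Agent.MP_67227b_nt.Fb
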