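import Pool.Agent.MP_67227b_nt.Fb.FbCho0

set_option autoImplicit false

open Filter Topology Set MeasureTheory Complex
open scoped Real ContDiff ArithmeticFunction ArithmeticFunction.Moebius ComplexConjugate

namespace Pool.Agent.MP_67227b_nt.Fb

open Pool.Agent.Lib.ZetaCount_helper33 Pool.Agent.MP_67227b_nt Pool.Agent.MP_67227b_nt.Mo

/-- Module CHO (d). The four functions of the core inequality.
GIVEN `0 < d`, `d + e₁ ≤ 1/2`, `0 < e`, `e ≤ 1/20`, `0 < e₁ ≤ 1/10` and `φ` smooth positive: let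
`κ : Step (1-2e) (1-e)`, `σ : Step (1+e₁/2) (1+e₁)`, `b : Step (1+d) (1+d+e₁)`,
`s₃ : Step 1 (1+e₁/2)`, `s₄ : Step (3/4) (4/5)`, `s₅ : Step (6/5) (5/4)` (`exists_step`), and
`l₂ = σ - κ`, `p₂ = (1-s₄) s₅`, `l₃ = (1-σ)/φ(·-1)`, `p₃ = b (1-s₃) φ(·-1)`.
PROOF. `l₂ p₂ = l₂`, as `l₂ ≠ 0` only on `[1-2e, 1+e₁] ⊆ [4/5, 6/5]`; `l₃ p₃ = (1-σ) b (1-s₃) = 1-σ`
for `x ≤ 1+d` (where `1-σ ≠ 0` we have `x > 1+e₁/2`, so `s₃ = 0`). Sum: `κ + (σ-κ) + (1-σ) = 1`.
`p₂² ≤ 1`, and `p₂ = 0` outside `[3/4, 5/4]`; `p₃² ≤ φ(x-1)²` and `p₃ = 0` outside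
`[1, 1+d+e₁]`. Energies (`En`): `l₂(1+x)² ≤ 1` and it vanishes outside `[-2e, e₁]`:
`∫_{-1}^y l₂(1+x)² ≤ 2e+e₁`; `l₃(1+x)² ≤ 1/φ(x)²` and `l₃(1+x) = 0` for `x ≤ 0`:
`∫_{-1}^y l₃(1+x)² dx ≤ ∫_0^y 1/φ²`. -/
theorem exists_choice {φ : ℝ → ℝ} (hφ : ContDiff ℝ ∞ φ) (hφ0 : ∀ x, 0 < φ x) {d e e₁ : ℝ}
    (hd : 0 < d) (he : 0 < e) (he' : e ≤ 1 / 20) (he₁ : 0 < e₁) (he₁' : e₁ ≤ 1 / 10)
    (hde : d + e₁ ≤ 1 / 2) :
    ∃ κ l₂ p₂ l₃ p₃ : ℝ → ℝ, Step (1 - 2 * e) (1 - e) κ ∧ Prof (1 - 2 * e) l₂ ∧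
      Prof (1 - 2 * e) l₃ ∧ Bump 2 (cf p₂) ∧ Bump 2 (cf p₃) ∧
      (∀ x, x ≤ 1 + d → κ x + l₂ x * p₂ x + l₃ x * p₃ x = 1) ∧
      (∀ x, p₂ x ^ 2 ≤ (Icc (3 / 4 : ℝ) (5 / 4)).indicator 1 x) ∧
      (∀ x, p₃ x ^ 2 ≤ (Icc (1 : ℝ) (1 + d + e₁)).indicator (fun y => φ (y - 1) ^ 2) x) ∧
      (∀ y ∈ Icc (0 : ℝ) d, (∫ x in (-1 : ℝ)..y, l₂ (1 + x) ^ 2) ≤ 2 * e + e₁) ∧
      (∀ y ∈ Icc (0 : ℝ) d, (∫ x in (-1 : ℝ)..y, l₃ (1 + x) ^ 2) ≤
        ∫ x in (0 : ℝ)..y, 1 / φ x ^ 2) := by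
  obtain ⟨κ, hκ⟩ := exists_step (show 1 - 2 * e < 1 - e by linarith)
  obtain ⟨σ, hσ⟩ := exists_step (show 1 + e₁ / 2 < 1 + e₁ by linarith)
  obtain ⟨b, hb⟩ := exists_step (show 1 + d < 1 + d + e₁ by linarith)
  obtain ⟨s₃, h₃⟩ := exists_step (show (1 : ℝ) < 1 + e₁ / 2 by linarith)
  obtain ⟨s₄, h₄⟩ := exists_step (show (3 / 4 : ℝ) < 4 / 5 by norm_num)
  obtain ⟨s₅, h₅⟩ := exists_step (show (6 / 5 : ℝ) < 5 / 4 by norm_num)
  have hφs : ContDiff ℝ ∞ fun x => φ (x - 1) := hφ.comp (contDiff_id.sub contDiff_const)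
  have hφ1 : ∀ x, φ (x - 1) ≠ 0 := fun x => (hφ0 _).ne'
  refine ⟨κ, fun x => σ x - κ x, fun x => (1 - s₄ x) * s₅ x, fun x => (1 - σ x) / φ (x - 1),
    fun x => b x * (1 - s₃ x) * φ (x - 1), hκ, ⟨hσ.smooth.sub hκ.smooth, ?_⟩,
    ⟨(contDiff_const.sub hσ.smooth).div hφs hφ1, ?_⟩, ⟨?_, ?_⟩, ⟨?_, ?_⟩, ?_, ?_, ?_, ?_, ?_⟩
  · intro x hx
    show σ x - κ x = 0
    rw [hκ.one x hx, hσ.one x (by linarith), sub_self]
  · intro x hx
    show (1 - σ x) / φ (x - 1) = 0
    rw [hσ.one x (by linarith), sub_self, zero_div]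
  · exact ofRealCLM.contDiff.comp ((contDiff_const.sub h₄.smooth).mul h₅.smooth)
  · intro x hx
    have : (1 - s₄ x) * s₅ x = 0 := by
      rcases le_or_gt x 0 with h | h
      · rw [h₄.one x (by linarith)]; ring
      · rw [abs_of_pos h] at hx
        rw [h₅.zero x (by linarith)]; ring
    simp only [cf, this, Complex.ofReal_zero]
  · exact ofRealCLM.contDiff.comp ((hb.smooth.mul (contDiff_const.sub h₃.smooth)).mul hφs)
  · intro x hx
    have : b x * (1 - s₃ x) * φ (x - 1) = 0 := by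
      rcases le_or_gt x 0 with h | h
      · rw [h₃.one x (by linarith)]; ring
      · rw [abs_of_pos h] at hx
        rw [hb.zero x (by linarith)]; ring
    simp only [cf, this, Complex.ofReal_zero]
  · intro x hx
    have hb1 : b x = 1 := hb.one x hx
    show κ x + (σ x - κ x) * ((1 - s₄ x) * s₅ x) + (1 - σ x) / φ (x - 1) *
      (b x * (1 - s₃ x) * φ (x - 1)) = 1
    have h2 : (σ x - κ x) * ((1 - s₄ x) * s₅ x) = σ x - κ x := by
      rcases le_or_gt x (1 - 2 * e) with h | h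
      · rw [hκ.one x h, hσ.one x (by linarith)]; ring
      rcases le_or_gt (1 + e₁) x with h' | h'
      · rw [hκ.zero x (by linarith), hσ.zero x h']; ring
      · rw [h₄.zero x (by linarith), h₅.one x (by linarith)]; ring
    have h3 : (1 - σ x) / φ (x - 1) * (b x * (1 - s₃ x) * φ (x - 1)) = 1 - σ x := by
      rw [hb1]
      rcases le_or_gt x (1 + e₁ / 2) with h | h
      · rw [hσ.one x h]; ring
      · rw [h₃.zero x h.le]
        field_simp [hφ1 x]
        ring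
    rw [h2, h3]; ring
  · intro x
    show ((1 - s₄ x) * s₅ x) ^ 2 ≤ _
    by_cases hx : x ∈ Icc (3 / 4 : ℝ) (5 / 4)
    · rw [indicator_of_mem hx, Pi.one_apply]
      have h1 : |(1 - s₄ x) * s₅ x| ≤ 1 := by
        rw [abs_mul]
        have a1 : |1 - s₄ x| ≤ 1 := by
          rw [abs_le]; constructor <;> linarith [h₄.nonneg x, h₄.le_one x]
        have a2 : |s₅ x| ≤ 1 := by
          rw [abs_le]; constructor <;> linarith [h₅.nonneg x, h₅.le_one x]
        calc |1 - s₄ x| * |s₅ x| ≤ 1 * 1 := mul_le_mul a1 a2 (abs_nonneg _) zero_le_one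
          _ = 1 := one_mul 1
      rw [← sq_abs]
      nlinarith [abs_nonneg ((1 - s₄ x) * s₅ x)]
    · rw [indicator_of_notMem hx]
      have : (1 - s₄ x) * s₅ x = 0 := by
        rw [mem_Icc, not_and_or, not_le, not_le] at hx
        rcases hx with h | h
        · rw [h₄.one x h.le]; ring
        · rw [h₅.zero x h.le]; ring
      rw [this]; norm_num
  · intro x
    show (b x * (1 - s₃ x) * φ (x - 1)) ^ 2 ≤ _
    by_cases hx : x ∈ Icc (1 : ℝ) (1 + d + e₁)
    · rw [indicator_of_mem hx, mul_pow]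
      have h1 : |b x * (1 - s₃ x)| ≤ 1 := by
        rw [abs_mul]
        have a1 : |1 - s₃ x| ≤ 1 := by
          rw [abs_le]; constructor <;> linarith [h₃.nonneg x, h₃.le_one x]
        have a2 : |b x| ≤ 1 := by
          rw [abs_le]; constructor <;> linarith [hb.nonneg x, hb.le_one x]
        calc |b x| * |1 - s₃ x| ≤ 1 * 1 := mul_le_mul a2 a1 (abs_nonneg _) zero_le_one
          _ = 1 := one_mul 1
      have h2 : (b x * (1 - s₃ x)) ^ 2 ≤ 1 := by
        rw [← sq_abs]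
        nlinarith [abs_nonneg (b x * (1 - s₃ x))]
      calc (b x * (1 - s₃ x)) ^ 2 * φ (x - 1) ^ 2 ≤ 1 * φ (x - 1) ^ 2 :=
            mul_le_mul_of_nonneg_right h2 (sq_nonneg _)
        _ = φ (x - 1) ^ 2 := one_mul _
    · rw [indicator_of_notMem hx]
      have : b x * (1 - s₃ x) * φ (x - 1) = 0 := by
        rw [mem_Icc, not_and_or, not_le, not_le] at hx
        rcases hx with h | h
        · rw [h₃.one x h.le]; ring
        · rw [hb.zero x h.le]; ring
      rw [this]; norm_num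
  · intro y hy
    have hcl : Continuous fun x : ℝ => (σ (1 + x) - κ (1 + x)) ^ 2 :=
      ((hσ.smooth.continuous.comp (by fun_prop)).sub
        (hκ.smooth.continuous.comp (by fun_prop))).pow 2
    have hle : ∀ x : ℝ, (σ (1 + x) - κ (1 + x)) ^ 2 ≤ (Icc (-(2 * e)) e₁).indicator 1 x := by
      intro x
      by_cases hx : x ∈ Icc (-(2 * e)) e₁
      · rw [indicator_of_mem hx, Pi.one_apply]
        have : |σ (1 + x) - κ (1 + x)| ≤ 1 := by
          rw [abs_le]
          constructor <;> linarith [hσ.nonneg (1 + x), hσ.le_one (1 + x), hκ.nonneg (1 + x),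
            hκ.le_one (1 + x)]
        rw [← sq_abs]
        nlinarith [abs_nonneg (σ (1 + x) - κ (1 + x))]
      · rw [indicator_of_notMem hx]
        have : σ (1 + x) - κ (1 + x) = 0 := by
          rw [mem_Icc, not_and_or, not_le, not_le] at hx
          rcases hx with h | h
          · rw [hκ.one _ (by linarith), hσ.one _ (by linarith), sub_self]
          · rw [hκ.zero _ (by linarith), hσ.zero _ (by linarith), sub_self]
        rw [this]; norm_num
    have hy1 : (-1 : ℝ) ≤ y := by linarith [hy.1]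
    have hind : Integrable ((Icc (-(2 * e)) e₁).indicator (1 : ℝ → ℝ)) := by
      rw [integrable_indicator_iff measurableSet_Icc]
      have h : IntegrableOn (fun _ : ℝ => (1 : ℝ)) (Icc (-(2 * e)) e₁) volume :=
        continuousOn_const.integrableOn_Icc
      exact h
    show (∫ x in (-1 : ℝ)..y, (σ (1 + x) - κ (1 + x)) ^ 2) ≤ 2 * e + e₁
    calc (∫ x in (-1 : ℝ)..y, (σ (1 + x) - κ (1 + x)) ^ 2)
        ≤ ∫ x in (-1 : ℝ)..y, (Icc (-(2 * e)) e₁).indicator 1 x :=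
          intervalIntegral.integral_mono_on hy1 (hcl.intervalIntegrable _ _)
            hind.intervalIntegrable fun x _ => hle x
      _ ≤ ∫ x, (Icc (-(2 * e)) e₁).indicator 1 x := by
          rw [intervalIntegral.integral_of_le hy1]
          exact setIntegral_le_integral hind
            (Eventually.of_forall fun x => indicator_nonneg (fun _ _ => zero_le_one) x)
      _ = 2 * e + e₁ := by
          rw [integral_indicator measurableSet_Icc]
          simp only [Pi.one_apply, integral_const, MeasurableSet.univ, measureReal_restrict_apply,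
            univ_inter, Real.volume_real_Icc, smul_eq_mul, mul_one]
          rw [max_eq_left (by linarith)]
          ring
  · intro y hy
    have hcl : Continuous fun x : ℝ => ((1 - σ (1 + x)) / φ (1 + x - 1)) ^ 2 := by
      refine (Continuous.div ?_ ?_ fun x => (hφ0 _).ne').pow 2
      · exact continuous_const.sub (hσ.smooth.continuous.comp (by fun_prop))
      · exact hφ.continuous.comp (by fun_prop)
    have hcr : Continuous fun x : ℝ => 1 / φ x ^ 2 :=
      continuous_const.div (hφ.continuous.pow 2) fun x => (pow_pos (hφ0 x) 2).ne'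
    show (∫ x in (-1 : ℝ)..y, ((1 - σ (1 + x)) / φ (1 + x - 1)) ^ 2) ≤
        ∫ x in (0 : ℝ)..y, 1 / φ x ^ 2
    rw [← intervalIntegral.integral_add_adjacent_intervals (hcl.intervalIntegrable (-1) 0)
      (hcl.intervalIntegrable 0 y)]
    have hz : (∫ x in (-1 : ℝ)..0, ((1 - σ (1 + x)) / φ (1 + x - 1)) ^ 2) = 0 := by
      rw [intervalIntegral.integral_congr (g := fun _ => (0 : ℝ)), intervalIntegral.integral_zero]
      intro x hx
      rw [uIcc_of_le (by norm_num)] at hx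
      show ((1 - σ (1 + x)) / φ (1 + x - 1)) ^ 2 = 0
      rw [hσ.one _ (by linarith [hx.2])]
      norm_num
    rw [hz, zero_add]
    apply intervalIntegral.integral_mono_on hy.1 (hcl.intervalIntegrable _ _)
      (hcr.intervalIntegrable _ _)
    intro x _
    rw [add_sub_cancel_left, div_pow]
    apply div_le_div_of_nonneg_right _ (sq_nonneg _)
    have h1 := hσ.nonneg (1 + x)
    have h2 := hσ.le_one (1 + x)
    nlinarith

end Pool.Agent.MP_67227b_nt.Fb
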