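import Pool.Agent.MP_67227b_nt.Fb.FbAm

set_option autoImplicit false

open Filter Topology Set MeasureTheory Complex
open scoped Real ContDiff ArithmeticFunction ArithmeticFunction.Moebius ComplexConjugate

namespace Pool.Agent.MP_67227b_nt.Fb

open Pool.Agent.Lib.ZetaCount_helper33 Pool.Agent.MP_67227b_nt Pool.Agent.MP_67227b_nt.Mo

/-- The coefficients of the mollifier are small. -/
theorem am_le {h : ℝ → ℝ} {d : ℝ} (hh : Hok h) (hd : 0 < d) (hd1 : d < 1) :
    ∃ C : ℝ, 0 < C ∧ ∀ᶠ T : ℝ in atTop, ∀ m : ℕ, |am h d T m| ≤ C * Real.log T := by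
  obtain ⟨C, hC, h⟩ := am_bdd hh hd
  refine ⟨C, hC, ?_⟩
  filter_upwards [h, Real.tendsto_log_atTop.eventually_ge_atTop 1] with T hT hL m
  exact (hT m).trans (le_mul_of_one_le_right hC.le hL)

end Pool.Agent.MP_67227b_nt.Fb
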