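import Pool.Agent.MP_67227b_nt.Fb.FbLL

set_option autoImplicit false

open Filter Topology Set MeasureTheory Complex
open scoped Real ContDiff ArithmeticFunction ArithmeticFunction.Moebius ComplexConjugate

namespace Pool.Agent.MP_67227b_nt.Fb

open Pool.Agent.Lib.ZetaCount_helper33 Pool.Agent.MP_67227b_nt Pool.Agent.MP_67227b_nt.Mo

/-- **Module mnl** (about 60 lines). The limit of the main term.

PROOF. `Mn = [(1/L) ∑ mf k f(log k/L)]/(LL/L)²` with `f(y) = h(y)² kk lam y`, continuous
(`intervalIntegral.continuous_primitive`); `riem`, `LL_tendsto`, `integral_h_pos`. -/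
theorem Mn_tendsto {h lam : ℝ → ℝ} {d : ℝ} (hh : Hok h) (hd : 0 < d) (hl : Continuous lam) :
    Tendsto (fun T : ℝ => Mn h lam d T) atTop (𝓝 (En h lam d)) := by
  have hk : Continuous (kk lam) := by
    unfold kk
    exact intervalIntegral.continuous_primitive (fun a b =>
      (by fun_prop : Continuous fun x : ℝ => lam (1 + x) ^ 2).intervalIntegrable a b) (-1)
  have hf : Continuous fun y => h y ^ 2 * kk lam y := (hh.cont.pow 2).mul hk
  have h1 := riem hf hd
  have h2 := LL_tendsto hh hd
  have h3 := integral_h_pos hh hd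
  have h4 := h1.div (h2.pow 2) (pow_ne_zero 2 h3.ne')
  unfold En
  refine h4.congr' ?_
  filter_upwards [eventually_gt_atTop 1] with T hT
  have hL : Real.log T ≠ 0 := (Real.log_pos hT).ne'
  unfold Mn
  simp only [Pi.div_apply]
  rw [div_pow]
  by_cases h5 : LL h d T = 0
  · rw [h5]
    simp
  · field_simp

end Pool.Agent.MP_67227b_nt.Fb
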