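import Pool.Agent.MP_67227b_nt.Fb.FbArDefs

set_option autoImplicit false

open Filter Topology Set MeasureTheory Complex
open scoped Real ContDiff ArithmeticFunction ArithmeticFunction.Moebius ComplexConjugate

namespace Pool.Agent.MP_67227b_nt.Fb

open Pool.Agent.Lib.ZetaCount_helper33 Pool.Agent.MP_67227b_nt Pool.Agent.MP_67227b_nt.Mo

/-- **Module vs** (3 lemmas, about 120 lines). -/
theorem Vv_eq {h lam : ℝ → ℝ} {d T t : ℝ} (hT : 1 < T) (ht : 0 < t) :
    Vv h lam d T t = V0 h (fun x => lam (x + Real.log (t / (2 * π * T)) / Real.log T)) d T t := by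
  unfold Vv V0
  have hT0 : 0 < T := by linarith
  have hL : Real.log T ≠ 0 := (Real.log_pos hT).ne'
  have hpi := Real.pi_pos
  refine Finset.sum_congr rfl fun m hm => Finset.sum_congr rfl fun r hr => ?_
  have hm' : (0 : ℝ) < m := by exact_mod_cast (Finset.mem_Icc.1 hm).1
  have hr' : (0 : ℝ) < r := by exact_mod_cast (Finset.mem_Icc.1 hr).1
  have e : Real.log (m * t / (2 * π * r)) / Real.log T =
      1 + (Real.log m - Real.log r) / Real.log T + Real.log (t / (2 * π * T)) / Real.log T := by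
    rw [Real.log_div (by positivity) (by positivity), Real.log_mul hm'.ne' ht.ne',
      Real.log_mul (by positivity) hr'.ne', Real.log_div ht.ne' (by positivity),
      Real.log_mul (by positivity) hT0.ne']
    field_simp
    ring
  rw [e]

/-- The fundamental theorem of calculus in the profile. -/
theorem V0_ftc {h lam : ℝ → ℝ} {d T t y : ℝ} (hl : ContDiff ℝ ∞ lam) :
    V0 h (fun x => lam (x + y)) d T t = V0 h lam d T t -
      ∫ s in y..(0 : ℝ), V0 h (fun x => deriv lam (x + s)) d T t := by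
  have hdc : Continuous (deriv lam) := hl.continuous_deriv (by simp)
  have hd : ∀ x, HasDerivAt lam (deriv lam x) x := fun x =>
    (hl.differentiable (by simp) x).hasDerivAt
  have hftc : ∀ x : ℝ, lam (x + y) = lam x - ∫ s in y..(0 : ℝ), deriv lam (x + s) := by
    intro x
    have h1 := intervalIntegral.integral_eq_sub_of_hasDerivAt (a := y) (b := 0)
      (f := fun s => lam (x + s)) (f' := fun s => deriv lam (x + s))
      (fun s _ => by
        have := (hd (x + s)).comp_const_add x s
        exact this)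
      ((hdc.comp (by fun_prop)).intervalIntegrable _ _)
    rw [h1]
    simp
  unfold V0
  have hI : ∀ m r : ℕ, IntervalIntegrable (fun s : ℝ =>
      ((am h d T m * deriv lam (1 + (Real.log m - Real.log r) / Real.log T + s) : ℝ) : ℂ) *
      (m : ℂ) ^ (-(1 / 2 + (t : ℂ) * I)) * (r : ℂ) ^ (-(1 / 2 - (t : ℂ) * I))) volume y 0 := by
    intro m r
    apply Continuous.intervalIntegrable
    have : Continuous fun s : ℝ => deriv lam (1 + (Real.log m - Real.log r) / Real.log T + s) :=
      hdc.comp (by fun_prop)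
    exact ((continuous_ofReal.comp (continuous_const.mul this)).mul continuous_const).mul
      continuous_const
  rw [intervalIntegral.integral_finsetSum (fun m _ => by
    have : (fun s : ℝ => ∑ r ∈ Finset.Icc 1 ⌊T⌋₊,
      ((am h d T m * deriv lam (1 + (Real.log m - Real.log r) / Real.log T + s) : ℝ) : ℂ) *
      (m : ℂ) ^ (-(1 / 2 + (t : ℂ) * I)) * (r : ℂ) ^ (-(1 / 2 - (t : ℂ) * I))) =
      ∑ r ∈ Finset.Icc 1 ⌊T⌋₊, fun s : ℝ =>
      ((am h d T m * deriv lam (1 + (Real.log m - Real.log r) / Real.log T + s) : ℝ) : ℂ) *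
      (m : ℂ) ^ (-(1 / 2 + (t : ℂ) * I)) * (r : ℂ) ^ (-(1 / 2 - (t : ℂ) * I)) := by
      funext s
      simp
    rw [this]
    exact IntervalIntegrable.sum _ fun r _ => hI m r)]
  rw [← Finset.sum_sub_distrib]
  refine Finset.sum_congr rfl fun m _ => ?_
  rw [intervalIntegral.integral_finsetSum (fun r _ => hI m r), ← Finset.sum_sub_distrib]
  refine Finset.sum_congr rfl fun r _ => ?_
  beta_reduce
  rw [hftc, intervalIntegral.integral_mul_const, intervalIntegral.integral_mul_const]
  have e : ∫ s in y..(0 : ℝ),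
      ((am h d T m * deriv lam (1 + (Real.log m - Real.log r) / Real.log T + s) : ℝ) : ℂ) =
      ((am h d T m * ∫ s in y..(0 : ℝ),
        deriv lam (1 + (Real.log m - Real.log r) / Real.log T + s) : ℝ) : ℂ) := by
    rw [intervalIntegral.integral_ofReal, intervalIntegral.integral_const_mul]
  rw [e]
  push_cast
  ring

/-- The smooth profiles and the shifts of their derivatives are in the class `PB`. -/
theorem prof_PB {lam : ℝ → ℝ} {x₀ : ℝ} (hl : Prof x₀ lam) : ∃ B : ℝ, 0 < B ∧ PB x₀ B lam ∧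
    ∀ s : ℝ, s ≤ 0 → PB x₀ B (fun x => deriv lam (x + s)) := by
  have hz : ∀ (f : ℝ → ℝ), ContDiff ℝ ∞ f → (∀ x, x ≤ x₀ → f x = 0) →
      ContDiff ℝ ∞ (deriv f) ∧ ∀ x, x ≤ x₀ → deriv f x = 0 := by
    intro f hf h0
    have hfd : ContDiff ℝ ∞ (deriv f) := ((contDiff_infty_iff_deriv (𝕜 := ℝ)).1 hf).2
    refine ⟨hfd, ?_⟩
    have h1 : ∀ x, x < x₀ → deriv f x = 0 := by
      intro x hx
      have : f =ᶠ[𝓝 x] fun _ => (0 : ℝ) := by
        filter_upwards [Iio_mem_nhds hx] with z hz
        exact h0 z (le_of_lt hz)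
      rw [this.deriv_eq]
      simp
    intro x hx
    rcases lt_or_eq_of_le hx with h | h
    · exact h1 x h
    · subst h
      have hcl : IsClosed {z | deriv f z = 0} := isClosed_eq hfd.continuous continuous_const
      have hsub : Iio x ⊆ {z | deriv f z = 0} := fun z hz => h1 z hz
      have := closure_minimal hsub hcl
      rw [closure_Iio] at this
      exact this (by simp)
  obtain ⟨h1s, h1z⟩ := hz lam hl.smooth hl.zero
  obtain ⟨h2s, h2z⟩ := hz (deriv lam) h1s h1z
  have hbd : ∀ f : ℝ → ℝ, Continuous f → (∀ x, x ≤ x₀ → f x = 0) →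
      ∃ C : ℝ, ∀ x, x ≤ 2 → |f x| ≤ C := by
    intro f hf h0
    obtain ⟨C, hC⟩ := (isCompact_Icc (a := x₀) (b := 2)).exists_bound_of_continuousOn
      hf.continuousOn
    refine ⟨max C 0, fun x hx => ?_⟩
    rcases le_or_gt x x₀ with h | h
    · rw [h0 x h, abs_zero]
      exact le_max_right _ _
    · exact (hC x ⟨h.le, hx⟩).trans (le_max_left _ _)
  obtain ⟨C0, hC0⟩ := hbd lam hl.smooth.continuous hl.zero
  obtain ⟨C1, hC1⟩ := hbd (deriv lam) h1s.continuous h1z
  obtain ⟨C2, hC2⟩ := hbd (deriv (deriv lam)) h2s.continuous h2z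
  set B : ℝ := max 1 (max C0 (max C1 C2)) with hB
  have hB1 : 1 ≤ B := le_max_left _ _
  have hBC0 : C0 ≤ B := (le_max_left _ _).trans (le_max_right _ _)
  have hBC1 : C1 ≤ B := ((le_max_left _ _).trans (le_max_right _ _)).trans (le_max_right _ _)
  have hBC2 : C2 ≤ B := ((le_max_right _ _).trans (le_max_right _ _)).trans (le_max_right _ _)
  have hlip : ∀ f : ℝ → ℝ, ContDiff ℝ ∞ f → (∀ x, x ≤ 2 → |deriv f x| ≤ B) →
      ∀ x y, x ≤ 2 → y ≤ 2 → |f x - f y| ≤ B * |x - y| := by
    intro f hf hb x y hx hy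
    have := Convex.norm_image_sub_le_of_norm_deriv_le (f := f) (C := B) (s := Iic 2)
      (x := y) (y := x) (fun z _ => hf.differentiable (by simp) z) (fun z hz => hb z hz)
      (convex_Iic 2) hy hx
    exact this
  refine ⟨B, by linarith, ⟨hl.zero, fun x hx => (hC0 x hx).trans hBC0,
    hlip lam hl.smooth fun x hx => (hC1 x hx).trans hBC1⟩, fun s hs => ⟨?_, ?_, ?_⟩⟩
  · intro x hx
    exact h1z _ (by linarith)
  · intro x hx
    exact (hC1 _ (by linarith)).trans hBC1
  · intro x y hx hy
    have := hlip (deriv lam) h1s (fun x hx => (hC2 x hx).trans hBC2) (x + s) (y + s)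
      (by linarith) (by linarith)
    rwa [add_sub_add_right_eq_sub] at this

end Pool.Agent.MP_67227b_nt.Fb
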