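import Pool.Agent.MP_67227b_nt.Fb.FbEnu
import Pool.Agent.MP_67227b_nt.Fb.FbMnl
import Pool.Agent.MP_67227b_nt.Fb.FbVs
import Pool.Agent.MP_67227b_nt.Fb.FbChiB

set_option autoImplicit false

open Filter Topology Set MeasureTheory Complex
open scoped Real ContDiff ArithmeticFunction ArithmeticFunction.Moebius ComplexConjugate

namespace Pool.Agent.MP_67227b_nt.Fb

open Pool.Agent.Lib.ZetaCount_helper33 Pool.Agent.MP_67227b_nt Pool.Agent.MP_67227b_nt.Mo

namespace EnergyAux

/-- Cauchy-Schwarz against `1` -/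
theorem cs_one {g : ℝ → ℝ} (hg : Continuous g) {a b : ℝ} (hab : a ≤ b) :
    (∫ x in a..b, g x) ^ 2 ≤ (b - a) * ∫ x in a..b, g x ^ 2 := by
  rcases eq_or_lt_of_le hab with h | h
  · subst h
    simp
  · set c := (∫ x in a..b, g x) / (b - a) with hc
    have hba : 0 < b - a := by linarith
    have h0 : 0 ≤ ∫ x in a..b, (g x - c) ^ 2 :=
      intervalIntegral.integral_nonneg hab fun x _ => sq_nonneg _
    have h1 : ∫ x in a..b, (g x - c) ^ 2 =
        (∫ x in a..b, g x ^ 2) - 2 * c * (∫ x in a..b, g x) + c ^ 2 * (b - a) := by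
      have e : ∀ x, (g x - c) ^ 2 = g x ^ 2 - 2 * c * g x + c ^ 2 := fun x => by ring
      simp only [e]
      rw [intervalIntegral.integral_add, intervalIntegral.integral_sub,
        intervalIntegral.integral_const_mul, intervalIntegral.integral_const, smul_eq_mul]
      · ring
      · exact (hg.pow 2).intervalIntegrable _ _
      · exact (continuous_const.mul hg).intervalIntegrable _ _
      · exact ((hg.pow 2).sub (continuous_const.mul hg)).intervalIntegrable _ _
      · exact continuous_const.intervalIntegrable _ _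
    rw [h1] at h0
    have h2 : (∫ x in a..b, g x) = c * (b - a) := by
      rw [hc]; field_simp
    rw [h2] at h0 ⊢
    nlinarith

theorem pow_cont (m : ℕ) (hm : 1 ≤ m) (f : ℝ × ℝ → ℂ) (hf : Continuous f) :
    Continuous fun z => (m : ℂ) ^ (f z) := by
  have hm0 : (m : ℂ) ≠ 0 := by exact_mod_cast (by omega : m ≠ 0)
  exact hf.const_cpow (Or.inl hm0)

/-- joint continuity -/
theorem cont_V0 {h lam : ℝ → ℝ} {d T : ℝ} (hl : Continuous lam) :
    Continuous fun z : ℝ × ℝ => V0 h (fun x => lam (x + z.1)) d T z.2 := by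
  unfold V0
  refine continuous_finsetSum _ fun m hm => continuous_finsetSum _ fun r hr => ?_
  have h1 : Continuous fun z : ℝ × ℝ => lam (1 + (Real.log m - Real.log r) / Real.log T + z.1) :=
    hl.comp (by fun_prop)
  refine ((continuous_ofReal.comp (continuous_const.mul h1)).mul ?_).mul ?_
  · exact pow_cont m (Finset.mem_Icc.1 hm).1 _ (by fun_prop)
  · exact pow_cont r (Finset.mem_Icc.1 hr).1 _ (by fun_prop)

theorem cont_V0' {h lam : ℝ → ℝ} {d T : ℝ} (hl : Continuous lam) :
    Continuous fun t : ℝ => V0 h lam d T t := by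
  have h1 := (cont_V0 (h := h) (d := d) (T := T) hl).comp
    (by fun_prop : Continuous fun t : ℝ => ((0 : ℝ), t))
  refine h1.congr fun t => ?_
  simp

theorem swap {f : ℝ × ℝ → ℝ} (hf : Continuous f) {a b a' b' : ℝ} (hab : a ≤ b) (hab' : a' ≤ b') :
    (∫ t in a'..b', ∫ s in a..b, f (s, t)) = ∫ s in a..b, ∫ t in a'..b', f (s, t) := by
  rw [intervalIntegral.integral_of_le hab', intervalIntegral.integral_of_le hab]
  have e1 : ∀ t, (∫ s in a..b, f (s, t)) = ∫ s in Ioc a b, f (s, t) := fun t =>
    intervalIntegral.integral_of_le hab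
  have e2 : ∀ s, (∫ t in a'..b', f (s, t)) = ∫ t in Ioc a' b', f (s, t) := fun s =>
    intervalIntegral.integral_of_le hab'
  simp only [e1, e2]
  refine integral_integral_swap (f := fun t s => f (s, t)) ?_
  rw [Measure.prod_restrict]
  have : IntegrableOn (Function.uncurry fun t s => f (s, t)) (Icc a' b' ×ˢ Icc a b)
      ((volume : Measure ℝ).prod volume) := by
    apply ContinuousOn.integrableOn_compact (isCompact_Icc.prod isCompact_Icc)
    apply Continuous.continuousOn
    exact hf.comp (by fun_prop : Continuous fun p : ℝ × ℝ => (p.2, p.1))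
  exact this.mono_set (prod_mono Ioc_subset_Icc_self Ioc_subset_Icc_self)

/-- the range of the shift -/
theorem shift_range {T t : ℝ} (hT : 1 < T) (hL : 1 ≤ Real.log T) (h1 : T1 T ≤ t) (h2 : t ≤ T) :
    -((Real.log (Real.log T) + 2) / Real.log T) ≤ Real.log (t / (2 * π * T)) / Real.log T ∧
      Real.log (t / (2 * π * T)) / Real.log T ≤ 0 := by
  have hT0 : 0 < T := by linarith
  have hL0 : 0 < Real.log T := by linarith
  have hpi := Real.pi_gt_three
  have hpi2 := Real.pi_lt_d2
  have ht0 : 0 < t := lt_of_lt_of_le (div_pos hT0 hL0) h1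
  constructor
  · rw [← neg_div]
    refine div_le_div_of_nonneg_right ?_ hL0.le
    have h3 : 1 / (2 * π * Real.log T) ≤ t / (2 * π * T) := by
      rw [div_le_div_iff₀ (by positivity) (by positivity)]
      have : T ≤ t * Real.log T := by
        have := h1
        unfold T1 at this
        rwa [div_le_iff₀ hL0] at this
      nlinarith
    have h4 := Real.log_le_log (by positivity) h3
    rw [one_div, Real.log_inv, Real.log_mul (by positivity) hL0.ne'] at h4
    have h5 : Real.log (2 * π) ≤ 2 := by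
      rw [Real.log_le_iff_le_exp (by positivity)]
      have h6 := Real.exp_one_gt_d9
      have h7 : Real.exp 2 = Real.exp 1 * Real.exp 1 := by rw [← Real.exp_add]; norm_num
      rw [h7]
      nlinarith
    linarith
  · apply div_nonpos_of_nonpos_of_nonneg _ hL0.le
    apply Real.log_nonpos (by positivity)
    rw [div_le_one (by positivity)]
    nlinarith

theorem tendsto_Y : Tendsto (fun T : ℝ => (Real.log (Real.log T) + 2) / Real.log T) atTop (𝓝 0) := by
  have h1 : Tendsto (fun L : ℝ => (Real.log L + 2) / L) atTop (𝓝 0) := by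
    have h2 : Tendsto (fun L : ℝ => Real.log L / L) atTop (𝓝 0) :=
      Real.isLittleO_log_id_atTop.tendsto_div_nhds_zero
    have h3 : Tendsto (fun L : ℝ => 2 / L) atTop (𝓝 0) := tendsto_const_nhds.div_atTop tendsto_id
    have := h2.add h3
    rw [add_zero] at this
    refine this.congr fun L => ?_
    ring
  exact h1.comp Real.tendsto_log_atTop

end EnergyAux

open EnergyAux in
/-- The energy of `U`. -/
theorem S_energy {h lam : ℝ → ℝ} {d x₀ : ℝ} (hh : Hok h) (hd : 0 < d) (hx : 2 * d < x₀)
    (hx1 : x₀ ≤ 1) (hl : Prof x₀ lam) {ε : ℝ} (hε : 0 < ε) :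
    ∀ᶠ T : ℝ in atTop, (1 / T) * (∫ t in (T1 T)..(T2 T), ‖Uu h lam d T t‖ ^ 2) ≤
      En h lam d + ε := by
  obtain ⟨B, hB, hP, hP'⟩ := prof_PB hl
  obtain ⟨C, hC, hunif⟩ := V0_unif hh hd hx hx1 hB
  set E := En h lam d with hE
  obtain ⟨η, hη, hη1, hηE⟩ : ∃ η : ℝ, 0 < η ∧ η ≤ 1 ∧ η * (|E| + 4) ≤ ε / 2 := by
    refine ⟨min 1 (ε / 2 / (|E| + 4)), by positivity, min_le_left _ _, ?_⟩
    have := min_le_right 1 (ε / 2 / (|E| + 4))
    rwa [le_div_iff₀ (by positivity)] at this
  have hlc : Continuous lam := hl.smooth.continuous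
  have hdc : Continuous (deriv lam) := hl.smooth.continuous_deriv (by simp)
  have hY0 : Tendsto (fun T : ℝ => (1 + 1 / η) * ((Real.log (Real.log T) + 2) / Real.log T) ^ 2 * C)
      atTop (𝓝 0) := by
    have := ((tendsto_Y.pow 2).const_mul (1 + 1 / η)).mul_const C
    simpa using this
  filter_upwards [hunif, V0_le hh hd hx hx1 hB hη, (Mn_tendsto hh hd hlc).eventually
    (ge_mem_nhds (show E < E + η by linarith)), eventually_gt_atTop 1,
    Real.tendsto_log_atTop.eventually_ge_atTop 1, hY0.eventually (ge_mem_nhds (half_pos hε)),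
    (Mo.MeanMainAux.tendsto_rpow_div (a := 3 / 4) (by norm_num)).eventually
      (ge_mem_nhds (show (0 : ℝ) < 1 / 4 by norm_num)),
    Real.tendsto_log_atTop.eventually_ge_atTop 2]
    with T hU hV hM hT hL hY hTq hL2
  have hT0 : 0 < T := by linarith
  have hL0 : 0 < Real.log T := by linarith
  set Y := (Real.log (Real.log T) + 2) / Real.log T with hYdef
  have hYpos : 0 ≤ Y := by
    have : 0 ≤ Real.log (Real.log T) := Real.log_nonneg hL
    positivity
  have hT1 : 0 < T1 T := div_pos hT0 hL0
  have hT2 : T2 T ≤ T := by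
    unfold T2
    have : 0 ≤ T ^ (3 / 4 : ℝ) := by positivity
    linarith
  have h12 : T1 T ≤ T2 T := by
    unfold T1 T2
    rw [div_le_iff₀ hT0] at hTq
    have : T / Real.log T ≤ T / 2 := div_le_div_of_nonneg_left hT0.le (by norm_num) hL2
    linarith
  set G : ℝ × ℝ → ℝ := fun z => ‖V0 h (fun x => deriv lam (x + z.1)) d T z.2‖ with hG
  have hGc : Continuous G := (cont_V0 hdc).norm
  have hFc : Continuous fun t => ‖V0 h lam d T t‖ := (cont_V0' hlc).norm
  have hpt : ∀ t ∈ Icc (T1 T) (T2 T), ‖Uu h lam d T t‖ ^ 2 ≤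
      (1 + η) * ‖V0 h lam d T t‖ ^ 2 + (1 + 1 / η) * (Y * ∫ s in (-Y)..0, G (s, t) ^ 2) := by
    intro t ht
    have ht0 : 0 < t := hT1.trans_le ht.1
    obtain ⟨hy1, hy2⟩ := shift_range hT hL ht.1 (ht.2.trans hT2)
    set y := Real.log (t / (2 * π * T)) / Real.log T with hy
    have e1 : ‖Uu h lam d T t‖ = ‖V0 h (fun x => lam (x + y)) d T t‖ := by
      rw [Uu, norm_mul, chi_norm_half, one_mul, Vv_eq hT ht0]
    have hGt : Continuous fun s : ℝ => G (s, t) := hGc.comp (by fun_prop)
    have h1 : ‖∫ s in y..(0 : ℝ), V0 h (fun x => deriv lam (x + s)) d T t‖ ≤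
        ∫ s in (-Y)..0, G (s, t) := by
      refine (intervalIntegral.norm_integral_le_integral_norm hy2).trans ?_
      have : ∫ s in y..(0 : ℝ), ‖V0 h (fun x => deriv lam (x + s)) d T t‖ =
          ∫ s in y..(0 : ℝ), G (s, t) := rfl
      rw [this]
      refine intervalIntegral.integral_mono_interval hy1 hy2 le_rfl ?_
        (hGt.intervalIntegrable _ _)
      exact Eventually.of_forall fun s => norm_nonneg _
    have h2 : ‖V0 h (fun x => lam (x + y)) d T t‖ ≤ ‖V0 h lam d T t‖ +
        ∫ s in (-Y)..0, G (s, t) := by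
      rw [V0_ftc hl.smooth]
      exact (norm_sub_le _ _).trans (add_le_add le_rfl h1)
    have h3 := cs_one hGt (a := -Y) (b := 0) (by linarith)
    rw [e1]
    set a := ‖V0 h lam d T t‖
    set b := ∫ s in (-Y)..0, G (s, t)
    have ha : 0 ≤ a := norm_nonneg _
    have hb : 0 ≤ b := intervalIntegral.integral_nonneg (by linarith) fun s _ => norm_nonneg _
    have h4 : ‖V0 h (fun x => lam (x + y)) d T t‖ ^ 2 ≤ (a + b) ^ 2 :=
      pow_le_pow_left₀ (norm_nonneg _) h2 2
    have h5 : (a + b) ^ 2 ≤ (1 + η) * a ^ 2 + (1 + 1 / η) * b ^ 2 := by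
      have : 2 * a * b ≤ η * a ^ 2 + 1 / η * b ^ 2 := by
        have h6 : 0 ≤ (η * a - b) ^ 2 / η := by positivity
        have h7 : (η * a - b) ^ 2 / η = η * a ^ 2 - 2 * a * b + 1 / η * b ^ 2 := by
          field_simp
          ring
        linarith
      nlinarith
    have h8 : b ^ 2 ≤ Y * ∫ s in (-Y)..0, G (s, t) ^ 2 := by
      refine h3.trans (le_of_eq ?_)
      ring
    have h9 : (1 + 1 / η) * b ^ 2 ≤ (1 + 1 / η) * (Y * ∫ s in (-Y)..0, G (s, t) ^ 2) :=
      mul_le_mul_of_nonneg_left h8 (by positivity)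
    linarith
  have hG2c : Continuous fun z : ℝ × ℝ => G z ^ 2 := hGc.pow 2
  have hinner : Continuous fun t : ℝ => ∫ s in (-Y)..0, G (s, t) ^ 2 := by
    refine intervalIntegral.continuous_parametric_intervalIntegral_of_continuous' ?_ _ _
    exact hG2c.comp (by fun_prop : Continuous fun p : ℝ × ℝ => (p.2, p.1))
  have hUc : IntervalIntegrable (fun t => ‖Uu h lam d T t‖ ^ 2) volume (T1 T) (T2 T) := by
    apply ContinuousOn.intervalIntegrable
    rw [uIcc_of_le h12]
    have hc1 : ContinuousOn (Uu h lam d T) (Icc (T1 T) (T2 T)) := by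
      unfold Uu
      refine continuous_chi_half.continuousOn.mul ?_
      unfold Vv
      refine continuousOn_finsetSum _ fun m hm => continuousOn_finsetSum _ fun r hr => ?_
      have hm' : (0 : ℝ) < m := by exact_mod_cast (Finset.mem_Icc.1 hm).1
      have hr' : (0 : ℝ) < r := by exact_mod_cast (Finset.mem_Icc.1 hr).1
      have hpi := Real.pi_pos
      have hm0 : (m : ℂ) ≠ 0 := by exact_mod_cast hm'.ne'
      have hr0 : (r : ℂ) ≠ 0 := by exact_mod_cast hr'.ne'
      refine ContinuousOn.mul (ContinuousOn.mul ?_ ?_) ?_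
      · refine continuous_ofReal.comp_continuousOn (continuousOn_const.mul ?_)
        refine hlc.comp_continuousOn ?_
        refine ContinuousOn.div_const ?_ _
        refine ContinuousOn.log (by fun_prop) ?_
        intro t ht
        have : 0 < t := hT1.trans_le ht.1
        positivity
      · exact (Continuous.const_cpow (by fun_prop) (Or.inl hm0)).continuousOn
      · exact (Continuous.const_cpow (by fun_prop) (Or.inl hr0)).continuousOn
    exact (hc1.norm).pow 2
  have hmain : (∫ t in (T1 T)..(T2 T), ‖Uu h lam d T t‖ ^ 2) ≤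
      (1 + η) * (∫ t in (0 : ℝ)..T, ‖V0 h lam d T t‖ ^ 2) + (1 + 1 / η) * (Y * (Y * (C * T))) := by
    have hi1 : IntervalIntegrable (fun t => (1 + η) * ‖V0 h lam d T t‖ ^ 2) volume (T1 T) (T2 T) :=
      (continuous_const.mul (hFc.pow 2)).intervalIntegrable _ _
    have hi2 : IntervalIntegrable (fun t => (1 + 1 / η) * (Y * ∫ s in (-Y)..0, G (s, t) ^ 2))
        volume (T1 T) (T2 T) :=
      (continuous_const.mul (continuous_const.mul hinner)).intervalIntegrable _ _
    refine (intervalIntegral.integral_mono_on h12 hUc (hi1.add hi2) hpt).trans ?_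
    rw [intervalIntegral.integral_add hi1 hi2, intervalIntegral.integral_const_mul,
      intervalIntegral.integral_const_mul, intervalIntegral.integral_const_mul]
    refine add_le_add ?_ ?_
    · refine mul_le_mul_of_nonneg_left ?_ (by linarith)
      refine intervalIntegral.integral_mono_interval hT1.le h12 hT2 ?_
        ((hFc.pow 2).intervalIntegrable _ _)
      exact Eventually.of_forall fun t => by positivity
    · refine mul_le_mul_of_nonneg_left ?_ (by positivity)
      refine mul_le_mul_of_nonneg_left ?_ hYpos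
      rw [swap hG2c (by linarith : -Y ≤ 0) h12]
      have h1 : ∀ s ∈ Icc (-Y) 0, (∫ t in (T1 T)..(T2 T), G (s, t) ^ 2) ≤ C * T := by
        intro s hs
        have hs0 : Continuous fun t : ℝ => G (s, t) := hGc.comp (by fun_prop)
        refine le_trans ?_ (hU _ (hP' s hs.2))
        refine intervalIntegral.integral_mono_interval hT1.le h12 hT2 ?_
          ((hs0.pow 2).intervalIntegrable _ _)
        exact Eventually.of_forall fun t => by positivity
      have hc3 : Continuous fun s : ℝ => ∫ t in (T1 T)..(T2 T), G (s, t) ^ 2 :=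
        intervalIntegral.continuous_parametric_intervalIntegral_of_continuous'
          (f := fun s t => G (s, t) ^ 2) hG2c _ _
      have hi3 : IntervalIntegrable (fun s : ℝ => ∫ t in (T1 T)..(T2 T), G (s, t) ^ 2) volume
        (-Y) 0 := hc3.intervalIntegrable _ _
      have hi4 : IntervalIntegrable (fun _ : ℝ => C * T) volume (-Y) 0 :=
        continuous_const.intervalIntegrable _ _
      have h2 := intervalIntegral.integral_mono_on (by linarith : -Y ≤ 0) hi3 hi4 h1
      refine h2.trans (le_of_eq ?_)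
      rw [intervalIntegral.integral_const, smul_eq_mul]
      ring
  have hfin : (1 / T) * (∫ t in (T1 T)..(T2 T), ‖Uu h lam d T t‖ ^ 2) ≤
      (1 + η) * ((1 / T) * ∫ t in (0 : ℝ)..T, ‖V0 h lam d T t‖ ^ 2) + (1 + 1 / η) * Y ^ 2 * C := by
    have := mul_le_mul_of_nonneg_left hmain (by positivity : 0 ≤ 1 / T)
    refine this.trans (le_of_eq ?_)
    field_simp
  have hv := hV lam hP
  have h10 : (1 + η) * ((1 / T) * ∫ t in (0 : ℝ)..T, ‖V0 h lam d T t‖ ^ 2) ≤
      (1 + η) * (E + 2 * η) := mul_le_mul_of_nonneg_left (by linarith) (by linarith)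
  have h11 : (1 + η) * (E + 2 * η) ≤ E + η * (|E| + 4) := by
    have := le_abs_self E
    nlinarith
  linarith

end Pool.Agent.MP_67227b_nt.Fb
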