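import Pool.Agent.MP_67227b_nt.Fb.FbDsq
import Pool.Agent.MP_67227b_nt.Fb.FbChiB
import Pool.Agent.MP_67227b_nt.Fb.FbVs

set_option autoImplicit false

open Filter Topology Set MeasureTheory Complex
open scoped Real ContDiff ArithmeticFunction ArithmeticFunction.Moebius ComplexConjugate

namespace Pool.Agent.MP_67227b_nt.Fb

open Pool.Agent.Lib.ZetaCount_helper33 Pool.Agent.MP_67227b_nt Pool.Agent.MP_67227b_nt.Mo

namespace SizeAux

/-- Powers of the logarithm are small. -/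
theorem tendsto_log_pow (k : ℕ) {a : ℝ} (ha : 0 < a) :
    Tendsto (fun T : ℝ => (1 + Real.log T) ^ k / T ^ a) atTop (𝓝 0) := by
  have h1 : Tendsto (fun T : ℝ => 2 ^ k * (Real.log T ^ (k : ℝ) / T ^ a)) atTop (𝓝 (2 ^ k * 0)) :=
    (isLittleO_log_rpow_rpow_atTop (k : ℝ) ha).tendsto_div_nhds_zero.const_mul _
  rw [mul_zero] at h1
  refine squeeze_zero' ?_ ?_ h1
  · filter_upwards [eventually_ge_atTop (1 : ℝ)] with T hT
    have := Real.log_nonneg hT
    positivity
  · filter_upwards [eventually_gt_atTop (0 : ℝ), Real.tendsto_log_atTop.eventually_ge_atTop 1]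
      with T hT hL
    rw [Real.rpow_natCast, ← mul_div_assoc, ← mul_pow]
    have : 1 + Real.log T ≤ 2 * Real.log T := by linarith
    gcongr

theorem norm_cpow_pos {n : ℕ} (hn : 1 ≤ n) (t : ℝ) :
    ‖(n : ℂ) ^ (-(1 / 2 + (t : ℂ) * I))‖ = 1 / Real.sqrt n := by
  have hn0 : (0 : ℝ) < n := by exact_mod_cast hn
  have h1 : (-(1 / 2 + (t : ℂ) * I)).re = -(1 / 2 : ℝ) := by simp
  rw [Complex.norm_natCast_cpow_of_pos hn, Real.sqrt_eq_rpow, h1, Real.rpow_neg hn0.le]
  exact (one_div _).symm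

theorem norm_cpow_neg {n : ℕ} (hn : 1 ≤ n) (t : ℝ) :
    ‖(n : ℂ) ^ (-(1 / 2 - (t : ℂ) * I))‖ = 1 / Real.sqrt n := by
  have hn0 : (0 : ℝ) < n := by exact_mod_cast hn
  have h1 : (-(1 / 2 - (t : ℂ) * I)).re = -(1 / 2 : ℝ) := by simp
  rw [Complex.norm_natCast_cpow_of_pos hn, Real.sqrt_eq_rpow, h1, Real.rpow_neg hn0.le]
  exact (one_div _).symm

theorem continuous_cpow_pos {n : ℕ} (hn : 1 ≤ n) :
    Continuous fun t : ℝ => (n : ℂ) ^ (-(1 / 2 + (t : ℂ) * I)) := by
  have hn0 : (n : ℂ) ≠ 0 := by exact_mod_cast (by omega : n ≠ 0)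
  exact Continuous.const_cpow (by fun_prop) (Or.inl hn0)

theorem continuous_cpow_neg {n : ℕ} (hn : 1 ≤ n) :
    Continuous fun t : ℝ => (n : ℂ) ^ (-(1 / 2 - (t : ℂ) * I)) := by
  have hn0 : (n : ℂ) ≠ 0 := by exact_mod_cast (by omega : n ≠ 0)
  exact Continuous.const_cpow (by fun_prop) (Or.inl hn0)

/-- `∑_{r ≤ M} r^{-1/2} ≤ 2 M^{1/2}`. -/
theorem sum_inv_sqrt (M : ℕ) : ∑ r ∈ Finset.Icc 1 M, 1 / Real.sqrt (r : ℝ) ≤
    2 * Real.sqrt (M : ℝ) := by
  induction M with
  | zero => simp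
  | succ M ih =>
    rw [Finset.sum_Icc_succ_top (by omega)]
    have h1 : 0 < Real.sqrt ((M + 1 : ℕ) : ℝ) := Real.sqrt_pos.2 (by positivity)
    have h2 : 0 ≤ Real.sqrt (M : ℝ) := Real.sqrt_nonneg _
    have h3 : Real.sqrt ((M + 1 : ℕ) : ℝ) ^ 2 = M + 1 := by
      rw [Real.sq_sqrt (by positivity)]
      push_cast
      ring
    have h4 : Real.sqrt (M : ℝ) ^ 2 = M := Real.sq_sqrt (Nat.cast_nonneg M)
    have h5 : 1 / Real.sqrt ((M + 1 : ℕ) : ℝ) ≤
        2 * Real.sqrt ((M + 1 : ℕ) : ℝ) - 2 * Real.sqrt (M : ℝ) := by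
      rw [div_le_iff₀ h1]
      nlinarith [sq_nonneg (Real.sqrt ((M + 1 : ℕ) : ℝ) - Real.sqrt (M : ℝ))]
    linarith

end SizeAux

open SizeAux

/-- **Module size** (3 theorems, about 170 lines). The size of `G`.

PROOF. `‖n^{-(1/2+it)}‖ = n^{-1/2}`, `|κ| ≤ 1`, `gg_le`, `d_half` with `N = ⌊T⌋`:
`‖Gk‖ ≤ C T^{1/2} (1 + log T)² ≤ T^{3/5}`. -/
theorem S_sizeG {h κ : ℝ → ℝ} {d e : ℝ} (hh : Hok h) (hd : 0 < d) (hd1 : d < 1 / 2)
    (he : 0 < e) (hκ : Step (1 - 2 * e) (1 - e) κ) :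
    ∀ᶠ T : ℝ in atTop, (∀ t : ℝ, ‖Gk h κ d T t‖ ≤ T ^ (3 / 5 : ℝ)) ∧ Continuous (Gk h κ d T) := by
  obtain ⟨C, hC, hgg⟩ := gg_le hh hd
  have hlim := (tendsto_log_pow 2 (show (0 : ℝ) < 1 / 10 by norm_num)).const_mul C
  rw [mul_zero] at hlim
  filter_upwards [hgg, eventually_ge_atTop 3,
    hlim.eventually (gt_mem_nhds (show (0 : ℝ) < 1 by norm_num))] with T hgT h3 hlp
  have hT0 : 0 < T := by linarith
  have hN1 : 1 ≤ ⌊T⌋₊ := Nat.le_floor (by push_cast; linarith)
  refine ⟨fun t => ?_, ?_⟩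
  · have h1 : ‖Gk h κ d T t‖ ≤ C * (Real.sqrt T * (1 + Real.log T) ^ 2) := by
      unfold Gk
      calc _ ≤ ∑ n ∈ Finset.Icc 1 ⌊T⌋₊, C * ((n.divisors.card : ℝ) / Real.sqrt n) := by
            refine (norm_sum_le _ _).trans (Finset.sum_le_sum fun n hn => ?_)
            have hn1 := (Finset.mem_Icc.1 hn).1
            rw [norm_mul, norm_cpow_pos hn1, norm_real, Real.norm_eq_abs, abs_mul]
            have hk : |κ (Real.log n / Real.log T)| ≤ 1 := by
              rw [abs_of_nonneg (hκ.nonneg _)]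
              exact hκ.le_one _
            calc |gg h d T n| * |κ (Real.log n / Real.log T)| * (1 / Real.sqrt n) ≤
                  (C * n.divisors.card) * 1 * (1 / Real.sqrt n) := by
                  gcongr
                  exact hgT n
              _ = _ := by ring
        _ = C * ∑ n ∈ Finset.Icc 1 ⌊T⌋₊, (n.divisors.card : ℝ) / Real.sqrt n := by
            rw [Finset.mul_sum]
        _ ≤ C * (Real.sqrt ⌊T⌋₊ * (1 + Real.log ⌊T⌋₊) ^ 2) := by
            have := d_half ⌊T⌋₊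
            gcongr
        _ ≤ _ := by
            have hNT : ((⌊T⌋₊ : ℕ) : ℝ) ≤ T := Nat.floor_le hT0.le
            have hN0 : (1 : ℝ) ≤ ((⌊T⌋₊ : ℕ) : ℝ) := by exact_mod_cast hN1
            have hlN : 0 ≤ Real.log ((⌊T⌋₊ : ℕ) : ℝ) := Real.log_nonneg hN0
            have hlNT : Real.log ((⌊T⌋₊ : ℕ) : ℝ) ≤ Real.log T := Real.log_le_log (by linarith) hNT
            have hsN : Real.sqrt ((⌊T⌋₊ : ℕ) : ℝ) ≤ Real.sqrt T := Real.sqrt_le_sqrt hNT
            gcongr
    refine h1.trans ?_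
    have hp : 0 < T ^ (1 / 10 : ℝ) := Real.rpow_pos_of_pos hT0 _
    rw [← mul_div_assoc, div_lt_one hp] at hlp
    have hs : Real.sqrt T = T ^ (1 / 2 : ℝ) := Real.sqrt_eq_rpow T
    have hq : 0 < T ^ (1 / 2 : ℝ) := Real.rpow_pos_of_pos hT0 _
    calc C * (Real.sqrt T * (1 + Real.log T) ^ 2) =
          T ^ (1 / 2 : ℝ) * (C * (1 + Real.log T) ^ 2) := by rw [hs]; ring
      _ ≤ T ^ (1 / 2 : ℝ) * T ^ (1 / 10 : ℝ) := by gcongr
      _ = T ^ (3 / 5 : ℝ) := by
          rw [← Real.rpow_add hT0]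
          norm_num
  · unfold Gk
    refine continuous_finsetSum _ fun n hn => ?_
    exact continuous_const.mul (continuous_cpow_pos (Finset.mem_Icc.1 hn).1)

/-- The `ℓ¹` norm of the dual polynomial.

PROOF. A term is nonzero only if `mt/(2πr) > T^{x₀}`, so `r < m T^{1-x₀}` (`t ≤ T`, `2π ≥ 1`);
`|a(m)| ≤ C` (`am_bdd`); the argument of `λ` is at most `1 + d ≤ 2` (`mt/(2πr) ≤ T^{1+d}`), so
`|λ| ≤ B`; `∑_{r ≤ X} r^{-1/2} ≤ 2 X^{1/2}`: the sum is at most
`C B ∑_{m ≤ T^d} m^{-1/2} 2 (m T^{1-x₀})^{1/2} ≤ 2CB T^{d+(1-x₀)/2}`, and `d + (1-x₀)/2 < 1/2`. -/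
theorem sumU {h : ℝ → ℝ} {d x₀ B : ℝ} (hh : Hok h) (hd : 0 < d) (hx : 2 * d < x₀) (hx1 : x₀ ≤ 1)
    (hB : 0 < B) :
    ∀ᶠ T : ℝ in atTop, ∀ lam : ℝ → ℝ, PB x₀ B lam → ∀ t : ℝ, 0 < t → t ≤ T →
      ∑ m ∈ Finset.Icc 1 (Zd d T), ∑ r ∈ Finset.Icc 1 ⌊T⌋₊,
        |am h d T m * lam (Real.log (m * t / (2 * π * r)) / Real.log T)| /
          Real.sqrt ((m : ℝ) * r) ≤ T ^ (1 / 2 : ℝ) := by
  obtain ⟨C, hC, ham⟩ := am_bdd hh hd
  filter_upwards [ham, eventually_ge_atTop 3,
    (tendsto_rpow_atTop (show 0 < (x₀ - 2 * d) / 2 by linarith)).eventually_ge_atTop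
      (2 * C * B)] with T haT h3 hbig lam hlam t ht htT
  have hT0 : 0 < T := by linarith
  have hT1 : 1 ≤ T := by linarith
  have hL0 : 0 < Real.log T := Real.log_pos (by linarith)
  have hpi : 1 ≤ 2 * π := by linarith [Real.pi_gt_three]
  have hpi0 : 0 < 2 * π := by linarith
  have hrow : ∀ m ∈ Finset.Icc 1 (Zd d T), ∑ r ∈ Finset.Icc 1 ⌊T⌋₊,
        |am h d T m * lam (Real.log (m * t / (2 * π * r)) / Real.log T)| /
          Real.sqrt ((m : ℝ) * r) ≤ 2 * C * B * T ^ ((1 - x₀) / 2) := by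
    intro m hm
    have hm1 : 1 ≤ m := (Finset.mem_Icc.1 hm).1
    have hm2 : m ≤ Zd d T := (Finset.mem_Icc.1 hm).2
    have hm0 : (0 : ℝ) < m := by exact_mod_cast hm1
    have hmT : (m : ℝ) ≤ T ^ d := by
      refine le_trans (by exact_mod_cast hm2) (Nat.floor_le (Real.rpow_nonneg hT0.le d))
    set X : ℝ := m * T ^ (1 - x₀) with hX
    have hX0 : 0 < X := by positivity
    have hterm : ∀ r ∈ Finset.Icc 1 ⌊T⌋₊,
        |am h d T m * lam (Real.log (m * t / (2 * π * r)) / Real.log T)| /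
          Real.sqrt ((m : ℝ) * r) ≤
        if r ≤ ⌊X⌋₊ then C * B / Real.sqrt m * (1 / Real.sqrt r) else 0 := by
      intro r hr
      have hr1 : 1 ≤ r := (Finset.mem_Icc.1 hr).1
      have hr0 : (0 : ℝ) < r := by exact_mod_cast hr1
      have harg : 0 < m * t / (2 * π * r) := by positivity
      split_ifs with hrX
      · have hle : Real.log (m * t / (2 * π * r)) / Real.log T ≤ 2 := by
          rw [div_le_iff₀ hL0, ← Real.log_rpow hT0]
          refine Real.log_le_log harg ?_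
          rw [div_le_iff₀ (by positivity)]
          have hr1' : (1 : ℝ) ≤ r := by exact_mod_cast hr1
          have h5 : (1 : ℝ) ≤ 2 * π * r := by nlinarith
          have h6 : (m : ℝ) * t ≤ T ^ (2 : ℝ) := by
            calc (m : ℝ) * t ≤ T ^ d * T := by gcongr
              _ = T ^ (d + 1) := by rw [Real.rpow_add hT0, Real.rpow_one]
              _ ≤ T ^ (2 : ℝ) := Real.rpow_le_rpow_of_exponent_le hT1 (by linarith)
          have h7 : 0 ≤ T ^ (2 : ℝ) := by positivity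
          exact h6.trans (le_mul_of_one_le_right h7 h5)
        rw [abs_mul, Real.sqrt_mul hm0.le]
        have h8 := hlam.bdd _ hle
        calc |am h d T m| * |lam (Real.log (m * t / (2 * π * r)) / Real.log T)| /
              (Real.sqrt m * Real.sqrt r) ≤ C * B / (Real.sqrt m * Real.sqrt r) := by
              gcongr
              exact haT m
          _ = _ := by
              have hsm : 0 < Real.sqrt m := Real.sqrt_pos.2 hm0
              have hsr : 0 < Real.sqrt r := Real.sqrt_pos.2 hr0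
              field_simp
      · have hz : lam (Real.log (m * t / (2 * π * r)) / Real.log T) = 0 := by
          refine hlam.zero _ ?_
          rw [div_le_iff₀ hL0, ← Real.log_rpow hT0]
          refine Real.log_le_log harg ?_
          rw [div_le_iff₀ (by positivity)]
          push Not at hrX
          have h5 : X < r := (Nat.floor_lt hX0.le).1 hrX
          have h6 : T ^ x₀ * T ^ (1 - x₀) = T := by
            rw [← Real.rpow_add hT0]
            simp
          have hTx : 0 < T ^ x₀ := Real.rpow_pos_of_pos hT0 _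
          calc (m : ℝ) * t ≤ m * T := by gcongr
            _ = T ^ x₀ * X := by rw [hX, ← h6]; ring_nf; rw [h6]
            _ ≤ T ^ x₀ * r := by gcongr
            _ ≤ T ^ x₀ * (2 * π * r) := by
                refine mul_le_mul_of_nonneg_left ?_ hTx.le
                nlinarith
        rw [hz, mul_zero, abs_zero, zero_div]
    calc _ ≤ ∑ r ∈ Finset.Icc 1 ⌊T⌋₊,
          (if r ≤ ⌊X⌋₊ then C * B / Real.sqrt m * (1 / Real.sqrt r) else 0) :=
          Finset.sum_le_sum hterm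
      _ ≤ ∑ r ∈ Finset.Icc 1 ⌊X⌋₊, C * B / Real.sqrt m * (1 / Real.sqrt r) := by
          rw [← Finset.sum_filter]
          refine Finset.sum_le_sum_of_subset_of_nonneg ?_ fun _ _ _ => by positivity
          intro r hr
          rw [Finset.mem_filter, Finset.mem_Icc] at hr
          exact Finset.mem_Icc.2 ⟨hr.1.1, hr.2⟩
      _ = C * B / Real.sqrt m * ∑ r ∈ Finset.Icc 1 ⌊X⌋₊, 1 / Real.sqrt (r : ℝ) := by
          rw [Finset.mul_sum]
      _ ≤ C * B / Real.sqrt m * (2 * Real.sqrt X) := by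
          have h5 := sum_inv_sqrt ⌊X⌋₊
          have h6 : Real.sqrt ((⌊X⌋₊ : ℕ) : ℝ) ≤ Real.sqrt X :=
            Real.sqrt_le_sqrt (Nat.floor_le hX0.le)
          refine mul_le_mul_of_nonneg_left ?_ (by positivity)
          linarith
      _ = 2 * C * B * T ^ ((1 - x₀) / 2) := by
          have hsm : 0 < Real.sqrt m := Real.sqrt_pos.2 hm0
          have h7 : Real.sqrt X = Real.sqrt m * T ^ ((1 - x₀) / 2) := by
            rw [hX, Real.sqrt_mul hm0.le, Real.sqrt_eq_rpow (T ^ (1 - x₀)), ← Real.rpow_mul hT0.le]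
            congr 2
            ring
          rw [h7]
          field_simp
  calc _ ≤ ∑ _m ∈ Finset.Icc 1 (Zd d T), 2 * C * B * T ^ ((1 - x₀) / 2) :=
        Finset.sum_le_sum hrow
    _ = (Zd d T : ℝ) * (2 * C * B * T ^ ((1 - x₀) / 2)) := by
        rw [Finset.sum_const, Nat.card_Icc, nsmul_eq_mul]
        simp
    _ ≤ T ^ d * (T ^ ((x₀ - 2 * d) / 2) * T ^ ((1 - x₀) / 2)) := by
        have h5 : (Zd d T : ℝ) ≤ T ^ d := Nat.floor_le (Real.rpow_nonneg hT0.le d)
        gcongr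
    _ = T ^ (1 / 2 : ℝ) := by
        rw [← Real.rpow_add hT0, ← Real.rpow_add hT0]
        congr 1
        ring

/-- The size of `U`. PROOF. `sumU` and `chi_norm_half`; continuity: each term is continuous in
`t > 0`, and `T1 T > 0` for `T > 1`. (That `Prof` gives some `PB x₀ B` is `prof_PB` in FbVs; to avoid
the import prove it again privately or import FbVs.) -/
theorem S_sizeU {h lam : ℝ → ℝ} {d x₀ : ℝ} (hh : Hok h) (hd : 0 < d) (hx : 2 * d < x₀)
    (hx1 : x₀ ≤ 1) (hl : Prof x₀ lam) :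
    ∀ᶠ T : ℝ in atTop, (∀ t ∈ Icc (T1 T) (T2 T), ‖Uu h lam d T t‖ ≤ T ^ (3 / 5 : ℝ)) ∧
      ContinuousOn (Uu h lam d T) (Icc (T1 T) (T2 T)) := by
  obtain ⟨B, hB, hPB, -⟩ := prof_PB hl
  filter_upwards [sumU hh hd hx hx1 hB, eventually_ge_atTop 3] with T hsum h3
  have hT0 : 0 < T := by linarith
  have hL0 : 0 < Real.log T := Real.log_pos (by linarith)
  have hT1 : 0 < T1 T := by
    unfold T1
    positivity
  have hT2 : T2 T ≤ T := by
    unfold T2
    have : 0 ≤ T ^ (3 / 4 : ℝ) := by positivity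
    linarith
  refine ⟨fun t ht => ?_, ?_⟩
  · have ht0 : 0 < t := hT1.trans_le ht.1
    have htT : t ≤ T := ht.2.trans hT2
    have h4 := hsum lam hPB t ht0 htT
    have h5 : ‖Vv h lam d T t‖ ≤ T ^ (1 / 2 : ℝ) := by
      refine le_trans ?_ h4
      unfold Vv
      refine (norm_sum_le _ _).trans (Finset.sum_le_sum fun m hm => ?_)
      refine (norm_sum_le _ _).trans (Finset.sum_le_sum fun r hr => ?_)
      rw [norm_mul, norm_mul, norm_cpow_pos (Finset.mem_Icc.1 hm).1,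
        norm_cpow_neg (Finset.mem_Icc.1 hr).1, norm_real, Real.norm_eq_abs,
        Real.sqrt_mul (Nat.cast_nonneg m)]
      refine le_of_eq ?_
      rw [mul_assoc, div_mul_div_comm, one_mul, mul_one_div]
    unfold Uu
    rw [norm_mul, chi_norm_half, one_mul]
    exact h5.trans (Real.rpow_le_rpow_of_exponent_le (by linarith) (by norm_num))
  · unfold Uu
    refine continuous_chi_half.continuousOn.mul ?_
    unfold Vv
    refine continuousOn_finsetSum _ fun m hm => continuousOn_finsetSum _ fun r hr => ?_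
    have hm1 := (Finset.mem_Icc.1 hm).1
    have hr1 := (Finset.mem_Icc.1 hr).1
    have hm0 : (0 : ℝ) < m := by exact_mod_cast hm1
    have hr0 : (0 : ℝ) < r := by exact_mod_cast hr1
    refine (ContinuousOn.mul ?_ (continuous_cpow_pos hm1).continuousOn).mul
      (continuous_cpow_neg hr1).continuousOn
    refine Complex.continuous_ofReal.comp_continuousOn ?_
    refine continuousOn_const.mul (hl.smooth.continuous.comp_continuousOn ?_)
    refine ContinuousOn.div_const ?_ _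
    refine ContinuousOn.log (by fun_prop) fun t ht => ?_
    have ht0 : 0 < t := hT1.trans_le ht.1
    positivity

end Pool.Agent.MP_67227b_nt.Fb
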