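import Pool.Agent.MP_67227b_nt.Fb.FbLoc0
import Pool.Agent.MP_67227b_nt.Fb.FbSize

set_option autoImplicit false

open Filter Topology Set MeasureTheory Complex
open scoped Real ContDiff ArithmeticFunction ArithmeticFunction.Moebius ComplexConjugate

namespace Pool.Agent.MP_67227b_nt.Fb

open Pool.Agent.Lib.ZetaCount_helper33 Pool.Agent.MP_67227b_nt Pool.Agent.MP_67227b_nt.Mo

private theorem LOCG_conj (h κ : ℝ → ℝ) (d T t : ℝ) :
    conj (Gk h κ d T t) = ∑ n ∈ Finset.Icc 1 ⌊T⌋₊,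
      (((gg h d T n * κ (Real.log n / Real.log T) : ℝ) : ℂ) * (n : ℂ) ^ (-(1 / 2 : ℂ))) *
        Complex.exp (I * (Real.log n : ℝ) * t) := by
  unfold Gk
  rw [map_sum]
  refine Finset.sum_congr rfl fun n hn => ?_
  have hn1 : 1 ≤ n := (Finset.mem_Icc.1 hn).1
  have hn0 : (n : ℂ) ≠ 0 := by exact_mod_cast (show n ≠ 0 by omega)
  rw [map_mul, Complex.conj_ofReal, mul_assoc]
  congr 1
  rw [Complex.cpow_def_of_ne_zero hn0, Complex.cpow_def_of_ne_zero hn0, ← Complex.exp_conj,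
    ← Complex.exp_add, ← Complex.natCast_log]
  congr 1
  simp only [map_mul, map_neg, map_add, Complex.conj_ofReal, Complex.conj_I, map_div₀, map_one,
    map_ofNat]
  ring

private theorem LOCG_int {ψ : ℝ → ℝ} {δ : ℝ} (hδ : 0 ≤ δ) (hψ : Bump δ (cf ψ)) {L : ℝ}
    (hL : 2 * π ≤ L) (γ : ℝ) :
    Integrable (fun t : ℝ => gs (cf ψ) (((γ - t) * L / (2 * π) : ℝ) : ℂ)) := by
  obtain ⟨C, hC, h⟩ := loc_moment hδ hψ
  obtain ⟨h1, -⟩ := h L hL γ
  have hc := continuous_gs hδ hψ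
  refine h1.mono' ?_ (Eventually.of_forall fun t => ?_)
  · exact (hc.comp (by fun_prop : Continuous fun t : ℝ =>
      (((γ - t) * L / (2 * π) : ℝ) : ℂ))).aestronglyMeasurable
  · exact le_mul_of_one_le_right (norm_nonneg _) (by nlinarith [sq_nonneg |t - γ|])

private theorem LOCG_norm_exp (w t : ℝ) : ‖Complex.exp (I * w * t)‖ = 1 := by
  have e : I * w * t = ((w * t : ℝ) : ℂ) * I := by
    push_cast
    ring
  rw [e, Complex.norm_exp_ofReal_mul_I]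

private theorem LOCG_full {h κ ψ : ℝ → ℝ} {d e δ T : ℝ} (hκ : Step (1 - 2 * e) (1 - e) κ)
    (hδ : 0 ≤ δ) (hψ : Bump δ (cf ψ)) (hψ1 : ∀ x, 0 ≤ x → x ≤ 1 - e → ψ x = 1)
    (hL : 2 * π ≤ Real.log T) (γ : ℝ) :
    Integrable (fun t : ℝ => gs (cf ψ) (((γ - t) * Real.log T / (2 * π) : ℝ) : ℂ) *
      conj (Gk h κ d T t)) ∧
    ((Real.log T / (2 * π) : ℝ) : ℂ) * (∫ t : ℝ,
      gs (cf ψ) (((γ - t) * Real.log T / (2 * π) : ℝ) : ℂ) * conj (Gk h κ d T t)) =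
      conj (Gk h κ d T γ) := by
  have hπ := Real.pi_pos
  have hL0 : 0 < Real.log T := by linarith
  have hgi := LOCG_int hδ hψ hL γ
  set L := Real.log T with hLdef
  set b : ℕ → ℂ := fun n => ((gg h d T n * κ (Real.log n / L) : ℝ) : ℂ) *
    (n : ℂ) ^ (-(1 / 2 : ℂ)) with hb
  have hterm : ∀ n : ℕ, Integrable (fun t : ℝ => b n *
      (gs (cf ψ) (((γ - t) * L / (2 * π) : ℝ) : ℂ) * Complex.exp (I * (Real.log n : ℝ) * t))) := by
    intro n
    refine Integrable.const_mul ?_ _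
    refine hgi.mul_bdd (c := 1) ?_ (Eventually.of_forall fun t => ?_)
    · exact (by fun_prop : Continuous fun t : ℝ =>
        Complex.exp (I * (Real.log n : ℝ) * t)).aestronglyMeasurable
    · exact (LOCG_norm_exp _ _).le
  have heq : ∀ t : ℝ, gs (cf ψ) (((γ - t) * L / (2 * π) : ℝ) : ℂ) * conj (Gk h κ d T t) =
      ∑ n ∈ Finset.Icc 1 ⌊T⌋₊, b n *
      (gs (cf ψ) (((γ - t) * L / (2 * π) : ℝ) : ℂ) * Complex.exp (I * (Real.log n : ℝ) * t)) := by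
    intro t
    rw [LOCG_conj, Finset.mul_sum]
    refine Finset.sum_congr rfl fun n _ => ?_
    rw [hb]
    ring
  simp only [heq]
  refine ⟨integrable_finsetSum _ fun n _ => hterm n, ?_⟩
  rw [integral_finsetSum _ fun n _ => hterm n, Finset.mul_sum, LOCG_conj]
  refine Finset.sum_congr rfl fun n hn => ?_
  have hn1 : 1 ≤ n := (Finset.mem_Icc.1 hn).1
  rw [integral_const_mul]
  have h1 := loc_exp hδ hψ hL0 γ (Real.log n)
  have h2 : κ (Real.log n / L) * ψ (Real.log n / L) = κ (Real.log n / L) := by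
    rcases le_total (Real.log n / L) (1 - e) with h3 | h3
    · rw [hψ1 _ (div_nonneg (Real.log_natCast_nonneg n) hL0.le) h3, mul_one]
    · rw [hκ.zero _ h3, zero_mul]
  calc ((L / (2 * π) : ℝ) : ℂ) * (b n * ∫ t : ℝ,
        gs (cf ψ) (((γ - t) * L / (2 * π) : ℝ) : ℂ) * Complex.exp (I * (Real.log n : ℝ) * t))
      = b n * (((L / (2 * π) : ℝ) : ℂ) * ∫ t : ℝ,
        gs (cf ψ) (((γ - t) * L / (2 * π) : ℝ) : ℂ) * Complex.exp (I * (Real.log n : ℝ) * t)) := by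
        ring
    _ = b n * (Complex.exp (I * (Real.log n : ℝ) * γ) * (ψ (Real.log n / L) : ℂ)) := by rw [h1]
    _ = ((gg h d T n * (κ (Real.log n / L) * ψ (Real.log n / L)) : ℝ) : ℂ) *
        (n : ℂ) ^ (-(1 / 2 : ℂ)) * Complex.exp (I * (Real.log n : ℝ) * γ) := by
        rw [hb]
        push_cast
        ring
    _ = _ := by rw [h2]

/-- Module LOCG. Localisation for `G`.

PROOF. `conj(Gk h κ d T t) = ∑_{n ≤ T} g(n) κ(log n/log T) n^{-1/2} e^{it log n}` for all real `t`.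
Over the whole line `loc_exp` with `ω = log n` gives for every term exactly
`g(n) κ(log n/L) ψ(log n/L) n^{-1/2} e^{iγ log n}`, and `κ ψ = κ` at `log n/L ∈ [0, ∞)`: for
`log n/L ≤ 1-e` by `hψ1`, beyond by `Step.zero` (both sides `0`). So the integral over `ℝ` is exactly
`conj(Gk h κ d T γ)`. The difference between `∫_ℝ` and `∫_{T1}^{T2}` is at most
`(L/2π) ∫_{|t-γ| ≥ T^(1/4)} ‖gs ψ(..)‖ T^(3/5) dt ≤ C T^(3/5) T^(-1)` by `S_sizeG` and `loc_tail`
with `K = 4`, which is `≤ T^(-1/10)` for `T` large. -/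
theorem S_locG {h κ ψ : ℝ → ℝ} {d e δ : ℝ} (hh : Hok h) (hd : 0 < d) (hd1 : d < 1 / 2)
    (he : 0 < e) (hκ : Step (1 - 2 * e) (1 - e) κ) (hδ : 0 ≤ δ) (hψ : Bump δ (cf ψ))
    (hψ1 : ∀ x, 0 ≤ x → x ≤ 1 - e → ψ x = 1) :
    ∀ᶠ T : ℝ in atTop, ∀ γ : ℝ, T1 T + T ^ (1 / 4 : ℝ) ≤ γ → γ ≤ T2 T - T ^ (1 / 4 : ℝ) →
      ‖((Real.log T / (2 * π) : ℝ) : ℂ) * (∫ t in (T1 T)..(T2 T),
          gs (cf ψ) (((γ - t) * Real.log T / (2 * π) : ℝ) : ℂ) * conj (Gk h κ d T t)) -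
        conj (Gk h κ d T γ)‖ ≤ T ^ (-(1 / 10) : ℝ) := by
  have hπ := Real.pi_pos
  obtain ⟨C, hC, htail⟩ := loc_tail hδ hψ 4
  have hlim : Tendsto (fun T : ℝ => C / (2 * π) * T ^ (-(3 / 10) : ℝ)) atTop (𝓝 0) := by
    have h1 := (tendsto_rpow_neg_atTop (y := 3 / 10) (by norm_num)).const_mul (C / (2 * π))
    simpa using h1
  filter_upwards [S_sizeG hh hd hd1 he hκ, eventually_ge_atTop 1,
    Real.tendsto_log_atTop.eventually_ge_atTop (2 * π),
    hlim.eventually (eventually_le_nhds one_pos)] with T hS hT hL hsm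
  intro γ h1 h2
  have hT0 : 0 < T := by linarith
  have hL0 : 0 < Real.log T := by linarith
  obtain ⟨hI, hfull⟩ := LOCG_full (h := h) (d := d) hκ hδ hψ hψ1 hL γ
  have hA : 1 ≤ T ^ (1 / 4 : ℝ) := Real.one_le_rpow hT (by norm_num)
  have h12 : T1 T ≤ T2 T := by linarith
  have hgi := LOCG_int hδ hψ hL γ
  rw [intervalIntegral.integral_of_le h12]
  have hsplit := integral_add_compl (s := Ioc (T1 T) (T2 T)) measurableSet_Ioc hI
  have e1 : ((Real.log T / (2 * π) : ℝ) : ℂ) * (∫ t in Ioc (T1 T) (T2 T),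
      gs (cf ψ) (((γ - t) * Real.log T / (2 * π) : ℝ) : ℂ) * conj (Gk h κ d T t)) -
        conj (Gk h κ d T γ) = -(((Real.log T / (2 * π) : ℝ) : ℂ) *
        ∫ t in (Ioc (T1 T) (T2 T))ᶜ,
      gs (cf ψ) (((γ - t) * Real.log T / (2 * π) : ℝ) : ℂ) * conj (Gk h κ d T t)) := by
    rw [← hfull, ← hsplit]
    ring
  rw [e1, norm_neg, norm_mul, Complex.norm_real, Real.norm_of_nonneg (by positivity)]
  have h3 : ‖∫ t in (Ioc (T1 T) (T2 T))ᶜ,
      gs (cf ψ) (((γ - t) * Real.log T / (2 * π) : ℝ) : ℂ) * conj (Gk h κ d T t)‖ ≤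
      ∫ t in (Ioc (T1 T) (T2 T))ᶜ,
        ‖gs (cf ψ) (((γ - t) * Real.log T / (2 * π) : ℝ) : ℂ)‖ * T ^ (3 / 5 : ℝ) := by
    refine (norm_integral_le_integral_norm _).trans ?_
    refine integral_mono hI.integrableOn.norm (hgi.integrableOn.norm.mul_const _) fun t => ?_
    simp only [norm_mul, Complex.norm_conj]
    exact mul_le_mul_of_nonneg_left (hS.1 t) (norm_nonneg _)
  rw [integral_mul_const] at h3
  have hsub : (Ioc (T1 T) (T2 T))ᶜ ⊆ {t : ℝ | T ^ (1 / 4 : ℝ) ≤ |t - γ|} := by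
    intro t ht
    simp only [mem_compl_iff, mem_Ioc, not_and_or, not_lt, not_le] at ht
    rw [mem_ofPred_eq]
    rcases ht with ht | ht
    · rw [abs_of_nonpos (by linarith)]
      linarith
    · rw [abs_of_nonneg (by linarith)]
      linarith
  have h4 : ∫ t in (Ioc (T1 T) (T2 T))ᶜ,
      ‖gs (cf ψ) (((γ - t) * Real.log T / (2 * π) : ℝ) : ℂ)‖ ≤
      ∫ t in {t : ℝ | T ^ (1 / 4 : ℝ) ≤ |t - γ|},
      ‖gs (cf ψ) (((γ - t) * Real.log T / (2 * π) : ℝ) : ℂ)‖ :=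
    setIntegral_mono_set hgi.norm.integrableOn (Eventually.of_forall fun t => norm_nonneg _)
      (Eventually.of_forall hsub)
  have h5 := htail (Real.log T) hL γ (T ^ (1 / 4 : ℝ)) hA
  have e2 : (T ^ (1 / 4 : ℝ)) ^ 4 = T := by
    rw [← Real.rpow_natCast, ← Real.rpow_mul hT0.le]
    norm_num
  rw [e2] at h5
  have hT35 : 0 < T ^ (3 / 5 : ℝ) := by positivity
  calc Real.log T / (2 * π) * _ ≤ Real.log T / (2 * π) *
        ((∫ t in {t : ℝ | T ^ (1 / 4 : ℝ) ≤ |t - γ|},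
      ‖gs (cf ψ) (((γ - t) * Real.log T / (2 * π) : ℝ) : ℂ)‖) * T ^ (3 / 5 : ℝ)) := by
        refine mul_le_mul_of_nonneg_left (h3.trans ?_) (by positivity)
        exact mul_le_mul_of_nonneg_right h4 hT35.le
    _ = T ^ (3 / 5 : ℝ) / (2 * π) * (Real.log T * ∫ t in {t : ℝ | T ^ (1 / 4 : ℝ) ≤ |t - γ|},
      ‖gs (cf ψ) (((γ - t) * Real.log T / (2 * π) : ℝ) : ℂ)‖) := by ring
    _ ≤ T ^ (3 / 5 : ℝ) / (2 * π) * (C / T) := mul_le_mul_of_nonneg_left h5 (by positivity)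
    _ = (C / (2 * π) * T ^ (-(3 / 10) : ℝ)) * T ^ (-(1 / 10) : ℝ) := by
        have e3 : T ^ (3 / 5 : ℝ) / T = T ^ (-(3 / 10) : ℝ) * T ^ (-(1 / 10) : ℝ) := by
          rw [← Real.rpow_add hT0]
          conv_lhs => rw [← Real.rpow_one T, ← Real.rpow_mul hT0.le]
          rw [← Real.rpow_sub hT0]
          norm_num
        calc T ^ (3 / 5 : ℝ) / (2 * π) * (C / T) = C / (2 * π) * (T ^ (3 / 5 : ℝ) / T) := by ring
          _ = _ := by rw [e3]; ring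
    _ ≤ 1 * T ^ (-(1 / 10) : ℝ) := mul_le_mul_of_nonneg_right hsm (by positivity)
    _ = T ^ (-(1 / 10) : ℝ) := one_mul _

end Pool.Agent.MP_67227b_nt.Fb
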