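import Pool.Agent.MP_67227b_nt.Fb.FbLocU1
import Pool.Agent.MP_67227b_nt.Fb.FbCoef

set_option autoImplicit false

open Filter Topology Set MeasureTheory Complex
open scoped Real ContDiff ArithmeticFunction ArithmeticFunction.Moebius ComplexConjugate

namespace Pool.Agent.MP_67227b_nt.Fb

open Pool.Agent.Lib.ZetaCount_helper33 Pool.Agent.MP_67227b_nt Pool.Agent.MP_67227b_nt.Mo

private theorem lu_sum_sqrt (n : ℕ) :
    ∑ r ∈ Finset.Icc 1 n, (r : ℝ) ^ (-(1 / 2) : ℝ) ≤ 2 * Real.sqrt n := by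
  induction n with
  | zero => simp
  | succ n ih =>
    rw [Finset.sum_Icc_succ_top (by omega)]
    have h0 : (0 : ℝ) < ((n + 1 : ℕ) : ℝ) := by positivity
    have h1 : (((n + 1 : ℕ) : ℝ)) ^ (-(1 / 2) : ℝ) = 1 / Real.sqrt ((n + 1 : ℕ) : ℝ) := by
      rw [Real.rpow_neg h0.le, Real.sqrt_eq_rpow, one_div, one_div]
    rw [h1]
    have ha : 0 ≤ Real.sqrt (n : ℝ) := Real.sqrt_nonneg _
    have hb : 0 < Real.sqrt ((n + 1 : ℕ) : ℝ) := Real.sqrt_pos.2 h0
    have ha2 : Real.sqrt (n : ℝ) ^ 2 = n := Real.sq_sqrt (by positivity)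
    have hb2 : Real.sqrt ((n + 1 : ℕ) : ℝ) ^ 2 = n + 1 := by
      rw [Real.sq_sqrt h0.le]
      push_cast
      ring
    generalize Real.sqrt (n : ℝ) = a at *
    generalize Real.sqrt ((n + 1 : ℕ) : ℝ) = b at *
    have h2 : 1 / b ≤ 2 * (b - a) := by
      rw [div_le_iff₀ hb]
      nlinarith [sq_nonneg (b - a)]
    linarith

private theorem lu_sum_filter (N : ℕ) {R : ℝ} (hR : 0 ≤ R) :
    ∑ r ∈ Finset.Icc 1 N, (if (r : ℝ) ≤ R then (r : ℝ) ^ (-(1 / 2) : ℝ) else 0) ≤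
      2 * Real.sqrt R := by
  rw [← Finset.sum_filter]
  have h1 : ∑ r ∈ (Finset.Icc 1 N).filter (fun r : ℕ => (r : ℝ) ≤ R), (r : ℝ) ^ (-(1 / 2) : ℝ) ≤
      ∑ r ∈ Finset.Icc 1 ⌊R⌋₊, (r : ℝ) ^ (-(1 / 2) : ℝ) := by
    refine Finset.sum_le_sum_of_subset_of_nonneg ?_ (fun r _ _ => by positivity)
    intro r hr
    rw [Finset.mem_filter, Finset.mem_Icc] at hr
    rw [Finset.mem_Icc]
    exact ⟨hr.1.1, Nat.le_floor hr.2⟩
  refine h1.trans ((lu_sum_sqrt _).trans ?_)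
  exact mul_le_mul_of_nonneg_left (Real.sqrt_le_sqrt (Nat.floor_le hR)) (by norm_num)

/-- Module LOCU. Localisation for `U`.

PROOF. Write `Uu h lam d T t = ∑_m ∑_r a(m) F_{m,r}(t)` with `F_{m,r}` the expression of `loc_one`
(move `chi` into the sums), the same at `γ` with `lam ψ`; the integral of the finite sum is the sum of
the integrals (all terms continuous on `[T1, T2]`, `t > 0`, `chi_cont`). If `r > m T^(1-x₀)` then for
all `0 < t ≤ T`: `m t/(2π r) < T^(x₀)`, so `log(..)/log T ≤ x₀`, `lam = 0` (`Prof.zero`): both terms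
vanish. The other terms are bounded by `loc_one` (`d < 1/2` as `2d < x₀ ≤ 1`), and
`|a(m)| ≤ C log T` (`am_le`): the total is at most
`C log T T^(-3/4) ∑_{m ≤ T^d} m^{-1/2} ∑_{r ≤ m T^(1-x₀)} r^{-1/2}
 ≤ C log T T^(-3/4) ∑_{m ≤ T^d} m^{-1/2} · 2 (m T^(1-x₀))^{1/2} ≤ 2C log T T^(-3/4) T^d T^((1-x₀)/2)`
`= 2C log T T^(d - x₀/2 - 1/4) ≤ 2 C log T T^(-1/4) ≤ T^(-1/10)` for `T` large (`∑_{r≤R} r^{-1/2} ≤
2 √R`; `Real.log T = o(T^ε)`). -/
theorem S_locU {h lam ψ : ℝ → ℝ} {d x₀ δ : ℝ} (hh : Hok h) (hd : 0 < d) (hx : 2 * d < x₀)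
    (hx1 : x₀ ≤ 1) (hl : Prof x₀ lam) (hδ : 0 ≤ δ) (hψ : Bump δ (cf ψ)) :
    ∀ᶠ T : ℝ in atTop, ∀ γ : ℝ, T1 T + T ^ (1 / 4 : ℝ) ≤ γ → γ ≤ T2 T - T ^ (1 / 4 : ℝ) →
      ‖((Real.log T / (2 * π) : ℝ) : ℂ) * (∫ t in (T1 T)..(T2 T),
          gs (cf ψ) (((γ - t) * Real.log T / (2 * π) : ℝ) : ℂ) * conj (Uu h lam d T t)) -
        conj (Uu h (fun x => lam x * ψ x) d T γ)‖ ≤ T ^ (-(1 / 10) : ℝ) := by
  have hd1 : d < 1 := by linarith
  obtain ⟨C₀, hC₀, h₀⟩ := loc_one hd hd1 (by linarith : 0 < x₀) hx1 hl hδ hψ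
  obtain ⟨C₁, hC₁, h₁⟩ := am_le hh hd hd1
  have hcont : Continuous lam := hl.smooth.continuous
  have ev1 : ∀ᶠ T : ℝ in atTop, 2 * C₁ * C₀ * Real.log T ≤ T ^ (3 / 20 : ℝ) := by
    have hC : 0 < (2 * C₁ * C₀)⁻¹ := by positivity
    have := (isLittleO_log_rpow_atTop (show (0 : ℝ) < 3 / 20 by norm_num)).bound hC
    filter_upwards [this, eventually_ge_atTop (1 : ℝ)] with T hT hT1
    rw [Real.norm_of_nonneg (Real.log_nonneg hT1),
      Real.norm_of_nonneg (Real.rpow_nonneg (by linarith) _), inv_mul_eq_div,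
      le_div_iff₀ (by positivity)] at hT
    linarith
  filter_upwards [h₀, h₁, ev1, eventually_gt_atTop (1 : ℝ)] with T hT₀ hT₁ hLT hT1
  intro γ hγ1 hγ2
  have hT0 : 0 < T := by linarith
  have hL0 : 0 < Real.log T := Real.log_pos hT1
  have hB0 : 0 < T ^ (1 / 4 : ℝ) := Real.rpow_pos_of_pos hT0 _
  have hT1pos : 0 < T1 T := div_pos hT0 hL0
  have hT2T : T2 T ≤ T := by
    have : 0 ≤ T ^ (3 / 4 : ℝ) := Real.rpow_nonneg hT0.le _
    simp only [T2]
    linarith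
  have h12 : T1 T ≤ T2 T := by linarith
  have hγ0 : 0 < γ := by linarith
  have hγT : γ ≤ T := by linarith
  -- the expansions
  have hexp : ∀ (lam' : ℝ → ℝ) (t : ℝ), conj (Uu h lam' d T t) =
      ∑ m ∈ Finset.Icc 1 (Zd d T), ∑ r ∈ Finset.Icc 1 ⌊T⌋₊, ((am h d T m : ℝ) : ℂ) *
        conj (chi (1 / 2 + (t : ℂ) * I) *
          ((lam' (Real.log (m * t / (2 * π * r)) / Real.log T) : ℝ) : ℂ) *
          (m : ℂ) ^ (-(1 / 2 + (t : ℂ) * I)) * (r : ℂ) ^ (-(1 / 2 - (t : ℂ) * I))) := by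
    intro lam' t
    rw [Uu, Vv, Finset.mul_sum, map_sum]
    refine Finset.sum_congr rfl fun m _ => ?_
    rw [Finset.mul_sum, map_sum]
    refine Finset.sum_congr rfl fun r _ => ?_
    simp only [map_mul, Complex.conj_ofReal, Complex.ofReal_mul]
    ring
  have hGc : Continuous fun t : ℝ => gs (cf ψ) (((γ - t) * Real.log T / (2 * π) : ℝ) : ℂ) :=
    (continuous_gs hδ hψ).comp (by fun_prop)
  have hint : ∀ m ∈ Finset.Icc 1 (Zd d T), ∀ r ∈ Finset.Icc 1 ⌊T⌋₊,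
      IntervalIntegrable (fun t : ℝ => gs (cf ψ) (((γ - t) * Real.log T / (2 * π) : ℝ) : ℂ) *
        (((am h d T m : ℝ) : ℂ) * conj (chi (1 / 2 + (t : ℂ) * I) *
          ((lam (Real.log (m * t / (2 * π * r)) / Real.log T) : ℝ) : ℂ) *
          (m : ℂ) ^ (-(1 / 2 + (t : ℂ) * I)) * (r : ℂ) ^ (-(1 / 2 - (t : ℂ) * I)))))
        volume (T1 T) (T2 T) := by
    intro m hm r hr
    rw [Finset.mem_Icc] at hm hr
    have hm0 : (1 : ℝ) ≤ m := by exact_mod_cast hm.1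
    have hr0 : (1 : ℝ) ≤ r := by exact_mod_cast hr.1
    have hmC : (m : ℂ) ≠ 0 := by exact_mod_cast (by omega : m ≠ 0)
    have hrC : (r : ℂ) ≠ 0 := by exact_mod_cast (by omega : r ≠ 0)
    refine ContinuousOn.intervalIntegrable ?_
    rw [uIcc_of_le h12]
    refine hGc.continuousOn.mul (continuousOn_const.mul
      (Complex.continuous_conj.comp_continuousOn ?_))
    refine ContinuousOn.mul (ContinuousOn.mul (ContinuousOn.mul chi_cont.continuousOn ?_) ?_) ?_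
    · refine Complex.continuous_ofReal.comp_continuousOn (hcont.comp_continuousOn ?_)
      refine ContinuousOn.div_const (ContinuousOn.log (by fun_prop) ?_) _
      intro t ht
      have ht0 : 0 < t := lt_of_lt_of_le hT1pos ht.1
      positivity
    · exact (Continuous.const_cpow (by fun_prop) (Or.inl hmC)).continuousOn
    · exact (Continuous.const_cpow (by fun_prop) (Or.inl hrC)).continuousOn
  -- one term
  have hone : ∀ m ∈ Finset.Icc 1 (Zd d T), ∀ r ∈ Finset.Icc 1 ⌊T⌋₊,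
      ‖((Real.log T / (2 * π) : ℝ) : ℂ) * (∫ t in (T1 T)..(T2 T),
          gs (cf ψ) (((γ - t) * Real.log T / (2 * π) : ℝ) : ℂ) *
            conj (chi (1 / 2 + (t : ℂ) * I) *
              ((lam (Real.log (m * t / (2 * π * r)) / Real.log T) : ℝ) : ℂ) *
              (m : ℂ) ^ (-(1 / 2 + (t : ℂ) * I)) * (r : ℂ) ^ (-(1 / 2 - (t : ℂ) * I)))) -
        conj (chi (1 / 2 + (γ : ℂ) * I) *
          ((lam (Real.log (m * γ / (2 * π * r)) / Real.log T) *
            ψ (Real.log (m * γ / (2 * π * r)) / Real.log T) : ℝ) : ℂ) *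
          (m : ℂ) ^ (-(1 / 2 + (γ : ℂ) * I)) * (r : ℂ) ^ (-(1 / 2 - (γ : ℂ) * I)))‖ ≤
        C₀ * T ^ (-(3 / 4) : ℝ) * (m : ℝ) ^ (-(1 / 2) : ℝ) *
          (if (r : ℝ) ≤ m * T ^ (1 - x₀) then (r : ℝ) ^ (-(1 / 2) : ℝ) else 0) := by
    intro m hm r hr
    rw [Finset.mem_Icc] at hm hr
    have hm0 : (1 : ℝ) ≤ m := by exact_mod_cast hm.1
    have hr0 : (1 : ℝ) ≤ r := by exact_mod_cast hr.1
    by_cases hc : (r : ℝ) ≤ m * T ^ (1 - x₀)
    · rw [if_pos hc]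
      refine (hT₀ γ hγ1 hγ2 m r hm.1 hm.2 hr.1 hc).trans (le_of_eq ?_)
      ring
    · rw [if_neg hc, mul_zero]
      push Not at hc
      have hz : ∀ t : ℝ, 0 < t → t ≤ T →
          lam (Real.log (m * t / (2 * π * r)) / Real.log T) = 0 := by
        intro t ht0 htT
        refine hl.zero _ ?_
        rw [div_le_iff₀ hL0, ← Real.log_rpow hT0]
        refine Real.log_le_log (by positivity) ?_
        rw [div_le_iff₀ (by positivity)]
        have h1 : T ^ x₀ * (m * T ^ (1 - x₀)) = m * T := by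
          have : T ^ x₀ * T ^ (1 - x₀) = T := by
            rw [← Real.rpow_add hT0]
            norm_num
          calc _ = m * (T ^ x₀ * T ^ (1 - x₀)) := by ring
            _ = _ := by rw [this]
        have h2 : T ^ x₀ * (m * T ^ (1 - x₀)) ≤ T ^ x₀ * r :=
          mul_le_mul_of_nonneg_left hc.le (by positivity)
        have h3 : (m : ℝ) * t ≤ m * T := mul_le_mul_of_nonneg_left htT (by linarith)
        have h4 : T ^ x₀ * r ≤ T ^ x₀ * (2 * π * r) := by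
          refine mul_le_mul_of_nonneg_left ?_ (by positivity)
          have : (1 : ℝ) ≤ 2 * π := by linarith [Real.pi_gt_three]
          exact le_mul_of_one_le_left (by linarith) this
        linarith
      have hI : (∫ t in (T1 T)..(T2 T),
          gs (cf ψ) (((γ - t) * Real.log T / (2 * π) : ℝ) : ℂ) *
            conj (chi (1 / 2 + (t : ℂ) * I) *
              ((lam (Real.log (m * t / (2 * π * r)) / Real.log T) : ℝ) : ℂ) *
              (m : ℂ) ^ (-(1 / 2 + (t : ℂ) * I)) * (r : ℂ) ^ (-(1 / 2 - (t : ℂ) * I)))) = 0 := by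
        rw [intervalIntegral.integral_congr (g := fun _ => (0 : ℂ))]
        · simp
        · intro t ht
          rw [uIcc_of_le h12] at ht
          have ht0 : 0 < t := lt_of_lt_of_le hT1pos ht.1
          simp only
          rw [hz t ht0 (ht.2.trans hT2T)]
          simp
      rw [hI, hz γ hγ0 hγT]
      simp
  -- the integral of the sum
  have hsum : (∫ t in (T1 T)..(T2 T),
      gs (cf ψ) (((γ - t) * Real.log T / (2 * π) : ℝ) : ℂ) * conj (Uu h lam d T t)) =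
      ∑ m ∈ Finset.Icc 1 (Zd d T), ∑ r ∈ Finset.Icc 1 ⌊T⌋₊, ((am h d T m : ℝ) : ℂ) *
        ∫ t in (T1 T)..(T2 T), gs (cf ψ) (((γ - t) * Real.log T / (2 * π) : ℝ) : ℂ) *
          conj (chi (1 / 2 + (t : ℂ) * I) *
              ((lam (Real.log (m * t / (2 * π * r)) / Real.log T) : ℝ) : ℂ) *
              (m : ℂ) ^ (-(1 / 2 + (t : ℂ) * I)) * (r : ℂ) ^ (-(1 / 2 - (t : ℂ) * I))) := by
    have e1 : (∫ t in (T1 T)..(T2 T),
        gs (cf ψ) (((γ - t) * Real.log T / (2 * π) : ℝ) : ℂ) * conj (Uu h lam d T t)) =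
        ∫ t in (T1 T)..(T2 T), ∑ m ∈ Finset.Icc 1 (Zd d T), ∑ r ∈ Finset.Icc 1 ⌊T⌋₊,
          gs (cf ψ) (((γ - t) * Real.log T / (2 * π) : ℝ) : ℂ) *
        (((am h d T m : ℝ) : ℂ) * conj (chi (1 / 2 + (t : ℂ) * I) *
          ((lam (Real.log (m * t / (2 * π * r)) / Real.log T) : ℝ) : ℂ) *
          (m : ℂ) ^ (-(1 / 2 + (t : ℂ) * I)) * (r : ℂ) ^ (-(1 / 2 - (t : ℂ) * I)))) := by
      congr 1
      ext t
      rw [hexp lam t]
      simp only [Finset.mul_sum]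
    rw [e1, intervalIntegral.integral_finsetSum]
    · refine Finset.sum_congr rfl fun m hm => ?_
      rw [intervalIntegral.integral_finsetSum]
      · refine Finset.sum_congr rfl fun r hr => ?_
        rw [← intervalIntegral.integral_const_mul]
        congr 1
        ext t
        ring
      · intro r hr
        exact hint m hm r hr
    · intro m hm
      have h3 := IntervalIntegrable.sum _ (fun r hr => hint m hm r hr)
      refine h3.congr fun t _ => ?_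
      rw [Finset.sum_apply]
  rw [hsum, hexp (fun x => lam x * ψ x) γ, Finset.mul_sum, ← Finset.sum_sub_distrib]
  have hterm : ∀ m ∈ Finset.Icc 1 (Zd d T),
      ‖((Real.log T / (2 * π) : ℝ) : ℂ) * (∑ r ∈ Finset.Icc 1 ⌊T⌋₊, ((am h d T m : ℝ) : ℂ) *
        ∫ t in (T1 T)..(T2 T), gs (cf ψ) (((γ - t) * Real.log T / (2 * π) : ℝ) : ℂ) *
          conj (chi (1 / 2 + (t : ℂ) * I) *
              ((lam (Real.log (m * t / (2 * π * r)) / Real.log T) : ℝ) : ℂ) *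
              (m : ℂ) ^ (-(1 / 2 + (t : ℂ) * I)) * (r : ℂ) ^ (-(1 / 2 - (t : ℂ) * I)))) -
        ∑ r ∈ Finset.Icc 1 ⌊T⌋₊, ((am h d T m : ℝ) : ℂ) *
        conj (chi (1 / 2 + (γ : ℂ) * I) *
          ((lam (Real.log (m * γ / (2 * π * r)) / Real.log T) *
            ψ (Real.log (m * γ / (2 * π * r)) / Real.log T) : ℝ) : ℂ) *
          (m : ℂ) ^ (-(1 / 2 + (γ : ℂ) * I)) * (r : ℂ) ^ (-(1 / 2 - (γ : ℂ) * I)))‖ ≤
      2 * C₁ * C₀ * Real.log T * T ^ (-(3 / 4) : ℝ) * T ^ ((1 - x₀) / 2) := by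
    intro m hm
    rw [Finset.mul_sum, ← Finset.sum_sub_distrib]
    refine (norm_sum_le _ _).trans ?_
    have hm1 := (Finset.mem_Icc.1 hm).1
    have hm0 : (0 : ℝ) < m := by exact_mod_cast hm1
    have hb : ∀ r ∈ Finset.Icc 1 ⌊T⌋₊,
        ‖((Real.log T / (2 * π) : ℝ) : ℂ) * (((am h d T m : ℝ) : ℂ) *
        ∫ t in (T1 T)..(T2 T), gs (cf ψ) (((γ - t) * Real.log T / (2 * π) : ℝ) : ℂ) *
          conj (chi (1 / 2 + (t : ℂ) * I) *
              ((lam (Real.log (m * t / (2 * π * r)) / Real.log T) : ℝ) : ℂ) *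
              (m : ℂ) ^ (-(1 / 2 + (t : ℂ) * I)) * (r : ℂ) ^ (-(1 / 2 - (t : ℂ) * I)))) -
        ((am h d T m : ℝ) : ℂ) *
        conj (chi (1 / 2 + (γ : ℂ) * I) *
          ((lam (Real.log (m * γ / (2 * π * r)) / Real.log T) *
            ψ (Real.log (m * γ / (2 * π * r)) / Real.log T) : ℝ) : ℂ) *
          (m : ℂ) ^ (-(1 / 2 + (γ : ℂ) * I)) * (r : ℂ) ^ (-(1 / 2 - (γ : ℂ) * I)))‖ ≤
        C₁ * Real.log T * (C₀ * T ^ (-(3 / 4) : ℝ) * (m : ℝ) ^ (-(1 / 2) : ℝ)) *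
          (if (r : ℝ) ≤ m * T ^ (1 - x₀) then (r : ℝ) ^ (-(1 / 2) : ℝ) else 0) := by
      intro r hr
      rw [mul_left_comm, ← mul_sub, norm_mul, Complex.norm_real, Real.norm_eq_abs,
        mul_assoc (C₁ * Real.log T)]
      exact mul_le_mul (hT₁ m) (hone m hm r hr) (norm_nonneg _) (by positivity)
    refine (Finset.sum_le_sum hb).trans ?_
    rw [← Finset.mul_sum]
    have hs := lu_sum_filter ⌊T⌋₊ (R := m * T ^ (1 - x₀)) (by positivity)
    refine (mul_le_mul_of_nonneg_left hs (by positivity)).trans (le_of_eq ?_)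
    have e2 : Real.sqrt (m * T ^ (1 - x₀)) = (m : ℝ) ^ (1 / 2 : ℝ) * T ^ ((1 - x₀) / 2) := by
      rw [Real.sqrt_eq_rpow, Real.mul_rpow hm0.le (by positivity), ← Real.rpow_mul hT0.le]
      congr 2
      ring
    have e3 : (m : ℝ) ^ (-(1 / 2) : ℝ) * (m : ℝ) ^ (1 / 2 : ℝ) = 1 := by
      rw [← Real.rpow_add hm0]
      norm_num
    rw [e2]
    calc _ = 2 * C₁ * C₀ * Real.log T * T ^ (-(3 / 4) : ℝ) * T ^ ((1 - x₀) / 2) *
          ((m : ℝ) ^ (-(1 / 2) : ℝ) * (m : ℝ) ^ (1 / 2 : ℝ)) := by ring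
      _ = _ := by rw [e3, mul_one]
  refine (norm_sum_le _ _).trans ((Finset.sum_le_sum hterm).trans ?_)
  rw [Finset.sum_const, Nat.card_Icc, Nat.add_sub_cancel, nsmul_eq_mul]
  have hZ : (Zd d T : ℝ) ≤ T ^ d := Nat.floor_le (Real.rpow_nonneg hT0.le d)
  calc (Zd d T : ℝ) * (2 * C₁ * C₀ * Real.log T * T ^ (-(3 / 4) : ℝ) * T ^ ((1 - x₀) / 2))
      ≤ T ^ d * (T ^ (3 / 20 : ℝ) * T ^ (-(3 / 4) : ℝ) * T ^ ((1 - x₀) / 2)) := by
        refine mul_le_mul hZ ?_ (by positivity) (by positivity)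
        refine mul_le_mul_of_nonneg_right (mul_le_mul_of_nonneg_right hLT (by positivity))
          (by positivity)
    _ = T ^ (d + (3 / 20 + -(3 / 4) + (1 - x₀) / 2)) := by
        rw [Real.rpow_add hT0 d, Real.rpow_add hT0 (3 / 20 + -(3 / 4)), Real.rpow_add hT0 (3 / 20)]
    _ ≤ T ^ (-(1 / 10) : ℝ) := Real.rpow_le_rpow_of_exponent_le hT1.le (by linarith)

end Pool.Agent.MP_67227b_nt.Fb
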