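import Pool.Agent.MP_67227b_nt.Fb.FbDsq

set_option autoImplicit false

open Filter Topology Set MeasureTheory Complex
open scoped Real ContDiff ArithmeticFunction ArithmeticFunction.Moebius ComplexConjugate

namespace Pool.Agent.MP_67227b_nt.Fb

open Pool.Agent.Lib.ZetaCount_helper33 Pool.Agent.MP_67227b_nt Pool.Agent.MP_67227b_nt.Mo

namespace MsGAux

open MeanBBAux

/-- Powers of the logarithm are small. -/
theorem tendsto_log_pow (k : ℕ) {a : ℝ} (ha : 0 < a) :
    Tendsto (fun T : ℝ => (1 + Real.log T) ^ k / T ^ a) atTop (𝓝 0) := by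
  have h1 : Tendsto (fun T : ℝ => 2 ^ k * (Real.log T ^ (k : ℝ) / T ^ a)) atTop (𝓝 (2 ^ k * 0)) :=
    (isLittleO_log_rpow_rpow_atTop (k : ℝ) ha).tendsto_div_nhds_zero.const_mul _
  rw [mul_zero] at h1
  refine squeeze_zero' ?_ ?_ h1
  · filter_upwards [eventually_ge_atTop (1 : ℝ)] with T hT
    have := Real.log_nonneg hT
    positivity
  · filter_upwards [eventually_gt_atTop (0 : ℝ), Real.tendsto_log_atTop.eventually_ge_atTop 1]
      with T hT hL
    rw [Real.rpow_natCast, ← mul_div_assoc, ← mul_pow]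
    have : 1 + Real.log T ≤ 2 * Real.log T := by linarith
    gcongr

theorem cpow_eq {n : ℕ} (hn : n ≠ 0) (t : ℝ) :
    (n : ℂ) ^ (-(1 / 2 + (t : ℂ) * I)) = ((1 / Real.sqrt n : ℝ) : ℂ) * E (-(Real.log n)) t := by
  have hn0 : (n : ℂ) ≠ 0 := by exact_mod_cast hn
  have hn1 : (0 : ℝ) < n := by exact_mod_cast Nat.pos_of_ne_zero hn
  have h1 : Real.sqrt n = Real.exp (Real.log n / 2) := by
    rw [Real.sqrt_eq_rpow, Real.rpow_def_of_pos hn1]
    congr 1
    ring
  rw [Complex.cpow_def_of_ne_zero hn0, ← Complex.natCast_log, h1,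
    show 1 / Real.exp (Real.log n / 2) = Real.exp (-(Real.log n / 2)) by
      rw [Real.exp_neg, one_div]]
  unfold E
  rw [Complex.ofReal_exp, ← Complex.exp_add]
  congr 1
  push_cast
  ring

theorem conj_E (l t : ℝ) : conj (E l t) = E (-l) t := by
  unfold E
  rw [← Complex.exp_conj]
  congr 1
  simp only [map_mul, conj_I, conj_ofReal]
  push_cast
  ring

/-- The kernel; it vanishes on the diagonal. -/
noncomputable def K (n m : ℕ) : ℝ := 1 / (Real.sqrt n * Real.sqrt m * |Real.log n - Real.log m|)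

theorem K_nonneg (n m : ℕ) : 0 ≤ K n m := by
  unfold K
  positivity

theorem K_comm (n m : ℕ) : K n m = K m n := by
  unfold K
  rw [abs_sub_comm, mul_comm (Real.sqrt n)]

theorem K_le {n m : ℕ} (hn : 1 ≤ n) (hm : 1 ≤ m) : K n m ≤ 1 / ((n - m : ℕ) : ℝ) +
    1 / ((m - n : ℕ) : ℝ) + 1 / (n : ℝ) + 1 / (m : ℝ) := by
  have p1 : (0 : ℝ) ≤ 1 / ((n - m : ℕ) : ℝ) := by positivity
  have p2 : (0 : ℝ) ≤ 1 / ((m - n : ℕ) : ℝ) := by positivity
  have p3 : (0 : ℝ) ≤ 1 / (n : ℝ) := by positivity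
  have p4 : (0 : ℝ) ≤ 1 / (m : ℝ) := by positivity
  rcases lt_trichotomy n m with h | h | h
  · have := OD92.inv_kernel_le (n := m) (m := n) hn h
    rw [K_comm]
    unfold K
    linarith
  · subst h
    unfold K
    rw [sub_self, abs_zero, mul_zero, div_zero]
    linarith
  · have := OD92.inv_kernel_le (n := n) (m := m) hm h
    unfold K
    linarith

theorem sum_trunc_le' {N n : ℕ} :
    ∑ m ∈ Finset.range (N + 1), 1 / ((m - n : ℕ) : ℝ) ≤ OD92.HS N := by
  have h1 : ∑ m ∈ Finset.range (N + 1), 1 / ((m - n : ℕ) : ℝ) =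
      ∑ m ∈ Finset.Ico n (N + 1), 1 / ((m - n : ℕ) : ℝ) := by
    symm
    apply Finset.sum_subset
    · intro x hx
      rw [Finset.mem_Ico] at hx
      exact Finset.mem_range.2 hx.2
    · intro x hx hx2
      rw [Finset.mem_range] at hx
      rw [Finset.mem_Ico] at hx2
      have : x - n = 0 := by omega
      rw [this]
      simp
  rw [h1, Finset.sum_Ico_eq_sum_range]
  have h2 : ∀ j ∈ Finset.range (N + 1 - n), 1 / ((n + j - n : ℕ) : ℝ) = 1 / (j : ℝ) := by
    intro j _
    rw [Nat.add_sub_cancel_left]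
  rw [Finset.sum_congr rfl h2]
  unfold OD92.HS
  exact Finset.sum_le_sum_of_subset_of_nonneg (Finset.range_mono (by omega))
    fun _ _ _ => by positivity

/-- The sum of a row of the kernel. -/
theorem row_sum {N n : ℕ} (hn : n ∈ Finset.Icc 1 N) :
    ∑ m ∈ Finset.Icc 1 N, K n m ≤ 3 * (1 + Real.log N) + N / n := by
  have hn1 : 1 ≤ n := (Finset.mem_Icc.1 hn).1
  have hsub : Finset.Icc 1 N ⊆ Finset.range (N + 1) := by
    intro x hx
    have := (Finset.mem_Icc.1 hx).2
    exact Finset.mem_range.2 (by omega)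
  have h1 : ∑ m ∈ Finset.Icc 1 N, K n m ≤ ∑ m ∈ Finset.Icc 1 N, (1 / ((n - m : ℕ) : ℝ) +
      1 / ((m - n : ℕ) : ℝ) + 1 / (n : ℝ) + 1 / (m : ℝ)) :=
    Finset.sum_le_sum fun m hm => K_le hn1 (Finset.mem_Icc.1 hm).1
  refine h1.trans ?_
  rw [Finset.sum_add_distrib, Finset.sum_add_distrib, Finset.sum_add_distrib]
  have a1 : ∑ m ∈ Finset.Icc 1 N, 1 / ((n - m : ℕ) : ℝ) ≤ OD92.HS N :=
    (Finset.sum_le_sum_of_subset_of_nonneg hsub fun _ _ _ => by positivity).trans
      (OD92.sum_trunc_le (hsub hn))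
  have a2 : ∑ m ∈ Finset.Icc 1 N, 1 / ((m - n : ℕ) : ℝ) ≤ OD92.HS N :=
    (Finset.sum_le_sum_of_subset_of_nonneg hsub fun _ _ _ => by positivity).trans sum_trunc_le'
  have a3 : ∑ _m ∈ Finset.Icc 1 N, 1 / (n : ℝ) = N / n := by
    rw [Finset.sum_const, Nat.card_Icc, nsmul_eq_mul]
    simp
    ring
  have a4 : ∑ m ∈ Finset.Icc 1 N, 1 / (m : ℝ) ≤ OD92.HS N :=
    Finset.sum_le_sum_of_subset_of_nonneg hsub fun _ _ _ => by positivity
  have a5 := OD92.HS_le N
  linarith

/-- The mean square of a polynomial with coefficients bounded by the divisor function. -/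
theorem ms_gen {N : ℕ} {a : ℕ → ℝ} {C A B : ℝ} (hC : 0 ≤ C)
    (ha : ∀ n, |a n| ≤ C * ((n.divisors.card : ℝ) / Real.sqrt n)) (hAB : A ≤ B) :
    ∫ t in A..B, ‖∑ n ∈ Finset.Icc 1 N, ((a n : ℝ) : ℂ) * E (-(Real.log n)) t‖ ^ 2 ≤
      (B - A) * C ^ 2 * (1 + Real.log N) ^ 4 + 8 * C ^ 2 * N * (1 + Real.log N) ^ 5 := by
  set P : ℝ → ℂ := fun t => ∑ n ∈ Finset.Icc 1 N, ((a n : ℝ) : ℂ) * E (-(Real.log n)) t with hP
  have hpt : ∀ t : ℝ, ((‖P t‖ ^ 2 : ℝ) : ℂ) = ∑ n ∈ Finset.Icc 1 N, ∑ m ∈ Finset.Icc 1 N,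
      ((a n * a m : ℝ) : ℂ) * E (Real.log m - Real.log n) t := by
    intro t
    have e1 : ((‖P t‖ ^ 2 : ℝ) : ℂ) = P t * conj (P t) := by
      rw [Complex.mul_conj']
      push_cast
      ring
    rw [e1]
    simp only [hP]
    rw [map_sum, Finset.sum_mul_sum]
    refine Finset.sum_congr rfl fun n _ => Finset.sum_congr rfl fun m _ => ?_
    rw [map_mul, conj_ofReal, conj_E, neg_neg,
      show Real.log m - Real.log n = -(Real.log n) + Real.log m by ring, ← E_mul]
    push_cast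
    ring
  have hint : ∀ n m : ℕ, IntervalIntegrable (fun t : ℝ => ((a n * a m : ℝ) : ℂ) *
      E (Real.log m - Real.log n) t) volume A B := fun n m =>
    (continuous_const.mul (E_continuous _)).intervalIntegrable _ _
  have e1 : ((∫ t in A..B, ‖P t‖ ^ 2 : ℝ) : ℂ) = ∑ n ∈ Finset.Icc 1 N, ∑ m ∈ Finset.Icc 1 N,
      ((a n * a m : ℝ) : ℂ) * ∫ t in A..B, E (Real.log m - Real.log n) t := by
    rw [← intervalIntegral.integral_ofReal]
    have e2 : (fun t : ℝ => ((‖P t‖ ^ 2 : ℝ) : ℂ)) = fun t => ∑ n ∈ Finset.Icc 1 N,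
        ∑ m ∈ Finset.Icc 1 N, ((a n * a m : ℝ) : ℂ) * E (Real.log m - Real.log n) t :=
      funext hpt
    rw [e2, intervalIntegral.integral_finsetSum]
    · refine Finset.sum_congr rfl fun n _ => ?_
      rw [intervalIntegral.integral_finsetSum fun m _ => hint n m]
      refine Finset.sum_congr rfl fun m _ => ?_
      rw [intervalIntegral.integral_const_mul]
    · intro n _
      exact (continuous_finsetSum _ fun m _ =>
        continuous_const.mul (E_continuous _)).intervalIntegrable _ _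
  have e2 : ∫ t in A..B, ‖P t‖ ^ 2 = ‖((∫ t in A..B, ‖P t‖ ^ 2 : ℝ) : ℂ)‖ := by
    rw [norm_real, Real.norm_eq_abs, abs_of_nonneg]
    exact intervalIntegral.integral_nonneg hAB fun t _ => by positivity
  rw [e2, e1]
  set D : ℕ → ℝ := fun n => (n.divisors.card : ℝ) ^ 2 with hD
  have hterm : ∀ n ∈ Finset.Icc 1 N, ∀ m ∈ Finset.Icc 1 N,
      ‖((a n * a m : ℝ) : ℂ) * ∫ t in A..B, E (Real.log m - Real.log n) t‖ ≤
        (if n = m then (B - A) * C ^ 2 * (D n / n) else 0) + C ^ 2 * (D n * K n m + D m * K m n) := by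
    intro n hn m hm
    have hn1 : 1 ≤ n := (Finset.mem_Icc.1 hn).1
    have hm1 : 1 ≤ m := (Finset.mem_Icc.1 hm).1
    have hn0 : (0 : ℝ) < n := by exact_mod_cast hn1
    have hm0 : (0 : ℝ) < m := by exact_mod_cast hm1
    have hsn : 0 < Real.sqrt n := Real.sqrt_pos.2 hn0
    have hsm : 0 < Real.sqrt m := Real.sqrt_pos.2 hm0
    have hKn : 0 ≤ C ^ 2 * (D n * K n m + D m * K m n) := by
      have := K_nonneg n m
      have := K_nonneg m n
      simp only [hD]
      positivity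
    rw [norm_mul, norm_real, Real.norm_eq_abs, abs_mul]
    by_cases h : n = m
    · subst h
      rw [if_pos rfl, sub_self, int_E_zero, norm_real, Real.norm_eq_abs,
        abs_of_nonneg (by linarith : 0 ≤ B - A)]
      have h1 : |a n| * |a n| ≤ C ^ 2 * (D n / n) := by
        calc |a n| * |a n| ≤ (C * ((n.divisors.card : ℝ) / Real.sqrt n)) *
              (C * ((n.divisors.card : ℝ) / Real.sqrt n)) := by
              gcongr
              · exact ha n
              · exact ha n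
          _ = C ^ 2 * ((n.divisors.card : ℝ) ^ 2 / (Real.sqrt n * Real.sqrt n)) := by
              field_simp
          _ = C ^ 2 * (D n / n) := by rw [Real.mul_self_sqrt hn0.le]
      have h2 : |a n| * |a n| * (B - A) ≤ C ^ 2 * (D n / n) * (B - A) := by
        gcongr
      nlinarith
    · rw [if_neg h, zero_add]
      have hne : Real.log m - Real.log n ≠ 0 := by
        intro h3
        have h4 : Real.log m = Real.log n := by linarith
        have h5 := Real.log_injOn_pos (Set.mem_Ioi.2 hm0) (Set.mem_Ioi.2 hn0) h4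
        exact h (by exact_mod_cast h5.symm)
      have habs : 0 < |Real.log m - Real.log n| := abs_pos.2 hne
      have hK : K m n = 1 / (Real.sqrt m * Real.sqrt n * |Real.log m - Real.log n|) := rfl
      have hK0 := K_nonneg m n
      calc |a n| * |a m| * ‖∫ t in A..B, E (Real.log m - Real.log n) t‖ ≤
            (C * ((n.divisors.card : ℝ) / Real.sqrt n)) *
              (C * ((m.divisors.card : ℝ) / Real.sqrt m)) *
              (2 / |Real.log m - Real.log n|) := by
            gcongr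
            · exact ha n
            · exact ha m
            · exact int_E_le hne A B
        _ = C ^ 2 * ((2 * (n.divisors.card : ℝ) * (m.divisors.card : ℝ)) * K m n) := by
            rw [hK]
            field_simp
        _ ≤ C ^ 2 * ((D n + D m) * K m n) := by
            have : 2 * (n.divisors.card : ℝ) * (m.divisors.card : ℝ) ≤ D n + D m := by
              simp only [hD]
              nlinarith [sq_nonneg ((n.divisors.card : ℝ) - (m.divisors.card : ℝ))]
            gcongr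
        _ = C ^ 2 * (D n * K n m + D m * K m n) := by
            rw [K_comm n m]
            ring
  have hbig : ‖∑ n ∈ Finset.Icc 1 N, ∑ m ∈ Finset.Icc 1 N,
      ((a n * a m : ℝ) : ℂ) * ∫ t in A..B, E (Real.log m - Real.log n) t‖ ≤
      ∑ n ∈ Finset.Icc 1 N, ∑ m ∈ Finset.Icc 1 N,
        ((if n = m then (B - A) * C ^ 2 * (D n / n) else 0) +
          C ^ 2 * (D n * K n m + D m * K m n)) := by
    refine (norm_sum_le _ _).trans (Finset.sum_le_sum fun n hn => ?_)
    exact (norm_sum_le _ _).trans (Finset.sum_le_sum fun m hm => hterm n hn m hm)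
  refine hbig.trans ?_
  have s1 : ∑ n ∈ Finset.Icc 1 N, ∑ m ∈ Finset.Icc 1 N,
      ((if n = m then (B - A) * C ^ 2 * (D n / n) else 0) +
          C ^ 2 * (D n * K n m + D m * K m n)) =
      (B - A) * C ^ 2 * (∑ n ∈ Finset.Icc 1 N, D n / n) +
        2 * C ^ 2 * ∑ n ∈ Finset.Icc 1 N, D n * ∑ m ∈ Finset.Icc 1 N, K n m := by
    simp_rw [Finset.sum_add_distrib]
    congr 1
    · rw [Finset.mul_sum]
      refine Finset.sum_congr rfl fun n hn => ?_
      rw [Finset.sum_ite_eq, if_pos hn]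
    · simp_rw [← Finset.mul_sum, Finset.sum_add_distrib]
      have : ∑ n ∈ Finset.Icc 1 N, ∑ m ∈ Finset.Icc 1 N, D m * K m n =
          ∑ n ∈ Finset.Icc 1 N, ∑ m ∈ Finset.Icc 1 N, D n * K n m := Finset.sum_comm
      rw [this]
      simp_rw [← Finset.mul_sum]
      ring
  rw [s1]
  have s2 : ∑ n ∈ Finset.Icc 1 N, D n / n ≤ (1 + Real.log N) ^ 4 := dsq N
  have hlN : 0 ≤ Real.log N := Real.log_natCast_nonneg N
  have s3 : ∑ n ∈ Finset.Icc 1 N, D n * ∑ m ∈ Finset.Icc 1 N, K n m ≤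
      4 * N * (1 + Real.log N) ^ 5 := by
    calc _ ≤ ∑ n ∈ Finset.Icc 1 N, D n * (3 * (1 + Real.log N) + N / n) := by
          refine Finset.sum_le_sum fun n hn => mul_le_mul_of_nonneg_left (row_sum hn) ?_
          simp only [hD]
          positivity
      _ = 3 * (1 + Real.log N) * (∑ n ∈ Finset.Icc 1 N, D n) +
            N * ∑ n ∈ Finset.Icc 1 N, D n / n := by
          rw [Finset.mul_sum, Finset.mul_sum, ← Finset.sum_add_distrib]
          exact Finset.sum_congr rfl fun n _ => by ring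
      _ ≤ 3 * (1 + Real.log N) * (N * (1 + Real.log N) ^ 4) + N * (1 + Real.log N) ^ 4 := by
          have := dsq' N
          gcongr
      _ ≤ 4 * N * (1 + Real.log N) ^ 5 := by
          have hx : (1 : ℝ) ≤ 1 + Real.log N := by linarith
          have h0 : (0 : ℝ) ≤ N * (1 + Real.log N) ^ 4 := by positivity
          nlinarith
  have hBA : 0 ≤ B - A := by linarith
  calc _ ≤ (B - A) * C ^ 2 * (1 + Real.log N) ^ 4 +
        2 * C ^ 2 * (4 * N * (1 + Real.log N) ^ 5) := by gcongr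
    _ = _ := by ring

end MsGAux

open MsGAux MeanBBAux

/-- **Module msg** (about 170 lines). The mean square of `G`, crude.

PROOF. `c_n = gg n κ(log n/L)`, zero for `n > N = ⌊T^{1-e}⌋`, `|c_n| ≤ C d(n)` (`gg_le`). Expand the
square: the diagonal gives `(T2-T1) ∑ c_n²/n ≤ T C² (1+log T)^4` (`dsq`); the terms `n ≠ n'` give at
most `∑_{n≠n'} |c_n c_{n'}|/√(n n') · 2/|log n - log n'|` (`Mo` MeanBB `int_E_le`), and
`1/(√n√n'|log n - log n'|) ≤ 1/|n-n'| + 1/min(n,n')` (`Mo.inv_kernel_le`, check its namespace),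
`|c_n c_{n'}| ≤ C²(d(n)² + d(n')²)/2`, so this is at most
`C' ∑_{n ≤ N} d(n)² (1 + H_N) ≤ C'' N (1 + log N)^5 ≤ T` (`∑_{n'≤N} 1/min(n,n') ≤ H_N + N/n`, and
`∑_n d(n)² N/n ≤ N (1+log N)^4` by `dsq`; `dsq'`). Since `N ≤ T^{1-e}` all is at most `C T L^4`. -/
theorem msG {h κ : ℝ → ℝ} {d e : ℝ} (hh : Hok h) (hd : 0 < d) (he : 0 < e)
    (hκ : Step (1 - 2 * e) (1 - e) κ) :
    ∃ C : ℝ, 0 < C ∧ ∀ᶠ T : ℝ in atTop,
      (∫ t in (T1 T)..(T2 T), ‖Gk h κ d T t‖ ^ 2) ≤ C * T * Real.log T ^ 4 := by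
  obtain ⟨C, hC, hgg⟩ := gg_le hh hd
  refine ⟨24 * C ^ 2, by positivity, ?_⟩
  filter_upwards [hgg, eventually_ge_atTop 3,
    (tendsto_log_pow 5 he).eventually (gt_mem_nhds (show (0 : ℝ) < 1 by norm_num))] with T hgT h3 hlp
  have hT0 : 0 < T := by linarith
  have hL : 1 ≤ Real.log T := by
    rw [Real.le_log_iff_exp_le hT0]
    linarith [Real.exp_one_lt_d9]
  have hL0 : 0 < Real.log T := by linarith
  have hT1 : 0 ≤ T1 T := by
    unfold T1
    positivity
  have hT2 : T2 T ≤ T := by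
    unfold T2
    have : 0 ≤ T ^ (3 / 4 : ℝ) := by positivity
    linarith
  by_cases h12 : T1 T ≤ T2 T
  swap
  · push Not at h12
    rw [intervalIntegral.integral_symm]
    have h5 : 0 ≤ ∫ t in (T2 T)..(T1 T), ‖Gk h κ d T t‖ ^ 2 :=
      intervalIntegral.integral_nonneg h12.le fun t _ => by positivity
    have h6 : 0 ≤ 24 * C ^ 2 * T * Real.log T ^ 4 := by positivity
    linarith
  have hpos : 0 < T ^ (1 - e) := Real.rpow_pos_of_pos hT0 _
  set N := ⌊T ^ (1 - e)⌋₊ with hN
  have hNle : (N : ℝ) ≤ T ^ (1 - e) := Nat.floor_le hpos.le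
  have hpT : T ^ (1 - e) ≤ T := by
    calc T ^ (1 - e) ≤ T ^ (1 : ℝ) :=
          Real.rpow_le_rpow_of_exponent_le (by linarith) (by linarith)
      _ = T := Real.rpow_one T
  have hNT : N ≤ ⌊T⌋₊ := Nat.floor_le_floor hpT
  set a : ℕ → ℝ := fun n => gg h d T n * κ (Real.log n / Real.log T) / Real.sqrt n with hadef
  have ha : ∀ n, |a n| ≤ C * ((n.divisors.card : ℝ) / Real.sqrt n) := by
    intro n
    simp only [hadef]
    rw [abs_div, abs_mul, abs_of_nonneg (Real.sqrt_nonneg _), ← mul_div_assoc]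
    refine div_le_div_of_nonneg_right ?_ (Real.sqrt_nonneg _)
    have hk : |κ (Real.log n / Real.log T)| ≤ 1 := by
      rw [abs_of_nonneg (hκ.nonneg _)]
      exact hκ.le_one _
    calc |gg h d T n| * |κ (Real.log n / Real.log T)| ≤ (C * n.divisors.card) * 1 := by
          gcongr
          exact hgT n
      _ = _ := mul_one _
  have hG : ∀ t : ℝ, Gk h κ d T t = ∑ n ∈ Finset.Icc 1 N, ((a n : ℝ) : ℂ) *
      E (-(Real.log n)) t := by
    intro t
    have h5 : Gk h κ d T t = ∑ n ∈ Finset.Icc 1 ⌊T⌋₊, ((a n : ℝ) : ℂ) *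
        E (-(Real.log n)) t := by
      unfold Gk
      refine Finset.sum_congr rfl fun n hn => ?_
      have hn1 : n ≠ 0 := by
        have := (Finset.mem_Icc.1 hn).1
        omega
      rw [cpow_eq hn1]
      simp only [hadef]
      push_cast
      ring
    rw [h5]
    symm
    refine Finset.sum_subset (Finset.Icc_subset_Icc_right hNT) fun n hn hn2 => ?_
    have hn1 := (Finset.mem_Icc.1 hn).1
    have hn3 : N < n := by
      by_contra h6
      push Not at h6
      exact hn2 (Finset.mem_Icc.2 ⟨hn1, h6⟩)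
    have hn4 : T ^ (1 - e) < n := by
      have := Nat.lt_of_floor_lt hn3
      exact this
    have hk : κ (Real.log n / Real.log T) = 0 := by
      refine hκ.zero _ ?_
      rw [le_div_iff₀ hL0, ← Real.log_rpow hT0]
      exact Real.log_le_log hpos hn4.le
    simp only [hadef]
    rw [hk]
    simp
  have hlN : Real.log N ≤ Real.log T := by
    rcases Nat.eq_zero_or_pos N with h0 | h0
    · rw [h0, Nat.cast_zero, Real.log_zero]
      exact hL0.le
    · exact Real.log_le_log (by exact_mod_cast h0) (hNle.trans hpT)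
  have hlN0 : 0 ≤ Real.log N := Real.log_natCast_nonneg N
  simp_rw [hG]
  refine (ms_gen hC.le ha h12).trans ?_
  have b1 : (T2 T - T1 T) * C ^ 2 * (1 + Real.log N) ^ 4 ≤ 16 * C ^ 2 * T * Real.log T ^ 4 := by
    calc _ ≤ T * C ^ 2 * (2 * Real.log T) ^ 4 := by
          have h5 : T2 T - T1 T ≤ T := by linarith
          have h6 : 1 + Real.log N ≤ 2 * Real.log T := by linarith
          have h7 : 0 ≤ T2 T - T1 T := by linarith
          gcongr
      _ = _ := by ring
  have b2 : 8 * C ^ 2 * N * (1 + Real.log N) ^ 5 ≤ 8 * C ^ 2 * T * Real.log T ^ 4 := by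
    have hTe : 0 < T ^ e := Real.rpow_pos_of_pos hT0 _
    rw [div_lt_one hTe] at hlp
    have h5 : T ^ (1 - e) * T ^ e = T := by
      rw [← Real.rpow_add hT0, sub_add_cancel, Real.rpow_one]
    have h6 : (1 : ℝ) ≤ Real.log T ^ 4 := one_le_pow₀ hL
    calc _ ≤ 8 * C ^ 2 * T ^ (1 - e) * (1 + Real.log T) ^ 5 := by gcongr
      _ ≤ 8 * C ^ 2 * T ^ (1 - e) * T ^ e := by gcongr
      _ = 8 * C ^ 2 * T * 1 := by rw [mul_assoc, h5, mul_one]
      _ ≤ _ := by gcongr
  calc _ ≤ 16 * C ^ 2 * T * Real.log T ^ 4 + 8 * C ^ 2 * T * Real.log T ^ 4 := add_le_add b1 b2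
    _ = _ := by ring

end Pool.Agent.MP_67227b_nt.Fb
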