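import Pool.Agent.MP_67227b_nt.Fb.FbArchG
import Pool.Agent.MP_67227b_nt.Fb.FbBtG
import Pool.Agent.MP_67227b_nt.Fb.FbMsG

set_option autoImplicit false

open Filter Topology Set MeasureTheory Complex
open scoped Real ContDiff ArithmeticFunction ArithmeticFunction.Moebius ComplexConjugate

namespace Pool.Agent.MP_67227b_nt.Fb

open Pool.Agent.Lib.ZetaCount_helper33 Pool.Agent.MP_67227b_nt Pool.Agent.MP_67227b_nt.Mo

namespace MeanGAux

theorem continuous_Gk (h κ : ℝ → ℝ) (d T : ℝ) : Continuous (Gk h κ d T) := by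
  unfold Gk
  refine continuous_finsetSum _ fun n hn => ?_
  have hn0 : (n : ℂ) ≠ 0 := by
    have := (Finset.mem_Icc.1 hn).1
    exact_mod_cast (by omega : n ≠ 0)
  exact continuous_const.mul (Continuous.const_cpow (by fun_prop) (Or.inl hn0))

end MeanGAux

open MeanGAux

/-- **Module meang** (about 100 lines). The mean of `SZ ψ` against `G`.

PROOF. `Mo.explicit_L hRH hδ hδ1 hψ`: `SZ = ψ(0) dT + BT + E`, `‖E(t)‖ ≤ C T^δ/(1+t) ≤ C L T^{δ-1}` for
`t ≥ T1 T = T/L`. `ψ(0) = 1`. The parts with `dT` and `BT`: `arch_G`, `BT_G`, `PG_tendsto`. The error: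
`(1/T) ∫ ‖E‖ ‖Gk‖ ≤ C L T^{δ-1} ((1/T) ∫ ‖Gk‖²)^{1/2} ≤ C L T^{δ-1} L² → 0` (`msG`, Cauchy-Schwarz, or
`‖Gk‖ ≤ 1 + ‖Gk‖²`: `≤ C L T^{δ-1} (1 + C L^4)`, simpler). Integrability: `SZ` is measurable
(`Mo.measurable_SZ`), the rest is continuous. -/
theorem S_meanG (hRH : RiemannHypothesis) {h κ ψ : ℝ → ℝ} {d e δ : ℝ} (hh : Hok h) (hd : 0 < d)
    (he : 0 < e) (hde : 2 * d + 2 * e < 1) (hκ : Step (1 - 2 * e) (1 - e) κ) (hδ : 0 ≤ δ)
    (hδ1 : δ < 1) (hψ : Bump δ (cf ψ)) (hψ1 : ∀ x, 0 ≤ x → x ≤ 1 - e → ψ x = 1) :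
    Tendsto (fun T : ℝ => (1 / (T : ℂ)) * ∫ t in (T1 T)..(T2 T),
        SZ (Real.log T) (cf ψ) t * conj (Gk h κ d T t)) atTop
      (𝓝 ((1 - (∫ x in (0 : ℝ)..1, κ x) +
        (∫ y in (0 : ℝ)..d, y * h y) / (∫ y in (0 : ℝ)..d, h y) : ℝ) : ℂ)) := by
  obtain ⟨C, hC, hexp⟩ := explicit_L hRH hδ hδ1 hψ
  obtain ⟨C', hC', hms⟩ := msG hh hd he hκ
  have hψ0 : cf ψ 0 = 1 := by
    unfold cf
    rw [hψ1 0 le_rfl (by linarith), Complex.ofReal_one]
  have hA := arch_G hh hd he (by linarith) hκ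
  have hB := BT_G hh hd he hde hκ hδ hδ1 hψ hψ1
  have hP : Tendsto (fun T : ℝ => (PG h κ d T : ℂ)) atTop
      (𝓝 (((∫ x in (0 : ℝ)..1, κ x) -
        (∫ y in (0 : ℝ)..d, y * h y) / (∫ y in (0 : ℝ)..d, h y) : ℝ) : ℂ)) :=
    (Complex.continuous_ofReal.tendsto _).comp (PG_tendsto hh hd he hde hκ)
  -- the error
  have herr : Tendsto (fun T : ℝ => (1 / (T : ℂ)) * ∫ t in (T1 T)..(T2 T),
      (SZ (Real.log T) (cf ψ) t - (dT (Real.log T) t + BT (Real.log T) (cf ψ) t)) *
        conj (Gk h κ d T t)) atTop (𝓝 0) := by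
    rw [tendsto_zero_iff_norm_tendsto_zero]
    have hz : Tendsto (fun T : ℝ => (C * (1 + C')) * ((1 + Real.log T) ^ 5 / T ^ (1 - δ))) atTop
        (𝓝 0) := by
      have := (MsGAux.tendsto_log_pow 5 (show 0 < 1 - δ by linarith)).const_mul (C * (1 + C'))
      rwa [mul_zero] at this
    refine squeeze_zero' (Filter.Eventually.of_forall fun T => norm_nonneg _) ?_ hz
    filter_upwards [DtAux.ev_range, hms] with T hT hmT
    obtain ⟨h3, hL, h1, h12, h2⟩ := hT
    have hT0 : 0 < T := by linarith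
    set L := Real.log T with hLdef
    have hL0 : 0 < L := by linarith
    set q : ℝ := C * T ^ δ / (T / L) with hq
    have hTδ : 0 < T ^ δ := Real.rpow_pos_of_pos hT0 _
    have hq0 : 0 ≤ q := by positivity
    have hexpδ : Real.exp (δ * L) = T ^ δ := by
      rw [Real.rpow_def_of_pos hT0, mul_comm]
    have hbd : ∀ t ∈ Ioc (T1 T) (T2 T),
        ‖(SZ L (cf ψ) t - (dT L t + BT L (cf ψ) t)) * conj (Gk h κ d T t)‖ ≤
          q * (1 + ‖Gk h κ d T t‖ ^ 2) := by
      intro t ht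
      have ht1 : T / L ≤ t := ht.1.le
      have ht0 : 0 < t := lt_of_lt_of_le (by positivity) ht1
      have h5 := hexp L hL t
      rw [hψ0, one_mul, hexpδ, abs_of_pos ht0] at h5
      have h6 : C * T ^ δ / (1 + t) ≤ q := by
        rw [hq]
        gcongr
        linarith
      rw [norm_mul, RCLike.norm_conj]
      have h7 : ‖Gk h κ d T t‖ ≤ 1 + ‖Gk h κ d T t‖ ^ 2 := by
        nlinarith [sq_nonneg (‖Gk h κ d T t‖ - 1), norm_nonneg (Gk h κ d T t)]
      exact mul_le_mul (h5.trans h6) h7 (norm_nonneg _) hq0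
    have hgi : IntervalIntegrable (fun t : ℝ => q * (1 + ‖Gk h κ d T t‖ ^ 2)) volume
        (T1 T) (T2 T) :=
      (continuous_const.mul (continuous_const.add
        ((continuous_Gk h κ d T).norm.pow 2))).intervalIntegrable _ _
    have hG2 : IntervalIntegrable (fun t : ℝ => ‖Gk h κ d T t‖ ^ 2) volume (T1 T) (T2 T) :=
      ((continuous_Gk h κ d T).norm.pow 2).intervalIntegrable _ _
    have h8 := intervalIntegral.norm_integral_le_of_norm_le h12
      (Filter.Eventually.of_forall hbd) hgi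
    have h9 : ∫ t in (T1 T)..(T2 T), q * (1 + ‖Gk h κ d T t‖ ^ 2) ≤
        q * (T + C' * T * L ^ 4) := by
      rw [intervalIntegral.integral_const_mul, intervalIntegral.integral_add
        intervalIntegrable_const hG2, intervalIntegral.integral_const, smul_eq_mul, mul_one]
      refine mul_le_mul_of_nonneg_left ?_ hq0
      linarith
    rw [norm_mul, norm_div, norm_one, norm_real, Real.norm_eq_abs, abs_of_pos hT0]
    calc _ ≤ 1 / T * (q * (T + C' * T * L ^ 4)) := by
          gcongr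
          exact h8.trans h9
      _ = C * (L * (1 + C' * L ^ 4)) * (T ^ δ / T) := by
          rw [hq]
          field_simp
      _ ≤ C * ((1 + C') * (1 + L) ^ 5) * (T ^ δ / T) := by
          have h10 : L * (1 + C' * L ^ 4) ≤ (1 + C') * (1 + L) ^ 5 := by
            have h11 : L ≤ (1 + L) ^ 5 := by
              calc L ≤ (1 + L) ^ 1 := by linarith
                _ ≤ (1 + L) ^ 5 := pow_le_pow_right₀ (by linarith) (by norm_num)
            have h12 : L ^ 5 ≤ (1 + L) ^ 5 := by
              gcongr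
              linarith
            nlinarith
          gcongr
      _ = (C * (1 + C')) * ((1 + L) ^ 5 / T ^ (1 - δ)) := by
          have h13 : T ^ (1 - δ) * T ^ δ = T := by
            rw [← Real.rpow_add hT0, sub_add_cancel, Real.rpow_one]
          have h14 : 0 < T ^ (1 - δ) := Real.rpow_pos_of_pos hT0 _
          have h15 : T ^ δ / T = 1 / T ^ (1 - δ) := by
            rw [div_eq_div_iff hT0.ne' h14.ne', one_mul, mul_comm, h13]
          rw [h15]
          ring
  have hsum := ((hA.add hB).sub hP).add herr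
  have e0 : ((1 : ℂ) + 0 - (((∫ x in (0 : ℝ)..1, κ x) -
        (∫ y in (0 : ℝ)..d, y * h y) / (∫ y in (0 : ℝ)..d, h y) : ℝ) : ℂ) + 0) =
      ((1 - (∫ x in (0 : ℝ)..1, κ x) +
        (∫ y in (0 : ℝ)..d, y * h y) / (∫ y in (0 : ℝ)..d, h y) : ℝ) : ℂ) := by
    push_cast
    ring
  rw [e0] at hsum
  refine hsum.congr' ?_
  filter_upwards [DtAux.ev_range] with T hT
  obtain ⟨h3, hL, h1, h12, h2⟩ := hT
  have hT0 : 0 < T := by linarith
  set L := Real.log T with hLdef
  have hL0 : 0 < L := by linarith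
  have hcG : Continuous fun t : ℝ => conj (Gk h κ d T t) :=
    Complex.continuous_conj.comp (continuous_Gk h κ d T)
  have hcd : Continuous (dT L) := MeanMainAux.continuous_dT L
  have hcB : Continuous (BT L (cf ψ)) := MeanMainAux.continuous_BT L (cf ψ)
  have i1 : IntervalIntegrable (fun t : ℝ => dT L t * conj (Gk h κ d T t)) volume
      (T1 T) (T2 T) := (hcd.mul hcG).intervalIntegrable _ _
  have i2 : IntervalIntegrable (fun t : ℝ => BT L (cf ψ) t * conj (Gk h κ d T t)) volume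
      (T1 T) (T2 T) := (hcB.mul hcG).intervalIntegrable _ _
  have i3 : IntervalIntegrable (fun t : ℝ => (SZ L (cf ψ) t - (dT L t + BT L (cf ψ) t)) *
      conj (Gk h κ d T t)) volume (T1 T) (T2 T) := by
    have hmeas : AEStronglyMeasurable (fun t : ℝ => (SZ L (cf ψ) t -
        (dT L t + BT L (cf ψ) t)) * conj (Gk h κ d T t))
        (volume.restrict (uIoc (T1 T) (T2 T))) :=
      (((measurable_SZ hRH hδ hL0 hψ).sub (hcd.add hcB).measurable).mul
        hcG.measurable).aestronglyMeasurable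
    refine (((continuous_const (y := C * Real.exp (δ * L))).mul
      hcG.norm).intervalIntegrable _ _).mono_fun' hmeas ?_
    refine Filter.Eventually.of_forall fun t => ?_
    have h5 := hexp L hL t
    rw [hψ0, one_mul] at h5
    have h6 : C * Real.exp (δ * L) / (1 + |t|) ≤ C * Real.exp (δ * L) :=
      div_le_self (by positivity) (by linarith [abs_nonneg t])
    simp only [norm_mul]
    exact mul_le_mul_of_nonneg_right (h5.trans h6) (norm_nonneg _)
  have e1 : ∫ t in (T1 T)..(T2 T), SZ L (cf ψ) t * conj (Gk h κ d T t) =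
      (∫ t in (T1 T)..(T2 T), dT L t * conj (Gk h κ d T t)) +
      (∫ t in (T1 T)..(T2 T), BT L (cf ψ) t * conj (Gk h κ d T t)) +
      ∫ t in (T1 T)..(T2 T), (SZ L (cf ψ) t - (dT L t + BT L (cf ψ) t)) *
        conj (Gk h κ d T t) := by
    rw [← intervalIntegral.integral_add i1 i2, ← intervalIntegral.integral_add (i1.add i2) i3]
    refine intervalIntegral.integral_congr fun t _ => ?_
    ring
  rw [e1]
  ring

end Pool.Agent.MP_67227b_nt.Fb
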