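import Pool.Agent.MP_67227b_nt.Fb.FbMont1

set_option autoImplicit false

open Filter Topology Set MeasureTheory Complex
open scoped Real ContDiff ArithmeticFunction ArithmeticFunction.Moebius ComplexConjugate

namespace Pool.Agent.MP_67227b_nt.Fb

open Pool.Agent.Lib.ZetaCount_helper33 Pool.Agent.MP_67227b_nt Pool.Agent.MP_67227b_nt.Mo

/-- Module MONT (a). For real `ψ`, reflection of the profile is conjugation.
PROOF. `gs (fun v => ψ(-v)) x = conj (gs ψ x)` for real `x` (substitute `v ↦ -v` and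
`integral_conj`), then `Complex.conj_tsum` (`mu` is real). -/
theorem SZ_refl (ψ : ℝ → ℝ) (L t : ℝ) :
    SZ L (cf (fun x => ψ (-x))) t = conj (SZ L (cf ψ) t) := by
  have hgs : ∀ x : ℝ, gs (cf (fun x => ψ (-x))) (x : ℂ) = conj (gs (cf ψ) (x : ℂ)) := by
    intro x
    unfold gs
    rw [← integral_conj, ← integral_neg_eq_self]
    congr 1
    ext v
    simp only [cf, neg_neg, map_mul, Complex.conj_ofReal]
    congr 1
    rw [← Complex.exp_conj]
    congr 1
    simp only [map_mul, Complex.conj_ofReal, Complex.conj_I, map_ofNat, Complex.ofReal_neg]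
    ring
  unfold SZ
  rw [Complex.conj_tsum]
  congr 1
  ext u
  rw [map_mul, Complex.conj_ofReal, hgs]

private theorem mont_rpow {T : ℝ} (hT : Real.log T ≤ T ^ (1 / 4 : ℝ)) (h1 : 1 < T) :
    T ^ (3 / 4 : ℝ) ≤ T1 T := by
  have h0 : 0 < T := by linarith
  unfold T1
  rw [le_div_iff₀ (Real.log_pos h1)]
  calc T ^ (3 / 4 : ℝ) * Real.log T ≤ T ^ (3 / 4 : ℝ) * T ^ (1 / 4 : ℝ) :=
        mul_le_mul_of_nonneg_left hT (Real.rpow_nonneg h0.le _)
    _ = T := by rw [← Real.rpow_add h0]; norm_num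

/-- Module MONT (b). The energy of `SZ` is at most the integral of `ψ² F`.
PROOF. `Mo.edge hRH` with `η₁ = cf ψ`, `η₂ = cf (ψ ∘ neg)`, `a = 3/4`: the sum over pairs of
`gs (fun ξ => ψ ξ * ψ ξ) ((γ_i-γ_j) log T/2π)` over `zeroScale T` minus
`(1/T)∫_{T^(3/4)}^{T-T^(3/4)} ‖SZ ψ‖²` tends to `0` (`SZ_refl`, `Complex.mul_conj`). Take real parts;
the real part of the pair sum is `∫ ψ² montF + o(1)` by `integral_montF` (with `g = ψ²`, which is a
bump) and `weight_error` (`|Re| ≤ ‖ ‖`, `1 = w + (1-w)`). Finally `[T1 T, T2 T] ⊆ [T^(3/4),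
T - T^(3/4)]` for large `T` (`T/log T ≥ T^(3/4)`, `T2 T = T - T^(3/4)`) and the integrand is
nonnegative and continuous (`ED92.continuous_SZ`), so the integral over `[T1, T2]` is smaller. -/
theorem S_mont (hRH : RiemannHypothesis) {ψ : ℝ → ℝ} {δ : ℝ} (hδ : 0 ≤ δ) (hψ : Bump δ (cf ψ))
    {ε : ℝ} (hε : 0 < ε) :
    ∀ᶠ T : ℝ in atTop, (1 / T) * (∫ t in (T1 T)..(T2 T), ‖SZ (Real.log T) (cf ψ) t‖ ^ 2) ≤
      (∫ x : ℝ, ψ x ^ 2 * montF T x) + ε := by
  have hψ2 : Bump δ (cf (fun x => ψ (-x))) := Bump.refl hψ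
  have hg : Bump δ (cf (fun x => ψ x ^ 2)) := by
    have e : cf (fun x => ψ x ^ 2) = fun x => cf ψ x * cf ψ x := by
      ext x; simp [cf, sq]
    rw [e]
    exact ⟨hψ.smooth.mul hψ.smooth, fun v hv => by rw [hψ.supp v hv, zero_mul]⟩
  have hprod : (fun ξ => cf ψ ξ * cf (fun x => ψ (-x)) (-ξ)) = cf (fun x => ψ x ^ 2) := by
    ext x; simp [cf, sq]
  have he := edge hRH hδ hδ hψ hψ2 (a := 3 / 4) (by norm_num) (by norm_num)
  simp only [hprod, SZ_refl, Complex.mul_conj'] at he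
  have hw := weight_error hRH hδ hg
  obtain ⟨C, hC, hB⟩ := gs_real_bound hδ hψ 2
  have hgc := continuous_gs hδ hψ
  have hre : Tendsto (fun T : ℝ =>
      ((∑ i ∈ PT goodFamily_zeta T, ∑ j ∈ PT goodFamily_zeta T,
        (gs (cf (fun x => ψ x ^ 2))
          (((zetaOrdinate i - zetaOrdinate j) * Real.log T / (2 * π) : ℝ) : ℂ)).re) / zeroScale T) -
      (1 / T) * ∫ t in (T ^ (3 / 4 : ℝ))..(T - T ^ (3 / 4 : ℝ)),
        ‖SZ (Real.log T) (cf ψ) t‖ ^ 2) atTop (𝓝 0) := by
    have h := (Complex.continuous_re.tendsto _).comp he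
    rw [Complex.zero_re] at h
    refine h.congr fun T => ?_
    simp only [Function.comp]
    rw [Complex.sub_re]
    congr 1
    · rw [Complex.div_ofReal_re, Complex.re_sum]
      simp only [Complex.re_sum]
    · have e1 : (∫ t in (T ^ (3 / 4 : ℝ))..(T - T ^ (3 / 4 : ℝ)),
          ((‖SZ (Real.log T) (cf ψ) t‖ : ℂ) ^ 2)) =
          ((∫ t in (T ^ (3 / 4 : ℝ))..(T - T ^ (3 / 4 : ℝ)),
            ‖SZ (Real.log T) (cf ψ) t‖ ^ 2 : ℝ) : ℂ) := by
        rw [← intervalIntegral.integral_ofReal]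
        congr 1
        ext t
        push_cast
        rfl
      rw [e1, show (1 / (T : ℂ)) = ((1 / T : ℝ) : ℂ) by push_cast; rfl, ← Complex.ofReal_mul,
        Complex.ofReal_re]
  have hlog : ∀ᶠ T : ℝ in atTop, Real.log T ≤ T ^ (1 / 4 : ℝ) := by
    have h := isLittleO_log_rpow_atTop (r := 1 / 4) (by norm_num)
    have h2 := h.bound (c := 1) one_pos
    filter_upwards [h2, eventually_gt_atTop 1] with T hT h1
    rw [one_mul, Real.norm_of_nonneg (Real.log_nonneg h1.le),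
      Real.norm_of_nonneg (Real.rpow_nonneg (by linarith) _)] at hT
    exact hT
  filter_upwards [hre.eventually_const_lt (show (-(ε / 2)) < 0 by linarith),
    hw.eventually_lt_const (show 0 < ε / 2 by linarith), hlog,
    Real.tendsto_log_atTop.eventually_ge_atTop (2 * π), eventually_gt_atTop 3] with T h1 h2 h3 h4 h5
  have hT0 : 0 < T := by linarith
  have hz := zeroScale_pos (show 1 < T by linarith)
  rw [integral_montF hδ hg]
  set A := ∑ i ∈ PT goodFamily_zeta T, ∑ j ∈ PT goodFamily_zeta T,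
        (gs (cf (fun x => ψ x ^ 2))
          (((zetaOrdinate i - zetaOrdinate j) * Real.log T / (2 * π) : ℝ) : ℂ)).re with hA
  set B := ∑ i ∈ PT goodFamily_zeta T, ∑ j ∈ PT goodFamily_zeta T,
        (gs (cf (fun x => ψ x ^ 2))
          (((zetaOrdinate i - zetaOrdinate j) * Real.log T / (2 * π) : ℝ) : ℂ)).re *
          (4 / (4 + (zetaOrdinate i - zetaOrdinate j) ^ 2)) with hBdef
  set E := ∑ i ∈ PT goodFamily_zeta T, ∑ j ∈ PT goodFamily_zeta T,
        ‖gs (cf (fun x => ψ x ^ 2))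
          (((zetaOrdinate i - zetaOrdinate j) * Real.log T / (2 * π) : ℝ) : ℂ)‖ *
          (1 - 4 / (4 + (zetaOrdinate i - zetaOrdinate j) ^ 2)) with hE
  have hAB : A ≤ B + E := by
    rw [hA, hBdef, hE, ← Finset.sum_add_distrib]
    refine Finset.sum_le_sum fun i _ => ?_
    rw [← Finset.sum_add_distrib]
    refine Finset.sum_le_sum fun j _ => ?_
    have hr := Complex.re_le_norm (gs (cf (fun x => ψ x ^ 2))
          (((zetaOrdinate i - zetaOrdinate j) * Real.log T / (2 * π) : ℝ) : ℂ))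
    have hw1 : 4 / (4 + (zetaOrdinate i - zetaOrdinate j) ^ 2) ≤ 1 := by
      rw [div_le_one (by positivity)]
      nlinarith [sq_nonneg (zetaOrdinate i - zetaOrdinate j)]
    nlinarith
  have hsub : (∫ t in (T1 T)..(T2 T), ‖SZ (Real.log T) (cf ψ) t‖ ^ 2) ≤
      ∫ t in (T ^ (3 / 4 : ℝ))..(T - T ^ (3 / 4 : ℝ)), ‖SZ (Real.log T) (cf ψ) t‖ ^ 2 := by
    have hcont : Continuous fun t => ‖SZ (Real.log T) (cf ψ) t‖ ^ 2 :=
      ((ED92.continuous_SZ hRH hC hB h4 hgc).norm).pow 2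
    have hT1 := mont_rpow h3 (by linarith)
    have hT12 : T1 T ≤ T2 T := by
      have hq : T1 T ≤ T / 2 := by
        unfold T1
        apply div_le_div_of_nonneg_left hT0.le (by norm_num)
        linarith [Real.pi_gt_three]
      unfold T2
      linarith
    apply intervalIntegral.integral_mono_interval hT1 hT12 le_rfl
    · exact Filter.Eventually.of_forall fun t => by positivity
    · exact hcont.intervalIntegrable _ _
  have hfin : (1 / T) * (∫ t in (T1 T)..(T2 T), ‖SZ (Real.log T) (cf ψ) t‖ ^ 2) ≤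
      (1 / T) * ∫ t in (T ^ (3 / 4 : ℝ))..(T - T ^ (3 / 4 : ℝ)),
        ‖SZ (Real.log T) (cf ψ) t‖ ^ 2 := mul_le_mul_of_nonneg_left hsub (by positivity)
  have hdiv : A / zeroScale T ≤ B / zeroScale T + E / zeroScale T := by
    rw [← add_div]
    exact div_le_div_of_nonneg_right hAB hz.le
  linarith

end Pool.Agent.MP_67227b_nt.Fb
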