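import Pool.Agent.MP_67227b_nt.Fb.FbCore0
import Pool.Agent.MP_67227b_nt.Fb.FbAfe
import Pool.Agent.MP_67227b_nt.Fb.FbBridge
import Pool.Agent.MP_67227b_nt.Fb.FbLocU
import Pool.Agent.MP_67227b_nt.Fb.FbLocG
import Pool.Agent.MP_67227b_nt.Fb.FbMeanG
import Pool.Agent.MP_67227b_nt.Fb.FbEnergy
import Pool.Agent.MP_67227b_nt.Fb.FbMont
import Pool.Agent.MP_67227b_nt.Fb.FbSize

set_option autoImplicit false

open Filter Topology Set MeasureTheory Complex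
open scoped Real ContDiff ArithmeticFunction ArithmeticFunction.Moebius ComplexConjugate

namespace Pool.Agent.MP_67227b_nt.Fb

open Pool.Agent.Lib.ZetaCount_helper33 Pool.Agent.MP_67227b_nt Pool.Agent.MP_67227b_nt.Mo

private theorem core_T12 : ∀ᶠ T : ℝ in atTop, T1 T ≤ T2 T := by
  have h1 : ∀ᶠ T : ℝ in atTop, 2 ≤ Real.log T := Real.tendsto_log_atTop.eventually_ge_atTop _
  have h2 : ∀ᶠ T : ℝ in atTop, 2 ≤ T ^ (1 / 4 : ℝ) :=
    (tendsto_rpow_atTop (by norm_num)).eventually_ge_atTop _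
  filter_upwards [h1, h2, eventually_gt_atTop (0 : ℝ)] with T hL hq hT
  unfold T1 T2
  have h3 : T / Real.log T ≤ T / 2 := div_le_div_of_nonneg_left hT.le (by norm_num) hL
  have h4 : T = T ^ (3 / 4 : ℝ) * T ^ (1 / 4 : ℝ) := by
    rw [← Real.rpow_add hT]
    norm_num
  have h5 : 0 ≤ T ^ (3 / 4 : ℝ) := Real.rpow_nonneg hT.le _
  have h6 : T ^ (3 / 4 : ℝ) * 2 ≤ T := by
    conv_rhs => rw [h4]
    exact mul_le_mul_of_nonneg_left hq h5
  linarith

private theorem core_U (hRH : RiemannHypothesis) {h lam p : ℝ → ℝ} {d e δ : ℝ} (hh : Hok h)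
    (hd : 0 < d) (he : 0 < e) (hde : 2 * d + 2 * e < 1)
    (hl : Prof (1 - 2 * e) lam) (hδ : 0 ≤ δ) (hp : Bump δ (cf p)) {ε : ℝ} (hε : 0 < ε) :
    ∀ᶠ T : ℝ in atTop,
      ‖innerSum T (fun γ => conj (Uu h (fun x => lam x * p x) d T γ)) / (zeroScale T : ℂ)‖ ≤
        Real.sqrt ((∫ x : ℝ, p x ^ 2 * montF T x) + ε) * Real.sqrt (En h lam d + ε) +
          T ^ (-(1 / 20) : ℝ) := by
  obtain ⟨C, hC, hdb⟩ := gs_real_bound hδ hp 2
  have hg := continuous_gs hδ hp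
  have hL : ∀ᶠ T : ℝ in atTop, 2 * π ≤ Real.log T :=
    Real.tendsto_log_atTop.eventually_ge_atTop _
  filter_upwards [S_bridge hRH hδ hp, S_sizeU hh hd (show 2 * d < 1 - 2 * e by linarith)
    (by linarith) hl, S_locU hh hd (show 2 * d < 1 - 2 * e by linarith) (by linarith) hl hδ hp,
    S_mont hRH hδ hp hε, S_energy hh hd (show 2 * d < 1 - 2 * e by linarith) (by linarith) hl hε,
    core_T12, hL, eventually_gt_atTop (1 : ℝ)] with T hbr hsz hloc hmo hen h12 hLT hT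
  have hT0 : 0 < T := by linarith
  have hcU : ContinuousOn (fun t => conj (Uu h lam d T t)) (Icc (T1 T) (T2 T)) :=
    Complex.continuous_conj.comp_continuousOn hsz.2
  have hSZ : Continuous (SZ (Real.log T) (cf p)) := ED92.continuous_SZ hRH hC hdb hLT hg
  have hb := hbr (fun t => conj (Uu h lam d T t))
    (fun γ => conj (Uu h (fun x => lam x * p x) d T γ)) hcU
    (fun t ht => by rw [RCLike.norm_conj]; exact hsz.1 t ht) hloc
  have hcs := cs_interval h12 hT0 hSZ.continuousOn (g := fun t => Uu h lam d T t) hsz.2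
  have hm : ‖(1 / (T : ℂ)) * ∫ t in (T1 T)..(T2 T), SZ (Real.log T) (cf p) t *
      conj (Uu h lam d T t)‖ ≤
      Real.sqrt ((∫ x : ℝ, p x ^ 2 * montF T x) + ε) * Real.sqrt (En h lam d + ε) :=
    hcs.trans (mul_le_mul (Real.sqrt_le_sqrt hmo) (Real.sqrt_le_sqrt hen) (Real.sqrt_nonneg _)
      (Real.sqrt_nonneg _))
  set X := (1 / (T : ℂ)) * ∫ t in (T1 T)..(T2 T), SZ (Real.log T) (cf p) t *
      conj (Uu h lam d T t)
  set Y := innerSum T (fun γ => conj (Uu h (fun x => lam x * p x) d T γ)) / (zeroScale T : ℂ)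
  calc ‖Y‖ = ‖X - (X - Y)‖ := by congr 1; ring
    _ ≤ ‖X‖ + ‖X - Y‖ := norm_sub_le _ _
    _ ≤ _ := add_le_add hm hb

/-- Module CORE (d). The core inequality.

PROOF. Let `L = log T` and `N = zeroScale T`. Let `ψ₁` be as in `exists_psi1`.
(1) `S_bridge` with `ψ = ψ₁`, `f = conj G`, `g = conj G` (hypotheses: `S_sizeG`, `S_locG`) and
`S_meanG`: `innerSum T (conj G)/N → c`, `c = 1 - ∫κ + (∫ y h)/(∫ h)`.
(2) For `j = 2, 3`: `S_bridge` with `ψ = p_j`, `f = conj U_{l_j}`, `g = conj U_{l_j p_j}`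
(hypotheses: `S_sizeU`, `S_locU`, with `x₀ = 1 - 2e > 2d`): `‖innerSum T (conj U_{l_j p_j})/N -
(1/T)∫ SZ p_j conj U_{l_j}‖ ≤ T^(-1/20)`, and by `cs_interval`, `S_mont`, `S_energy` the mean is at
most `sqrt(∫p_j²F + ε) sqrt(En h l_j d + ε)` (continuity of `SZ`: `ED92.continuous_SZ`;
`Real.sqrt_le_sqrt`).
(3) By `S_afe` at every inner zero (`T1 ≤ ord u ≤ T2 ≤ T`) and `Uu_split`:
`‖conj G + conj U_{l₂p₂} + conj U_{l₃p₃}‖ ≤ T^(-1/10)`, so by `norm_innerSum_le` (`innerSum` is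
linear) `‖innerSum(conj G) + innerSum(conj U_{l₂p₂}) + innerSum(conj U_{l₃p₃})‖/N ≤ 2T^(-1/10)`.
Hence `c - o(1) ≤ ‖innerSum (conj G)/N‖ ≤ sum of the two products + o(1)`, and `o(1) ≤ ε` for large
`T` (`c` is real: `c ≤ ‖(c : ℂ)‖`). -/
theorem core (hRH : RiemannHypothesis) {h κ l₂ p₂ l₃ p₃ : ℝ → ℝ} {d e δ : ℝ} (hh : Hok h)
    (hd : 0 < d) (he : 0 < e) (he' : e ≤ 1 / 20) (hde : 2 * d + 2 * e < 1)
    (hκ : Step (1 - 2 * e) (1 - e) κ) (hl₂ : Prof (1 - 2 * e) l₂) (hl₃ : Prof (1 - 2 * e) l₃)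
    (hδ : 0 ≤ δ) (hp₂ : Bump δ (cf p₂)) (hp₃ : Bump δ (cf p₃))
    (hpart : ∀ x, x ≤ 1 + d → κ x + l₂ x * p₂ x + l₃ x * p₃ x = 1) {ε : ℝ} (hε : 0 < ε) :
    ∀ᶠ T : ℝ in atTop,
      1 - (∫ x in (0 : ℝ)..1, κ x) + (∫ y in (0 : ℝ)..d, y * h y) / (∫ y in (0 : ℝ)..d, h y) ≤
        Real.sqrt ((∫ x : ℝ, p₂ x ^ 2 * montF T x) + ε) * Real.sqrt (En h l₂ d + ε) +
        Real.sqrt ((∫ x : ℝ, p₃ x ^ 2 * montF T x) + ε) * Real.sqrt (En h l₃ d + ε) + ε := by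
  obtain ⟨ψ, hψ, hone⟩ := exists_psi1 he he'
  have hd1 : d < 1 / 2 := by linarith
  set c : ℝ := 1 - (∫ x in (0 : ℝ)..1, κ x) +
    (∫ y in (0 : ℝ)..d, y * h y) / (∫ y in (0 : ℝ)..d, h y) with hc
  have hmean := S_meanG hRH hh hd he hde hκ (show (0 : ℝ) ≤ 1 - e / 2 by linarith)
    (by linarith) hψ hone
  rw [← hc] at hmean
  have hmean2 : ∀ᶠ T : ℝ in atTop, ‖(1 / (T : ℂ)) * (∫ t in (T1 T)..(T2 T),
      SZ (Real.log T) (cf ψ) t * conj (Gk h κ d T t)) - (c : ℂ)‖ < ε / 8 := by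
    have := (Metric.tendsto_nhds.1 hmean) (ε / 8) (by positivity)
    simpa only [dist_eq_norm] using this
  have hsmall : ∀ a : ℝ, 0 < a → ∀ᶠ T : ℝ in atTop, T ^ (-a) ≤ ε / 16 := by
    intro a ha
    have := (tendsto_rpow_neg_atTop ha).eventually_lt_const (show 0 < ε / 16 by positivity)
    exact this.mono fun T hT => hT.le
  filter_upwards [hmean2, hsmall (1 / 20) (by norm_num), hsmall (1 / 10) (by norm_num),
    S_bridge hRH (show (0 : ℝ) ≤ 1 - e / 2 by linarith) hψ, S_sizeG hh hd hd1 he hκ,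
    S_locG hh hd hd1 he hκ (show (0 : ℝ) ≤ 1 - e / 2 by linarith) hψ hone,
    core_U hRH hh hd he hde hl₂ hδ hp₂ hε, core_U hRH hh hd he hde hl₃ hδ hp₃ hε,
    norm_innerSum_le, S_afe hRH hh hd he he' hde hκ, core_T12, eventually_gt_atTop (1 : ℝ)]
    with T hme hs20 hs10 hbr hsz hloc hU2 hU3 hin hafe h12 hT
  have hT0 : 0 < T := by linarith
  have hN : 0 < zeroScale T := zeroScale_pos hT
  have hcG : ContinuousOn (fun t => conj (Gk h κ d T t)) (Icc (T1 T) (T2 T)) :=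
    (Complex.continuous_conj.comp hsz.2).continuousOn
  have hb := hbr (fun t => conj (Gk h κ d T t)) (fun t => conj (Gk h κ d T t)) hcG
    (fun t _ => by rw [RCLike.norm_conj]; exact hsz.1 t) hloc
  have hsum : ‖innerSum T (fun γ => conj (Gk h κ d T γ) +
      (conj (Uu h (fun x => l₂ x * p₂ x) d T γ) + conj (Uu h (fun x => l₃ x * p₃ x) d T γ)))‖ ≤
      2 * T ^ (-(1 / 10) : ℝ) * zeroScale T := by
    apply hin _ _ (Real.rpow_nonneg hT0.le _)
    rintro γ h1 h2 ⟨u, rfl⟩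
    have hq : 0 < T ^ (1 / 4 : ℝ) := Real.rpow_pos_of_pos hT0 _
    have hT1p : 0 < T1 T := div_pos hT0 (Real.log_pos hT)
    have hT2 : T2 T ≤ T := by
      unfold T2
      have : 0 ≤ T ^ (3 / 4 : ℝ) := Real.rpow_nonneg hT0.le _
      linarith
    have ha := hafe u (by linarith) (by linarith)
    rw [Uu_split hd hpart hT (by linarith) (by linarith)] at ha
    rw [← map_add, ← map_add, RCLike.norm_conj]
    exact ha
  rw [innerSum_add, innerSum_add] at hsum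
  set A := innerSum T (fun γ => conj (Gk h κ d T γ))
  set B := innerSum T (fun γ => conj (Uu h (fun x => l₂ x * p₂ x) d T γ))
  set D := innerSum T (fun γ => conj (Uu h (fun x => l₃ x * p₃ x) d T γ))
  set M := (1 / (T : ℂ)) * ∫ t in (T1 T)..(T2 T), SZ (Real.log T) (cf ψ) t *
      conj (Gk h κ d T t)
  have hsum' : ‖(A + (B + D)) / (zeroScale T : ℂ)‖ ≤ 2 * T ^ (-(1 / 10) : ℝ) := by
    rw [norm_div, Complex.norm_real, Real.norm_of_nonneg hN.le, div_le_iff₀ hN]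
    exact hsum
  have hfin : c ≤ ‖(c : ℂ)‖ := by
    rw [Complex.norm_real]
    exact le_abs_self c
  have hdec : (c : ℂ) = (A + (B + D)) / (zeroScale T : ℂ) - B / (zeroScale T : ℂ) -
      D / (zeroScale T : ℂ) + (M - A / (zeroScale T : ℂ)) - (M - (c : ℂ)) := by
    ring
  have h5 : ‖(c : ℂ)‖ ≤ ‖(A + (B + D)) / (zeroScale T : ℂ)‖ + ‖B / (zeroScale T : ℂ)‖ +
      ‖D / (zeroScale T : ℂ)‖ + ‖M - A / (zeroScale T : ℂ)‖ + ‖M - (c : ℂ)‖ := by
    conv_lhs => rw [hdec]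
    refine (norm_sub_le _ _).trans (add_le_add ?_ le_rfl)
    refine (norm_add_le _ _).trans (add_le_add ?_ le_rfl)
    refine (norm_sub_le _ _).trans (add_le_add ?_ le_rfl)
    exact norm_sub_le _ _
  linarith

end Pool.Agent.MP_67227b_nt.Fb
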