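import Pool.Agent.MP_67227b_nt.Fb.FbDefs

set_option autoImplicit false

open Filter Topology Set MeasureTheory Complex
open scoped Real ContDiff ArithmeticFunction ArithmeticFunction.Moebius ComplexConjugate

namespace Pool.Agent.MP_67227b_nt.Fb

open Pool.Agent.Lib.ZetaCount_helper33 Pool.Agent.MP_67227b_nt Pool.Agent.MP_67227b_nt.Mo

/-- Module CORE (a). Cauchy-Schwarz on an interval.
PROOF. `‖∫ f conj g‖ ≤ ∫ ‖f‖‖g‖` and Hölder (`MeasureTheory.integral_mul_le_Lp_mul_Lq_of_nonneg` or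
the discriminant argument), both functions continuous on `[A,B]`. -/
theorem cs_interval {A B T : ℝ} (hAB : A ≤ B) (hT : 0 < T) {f g : ℝ → ℂ}
    (hf : ContinuousOn f (Icc A B)) (hg : ContinuousOn g (Icc A B)) :
    ‖(1 / (T : ℂ)) * ∫ t in A..B, f t * conj (g t)‖ ≤
      Real.sqrt ((1 / T) * ∫ t in A..B, ‖f t‖ ^ 2) *
        Real.sqrt ((1 / T) * ∫ t in A..B, ‖g t‖ ^ 2) := by
  have hL : ‖∫ t in A..B, f t * conj (g t)‖ ≤ ∫ t in A..B, ‖f t‖ * ‖g t‖ := by
    refine (intervalIntegral.norm_integral_le_integral_norm hAB).trans (le_of_eq ?_)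
    apply intervalIntegral.integral_congr
    intro t _
    simp only [norm_mul, RCLike.norm_conj]
  have hf' : ContinuousOn (fun t => ‖f t‖) (Icc A B) := hf.norm
  have hg' : ContinuousOn (fun t => ‖g t‖) (Icc A B) := hg.norm
  have hff : IntervalIntegrable (fun t => ‖f t‖ ^ 2) volume A B :=
    ContinuousOn.intervalIntegrable_of_Icc hAB (hf'.pow 2)
  have hgg : IntervalIntegrable (fun t => ‖g t‖ ^ 2) volume A B :=
    ContinuousOn.intervalIntegrable_of_Icc hAB (hg'.pow 2)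
  have hfg : IntervalIntegrable (fun t => ‖f t‖ * ‖g t‖) volume A B :=
    ContinuousOn.intervalIntegrable_of_Icc hAB (hf'.mul hg')
  set a := ∫ t in A..B, ‖f t‖ ^ 2 with ha
  set b := ∫ t in A..B, ‖g t‖ ^ 2 with hb
  set c := ∫ t in A..B, ‖f t‖ * ‖g t‖ with hc
  have ha0 : 0 ≤ a := intervalIntegral.integral_nonneg hAB fun t _ => sq_nonneg _
  have hb0 : 0 ≤ b := intervalIntegral.integral_nonneg hAB fun t _ => sq_nonneg _
  have hc0 : 0 ≤ c := intervalIntegral.integral_nonneg hAB fun t _ => by positivity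
  have hq : ∀ x : ℝ, 0 ≤ a * (x * x) + (-2 * c) * x + b := by
    intro x
    have h1 : (∫ t in A..B, (x * ‖f t‖ - ‖g t‖) ^ 2) = a * (x * x) + (-2 * c) * x + b := by
      have h2 : ∀ t, (x * ‖f t‖ - ‖g t‖) ^ 2 = (x * x) * ‖f t‖ ^ 2 + (-2 * x) * (‖f t‖ * ‖g t‖) +
          ‖g t‖ ^ 2 := fun t => by ring
      simp_rw [h2]
      rw [intervalIntegral.integral_add ((hff.const_mul _).add (hfg.const_mul _)) hgg,
        intervalIntegral.integral_add (hff.const_mul _) (hfg.const_mul _),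
        intervalIntegral.integral_const_mul, intervalIntegral.integral_const_mul]
      rw [← ha, ← hb, ← hc]
      ring
    rw [← h1]
    exact intervalIntegral.integral_nonneg hAB fun t _ => sq_nonneg _
  have hd := discrim_le_zero hq
  have hcab : c ^ 2 ≤ a * b := by
    unfold discrim at hd
    nlinarith
  have hT' : 0 < 1 / T := one_div_pos.2 hT
  have hn : ‖(1 / (T : ℂ))‖ = 1 / T := by
    rw [norm_div, norm_one, Complex.norm_real, Real.norm_of_nonneg hT.le]
  rw [norm_mul, hn, ← Real.sqrt_mul (mul_nonneg hT'.le ha0)]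
  apply Real.le_sqrt_of_sq_le
  calc (1 / T * ‖∫ t in A..B, f t * conj (g t)‖) ^ 2 ≤ (1 / T * c) ^ 2 := by
        apply pow_le_pow_left₀ (by positivity)
        exact mul_le_mul_of_nonneg_left hL hT'.le
    _ = (1 / T) ^ 2 * c ^ 2 := by ring
    _ ≤ (1 / T) ^ 2 * (a * b) := mul_le_mul_of_nonneg_left hcab (sq_nonneg _)
    _ = 1 / T * a * (1 / T * b) := by ring

/-- Module CORE (b). Additivity of `U` in the profile.
PROOF. In `Vv` the profile is only used at `x = log(mt/(2πr))/log T` with `m ≤ T^d`, `r ≥ 1`,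
`0 < t ≤ T`: `mt/(2πr) ≤ T^(1+d)/(2π)`, so `x ≤ 1+d`. There `l₂ p₂ + l₃ p₃ = 1 - κ`. -/
theorem Uu_split {h κ l₂ p₂ l₃ p₃ : ℝ → ℝ} {d : ℝ} (hd : 0 < d)
    (hpart : ∀ x, x ≤ 1 + d → κ x + l₂ x * p₂ x + l₃ x * p₃ x = 1) {T t : ℝ} (hT : 1 < T)
    (ht : 0 < t) (htT : t ≤ T) :
    Uu h (fun x => 1 - κ x) d T t =
      Uu h (fun x => l₂ x * p₂ x) d T t + Uu h (fun x => l₃ x * p₃ x) d T t := by
  unfold Uu
  rw [← mul_add]
  congr 1
  unfold Vv
  rw [← Finset.sum_add_distrib]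
  refine Finset.sum_congr rfl fun m hm => ?_
  rw [← Finset.sum_add_distrib]
  refine Finset.sum_congr rfl fun r hr => ?_
  rw [Finset.mem_Icc] at hm hr
  have hT0 : 0 < T := by linarith
  have hlT : 0 < Real.log T := Real.log_pos hT
  have hm1 : (1 : ℝ) ≤ m := by exact_mod_cast hm.1
  have hr1 : (1 : ℝ) ≤ r := by exact_mod_cast hr.1
  have hmT : (m : ℝ) ≤ T ^ d :=
    (Nat.cast_le.2 hm.2).trans (Nat.floor_le (Real.rpow_nonneg hT0.le _))
  have hpi := Real.pi_gt_three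
  have hx : Real.log (m * t / (2 * π * r)) / Real.log T ≤ 1 + d := by
    rw [div_le_iff₀ hlT]
    have h1 : (1 + d) * Real.log T = Real.log (T ^ (1 + d)) := (Real.log_rpow hT0 _).symm
    rw [h1]
    apply Real.log_le_log (by positivity)
    rw [div_le_iff₀ (by positivity)]
    have h2 : T ^ (1 + d) = T * T ^ d := by
      rw [Real.rpow_add hT0, Real.rpow_one]
    rw [h2]
    have h3 : (m : ℝ) * t ≤ T ^ d * T := mul_le_mul hmT htT ht.le (Real.rpow_nonneg hT0.le _)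
    have h4 : 1 ≤ 2 * π * r := by nlinarith
    have h5 : 0 ≤ T * T ^ d := mul_nonneg hT0.le (Real.rpow_nonneg hT0.le _)
    nlinarith
  have hk : 1 - κ (Real.log (m * t / (2 * π * r)) / Real.log T) =
      l₂ (Real.log (m * t / (2 * π * r)) / Real.log T) *
        p₂ (Real.log (m * t / (2 * π * r)) / Real.log T) +
      l₃ (Real.log (m * t / (2 * π * r)) / Real.log T) *
        p₃ (Real.log (m * t / (2 * π * r)) / Real.log T) := by
    linarith [hpart _ hx]
  simp only [hk]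
  push_cast
  ring

/-- Module CORE (c). A cutoff `ψ₁` with `ψ₁ = 1` on `[-(1-e), 1-e]` and support in
`[-(1-e/2), 1-e/2]`. PROOF. Real part of `Mo.exists_cutoff`, or `Real.smoothTransition`. -/
theorem exists_psi1 {e : ℝ} (he : 0 < e) (he' : e ≤ 1 / 20) :
    ∃ ψ : ℝ → ℝ, Bump (1 - e / 2) (cf ψ) ∧ ∀ x, 0 ≤ x → x ≤ 1 - e → ψ x = 1 := by
  obtain ⟨η, hη, h1⟩ := exists_cutoff (show (0 : ℝ) ≤ 1 - e by linarith)
    (show 1 - e < 1 - e / 2 by linarith)
  refine ⟨fun x => (η x).re, ⟨?_, ?_⟩, ?_⟩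
  · exact ofRealCLM.contDiff.comp (reCLM.contDiff.comp hη.smooth)
  · intro v hv
    simp [cf, hη.supp v hv]
  · intro x hx0 hx1
    simp [h1 x (by rw [abs_of_nonneg hx0]; exact hx1)]

end Pool.Agent.MP_67227b_nt.Fb
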