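import Pool.Agent.MP_67227b_nt.Mo.Edge
import Pool.Agent.MP_67227b_nt.Mo.Montgomery

set_option autoImplicit false

open Filter Topology Set MeasureTheory Complex
open scoped Real ContDiff ArithmeticFunction ArithmeticFunction.Moebius

namespace Pool.Agent.MP_67227b_nt.Fb

open Pool.Agent.Lib.ZetaCount_helper33 Pool.Agent.MP_67227b_nt Pool.Agent.MP_67227b_nt.Mo

/-- Montgomery's function `F(α, T)`, the normalised sum over all pairs of zeros (with multiplicity,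
the diagonal included) with ordinates in `(0, T]` of `T^{iα(γ-γ')} 4/(4+(γ-γ')²)`; the sum is real. -/
noncomputable def montF (T α : ℝ) : ℝ :=
  (∑ i ∈ PT goodFamily_zeta T, ∑ j ∈ PT goodFamily_zeta T,
    Real.cos (α * (zetaOrdinate i - zetaOrdinate j) * Real.log T) *
      (4 / (4 + (zetaOrdinate i - zetaOrdinate j) ^ 2))) / zeroScale T

/-- The weights of the mollifier: continuous and positive. -/
structure Hok (h : ℝ → ℝ) : Prop where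
  cont : Continuous h
  pos : ∀ x, 0 < h x

/-- A smooth step: `1` up to `x₀`, `0` from `x₁` on. -/
structure Step (x₀ x₁ : ℝ) (κ : ℝ → ℝ) : Prop where
  smooth : ContDiff ℝ ∞ κ
  one : ∀ x, x ≤ x₀ → κ x = 1
  zero : ∀ x, x₁ ≤ x → κ x = 0
  nonneg : ∀ x, 0 ≤ κ x
  le_one : ∀ x, κ x ≤ 1

/-- The profiles `λ` used for the part of `ζ A` beyond `T`: smooth, and zero up to `x₀`. -/
structure Prof (x₀ : ℝ) (lam : ℝ → ℝ) : Prop where
  smooth : ContDiff ℝ ∞ lam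
  zero : ∀ x, x ≤ x₀ → lam x = 0

/-- A real function as a complex one. -/
def cf (ψ : ℝ → ℝ) : ℝ → ℂ := fun x => (ψ x : ℂ)

/-- The factor of the functional equation `ζ(s) = χ(s) ζ(1-s)`. -/
noncomputable def chi (s : ℂ) : ℂ :=
  2 * (2 * π : ℂ) ^ (-(1 - s)) * Complex.Gamma (1 - s) * Complex.cos (π * (1 - s) / 2)

/-- The length of the mollifier. -/
noncomputable def Zd (d T : ℝ) : ℕ := ⌊T ^ d⌋₊

/-- The normalising sum `∑_{k ≤ Z} μ(k)²/φ(k) h(log k/log T)`. -/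
noncomputable def LL (h : ℝ → ℝ) (d T : ℝ) : ℝ :=
  ∑ k ∈ Finset.Icc 1 (Zd d T), (μ k : ℝ) ^ 2 / (Nat.totient k : ℝ) *
    h (Real.log k / Real.log T)

/-- The diagonal variables: `μ(n) h(log n/log T)/(φ(n) LL)` for `n ≤ Z`, zero beyond. -/
noncomputable def tau (h : ℝ → ℝ) (d T : ℝ) (n : ℕ) : ℝ :=
  if n ≤ Zd d T then (μ n : ℝ) / (Nat.totient n : ℝ) * h (Real.log n / Real.log T) / LL h d T
  else 0

/-- The coefficients of the mollifier, `a(m) = m ∑_{k ≤ Z} μ(k) τ(mk)`; so `a(1) = 1`, and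
`a(m) = 0` for `m > Z`. -/
noncomputable def am (h : ℝ → ℝ) (d T : ℝ) (m : ℕ) : ℝ :=
  (m : ℝ) * ∑ k ∈ Finset.Icc 1 (Zd d T), (μ k : ℝ) * tau h d T (m * k)

/-- The coefficients of `ζ A`: `g(n) = ∑_{m ∣ n} a(m)`. -/
noncomputable def gg (h : ℝ → ℝ) (d T : ℝ) (n : ℕ) : ℝ :=
  ∑ m ∈ n.divisors, am h d T m

/-- The part of `ζ A` with the frequencies below `1`: `∑_{n ≤ T} g(n) κ(log n/log T) n^{-1/2-it}`. -/
noncomputable def Gk (h κ : ℝ → ℝ) (d T t : ℝ) : ℂ :=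
  ∑ n ∈ Finset.Icc 1 ⌊T⌋₊, ((gg h d T n * κ (Real.log n / Real.log T) : ℝ) : ℂ) *
    (n : ℂ) ^ (-(1 / 2 + (t : ℂ) * I))

/-- The dual polynomial `∑_{m ≤ Z} ∑_{r ≤ T} a(m) λ(log(mt/(2πr))/log T) m^{-1/2-it} r^{-1/2+it}`. -/
noncomputable def Vv (h lam : ℝ → ℝ) (d T t : ℝ) : ℂ :=
  ∑ m ∈ Finset.Icc 1 (Zd d T), ∑ r ∈ Finset.Icc 1 ⌊T⌋₊,
    ((am h d T m * lam (Real.log (m * t / (2 * π * r)) / Real.log T) : ℝ) : ℂ) *
      (m : ℂ) ^ (-(1 / 2 + (t : ℂ) * I)) * (r : ℂ) ^ (-(1 / 2 - (t : ℂ) * I))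

/-- The part of `ζ A` beyond `T`. -/
noncomputable def Uu (h lam : ℝ → ℝ) (d T t : ℝ) : ℂ :=
  chi (1 / 2 + (t : ℂ) * I) * Vv h lam d T t

/-- The left end of the range of `t`. -/
noncomputable def T1 (T : ℝ) : ℝ := T / Real.log T

/-- The right end of the range of `t`. -/
noncomputable def T2 (T : ℝ) : ℝ := T - T ^ (3 / 4 : ℝ)

/-- The limit energy of the profile `λ` for the weight `h`. -/
noncomputable def En (h lam : ℝ → ℝ) (d : ℝ) : ℝ :=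
  (∫ y in (0 : ℝ)..d, h y ^ 2 * ∫ x in (-1 : ℝ)..y, lam (1 + x) ^ 2) /
    (∫ y in (0 : ℝ)..d, h y) ^ 2

end Pool.Agent.MP_67227b_nt.Fb
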