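import Pool.Agent.MP_67227b_nt.Fb.FbArDefs

set_option autoImplicit false

open Filter Topology Set MeasureTheory Complex
open scoped Real ContDiff ArithmeticFunction ArithmeticFunction.Moebius ComplexConjugate

namespace Pool.Agent.MP_67227b_nt.Fb

open Pool.Agent.Lib.ZetaCount_helper33 Pool.Agent.MP_67227b_nt Pool.Agent.MP_67227b_nt.Mo

private lemma form_mu (n : ℕ) : ∑ i ∈ n.divisors, (μ i : ℝ) = if n = 1 then 1 else 0 := by
  have h1 : ∑ i ∈ n.divisors, μ i = if n = 1 then 1 else 0 := by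
    rw [← ArithmeticFunction.coe_mul_zeta_apply, ArithmeticFunction.moebius_mul_coe_zeta,
      ArithmeticFunction.one_apply]
  have h2 : ((∑ i ∈ n.divisors, μ i : ℤ) : ℝ) = ((if n = 1 then 1 else 0 : ℤ) : ℝ) := by
    rw [h1]
  push_cast at h2
  exact h2

private lemma form_dir (Z : ℕ) (F : ℕ → ℕ → ℝ) :
    ∑ n ∈ Finset.Icc 1 Z, ∑ p ∈ n.divisorsAntidiagonal, F p.1 p.2 =
      ∑ l ∈ Finset.Icc 1 Z, ∑ k ∈ Finset.Icc 1 Z, if l * k ≤ Z then F l k else 0 := by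
  rw [Finset.sum_sigma', ← Finset.sum_product', ← Finset.sum_filter]
  refine Finset.sum_nbij' (fun x => (x.2.1, x.2.2)) (fun p => ⟨p.1 * p.2, (p.1, p.2)⟩) ?_ ?_ ?_ ?_ ?_
  · rintro ⟨n, p⟩ hx
    simp only [Finset.mem_sigma, Finset.mem_Icc, Nat.mem_divisorsAntidiagonal] at hx
    obtain ⟨⟨h1, h2⟩, h3, h4⟩ := hx
    have hp1 : 0 < p.1 := Nat.pos_of_ne_zero (by rintro h; rw [h, zero_mul] at h3; omega)
    have hp2 : 0 < p.2 := Nat.pos_of_ne_zero (by rintro h; rw [h, mul_zero] at h3; omega)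
    simp only [Finset.mem_filter, Finset.mem_product, Finset.mem_Icc]
    refine ⟨⟨⟨hp1, ?_⟩, ⟨hp2, ?_⟩⟩, by rw [h3]; exact h2⟩
    · have := Nat.le_mul_of_pos_right p.1 hp2
      omega
    · have := Nat.le_mul_of_pos_left p.2 hp1
      omega
  · rintro ⟨l, k⟩ hx
    simp only [Finset.mem_filter, Finset.mem_product, Finset.mem_Icc] at hx
    simp only [Finset.mem_sigma, Finset.mem_Icc, Nat.mem_divisorsAntidiagonal]
    have : 0 < l * k := Nat.mul_pos hx.1.1.1 hx.1.2.1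
    exact ⟨⟨this, hx.2⟩, trivial, this.ne'⟩
  · rintro ⟨n, p⟩ hx
    simp only [Finset.mem_sigma, Finset.mem_Icc, Nat.mem_divisorsAntidiagonal] at hx
    obtain ⟨-, h3, -⟩ := hx
    subst h3
    rfl
  · rintro ⟨l, k⟩ _
    rfl
  · rintro ⟨n, p⟩ _
    rfl

private lemma form_tau_zero {h : ℝ → ℝ} {d T : ℝ} {n : ℕ} (hn : Zd d T < n) : tau h d T n = 0 := by
  unfold tau
  rw [if_neg (by omega)]

/-- **Module form** (2 theorems, about 120 lines, pure finite sums). The Moebius inversion.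

PROOF. `a(m)/m = ∑_{k ∈ Icc 1 Z} μ(k) τ(mk)` (`m ≥ 1`), where `τ(n) = 0` for `n > Z`. Collect the
terms with `mk = n ≤ Z`: `∑_{m ≤ Z, δ∣m} a(m)/m = ∑_{n ≤ Z} τ(n) ∑_{k ∣ n, δ ∣ n/k} μ(k)`; the inner sum
is empty unless `δ ∣ n`, and for `n = δ l` it is `∑_{k ∣ l} μ(k) = [l = 1]`
(`ArithmeticFunction.coe_moebius_mul_coe_zeta` / `sum_divisors_moebius`...). So the sum is `τ(δ)`; for
`δ > Z` both sides are `0`. -/
theorem tau_inv {h : ℝ → ℝ} {d T : ℝ} {δ : ℕ} (hδ : 1 ≤ δ) :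
    ∑ m ∈ Finset.Icc 1 (Zd d T) with δ ∣ m, am h d T m / m = tau h d T δ := by
  set Z := Zd d T with hZ
  -- reparametrise
  have h1 : ∑ m ∈ Finset.Icc 1 Z with δ ∣ m, am h d T m / m =
      ∑ l ∈ Finset.Icc 1 Z with δ * l ≤ Z, am h d T (δ * l) / ((δ * l : ℕ) : ℝ) := by
    refine (Finset.sum_nbij' (fun l => δ * l) (fun m => m / δ) ?_ ?_ ?_ ?_ ?_).symm
    · intro l hl
      simp only [Finset.mem_filter, Finset.mem_Icc] at hl ⊢
      exact ⟨⟨Nat.mul_pos hδ hl.1.1, hl.2⟩, dvd_mul_right _ _⟩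
    · intro m hm
      simp only [Finset.mem_filter, Finset.mem_Icc] at hm ⊢
      obtain ⟨⟨hm1, hm2⟩, c, rfl⟩ := hm
      rw [Nat.mul_div_cancel_left _ hδ]
      have hc : 0 < c := Nat.pos_of_ne_zero (by rintro rfl; omega)
      have : c ≤ δ * c := Nat.le_mul_of_pos_left c hδ
      exact ⟨⟨hc, by omega⟩, hm2⟩
    · intro l _
      exact Nat.mul_div_cancel_left _ hδ
    · intro m hm
      simp only [Finset.mem_filter, Finset.mem_Icc] at hm
      exact Nat.mul_div_cancel' hm.2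
    · intro l _
      rfl
  have h2 : ∀ l ∈ Finset.Icc 1 Z, (if δ * l ≤ Z then am h d T (δ * l) / ((δ * l : ℕ) : ℝ) else 0) =
      ∑ k ∈ Finset.Icc 1 Z, if l * k ≤ Z then (μ k : ℝ) * tau h d T (δ * (l * k)) else 0 := by
    intro l hl
    rw [Finset.mem_Icc] at hl
    have hpos : 0 < δ * l := Nat.mul_pos hδ hl.1
    split_ifs with hle
    · unfold am
      rw [mul_div_cancel_left₀ _ (by exact_mod_cast hpos.ne')]
      refine Finset.sum_congr rfl fun k hk => ?_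
      split_ifs with hk2
      · rw [mul_assoc]
      · rw [form_tau_zero, mul_zero]
        rw [← hZ]
        have : l * k ≤ δ * (l * k) := Nat.le_mul_of_pos_left _ hδ
        rw [mul_assoc]
        omega
    · symm
      refine Finset.sum_eq_zero fun k hk => ?_
      rw [Finset.mem_Icc] at hk
      split_ifs with hk2
      · rw [form_tau_zero, mul_zero]
        rw [← hZ, ← mul_assoc]
        have : δ * l ≤ δ * l * k := Nat.le_mul_of_pos_right _ hk.1
        omega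
      · rfl
  rw [h1, Finset.sum_filter, Finset.sum_congr rfl h2,
    ← form_dir Z (fun l k => (μ k : ℝ) * tau h d T (δ * (l * k)))]
  have h3 : ∀ n ∈ Finset.Icc 1 Z,
      ∑ p ∈ n.divisorsAntidiagonal, (μ p.2 : ℝ) * tau h d T (δ * (p.1 * p.2)) =
      if n = 1 then tau h d T δ else 0 := by
    intro n _
    have h4 : ∑ p ∈ n.divisorsAntidiagonal, (μ p.2 : ℝ) * tau h d T (δ * (p.1 * p.2)) =
        (∑ p ∈ n.divisorsAntidiagonal, (μ p.2 : ℝ)) * tau h d T (δ * n) := by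
      rw [Finset.sum_mul]
      refine Finset.sum_congr rfl fun p hp => ?_
      rw [Nat.mem_divisorsAntidiagonal] at hp
      rw [hp.1]
    have h5 : ∑ p ∈ n.divisorsAntidiagonal, (μ p.2 : ℝ) = ∑ i ∈ n.divisors, (μ i : ℝ) :=
      Nat.sum_divisorsAntidiagonal' (f := fun _ b => (μ b : ℝ))
    rw [h4, h5, form_mu]
    split_ifs with hn
    · rw [hn, mul_one, one_mul]
    · rw [zero_mul]
  rw [Finset.sum_congr rfl h3, Finset.sum_ite_eq']
  split_ifs with h6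
  · rfl
  · rw [Finset.mem_Icc] at h6
    rw [form_tau_zero]
    rw [← hZ]
    omega

/-- Selberg's diagonalisation.

PROOF. Moebius inversion `q(g) = ∑_{δ∣g} (μ*q)(δ)`, where `(μ*q)(δ) = ∑_{j∣δ} μ(δ/j) q(j)`
(`ArithmeticFunction.sum_eq_iff_sum_mul_moebius_eq`), `δ ∣ gcd(m,m')` iff `δ∣m` and `δ∣m'`, and `tau_inv`
twice. (`gcd(m,m') ≤ Z`.) -/
theorem diag_form {h : ℝ → ℝ} {d T : ℝ} (q : ℕ → ℝ) :
    ∑ m ∈ Finset.Icc 1 (Zd d T), ∑ m' ∈ Finset.Icc 1 (Zd d T),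
      am h d T m * am h d T m' / ((m : ℝ) * m') * q (Nat.gcd m m') =
    ∑ δ ∈ Finset.Icc 1 (Zd d T), (∑ j ∈ δ.divisors, (μ (δ / j) : ℝ) * q j) * tau h d T δ ^ 2 := by
  set Z := Zd d T with hZ
  set Q : ℕ → ℝ := fun δ => ∑ j ∈ δ.divisors, (μ (δ / j) : ℝ) * q j with hQ
  have hinv : ∀ g : ℕ, 0 < g → ∑ δ ∈ g.divisors, Q δ = q g := by
    have h1 := (ArithmeticFunction.sum_eq_iff_sum_mul_moebius_eq (R := ℝ) (f := Q) (g := q)).2
    apply h1
    intro n _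
    exact Nat.sum_divisorsAntidiagonal' (f := fun a b => (μ a : ℝ) * q b)
  have hterm : ∀ m ∈ Finset.Icc 1 Z, ∀ m' ∈ Finset.Icc 1 Z,
      am h d T m * am h d T m' / ((m : ℝ) * m') * q (Nat.gcd m m') =
      ∑ δ ∈ Finset.Icc 1 Z, Q δ * ((if δ ∣ m then am h d T m / m else 0) *
        (if δ ∣ m' then am h d T m' / m' else 0)) := by
    intro m hm m' hm'
    rw [Finset.mem_Icc] at hm hm'
    have hg : 0 < Nat.gcd m m' := Nat.gcd_pos_of_pos_left _ hm.1
    have hgZ : Nat.gcd m m' ≤ Z := (Nat.le_of_dvd hm.1 (Nat.gcd_dvd_left m m')).trans hm.2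
    rw [← hinv _ hg]
    have hd : (Nat.gcd m m').divisors = (Finset.Icc 1 Z).filter (fun δ => δ ∣ m ∧ δ ∣ m') := by
      ext δ
      rw [Nat.mem_divisors, Finset.mem_filter, Finset.mem_Icc, Nat.dvd_gcd_iff]
      constructor
      · rintro ⟨h1, _⟩
        exact ⟨⟨Nat.pos_of_dvd_of_pos h1.1 hm.1, (Nat.le_of_dvd hm.1 h1.1).trans hm.2⟩, h1⟩
      · rintro ⟨_, h1⟩
        exact ⟨h1, hg.ne'⟩
    rw [hd, Finset.sum_filter, Finset.mul_sum]
    refine Finset.sum_congr rfl fun δ _ => ?_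
    by_cases h1 : δ ∣ m
    · by_cases h2 : δ ∣ m'
      · rw [if_pos ⟨h1, h2⟩, if_pos h1, if_pos h2]
        have hm0 : (m : ℝ) ≠ 0 := by
          have : m ≠ 0 := by omega
          exact_mod_cast this
        have hm0' : (m' : ℝ) ≠ 0 := by
          have : m' ≠ 0 := by omega
          exact_mod_cast this
        field_simp
      · rw [if_neg (fun h => h2 h.2), if_neg h2]
        ring
    · rw [if_neg (fun h => h1 h.1), if_neg h1]
      ring
  have h1 : ∑ m ∈ Finset.Icc 1 Z, ∑ m' ∈ Finset.Icc 1 Z,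
      am h d T m * am h d T m' / ((m : ℝ) * m') * q (Nat.gcd m m') =
      ∑ m ∈ Finset.Icc 1 Z, ∑ m' ∈ Finset.Icc 1 Z, ∑ δ ∈ Finset.Icc 1 Z,
        Q δ * ((if δ ∣ m then am h d T m / m else 0) *
        (if δ ∣ m' then am h d T m' / m' else 0)) :=
    Finset.sum_congr rfl fun m hm => Finset.sum_congr rfl fun m' hm' => hterm m hm m' hm'
  rw [h1]
  have h2 : ∑ m ∈ Finset.Icc 1 Z, ∑ m' ∈ Finset.Icc 1 Z, ∑ δ ∈ Finset.Icc 1 Z,
        Q δ * ((if δ ∣ m then am h d T m / m else 0) *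
        (if δ ∣ m' then am h d T m' / m' else 0)) =
      ∑ δ ∈ Finset.Icc 1 Z, Q δ * ((∑ m ∈ Finset.Icc 1 Z, if δ ∣ m then am h d T m / m else 0) *
        (∑ m' ∈ Finset.Icc 1 Z, if δ ∣ m' then am h d T m' / m' else 0)) := by
    have h3 : ∀ m ∈ Finset.Icc 1 Z, ∑ m' ∈ Finset.Icc 1 Z, ∑ δ ∈ Finset.Icc 1 Z,
        Q δ * ((if δ ∣ m then am h d T m / m else 0) *
        (if δ ∣ m' then am h d T m' / m' else 0)) =
        ∑ δ ∈ Finset.Icc 1 Z, ∑ m' ∈ Finset.Icc 1 Z,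
        Q δ * ((if δ ∣ m then am h d T m / m else 0) *
        (if δ ∣ m' then am h d T m' / m' else 0)) := fun m _ => Finset.sum_comm
    rw [Finset.sum_congr rfl h3, Finset.sum_comm]
    refine Finset.sum_congr rfl fun δ _ => ?_
    rw [Finset.sum_mul_sum, Finset.mul_sum]
    refine Finset.sum_congr rfl fun m _ => ?_
    rw [Finset.mul_sum]
  rw [h2]
  refine Finset.sum_congr rfl fun δ hδ => ?_
  rw [Finset.mem_Icc] at hδ
  rw [← Finset.sum_filter, tau_inv hδ.1]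
  simp only [hQ]
  ring

end Pool.Agent.MP_67227b_nt.Fb
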