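import Pool.Agent.MP_67227b_nt.Fb.FbRiem

set_option autoImplicit false

open Filter Topology Set MeasureTheory Complex
open scoped Real ContDiff ArithmeticFunction ArithmeticFunction.Moebius ComplexConjugate

namespace Pool.Agent.MP_67227b_nt.Fb

open Pool.Agent.Lib.ZetaCount_helper33 Pool.Agent.MP_67227b_nt Pool.Agent.MP_67227b_nt.Mo

/-- **Module ll** (6 small lemmas, about 120 lines). -/
theorem Zd_arg {d T : ℝ} (hd : 0 < d) (hT : 1 < T) {k : ℕ} (hk : k ∈ Finset.Icc 1 (Zd d T)) :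
    0 ≤ Real.log k / Real.log T ∧ Real.log k / Real.log T ≤ d := by
  obtain ⟨h1, h2⟩ := Finset.mem_Icc.1 hk
  have hL : 0 < Real.log T := Real.log_pos hT
  have h1' : (1 : ℝ) ≤ k := by exact_mod_cast h1
  refine ⟨div_nonneg (Real.log_nonneg h1') hL.le, ?_⟩
  rw [div_le_iff₀ hL, ← Real.log_rpow (by linarith)]
  refine Real.log_le_log (by linarith) ?_
  have h3 : (k : ℝ) ≤ (⌊T ^ d⌋₊ : ℝ) := by exact_mod_cast h2
  exact h3.trans (Nat.floor_le (by positivity))

/-- PROOF. `riem` for `h` (`LL h d T = ∑ mf k * h(..)` by definition). -/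
theorem LL_tendsto {h : ℝ → ℝ} {d : ℝ} (hh : Hok h) (hd : 0 < d) :
    Tendsto (fun T : ℝ => LL h d T / Real.log T) atTop (𝓝 (∫ y in (0 : ℝ)..d, h y)) := by
  refine (riem hh.cont hd).congr fun T => ?_
  unfold LL mf
  ring

theorem integral_h_pos {h : ℝ → ℝ} {d : ℝ} (hh : Hok h) (hd : 0 < d) :
    0 < ∫ y in (0 : ℝ)..d, h y :=
  intervalIntegral.intervalIntegral_pos_of_pos_on (hh.cont.intervalIntegrable _ _)
    (fun x _ => hh.pos x) hd

/-- `SS` has the order `log T` (`riem` for `f = 1`). -/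
theorem SS_le {d : ℝ} (hd : 0 < d) : ∀ᶠ T : ℝ in atTop, SS d T ≤ 2 * d * Real.log T := by
  have h1 := riem (f := fun _ => (1 : ℝ)) continuous_const hd
  have h2 : (∫ _x in (0 : ℝ)..d, (1 : ℝ)) = d := by simp
  rw [h2] at h1
  filter_upwards [h1.eventually_le_const (show d < 2 * d by linarith), eventually_gt_atTop 1]
    with T hT hT1
  have hL : 0 < Real.log T := Real.log_pos hT1
  have h3 : (1 / Real.log T) * ∑ k ∈ Finset.Icc 1 (Zd d T), mf k * 1 = SS d T / Real.log T := by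
    unfold SS
    simp only [mul_one]
    ring
  rw [h3, div_le_iff₀ hL] at hT
  exact hT

/-- PROOF. `LL_tendsto`, `integral_h_pos`. -/
theorem LL_ge {h : ℝ → ℝ} {d : ℝ} (hh : Hok h) (hd : 0 < d) :
    ∃ c : ℝ, 0 < c ∧ ∀ᶠ T : ℝ in atTop, c * Real.log T ≤ LL h d T := by
  have hI := integral_h_pos hh hd
  refine ⟨(∫ y in (0 : ℝ)..d, h y) / 2, by positivity, ?_⟩
  filter_upwards [(LL_tendsto hh hd).eventually_const_le (half_lt_self hI), eventually_gt_atTop 1]
    with T hT hT1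
  have hL : 0 < Real.log T := Real.log_pos hT1
  rwa [le_div_iff₀ hL] at hT

/-- PROOF. `h` has a maximum `M` and a minimum `c > 0` on `[0,d]`. -/
theorem SS_le_LL {h : ℝ → ℝ} {d : ℝ} (hh : Hok h) (hd : 0 < d) :
    ∃ C : ℝ, 0 < C ∧ (∀ x ∈ Icc 0 d, h x ≤ C) ∧ ∀ T : ℝ, 1 < T → SS d T ≤ C * LL h d T := by
  have hne : (Icc (0 : ℝ) d).Nonempty := ⟨0, left_mem_Icc.2 hd.le⟩
  obtain ⟨x1, hx1, hmax⟩ := isCompact_Icc.exists_isMaxOn hne (hh.cont.continuousOn (s := Icc 0 d))
  obtain ⟨x2, hx2, hmin⟩ := isCompact_Icc.exists_isMinOn hne (hh.cont.continuousOn (s := Icc 0 d))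
  have h1 := hh.pos x1
  have h2 := hh.pos x2
  have h3 : 0 < 1 / h x2 := by positivity
  refine ⟨h x1 + 1 / h x2, by linarith, fun x hx => ?_, fun T hT => ?_⟩
  · have := hmax hx
    simp only [mem_setOf_eq] at this
    linarith
  · have hmf : ∀ k, 0 ≤ mf k := fun k => by
      unfold mf
      positivity
    have h4 : h x2 * SS d T ≤ LL h d T := by
      unfold SS LL
      rw [Finset.mul_sum]
      refine Finset.sum_le_sum fun k hk => ?_
      have h5 := Zd_arg hd hT hk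
      have h6 := hmin (show Real.log k / Real.log T ∈ Icc 0 d from h5)
      simp only [mem_setOf_eq] at h6
      show h x2 * mf k ≤ mf k * h (Real.log k / Real.log T)
      rw [mul_comm]
      exact mul_le_mul_of_nonneg_left h6 (hmf k)
    have h5 : 0 ≤ SS d T := Finset.sum_nonneg fun k _ => hmf k
    have h6 : 0 ≤ LL h d T := le_trans (mul_nonneg h2.le h5) h4
    have h7 : SS d T ≤ 1 / h x2 * LL h d T := by
      rw [one_div, inv_mul_eq_div, le_div_iff₀ h2, mul_comm]
      exact h4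
    refine h7.trans (mul_le_mul_of_nonneg_right ?_ h6)
    linarith

end Pool.Agent.MP_67227b_nt.Fb
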