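import Pool.Agent.MP_67227b_nt.Fb.FbArDefs
import Pool.Agent.MT.HW

set_option autoImplicit false

open Filter Topology Set MeasureTheory Complex
open scoped Real ContDiff ArithmeticFunction ArithmeticFunction.Moebius ComplexConjugate

namespace Pool.Agent.MP_67227b_nt.Fb

open Pool.Agent.Lib.ZetaCount_helper33 Pool.Agent.MP_67227b_nt Pool.Agent.MP_67227b_nt.Mo

private lemma tot_two : (1 : ℝ) ≤ (2 : ℝ) ^ (1 / 4 : ℝ) := Real.one_le_rpow (by norm_num) (by norm_num)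

private lemma tot_three : (1 : ℝ) ≤ (3 : ℝ) ^ (1 / 4 : ℝ) :=
  Real.one_le_rpow (by norm_num) (by norm_num)

private lemma tot_root {c x : ℝ} (hc : 0 ≤ c) (h : c ^ 4 ≤ x) : c ≤ x ^ (1 / 4 : ℝ) := by
  have h1 : c = (c ^ 4) ^ (1 / 4 : ℝ) := by
    rw [← Real.rpow_natCast c 4, ← Real.rpow_mul hc]
    norm_num
  rw [h1]
  exact Real.rpow_le_rpow (by positivity) h (by norm_num)

private lemma tot_big {p : ℕ} (hp : 5 ≤ p) : 1 ≤ (p : ℝ) ^ (1 / 4 : ℝ) * (1 - (p : ℝ)⁻¹) := by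
  have hp5 : (5 : ℝ) ≤ p := by exact_mod_cast hp
  have h1 : (5 / 4 : ℝ) ≤ (p : ℝ) ^ (1 / 4 : ℝ) :=
    tot_root (by norm_num) (by norm_num; linarith)
  have h2 : (4 / 5 : ℝ) ≤ 1 - (p : ℝ)⁻¹ := by
    have : (p : ℝ)⁻¹ ≤ (5 : ℝ)⁻¹ := inv_anti₀ (by norm_num) hp5
    norm_num at this ⊢
    linarith
  calc (1 : ℝ) = 5 / 4 * (4 / 5) := by norm_num
    _ ≤ _ := mul_le_mul h1 h2 (by norm_num) (by positivity)

private lemma tot_prod (n : ℕ) :
    (1 / 2 : ℝ) ≤ ∏ p ∈ n.primeFactors, ((p : ℝ) ^ (1 / 4 : ℝ) * (1 - (p : ℝ)⁻¹)) := by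
  set f2 : ℝ := (2 : ℝ) ^ (1 / 4 : ℝ) * (1 - (2 : ℝ)⁻¹) with hf2
  set f3 : ℝ := (3 : ℝ) ^ (1 / 4 : ℝ) * (1 - (3 : ℝ)⁻¹) with hf3
  have h2 : (1 / 2 : ℝ) ≤ f2 := by
    rw [hf2]
    have := tot_two
    norm_num
    linarith
  have h3 : (1 / 2 : ℝ) ≤ f3 := by
    rw [hf3]
    have := tot_three
    norm_num
    linarith
  have h23 : (1 / 2 : ℝ) ≤ f2 * f3 := by
    have e : f2 * f3 = (6 : ℝ) ^ (1 / 4 : ℝ) * (1 / 3) := by
      rw [hf2, hf3]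
      have : (6 : ℝ) ^ (1 / 4 : ℝ) = (2 : ℝ) ^ (1 / 4 : ℝ) * (3 : ℝ) ^ (1 / 4 : ℝ) := by
        rw [← Real.mul_rpow (by norm_num) (by norm_num)]
        norm_num
      rw [this]
      ring
    rw [e]
    have : (3 / 2 : ℝ) ≤ (6 : ℝ) ^ (1 / 4 : ℝ) := tot_root (by norm_num) (by norm_num)
    linarith
  have hle : ∏ p ∈ n.primeFactors, ((if p = 2 then f2 else 1) * (if p = 3 then f3 else 1)) ≤
      ∏ p ∈ n.primeFactors, ((p : ℝ) ^ (1 / 4 : ℝ) * (1 - (p : ℝ)⁻¹)) := by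
    apply Finset.prod_le_prod
    · intro p _
      split_ifs <;> positivity
    · intro p hp
      have hpp := Nat.prime_of_mem_primeFactors hp
      by_cases e2 : p = 2
      · subst e2
        simp [hf2]
      · by_cases e3 : p = 3
        · subst e3
          simp [hf3]
        · rw [if_neg e2, if_neg e3, mul_one]
          apply tot_big
          have h4 : p ≠ 4 := by
            rintro rfl
            exact absurd hpp (by norm_num)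
          have := hpp.two_le
          omega
  refine le_trans ?_ hle
  rw [Finset.prod_mul_distrib, Finset.prod_ite_eq', Finset.prod_ite_eq']
  split_ifs
  · exact h23
  · rw [mul_one]; exact h2
  · rw [one_mul]; exact h3
  · norm_num

/-- **Module tot** (2 theorems, about 180 lines; only elementary number theory). `n^{3/4} ≤ 2 φ(n)`.

PROOF. `n/φ(n) = ∏_{p ∣ n} p/(p-1)` (`Nat.totient_eq_mul_prod_factors`), and
`p/(p-1) ≤ c_p p^{1/4}` with `c_2 = 2/2^{1/4}`, `c_3 = (3/2)/3^{1/4}`, `c_p = 1` for `p ≥ 5`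
(`5/4 ≤ 5^{1/4}`: `(5/4)^4 = 2.44 ≤ 5`; for `p ≥ 5`, `p/(p-1) ≤ 5/4`). `c_2 c_3 = 3/6^{1/4} ≤ 2`
(`6^{1/4} ≥ 3/2`: `(3/2)^4 = 5.0625 ≤ 6`). So
`n/φ(n) ≤ 2 ∏_{p∣n} p^{1/4} ≤ 2 n^{1/4}` (`c_2, c_3 ≥ 1`, `∏_{p∣n} p ≤ n`). -/
theorem tot_ge (n : ℕ) : (n : ℝ) ^ (3 / 4 : ℝ) ≤ 2 * (Nat.totient n : ℝ) := by
  rcases Nat.eq_zero_or_pos n with h0 | h0
  · subst h0
    rw [Nat.cast_zero, Real.zero_rpow (by norm_num)]
    positivity
  have hn : (0 : ℝ) < n := by exact_mod_cast h0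
  have h1 : (Nat.totient n : ℝ) = n * ∏ p ∈ n.primeFactors, (1 - (p : ℝ)⁻¹) := by
    have := Nat.totient_eq_mul_prod_factors n
    have h2 : ((Nat.totient n : ℚ) : ℝ) = ((n * ∏ p ∈ n.primeFactors, (1 - (p : ℚ)⁻¹) : ℚ) : ℝ) := by
      rw [this]
    push_cast at h2
    exact h2
  have hP : ∏ p ∈ n.primeFactors, (p : ℝ) ^ (1 / 4 : ℝ) ≤ (n : ℝ) ^ (1 / 4 : ℝ) := by
    rw [Real.finsetProd_rpow _ _ (fun i _ => Nat.cast_nonneg i)]
    apply Real.rpow_le_rpow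
    · exact Finset.prod_nonneg fun i _ => Nat.cast_nonneg i
    · have h9 : ((∏ p ∈ n.primeFactors, p : ℕ) : ℝ) ≤ n := by
        exact_mod_cast Nat.le_of_dvd h0 (Nat.prod_primeFactors_dvd n)
      rw [Nat.cast_prod] at h9
      exact h9
    · norm_num
  have h3 := tot_prod n
  rw [Finset.prod_mul_distrib] at h3
  have hq : 0 ≤ ∏ p ∈ n.primeFactors, (1 - (p : ℝ)⁻¹) := by
    apply Finset.prod_nonneg
    intro p hp
    have h4 := (Nat.prime_of_mem_primeFactors hp).one_lt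
    have h5 : (1 : ℝ) < p := by exact_mod_cast h4
    have := inv_lt_one_of_one_lt₀ h5
    linarith
  have h6 : (1 / 2 : ℝ) ≤ (n : ℝ) ^ (1 / 4 : ℝ) * ∏ p ∈ n.primeFactors, (1 - (p : ℝ)⁻¹) :=
    h3.trans (mul_le_mul_of_nonneg_right hP hq)
  have h7 : (n : ℝ) = (n : ℝ) ^ (3 / 4 : ℝ) * (n : ℝ) ^ (1 / 4 : ℝ) := by
    rw [← Real.rpow_add hn]
    norm_num
  rw [h1]
  have h8 : 0 < (n : ℝ) ^ (3 / 4 : ℝ) := Real.rpow_pos_of_pos hn _
  calc (n : ℝ) ^ (3 / 4 : ℝ) = 2 * ((n : ℝ) ^ (3 / 4 : ℝ) * (1 / 2)) := by ring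
    _ ≤ 2 * ((n : ℝ) ^ (3 / 4 : ℝ) *
        ((n : ℝ) ^ (1 / 4 : ℝ) * ∏ p ∈ n.primeFactors, (1 - (p : ℝ)⁻¹))) := by
          apply mul_le_mul_of_nonneg_left _ (by norm_num)
          exact mul_le_mul_of_nonneg_left h6 h8.le
    _ = 2 * (((n : ℝ) ^ (3 / 4 : ℝ) * (n : ℝ) ^ (1 / 4 : ℝ)) *
        ∏ p ∈ n.primeFactors, (1 - (p : ℝ)⁻¹)) := by ring
    _ = _ := by rw [← h7]

private lemma tot_dir (Z : ℕ) (F : ℕ → ℕ → ℝ) :
    ∑ n ∈ Finset.Icc 1 Z, ∑ p ∈ n.divisorsAntidiagonal, F p.1 p.2 =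
      ∑ l ∈ Finset.Icc 1 Z, ∑ k ∈ Finset.Icc 1 Z, if l * k ≤ Z then F l k else 0 := by
  rw [Finset.sum_sigma', ← Finset.sum_product', ← Finset.sum_filter]
  refine Finset.sum_nbij' (fun x => (x.2.1, x.2.2)) (fun p => ⟨p.1 * p.2, (p.1, p.2)⟩) ?_ ?_ ?_ ?_ ?_
  · rintro ⟨n, p⟩ hx
    simp only [Finset.mem_sigma, Finset.mem_Icc, Nat.mem_divisorsAntidiagonal] at hx
    obtain ⟨⟨h1, h2⟩, h3, h4⟩ := hx
    have hp1 : 0 < p.1 := Nat.pos_of_ne_zero (by rintro h; rw [h, zero_mul] at h3; omega)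
    have hp2 : 0 < p.2 := Nat.pos_of_ne_zero (by rintro h; rw [h, mul_zero] at h3; omega)
    simp only [Finset.mem_filter, Finset.mem_product, Finset.mem_Icc]
    refine ⟨⟨⟨hp1, ?_⟩, ⟨hp2, ?_⟩⟩, by rw [h3]; exact h2⟩
    · have := Nat.le_mul_of_pos_right p.1 hp2
      omega
    · have := Nat.le_mul_of_pos_left p.2 hp1
      omega
  · rintro ⟨l, k⟩ hx
    simp only [Finset.mem_filter, Finset.mem_product, Finset.mem_Icc] at hx
    simp only [Finset.mem_sigma, Finset.mem_Icc, Nat.mem_divisorsAntidiagonal]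
    have : 0 < l * k := Nat.mul_pos hx.1.1.1 hx.1.2.1
    exact ⟨⟨this, hx.2⟩, trivial, this.ne'⟩
  · rintro ⟨n, p⟩ hx
    simp only [Finset.mem_sigma, Finset.mem_Icc, Nat.mem_divisorsAntidiagonal] at hx
    obtain ⟨-, h3, -⟩ := hx
    subst h3
    rfl
  · rintro ⟨l, k⟩ _
    rfl
  · rintro ⟨n, p⟩ _
    rfl

private lemma tot_conv (Z : ℕ) {A B : ℕ → ℝ} (hA : ∀ n, 1 ≤ n → 0 ≤ A n)
    (hB : ∀ n, 1 ≤ n → 0 ≤ B n) :
    ∑ n ∈ Finset.Icc 1 Z, ∑ p ∈ n.divisorsAntidiagonal, A p.1 * B p.2 ≤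
      (∑ n ∈ Finset.Icc 1 Z, A n) * ∑ n ∈ Finset.Icc 1 Z, B n := by
  rw [tot_dir Z (fun a b => A a * B b), Finset.sum_mul_sum]
  refine Finset.sum_le_sum fun l hl => Finset.sum_le_sum fun k hk => ?_
  rw [Finset.mem_Icc] at hl hk
  split_ifs
  · exact le_rfl
  · exact mul_nonneg (hA l hl.1) (hB k hk.1)

private lemma tot_mf (n : ℕ) : mf n = if Squarefree n then 1 / (Nat.totient n : ℝ) else 0 := by
  unfold mf
  split_ifs with hn
  · have h1 := ArithmeticFunction.moebius_sq_eq_one_of_squarefree hn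
    have h2 : ((μ n : ℝ)) ^ 2 = 1 := by exact_mod_cast h1
    rw [h2]
  · rw [ArithmeticFunction.moebius_eq_zero_of_not_squarefree hn]
    simp

private lemma tot_mf_nonneg (n : ℕ) : 0 ≤ mf n := by
  unfold mf
  positivity

private lemma tot_mf_mul {a b : ℕ} (h : Squarefree (a * b)) : mf (a * b) = mf a * mf b := by
  have h1 := Nat.squarefree_mul_iff.1 h
  rw [tot_mf, tot_mf, tot_mf, if_pos h, if_pos h1.2.1, if_pos h1.2.2, Nat.totient_mul h1.1]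
  push_cast
  rw [one_div_mul_one_div]

private lemma tot_inv {n : ℕ} (hn : 1 ≤ n) : 1 / (Nat.totient n : ℝ) ≤ 2 * (n : ℝ) ^ (-(3 / 4) : ℝ) := by
  have hn0 : (0 : ℝ) < n := by exact_mod_cast hn
  have hφ : (0 : ℝ) < Nat.totient n := by exact_mod_cast Nat.totient_pos.2 hn
  rw [Real.rpow_neg hn0.le, div_le_iff₀ hφ]
  have h1 : 0 < (n : ℝ) ^ (3 / 4 : ℝ) := Real.rpow_pos_of_pos hn0 _
  have h2 := tot_ge n
  rw [mul_assoc, mul_comm ((n : ℝ) ^ (3 / 4 : ℝ))⁻¹, ← mul_assoc, ← div_eq_mul_inv,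
    le_div_iff₀ h1, one_mul]
  exact h2

private lemma tot_mf_le {n : ℕ} (hn : 1 ≤ n) : mf n ≤ 2 * (n : ℝ) ^ (-(3 / 4) : ℝ) := by
  rw [tot_mf]
  split_ifs
  · exact tot_inv hn
  · positivity

private lemma tot_nf_le {n : ℕ} (hn : 1 ≤ n) :
    mf n / (Nat.totient n : ℝ) ≤ 4 * (n : ℝ) ^ (-(3 / 2) : ℝ) := by
  have hn0 : (0 : ℝ) < n := by exact_mod_cast hn
  have e : 4 * (n : ℝ) ^ (-(3 / 2) : ℝ) =
      2 * (n : ℝ) ^ (-(3 / 4) : ℝ) * (2 * (n : ℝ) ^ (-(3 / 4) : ℝ)) := by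
    have : (n : ℝ) ^ (-(3 / 2) : ℝ) = (n : ℝ) ^ (-(3 / 4) : ℝ) * (n : ℝ) ^ (-(3 / 4) : ℝ) := by
      rw [← Real.rpow_add hn0]
      norm_num
    rw [this]
    ring
  rw [e, div_eq_mul_one_div]
  exact mul_le_mul (tot_mf_le hn) (tot_inv hn) (by positivity) (by positivity)

private lemma tot_log {n : ℕ} (hn : 1 ≤ n) : 1 + Real.log n ≤ 4 * (n : ℝ) ^ (1 / 4 : ℝ) := by
  have hn0 : (0 : ℝ) < n := by exact_mod_cast hn
  have h1 : 0 < (n : ℝ) ^ (1 / 4 : ℝ) := Real.rpow_pos_of_pos hn0 _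
  have h2 := Real.log_le_sub_one_of_pos h1
  rw [Real.log_rpow hn0] at h2
  linarith

/-- The error sum.

PROOF. Put `δ = j f`; `δ` squarefree: `j, f` squarefree and coprime, `φ(δ) = φ(j) φ(f)`, so the left
side is at most `(∑_{j ≤ N} mf(j) j/φ(j)) (∑_{f ≤ N} μ(f)² (1 + log f)/φ(f)²)`. By `tot_ge` the second
factor is at most `4 ∑ (1 + log f) f^{-3/2} ≤ C₁`. For squarefree `j`:
`j/φ(j) = ∑_{d∣j} 1/φ(d)` (`MT.HWAux.sum_SD`), so with `j = d j'` the first factor is at most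
`(∑_d μ(d)²/φ(d)²) (∑_{j' ≤ N} mf j') ≤ C₂ ∑_{k ≤ N} mf k`. -/
theorem err_sum : ∃ C : ℝ, 0 < C ∧ ∀ N : ℕ, 1 ≤ N →
    ∑ δ ∈ Finset.Icc 1 N, (μ δ : ℝ) ^ 2 / (Nat.totient δ : ℝ) ^ 2 *
      ∑ j ∈ δ.divisors, (j : ℝ) * (1 + Real.log ((δ : ℝ) / j)) ≤
      C * ∑ k ∈ Finset.Icc 1 N, mf k := by
  have hs1 : Summable fun n : ℕ => (n : ℝ) ^ (-(3 / 2) : ℝ) :=
    Real.summable_nat_rpow.2 (by norm_num)
  have hs2 : Summable fun n : ℕ => (n : ℝ) ^ (-(5 / 4) : ℝ) :=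
    Real.summable_nat_rpow.2 (by norm_num)
  set C1 : ℝ := ∑' n : ℕ, (n : ℝ) ^ (-(3 / 2) : ℝ) with hC1
  set C2 : ℝ := ∑' n : ℕ, (n : ℝ) ^ (-(5 / 4) : ℝ) with hC2
  have hC1p : 0 ≤ C1 := tsum_nonneg fun n => Real.rpow_nonneg (Nat.cast_nonneg n) _
  have hC2p : 0 ≤ C2 := tsum_nonneg fun n => Real.rpow_nonneg (Nat.cast_nonneg n) _
  refine ⟨4 * C1 * (16 * C2) + 1, by positivity, fun N _ => ?_⟩
  set nf : ℕ → ℝ := fun n => mf n / (Nat.totient n : ℝ) with hnf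
  have hnf0 : ∀ n, 0 ≤ nf n := fun n => div_nonneg (tot_mf_nonneg n) (Nat.cast_nonneg _)
  have hnf_mul : ∀ {a b : ℕ}, Squarefree (a * b) → nf (a * b) = nf a * nf b := by
    intro a b h
    simp only [hnf]
    rw [tot_mf_mul h, Nat.totient_mul (Nat.squarefree_mul_iff.1 h).1]
    push_cast
    rw [mul_div_mul_comm]
  have hnf_sq : ∀ n, ¬ Squarefree n → nf n = 0 := by
    intro n hn
    simp only [hnf]
    rw [tot_mf, if_neg hn, zero_div]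
  set A : ℕ → ℝ := fun j => (j : ℝ) * nf j with hA
  set B : ℕ → ℝ := fun f => nf f * (1 + Real.log f) with hB
  have hA0 : ∀ n, 1 ≤ n → 0 ≤ A n := fun n _ => mul_nonneg (Nat.cast_nonneg n) (hnf0 n)
  have hB0 : ∀ n, 1 ≤ n → 0 ≤ B n := fun n hn => by
    have : 0 ≤ Real.log n := Real.log_natCast_nonneg n
    exact mul_nonneg (hnf0 n) (by linarith)
  -- the first step
  have h1 : ∑ δ ∈ Finset.Icc 1 N, (μ δ : ℝ) ^ 2 / (Nat.totient δ : ℝ) ^ 2 *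
      ∑ j ∈ δ.divisors, (j : ℝ) * (1 + Real.log ((δ : ℝ) / j)) ≤
      ∑ δ ∈ Finset.Icc 1 N, ∑ p ∈ δ.divisorsAntidiagonal, A p.1 * B p.2 := by
    refine Finset.sum_le_sum fun δ hδ => ?_
    rw [Finset.mem_Icc] at hδ
    have e1 : (μ δ : ℝ) ^ 2 / (Nat.totient δ : ℝ) ^ 2 = nf δ := by
      simp only [hnf, mf]
      rw [div_div, ← pow_two]
    have e2 : ∑ j ∈ δ.divisors, (j : ℝ) * (1 + Real.log ((δ : ℝ) / j)) =
        ∑ p ∈ δ.divisorsAntidiagonal, (p.1 : ℝ) * (1 + Real.log p.2) := by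
      rw [Nat.sum_divisorsAntidiagonal (f := fun a b : ℕ => (a : ℝ) * (1 + Real.log b))]
      refine Finset.sum_congr rfl fun j hj => ?_
      rw [Nat.mem_divisors] at hj
      rw [Nat.cast_div_charZero hj.1]
    rw [e1, e2, Finset.mul_sum]
    refine Finset.sum_le_sum fun p hp => ?_
    rw [Nat.mem_divisorsAntidiagonal] at hp
    by_cases hsq : Squarefree δ
    · rw [← hp.1] at hsq
      rw [← hp.1, hnf_mul hsq]
      simp only [hA, hB]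
      apply le_of_eq
      ring
    · rw [hnf_sq δ hsq, zero_mul]
      have hp1 : 1 ≤ p.1 := Nat.pos_of_ne_zero (by
        rintro h; rw [h, zero_mul] at hp; omega)
      have hp2 : 1 ≤ p.2 := Nat.pos_of_ne_zero (by
        rintro h; rw [h, mul_zero] at hp; omega)
      exact mul_nonneg (hA0 _ hp1) (hB0 _ hp2)
  -- the sum of A
  have h2 : ∑ j ∈ Finset.Icc 1 N, A j ≤
      ∑ j ∈ Finset.Icc 1 N, ∑ p ∈ j.divisorsAntidiagonal, nf p.1 * mf p.2 := by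
    refine Finset.sum_le_sum fun j hj => ?_
    rw [Finset.mem_Icc] at hj
    by_cases hsq : Squarefree j
    · have e3 : A j = mf j * ((j : ℝ) / (Nat.totient j : ℝ)) := by
        simp only [hA, hnf]
        ring
      rw [e3, ← Pool.Agent.MT.HWAux.sum_SD j (by omega)]
      have h3 : ∑ d ∈ Pool.Agent.MT.HWAux.SD j, 1 / (Nat.totient d : ℝ) ≤
          ∑ d ∈ j.divisors, 1 / (Nat.totient d : ℝ) := by
        apply Finset.sum_le_sum_of_subset_of_nonneg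
        · intro d hd
          rw [Pool.Agent.MT.HWAux.mem_SD] at hd
          rw [Nat.mem_divisors]
          exact hd.1
        · intro d _ _
          positivity
      refine (mul_le_mul_of_nonneg_left h3 (tot_mf_nonneg j)).trans (le_of_eq ?_)
      rw [← Nat.sum_divisorsAntidiagonal (f := fun a _ : ℕ => 1 / (Nat.totient a : ℝ)),
        Finset.mul_sum]
      refine Finset.sum_congr rfl fun p hp => ?_
      rw [Nat.mem_divisorsAntidiagonal] at hp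
      rw [← hp.1] at hsq
      rw [← hp.1, tot_mf_mul hsq]
      simp only [hnf]
      ring
    · have e4 : A j = 0 := by
        simp only [hA]
        rw [hnf_sq j hsq, mul_zero]
      rw [e4]
      exact Finset.sum_nonneg fun p _ => mul_nonneg (hnf0 _) (tot_mf_nonneg _)
  have h3 := tot_conv N (A := nf) (B := mf) (fun n _ => hnf0 n) (fun n _ => tot_mf_nonneg n)
  have h4 : ∑ n ∈ Finset.Icc 1 N, nf n ≤ 4 * C1 := by
    have h5 : ∑ n ∈ Finset.Icc 1 N, nf n ≤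
        ∑ n ∈ Finset.Icc 1 N, 4 * (n : ℝ) ^ (-(3 / 2) : ℝ) :=
      Finset.sum_le_sum fun n hn => tot_nf_le (Finset.mem_Icc.1 hn).1
    refine h5.trans ?_
    rw [← Finset.mul_sum]
    exact mul_le_mul_of_nonneg_left (hs1.sum_le_tsum _ fun n _ =>
      Real.rpow_nonneg (Nat.cast_nonneg n) _) (by norm_num)
  have h5 : ∑ n ∈ Finset.Icc 1 N, B n ≤ 16 * C2 := by
    have h6 : ∑ n ∈ Finset.Icc 1 N, B n ≤
        ∑ n ∈ Finset.Icc 1 N, 16 * (n : ℝ) ^ (-(5 / 4) : ℝ) := by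
      refine Finset.sum_le_sum fun n hn => ?_
      rw [Finset.mem_Icc] at hn
      have hn0 : (0 : ℝ) < n := by exact_mod_cast hn.1
      have e5 : 16 * (n : ℝ) ^ (-(5 / 4) : ℝ) =
          4 * (n : ℝ) ^ (-(3 / 2) : ℝ) * (4 * (n : ℝ) ^ (1 / 4 : ℝ)) := by
        have : (n : ℝ) ^ (-(5 / 4) : ℝ) = (n : ℝ) ^ (-(3 / 2) : ℝ) * (n : ℝ) ^ (1 / 4 : ℝ) := by
          rw [← Real.rpow_add hn0]
          norm_num
        rw [this]
        ring
      rw [e5]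
      have hlog : 0 ≤ Real.log n := Real.log_natCast_nonneg n
      exact mul_le_mul (tot_nf_le hn.1) (tot_log hn.1) (by linarith) (by positivity)
    refine h6.trans ?_
    rw [← Finset.mul_sum]
    exact mul_le_mul_of_nonneg_left (hs2.sum_le_tsum _ fun n _ =>
      Real.rpow_nonneg (Nat.cast_nonneg n) _) (by norm_num)
  have hG0 : 0 ≤ ∑ k ∈ Finset.Icc 1 N, mf k := Finset.sum_nonneg fun k _ => tot_mf_nonneg k
  have hAs : ∑ j ∈ Finset.Icc 1 N, A j ≤ 4 * C1 * ∑ k ∈ Finset.Icc 1 N, mf k :=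
    (h2.trans h3).trans (mul_le_mul_of_nonneg_right h4 hG0)
  have hBs0 : 0 ≤ ∑ n ∈ Finset.Icc 1 N, B n :=
    Finset.sum_nonneg fun n hn => hB0 n (Finset.mem_Icc.1 hn).1
  refine h1.trans ((tot_conv N hA0 hB0).trans ?_)
  calc (∑ n ∈ Finset.Icc 1 N, A n) * ∑ n ∈ Finset.Icc 1 N, B n
      ≤ (4 * C1 * ∑ k ∈ Finset.Icc 1 N, mf k) * (16 * C2) :=
        mul_le_mul hAs h5 hBs0 (by positivity)
    _ ≤ (4 * C1 * (16 * C2) + 1) * ∑ k ∈ Finset.Icc 1 N, mf k := by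
        rw [add_mul]
        nlinarith [hG0]

end Pool.Agent.MP_67227b_nt.Fb
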