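import Pool.Agent.MP_67227b_nt.Fb.FbKg
import Pool.Agent.MP_67227b_nt.Fb.FbForm
import Pool.Agent.MP_67227b_nt.Fb.FbLL
import Pool.Agent.MP_67227b_nt.Fb.FbTot

set_option autoImplicit false

open Filter Topology Set MeasureTheory Complex
open scoped Real ContDiff ArithmeticFunction ArithmeticFunction.Moebius ComplexConjugate

namespace Pool.Agent.MP_67227b_nt.Fb

open Pool.Agent.Lib.ZetaCount_helper33 Pool.Agent.MP_67227b_nt Pool.Agent.MP_67227b_nt.Mo

namespace DgAux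

theorem sum_mu_id {n : ℕ} (hn : 1 ≤ n) :
    ∑ j ∈ n.divisors, (μ (n / j) : ℝ) * (j : ℝ) = (Nat.totient n : ℝ) := by
  have h1 := (ArithmeticFunction.sum_eq_iff_sum_mul_moebius_eq (R := ℝ)
    (f := fun n => (Nat.totient n : ℝ)) (g := fun n => (n : ℝ))).1 (fun n _ => by
      have := Nat.sum_totient n
      exact_mod_cast this) n (by omega)
  rw [← h1, Nat.sum_divisorsAntidiagonal' (f := fun a b => ((μ a : ℤ) : ℝ) * (b : ℝ))]

theorem kk_lip {x₀ B : ℝ} {lam : ℝ → ℝ} (hB : 0 < B) (hl : PB x₀ B lam) {y y' : ℝ} (hy : y' ≤ y)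
    (hy1 : y ≤ 1) : |kk lam y' - kk lam y| ≤ B ^ 2 * (y - y') := by
  have hint : ∀ a b : ℝ, a ≤ 1 → b ≤ 1 →
      IntervalIntegrable (fun x => lam (1 + x) ^ 2) volume a b := by
    intro a b ha hb
    apply ContinuousOn.intervalIntegrable
    apply ContinuousOn.pow
    have hc : ContinuousOn lam (Iic 2) := by
      intro x hx
      rw [Metric.continuousWithinAt_iff]
      intro ε hε
      refine ⟨ε / B, by positivity, fun {z} hz hd => ?_⟩
      rw [Real.dist_eq] at hd ⊢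
      refine (hl.lip z x hz hx).trans_lt ?_
      rwa [lt_div_iff₀ hB, mul_comm] at hd
    refine hc.comp (by fun_prop) ?_
    intro x hx
    have : x ≤ 1 := hx.2.trans (sup_le ha hb)
    show 1 + x ≤ 2
    linarith
  unfold kk
  rw [abs_sub_comm, intervalIntegral.integral_interval_sub_left (hint _ _ (by norm_num) hy1)
    (hint _ _ (by norm_num) (by linarith))]
  have h1 := intervalIntegral.norm_integral_le_of_norm_le_const (a := y') (b := y)
    (f := fun x => lam (1 + x) ^ 2) (C := B ^ 2) (fun x hx => by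
      rw [uIoc_of_le hy] at hx
      rw [norm_pow, Real.norm_eq_abs]
      exact pow_le_pow_left₀ (abs_nonneg _) (hl.bdd _ (by linarith [hx.2])) 2)
  rwa [Real.norm_eq_abs, abs_of_nonneg (by linarith : 0 ≤ y - y')] at h1

end DgAux

open DgAux in
/-- The diagonal is the main term. -/
theorem Dg_est {h : ℝ → ℝ} {x₀ d B : ℝ} (hh : Hok h) (hd : 0 < d) (hdx : 2 * d < x₀)
    (hx1 : x₀ ≤ 1) (hB : 0 < B) :
    ∃ C : ℝ, 0 < C ∧ ∀ᶠ T : ℝ in atTop, ∀ lam : ℝ → ℝ, PB x₀ B lam →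
      |Dg h lam d T - Mn h lam d T| ≤ C / Real.log T := by
  obtain ⟨C₁, hC₁, hhC, hSS⟩ := SS_le_LL hh hd
  obtain ⟨c, hc, hLL⟩ := LL_ge hh hd
  obtain ⟨Ce, hCe, herr⟩ := err_sum
  refine ⟨6 * B ^ 2 * C₁ ^ 2 * Ce * C₁ / c, by positivity, ?_⟩
  filter_upwards [hLL, Kg_est hd (by linarith : d < x₀) hx1 hB, eventually_gt_atTop 1,
    Real.tendsto_log_atTop.eventually_ge_atTop 1, (tendsto_rpow_atTop hd).eventually_ge_atTop 1]
    with T hT hK hT1 hL hTd lam hl
  have hT0 : 0 < T := by linarith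
  have hL0 : 0 < Real.log T := by linarith
  have hLLpos : 0 < LL h d T := lt_of_lt_of_le (by positivity) hT
  have hZ1 : 1 ≤ Zd d T := (Nat.one_le_floor_iff _).2 hTd
  have hd1 : d ≤ 1 := by linarith
  set L := Real.log T with hLdef
  have e1 : Dg h lam d T = ∑ δ ∈ Finset.Icc 1 (Zd d T),
      (∑ j ∈ δ.divisors, (μ (δ / j) : ℝ) * ((j : ℝ) * Kg lam T j)) * tau h d T δ ^ 2 := by
    rw [← diag_form (h := h) (d := d) (T := T) (fun g => (g : ℝ) * Kg lam T g)]
    rfl
  have e2 : Mn h lam d T = ∑ δ ∈ Finset.Icc 1 (Zd d T),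
      ((Nat.totient δ : ℝ) * (L * kk lam (Real.log δ / L))) * tau h d T δ ^ 2 := by
    unfold Mn
    rw [Finset.mul_sum]
    refine Finset.sum_congr rfl fun δ hδ => ?_
    have hφ : (0 : ℝ) < Nat.totient δ := by
      exact_mod_cast Nat.totient_pos.2 (Finset.mem_Icc.1 hδ).1
    rw [tau, if_pos (Finset.mem_Icc.1 hδ).2, mf, ← hLdef]
    field_simp
  rw [e1, e2, ← Finset.sum_sub_distrib]
  refine (Finset.abs_sum_le_sum_abs _ _).trans ?_
  have hterm : ∀ δ ∈ Finset.Icc 1 (Zd d T),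
      |(∑ j ∈ δ.divisors, (μ (δ / j) : ℝ) * ((j : ℝ) * Kg lam T j)) * tau h d T δ ^ 2 -
        ((Nat.totient δ : ℝ) * (L * kk lam (Real.log δ / L))) * tau h d T δ ^ 2| ≤
      6 * B ^ 2 * (C₁ ^ 2 / LL h d T ^ 2) * ((μ δ : ℝ) ^ 2 / (Nat.totient δ : ℝ) ^ 2 *
        ∑ j ∈ δ.divisors, (j : ℝ) * (1 + Real.log ((δ : ℝ) / j))) := by
    intro δ hδ
    have hδ1 := (Finset.mem_Icc.1 hδ).1
    have hδZ := (Finset.mem_Icc.1 hδ).2
    have hδR : (0 : ℝ) < δ := by exact_mod_cast hδ1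
    have hφ : (0 : ℝ) < Nat.totient δ := by exact_mod_cast Nat.totient_pos.2 hδ1
    have harg := Zd_arg hd hT1 hδ
    rw [← hLdef] at harg
    rw [← sub_mul, abs_mul, abs_of_nonneg (sq_nonneg (tau h d T δ))]
    have h1 : |(∑ j ∈ δ.divisors, (μ (δ / j) : ℝ) * ((j : ℝ) * Kg lam T j)) -
        (Nat.totient δ : ℝ) * (L * kk lam (Real.log δ / L))| ≤
        6 * B ^ 2 * ∑ j ∈ δ.divisors, (j : ℝ) * (1 + Real.log ((δ : ℝ) / j)) := by
      rw [← sum_mu_id hδ1, Finset.sum_mul, ← Finset.sum_sub_distrib]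
      refine (Finset.abs_sum_le_sum_abs _ _).trans ?_
      rw [Finset.mul_sum]
      refine Finset.sum_le_sum fun j hj => ?_
      have hjd := Nat.dvd_of_mem_divisors hj
      have hj1 : 1 ≤ j := Nat.pos_of_mem_divisors hj
      have hjδ : j ≤ δ := Nat.le_of_dvd hδ1 hjd
      have hjR : (0 : ℝ) < j := by exact_mod_cast hj1
      have hjδR : (j : ℝ) ≤ δ := by exact_mod_cast hjδ
      have hjZ : j ∈ Finset.Icc 1 (Zd d T) := Finset.mem_Icc.2 ⟨hj1, hjδ.trans hδZ⟩
      have hk := hK lam hl j hjZ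
      have hargj := Zd_arg hd hT1 hjZ
      rw [← hLdef] at hargj
      have hlog : 0 ≤ Real.log ((δ : ℝ) / j) := by
        apply Real.log_nonneg
        rwa [one_le_div hjR]
      have hlogd : Real.log ((δ : ℝ) / j) = Real.log δ - Real.log j :=
        Real.log_div hδR.ne' hjR.ne'
      have hle : Real.log j / L ≤ Real.log δ / L :=
        div_le_div_of_nonneg_right (Real.log_le_log hjR hjδR) hL0.le
      have hkk := kk_lip hB hl hle (by linarith [harg.2])
      have hkk2 : |L * kk lam (Real.log j / L) - L * kk lam (Real.log δ / L)| ≤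
          B ^ 2 * Real.log ((δ : ℝ) / j) := by
        rw [← mul_sub, abs_mul, abs_of_pos hL0]
        calc L * |kk lam (Real.log j / L) - kk lam (Real.log δ / L)| ≤
              L * (B ^ 2 * (Real.log δ / L - Real.log j / L)) :=
              mul_le_mul_of_nonneg_left hkk hL0.le
          _ = B ^ 2 * Real.log ((δ : ℝ) / j) := by
              rw [hlogd]; field_simp
      have hdiff : |Kg lam T j - L * kk lam (Real.log δ / L)| ≤
          6 * B ^ 2 * (1 + Real.log ((δ : ℝ) / j)) := by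
        have e : Kg lam T j - L * kk lam (Real.log δ / L) =
            (Kg lam T j - L * kk lam (Real.log j / L)) +
              (L * kk lam (Real.log j / L) - L * kk lam (Real.log δ / L)) := by ring
        rw [e]
        refine (abs_add_le _ _).trans ((add_le_add hk hkk2).trans ?_)
        nlinarith [sq_nonneg B]
      have e3 : (μ (δ / j) : ℝ) * ((j : ℝ) * Kg lam T j) -
          (μ (δ / j) : ℝ) * (j : ℝ) * (L * kk lam (Real.log δ / L)) =
          (μ (δ / j) : ℝ) * ((j : ℝ) * (Kg lam T j - L * kk lam (Real.log δ / L))) := by ring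
      rw [e3, abs_mul, abs_mul, abs_of_pos hjR]
      have hmu : |(μ (δ / j) : ℝ)| ≤ 1 := by
        exact_mod_cast ArithmeticFunction.abs_moebius_le_one (n := δ / j)
      calc |(μ (δ / j) : ℝ)| * ((j : ℝ) * |Kg lam T j - L * kk lam (Real.log δ / L)|) ≤
            1 * ((j : ℝ) * (6 * B ^ 2 * (1 + Real.log ((δ : ℝ) / j)))) := by
            gcongr
        _ = 6 * B ^ 2 * ((j : ℝ) * (1 + Real.log ((δ : ℝ) / j))) := by ring
    have h2 : tau h d T δ ^ 2 ≤ C₁ ^ 2 / LL h d T ^ 2 * ((μ δ : ℝ) ^ 2 /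
        (Nat.totient δ : ℝ) ^ 2) := by
      rw [tau, if_pos hδZ, ← hLdef]
      have hh1 := hhC _ ⟨harg.1, harg.2⟩
      have hh0 := (hh.pos (Real.log δ / L)).le
      have : ((μ δ : ℝ) / (Nat.totient δ : ℝ) * h (Real.log δ / L) / LL h d T) ^ 2 =
          h (Real.log δ / L) ^ 2 / LL h d T ^ 2 * ((μ δ : ℝ) ^ 2 / (Nat.totient δ : ℝ) ^ 2) := by
        field_simp
      rw [this]
      gcongr
    have hS : 0 ≤ ∑ j ∈ δ.divisors, (j : ℝ) * (1 + Real.log ((δ : ℝ) / j)) := by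
      refine Finset.sum_nonneg fun j hj => ?_
      have hjd := Nat.dvd_of_mem_divisors hj
      have hj1 : 1 ≤ j := Nat.pos_of_mem_divisors hj
      have hjδ : j ≤ δ := Nat.le_of_dvd hδ1 hjd
      have hjR : (0 : ℝ) < j := by exact_mod_cast hj1
      have hjδR : (j : ℝ) ≤ δ := by exact_mod_cast hjδ
      have hlog : 0 ≤ Real.log ((δ : ℝ) / j) := by
        apply Real.log_nonneg
        rwa [one_le_div hjR]
      positivity
    calc _ ≤ (6 * B ^ 2 * ∑ j ∈ δ.divisors, (j : ℝ) * (1 + Real.log ((δ : ℝ) / j))) *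
          (C₁ ^ 2 / LL h d T ^ 2 * ((μ δ : ℝ) ^ 2 / (Nat.totient δ : ℝ) ^ 2)) :=
          mul_le_mul h1 h2 (sq_nonneg _) (by positivity)
      _ = _ := by ring
  refine (Finset.sum_le_sum hterm).trans ?_
  rw [← Finset.mul_sum]
  have h3 := herr (Zd d T) hZ1
  have h4 : (∑ k ∈ Finset.Icc 1 (Zd d T), mf k) ≤ C₁ * LL h d T := hSS T hT1
  calc _ ≤ 6 * B ^ 2 * (C₁ ^ 2 / LL h d T ^ 2) * (Ce * (C₁ * LL h d T)) := by
        refine mul_le_mul_of_nonneg_left (h3.trans ?_) (by positivity)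
        exact mul_le_mul_of_nonneg_left h4 hCe.le
    _ = 6 * B ^ 2 * C₁ ^ 2 * Ce * C₁ / LL h d T := by
        field_simp
    _ ≤ 6 * B ^ 2 * C₁ ^ 2 * Ce * C₁ / (c * L) :=
        div_le_div_of_nonneg_left (by positivity) (by positivity) hT
    _ = 6 * B ^ 2 * C₁ ^ 2 * Ce * C₁ / c / L := by
        rw [div_div]

end Pool.Agent.MP_67227b_nt.Fb
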