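import Pool.Agent.MP_67227b_nt.Fb.FbArDefs

set_option autoImplicit false

open Filter Topology Set MeasureTheory Complex
open scoped Real ContDiff ArithmeticFunction ArithmeticFunction.Moebius ComplexConjugate

namespace Pool.Agent.MP_67227b_nt.Fb

open Pool.Agent.Lib.ZetaCount_helper33 Pool.Agent.MP_67227b_nt Pool.Agent.MP_67227b_nt.Mo

private lemma diag_small {d x₀ T : ℝ} (hT : 1 < T) (hdx : d < x₀) {g n k : ℕ} (hg : 0 < g)
    (hn : 0 < n) (hk : 0 < k) (hgn : ((g * n : ℕ) : ℝ) ≤ T ^ d)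
    (h : x₀ < 1 + (Real.log g - Real.log k) / Real.log T) : k * n ≤ ⌊T⌋₊ := by
  have hL : 0 < Real.log T := Real.log_pos hT
  have hT0 : 0 < T := by linarith
  have hg0 : (0 : ℝ) < g := by exact_mod_cast hg
  have hn0 : (0 : ℝ) < n := by exact_mod_cast hn
  have hk0 : (0 : ℝ) < k := by exact_mod_cast hk
  apply Nat.le_floor
  push_cast
  push_cast at hgn
  have h1 : Real.log g + Real.log n ≤ d * Real.log T := by
    rw [← Real.log_mul hg0.ne' hn0.ne', ← Real.log_rpow hT0]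
    exact Real.log_le_log (by positivity) hgn
  have h2 : (x₀ - 1) * Real.log T < Real.log g - Real.log k := by
    rw [← lt_div_iff₀ hL]
    linarith
  have h3 : Real.log k + Real.log n ≤ Real.log T := by
    nlinarith [mul_pos (sub_pos.2 hdx) hL]
  rw [← Real.log_mul hk0.ne' hn0.ne'] at h3
  exact (Real.log_le_log_iff (by positivity) hT0).1 h3

private lemma diag_inner {lam : ℝ → ℝ} {d x₀ T : ℝ} (hT : 1 < T) (hdx : d < x₀)
    (hl : ∀ x, x ≤ x₀ → lam x = 0) {g n n' : ℕ} (hg : 0 < g) (hn : 0 < n) (hn' : 0 < n')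
    (hcop : Nat.Coprime n n') (hgn : ((g * n : ℕ) : ℝ) ≤ T ^ d)
    (hgn' : ((g * n' : ℕ) : ℝ) ≤ T ^ d) :
    ∑ r ∈ Finset.Icc 1 ⌊T⌋₊, ∑ r' ∈ Finset.Icc 1 ⌊T⌋₊,
      (if (g * n) * r' = (g * n') * r then
        lam (1 + (Real.log ((g * n : ℕ) : ℝ) - Real.log r) / Real.log T) *
          lam (1 + (Real.log ((g * n' : ℕ) : ℝ) - Real.log r') / Real.log T) /
          Real.sqrt (((g * n : ℕ) : ℝ) * r * (((g * n' : ℕ) : ℝ) * r')) else 0) =
      (g : ℝ) / (((g * n : ℕ) : ℝ) * ((g * n' : ℕ) : ℝ)) * Kg lam T g := by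
  have hg0 : (0 : ℝ) < g := by exact_mod_cast hg
  have hn0 : (0 : ℝ) < n := by exact_mod_cast hn
  have hn0' : (0 : ℝ) < n' := by exact_mod_cast hn'
  set F : ℕ → ℕ → ℝ := fun r r' =>
    lam (1 + (Real.log ((g * n : ℕ) : ℝ) - Real.log r) / Real.log T) *
      lam (1 + (Real.log ((g * n' : ℕ) : ℝ) - Real.log r') / Real.log T) /
      Real.sqrt (((g * n : ℕ) : ℝ) * r * (((g * n' : ℕ) : ℝ) * r')) with hF
  set M := ⌊T⌋₊ with hM
  -- the sum over pairs as a sum over `k`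
  have h1 : ∑ r ∈ Finset.Icc 1 M, ∑ r' ∈ Finset.Icc 1 M,
      (if (g * n) * r' = (g * n') * r then F r r' else 0) =
      ∑ k ∈ (Finset.Icc 1 M).filter (fun k => k * n ≤ M ∧ k * n' ≤ M), F (k * n) (k * n') := by
    rw [← Finset.sum_product', ← Finset.sum_filter]
    refine Finset.sum_nbij' (fun p => p.1 / n) (fun k => (k * n, k * n')) ?_ ?_ ?_ ?_ ?_
    · rintro ⟨r, r'⟩ hp
      simp only [Finset.mem_filter, Finset.mem_product, Finset.mem_Icc] at hp ⊢
      obtain ⟨⟨⟨h1, h2⟩, h3, h4⟩, h5⟩ := hp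
      have h6 : n * r' = n' * r := by
        rw [mul_assoc, mul_assoc] at h5
        exact Nat.eq_of_mul_eq_mul_left hg h5
      have h7 : n ∣ r := hcop.dvd_of_dvd_mul_left (Dvd.intro _ h6)
      obtain ⟨k, rfl⟩ := h7
      have h8 : r' = n' * k := by
        have : n * r' = n * (n' * k) := by rw [h6]; ring
        exact Nat.eq_of_mul_eq_mul_left hn this
      have hk : 0 < k := Nat.pos_of_ne_zero (by rintro rfl; omega)
      rw [Nat.mul_div_cancel_left _ hn]
      have h9 : k ≤ n * k := Nat.le_mul_of_pos_left k hn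
      refine ⟨⟨hk, by omega⟩, by rw [mul_comm]; exact h2, ?_⟩
      rw [mul_comm, ← h8]
      exact h4
    · intro k hk
      simp only [Finset.mem_filter, Finset.mem_product, Finset.mem_Icc] at hk ⊢
      obtain ⟨⟨h1, h2⟩, h3, h4⟩ := hk
      refine ⟨⟨⟨Nat.mul_pos h1 hn, h3⟩, Nat.mul_pos h1 hn', h4⟩, by ring⟩
    · rintro ⟨r, r'⟩ hp
      simp only [Finset.mem_filter, Finset.mem_product, Finset.mem_Icc] at hp
      obtain ⟨⟨⟨h1, h2⟩, h3, h4⟩, h5⟩ := hp
      have h6 : n * r' = n' * r := by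
        rw [mul_assoc, mul_assoc] at h5
        exact Nat.eq_of_mul_eq_mul_left hg h5
      have h7 : n ∣ r := hcop.dvd_of_dvd_mul_left (Dvd.intro _ h6)
      obtain ⟨k, rfl⟩ := h7
      have h8 : r' = n' * k := by
        have : n * r' = n * (n' * k) := by rw [h6]; ring
        exact Nat.eq_of_mul_eq_mul_left hn this
      simp only [Nat.mul_div_cancel_left _ hn, Prod.mk.injEq]
      exact ⟨mul_comm _ _, by rw [h8, mul_comm]⟩
    · intro k _
      exact Nat.mul_div_cancel _ hn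
    · rintro ⟨r, r'⟩ hp
      simp only [Finset.mem_filter, Finset.mem_product, Finset.mem_Icc] at hp
      obtain ⟨⟨⟨h1, h2⟩, h3, h4⟩, h5⟩ := hp
      have h6 : n * r' = n' * r := by
        rw [mul_assoc, mul_assoc] at h5
        exact Nat.eq_of_mul_eq_mul_left hg h5
      have h7 : n ∣ r := hcop.dvd_of_dvd_mul_left (Dvd.intro _ h6)
      obtain ⟨k, rfl⟩ := h7
      have h8 : r' = n' * k := by
        have : n * r' = n * (n' * k) := by rw [h6]; ring
        exact Nat.eq_of_mul_eq_mul_left hn this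
      simp only [Nat.mul_div_cancel_left _ hn]
      rw [h8, mul_comm n k, mul_comm n' k]
  rw [h1]
  -- the right side
  have h2 : Kg lam T g = ∑ k ∈ (Finset.Icc 1 M).filter (fun k => k * n ≤ M ∧ k * n' ≤ M),
      lam (1 + (Real.log g - Real.log k) / Real.log T) ^ 2 / (k : ℝ) := by
    unfold Kg
    symm
    apply Finset.sum_subset (Finset.filter_subset _ _)
    intro k hk hk2
    have hk' := Finset.mem_Icc.1 hk
    have h3 : lam (1 + (Real.log g - Real.log k) / Real.log T) = 0 := by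
      apply hl
      by_contra hcon
      push Not at hcon
      apply hk2
      rw [Finset.mem_filter]
      exact ⟨hk, diag_small hT hdx hg hn hk'.1 hgn hcon, diag_small hT hdx hg hn' hk'.1 hgn' hcon⟩
    rw [h3]
    simp
  rw [h2, Finset.mul_sum]
  refine Finset.sum_congr rfl fun k hk => ?_
  rw [Finset.mem_filter, Finset.mem_Icc] at hk
  have hk0 : (0 : ℝ) < k := by exact_mod_cast hk.1.1
  simp only [hF]
  push_cast
  have e1 : Real.log ((g : ℝ) * n) - Real.log ((k : ℝ) * n) = Real.log g - Real.log k := by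
    rw [Real.log_mul hg0.ne' hn0.ne', Real.log_mul hk0.ne' hn0.ne']
    ring
  have e2 : Real.log ((g : ℝ) * n') - Real.log ((k : ℝ) * n') = Real.log g - Real.log k := by
    rw [Real.log_mul hg0.ne' hn0'.ne', Real.log_mul hk0.ne' hn0'.ne']
    ring
  have e3 : Real.sqrt ((g : ℝ) * n * (k * n) * ((g : ℝ) * n' * (k * n'))) =
      (g : ℝ) * k * n * n' := by
    have : (g : ℝ) * n * (k * n) * ((g : ℝ) * n' * (k * n')) = ((g : ℝ) * k * n * n') ^ 2 := by
      ring
    rw [this, Real.sqrt_sq (by positivity)]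
  rw [e1, e2, e3]
  field_simp

/-- **Module diag** (about 170 lines). The diagonal quadruples.

PROOF. Fix `m, m' ≤ Z`, `g = gcd(m,m')`, `m = g n`, `m' = g n'`, `(n,n') = 1`. `m r' = m' r` iff
`n r' = n' r` iff `r = k n`, `r' = k n'` for some `k ≥ 1`. Then `log m - log r = log g - log k =
log m' - log r'` and `√(m r m' r') = k m m'/g`. So the inner double sum over `r, r'` is
`a(m) a(m') g/(m m') ∑_k λ(1 + (log g - log k)/L)²/k` over the `k ≥ 1` with `k n ≤ ⌊T⌋`, `k n' ≤ ⌊T⌋`.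
If `λ(1 + (log g - log k)/L) ≠ 0` then `log k < log g + (1-x₀) L`, i.e. `k < g T^{1-x₀}`, so
`k n = k m/g < m T^{1-x₀} ≤ T^{d+1-x₀} < T` and the same for `k n'` and `k`: the sum is `Kg lam T g`. -/
theorem diag_quad {h lam : ℝ → ℝ} {d x₀ T : ℝ} (hT : 1 < T) (hd : 0 < d) (hdx : d < x₀)
    (hx1 : x₀ ≤ 1) (hl : ∀ x, x ≤ x₀ → lam x = 0) :
    ∑ m ∈ Finset.Icc 1 (Zd d T), ∑ r ∈ Finset.Icc 1 ⌊T⌋₊, ∑ m' ∈ Finset.Icc 1 (Zd d T),
      ∑ r' ∈ Finset.Icc 1 ⌊T⌋₊, (if m * r' = m' * r then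
        (am h d T m * lam (1 + (Real.log m - Real.log r) / Real.log T)) *
          (am h d T m' * lam (1 + (Real.log m' - Real.log r') / Real.log T)) /
          Real.sqrt ((m : ℝ) * r * (m' * r')) else 0) = Dg h lam d T := by
  have hT0 : 0 < T := by linarith
  unfold Dg
  refine Finset.sum_congr rfl fun m hm => ?_
  rw [Finset.sum_comm]
  refine Finset.sum_congr rfl fun m' hm' => ?_
  rw [Finset.mem_Icc] at hm hm'
  have hfl : ((Zd d T : ℕ) : ℝ) ≤ T ^ d := Nat.floor_le (Real.rpow_nonneg hT0.le d)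
  have hmT : (m : ℝ) ≤ T ^ d := (Nat.cast_le.2 hm.2).trans hfl
  have hmT' : (m' : ℝ) ≤ T ^ d := (Nat.cast_le.2 hm'.2).trans hfl
  have hgpos : 0 < Nat.gcd m m' := Nat.gcd_pos_of_pos_left _ hm.1
  obtain ⟨n, n', hcop, e1, e2⟩ := Nat.exists_coprime m m'
  set g := Nat.gcd m m' with hg
  rw [mul_comm] at e1 e2
  have hn : 0 < n := Nat.pos_of_ne_zero (by rintro h0; rw [h0, mul_zero] at e1; omega)
  have hn' : 0 < n' := Nat.pos_of_ne_zero (by rintro h0; rw [h0, mul_zero] at e2; omega)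
  have hin := diag_inner (lam := lam) hT hdx hl hgpos hn hn' hcop
    (by rw [← e1]; exact hmT) (by rw [← e2]; exact hmT')
  rw [← e1, ← e2] at hin
  have e3 : am h d T m * am h d T m' / ((m : ℝ) * m') * ((g : ℝ) * Kg lam T g) =
      am h d T m * am h d T m' * ((g : ℝ) / ((m : ℝ) * (m' : ℝ)) * Kg lam T g) := by ring
  rw [e3, ← hin, Finset.mul_sum]
  refine Finset.sum_congr rfl fun r _ => ?_
  rw [Finset.mul_sum]
  refine Finset.sum_congr rfl fun r' _ => ?_
  split_ifs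
  · ring
  · ring

end Pool.Agent.MP_67227b_nt.Fb
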