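import Pool.Agent.MP_67227b_nt.Fb.FbDefs

set_option autoImplicit false

open Filter Topology Set MeasureTheory Complex
open scoped Real ContDiff ArithmeticFunction ArithmeticFunction.Moebius ComplexConjugate

namespace Pool.Agent.MP_67227b_nt.Fb

open Pool.Agent.Lib.ZetaCount_helper33 Pool.Agent.MP_67227b_nt Pool.Agent.MP_67227b_nt.Mo

namespace dig

private theorem diff {z : ℂ} (hz : 0 < z.re) : DifferentiableAt ℂ digamma z := by
  have h2 := Mo.analyticAt_Gamma hz
  have h3 : AnalyticAt ℂ digamma z := h2.deriv.div h2 (Gamma_ne_zero_of_re_pos hz)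
  exact h3.differentiableAt

private theorem shift {s : ℂ} (hs : 0 < s.re) {N : ℕ} (hN : 8 * (‖s‖ + 3) ≤ N) :
    ‖digamma (s + N) - digamma (1 + N)‖ ≤ 2048 / N * ‖s - 1‖ := by
  have hconv : Convex ℝ ({z : ℂ | 0 < z.re} ∩ Metric.closedBall 0 (1 + ‖s‖)) :=
    (convex_halfSpace_re_gt 0).inter (convex_closedBall _ _)
  have h1 : (1 : ℂ) ∈ ({z : ℂ | 0 < z.re} ∩ Metric.closedBall 0 (1 + ‖s‖)) := by
    refine ⟨by simp, ?_⟩
    rw [mem_closedBall_zero_iff, norm_one]
    linarith [norm_nonneg s]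
  have h2 : s ∈ ({z : ℂ | 0 < z.re} ∩ Metric.closedBall 0 (1 + ‖s‖)) := by
    refine ⟨hs, ?_⟩
    rw [mem_closedBall_zero_iff]
    linarith
  have hN0 : (0 : ℝ) ≤ N := Nat.cast_nonneg N
  have hre : ∀ z : ℂ, 0 < z.re → 0 < (z + N).re := by
    intro z hz
    simp
    positivity
  refine Convex.norm_image_sub_le_of_norm_deriv_le (f := fun z : ℂ => digamma (z + N))
    (fun z hz => ?_) (fun z hz => ?_) hconv h1 h2
  · exact (diff (hre z hz.1)).comp z (by fun_prop)
  · rw [deriv_comp_add_const]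
    refine (Mo.digamma_far hz.1 ?_).2
    have h3 := mem_closedBall_zero_iff.1 hz.2
    linarith

private theorem lim_one : Tendsto (fun N : ℕ => digamma (1 + N) - (Real.log N : ℂ)) atTop (𝓝 0) := by
  have h1 : ∀ N : ℕ, digamma (1 + N) - (Real.log N : ℂ) =
      (((harmonic N : ℝ) - Real.log N - Real.eulerMascheroniConstant : ℝ) : ℂ) := by
    intro N
    rw [Mo.digamma_add_nat (by simp) N, digamma_one]
    have h2 : ∑ j ∈ Finset.range N, ((1 : ℂ) + j)⁻¹ = (((harmonic N : ℚ) : ℝ) : ℂ) := by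
      rw [harmonic]
      push_cast
      exact Finset.sum_congr rfl fun j _ => by rw [add_comm]
    rw [h2]
    push_cast
    ring
  have h3 := Real.tendsto_harmonic_sub_log.sub_const Real.eulerMascheroniConstant
  rw [sub_self] at h3
  have h4 := (Complex.continuous_ofReal.tendsto 0).comp h3
  rw [Complex.ofReal_zero] at h4
  exact h4.congr fun N => (h1 N).symm

private theorem lim_log {s : ℂ} (hs : 0 < s.re) :
    Tendsto (fun N : ℕ => Complex.log (s + N) - (Real.log N : ℂ)) atTop (𝓝 0) := by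
  have h1 : Tendsto (fun N : ℕ => 1 + s / (N : ℂ)) atTop (𝓝 (1 + 0)) := by
    refine tendsto_const_nhds.add ?_
    have h2 := (tendsto_const_div_atTop_nhds_zero_nat ‖s‖)
    rw [tendsto_zero_iff_norm_tendsto_zero]
    refine h2.congr fun N => ?_
    rw [norm_div, Complex.norm_natCast]
  rw [add_zero] at h1
  have h3 : ContinuousAt Complex.log 1 := continuousAt_clog (by simp)
  have h4 := h3.tendsto.comp h1
  rw [Complex.log_one] at h4
  refine h4.congr' ?_
  filter_upwards [eventually_ge_atTop 1] with N hN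
  have hN0 : (0 : ℝ) < N := by exact_mod_cast hN
  have hNc : (N : ℂ) ≠ 0 := by exact_mod_cast hN0.ne'
  have h5 : s + N = ((N : ℝ) : ℂ) * (1 + s / N) := by
    rw [Complex.ofReal_natCast]
    field_simp
    ring
  have h6 : (1 + s / (N : ℂ)) ≠ 0 := by
    intro h7
    rw [h7, mul_zero] at h5
    have h8 : 0 < (s + N).re := by
      simp
      positivity
    rw [h5] at h8
    simp at h8
  rw [h5, Complex.log_ofReal_mul hN0 h6]
  simp

private theorem one_step {s : ℂ} (hs : 0 < s.re) (ht : 1 ≤ |s.im|) (j : ℕ) :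
    ‖(s + j)⁻¹ - (Complex.log (s + (j + 1 : ℕ)) - Complex.log (s + j))‖ ≤
      2 * (1 / ((j : ℝ) + |s.im|) ^ 2) := by
  have hj : (0 : ℝ) ≤ j := Nat.cast_nonneg j
  have hre : 0 < (s + j).re := by
    simp
    positivity
  have hne : s + j ≠ 0 := fun h => by rw [h] at hre; simp at hre
  have hne2 : ∀ u : ℝ, 0 ≤ u → 0 < (s + j + u).re := by
    intro u hu
    simp at hre ⊢
    linarith
  have h3 : ((j : ℝ) + |s.im|) ^ 2 / 2 ≤ ‖s + j‖ ^ 2 := by
    rw [← normSq_eq_norm_sq, normSq_apply]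
    simp only [add_re, natCast_re, add_im, natCast_im, add_zero]
    nlinarith [sq_nonneg ((j : ℝ) - |s.im|), sq_abs s.im, mul_nonneg hj hs.le]
  have hmono : ∀ u : ℝ, 0 ≤ u → ‖s + j‖ ≤ ‖s + j + u‖ := by
    intro u hu
    rw [← sq_le_sq₀ (norm_nonneg _) (norm_nonneg _), ← normSq_eq_norm_sq, ← normSq_eq_norm_sq,
      normSq_apply, normSq_apply]
    simp only [add_re, natCast_re, add_im, natCast_im, add_zero, ofReal_re, ofReal_im] at hre ⊢
    nlinarith [mul_nonneg hu hre.le]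
  have key := norm_image_sub_le_of_norm_deriv_le_segment_01'
    (f := fun u : ℝ => Complex.log (s + j + u) - (u : ℂ) * (s + j)⁻¹)
    (f' := fun u : ℝ => (s + j + u)⁻¹ - (s + j)⁻¹) (C := (‖s + j‖ ^ 2)⁻¹) ?_ ?_
  · have e1 : (s + j)⁻¹ - (Complex.log (s + (j + 1 : ℕ)) - Complex.log (s + j)) =
        -((Complex.log (s + j + (1 : ℝ)) - ((1 : ℝ) : ℂ) * (s + j)⁻¹) -
          (Complex.log (s + j + (0 : ℝ)) - ((0 : ℝ) : ℂ) * (s + j)⁻¹)) := by
      have e2 : s + ((j + 1 : ℕ) : ℂ) = s + j + (1 : ℝ) := by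
        push_cast
        ring
      rw [e2]
      simp only [Complex.ofReal_zero, add_zero, zero_mul, sub_zero, Complex.ofReal_one, one_mul]
      ring
    rw [e1, norm_neg]
    refine key.trans ?_
    have h7 : 0 < ((j : ℝ) + |s.im|) ^ 2 / 2 := by positivity
    calc (‖s + j‖ ^ 2)⁻¹ ≤ (((j : ℝ) + |s.im|) ^ 2 / 2)⁻¹ := by gcongr
      _ = 2 * (1 / ((j : ℝ) + |s.im|) ^ 2) := by rw [inv_div, mul_one_div]
  · intro u hu
    have h5 : (s + j + u) ∈ slitPlane := Or.inl (hne2 u hu.1)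
    have h6 : HasDerivAt (fun u : ℝ => s + j + (u : ℂ)) 1 u := by
      have := (Complex.ofRealCLM.hasDerivAt (x := u)).const_add (s + j)
      simpa using this
    have h7 := h6.clog_real h5
    have h8 : HasDerivAt (fun u : ℝ => (u : ℂ) * (s + j)⁻¹) (1 * (s + j)⁻¹) u := by
      have := (Complex.ofRealCLM.hasDerivAt (x := u)).mul_const ((s + j)⁻¹)
      simpa using this
    have h9 := h7.sub h8
    rw [one_mul, one_div] at h9
    exact h9.hasDerivWithinAt
  · intro u hu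
    have h5 : s + j + u ≠ 0 := fun h => by
      have := hne2 u hu.1
      rw [h] at this
      simp at this
    have h6 : (s + j + u)⁻¹ - (s + j)⁻¹ = -(u : ℂ) * ((s + j + u)⁻¹ * (s + j)⁻¹) := by
      field_simp
      ring
    rw [h6, norm_mul, norm_neg, norm_mul, norm_inv, norm_inv, Complex.norm_real, Real.norm_eq_abs,
      abs_of_nonneg hu.1]
    have h7 := hmono u hu.1
    have h8 : 0 < ‖s + j‖ := norm_pos_iff.2 hne
    have h9 : ‖s + j + u‖⁻¹ ≤ ‖s + j‖⁻¹ := inv_anti₀ h8 h7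
    calc u * (‖s + j + u‖⁻¹ * ‖s + j‖⁻¹) ≤ 1 * (‖s + j‖⁻¹ * ‖s + j‖⁻¹) := by
          gcongr
          exact hu.2.le
      _ = (‖s + j‖ ^ 2)⁻¹ := by
          rw [one_mul, ← mul_inv, sq]

private theorem sum_bound {s : ℂ} (hs : 0 < s.re) (ht : 1 ≤ |s.im|) (N : ℕ) :
    ‖∑ j ∈ Finset.range N, (s + j)⁻¹ - (Complex.log (s + N) - Complex.log s)‖ ≤ 4 / |s.im| := by
  have h1 : Complex.log (s + N) - Complex.log s =
      ∑ j ∈ Finset.range N, (Complex.log (s + (j + 1 : ℕ)) - Complex.log (s + j)) := by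
    rw [Finset.sum_range_sub (fun j : ℕ => Complex.log (s + j))]
    simp
  rw [h1, ← Finset.sum_sub_distrib]
  have h0 : 0 ≤ 4 / |s.im| := by positivity
  rcases N with _ | M
  · simpa using h0
  calc ‖∑ j ∈ Finset.range (M + 1), ((s + j)⁻¹ -
        (Complex.log (s + (j + 1 : ℕ)) - Complex.log (s + j)))‖
      ≤ ∑ j ∈ Finset.range (M + 1), ‖(s + j)⁻¹ -
        (Complex.log (s + (j + 1 : ℕ)) - Complex.log (s + j))‖ := norm_sum_le _ _
    _ ≤ ∑ j ∈ Finset.range (M + 1), 2 * (1 / ((j : ℝ) + |s.im|) ^ 2) :=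
        Finset.sum_le_sum fun j _ => one_step hs ht j
    _ = 2 * ∑ j ∈ Finset.range (M + 1), 1 / ((j : ℝ) + |s.im|) ^ 2 := by
        rw [Finset.mul_sum]
    _ ≤ 2 * (1 / |s.im| ^ 2 + 1 / |s.im|) := by
        have h3 := Mo.sum_inv_sq_le ht M
        have h4 : 0 ≤ 1 / (|s.im| + M) := by positivity
        linarith
    _ ≤ 4 / |s.im| := by
        have h3 : 1 / |s.im| ^ 2 ≤ 1 / |s.im| := by
          apply one_div_le_one_div_of_le (by linarith)
          nlinarith
        have h4 : 4 / |s.im| = 2 * (1 / |s.im| + 1 / |s.im|) := by ring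
        rw [h4]
        linarith

end dig

/-- **Module dig** (about 130 lines). The digamma function is `log s + O(1/|Im s|)` in the right
half plane.

PROOF. (1) For fixed `s`, `Re s > 0`: `digamma (s + N) - log N → 0` as `N → ∞` (`N : ℕ`). Mathlib has
`Complex.hasDerivAt_Gamma_nat n : HasDerivAt Gamma (n! * (-γ + harmonic n)) (n + 1)`, so
`digamma (1 + N) = -γ + harmonic N`, and `harmonic N - log N → γ` (`Real.tendsto_harmonic_sub_log`).
By the mean value inequality on the segment from `1 + N` to `s + N` (convex; use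
`Convex.norm_image_sub_le_of_norm_deriv_le` for `z ↦ digamma (z + N)` on the segment `[1, s]`, whose
points `z` have `Re z > 0` and `‖z‖ ≤ 1 + ‖s‖`) and `Mo.digamma_far` (its second part gives
`‖deriv digamma (z + N)‖ ≤ 2048 / N` once `8 (‖z‖ + 2) ≤ N`):
`‖digamma (s + N) - digamma (1 + N)‖ ≤ 2048 ‖s - 1‖ / N → 0`.
(2) `Mo.digamma_add_nat`: `digamma (s + N) = digamma s + ∑_{j<N} 1/(s + j)`.
(3) For `Re s > 0` and `j : ℕ`: `log (s + j + 1) - log (s + j) = ∫_0^1 du/(s + j + u)` and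
`‖1/(s+j) - ∫_0^1 du/(s+j+u)‖ ≤ sup_u ‖u/((s+j)(s+j+u))‖ ≤ 1/‖s+j‖²` (as `Re s > 0`,
`‖s+j+u‖ ≥ ‖s+j‖`), and `‖s+j‖² ≥ (j + |Im s|)²/2`. So, summing over `j < N` with
`Mo.sum_inv_sq_le`: `‖∑_{j<N} 1/(s+j) - (log (s+N) - log s)‖ ≤ 2 (1/|Im s|² + 1/|Im s|) ≤ 4/|Im s|`.
(One can avoid the integral: `log(s+j+1) - log(s+j) = log(1 + 1/(s+j))` plus a Taylor bound, or the
mean value inequality for `u ↦ log(s+j+u) - u/(s+j)` on `[0,1]`, whose derivative has norm at most
`1/‖s+j‖²`.)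
(4) `log (s + N) - log N → 0` (continuity of `log` at `1` and `s/N → 0`; for `N ≥ 1`,
`log (s + N) = log N + log (1 + s/N)` since `N > 0` is real: `Complex.log_ofReal_mul`).
(5) Hence `digamma s - log s = lim_N (digamma (s+N) - ∑_{j<N} 1/(s+j)) - log s` has norm at most
`4/|Im s|`. -/
theorem digamma_log : ∃ C : ℝ, 0 < C ∧ ∀ s : ℂ, 0 < s.re → 1 ≤ |s.im| →
    ‖Complex.digamma s - Complex.log s‖ ≤ C / |s.im| := by
  refine ⟨4, by norm_num, fun s hs ht => ?_⟩
  have hA : Tendsto (fun N : ℕ => ‖Complex.digamma (s + N) - Complex.digamma (1 + N)‖) atTop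
      (𝓝 0) := by
    have h1 : Tendsto (fun N : ℕ => 2048 / (N : ℝ) * ‖s - 1‖) atTop (𝓝 (0 * ‖s - 1‖)) :=
      (tendsto_const_div_atTop_nhds_zero_nat 2048).mul_const _
    rw [zero_mul] at h1
    refine squeeze_zero' (Eventually.of_forall fun N => norm_nonneg _) ?_ h1
    filter_upwards [eventually_ge_atTop ⌈8 * (‖s‖ + 3)⌉₊] with N hN
    exact dig.shift hs ((Nat.le_ceil _).trans (by exact_mod_cast hN))
  have hB := dig.lim_one.norm
  have hC := (dig.lim_log hs).norm
  rw [norm_zero] at hB hC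
  have hlim : Tendsto (fun N : ℕ => ‖Complex.digamma (s + N) - Complex.digamma (1 + N)‖ +
      ‖Complex.digamma (1 + N) - (Real.log N : ℂ)‖ +
      ‖Complex.log (s + N) - (Real.log N : ℂ)‖ + 4 / |s.im|) atTop (𝓝 (0 + 0 + 0 + 4 / |s.im|)) :=
    ((hA.add hB).add hC).add tendsto_const_nhds
  rw [zero_add, zero_add, zero_add] at hlim
  refine ge_of_tendsto hlim (Eventually.of_forall fun N => ?_)
  have h1 := dig.sum_bound hs ht N
  have h2 := Mo.digamma_add_nat hs N
  have h3 : Complex.digamma s - Complex.log s = (Complex.digamma (s + N) - Complex.digamma (1 + N)) +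
      (Complex.digamma (1 + N) - (Real.log N : ℂ)) - (Complex.log (s + N) - (Real.log N : ℂ)) -
      (∑ j ∈ Finset.range N, (s + j)⁻¹ - (Complex.log (s + N) - Complex.log s)) := by
    rw [h2]
    ring
  rw [h3]
  refine (norm_sub_le _ _).trans (add_le_add ((norm_sub_le _ _).trans
    (add_le_add (norm_add_le _ _) le_rfl)) h1)

end Pool.Agent.MP_67227b_nt.Fb
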