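import Pool.Agent.MP_67227b_nt.Fb.FbDefs

set_option autoImplicit false

open Filter Topology Set MeasureTheory Complex
open scoped Real ContDiff ArithmeticFunction ArithmeticFunction.Moebius ComplexConjugate

namespace Pool.Agent.MP_67227b_nt.Fb

open Pool.Agent.Lib.ZetaCount_helper33 Pool.Agent.MP_67227b_nt Pool.Agent.MP_67227b_nt.Mo

namespace DtAux

/-- The length of the range of `t`. -/
theorem len_tendsto : Tendsto (fun T : ℝ => (T2 T - T1 T) / T) atTop (𝓝 1) := by
  have h1 : Tendsto (fun T : ℝ => T ^ (-(1 / 4 : ℝ))) atTop (𝓝 0) :=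
    tendsto_rpow_neg_atTop (by norm_num)
  have h2 : Tendsto (fun T : ℝ => (Real.log T)⁻¹) atTop (𝓝 0) :=
    tendsto_inv_atTop_zero.comp Real.tendsto_log_atTop
  have h3 : Tendsto (fun T : ℝ => 1 - T ^ (-(1 / 4 : ℝ)) - (Real.log T)⁻¹) atTop
      (𝓝 (1 - 0 - 0)) := (tendsto_const_nhds.sub h1).sub h2
  rw [sub_zero, sub_zero] at h3
  refine h3.congr' ?_
  filter_upwards [eventually_gt_atTop (1 : ℝ)] with T hT
  have hT0 : 0 < T := by linarith
  have hL : 0 < Real.log T := Real.log_pos hT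
  have e : T ^ (3 / 4 : ℝ) = T * T ^ (-(1 / 4 : ℝ)) := by
    rw [show (3 / 4 : ℝ) = 1 + (-(1 / 4)) by norm_num, Real.rpow_add hT0, Real.rpow_one]
  unfold T2 T1
  rw [e]
  field_simp

/-- The range of `t` for large `T`. -/
theorem ev_range : ∀ᶠ T : ℝ in atTop, 3 ≤ T ∧ 1 ≤ Real.log T ∧ 1 ≤ T1 T ∧ T1 T ≤ T2 T ∧
    T2 T ≤ T := by
  filter_upwards [eventually_ge_atTop 3,
    len_tendsto.eventually (lt_mem_nhds (show (0 : ℝ) < 1 by norm_num))] with T h3 hT
  have hT0 : 0 < T := by linarith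
  have hL : 1 ≤ Real.log T := by
    rw [Real.le_log_iff_exp_le hT0]
    linarith [Real.exp_one_lt_d9]
  refine ⟨h3, hL, ?_, ?_, ?_⟩
  · unfold T1
    rw [one_le_div (by linarith)]
    linarith [Real.log_le_sub_one_of_pos hT0]
  · have h4 : 0 < T2 T - T1 T := by
      by_contra h5
      push Not at h5
      have := div_nonpos_of_nonpos_of_nonneg h5 hT0.le
      linarith
    linarith
  · unfold T2
    have : 0 ≤ T ^ (3 / 4 : ℝ) := by positivity
    linarith

theorem hasDerivAt_arch (t : ℝ) :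
    HasDerivAt (fun t : ℝ => archF (pt32 t)) (deriv archF (pt32 t) * I) t := by
  have h1 : AnalyticAt ℂ archF (pt32 t) := analyticAt_archF (by rw [pt32_re]; norm_num)
  have h2 : HasDerivAt (fun z : ℂ => 3 / 2 + z * I) I (t : ℂ) := by
    simpa using ((hasDerivAt_id (t : ℂ)).mul_const I).const_add (3 / 2 : ℂ)
  have h3 : HasDerivAt (fun z : ℂ => archF (3 / 2 + z * I)) (deriv archF (pt32 t) * I) (t : ℂ) := by
    have h4 : HasDerivAt archF (deriv archF (pt32 t)) (3 / 2 + (t : ℂ) * I) :=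
      h1.differentiableAt.hasDerivAt
    exact h4.comp (t : ℂ) h2
  exact h3.comp_ofReal

theorem continuous_deriv_arch : Continuous fun t : ℝ => deriv archF (pt32 t) := by
  rw [continuous_iff_continuousAt]
  intro t
  have h1 : AnalyticAt ℂ archF (pt32 t) := analyticAt_archF (by rw [pt32_re]; norm_num)
  exact ContinuousAt.comp h1.deriv.continuousAt continuous_pt32.continuousAt

/-- The derivative of the archimedean term. -/
noncomputable def dT' (L t : ℝ) : ℂ :=
  (deriv archF (pt32 t) * I - deriv archF (pt32 (-t)) * I) / L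

theorem hasDerivAt_dT (L t : ℝ) : HasDerivAt (dT L) (dT' L t) t := by
  have h1 := hasDerivAt_arch t
  have h2 : HasDerivAt (fun t : ℝ => archF (pt32 (-t))) (-(deriv archF (pt32 (-t)) * I)) t := by
    have h3 := (hasDerivAt_arch (-t)).scomp t (hasDerivAt_neg t)
    simpa [Function.comp_def] using h3
  have h4 := (h1.add h2).div_const (L : ℂ)
  unfold dT dT'
  rw [sub_eq_add_neg]
  exact h4

theorem continuous_dT' (L : ℝ) : Continuous (dT' L) := by
  unfold dT'
  exact ((continuous_deriv_arch.mul continuous_const).sub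
    ((continuous_deriv_arch.comp continuous_neg).mul continuous_const)).div_const _

theorem exists_deriv_bound : ∃ C : ℝ, 0 < C ∧ ∀ t : ℝ, 1 ≤ |t| →
    ‖deriv archF (pt32 t)‖ ≤ C / |t| := by
  obtain ⟨M, hM⟩ := (isCompact_Icc (a := (-2 : ℝ)) (b := 2)).exists_bound_of_continuousOn
    continuous_deriv_arch.continuousOn
  refine ⟨max (2 * M) 4, lt_of_lt_of_le (by norm_num) (le_max_right _ _), fun t ht => ?_⟩
  have ht0 : 0 < |t| := by linarith
  by_cases h2 : 2 ≤ |t|
  · exact (deriv_archF_bound h2).trans (by gcongr; exact le_max_right _ _)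
  · push Not at h2
    have h3 := hM t (abs_le.1 h2.le)
    have hM0 : 0 ≤ M := (norm_nonneg _).trans h3
    rw [le_div_iff₀ ht0]
    calc ‖deriv archF (pt32 t)‖ * |t| ≤ M * 2 := by gcongr
      _ = 2 * M := by ring
      _ ≤ _ := le_max_left _ _

theorem exists_dT_bound : ∃ C : ℝ, 0 < C ∧ ∀ T t : ℝ, 3 ≤ T → 1 ≤ Real.log T → 1 ≤ t → t ≤ T →
    ‖dT (Real.log T) t‖ ≤ C := by
  obtain ⟨C, hC0, hC⟩ := exists_arch_bound
  refine ⟨2 * C + 2, by positivity, fun T t h3 hL h1 h2 => ?_⟩
  have hL0 : 0 < Real.log T := by linarith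
  have hlog : Real.log (|t| + 2) ≤ 2 * Real.log T := by
    rw [abs_of_nonneg (by linarith)]
    have h4 : Real.log (t + 2) ≤ Real.log (T * T) :=
      Real.log_le_log (by linarith) (by nlinarith)
    rw [Real.log_mul (by linarith) (by linarith)] at h4
    linarith
  have hlog0 : 0 ≤ Real.log (|t| + 2) := Real.log_nonneg (by linarith [abs_nonneg t])
  have hb : ∀ s : ℝ, |s| = |t| → ‖archF (pt32 s)‖ ≤ C + Real.log T := by
    intro s hs
    have h4 := hC s
    rw [hs] at h4
    have h5 : ‖((Real.log (|t| + 2) / 2 : ℝ) : ℂ)‖ ≤ Real.log T := by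
      rw [norm_real, Real.norm_eq_abs, abs_of_nonneg (by positivity)]
      linarith
    calc ‖archF (pt32 s)‖ = ‖(archF (pt32 s) - ((Real.log (|t| + 2) / 2 : ℝ) : ℂ)) +
          ((Real.log (|t| + 2) / 2 : ℝ) : ℂ)‖ := by rw [sub_add_cancel]
      _ ≤ C + Real.log T := (norm_add_le _ _).trans (add_le_add h4 h5)
  unfold dT
  rw [norm_div, norm_real, Real.norm_eq_abs, abs_of_pos hL0, div_le_iff₀ hL0]
  have h6 := hb t rfl
  have h7 := hb (-t) (abs_neg t)
  calc _ ≤ (C + Real.log T) + (C + Real.log T) := (norm_add_le _ _).trans (add_le_add h6 h7)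
    _ ≤ (2 * C + 2) * Real.log T := by nlinarith

end DtAux

open DtAux

/-- **Module dt** (2 theorems, about 150 lines). Integration by parts against the archimedean term.

PROOF. `dT L t = (archF(3/2+it) + archF(3/2-it))/L`. `‖archF(pt32 t)‖ ≤ C(1 + log(|t|+2))`
(`Mo.exists_arch_bound`), so `‖dT (log T) t‖ ≤ C` for `1 ≤ t ≤ T`, `T ≥ 3`. `dT` is differentiable in
`t` (`Mo.analyticAt_archF`), with `‖d/dt archF(pt32 (±t))‖ ≤ C/t` for `t ≥ 1`
(`archF s = 1/s + 1/(s-1) - log π/2 + digamma(s/2)/2` and `Mo.deriv_digamma_bound` for `|Im s/2| ≥ 1`,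
i.e. `t ≥ 2`; on `[1,2]` by compactness, or use `Mo.exists_arch_variation`:
`‖archF(pt32 t) - archF(pt32 t₀)‖ ≤ C(1+|t-t₀|)²/(1+|t₀|)` gives the bound of the derivative only for
increments of size 1: use the first way). So `∫_A^B ‖dT'‖ ≤ (C/L) log T = C`, and integrating by parts
(`intervalIntegral.integral_mul_deriv_eq_deriv_mul` with `e^{iℓt}/(iℓ)`):
`‖∫_A^B dT e^{iℓt} dt‖ ≤ (2 sup‖dT‖ + ∫ ‖dT'‖)/|ℓ|`. -/
theorem dT_ibp : ∃ C : ℝ, 0 < C ∧ ∀ T A B ℓ : ℝ, 3 ≤ T → 1 ≤ A → A ≤ B → B ≤ T → ℓ ≠ 0 →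
    ‖∫ t in A..B, dT (Real.log T) t * Complex.exp (I * t * ℓ)‖ ≤ C / |ℓ| := by
  obtain ⟨C₀, hC₀, hb₀⟩ := exists_dT_bound
  obtain ⟨C₁, hC₁, hb₁⟩ := exists_deriv_bound
  refine ⟨2 * C₀ + 2 * C₁, by positivity, fun T A B ℓ h3 hA hAB hB hl => ?_⟩
  have hT0 : 0 < T := by linarith
  have hL : 1 ≤ Real.log T := by
    rw [Real.le_log_iff_exp_le hT0]
    linarith [Real.exp_one_lt_d9]
  have hL0 : 0 < Real.log T := by linarith
  have hl0 : 0 < |ℓ| := abs_pos.2 hl
  have hlc : (I * (ℓ : ℂ)) ≠ 0 := mul_ne_zero I_ne_zero (by exact_mod_cast hl)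
  have hv : ∀ t : ℝ, HasDerivAt (fun t : ℝ => Complex.exp (I * t * ℓ) / (I * ℓ))
      (Complex.exp (I * t * ℓ)) t := by
    intro t
    have h1 : HasDerivAt (fun z : ℂ => I * z * ℓ) (I * ℓ) (t : ℂ) := by
      simpa using ((hasDerivAt_id (t : ℂ)).const_mul I).mul_const (ℓ : ℂ)
    have h2 := (h1.cexp.div_const (I * (ℓ : ℂ))).comp_ofReal
    have e : Complex.exp (I * t * ℓ) * (I * ℓ) / (I * ℓ) = Complex.exp (I * t * ℓ) :=
      mul_div_cancel_right₀ _ hlc
    rw [e] at h2
    exact h2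
  have hvn : ∀ t : ℝ, ‖Complex.exp (I * t * ℓ) / (I * ℓ)‖ = 1 / |ℓ| := by
    intro t
    rw [norm_div, norm_mul, norm_I, one_mul, norm_real, Real.norm_eq_abs,
      show I * (t : ℂ) * (ℓ : ℂ) = ((t * ℓ : ℝ) : ℂ) * I by push_cast; ring,
      Complex.norm_exp_ofReal_mul_I]
  have hibp := intervalIntegral.integral_mul_deriv_eq_deriv_mul (a := A) (b := B)
    (u := dT (Real.log T)) (u' := dT' (Real.log T))
    (v := fun t : ℝ => Complex.exp (I * t * ℓ) / (I * ℓ))
    (v' := fun t : ℝ => Complex.exp (I * t * ℓ))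
    (fun t _ => hasDerivAt_dT _ t) (fun t _ => hv t)
    ((continuous_dT' _).intervalIntegrable _ _)
    ((by fun_prop : Continuous fun t : ℝ => Complex.exp (I * t * ℓ)).intervalIntegrable _ _)
  rw [hibp]
  have b1 : ‖dT (Real.log T) B * (Complex.exp (I * B * ℓ) / (I * ℓ))‖ ≤ C₀ * (1 / |ℓ|) := by
    rw [norm_mul, hvn]
    gcongr
    exact hb₀ T B h3 hL (hA.trans hAB) hB
  have b2 : ‖dT (Real.log T) A * (Complex.exp (I * A * ℓ) / (I * ℓ))‖ ≤ C₀ * (1 / |ℓ|) := by
    rw [norm_mul, hvn]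
    gcongr
    exact hb₀ T A h3 hL hA (hAB.trans hB)
  have b3 : ‖∫ t in A..B, dT' (Real.log T) t * (Complex.exp (I * t * ℓ) / (I * ℓ))‖ ≤
      2 * C₁ * (1 / |ℓ|) := by
    have h4 : ‖∫ t in A..B, dT' (Real.log T) t * (Complex.exp (I * t * ℓ) / (I * ℓ))‖ ≤
        ∫ t in A..B, (2 * C₁ / Real.log T * (1 / |ℓ|)) * (1 / t) := by
      refine intervalIntegral.norm_integral_le_of_norm_le hAB ?_ ?_
      · refine Filter.Eventually.of_forall fun t ht => ?_
        have ht1 : 1 ≤ t := hA.trans ht.1.le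
        have ht0 : 0 < t := by linarith
        rw [norm_mul, hvn]
        have h5 := hb₁ t (by rwa [abs_of_pos ht0])
        have h6 := hb₁ (-t) (by rwa [abs_neg, abs_of_pos ht0])
        rw [abs_of_pos ht0] at h5
        rw [abs_neg, abs_of_pos ht0] at h6
        have h7 : ‖dT' (Real.log T) t‖ ≤ 2 * C₁ / Real.log T * (1 / t) := by
          unfold dT'
          rw [norm_div, norm_real, Real.norm_eq_abs, abs_of_pos hL0, div_le_iff₀ hL0]
          calc _ ≤ ‖deriv archF (pt32 t) * I‖ + ‖deriv archF (pt32 (-t)) * I‖ := norm_sub_le _ _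
            _ ≤ C₁ / t + C₁ / t := by
                rw [norm_mul, norm_mul, norm_I, mul_one, mul_one]
                exact add_le_add h5 h6
            _ = 2 * C₁ / Real.log T * (1 / t) * Real.log T := by
                field_simp
                ring
        calc ‖dT' (Real.log T) t‖ * (1 / |ℓ|) ≤ (2 * C₁ / Real.log T * (1 / t)) * (1 / |ℓ|) := by
              gcongr
          _ = (2 * C₁ / Real.log T * (1 / |ℓ|)) * (1 / t) := by ring
      · refine IntervalIntegrable.const_mul ?_ _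
        refine ContinuousOn.intervalIntegrable ?_
        refine ContinuousOn.div continuousOn_const continuousOn_id fun t ht => ?_
        rw [uIcc_of_le hAB] at ht
        have := hA.trans ht.1
        exact (by linarith : (0 : ℝ) < t).ne'
    refine h4.trans ?_
    rw [intervalIntegral.integral_const_mul, integral_one_div_of_pos (by linarith) (by linarith)]
    have h8 : Real.log (B / A) ≤ Real.log T := by
      have hA0 : 0 < A := by linarith
      have hB0 : 0 < B := by linarith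
      refine Real.log_le_log (by positivity) ?_
      rw [div_le_iff₀ (by linarith)]
      nlinarith
    calc 2 * C₁ / Real.log T * (1 / |ℓ|) * Real.log (B / A) ≤
          2 * C₁ / Real.log T * (1 / |ℓ|) * Real.log T := by gcongr
      _ = 2 * C₁ * (1 / |ℓ|) := by field_simp
  calc _ ≤ (C₀ * (1 / |ℓ|) + C₀ * (1 / |ℓ|)) + 2 * C₁ * (1 / |ℓ|) :=
        (norm_sub_le _ _).trans (add_le_add ((norm_sub_le _ _).trans (add_le_add b1 b2)) b3)
    _ = (2 * C₀ + 2 * C₁) / |ℓ| := by ring

/-- PROOF. `Mo.mean_d` with `a = 1/2` (`[T1,T2] ⊆ [T^{1/2}, T - T^{1/2}]` for large `T`) and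
Cauchy-Schwarz give `(1/T) ∫ ‖dT - 1‖ → 0`; `(T2 - T1)/T → 1`. -/
theorem dT_mean : Tendsto (fun T : ℝ => (1 / (T : ℂ)) * ∫ t in (T1 T)..(T2 T),
    dT (Real.log T) t) atTop (𝓝 1) := by
  obtain ⟨C, hC0, hC⟩ := exists_arch_bound
  have hlen : Tendsto (fun T : ℝ => (((T2 T - T1 T) / T : ℝ) : ℂ)) atTop (𝓝 1) := by
    have := (Complex.continuous_ofReal.tendsto 1).comp len_tendsto
    simpa [Function.comp_def] using this
  have hq : Tendsto (fun T : ℝ => (2 * C + 2) * (Real.log T)⁻¹ +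
      Real.log (Real.log T) / Real.log T) atTop (𝓝 0) := by
    have h1 : Tendsto (fun T : ℝ => (Real.log T)⁻¹) atTop (𝓝 0) :=
      tendsto_inv_atTop_zero.comp Real.tendsto_log_atTop
    have h2 : Tendsto (fun x : ℝ => Real.log x / x) atTop (𝓝 0) := by
      simpa using (isLittleO_log_rpow_atTop (show (0 : ℝ) < 1 by norm_num)).tendsto_div_nhds_zero
    have h3 := (h1.const_mul (2 * C + 2)).add (h2.comp Real.tendsto_log_atTop)
    simpa [Function.comp_def] using h3
  have hd : Tendsto (fun T : ℝ => (1 / (T : ℂ)) * ∫ t in (T1 T)..(T2 T),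
      (dT (Real.log T) t - 1)) atTop (𝓝 0) := by
    rw [tendsto_zero_iff_norm_tendsto_zero]
    refine squeeze_zero' (Filter.Eventually.of_forall fun T => norm_nonneg _) ?_ hq
    filter_upwards [DtAux.ev_range] with T hT
    obtain ⟨h3, hL, h1, h12, h2⟩ := hT
    have hT0 : 0 < T := by linarith
    have hL0 : 0 < Real.log T := by linarith
    have hb : ∀ t ∈ uIoc (T1 T) (T2 T), ‖dT (Real.log T) t - 1‖ ≤
        (2 * C + 2 + Real.log (Real.log T)) / Real.log T := by
      intro t ht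
      rw [uIoc_of_le h12] at ht
      have ht1 : 1 ≤ t := h1.trans ht.1.le
      have ht0 : 0 < t := by linarith
      refine (MeanMainAux.dT_sub_one hC h3 hL ht1 (ht.2.trans h2)).trans ?_
      gcongr
      rw [div_le_iff₀ ht0]
      have h4 : T / Real.log T ≤ t := ht.1.le
      rw [div_le_iff₀ hL0] at h4
      linarith
    have h5 := intervalIntegral.norm_integral_le_of_norm_le_const hb
    have h6 : |T2 T - T1 T| ≤ T := by
      rw [abs_of_nonneg (by linarith)]
      linarith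
    rw [norm_mul, norm_div, norm_one, norm_real, Real.norm_eq_abs, abs_of_pos hT0]
    have hloglog : 0 ≤ Real.log (Real.log T) := Real.log_nonneg hL
    calc 1 / T * ‖∫ t in (T1 T)..(T2 T), (dT (Real.log T) t - 1)‖ ≤
          1 / T * ((2 * C + 2 + Real.log (Real.log T)) / Real.log T * T) := by
          gcongr
          exact h5.trans (by gcongr)
      _ = (2 * C + 2) * (Real.log T)⁻¹ + Real.log (Real.log T) / Real.log T := by
          field_simp
  have hsum := hlen.add hd
  rw [add_zero] at hsum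
  refine hsum.congr' ?_
  filter_upwards [DtAux.ev_range] with T hT
  obtain ⟨h3, hL, h1, h12, h2⟩ := hT
  have hT0 : (T : ℂ) ≠ 0 := by exact_mod_cast (by linarith : (T : ℝ) ≠ 0)
  rw [intervalIntegral.integral_sub ((MeanMainAux.continuous_dT _).intervalIntegrable _ _)
    intervalIntegrable_const, intervalIntegral.integral_const]
  simp only [real_smul, mul_one]
  push_cast
  field_simp
  ring

end Pool.Agent.MP_67227b_nt.Fb
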