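import Pool.Agent.MP_67227b_nt.Fb.FbDiag
import Pool.Agent.MP_67227b_nt.Fb.FbAm

set_option autoImplicit false

open Filter Topology Set MeasureTheory Complex
open scoped Real ContDiff ArithmeticFunction ArithmeticFunction.Moebius ComplexConjugate

namespace Pool.Agent.MP_67227b_nt.Fb

open Pool.Agent.Lib.ZetaCount_helper33 Pool.Agent.MP_67227b_nt Pool.Agent.MP_67227b_nt.Mo

namespace MsAux

/-- the bump -/
theorem exists_w {η : ℝ} (hη : 0 < η) (hη1 : η ≤ 1) : ∃ w : ℝ → ℝ, Bump 2 (cf w) ∧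
    Integrable w ∧ (∀ v, 0 ≤ w v) ∧ (∀ v, w v ≤ 1) ∧ (∀ v ∈ Icc (0 : ℝ) 1, w v = 1) ∧
    1 ≤ (∫ v, w v) ∧ (∫ v, w v) ≤ 1 + η := by
  let f : ContDiffBump (1 / 2 : ℝ) := ⟨1 / 2, 1 / 2 + η / 2, by norm_num, by linarith⟩
  have hout : f.rOut = 1 / 2 + η / 2 := rfl
  have hin : f.rIn = 1 / 2 := rfl
  have hzero : ∀ v, 1 / 2 + η / 2 ≤ |v - 1 / 2| → f v = 0 := by
    intro v hv
    apply f.zero_of_le_dist
    rw [Real.dist_eq, hout]
    exact hv
  have hone : ∀ v ∈ Icc (0 : ℝ) 1, f v = 1 := by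
    intro v hv
    apply f.one_of_mem_closedBall
    rw [Metric.mem_closedBall, Real.dist_eq, hin, abs_le]
    constructor <;> linarith [hv.1, hv.2]
  have hint : Integrable (fun v => f v) := f.integrable
  refine ⟨fun v => f v, ⟨?_, ?_⟩, hint, fun v => f.nonneg, fun v => f.le_one, hone, ?_, ?_⟩
  · exact ofRealCLM.contDiff.comp f.contDiff
  · intro v hv
    have : f v = 0 := by
      apply hzero
      rcases lt_abs.1 hv with h | h
      · exact (le_abs_self _).trans' (by linarith)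
      · exact (neg_le_abs _).trans' (by linarith)
    simp [cf, this]
  · have h1 : (∫ v in Icc (0 : ℝ) 1, f v) ≤ ∫ v, f v :=
      setIntegral_le_integral hint (Eventually.of_forall fun v => f.nonneg)
    have h2 : (∫ v in Icc (0 : ℝ) 1, f v) = 1 := by
      rw [setIntegral_congr_fun measurableSet_Icc hone]
      simp
    linarith
  · have h1 : (∫ v, f v) = ∫ v in Icc (-(η / 2)) (1 + η / 2), f v := by
      rw [setIntegral_eq_integral_of_forall_compl_eq_zero]
      intro v hv
      apply hzero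
      by_contra hc
      push Not at hc
      rw [abs_lt] at hc
      exact hv ⟨by linarith [hc.1], by linarith [hc.2]⟩
    rw [h1]
    have h2 : (∫ v in Icc (-(η / 2)) (1 + η / 2), f v) ≤
        ∫ v in Icc (-(η / 2)) (1 + η / 2), (1 : ℝ) := by
      refine setIntegral_mono hint.integrableOn ?_ (fun v => f.le_one)
      exact integrableOn_const (by simp) (by simp)
    refine h2.trans ?_
    simp
    constructor <;> linarith

/-- the square of a trigonometric polynomial with real coefficients -/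
theorem norm_sq_trig {ι : Type*} (s : Finset ι) (c f : ι → ℝ) (t : ℝ) :
    ‖∑ i ∈ s, (c i : ℂ) * Complex.exp (-((t * f i : ℝ) : ℂ) * I)‖ ^ 2 =
      ∑ i ∈ s, ∑ j ∈ s, c i * c j * Real.cos (t * (f i - f j)) := by
  have hre : (∑ i ∈ s, (c i : ℂ) * Complex.exp (-((t * f i : ℝ) : ℂ) * I)).re =
      ∑ i ∈ s, c i * Real.cos (t * f i) := by
    rw [re_sum]
    refine Finset.sum_congr rfl fun i _ => ?_
    rw [← ofReal_neg, re_ofReal_mul, Complex.exp_ofReal_mul_I_re, Real.cos_neg]
  have him : (∑ i ∈ s, (c i : ℂ) * Complex.exp (-((t * f i : ℝ) : ℂ) * I)).im =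
      -∑ i ∈ s, c i * Real.sin (t * f i) := by
    rw [im_sum, ← Finset.sum_neg_distrib]
    refine Finset.sum_congr rfl fun i _ => ?_
    rw [← ofReal_neg, im_ofReal_mul, Complex.exp_ofReal_mul_I_im, Real.sin_neg]
    ring
  rw [← normSq_eq_norm_sq, normSq_apply, hre, him, neg_mul_neg, Finset.sum_mul_sum,
    Finset.sum_mul_sum, ← Finset.sum_add_distrib]
  refine Finset.sum_congr rfl fun i _ => ?_
  rw [← Finset.sum_add_distrib]
  refine Finset.sum_congr rfl fun j _ => ?_
  rw [show t * (f i - f j) = t * f i - t * f j by ring, Real.cos_sub]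
  ring

/-- the cosine transform -/
noncomputable def W (w : ℝ → ℝ) (x : ℝ) : ℝ := ∫ v : ℝ, w v * Real.cos (v * x)

theorem W_zero (w : ℝ → ℝ) : W w 0 = ∫ v, w v := by simp [W]

theorem W_bound {w : ℝ → ℝ} (hw : Bump 2 (cf w)) (hi : Integrable w) (K : ℕ) :
    ∃ C : ℝ, 0 < C ∧ ∀ x : ℝ, |W w x| ≤ C / (1 + (x / (2 * π)) ^ 2) ^ K := by
  obtain ⟨C, hC, h⟩ := gs_real_bound (by norm_num : (0 : ℝ) ≤ 2) hw K
  refine ⟨C, hC, fun x => ?_⟩
  have e : W w x = (gs (cf w) ((x / (2 * π) : ℝ) : ℂ)).re := by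
    unfold W gs
    have hint : Integrable fun v : ℝ => cf w v *
        Complex.exp (2 * π * I * v * ((x / (2 * π) : ℝ) : ℂ)) := by
      have h1 : Integrable fun v : ℝ => cf w v := hi.ofReal
      refine h1.mul_bdd (c := 1) ?_ ?_
      · exact (by fun_prop : Continuous fun v : ℝ =>
          Complex.exp (2 * π * I * v * ((x / (2 * π) : ℝ) : ℂ))).aestronglyMeasurable
      · refine Eventually.of_forall fun v => ?_
        rw [show (2 * π * I * v * ((x / (2 * π) : ℝ) : ℂ) : ℂ) =
          ((2 * π * v * (x / (2 * π)) : ℝ) : ℂ) * I by push_cast; ring,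
          Complex.norm_exp_ofReal_mul_I]
    have := integral_re hint
    rw [show (RCLike.re : ℂ → ℝ) = Complex.re from rfl] at this
    refine Eq.trans ?_ this
    refine integral_congr_ae (Eventually.of_forall fun v => ?_)
    have hpi : (2 * π) ≠ 0 := by positivity
    simp only [cf]
    rw [show (2 * π * I * v * ((x / (2 * π) : ℝ) : ℂ) : ℂ) = ((v * x : ℝ) : ℂ) * I by
      push_cast
      have : (π : ℂ) ≠ 0 := by exact_mod_cast Real.pi_ne_zero
      field_simp, re_ofReal_mul, Complex.exp_ofReal_mul_I_re]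
  rw [e]
  exact (abs_re_le_norm _).trans (h _)

/-- the smoothed mean -/
theorem mean_le {ι : Type*} (s : Finset ι) (c f : ι → ℝ) {w : ℝ → ℝ} (hi : Integrable w)
    (h0 : ∀ v, 0 ≤ w v) (h1 : ∀ v ∈ Icc (0 : ℝ) 1, w v = 1) {T : ℝ} (hT : 0 < T) :
    (1 / T) * (∫ t in (0 : ℝ)..T, ∑ i ∈ s, ∑ j ∈ s, c i * c j * Real.cos (t * (f i - f j))) ≤
      ∑ i ∈ s, ∑ j ∈ s, c i * c j * W w (T * (f i - f j)) := by
  set g : ℝ → ℝ := fun t => ∑ i ∈ s, ∑ j ∈ s, c i * c j * Real.cos (t * (f i - f j)) with hg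
  have hg0 : ∀ t, 0 ≤ g t := fun t => by
    rw [hg]
    simp only
    rw [← norm_sq_trig]
    positivity
  have hgc : Continuous g := by
    rw [hg]
    fun_prop
  have e1 : (1 / T) * (∫ t in (0 : ℝ)..T, g t) = ∫ v in (0 : ℝ)..1, g (T * v) := by
    rw [intervalIntegral.integral_comp_mul_left g hT.ne']
    simp
  have hterm : ∀ i j, Integrable fun v : ℝ => w v * (c i * c j * Real.cos (T * v * (f i - f j))) := by
    intro i j
    refine hi.mul_bdd (c := |c i * c j|) ?_ ?_
    · exact (by fun_prop : Continuous fun v : ℝ =>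
        c i * c j * Real.cos (T * v * (f i - f j))).aestronglyMeasurable
    · refine Eventually.of_forall fun v => ?_
      rw [Real.norm_eq_abs, abs_mul]
      exact mul_le_of_le_one_right (abs_nonneg _) (Real.abs_cos_le_one _)
  have hint : Integrable fun v : ℝ => w v * g (T * v) := by
    have : (fun v : ℝ => w v * g (T * v)) = fun v => ∑ i ∈ s, ∑ j ∈ s,
        w v * (c i * c j * Real.cos (T * v * (f i - f j))) := by
      funext v
      rw [hg]
      simp only
      rw [Finset.mul_sum]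
      refine Finset.sum_congr rfl fun i _ => ?_
      rw [Finset.mul_sum]
    rw [this]
    exact integrable_finsetSum _ fun i _ => integrable_finsetSum _ fun j _ => hterm i j
  rw [e1]
  have e2 : ∫ v in (0 : ℝ)..1, g (T * v) ≤ ∫ v, w v * g (T * v) := by
    rw [intervalIntegral.integral_of_le zero_le_one, ← integral_Icc_eq_integral_Ioc]
    have h3 : ∫ v in Icc (0 : ℝ) 1, g (T * v) = ∫ v in Icc (0 : ℝ) 1, w v * g (T * v) := by
      refine setIntegral_congr_fun measurableSet_Icc fun v hv => ?_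
      show g (T * v) = w v * g (T * v)
      rw [h1 v hv, one_mul]
    rw [h3]
    exact setIntegral_le_integral hint (Eventually.of_forall fun v => mul_nonneg (h0 v) (hg0 _))
  refine e2.trans (le_of_eq ?_)
  have e3 : ∫ v, w v * g (T * v) = ∫ v, ∑ i ∈ s, ∑ j ∈ s,
      w v * (c i * c j * Real.cos (T * v * (f i - f j))) := by
    refine integral_congr_ae (Eventually.of_forall fun v => ?_)
    rw [hg]
    simp only
    rw [Finset.mul_sum]
    refine Finset.sum_congr rfl fun i _ => ?_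
    rw [Finset.mul_sum]
  rw [e3, integral_finsetSum _ (fun i _ => integrable_finsetSum _ fun j _ => hterm i j)]
  refine Finset.sum_congr rfl fun i _ => ?_
  rw [integral_finsetSum _ (fun j _ => hterm i j)]
  refine Finset.sum_congr rfl fun j _ => ?_
  unfold W
  rw [← integral_const_mul]
  refine integral_congr_ae (Eventually.of_forall fun v => ?_)
  simp only
  rw [show T * v * (f i - f j) = v * (T * (f i - f j)) by ring]
  ring

/-- distinct integers have distinct logarithms -/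
theorem log_sep {a b : ℕ} (ha : 1 ≤ a) (hb : 1 ≤ b) (hab : a ≠ b) {Q : ℝ} (haQ : (a : ℝ) ≤ Q)
    (hbQ : (b : ℝ) ≤ Q) : 1 / Q ≤ |Real.log a - Real.log b| := by
  have key : ∀ x y : ℕ, 1 ≤ x → x < y → (y : ℝ) ≤ Q → 1 / Q ≤ Real.log y - Real.log x := by
    intro x y hx hxy hy
    have hx' : (0 : ℝ) < x := by exact_mod_cast hx
    have hy' : (0 : ℝ) < y := by exact_mod_cast (by omega : 0 < y)
    have hxy' : (x : ℝ) + 1 ≤ y := by exact_mod_cast hxy
    rw [← Real.log_div hy'.ne' hx'.ne']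
    have h1 := Real.one_sub_inv_le_log_of_pos (div_pos hy' hx')
    rw [inv_div] at h1
    have h2 : 1 / Q ≤ 1 - (x : ℝ) / y := by
      rw [one_sub_div hy'.ne', div_le_div_iff₀ (hy'.trans_le hy) hy']
      nlinarith
    linarith
  rcases lt_or_gt_of_ne hab with h | h
  · rw [abs_sub_comm]
    exact (key a b ha h hbQ).trans (le_abs_self _)
  · exact (key b a hb h haQ).trans (le_abs_self _)

/-- the product of the two powers -/
theorem pow_mul_pow {m r : ℕ} (hm : 1 ≤ m) (hr : 1 ≤ r) (t : ℝ) :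
    (m : ℂ) ^ (-(1 / 2 + (t : ℂ) * I)) * (r : ℂ) ^ (-(1 / 2 - (t : ℂ) * I)) =
      ((1 / Real.sqrt ((m : ℝ) * r) : ℝ) : ℂ) *
        Complex.exp (-((t * (Real.log m - Real.log r) : ℝ) : ℂ) * I) := by
  have hm0 : (m : ℂ) ≠ 0 := by exact_mod_cast (by omega : m ≠ 0)
  have hr0 : (r : ℂ) ≠ 0 := by exact_mod_cast (by omega : r ≠ 0)
  have hm' : (0 : ℝ) < m := by exact_mod_cast hm
  have hr' : (0 : ℝ) < r := by exact_mod_cast hr
  have h1 : 1 / Real.sqrt ((m : ℝ) * r) = Real.exp (-(Real.log m + Real.log r) / 2) := by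
    rw [Real.sqrt_eq_rpow, Real.rpow_def_of_pos (by positivity), Real.log_mul hm'.ne' hr'.ne',
      one_div, ← Real.exp_neg]
    congr 1
    ring
  rw [cpow_def_of_ne_zero hm0, cpow_def_of_ne_zero hr0, ← Complex.exp_add, h1,
    Complex.ofReal_exp, ← Complex.exp_add, ← Complex.natCast_log, ← Complex.natCast_log]
  congr 1
  push_cast
  ring

/-- `V0` as a trigonometric polynomial -/
theorem V0_eq {h lam : ℝ → ℝ} {d T t : ℝ} :
    V0 h lam d T t = ∑ p ∈ Finset.Icc 1 (Zd d T) ×ˢ Finset.Icc 1 ⌊T⌋₊,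
      ((am h d T p.1 * lam (1 + (Real.log p.1 - Real.log p.2) / Real.log T) /
        Real.sqrt ((p.1 : ℝ) * p.2) : ℝ) : ℂ) *
          Complex.exp (-((t * (Real.log p.1 - Real.log p.2) : ℝ) : ℂ) * I) := by
  unfold V0
  rw [Finset.sum_product]
  refine Finset.sum_congr rfl fun m hm => Finset.sum_congr rfl fun r hr => ?_
  rw [mul_assoc, pow_mul_pow (Finset.mem_Icc.1 hm).1 (Finset.mem_Icc.1 hr).1, ← mul_assoc]
  rw [← ofReal_mul]
  dsimp only
  congr 2
  ring

/-- one pair of indices -/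
theorem pair_bound {h lam w : ℝ → ℝ} {d x₀ T B Ca Ck : ℝ} {K : ℕ} (hd : 0 < d) (hdx : 2 * d < x₀)
    (hx1 : x₀ ≤ 1) (hB : 0 < B) (hCa : 0 < Ca) (hCk : 0 < Ck) (hT : 1 < T)
    (hK : 5 ≤ 2 * K * (x₀ - 2 * d)) (hl : PB x₀ B lam) (ha : ∀ m : ℕ, |am h d T m| ≤ Ca)
    (hW : ∀ x : ℝ, |W w x| ≤ Ck / (1 + (x / (2 * π)) ^ 2) ^ K) {m r m' r' : ℕ}
    (hm : m ∈ Finset.Icc 1 (Zd d T)) (hr : 1 ≤ r) (hm' : m' ∈ Finset.Icc 1 (Zd d T))
    (hr' : 1 ≤ r') :
    (am h d T m * lam (1 + (Real.log m - Real.log r) / Real.log T) / Real.sqrt ((m : ℝ) * r)) *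
      (am h d T m' * lam (1 + (Real.log m' - Real.log r') / Real.log T) /
        Real.sqrt ((m' : ℝ) * r')) *
      W w (T * ((Real.log m - Real.log r) - (Real.log m' - Real.log r'))) ≤
    (∫ v, w v) * (if m * r' = m' * r then
      (am h d T m * lam (1 + (Real.log m - Real.log r) / Real.log T)) *
        (am h d T m' * lam (1 + (Real.log m' - Real.log r') / Real.log T)) /
        Real.sqrt ((m : ℝ) * r * (m' * r')) else 0) +
      (Ca * B) ^ 2 * (Ck * (2 * π) ^ (2 * K) / T ^ 5) := by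
  rw [Finset.mem_Icc] at hm hm'
  have hT0 : 0 < T := by linarith
  have hL : 0 < Real.log T := Real.log_pos hT
  have hmR : (0 : ℝ) < m := by exact_mod_cast hm.1
  have hrR : (0 : ℝ) < r := by exact_mod_cast hr
  have hmR' : (0 : ℝ) < m' := by exact_mod_cast hm'.1
  have hrR' : (0 : ℝ) < r' := by exact_mod_cast hr'
  have hpi := Real.pi_pos
  set c := am h d T m * lam (1 + (Real.log m - Real.log r) / Real.log T) with hc
  set c' := am h d T m' * lam (1 + (Real.log m' - Real.log r') / Real.log T) with hc'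
  have hE : 0 ≤ (Ca * B) ^ 2 * (Ck * (2 * π) ^ (2 * K) / T ^ 5) := by positivity
  split_ifs with heq
  · have hlog : (Real.log m - Real.log r) - (Real.log m' - Real.log r') = 0 := by
      have h1 : Real.log ((m : ℝ) * r') = Real.log ((m' : ℝ) * r) := by
        congr 1
        exact_mod_cast heq
      rw [Real.log_mul hmR.ne' hrR'.ne', Real.log_mul hmR'.ne' hrR.ne'] at h1
      linarith
    rw [hlog, mul_zero, W_zero]
    have e : c / Real.sqrt ((m : ℝ) * r) * (c' / Real.sqrt ((m' : ℝ) * r')) =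
        c * c' / Real.sqrt ((m : ℝ) * r * (m' * r')) := by
      rw [Real.sqrt_mul (show (0 : ℝ) ≤ (m : ℝ) * r by positivity) ((m' : ℝ) * r'), div_mul_div_comm]
    rw [e]
    linarith [mul_comm (∫ v, w v) (c * c' / Real.sqrt ((m : ℝ) * r * (m' * r')))]
  · rw [mul_zero, zero_add]
    by_cases hz : c = 0
    · rw [hz]
      simpa using hE
    by_cases hz' : c' = 0
    · rw [hz']
      simpa using hE
    -- sizes
    have hZ : ∀ k : ℕ, k ≤ Zd d T → (k : ℝ) ≤ T ^ d := fun k hk =>
      (Nat.le_floor_iff (by positivity)).1 hk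
    have hsize : ∀ {k j : ℕ}, 1 ≤ k → k ≤ Zd d T → 1 ≤ j →
        am h d T k * lam (1 + (Real.log k - Real.log j) / Real.log T) ≠ 0 →
        |am h d T k * lam (1 + (Real.log k - Real.log j) / Real.log T)| ≤ Ca * B ∧
          (j : ℝ) ≤ T ^ (d + 1 - x₀) := by
      intro k j hk hkZ hj hne
      have hkR : (0 : ℝ) < k := by exact_mod_cast hk
      have hjR : (0 : ℝ) < j := by exact_mod_cast hj
      have hlk : Real.log k ≤ d * Real.log T := by
        have := Real.log_le_log hkR (hZ k hkZ)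
        rwa [Real.log_rpow hT0] at this
      have hlj : 0 ≤ Real.log j := Real.log_nonneg (by exact_mod_cast hj)
      constructor
      · rw [abs_mul]
        refine mul_le_mul (ha k) (hl.bdd _ ?_) (abs_nonneg _) hCa.le
        have : (Real.log k - Real.log j) / Real.log T ≤ d := by
          rw [div_le_iff₀ hL]; linarith
        linarith
      · have h1 : x₀ < 1 + (Real.log k - Real.log j) / Real.log T := by
          by_contra hcon
          push Not at hcon
          exact hne (by rw [hl.zero _ hcon, mul_zero])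
        have h2 : (x₀ - 1) * Real.log T < Real.log k - Real.log j := by
          rw [← lt_div_iff₀ hL]; linarith
        have h3 : Real.log j ≤ (d + 1 - x₀) * Real.log T := by nlinarith
        rw [← Real.log_rpow hT0] at h3
        exact (Real.log_le_log_iff hjR (by positivity)).1 h3
    have s1 := hsize hm.1 hm.2 hr hz
    have s2 := hsize hm'.1 hm'.2 hr' hz'
    have hQ1 : ((m * r' : ℕ) : ℝ) ≤ T ^ (2 * d + 1 - x₀) := by
      push_cast
      calc (m : ℝ) * r' ≤ T ^ d * T ^ (d + 1 - x₀) :=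
            mul_le_mul (hZ m hm.2) s2.2 hrR'.le (by positivity)
        _ = T ^ (2 * d + 1 - x₀) := by
            rw [← Real.rpow_add hT0]; congr 1; ring
    have hQ2 : ((m' * r : ℕ) : ℝ) ≤ T ^ (2 * d + 1 - x₀) := by
      push_cast
      calc (m' : ℝ) * r ≤ T ^ d * T ^ (d + 1 - x₀) :=
            mul_le_mul (hZ m' hm'.2) s1.2 hrR.le (by positivity)
        _ = T ^ (2 * d + 1 - x₀) := by
            rw [← Real.rpow_add hT0]; congr 1; ring
    have hsep := log_sep (Nat.mul_pos (by omega) (by omega) : 1 ≤ m * r')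
      (Nat.mul_pos (by omega) (by omega) : 1 ≤ m' * r) heq hQ1 hQ2
    have hlogs : Real.log ((m * r' : ℕ) : ℝ) - Real.log ((m' * r : ℕ) : ℝ) =
        (Real.log m - Real.log r) - (Real.log m' - Real.log r') := by
      push_cast
      rw [Real.log_mul hmR.ne' hrR'.ne', Real.log_mul hmR'.ne' hrR.ne']
      ring
    rw [hlogs] at hsep
    set om := (Real.log m - Real.log r) - (Real.log m' - Real.log r') with hom
    have hTom : T ^ (x₀ - 2 * d) ≤ |T * om| := by
      rw [abs_mul, abs_of_pos hT0]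
      calc T ^ (x₀ - 2 * d) = T * (1 / T ^ (2 * d + 1 - x₀)) := by
            rw [one_div, ← Real.rpow_neg hT0.le]
            nth_rw 2 [← Real.rpow_one T]
            rw [← Real.rpow_add hT0]
            congr 1
            ring
        _ ≤ T * |om| := mul_le_mul_of_nonneg_left hsep hT0.le
    have hWb : |W w (T * om)| ≤ Ck * (2 * π) ^ (2 * K) / T ^ 5 := by
      refine (hW _).trans ?_
      have h1 : (T ^ (x₀ - 2 * d) / (2 * π)) ^ (2 * K) ≤ (1 + (T * om / (2 * π)) ^ 2) ^ K := by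
        rw [pow_mul]
        refine pow_le_pow_left₀ (by positivity) ?_ K
        have h2 : (T ^ (x₀ - 2 * d) / (2 * π)) ^ 2 ≤ (|T * om| / (2 * π)) ^ 2 := by
          gcongr
        have h3 : (|T * om| / (2 * π)) ^ 2 = (T * om / (2 * π)) ^ 2 := by
          rw [div_pow, div_pow, sq_abs]
        linarith
      have h4 : T ^ 5 / (2 * π) ^ (2 * K) ≤ (T ^ (x₀ - 2 * d) / (2 * π)) ^ (2 * K) := by
        rw [div_pow]
        refine div_le_div_of_nonneg_right ?_ (by positivity)
        rw [← Real.rpow_natCast (T ^ (x₀ - 2 * d)), ← Real.rpow_mul hT0.le,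
          ← Real.rpow_natCast T 5]
        apply Real.rpow_le_rpow_of_exponent_le hT.le
        push_cast
        linarith
      calc Ck / (1 + (T * om / (2 * π)) ^ 2) ^ K ≤ Ck / (T ^ 5 / (2 * π) ^ (2 * K)) :=
            div_le_div_of_nonneg_left hCk.le (by positivity) (h4.trans h1)
        _ = Ck * (2 * π) ^ (2 * K) / T ^ 5 := by
            rw [div_div_eq_mul_div]
    have hsq : ∀ {k j : ℕ}, 1 ≤ k → 1 ≤ j → 1 ≤ Real.sqrt ((k : ℝ) * j) := by
      intro k j hk hj
      rw [Real.one_le_sqrt]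
      exact one_le_mul_of_one_le_of_one_le (by exact_mod_cast hk) (by exact_mod_cast hj)
    have hb1 : |c / Real.sqrt ((m : ℝ) * r)| ≤ Ca * B := by
      rw [abs_div, abs_of_nonneg (Real.sqrt_nonneg _)]
      exact (div_le_self (abs_nonneg _) (hsq hm.1 hr)).trans s1.1
    have hb2 : |c' / Real.sqrt ((m' : ℝ) * r')| ≤ Ca * B := by
      rw [abs_div, abs_of_nonneg (Real.sqrt_nonneg _)]
      exact (div_le_self (abs_nonneg _) (hsq hm'.1 hr')).trans s2.1
    refine (le_abs_self _).trans ?_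
    rw [abs_mul, abs_mul, sq]
    exact mul_le_mul (mul_le_mul hb1 hb2 (abs_nonneg _) (by positivity)) hWb (abs_nonneg _)
      (by positivity)

end MsAux

open MsAux in
/-- The mean square of `V0` is the diagonal. -/
theorem ms_le {h : ℝ → ℝ} {x₀ d B η : ℝ} (hh : Hok h) (hd : 0 < d) (hdx : 2 * d < x₀)
    (hx1 : x₀ ≤ 1) (hB : 0 < B) (hη : 0 < η) (hη1 : η ≤ 1) :
    ∀ᶠ T : ℝ in atTop, ∀ lam : ℝ → ℝ, PB x₀ B lam →
      (1 / T) * (∫ t in (0 : ℝ)..T, ‖V0 h lam d T t‖ ^ 2) ≤ (1 + η) * Dg h lam d T + 3 / T := by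
  obtain ⟨Ca, hCa, ham⟩ := am_bdd hh hd
  obtain ⟨w, hw, hwi, hw0, -, hw1, hW1, hW2⟩ := exists_w hη hη1
  obtain ⟨K, hK⟩ := exists_nat_ge (5 / (2 * (x₀ - 2 * d)))
  have hK' : 5 ≤ 2 * K * (x₀ - 2 * d) := by
    rw [div_le_iff₀ (by linarith)] at hK
    linarith
  obtain ⟨Ck, hCk, hWb⟩ := W_bound hw hwi K
  have hpi := Real.pi_pos
  set M : ℝ := (Ca * B) ^ 2 * (Ck * (2 * π) ^ (2 * K)) with hM
  filter_upwards [ham, eventually_gt_atTop 1, eventually_ge_atTop M] with T ha hT hTM lam hl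
  have hT0 : 0 < T := by linarith
  set S := Finset.Icc 1 (Zd d T) ×ˢ Finset.Icc 1 ⌊T⌋₊ with hS
  set c : ℕ × ℕ → ℝ := fun p => am h d T p.1 *
    lam (1 + (Real.log p.1 - Real.log p.2) / Real.log T) / Real.sqrt ((p.1 : ℝ) * p.2) with hc
  set f : ℕ × ℕ → ℝ := fun p => Real.log p.1 - Real.log p.2 with hf
  have e1 : ∀ t : ℝ, ‖V0 h lam d T t‖ ^ 2 =
      ∑ p ∈ S, ∑ q ∈ S, c p * c q * Real.cos (t * (f p - f q)) := by
    intro t
    rw [V0_eq, ← norm_sq_trig]
  have h1 := mean_le S c f hwi hw0 hw1 hT0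
  have h2 : ∑ p ∈ S, ∑ q ∈ S, c p * c q * W w (T * (f p - f q)) ≤
      (∫ v, w v) * Dg h lam d T + 1 / T := by
    have h3 : ∀ p ∈ S, ∀ q ∈ S, c p * c q * W w (T * (f p - f q)) ≤
        (∫ v, w v) * (if p.1 * q.2 = q.1 * p.2 then
          (am h d T p.1 * lam (1 + (Real.log p.1 - Real.log p.2) / Real.log T)) *
          (am h d T q.1 * lam (1 + (Real.log q.1 - Real.log q.2) / Real.log T)) /
          Real.sqrt ((p.1 : ℝ) * p.2 * (q.1 * q.2)) else 0) +
          (Ca * B) ^ 2 * (Ck * (2 * π) ^ (2 * K) / T ^ 5) := by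
      intro p hp q hq
      rw [hS, Finset.mem_product] at hp hq
      exact pair_bound hd hdx hx1 hB hCa hCk hT hK' hl ha hWb hp.1
        (Finset.mem_Icc.1 hp.2).1 hq.1 (Finset.mem_Icc.1 hq.2).1
    have h4 : ∑ p ∈ S, ∑ q ∈ S, c p * c q * W w (T * (f p - f q)) ≤ _ :=
      Finset.sum_le_sum fun p hp => Finset.sum_le_sum fun q hq => h3 p hp q hq
    refine h4.trans ?_
    simp only [Finset.sum_add_distrib, ← Finset.mul_sum]
    refine add_le_add (le_of_eq ?_) ?_
    · congr 1
      rw [hS, Finset.sum_product, ← diag_quad hT hd (by linarith : d < x₀) hx1 hl.zero]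
      refine Finset.sum_congr rfl fun m _ => Finset.sum_congr rfl fun r _ => ?_
      rw [Finset.sum_product]
    · rw [Finset.sum_const, Finset.sum_const, nsmul_eq_mul, nsmul_eq_mul]
      have hcard : (S.card : ℝ) ≤ T ^ (d + 1) := by
        rw [hS, Finset.card_product, Nat.card_Icc, Nat.card_Icc, Nat.add_sub_cancel,
          Nat.add_sub_cancel]
        push_cast
        rw [Real.rpow_add hT0, Real.rpow_one]
        exact mul_le_mul (Nat.floor_le (by positivity)) (Nat.floor_le hT0.le) (by positivity)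
          (by positivity)
      have hcard2 : (S.card : ℝ) * S.card ≤ T ^ 3 := by
        calc (S.card : ℝ) * S.card ≤ T ^ (d + 1) * T ^ (d + 1) :=
              mul_le_mul hcard hcard (by positivity) (by positivity)
          _ = T ^ (2 * d + 2) := by rw [← Real.rpow_add hT0]; congr 1; ring
          _ ≤ T ^ (3 : ℝ) := Real.rpow_le_rpow_of_exponent_le hT.le (by linarith)
          _ = T ^ 3 := by
              rw [← Real.rpow_natCast]; norm_num
      calc (Ca * B) ^ 2 * ((S.card : ℝ) * (S.card * (Ck * (2 * π) ^ (2 * K) / T ^ 5)))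
          = (S.card * S.card) * (M / T ^ 5) := by rw [hM]; ring
        _ ≤ T ^ 3 * (M / T ^ 5) := mul_le_mul_of_nonneg_right hcard2 (by positivity)
        _ = M / T ^ 2 := by field_simp
        _ ≤ T / T ^ 2 := div_le_div_of_nonneg_right hTM (by positivity)
        _ = 1 / T := by field_simp
  have h5 : (1 / T) * (∫ t in (0 : ℝ)..T, ‖V0 h lam d T t‖ ^ 2) ≤
      (∫ v, w v) * Dg h lam d T + 1 / T := by
    rw [intervalIntegral.integral_congr (fun t _ => e1 t)]
    exact h1.trans h2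
  have h6 : 0 ≤ (1 / T) * (∫ t in (0 : ℝ)..T, ‖V0 h lam d T t‖ ^ 2) := by
    refine mul_nonneg (by positivity) (intervalIntegral.integral_nonneg hT0.le fun t _ => ?_)
    positivity
  have h7 : 3 / T = 3 * (1 / T) := by ring
  have h8 : 0 < 1 / T := by positivity
  rw [h7]
  rcases le_or_gt 0 (Dg h lam d T) with hD | hD
  · have : (∫ v, w v) * Dg h lam d T ≤ (1 + η) * Dg h lam d T :=
      mul_le_mul_of_nonneg_right hW2 hD
    linarith
  · have h9 : (∫ v, w v) * Dg h lam d T ≤ Dg h lam d T := by nlinarith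
    have h10 : -(1 / T) ≤ Dg h lam d T := by
      nlinarith
    nlinarith

end Pool.Agent.MP_67227b_nt.Fb
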