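import Pool.Agent.MP_67227b_nt.Fb.FbDg
import Pool.Agent.MP_67227b_nt.Fb.FbMs

set_option autoImplicit false

open Filter Topology Set MeasureTheory Complex
open scoped Real ContDiff ArithmeticFunction ArithmeticFunction.Moebius ComplexConjugate

namespace Pool.Agent.MP_67227b_nt.Fb

open Pool.Agent.Lib.ZetaCount_helper33 Pool.Agent.MP_67227b_nt Pool.Agent.MP_67227b_nt.Mo

private theorem ENU_kk {x₀ B : ℝ} {lam : ℝ → ℝ} (hl : PB x₀ B lam) {y : ℝ} (h0 : 0 ≤ y)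
    (h1 : y ≤ 1) : kk lam y ≤ 2 * B ^ 2 := by
  have h2 : ‖∫ x in (-1 : ℝ)..y, lam (1 + x) ^ 2‖ ≤ B ^ 2 * |y - (-1)| := by
    refine intervalIntegral.norm_integral_le_of_norm_le_const fun x hx => ?_
    rw [uIoc_of_le (by linarith)] at hx
    have h3 := hl.bdd (1 + x) (by linarith [hx.2])
    rw [Real.norm_eq_abs, abs_pow]
    exact pow_le_pow_left₀ (abs_nonneg _) h3 2
  unfold kk
  rw [Real.norm_eq_abs] at h2
  have h4 : |y - (-1)| ≤ 2 := by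
    rw [abs_of_nonneg (by linarith)]
    linarith
  calc _ ≤ |∫ x in (-1 : ℝ)..y, lam (1 + x) ^ 2| := le_abs_self _
    _ ≤ B ^ 2 * |y - (-1)| := h2
    _ ≤ B ^ 2 * 2 := mul_le_mul_of_nonneg_left h4 (sq_nonneg _)
    _ = 2 * B ^ 2 := by ring

private theorem ENU_mf (k : ℕ) : 0 ≤ mf k := by
  unfold mf
  positivity

private theorem ENU_bdd {h : ℝ → ℝ} {x₀ d B : ℝ} (hh : Hok h) (hd : 0 < d) (hdx : 2 * d < x₀)
    (hx1 : x₀ ≤ 1) (hB : 0 < B) :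
    ∃ C : ℝ, 0 < C ∧ ∀ᶠ T : ℝ in atTop, ∀ lam : ℝ → ℝ, PB x₀ B lam → Mn h lam d T ≤ C := by
  obtain ⟨C, hC, hM, hS⟩ := SS_le_LL hh hd
  obtain ⟨c, hc, hcL⟩ := LL_ge hh hd
  refine ⟨2 * B ^ 2 * C ^ 2 * C / c, by positivity, ?_⟩
  filter_upwards [hcL, eventually_gt_atTop 1] with T h1 hT
  intro lam hl
  have hL := Real.log_pos hT
  have hLL : 0 < LL h d T := lt_of_lt_of_le (by positivity) h1
  have h2 : ∑ k ∈ Finset.Icc 1 (Zd d T),
      mf k * (h (Real.log k / Real.log T) ^ 2 * kk lam (Real.log k / Real.log T)) ≤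
      C ^ 2 * (2 * B ^ 2) * SS d T := by
    unfold SS
    rw [Finset.mul_sum]
    refine Finset.sum_le_sum fun k hk => ?_
    obtain ⟨h3, h4⟩ := Zd_arg hd hT hk
    have h5 : h (Real.log k / Real.log T) ≤ C := hM _ ⟨h3, h4⟩
    have h6 := hh.pos (Real.log k / Real.log T)
    have h7 := ENU_kk hl h3 (by linarith : Real.log k / Real.log T ≤ 1)
    have h8 : h (Real.log k / Real.log T) ^ 2 ≤ C ^ 2 := pow_le_pow_left₀ h6.le h5 2
    have h9 : h (Real.log k / Real.log T) ^ 2 * kk lam (Real.log k / Real.log T) ≤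
        C ^ 2 * (2 * B ^ 2) :=
      (mul_le_mul_of_nonneg_left h7 (sq_nonneg _)).trans
        (mul_le_mul_of_nonneg_right h8 (by positivity))
    calc _ ≤ mf k * (C ^ 2 * (2 * B ^ 2)) := mul_le_mul_of_nonneg_left h9 (ENU_mf k)
      _ = _ := by ring
  have h3 : C ^ 2 * (2 * B ^ 2) * SS d T ≤ C ^ 2 * (2 * B ^ 2) * (C * LL h d T) :=
    mul_le_mul_of_nonneg_left (hS T hT) (by positivity)
  unfold Mn
  calc _ ≤ Real.log T / LL h d T ^ 2 * (C ^ 2 * (2 * B ^ 2) * (C * LL h d T)) :=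
        mul_le_mul_of_nonneg_left (h2.trans h3) (by positivity)
    _ = 2 * B ^ 2 * C ^ 2 * C * (Real.log T / LL h d T) := by
        field_simp
    _ ≤ 2 * B ^ 2 * C ^ 2 * C * (1 / c) := by
        refine mul_le_mul_of_nonneg_left ?_ (by positivity)
        rw [div_le_div_iff₀ hLL hc]
        linarith
    _ = 2 * B ^ 2 * C ^ 2 * C / c := by ring

/-- **Module enu** (3 theorems, about 120 lines). PROOF. `ms_le` (with `η/4`), `Dg_est`, `Mn_bdd`. -/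
theorem V0_le {h : ℝ → ℝ} {x₀ d B η : ℝ} (hh : Hok h) (hd : 0 < d) (hdx : 2 * d < x₀)
    (hx1 : x₀ ≤ 1) (hB : 0 < B) (hη : 0 < η) :
    ∀ᶠ T : ℝ in atTop, ∀ lam : ℝ → ℝ, PB x₀ B lam →
      (1 / T) * (∫ t in (0 : ℝ)..T, ‖V0 h lam d T t‖ ^ 2) ≤ Mn h lam d T + η := by
  obtain ⟨C₁, hC₁, hDg⟩ := Dg_est hh hd hdx hx1 hB
  obtain ⟨C₂, hC₂, hMn⟩ := ENU_bdd hh hd hdx hx1 hB
  obtain ⟨e, he0, he1, he2⟩ : ∃ e : ℝ, 0 < e ∧ e ≤ 1 ∧ e * C₂ ≤ η / 2 := by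
    refine ⟨min 1 (η / (2 * C₂)), lt_min one_pos (by positivity), min_le_left _ _, ?_⟩
    calc min 1 (η / (2 * C₂)) * C₂ ≤ η / (2 * C₂) * C₂ :=
          mul_le_mul_of_nonneg_right (min_le_right _ _) hC₂.le
      _ = η / 2 := by field_simp
  have hlim : Tendsto (fun T : ℝ => 2 * C₁ * (Real.log T)⁻¹ + 3 * T⁻¹) atTop (𝓝 0) := by
    have h1 := (tendsto_inv_atTop_zero.comp Real.tendsto_log_atTop).const_mul (2 * C₁)
    have h2 := (tendsto_inv_atTop_zero (𝕜 := ℝ)).const_mul 3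
    simpa using h1.add h2
  filter_upwards [ms_le hh hd hdx hx1 hB he0 he1, hDg, hMn, eventually_gt_atTop 1,
    hlim.eventually (eventually_le_nhds (half_pos hη))] with T h1 h2 h3 hT h4
  intro lam hl
  have hL := Real.log_pos hT
  have h5 := (abs_le.1 (h2 lam hl)).2
  have h6 := h3 lam hl
  have h7 := h1 lam hl
  have h8 : 0 ≤ C₁ / Real.log T := by positivity
  have h9 : (1 + e) * (Mn h lam d T + C₁ / Real.log T) ≤
      Mn h lam d T + η / 2 + 2 * (C₁ / Real.log T) := by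
    have h10 : e * Mn h lam d T ≤ η / 2 := (mul_le_mul_of_nonneg_left h6 he0.le).trans he2
    nlinarith
  have h11 : (1 + e) * Dg h lam d T ≤ (1 + e) * (Mn h lam d T + C₁ / Real.log T) :=
    mul_le_mul_of_nonneg_left (by linarith) (by linarith)
  have h12 : 2 * (C₁ / Real.log T) + 3 / T ≤ η / 2 := by
    calc 2 * (C₁ / Real.log T) + 3 / T = 2 * C₁ * (Real.log T)⁻¹ + 3 * T⁻¹ := by
          rw [div_eq_mul_inv, div_eq_mul_inv]
          ring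
      _ ≤ η / 2 := h4
  linarith

/-- PROOF. `0 ≤ kk lam y ≤ 2B²` for `0 ≤ y ≤ 1`, `h ≤ M` on `[0,d]` (`Zd_arg`), so
`Mn ≤ (L/LL²) 2B² M² SS`, `SS ≤ C LL` (`SS_le_LL`), `LL ≥ cL` (`LL_ge`). -/
theorem Mn_bdd {h : ℝ → ℝ} {x₀ d B : ℝ} (hh : Hok h) (hd : 0 < d) (hdx : 2 * d < x₀)
    (hx1 : x₀ ≤ 1) (hB : 0 < B) :
    ∃ C : ℝ, 0 < C ∧ ∀ᶠ T : ℝ in atTop, ∀ lam : ℝ → ℝ, PB x₀ B lam → Mn h lam d T ≤ C := by
  exact ENU_bdd hh hd hdx hx1 hB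

/-- PROOF. The two theorems above. -/
theorem V0_unif {h : ℝ → ℝ} {x₀ d B : ℝ} (hh : Hok h) (hd : 0 < d) (hdx : 2 * d < x₀)
    (hx1 : x₀ ≤ 1) (hB : 0 < B) :
    ∃ C : ℝ, 0 < C ∧ ∀ᶠ T : ℝ in atTop, ∀ lam : ℝ → ℝ, PB x₀ B lam →
      (∫ t in (0 : ℝ)..T, ‖V0 h lam d T t‖ ^ 2) ≤ C * T := by
  obtain ⟨C₂, hC₂, hMn⟩ := Mn_bdd hh hd hdx hx1 hB
  refine ⟨C₂ + 1, by positivity, ?_⟩
  filter_upwards [V0_le hh hd hdx hx1 hB one_pos, hMn, eventually_gt_atTop 1] with T h1 h2 hT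
  intro lam hl
  have h3 := h1 lam hl
  have h4 := h2 lam hl
  have hT0 : 0 < T := by linarith
  have h5 : (1 / T) * (∫ t in (0 : ℝ)..T, ‖V0 h lam d T t‖ ^ 2) ≤ C₂ + 1 := by linarith
  rw [one_div, inv_mul_le_iff₀ hT0] at h5
  linarith

end Pool.Agent.MP_67227b_nt.Fb
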