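import Pool.Agent.MP_67227b_nt.Fb.FbOne

set_option autoImplicit false

open Filter Topology Set MeasureTheory Complex
open scoped Real ContDiff ArithmeticFunction ArithmeticFunction.Moebius ComplexConjugate

namespace Pool.Agent.MP_67227b_nt.Fb

open Pool.Agent.Lib.ZetaCount_helper33 Pool.Agent.MP_67227b_nt Pool.Agent.MP_67227b_nt.Mo

private lemma hopt_mul {v : ℝ → ℝ} {x : ℝ} (hx : 0 ≤ x) :
    x ^ 2 / (∫ y in (0 : ℝ)..x, 1 / v y) = x * hopt v x := by
  rcases hx.eq_or_lt with h | h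
  · rw [← h]; simp
  · rw [hopt, if_neg (not_le.mpr h)]
    ring

private lemma J_eq {v : ℝ → ℝ} {d : ℝ} (hd : 0 ≤ d) :
    (∫ x in (0 : ℝ)..d, x ^ 2 / ∫ y in (0 : ℝ)..x, 1 / v y) = ∫ x in (0 : ℝ)..d, x * hopt v x := by
  apply intervalIntegral.integral_congr
  intro x hx
  rw [uIcc_of_le hd] at hx
  exact hopt_mul hx.1

/-- Module FIN (b). The theorem for positive continuous weights.

PROOF. Let `J(d) = ∫_0^d x²/V`, `H(d) = ∫_0^d hopt v`, `K(d) = ∫_0^d (hopt v)²`: continuous in `d`,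
positive for `d > 0` (`hopt_ok`; `x²/V = x·hopt v x` for `x > 0`). Given `d ≤ 1/2` and `ε > 0`, suppose
`ε < J(d)` (else the left side is `≤ 0` and `montF_nonneg` finishes). Use `one_choice` with
`d - η`, `e₁ = η`, `ε = η` for small `η > 0` and `d - η + η = d`. If `A_T = ∫_0^d F(1+x)v(x)dx <
J(d) - ε` the right side is less than
`R(η) = √(C+η) √(3η K/H² + η) + √(J(d)-ε+η) √((1+η) J(d-η)/H(d-η)² + η) + η`, which tends to
`√(J(d)-ε) √(J(d))/H(d) < J(d)/H(d)` as `η → 0+`, while the left side is `J(d-η)/H(d-η) → J(d)/H(d)`.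
So for a suitable `η` (fixed, depending on `ε`) this is a contradiction for all large `T`. -/
theorem final (hRH : RiemannHypothesis) {d : ℝ} (hd : 0 < d) (hd2 : d ≤ 1 / 2) {v : ℝ → ℝ}
    (hv : Hok v) {ε : ℝ} (hε : 0 < ε) :
    ∀ᶠ T : ℝ in atTop, (∫ x in (0 : ℝ)..d, x ^ 2 / ∫ y in (0 : ℝ)..x, 1 / v y) - ε ≤
      ∫ x in (0 : ℝ)..d, montF T (1 + x) * v x := by
  obtain ⟨C, hC0, hC⟩ := S_bdd hRH
  have hh := hopt_ok hv
  have hc1 : Continuous fun x : ℝ => x * hopt v x := continuous_id.mul hh.cont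
  have hc2 : Continuous fun x : ℝ => hopt v x ^ 2 := hh.cont.pow 2
  set J : ℝ → ℝ := fun a => ∫ x in (0 : ℝ)..a, x * hopt v x with hJ
  set H : ℝ → ℝ := fun a => ∫ x in (0 : ℝ)..a, hopt v x with hH
  set K : ℝ → ℝ := fun a => ∫ x in (0 : ℝ)..a, hopt v x ^ 2 with hK
  have hJc : Continuous J := intervalIntegral.continuous_primitive
    (fun a b => hc1.intervalIntegrable a b) 0
  have hHc : Continuous H := intervalIntegral.continuous_primitive
    (fun a b => hh.cont.intervalIntegrable a b) 0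
  have hKc : Continuous K := intervalIntegral.continuous_primitive
    (fun a b => hc2.intervalIntegrable a b) 0
  have hHd : 0 < H d := by
    apply intervalIntegral.intervalIntegral_pos_of_pos_on (hh.cont.intervalIntegrable 0 d)
      (fun x _ => hh.pos x) hd
  have hJd : 0 < J d := by
    apply intervalIntegral.intervalIntegral_pos_of_pos_on (hc1.intervalIntegrable 0 d)
      (fun x hx => mul_pos hx.1 (hh.pos x)) hd
  set R : ℝ → ℝ := fun η => Real.sqrt (C + η) * Real.sqrt ((3 * η) * K (d - η) / H (d - η) ^ 2 + η) +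
    Real.sqrt (J d - ε + η) * Real.sqrt ((1 + η) * J (d - η) / H (d - η) ^ 2 + η) + η with hR
  set Lf : ℝ → ℝ := fun η => J (d - η) / H (d - η) with hL
  have hH0 : H (d - 0) ≠ 0 := by rw [sub_zero]; exact hHd.ne'
  have hcH : ContinuousAt (fun η : ℝ => H (d - η)) 0 := by fun_prop
  have hcJ : ContinuousAt (fun η : ℝ => J (d - η)) 0 := by fun_prop
  have hcK : ContinuousAt (fun η : ℝ => K (d - η)) 0 := by fun_prop
  have hcR : ContinuousAt R 0 := by
    have e1 : ContinuousAt (fun η : ℝ => (3 * η) * K (d - η) / H (d - η) ^ 2 + η) 0 :=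
      (((continuousAt_const.mul continuousAt_id).mul hcK).div (hcH.pow 2)
        (pow_ne_zero 2 hH0)).add continuousAt_id
    have e2 : ContinuousAt (fun η : ℝ => (1 + η) * J (d - η) / H (d - η) ^ 2 + η) 0 :=
      (((continuousAt_const.add continuousAt_id).mul hcJ).div (hcH.pow 2)
        (pow_ne_zero 2 hH0)).add continuousAt_id
    have e3 : ContinuousAt (fun η : ℝ => C + η) 0 := continuousAt_const.add continuousAt_id
    have e4 : ContinuousAt (fun η : ℝ => J d - ε + η) 0 := continuousAt_const.add continuousAt_id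
    exact ((e3.sqrt.mul e1.sqrt).add (e4.sqrt.mul e2.sqrt)).add continuousAt_id
  have hcL : ContinuousAt Lf 0 := hcJ.div hcH hH0
  have h0 : R 0 < Lf 0 := by
    simp only [hR, hL, sub_zero, add_zero, mul_zero, zero_mul, zero_div, Real.sqrt_zero, zero_add,
      one_mul]
    rw [Real.sqrt_div' _ (by positivity), Real.sqrt_sq hHd.le, mul_div_assoc']
    apply div_lt_div_of_pos_right _ hHd
    have h1 : Real.sqrt (J d - ε) < Real.sqrt (J d) :=
      Real.sqrt_lt_sqrt_iff_of_pos hJd |>.mpr (by linarith)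
    calc Real.sqrt (J d - ε) * Real.sqrt (J d) < Real.sqrt (J d) * Real.sqrt (J d) :=
          mul_lt_mul_of_pos_right h1 (Real.sqrt_pos.mpr hJd)
      _ = J d := Real.mul_self_sqrt hJd.le
  have hev : ∀ᶠ η : ℝ in 𝓝 0, R η < Lf η := hcR.eventually_lt hcL h0
  have hev2 : ∀ᶠ η : ℝ in 𝓝 0, η < min d (1 / 20) :=
    eventually_lt_nhds (lt_min hd (by norm_num))
  obtain ⟨η, ⟨hη1, hη2⟩, hη0⟩ : ∃ η : ℝ, (R η < Lf η ∧ η < min d (1 / 20)) ∧ 0 < η := by
    have h3 : ∀ᶠ η : ℝ in 𝓝[>] 0, R η < Lf η ∧ η < min d (1 / 20) :=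
      (hev.and hev2).filter_mono nhdsWithin_le_nhds
    obtain ⟨η, h4⟩ := (h3.and self_mem_nhdsWithin).exists
    exact ⟨η, h4.1, h4.2⟩
  have hηd : η < d := hη2.trans_le (min_le_left _ _)
  have hη20 : η < 1 / 20 := hη2.trans_le (min_le_right _ _)
  have hone := one_choice hRH hv hC (d := d - η) (e₁ := η) (ε := η) (by linarith) hη0 hη20.le
    (by linarith) hη0
  rw [sub_add_cancel] at hone
  rw [J_eq hd.le]
  filter_upwards [hone] with T hT
  rw [J_eq (by linarith : (0 : ℝ) ≤ d - η)] at hT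
  by_contra hcon
  push Not at hcon
  have h5 : (∫ x in (0 : ℝ)..d, montF T (1 + x) * v x) + η ≤ J d - ε + η := by
    linarith
  have h6 := Real.sqrt_le_sqrt h5
  have h7 : Lf η ≤ R η := by
    refine hT.trans ?_
    simp only [hR]
    gcongr
  exact absurd hη1 (not_lt.mpr h7)

end Pool.Agent.MP_67227b_nt.Fb
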