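import Pool.Agent.MP_67227b_nt.Fb.FbDefs

set_option autoImplicit false

open Filter Topology Set MeasureTheory Complex
open scoped Real ContDiff ArithmeticFunction ArithmeticFunction.Moebius ComplexConjugate

namespace Pool.Agent.MP_67227b_nt.Fb

open Pool.Agent.Lib.ZetaCount_helper33 Pool.Agent.MP_67227b_nt Pool.Agent.MP_67227b_nt.Mo

/-- The sum over the zeros well inside the range. -/
noncomputable def innerSum (T : ℝ) (g : ℝ → ℂ) : ℂ :=
  ∑ j ∈ PT goodFamily_zeta T with T1 T + T ^ (1 / 4 : ℝ) ≤ zetaOrdinate j ∧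
    zetaOrdinate j ≤ T2 T - T ^ (1 / 4 : ℝ), g (zetaOrdinate j)

theorem innerSum_add (T : ℝ) (f g : ℝ → ℂ) :
    innerSum T (fun x => f x + g x) = innerSum T f + innerSum T g := by
  simp only [innerSum, Finset.sum_add_distrib]

/-- Module INNER (a): `|PT| ≤ 2 zeroScale` for `T` large, from `goodFamily_zeta.count` (as in
`ED92.eventually_card`). -/
theorem norm_innerSum_le : ∀ᶠ T : ℝ in atTop, ∀ (g : ℝ → ℂ) (B : ℝ), 0 ≤ B →
    (∀ γ : ℝ, T1 T + T ^ (1 / 4 : ℝ) ≤ γ → γ ≤ T2 T - T ^ (1 / 4 : ℝ) →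
      (∃ u : Zer, ord u = γ) → ‖g γ‖ ≤ B) →
    ‖innerSum T g‖ ≤ 2 * B * zeroScale T := by
  have h := goodFamily_zeta.count
  have h1 : ∀ᶠ T : ℝ in atTop, ({j | zetaOrdinate j ≤ T}.ncard : ℝ) / zeroScale T < 2 :=
    h.eventually_lt_const (by norm_num)
  filter_upwards [h1, eventually_gt_atTop 1] with T hT hT1 g B hB hg
  have hz := zeroScale_pos hT1
  rw [div_lt_iff₀ hz, ← card_PT goodFamily_zeta] at hT
  unfold innerSum
  refine (norm_sum_le _ _).trans ?_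
  calc _ ≤ ∑ j ∈ PT goodFamily_zeta T with T1 T + T ^ (1 / 4 : ℝ) ≤ zetaOrdinate j ∧
        zetaOrdinate j ≤ T2 T - T ^ (1 / 4 : ℝ), B := by
        refine Finset.sum_le_sum fun j hj => ?_
        rw [Finset.mem_filter] at hj
        refine hg _ hj.2.1 hj.2.2 ⟨⟨j.1.1, (xi_eq_zero_iff (ne_of_gt j.2.2.1)).mpr j.2.1⟩, rfl⟩
    _ ≤ ∑ j ∈ PT goodFamily_zeta T, B :=
        Finset.sum_le_sum_of_subset_of_nonneg (Finset.filter_subset _ _) fun _ _ _ => hB
    _ = (PT goodFamily_zeta T).card * B := by rw [Finset.sum_const, nsmul_eq_mul]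
    _ ≤ _ := by nlinarith

open ED92 in
private theorem inner_aux (hRH : RiemannHypothesis) {C L T t M : ℝ} {η : ℝ → ℂ} (hC : 0 < C)
    (hB : ∀ x : ℝ, ‖gs η (x : ℂ)‖ ≤ C / (1 + x ^ 2) ^ 3) (hL : 2 * π ≤ L)
    (P : ℝ → Prop) [DecidablePred P] (hP : ∀ γ, P γ → 0 < γ ∧ γ ≤ T) (hM : 0 < M)
    (h : ∀ γ, ¬ P γ → M ≤ (1 + (t - γ) ^ 2) ^ 2) :
    ‖SZ L η t - ∑ j ∈ PT goodFamily_zeta T with P (zetaOrdinate j),
      gs η (((zetaOrdinate j - t) * L / (2 * π) : ℝ) : ℂ)‖ ≤ C / M * wZ t := by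
  have hpi := Real.pi_pos
  have hx : ∀ γ : ℝ, (t - γ) ^ 2 ≤ ((γ - t) * L / (2 * π)) ^ 2 := by
    intro γ
    have h1 : 1 ≤ L / (2 * π) := by rw [le_div_iff₀ (by positivity)]; linarith
    rw [mul_div_assoc, mul_pow, show (t - γ) ^ 2 = (γ - t) ^ 2 by ring]
    exact le_mul_of_one_le_right (sq_nonneg _) (one_le_pow₀ h1)
  have hK : ∀ γ : ℝ, ‖gs η (((γ - t) * L / (2 * π) : ℝ) : ℂ)‖ ≤ C / (1 + (t - γ) ^ 2) ^ 3 := by
    intro γ
    refine (hB _).trans ?_
    exact div_le_div_of_nonneg_left hC.le (by positivity)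
      (pow_le_pow_left₀ (by positivity) (by linarith [hx γ]) 3)
  have hK1 : ∀ γ : ℝ, ‖gs η (((γ - t) * L / (2 * π) : ℝ) : ℂ)‖ ≤ C * (1 / (1 + (t - γ) ^ 2)) := by
    intro γ
    refine (hK γ).trans ?_
    rw [mul_one_div]
    exact div_le_div_of_nonneg_left hC.le (by positivity)
      (le_self_pow₀ (by nlinarith [sq_nonneg (t - γ)]) (by norm_num))
  have hs := summable_zer hRH t
  have hsum1 : Summable fun u : Zer => (mu u : ℂ) * gs η (((ord u - t) * L / (2 * π) : ℝ) : ℂ) := by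
    refine Summable.of_norm_bounded (hs.mul_left C) fun u => ?_
    rw [norm_mu_mul]
    refine (mul_le_mul_of_nonneg_left (hK1 _) (ED92.mu_nonneg u)).trans (le_of_eq ?_)
    ring
  have hsum2 : Summable fun u : Zer => (mu u : ℂ) *
      (if P (ord u) then gs η (((ord u - t) * L / (2 * π) : ℝ) : ℂ) else 0) := by
    refine Summable.of_norm_bounded (hs.mul_left C) fun u => ?_
    rw [norm_mu_mul]
    split_ifs
    · refine (mul_le_mul_of_nonneg_left (hK1 _) (ED92.mu_nonneg u)).trans (le_of_eq ?_)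
      ring
    · rw [norm_zero, mul_zero]
      exact mul_nonneg hC.le (mu_div_nonneg t u)
  have e1 : (∑ j ∈ PT goodFamily_zeta T with P (zetaOrdinate j),
      gs η (((zetaOrdinate j - t) * L / (2 * π) : ℝ) : ℂ)) = ∑' u : Zer, (mu u : ℂ) *
      (if P (ord u) then gs η (((ord u - t) * L / (2 * π) : ℝ) : ℂ) else 0) := by
    rw [Finset.sum_filter, sum_PT_eq T (fun γ => if P γ then
      gs η (((γ - t) * L / (2 * π) : ℝ) : ℂ) else 0)]
    congr 1
    ext u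
    congr 1
    by_cases hp : P (ord u)
    · rw [if_pos (hP _ hp)]
    · rw [if_neg hp]; simp
  rw [e1]
  unfold SZ
  rw [← hsum1.tsum_sub hsum2]
  have hb : ∀ u : Zer, ‖(mu u : ℂ) * gs η (((ord u - t) * L / (2 * π) : ℝ) : ℂ) - (mu u : ℂ) *
      (if P (ord u) then gs η (((ord u - t) * L / (2 * π) : ℝ) : ℂ) else 0)‖ ≤
      C / M * (mu u / (1 + (t - ord u) ^ 2)) := by
    intro u
    by_cases hp : P (ord u)
    · rw [if_pos hp, sub_self, norm_zero]
      exact mul_nonneg (by positivity) (mu_div_nonneg t u)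
    · rw [if_neg hp, mul_zero, sub_zero, norm_mu_mul]
      have h1 := h _ hp
      calc mu u * ‖gs η (((ord u - t) * L / (2 * π) : ℝ) : ℂ)‖
          ≤ mu u * (C / (1 + (t - ord u) ^ 2) ^ 3) :=
            mul_le_mul_of_nonneg_left (hK _) (ED92.mu_nonneg u)
        _ ≤ mu u * (C / (M * (1 + (t - ord u) ^ 2))) := by
            apply mul_le_mul_of_nonneg_left _ (ED92.mu_nonneg u)
            apply div_le_div_of_nonneg_left hC.le (by positivity)
            rw [show (1 + (t - ord u) ^ 2) ^ 3 = (1 + (t - ord u) ^ 2) ^ 2 * (1 + (t - ord u) ^ 2) by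
              ring]
            exact mul_le_mul_of_nonneg_right h1 (by positivity)
        _ = _ := by field_simp
  refine (tsum_of_norm_bounded (hs.mul_left (C / M)).hasSum hb).trans (le_of_eq ?_)
  rw [tsum_mul_left, wZ]

/-- Module INNER (b): the statistic `SZ` without the inner zeros is small inside.

PROOF. Let `S_in(t) = innerSum T (fun γ => gs ψ((γ-t)L/(2π)))`. By `sum_PT_eq T G` with
`G γ = if inner γ then gs.. else 0` (`Finset.sum_filter`; inner `γ` are in `(0,T]`, as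
`0 < T1 T` and `T2 T ≤ T`), `S_in(t) = ∑'_u mu u · 1_inner(ord u) gs ψ((ord u - t)L/2π)`, so
`SZ - S_in = ∑'_u mu u · 1_notinner(ord u) · gs ψ(..)`. With `Mo.gs_real_bound hδ hψ 3`:
`‖gs ψ x‖ ≤ C/(1+x²)³ ≤ C/(1+(t-ord u)²)³` (`L ≥ 2π`). For all `t`: the norm is
`≤ C ∑' mu u/(1+(t-ord u)²) ≤ C' log(|t|+3)` (`exists_density`, `summable_zer`). If
`T1 + 2T^(1/4) ≤ t ≤ T2 - 2T^(1/4)`, every zero which is not inner has `|t - ord u| ≥ T^(1/4)`,
so `(1+(t-ord u)²)^{-3} ≤ T^{-1} (1+(t-ord u)²)^{-1}` and the norm is `≤ C' log(|t|+3)/T`. -/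
theorem rest_bound (hRH : RiemannHypothesis) {ψ : ℝ → ℝ} {δ : ℝ} (hδ : 0 ≤ δ)
    (hψ : Bump δ (cf ψ)) :
    ∃ C : ℝ, 0 < C ∧ ∀ᶠ T : ℝ in atTop, ∀ t ∈ Icc (T1 T) (T2 T),
      ‖SZ (Real.log T) (cf ψ) t - innerSum T (fun γ =>
        gs (cf ψ) (((γ - t) * Real.log T / (2 * π) : ℝ) : ℂ))‖ ≤ C * Real.log T ∧
      (T1 T + 2 * T ^ (1 / 4 : ℝ) ≤ t → t ≤ T2 T - 2 * T ^ (1 / 4 : ℝ) →
        ‖SZ (Real.log T) (cf ψ) t - innerSum T (fun γ =>
          gs (cf ψ) (((γ - t) * Real.log T / (2 * π) : ℝ) : ℂ))‖ ≤ C * Real.log T / T) := by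
  obtain ⟨C, hC, hB⟩ := gs_real_bound hδ hψ 3
  obtain ⟨D, hD, hZ⟩ := ED92.exists_wZ hRH
  refine ⟨C * D * 2, by positivity, ?_⟩
  filter_upwards [Real.tendsto_log_atTop.eventually_ge_atTop (2 * π), eventually_gt_atTop 3]
    with T hL hT3 t ht
  have hT0 : 0 < T := by linarith
  have hL0 : 0 < Real.log T := Real.log_pos (by linarith)
  have hlog3 : Real.log (T + 3) ≤ 2 * Real.log T := by
    rw [← Real.log_rpow hT0]
    apply Real.log_le_log (by linarith)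
    have : T ^ (2 : ℝ) = T ^ 2 := by exact_mod_cast Real.rpow_natCast T 2
    rw [this]
    nlinarith
  have hT1 : 0 < T1 T := div_pos hT0 hL0
  have hT2 : T2 T ≤ T := by
    unfold T2
    linarith [Real.rpow_nonneg hT0.le (3 / 4 : ℝ)]
  have hq : 0 < T ^ (1 / 4 : ℝ) := Real.rpow_pos_of_pos hT0 _
  have hw : ED92.wZ t ≤ D * (2 * Real.log T) :=
    (hZ T t (hT1.le.trans ht.1) (ht.2.trans hT2)).trans (mul_le_mul_of_nonneg_left hlog3 hD.le)
  have hP : ∀ γ, (T1 T + T ^ (1 / 4 : ℝ) ≤ γ ∧ γ ≤ T2 T - T ^ (1 / 4 : ℝ)) → 0 < γ ∧ γ ≤ T := by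
    rintro γ ⟨h1, h2⟩
    constructor <;> linarith
  constructor
  · have h1 := inner_aux hRH (t := t) (M := 1) hC hB hL
      (fun γ => T1 T + T ^ (1 / 4 : ℝ) ≤ γ ∧ γ ≤ T2 T - T ^ (1 / 4 : ℝ)) hP one_pos
      (fun γ _ => one_le_pow₀ (by nlinarith [sq_nonneg (t - γ)]))
    refine h1.trans ?_
    rw [div_one]
    calc C * ED92.wZ t ≤ C * (D * (2 * Real.log T)) := mul_le_mul_of_nonneg_left hw hC.le
      _ = _ := by ring
  · intro ht1 ht2
    have h1 := inner_aux hRH (t := t) (M := T) hC hB hL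
      (fun γ => T1 T + T ^ (1 / 4 : ℝ) ≤ γ ∧ γ ≤ T2 T - T ^ (1 / 4 : ℝ)) hP hT0
      (fun γ hγ => ?_)
    · refine h1.trans ?_
      calc C / T * ED92.wZ t ≤ C / T * (D * (2 * Real.log T)) :=
            mul_le_mul_of_nonneg_left hw (by positivity)
        _ = _ := by ring
    · have h4 : (T ^ (1 / 4 : ℝ)) ^ 2 ≤ (t - γ) ^ 2 := by
        rw [not_and_or, not_le, not_le] at hγ
        rcases hγ with h | h
        · exact pow_le_pow_left₀ hq.le (by linarith) 2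
        · rw [show (t - γ) ^ 2 = (γ - t) ^ 2 by ring]
          exact pow_le_pow_left₀ hq.le (by linarith) 2
      have h5 : T = ((T ^ (1 / 4 : ℝ)) ^ 2) ^ 2 := by
        rw [← pow_mul, ← Real.rpow_natCast, ← Real.rpow_mul hT0.le]
        norm_num
      rw [h5]
      exact pow_le_pow_left₀ (by positivity) (by linarith) 2

end Pool.Agent.MP_67227b_nt.Fb
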