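import Pool.Agent.MP_67227b_nt.Fb.FbArDefs

set_option autoImplicit false

open Filter Topology Set MeasureTheory Complex
open scoped Real ContDiff ArithmeticFunction ArithmeticFunction.Moebius ComplexConjugate

namespace Pool.Agent.MP_67227b_nt.Fb

open Pool.Agent.Lib.ZetaCount_helper33 Pool.Agent.MP_67227b_nt Pool.Agent.MP_67227b_nt.Mo

namespace kg

variable {x₀ B : ℝ} {lam : ℝ → ℝ}

private theorem mu_bdd (hl : PB x₀ B lam) (x : ℝ) : |lam (min x 2)| ≤ B :=
  hl.bdd _ (min_le_right _ _)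

private theorem mu_lip (hB : 0 < B) (hl : PB x₀ B lam) (x y : ℝ) :
    |lam (min x 2) - lam (min y 2)| ≤ B * |x - y| := by
  refine (hl.lip _ _ (min_le_right _ _) (min_le_right _ _)).trans ?_
  refine mul_le_mul_of_nonneg_left ?_ hB.le
  have := abs_min_sub_min_le_max x 2 y 2
  simpa using this

private theorem mu_cont (hB : 0 < B) (hl : PB x₀ B lam) : Continuous fun x : ℝ => lam (min x 2) := by
  have h : LipschitzWith ⟨B, hB.le⟩ fun x : ℝ => lam (min x 2) :=
    LipschitzWith.of_dist_le_mul fun x y => by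
      rw [Real.dist_eq, Real.dist_eq]
      exact mu_lip hB hl x y
  exact h.continuous

private theorem mu_zero (hx1 : x₀ ≤ 1) (hl : PB x₀ B lam) {x : ℝ} (hx : x ≤ x₀) :
    lam (min x 2) = 0 := by
  rw [min_eq_left (by linarith)]
  exact hl.zero x hx

/-- the square of the truncated profile -/
private noncomputable def G (lam : ℝ → ℝ) (x : ℝ) : ℝ := lam (min (1 + x) 2) ^ 2

private theorem G_cont (hB : 0 < B) (hl : PB x₀ B lam) : Continuous (G lam) :=
  ((mu_cont hB hl).comp (continuous_const.add continuous_id)).pow 2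

private theorem G_le (hl : PB x₀ B lam) (x : ℝ) : |G lam x| ≤ B ^ 2 := by
  unfold G
  rw [abs_pow]
  exact pow_le_pow_left₀ (abs_nonneg _) (mu_bdd hl _) 2

private theorem G_lip (hB : 0 < B) (hl : PB x₀ B lam) (x y : ℝ) :
    |G lam x - G lam y| ≤ 2 * B ^ 2 * |x - y| := by
  unfold G
  have h1 : lam (min (1 + x) 2) ^ 2 - lam (min (1 + y) 2) ^ 2 =
      (lam (min (1 + x) 2) - lam (min (1 + y) 2)) *
        (lam (min (1 + x) 2) + lam (min (1 + y) 2)) := by ring
  rw [h1, abs_mul]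
  have h2 := mu_lip hB hl (1 + x) (1 + y)
  have h3 : (1 + x) - (1 + y) = x - y := by ring
  rw [h3] at h2
  have h4 : |lam (min (1 + x) 2) + lam (min (1 + y) 2)| ≤ 2 * B := by
    refine (abs_add_le _ _).trans ?_
    have := mu_bdd hl (1 + x)
    have := mu_bdd hl (1 + y)
    linarith
  calc |lam (min (1 + x) 2) - lam (min (1 + y) 2)| * |lam (min (1 + x) 2) + lam (min (1 + y) 2)|
      ≤ (B * |x - y|) * (2 * B) := mul_le_mul h2 h4 (abs_nonneg _) (by positivity)
    _ = 2 * B ^ 2 * |x - y| := by ring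

private noncomputable def Φ (lam : ℝ → ℝ) (y : ℝ) : ℝ := ∫ x in (-1 : ℝ)..y, G lam x

private theorem Φ_deriv (hB : 0 < B) (hl : PB x₀ B lam) (y : ℝ) :
    HasDerivAt (Φ lam) (G lam y) y :=
  intervalIntegral.integral_hasDerivAt_right ((G_cont hB hl).intervalIntegrable _ _)
    ((G_cont hB hl).stronglyMeasurableAtFilter _ _) (G_cont hB hl).continuousAt

/-- the primitive of `G((a - log u)/L)/u` -/
private noncomputable def Ψ (lam : ℝ → ℝ) (L a u : ℝ) : ℝ := -(L * Φ lam ((a - Real.log u) / L))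

private theorem Ψ_deriv (hB : 0 < B) (hl : PB x₀ B lam) {L a u : ℝ} (hL : 0 < L) (hu : 0 < u) :
    HasDerivAt (Ψ lam L a) (G lam ((a - Real.log u) / L) / u) u := by
  have h1 : HasDerivAt (fun u : ℝ => (a - Real.log u) / L) (-(1 / u) / L) u := by
    have := ((Real.hasDerivAt_log hu.ne').const_sub a).div_const L
    simpa [one_div] using this
  have h2 := (Φ_deriv hB hl ((a - Real.log u) / L)).comp u h1
  have h3 := (h2.const_mul L).neg
  refine h3.congr_deriv ?_
  field_simp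

private theorem step (hB : 0 < B) (hl : PB x₀ B lam) {L a : ℝ} (hL : 1 ≤ L) {k : ℕ} (hk : 1 ≤ k) :
    |G lam ((a - Real.log k) / L) / k - (Ψ lam L a (k + 1 : ℕ) - Ψ lam L a k)| ≤
      5 * B ^ 2 * (1 / (k : ℝ) - 1 / ((k + 1 : ℕ) : ℝ)) := by
  have hk0 : (1 : ℝ) ≤ k := by exact_mod_cast hk
  have hkpos : (0 : ℝ) < k := by linarith
  have hL0 : 0 < L := by linarith
  have key := norm_image_sub_le_of_norm_deriv_le_segment' (a := (k : ℝ)) (b := (k : ℝ) + 1)
    (f := fun u => Ψ lam L a u - u * (G lam ((a - Real.log k) / L) / k))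
    (f' := fun u => G lam ((a - Real.log u) / L) / u - 1 * (G lam ((a - Real.log k) / L) / k))
    (C := 5 * B ^ 2 * (1 / (k : ℝ) - 1 / ((k + 1 : ℕ) : ℝ))) ?_ ?_ ((k : ℝ) + 1)
    (right_mem_Icc.2 (by linarith))
  · rw [Real.norm_eq_abs, add_sub_cancel_left, mul_one] at key
    rw [abs_sub_comm]
    convert key using 2
    push_cast
    ring
  · intro u hu
    have hu0 : 0 < u := by linarith [hu.1]
    exact ((Ψ_deriv hB hl hL0 hu0).sub ((hasDerivAt_id u).mul_const _)).hasDerivWithinAt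
  · intro u hu
    have hu0 : 0 < u := by linarith [hu.1]
    rw [Real.norm_eq_abs, one_mul]
    have hlog : |Real.log u - Real.log k| ≤ 1 / k := by
      rw [abs_of_nonneg (sub_nonneg.2 (Real.log_le_log hkpos hu.1)), ← Real.log_div hu0.ne' hkpos.ne']
      refine (Real.log_le_sub_one_of_pos (by positivity)).trans ?_
      rw [div_sub_one hkpos.ne']
      exact div_le_div_of_nonneg_right (by linarith [hu.2]) hkpos.le
    have h1 : |G lam ((a - Real.log u) / L) - G lam ((a - Real.log k) / L)| ≤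
        2 * B ^ 2 * (1 / k) := by
      refine (G_lip hB hl _ _).trans (mul_le_mul_of_nonneg_left ?_ (by positivity))
      have h2 : (a - Real.log u) / L - (a - Real.log k) / L =
          -((Real.log u - Real.log k) / L) := by ring
      rw [h2, abs_neg, abs_div, abs_of_pos hL0]
      refine le_trans ?_ hlog
      exact div_le_self (abs_nonneg _) hL
    have h3 := G_le hl ((a - Real.log k) / L)
    have h4 : G lam ((a - Real.log u) / L) / u - G lam ((a - Real.log k) / L) / k =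
        (G lam ((a - Real.log u) / L) - G lam ((a - Real.log k) / L)) / u +
          -(G lam ((a - Real.log k) / L) * (1 / k - 1 / u)) := by
      field_simp
      ring
    rw [h4]
    refine (abs_add_le _ _).trans ?_
    rw [abs_neg, abs_div, abs_of_pos hu0, abs_mul]
    have h5 : 1 / u ≤ 1 / (k : ℝ) := one_div_le_one_div_of_le hkpos hu.1
    have h6 : 1 / ((k : ℝ) + 1) ≤ 1 / u := one_div_le_one_div_of_le hu0 hu.2.le
    have h7 : |1 / (k : ℝ) - 1 / u| ≤ 1 / (k : ℝ) - 1 / ((k : ℝ) + 1) := by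
      rw [abs_of_nonneg (by linarith)]
      linarith
    have h8 : |G lam ((a - Real.log u) / L) - G lam ((a - Real.log k) / L)| / u ≤
        2 * B ^ 2 * (1 / k) * (1 / k) := by
      rw [div_eq_mul_one_div]
      exact mul_le_mul h1 h5 (by positivity) (by positivity)
    have h9 : |G lam ((a - Real.log k) / L)| * |1 / (k : ℝ) - 1 / u| ≤
        B ^ 2 * (1 / (k : ℝ) - 1 / ((k : ℝ) + 1)) :=
      mul_le_mul h3 h7 (abs_nonneg _) (by positivity)
    have h10 : (1 / (k : ℝ)) * (1 / k) ≤ 2 * (1 / (k : ℝ) - 1 / ((k : ℝ) + 1)) := by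
      have e1 : 1 / (k : ℝ) - 1 / ((k : ℝ) + 1) = 1 / (k * (k + 1)) := by
        field_simp
        ring
      have e2 : (1 / (k : ℝ)) * (1 / k) = 1 / (k * k) := by
        field_simp
      rw [e1, e2, mul_one_div, div_le_div_iff₀ (by positivity) (by positivity)]
      nlinarith
    push_cast
    nlinarith [mul_le_mul_of_nonneg_left h10 (show 0 ≤ 2 * B ^ 2 by positivity)]

private theorem sum_tel (N : ℕ) (f : ℕ → ℝ) :
    ∑ k ∈ Finset.Icc 1 N, (f (k + 1) - f k) = f (N + 1) - f 1 := by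
  induction N with
  | zero => simp
  | succ N ih =>
    rw [Finset.sum_Icc_succ_top (by omega), ih]
    ring

end kg

/-- **Module kg** (about 130 lines). The inner sum is an integral.

PROOF. Fix `T` large, `1 ≤ g ≤ Z`, `L = log T`, and put `F(u) = λ(1 + (log g - log u)/L)²` for `u ≥ 1`; its
arguments are `≤ 1 + d ≤ 2` (`d < x₀ ≤ 1`), so `|F| ≤ B²`, and for `u, u' ∈ [k, k+1]`:
`|F(u) - F(u')| ≤ 2B² |log u - log u'|/L ≤ 2B²/k` (`L ≥ 1`). So
`|F(k)/k - ∫_k^{k+1} F(u) du/u| ≤ 2B²/k² + B² (1/k - 1/(k+1)) ≤ 3B²/k²`; sum over `k ≤ N = ⌊T⌋`: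
`|Kg - ∫_1^{N+1} F(u) du/u| ≤ 3B² ∑ 1/k² ≤ 6B²`. Substituting `x = (log g - log u)/L`
(`du/u = - L dx`): `∫_1^{N+1} F du/u = L ∫_{x₁}^{log g/L} λ(1+x)² dx` with
`x₁ = (log g - log(N+1))/L ≤ (log g)/L - 1 ≤ d - 1` (`N + 1 ≥ T`), and `λ(1+x) = 0` for
`x ≤ x₀ - 1`; as `-1 ≤ x₀ - 1` and `x₁ ≤ d - 1 < x₀ - 1` both integrals over `[-1, log g/L]` and
`[x₁, log g/L]` equal the one over `[x₀ - 1, log g/L]`. -/
theorem Kg_est {x₀ d B : ℝ} (hd : 0 < d) (hdx : d < x₀) (hx1 : x₀ ≤ 1) (hB : 0 < B) :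
    ∀ᶠ T : ℝ in atTop, ∀ lam : ℝ → ℝ, PB x₀ B lam → ∀ g ∈ Finset.Icc 1 (Zd d T),
      |Kg lam T g - Real.log T * kk lam (Real.log g / Real.log T)| ≤ 6 * B ^ 2 := by
  filter_upwards [eventually_ge_atTop (Real.exp 1)] with T hT lam hl g hg
  have he : 1 < Real.exp 1 := by
    have := Real.add_one_lt_exp (x := 1) one_ne_zero
    linarith
  have hT1 : 1 < T := he.trans_le hT
  have hT0 : 0 < T := by linarith
  set L := Real.log T with hLdef
  have hL : 1 ≤ L := by
    rw [hLdef, Real.le_log_iff_exp_le hT0]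
    exact hT
  have hL0 : 0 < L := by linarith
  obtain ⟨hg1, hg2⟩ := Finset.mem_Icc.1 hg
  have hg1' : (1 : ℝ) ≤ g := by exact_mod_cast hg1
  have hlg0 : 0 ≤ Real.log g := Real.log_nonneg hg1'
  have hlg : Real.log g / L ≤ d := by
    rw [div_le_iff₀ hL0, hLdef, ← Real.log_rpow hT0]
    refine Real.log_le_log (by linarith) ?_
    have h3 : (g : ℝ) ≤ (⌊T ^ d⌋₊ : ℝ) := by exact_mod_cast hg2
    exact h3.trans (Nat.floor_le (by positivity))
  set a := Real.log g with ha
  -- the sum in terms of `G`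
  have h1 : Kg lam T g = ∑ k ∈ Finset.Icc 1 ⌊T⌋₊, kg.G lam ((a - Real.log k) / L) / k := by
    unfold Kg kg.G
    refine Finset.sum_congr rfl fun k hk => ?_
    have hk1 : (1 : ℝ) ≤ k := by exact_mod_cast (Finset.mem_Icc.1 hk).1
    have h2 : 1 + (a - Real.log k) / L ≤ 2 := by
      have h3 : (a - Real.log k) / L ≤ a / L :=
        div_le_div_of_nonneg_right (by linarith [Real.log_nonneg hk1]) hL0.le
      linarith
    rw [min_eq_left h2]
  have h2 : L * kk lam (a / L) = kg.Ψ lam L a ((⌊T⌋₊ + 1 : ℕ)) - kg.Ψ lam L a ((1 : ℕ)) := by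
    have h3 : kk lam (a / L) = kg.Φ lam (a / L) := by
      unfold kk kg.Φ kg.G
      refine intervalIntegral.integral_congr fun x hx => ?_
      have h4 : x ≤ 1 := by
        rw [uIcc_of_le (by linarith [div_nonneg hlg0 hL0.le])] at hx
        linarith [hx.2]
      show lam (1 + x) ^ 2 = lam (min (1 + x) 2) ^ 2
      rw [min_eq_left (by linarith)]
    have h4 : kg.Φ lam ((a - Real.log ((⌊T⌋₊ + 1 : ℕ) : ℝ)) / L) = 0 := by
      have h5 : L ≤ Real.log ((⌊T⌋₊ + 1 : ℕ) : ℝ) := by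
        refine Real.log_le_log hT0 ?_
        push_cast
        exact (Nat.lt_floor_add_one T).le
      have h6 : (a - Real.log ((⌊T⌋₊ + 1 : ℕ) : ℝ)) / L ≤ x₀ - 1 := by
        have h7 : (a - Real.log ((⌊T⌋₊ + 1 : ℕ) : ℝ)) / L ≤ (a - L) / L :=
          div_le_div_of_nonneg_right (by linarith) hL0.le
        have h8 : (a - L) / L = a / L - 1 := by
          field_simp
        linarith
      unfold kg.Φ
      have h9 : ∀ x ∈ uIcc (-1 : ℝ) ((a - Real.log ((⌊T⌋₊ + 1 : ℕ) : ℝ)) / L), kg.G lam x = 0 := by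
        intro x hx
        have h10 : x ≤ x₀ - 1 := by
          have := hx.2
          refine this.trans (max_le (by linarith) h6)
        unfold kg.G
        rw [kg.mu_zero hx1 hl (by linarith)]
        ring
      rw [intervalIntegral.integral_congr h9]
      simp
    unfold kg.Ψ
    rw [h4, h3]
    simp
  rw [h1, h2, ← kg.sum_tel ⌊T⌋₊ (fun k => kg.Ψ lam L a k), ← Finset.sum_sub_distrib]
  refine (Finset.abs_sum_le_sum_abs _ _).trans ?_
  refine (Finset.sum_le_sum fun k hk => kg.step hB hl hL (Finset.mem_Icc.1 hk).1).trans ?_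
  rw [← Finset.mul_sum]
  have h5 : ∑ k ∈ Finset.Icc 1 ⌊T⌋₊, (1 / (k : ℝ) - 1 / ((k + 1 : ℕ) : ℝ)) ≤ 1 := by
    have h6 := kg.sum_tel ⌊T⌋₊ (fun k => -(1 / (k : ℝ)))
    have h7 : ∑ k ∈ Finset.Icc 1 ⌊T⌋₊, (1 / (k : ℝ) - 1 / ((k + 1 : ℕ) : ℝ)) =
        ∑ k ∈ Finset.Icc 1 ⌊T⌋₊, (-(1 / ((k + 1 : ℕ) : ℝ)) - -(1 / (k : ℝ))) :=
      Finset.sum_congr rfl fun k _ => by ring
    rw [h7, h6]
    have h8 : 0 ≤ 1 / ((⌊T⌋₊ + 1 : ℕ) : ℝ) := by positivity
    simp only [Nat.cast_one, div_one]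
    linarith
  nlinarith [sq_nonneg B, mul_le_mul_of_nonneg_left h5 (show 0 ≤ 5 * B ^ 2 by positivity)]

end Pool.Agent.MP_67227b_nt.Fb
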