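import Pool.Agent.MP_67227b_nt.Fb.FbDefs

set_option autoImplicit false

open Filter Topology Set MeasureTheory Complex
open scoped Real ContDiff ArithmeticFunction ArithmeticFunction.Moebius ComplexConjugate

namespace Pool.Agent.MP_67227b_nt.Fb

open Pool.Agent.Lib.ZetaCount_helper33 Pool.Agent.MP_67227b_nt Pool.Agent.MP_67227b_nt.Mo

private theorem LOC0_subst (g : ℝ → ℂ) (c γ : ℝ) (hc : 0 < c) :
    (c : ℂ) * ∫ t : ℝ, g ((γ - t) * c) = ∫ u : ℝ, g u := by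
  have h1 := integral_sub_left_eq_self (fun s : ℝ => g (s * c)) volume γ
  rw [h1, Measure.integral_comp_mul_right g c, abs_of_pos (inv_pos.2 hc)]
  rw [Complex.real_smul, ← mul_assoc, ← Complex.ofReal_mul, mul_inv_cancel₀ hc.ne',
    Complex.ofReal_one, one_mul]

private theorem LOC0_cauchy (c γ : ℝ) (hc : 0 < c) :
    Integrable (fun t : ℝ => (1 + ((γ - t) * c) ^ 2)⁻¹) ∧
      c * ∫ t : ℝ, (1 + ((γ - t) * c) ^ 2)⁻¹ = π := by
  constructor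
  · exact (integrable_inv_one_add_sq.comp_mul_right' hc.ne').comp_sub_left γ
  · have h1 := integral_sub_left_eq_self (fun s : ℝ => (1 + (s * c) ^ 2)⁻¹) volume γ
    rw [h1, Measure.integral_comp_mul_right (fun u : ℝ => (1 + u ^ 2)⁻¹) c,
      abs_of_pos (inv_pos.2 hc), smul_eq_mul, integral_univ_inv_one_add_sq, ← mul_assoc,
      mul_inv_cancel₀ hc.ne', one_mul]

private theorem LOC0_cont {ψ : ℝ → ℝ} {δ : ℝ} (hδ : 0 ≤ δ) (hψ : Bump δ (cf ψ)) (L γ : ℝ) :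
    Continuous fun t : ℝ => ‖gs (cf ψ) (((γ - t) * L / (2 * π) : ℝ) : ℂ)‖ := by
  have h1 := continuous_gs hδ hψ
  fun_prop

/-- Module LOC0 (a). Exact localisation of an exponential.
PROOF. `gs_comp`: substitute `t = γ - 2πu/L` (`integral_comp_mul_left`, `integral_sub_left_eq_self`,
or `MeasureTheory.integral_comp_div` after `t ↦ γ - t`): the left side is
`(L/2π)(2π/L) ∫ gs ψ(u) exp(iω(γ - 2πu/L)) du = exp(iωγ) ∫ gs ψ(u) exp(-2πi(ω/L)u) du`, and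
`Mo.integral_gs_exp hδ hψ 0 (ω/L)` (with `y = 0`) gives `ψ(ω/L)`. -/
theorem loc_exp {ψ : ℝ → ℝ} {δ : ℝ} (hδ : 0 ≤ δ) (hψ : Bump δ (cf ψ)) {L : ℝ} (hL : 0 < L)
    (γ w : ℝ) :
    ((L / (2 * π) : ℝ) : ℂ) * (∫ t : ℝ, gs (cf ψ) (((γ - t) * L / (2 * π) : ℝ) : ℂ) *
      Complex.exp (I * w * t)) = Complex.exp (I * w * γ) * (ψ (w / L) : ℂ) := by
  have hπ := Real.pi_pos
  have hc : 0 < L / (2 * π) := by positivity
  have h1 := LOC0_subst (fun u : ℝ => gs (cf ψ) (u : ℂ) *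
    Complex.exp (I * w * (γ - 2 * π / L * u))) (L / (2 * π)) γ hc
  have h2 : ∀ t : ℝ, gs (cf ψ) (((γ - t) * L / (2 * π) : ℝ) : ℂ) * Complex.exp (I * w * t) =
      gs (cf ψ) (((γ - t) * (L / (2 * π)) : ℝ) : ℂ) *
        Complex.exp (I * w * (γ - 2 * π / L * ((γ - t) * (L / (2 * π)) : ℝ))) := by
    intro t
    have e1 : (γ - t) * L / (2 * π) = (γ - t) * (L / (2 * π)) := by ring
    have e2 : (γ : ℂ) - 2 * π / L * ((γ - t) * (L / (2 * π)) : ℝ) = t := by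
      have hLc : (L : ℂ) ≠ 0 := by exact_mod_cast hL.ne'
      have hπc : (π : ℂ) ≠ 0 := by exact_mod_cast hπ.ne'
      push_cast
      field_simp
      ring
    rw [e1, e2]
  simp only [h2]
  rw [h1]
  have h3 := integral_gs_exp hδ hψ 0 (w / L)
  simp only [ofReal_zero, zero_mul, add_zero, mul_zero, Real.exp_zero, ofReal_one, mul_one,
    neg_zero] at h3
  have h4 : (ψ (w / L) : ℂ) = cf ψ (w / L) := rfl
  rw [h4, ← h3, ← integral_const_mul]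
  refine integral_congr_ae (Eventually.of_forall fun u => ?_)
  simp only
  have e3 : I * w * (γ - 2 * π / L * u) = I * w * γ + -(2 * π * I * ((w / L : ℝ) : ℂ) * u) := by
    push_cast
    ring
  rw [e3, Complex.exp_add]
  ring

/-- Module LOC0 (b). The second moment of the kernel.
PROOF. `Mo.gs_real_bound hδ hψ 2`: `‖gs ψ x‖ ≤ C/(1+x²)²`; with `x = (γ-t)L/(2π)` and `L ≥ 2π` we
have `1+x² ≥ 1+(t-γ)²`, so the integrand is `≤ C/(1+x²)`, and `∫ dt/(1+x²) = (2π/L)·π`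
(`integral_univ_inv_one_add_sq`, substitution). -/
theorem loc_moment {ψ : ℝ → ℝ} {δ : ℝ} (hδ : 0 ≤ δ) (hψ : Bump δ (cf ψ)) :
    ∃ C : ℝ, 0 < C ∧ ∀ L : ℝ, 2 * π ≤ L → ∀ γ : ℝ,
      Integrable (fun t : ℝ => ‖gs (cf ψ) (((γ - t) * L / (2 * π) : ℝ) : ℂ)‖ *
        (1 + |t - γ| ^ 2)) ∧
      L * (∫ t : ℝ, ‖gs (cf ψ) (((γ - t) * L / (2 * π) : ℝ) : ℂ)‖ * (1 + |t - γ| ^ 2)) ≤ C := by
  obtain ⟨C, hC, hb⟩ := gs_real_bound hδ hψ 2
  have hπ := Real.pi_pos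
  refine ⟨2 * π * (C * π), by positivity, fun L hL γ => ?_⟩
  have hL0 : 0 < L := by linarith
  have hc : 0 < L / (2 * π) := by positivity
  have hc1 : 1 ≤ L / (2 * π) := by
    rw [le_div_iff₀ (by positivity)]
    linarith
  obtain ⟨hi, hint⟩ := LOC0_cauchy (L / (2 * π)) γ hc
  have hle : ∀ t : ℝ, ‖gs (cf ψ) (((γ - t) * L / (2 * π) : ℝ) : ℂ)‖ * (1 + |t - γ| ^ 2) ≤
      C * (1 + ((γ - t) * (L / (2 * π))) ^ 2)⁻¹ := by
    intro t
    have e1 : (γ - t) * L / (2 * π) = (γ - t) * (L / (2 * π)) := by ring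
    rw [e1]
    obtain ⟨x, hx⟩ : ∃ x, x = (γ - t) * (L / (2 * π)) := ⟨_, rfl⟩
    rw [← hx]
    have h1 := hb x
    have h2 : 1 + |t - γ| ^ 2 ≤ 1 + x ^ 2 := by
      rw [sq_abs, hx, mul_pow]
      have h3 : 1 ≤ (L / (2 * π)) ^ 2 := one_le_pow₀ hc1
      have h4 : (t - γ) ^ 2 = (γ - t) ^ 2 := by ring
      rw [h4]
      nlinarith [sq_nonneg (γ - t)]
    have h3 : 0 < 1 + x ^ 2 := by positivity
    calc ‖gs (cf ψ) (x : ℂ)‖ * (1 + |t - γ| ^ 2) ≤ (C / (1 + x ^ 2) ^ 2) * (1 + x ^ 2) :=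
          mul_le_mul h1 h2 (by positivity) (by positivity)
      _ = C * (1 + x ^ 2)⁻¹ := by field_simp
  have hmeas : AEStronglyMeasurable (fun t : ℝ =>
      ‖gs (cf ψ) (((γ - t) * L / (2 * π) : ℝ) : ℂ)‖ * (1 + |t - γ| ^ 2)) volume := by
    have h1 := LOC0_cont hδ hψ L γ
    exact (h1.mul (by fun_prop)).aestronglyMeasurable
  have hI : Integrable (fun t : ℝ =>
      ‖gs (cf ψ) (((γ - t) * L / (2 * π) : ℝ) : ℂ)‖ * (1 + |t - γ| ^ 2)) := by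
    refine (hi.const_mul C).mono' hmeas (Eventually.of_forall fun t => ?_)
    rw [Real.norm_of_nonneg (by positivity)]
    exact hle t
  refine ⟨hI, ?_⟩
  have h1 := integral_mono hI (hi.const_mul C) hle
  rw [integral_const_mul] at h1
  calc L * _ ≤ L * (C * ∫ t : ℝ, (1 + ((γ - t) * (L / (2 * π))) ^ 2)⁻¹) :=
        mul_le_mul_of_nonneg_left h1 hL0.le
    _ = 2 * π * (C * (L / (2 * π) * ∫ t : ℝ, (1 + ((γ - t) * (L / (2 * π))) ^ 2)⁻¹)) := by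
        field_simp
    _ = 2 * π * (C * π) := by rw [hint]

/-- Module LOC0 (c). The tails of the kernel.
PROOF. `Mo.gs_real_bound hδ hψ (K+1)`: for `|t-γ| ≥ A ≥ 1`, `L ≥ 2π`, `x = (γ-t)L/(2π)`:
`‖gs ψ x‖ ≤ C/(1+x²)^(K+1) ≤ C A^(-2K)/(1+x²) ≤ C A^(-K)/(1+x²)`, then as in (b). -/
theorem loc_tail {ψ : ℝ → ℝ} {δ : ℝ} (hδ : 0 ≤ δ) (hψ : Bump δ (cf ψ)) (K : ℕ) :
    ∃ C : ℝ, 0 < C ∧ ∀ L : ℝ, 2 * π ≤ L → ∀ γ A : ℝ, 1 ≤ A →
      L * (∫ t in {t : ℝ | A ≤ |t - γ|}, ‖gs (cf ψ) (((γ - t) * L / (2 * π) : ℝ) : ℂ)‖) ≤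
        C / A ^ K := by
  obtain ⟨C, hC, hb⟩ := gs_real_bound hδ hψ (K + 1)
  have hπ := Real.pi_pos
  refine ⟨2 * π * (C * π), by positivity, fun L hL γ A hA => ?_⟩
  have hL0 : 0 < L := by linarith
  have hA0 : 0 < A := by linarith
  have hc : 0 < L / (2 * π) := by positivity
  have hc1 : 1 ≤ L / (2 * π) := by
    rw [le_div_iff₀ (by positivity)]
    linarith
  obtain ⟨hi, hint⟩ := LOC0_cauchy (L / (2 * π)) γ hc
  have hgen : ∀ t : ℝ, ‖gs (cf ψ) (((γ - t) * L / (2 * π) : ℝ) : ℂ)‖ ≤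
      C * (1 + ((γ - t) * (L / (2 * π))) ^ 2)⁻¹ := by
    intro t
    have e1 : (γ - t) * L / (2 * π) = (γ - t) * (L / (2 * π)) := by ring
    rw [e1]
    obtain ⟨x, hx⟩ : ∃ x, x = (γ - t) * (L / (2 * π)) := ⟨_, rfl⟩
    rw [← hx]
    refine (hb x).trans ?_
    rw [← div_eq_mul_inv]
    refine div_le_div_of_nonneg_left hC.le (by positivity) ?_
    exact le_self_pow₀ (by nlinarith [sq_nonneg x]) (by omega)
  have hI : Integrable (fun t : ℝ => ‖gs (cf ψ) (((γ - t) * L / (2 * π) : ℝ) : ℂ)‖) := by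
    refine (hi.const_mul C).mono' (LOC0_cont hδ hψ L γ).aestronglyMeasurable
      (Eventually.of_forall fun t => ?_)
    rw [Real.norm_of_nonneg (norm_nonneg _)]
    exact hgen t
  have hle : ∀ t ∈ {t : ℝ | A ≤ |t - γ|}, ‖gs (cf ψ) (((γ - t) * L / (2 * π) : ℝ) : ℂ)‖ ≤
      C / A ^ K * (1 + ((γ - t) * (L / (2 * π))) ^ 2)⁻¹ := by
    intro t ht
    have ht' : A ≤ |t - γ| := ht
    have e1 : (γ - t) * L / (2 * π) = (γ - t) * (L / (2 * π)) := by ring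
    rw [e1]
    obtain ⟨x, hx⟩ : ∃ x, x = (γ - t) * (L / (2 * π)) := ⟨_, rfl⟩
    rw [← hx]
    have h2 : A ≤ 1 + x ^ 2 := by
      have h3 : 1 ≤ (L / (2 * π)) ^ 2 := one_le_pow₀ hc1
      have h4 : |t - γ| ^ 2 = (γ - t) ^ 2 := by rw [sq_abs]; ring
      have h5 : A ^ 2 ≤ |t - γ| ^ 2 := pow_le_pow_left₀ hA0.le ht' 2
      have h6 : x ^ 2 = (γ - t) ^ 2 * (L / (2 * π)) ^ 2 := by rw [hx, mul_pow]
      nlinarith [sq_nonneg (γ - t)]
    have h3 : 0 < 1 + x ^ 2 := by positivity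
    refine (hb x).trans ?_
    rw [← div_eq_mul_inv, div_div, pow_succ]
    refine div_le_div_of_nonneg_left hC.le (by positivity) ?_
    exact mul_le_mul_of_nonneg_right (pow_le_pow_left₀ hA0.le h2 K) h3.le
  have hms : MeasurableSet {t : ℝ | A ≤ |t - γ|} :=
    measurableSet_le measurable_const (by fun_prop)
  have h1 : ∫ t in {t : ℝ | A ≤ |t - γ|}, ‖gs (cf ψ) (((γ - t) * L / (2 * π) : ℝ) : ℂ)‖ ≤
      ∫ t in {t : ℝ | A ≤ |t - γ|}, C / A ^ K * (1 + ((γ - t) * (L / (2 * π))) ^ 2)⁻¹ :=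
    setIntegral_mono_on hI.integrableOn (hi.const_mul _).integrableOn hms hle
  have h2 : ∫ t in {t : ℝ | A ≤ |t - γ|}, C / A ^ K * (1 + ((γ - t) * (L / (2 * π))) ^ 2)⁻¹ ≤
      ∫ t : ℝ, C / A ^ K * (1 + ((γ - t) * (L / (2 * π))) ^ 2)⁻¹ :=
    setIntegral_le_integral (hi.const_mul _) (Eventually.of_forall fun t => by
      simp only [Pi.zero_apply]
      positivity)
  have h2' : ∫ t : ℝ, C / A ^ K * (1 + ((γ - t) * (L / (2 * π))) ^ 2)⁻¹ =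
      C / A ^ K * ∫ t : ℝ, (1 + ((γ - t) * (L / (2 * π))) ^ 2)⁻¹ := integral_const_mul _ _
  rw [h2'] at h2
  calc L * _ ≤ L * (C / A ^ K * ∫ t : ℝ, (1 + ((γ - t) * (L / (2 * π))) ^ 2)⁻¹) :=
        mul_le_mul_of_nonneg_left (h1.trans h2) hL0.le
    _ = 2 * π * (C * (L / (2 * π) * ∫ t : ℝ, (1 + ((γ - t) * (L / (2 * π))) ^ 2)⁻¹)) / A ^ K := by
        field_simp
    _ = 2 * π * (C * π) / A ^ K := by rw [hint]

end Pool.Agent.MP_67227b_nt.Fb
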