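import Pool.Agent.MP_67227b_nt.Fb.FbLoc0
import Pool.Agent.MP_67227b_nt.Fb.FbChi

set_option autoImplicit false

open Filter Topology Set MeasureTheory Complex
open scoped Real ContDiff ArithmeticFunction ArithmeticFunction.Moebius ComplexConjugate

namespace Pool.Agent.MP_67227b_nt.Fb

open Pool.Agent.Lib.ZetaCount_helper33 Pool.Agent.MP_67227b_nt Pool.Agent.MP_67227b_nt.Mo

private theorem lu1_conj_m (m : ℕ) (hm : 1 ≤ m) (t : ℝ) :
    conj ((m : ℂ) ^ (-(1 / 2 + (t : ℂ) * I))) =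
      (((m : ℝ) ^ (-(1 / 2) : ℝ) : ℝ) : ℂ) * Complex.exp (I * ((t * Real.log m : ℝ) : ℂ)) := by
  have hm0 : (m : ℂ) ≠ 0 := by exact_mod_cast (by omega : m ≠ 0)
  have hmr : (0 : ℝ) < m := by exact_mod_cast hm
  rw [Complex.cpow_def_of_ne_zero hm0, ← Complex.natCast_log, ← Complex.exp_conj,
    Real.rpow_def_of_pos hmr, Complex.ofReal_exp, ← Complex.exp_add]
  congr 1
  simp only [map_mul, map_neg, map_add, map_div₀, map_one, Complex.conj_ofReal, Complex.conj_I,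
    Complex.ofReal_mul, Complex.ofReal_neg, Complex.ofReal_div, Complex.ofReal_one,
    Complex.ofReal_ofNat, map_ofNat]
  ring

private theorem lu1_conj_r (m : ℕ) (hm : 1 ≤ m) (t : ℝ) :
    conj ((m : ℂ) ^ (-(1 / 2 - (t : ℂ) * I))) =
      (((m : ℝ) ^ (-(1 / 2) : ℝ) : ℝ) : ℂ) * Complex.exp (-(I * ((t * Real.log m : ℝ) : ℂ))) := by
  have hm0 : (m : ℂ) ≠ 0 := by exact_mod_cast (by omega : m ≠ 0)
  have hmr : (0 : ℝ) < m := by exact_mod_cast hm
  rw [Complex.cpow_def_of_ne_zero hm0, ← Complex.natCast_log, ← Complex.exp_conj,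
    Real.rpow_def_of_pos hmr, Complex.ofReal_exp, ← Complex.exp_add]
  congr 1
  simp only [map_mul, map_neg, map_sub, map_div₀, map_one, Complex.conj_ofReal, Complex.conj_I,
    Complex.ofReal_mul, Complex.ofReal_neg, Complex.ofReal_div, Complex.ofReal_one,
    Complex.ofReal_ofNat, map_ofNat]
  ring

private theorem lu1_term (m r : ℕ) (hm : 1 ≤ m) (hr : 1 ≤ r) (t a : ℝ) (z : ℂ) :
    conj (z * (a : ℂ) * (m : ℂ) ^ (-(1 / 2 + (t : ℂ) * I)) * (r : ℂ) ^ (-(1 / 2 - (t : ℂ) * I))) =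
      (((m : ℝ) ^ (-(1 / 2) : ℝ) * (r : ℝ) ^ (-(1 / 2) : ℝ) : ℝ) : ℂ) * (conj z * (a : ℂ)) *
        Complex.exp (I * ((t * (Real.log m - Real.log r) : ℝ) : ℂ)) := by
  rw [map_mul, map_mul, map_mul, lu1_conj_m m hm, lu1_conj_r r hr, Complex.conj_ofReal,
    show I * ((t * (Real.log m - Real.log r) : ℝ) : ℂ) =
      I * ((t * Real.log m : ℝ) : ℂ) + -(I * ((t * Real.log r : ℝ) : ℂ)) by push_cast; ring,
    Complex.exp_add]
  push_cast
  ring

private theorem lu1_norm_exp (x : ℝ) : ‖Complex.exp (I * (x : ℂ))‖ = 1 := by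
  rw [mul_comm, Complex.norm_exp_ofReal_mul_I]

private theorem lu1_log_lip {a t g : ℝ} (ha : 0 < a) (ht : a ≤ t) (hg : a ≤ g) :
    |Real.log t - Real.log g| ≤ |t - g| / a := by
  have key : ∀ x y : ℝ, a ≤ x → a ≤ y → Real.log x - Real.log y ≤ |x - y| / a := by
    intro x y hx hy
    have hx0 : 0 < x := lt_of_lt_of_le ha hx
    have hy0 : 0 < y := lt_of_lt_of_le ha hy
    rw [← Real.log_div hx0.ne' hy0.ne']
    have h1 := Real.log_le_sub_one_of_pos (div_pos hx0 hy0)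
    have h2 : x / y - 1 = (x - y) / y := by field_simp
    rw [h2] at h1
    refine h1.trans ?_
    refine (div_le_div_of_nonneg_right (le_abs_self (x - y)) hy0.le).trans ?_
    exact div_le_div_of_nonneg_left (abs_nonneg _) ha hy
  rw [abs_le]
  constructor
  · have := key g t hg ht
    rw [abs_sub_comm] at this
    linarith
  · exact key t g ht hg

private theorem lu1_a {B L : ℝ} (hB : 0 < B) (h : L ≤ B) : B ^ 3 * L ≤ B ^ 4 := by
  calc B ^ 3 * L ≤ B ^ 3 * B := mul_le_mul_of_nonneg_left h (by positivity)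
    _ = B ^ 4 := by ring

private theorem lu1_b {B : ℝ} (hB : 20 ≤ B) : 400 * B ≤ B ^ 3 := by
  nlinarith [mul_nonneg (sub_nonneg.2 hB) (by linarith : (0 : ℝ) ≤ B)]

private theorem lu1_d {B L : ℝ} (hB : 20 ≤ B) (h : L ≤ B) : 8 * L ≤ B ^ 3 * B := by
  have h1 := lu1_b hB
  have h2 : 8 * B ≤ B ^ 3 * B := mul_le_mul_of_nonneg_right (by linarith) (by linarith)
  linarith

private theorem lu1_f {p r : ℝ} (hp : 3 < p) (hr : 1 ≤ r) : 1 ≤ 2 * p * r := by
  nlinarith

private theorem lu1_h (x : ℝ) : |x| ≤ 1 + |x| ^ 2 := by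
  nlinarith [sq_nonneg (|x| - 1), abs_nonneg x]

private theorem lu1_i {L : ℝ} (hL : 6 < L) (x : ℝ) : |x| ≤ L * (1 + |x| ^ 2) := by
  have h1 := lu1_h x
  have h2 : 1 * (1 + |x| ^ 2) ≤ L * (1 + |x| ^ 2) :=
    mul_le_mul_of_nonneg_right (by linarith) (by positivity)
  linarith

/-- Module LOCU1. The localisation of one term of `U`.

PROOF. Put `L = log T`, `ω = log(mγ/(2πr))` and `E(t) = gs ψ((γ-t)L/(2π))`. For `T` large every `t`
in `[T1 T, T2 T]` is `≥ 20`, `T1 T = T/log T`. The number `x(t) = log(mt/(2πr))/L` lies in `[-1, 2]`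
for all `t` in `[T1 T, T2 T]`: `m ≤ T^d ≤ T`, `t ≤ T`, `r ≥ 1` give `x(t) ≤ 2`, and `r ≤ m T^(1-x₀)`
gives `mt/(2πr) ≥ T^(x₀)/(2π log T) ≥ 1/T`. Let `M` bound `|lam|` and `|lam'|` on `[-1, 2]`
(compactness). Then `|lam(x(t)) - lam(x(γ))| ≤ M |log t - log γ|/L ≤ M |t-γ|/T1 = M |t-γ| log T/T`.
With `chi_norm`, `chi_lin` (and `|conj z| = |z|`):
`conj(chi(1/2+it)) lam(x(t)) = conj(chi(1/2+iγ)) e^{i(t-γ)log(γ/2π)} lam(x(γ)) + err(t)`,
`|err(t)| ≤ M C(1+|t-γ|²)/γ + M |t-γ| log T/T ≤ C' (1+|t-γ|²) log T/T`.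
Further `conj(m^{-(1/2+it)}) = m^{-1/2} e^{it log m}`, `conj(r^{-(1/2-it)}) = r^{-1/2} e^{-it log r}`.
So the integrand is `E(t) (mr)^{-1/2} (conj chi(1/2+iγ) lam(x(γ)) e^{-iγ log(γ/2π)} e^{iωt}
+ err(t) e^{it log(m/r)})`, because `log(γ/2π) + log m - log r = ω`.
(1) The error: `(L/2π)∫ |E(t)| |err(t)| dt ≤ C'' log T/T` by `loc_moment`.
(2) The main part: replace `∫_{T1}^{T2}` by `∫_ℝ`: the difference is at most `M (L/2π) ∫_{|t-γ| ≥
T^(1/4)} |E| ≤ C/T` by `loc_tail` with `K = 4` and `A = T^(1/4)`; then `loc_exp` gives exactly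
`conj chi(1/2+iγ) lam(x(γ)) e^{-iγ log(γ/2π)} e^{iωγ} ψ(ω/L)`, and
`e^{-iγ log(γ/2π)} e^{iωγ} = e^{iγ log(m/r)}`. That is the conjugate of the stated value.
Finally `log T/T ≤ T^(-3/4)` for `T` large.
Integrability on `[T1,T2]`: everything is continuous there (`t > 0`; `chi_cont`). -/
theorem loc_one {lam ψ : ℝ → ℝ} {d x₀ δ : ℝ} (hd : 0 < d) (hd1 : d < 1) (hx : 0 < x₀)
    (hx1 : x₀ ≤ 1) (hl : Prof x₀ lam) (hδ : 0 ≤ δ) (hψ : Bump δ (cf ψ)) :
    ∃ C : ℝ, 0 < C ∧ ∀ᶠ T : ℝ in atTop, ∀ γ : ℝ, T1 T + T ^ (1 / 4 : ℝ) ≤ γ →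
      γ ≤ T2 T - T ^ (1 / 4 : ℝ) → ∀ m r : ℕ, 1 ≤ m → m ≤ Zd d T → 1 ≤ r →
      (r : ℝ) ≤ m * T ^ (1 - x₀) →
      ‖((Real.log T / (2 * π) : ℝ) : ℂ) * (∫ t in (T1 T)..(T2 T),
          gs (cf ψ) (((γ - t) * Real.log T / (2 * π) : ℝ) : ℂ) *
            conj (chi (1 / 2 + (t : ℂ) * I) *
              ((lam (Real.log (m * t / (2 * π * r)) / Real.log T) : ℝ) : ℂ) *
              (m : ℂ) ^ (-(1 / 2 + (t : ℂ) * I)) * (r : ℂ) ^ (-(1 / 2 - (t : ℂ) * I)))) -
        conj (chi (1 / 2 + (γ : ℂ) * I) *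
          ((lam (Real.log (m * γ / (2 * π * r)) / Real.log T) *
            ψ (Real.log (m * γ / (2 * π * r)) / Real.log T) : ℝ) : ℂ) *
          (m : ℂ) ^ (-(1 / 2 + (γ : ℂ) * I)) * (r : ℂ) ^ (-(1 / 2 - (γ : ℂ) * I)))‖ ≤
        C * T ^ (-(3 / 4) : ℝ) * ((m : ℝ) ^ (-(1 / 2) : ℝ) * (r : ℝ) ^ (-(1 / 2) : ℝ)) := by
  obtain ⟨Cχ, hCχ, hχ⟩ := chi_lin
  obtain ⟨Cm, hCm, hmom⟩ := loc_moment hδ hψ
  obtain ⟨Ct, hCt, htail⟩ := loc_tail hδ hψ 4
  have hcont : Continuous lam := hl.smooth.continuous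
  have hdiff : Differentiable ℝ lam := hl.smooth.differentiable (by simp)
  have hdc : Continuous (deriv lam) := hl.smooth.continuous_deriv (by simp)
  obtain ⟨M₀, hM₀⟩ := (isCompact_Icc (a := (-1 : ℝ)) (b := 2)).exists_bound_of_continuousOn
    hcont.continuousOn
  obtain ⟨M₁, hM₁⟩ := (isCompact_Icc (a := (-1 : ℝ)) (b := 2)).exists_bound_of_continuousOn
    hdc.continuousOn
  set M : ℝ := max 1 (max M₀ M₁) with hM
  have hM1 : 1 ≤ M := le_max_left _ _
  have hMl : ∀ x ∈ Icc (-1 : ℝ) 2, |lam x| ≤ M := fun x hx =>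
    (hM₀ x hx).trans ((le_max_left _ _).trans (le_max_right _ _))
  have hMd : ∀ x ∈ Icc (-1 : ℝ) 2, ‖deriv lam x‖ ≤ M := fun x hx =>
    (hM₁ x hx).trans ((le_max_right _ _).trans (le_max_right _ _))
  have hlip : ∀ x ∈ Icc (-1 : ℝ) 2, ∀ y ∈ Icc (-1 : ℝ) 2, |lam y - lam x| ≤ M * |y - x| := by
    intro x hx y hy
    exact Convex.norm_image_sub_le_of_norm_deriv_le (fun z _ => hdiff z) hMd
      (convex_Icc (-1) 2) hx hy
  refine ⟨M * (Cχ + 1) * Cm + M * Ct, by positivity, ?_⟩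
  have ev1 : ∀ᶠ T : ℝ in atTop, Real.log T ≤ T ^ (1 / 4 : ℝ) := by
    have := (isLittleO_log_rpow_atTop (show (0 : ℝ) < 1 / 4 by norm_num)).bound
      (show (0 : ℝ) < 1 by norm_num)
    filter_upwards [this, eventually_ge_atTop (1 : ℝ)] with T hT hT1
    rw [one_mul, Real.norm_of_nonneg (Real.log_nonneg hT1),
      Real.norm_of_nonneg (Real.rpow_nonneg (by linarith) _)] at hT
    exact hT
  filter_upwards [ev1, eventually_ge_atTop (160000 : ℝ),
    Real.tendsto_log_atTop.eventually_ge_atTop (2 * π)] with T hLB hT hL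
  intro γ hγ1 hγ2 m r hm hmZ hr hrm
  set L : ℝ := Real.log T with hLdef
  have hT0 : 0 < T := by linarith
  set B : ℝ := T ^ (1 / 4 : ℝ) with hB
  have hB4 : B ^ 4 = T := by
    rw [hB, ← Real.rpow_natCast, ← Real.rpow_mul hT0.le]
    norm_num
  have hB0 : 0 < B := Real.rpow_pos_of_pos hT0 _
  have hB20 : 20 ≤ B := by
    by_contra hlt
    push Not at hlt
    have : B ^ 4 < 20 ^ 4 := pow_lt_pow_left₀ hlt hB0.le (by norm_num)
    rw [hB4] at this
    linarith
  have hpi : 3 < π := Real.pi_gt_three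
  have hpi4 : π < 4 := by linarith [Real.pi_lt_d2]
  have hL6 : 6 < L := by linarith
  have hL0 : 0 < L := by linarith
  have hT1 : T1 T = T / L := rfl
  have hT1B : B ^ 3 ≤ T1 T := by
    rw [hT1, le_div_iff₀ hL0, ← hB4]
    exact lu1_a hB0 hLB
  have hB3 : 400 * B ≤ B ^ 3 := lu1_b hB20
  have hT1pos : 20 ≤ T1 T := by linarith
  have hT1pos' : 0 < T1 T := by linarith
  have hγT1 : T1 T ≤ γ := by linarith
  have hγ0 : 0 < γ := by linarith
  have h12 : T1 T ≤ T2 T := by linarith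
  have hT2T : T2 T ≤ T := by
    have : 0 ≤ T ^ (3 / 4 : ℝ) := Real.rpow_nonneg hT0.le _
    simp only [T2]
    linarith
  have hγT2 : γ ≤ T2 T := by linarith
  have hm0 : (1 : ℝ) ≤ m := by exact_mod_cast hm
  have hr0 : (1 : ℝ) ≤ r := by exact_mod_cast hr
  have hT1' : 1 ≤ T := by linarith
  have hmT : (m : ℝ) ≤ T := by
    have h1 : (m : ℝ) ≤ T ^ d := (Nat.le_floor_iff (Real.rpow_nonneg hT0.le d)).1 hmZ
    have h2 : T ^ d ≤ T ^ (1 : ℝ) := Real.rpow_le_rpow_of_exponent_le hT1' hd1.le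
    rw [Real.rpow_one] at h2
    exact h1.trans h2
  have hrT : (r : ℝ) ≤ m * T := by
    refine hrm.trans (mul_le_mul_of_nonneg_left ?_ (by linarith))
    have h2 : T ^ (1 - x₀) ≤ T ^ (1 : ℝ) :=
      Real.rpow_le_rpow_of_exponent_le hT1' (by linarith)
    rwa [Real.rpow_one] at h2
  have hBT : 8 * L ≤ T := by
    have h3 : T = B ^ 3 * B := by rw [← hB4]; ring
    rw [h3]
    exact lu1_d hB20 hLB
  -- the arguments
  have hxt : ∀ t : ℝ, T1 T ≤ t → t ≤ T2 T →
      Real.log (m * t / (2 * π * r)) / L ∈ Icc (-1 : ℝ) 2 := by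
    intro t ht1 ht2
    have ht0 : 0 < t := by linarith
    have hpos : 0 < m * t / (2 * π * r) := by positivity
    constructor
    · rw [le_div_iff₀ hL0]
      have h1 : T⁻¹ ≤ m * t / (2 * π * r) := by
        rw [inv_le_iff_one_le_mul₀ hT0, div_mul_eq_mul_div, le_div_iff₀ (by positivity)]
        have h2 : T ≤ t * L := by
          rw [hT1, div_le_iff₀ hL0] at ht1
          exact ht1
        have h3 : 2 * π * r ≤ 2 * π * (m * T) :=
          mul_le_mul_of_nonneg_left hrT (by positivity)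
        have h4 : 2 * π ≤ t := by
          have h5 : 2 * π * L ≤ T :=
            (mul_le_mul_of_nonneg_right (by linarith) hL0.le).trans hBT
          have h6 : 2 * π * L ≤ t * L := h5.trans h2
          exact le_of_mul_le_mul_right h6 hL0
        have h7 : 2 * π * (m * T) ≤ t * (m * T) :=
          mul_le_mul_of_nonneg_right h4 (by positivity)
        linarith
      have h2 := Real.log_le_log (inv_pos.2 hT0) h1
      rw [Real.log_inv] at h2
      linarith
    · rw [div_le_iff₀ hL0]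
      have h1 : m * t / (2 * π * r) ≤ T ^ 2 := by
        rw [div_le_iff₀ (by positivity)]
        have h2 : m * t ≤ T * T := mul_le_mul hmT (ht2.trans hT2T) ht0.le hT0.le
        have h3 : (1 : ℝ) ≤ 2 * π * r := lu1_f hpi hr0
        calc m * t ≤ T ^ 2 * 1 := by rw [mul_one, sq]; exact h2
          _ ≤ T ^ 2 * (2 * π * r) := mul_le_mul_of_nonneg_left h3 (by positivity)
      have h2 := Real.log_le_log hpos h1
      rw [Real.log_pow] at h2
      push_cast at h2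
      exact h2
  have hxdiff : ∀ t : ℝ, T1 T ≤ t → Real.log (m * t / (2 * π * r)) / L -
      Real.log (m * γ / (2 * π * r)) / L = (Real.log t - Real.log γ) / L := by
    intro t ht1
    have ht0 : 0 < t := by linarith
    rw [Real.log_div (by positivity) (by positivity), Real.log_div (by positivity) (by positivity),
      Real.log_mul (by positivity) ht0.ne', Real.log_mul (by positivity) hγ0.ne']
    ring
  set c : ℝ := (m : ℝ) ^ (-(1 / 2) : ℝ) * (r : ℝ) ^ (-(1 / 2) : ℝ) with hc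
  have hc0 : 0 ≤ c := by positivity
  set xx : ℝ → ℝ := fun t => Real.log (m * t / (2 * π * r)) / L with hxx
  set ℓ : ℝ := Real.log (γ / (2 * π)) with hℓ
  set w : ℝ := Real.log (m * γ / (2 * π * r)) with hw
  have hwℓ : w = ℓ + (Real.log m - Real.log r) := by
    rw [hw, hℓ, Real.log_div (by positivity) (by positivity), Real.log_mul (by positivity) hγ0.ne',
      Real.log_mul (by positivity) (by positivity), Real.log_div (by positivity) (by positivity)]
    ring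
  set Gt : ℝ → ℂ := fun t => gs (cf ψ) (((γ - t) * L / (2 * π) : ℝ) : ℂ) with hGt
  set Q : ℂ := conj (chi (1 / 2 + (γ : ℂ) * I)) * (lam (xx γ) : ℂ) with hQ
  set K : ℂ := Q * Complex.exp (-(I * ((γ * ℓ : ℝ) : ℂ))) with hK
  set Ft : ℝ → ℂ := fun t => conj (chi (1 / 2 + (t : ℂ) * I) *
    ((lam (Real.log (m * t / (2 * π * r)) / L) : ℝ) : ℂ) *
    (m : ℂ) ^ (-(1 / 2 + (t : ℂ) * I)) * (r : ℂ) ^ (-(1 / 2 - (t : ℂ) * I))) with hFt
  have hGc : Continuous Gt := by
    rw [hGt]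
    exact (continuous_gs hδ hψ).comp (by fun_prop)
  have hFc : ContinuousOn Ft (Icc (T1 T) (T2 T)) := by
    have hmC : (m : ℂ) ≠ 0 := by exact_mod_cast (by omega : m ≠ 0)
    have hrC : (r : ℂ) ≠ 0 := by exact_mod_cast (by omega : r ≠ 0)
    rw [hFt]
    refine Complex.continuous_conj.comp_continuousOn ?_
    refine ContinuousOn.mul (ContinuousOn.mul (ContinuousOn.mul chi_cont.continuousOn ?_) ?_) ?_
    · refine Complex.continuous_ofReal.comp_continuousOn (hcont.comp_continuousOn ?_)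
      refine ContinuousOn.div_const (ContinuousOn.log (by fun_prop) ?_) _
      intro t ht
      have ht0 : 0 < t := lt_of_lt_of_le hT1pos' ht.1
      positivity
    · exact (Continuous.const_cpow (by fun_prop) (Or.inl hmC)).continuousOn
    · exact (Continuous.const_cpow (by fun_prop) (Or.inl hrC)).continuousOn
  -- the pointwise error
  have hR : ∀ t ∈ Icc (T1 T) (T2 T), ‖Ft t - (c : ℂ) * K * Complex.exp (I * w * t)‖ ≤
      c * (M * (Cχ + 1) * (L / T)) * (1 + |t - γ| ^ 2) := by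
    intro t ht
    have ht20 : 20 ≤ t := hT1pos.trans ht.1
    have hγ20 : 20 ≤ γ := hT1pos.trans hγT1
    have e1 : Ft t = (c : ℂ) * (conj (chi (1 / 2 + (t : ℂ) * I)) * (lam (xx t) : ℂ)) *
        Complex.exp (I * ((t * (Real.log m - Real.log r) : ℝ) : ℂ)) := by
      rw [hFt]
      exact lu1_term m r hm hr t _ _
    have e2 : (c : ℂ) * K * Complex.exp (I * w * t) = (c : ℂ) *
        (Q * Complex.exp (I * (((t - γ) * ℓ : ℝ) : ℂ))) *
        Complex.exp (I * ((t * (Real.log m - Real.log r) : ℝ) : ℂ)) := by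
      rw [hK, hwℓ]
      have : Complex.exp (-(I * ((γ * ℓ : ℝ) : ℂ))) *
          Complex.exp (I * ((ℓ + (Real.log m - Real.log r) : ℝ) : ℂ) * t) =
          Complex.exp (I * (((t - γ) * ℓ : ℝ) : ℂ)) *
          Complex.exp (I * ((t * (Real.log m - Real.log r) : ℝ) : ℂ)) := by
        rw [← Complex.exp_add, ← Complex.exp_add]
        congr 1
        push_cast
        ring
      calc _ = (c : ℂ) * Q * (Complex.exp (-(I * ((γ * ℓ : ℝ) : ℂ))) *
          Complex.exp (I * ((ℓ + (Real.log m - Real.log r) : ℝ) : ℂ) * t)) := by ring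
        _ = _ := by rw [this]; ring
    have e3 : Ft t - (c : ℂ) * K * Complex.exp (I * w * t) = (c : ℂ) *
        ((conj (chi (1 / 2 + (t : ℂ) * I)) - conj (chi (1 / 2 + (γ : ℂ) * I)) *
            Complex.exp (I * (((t - γ) * ℓ : ℝ) : ℂ))) * (lam (xx t) : ℂ) +
          conj (chi (1 / 2 + (γ : ℂ) * I)) * Complex.exp (I * (((t - γ) * ℓ : ℝ) : ℂ)) *
            ((lam (xx t) - lam (xx γ) : ℝ) : ℂ)) *
        Complex.exp (I * ((t * (Real.log m - Real.log r) : ℝ) : ℂ)) := by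
      rw [e1, e2, hQ]
      push_cast
      ring
    have n1 : ‖conj (chi (1 / 2 + (t : ℂ) * I)) - conj (chi (1 / 2 + (γ : ℂ) * I)) *
        Complex.exp (I * (((t - γ) * ℓ : ℝ) : ℂ))‖ ≤ Cχ * (1 + |t - γ| ^ 2) / γ := by
      have h1 := hχ t γ ht20 hγ20
      have h2 : conj (chi (1 / 2 + (t : ℂ) * I)) - conj (chi (1 / 2 + (γ : ℂ) * I)) *
          Complex.exp (I * (((t - γ) * ℓ : ℝ) : ℂ)) =
          conj (chi (1 / 2 + (t : ℂ) * I) - chi (1 / 2 + (γ : ℂ) * I) *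
            Complex.exp (-(I * ((t - γ : ℝ) : ℂ) * ((Real.log (γ / (2 * π)) : ℝ) : ℂ)))) := by
        rw [map_sub, map_mul, ← Complex.exp_conj]
        congr 3
        simp only [map_neg, map_mul, Complex.conj_ofReal, Complex.conj_I, hℓ]
        push_cast
        ring
      rw [h2, Complex.norm_conj]
      exact h1
    have n2 : |lam (xx t)| ≤ M := hMl _ (hxt t ht.1 ht.2)
    have n3 : |lam (xx t) - lam (xx γ)| ≤ M * (|t - γ| / T1 T / L) := by
      refine (hlip _ (hxt γ hγT1 hγT2) _ (hxt t ht.1 ht.2)).trans ?_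
      refine mul_le_mul_of_nonneg_left ?_ (by linarith)
      have h1 : xx t - xx γ = (Real.log t - Real.log γ) / L := hxdiff t ht.1
      show |xx t - xx γ| ≤ _
      rw [h1, abs_div, abs_of_pos hL0]
      exact div_le_div_of_nonneg_right (lu1_log_lip hT1pos' ht.1 hγT1) hL0.le
    have n4 : ‖conj (chi (1 / 2 + (γ : ℂ) * I))‖ = 1 := by
      rw [Complex.norm_conj, chi_norm]
    rw [e3, norm_mul, norm_mul, lu1_norm_exp, mul_one, Complex.norm_real, Real.norm_of_nonneg hc0]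
    have n5 : ‖(conj (chi (1 / 2 + (t : ℂ) * I)) - conj (chi (1 / 2 + (γ : ℂ) * I)) *
            Complex.exp (I * (((t - γ) * ℓ : ℝ) : ℂ))) * (lam (xx t) : ℂ) +
          conj (chi (1 / 2 + (γ : ℂ) * I)) * Complex.exp (I * (((t - γ) * ℓ : ℝ) : ℂ)) *
            ((lam (xx t) - lam (xx γ) : ℝ) : ℂ)‖ ≤
        Cχ * (1 + |t - γ| ^ 2) / γ * M + M * (|t - γ| / T1 T / L) := by
      refine (norm_add_le _ _).trans (add_le_add ?_ ?_)
      · rw [norm_mul, Complex.norm_real, Real.norm_eq_abs]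
        exact mul_le_mul n1 n2 (abs_nonneg _) (by positivity)
      · rw [norm_mul, norm_mul, n4, lu1_norm_exp, one_mul, one_mul, Complex.norm_real,
          Real.norm_eq_abs]
        exact n3
    have n6 : Cχ * (1 + |t - γ| ^ 2) / γ * M + M * (|t - γ| / T1 T / L) ≤
        M * (Cχ + 1) * (L / T) * (1 + |t - γ| ^ 2) := by
      have h1 : γ⁻¹ ≤ L / T := by
        rw [show L / T = (T1 T)⁻¹ by rw [hT1, inv_div]]
        exact inv_anti₀ hT1pos' hγT1
      have h2 : |t - γ| / T1 T / L = |t - γ| / T := by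
        rw [hT1]
        field_simp
      have h4 : |t - γ| / T ≤ (L / T) * (1 + |t - γ| ^ 2) := by
        rw [div_mul_eq_mul_div]
        exact div_le_div_of_nonneg_right (lu1_i hL6 _) hT0.le
      rw [h2, div_eq_mul_inv (Cχ * (1 + |t - γ| ^ 2))]
      have h5 : Cχ * (1 + |t - γ| ^ 2) * γ⁻¹ ≤ Cχ * (1 + |t - γ| ^ 2) * (L / T) :=
        mul_le_mul_of_nonneg_left h1 (by positivity)
      calc Cχ * (1 + |t - γ| ^ 2) * γ⁻¹ * M + M * (|t - γ| / T)
          ≤ Cχ * (1 + |t - γ| ^ 2) * (L / T) * M + M * ((L / T) * (1 + |t - γ| ^ 2)) :=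
            add_le_add (mul_le_mul_of_nonneg_right h5 (by linarith))
              (mul_le_mul_of_nonneg_left h4 (by linarith))
        _ = _ := by ring
    calc c * _ ≤ c * (M * (Cχ + 1) * (L / T) * (1 + |t - γ| ^ 2)) :=
          mul_le_mul_of_nonneg_left (n5.trans n6) hc0
      _ = _ := by ring
  -- the value at γ
  have hval : conj (chi (1 / 2 + (γ : ℂ) * I) *
          ((lam (Real.log (m * γ / (2 * π * r)) / L) *
            ψ (Real.log (m * γ / (2 * π * r)) / L) : ℝ) : ℂ) *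
          (m : ℂ) ^ (-(1 / 2 + (γ : ℂ) * I)) * (r : ℂ) ^ (-(1 / 2 - (γ : ℂ) * I))) =
      (c : ℂ) * K * (((L / (2 * π) : ℝ) : ℂ) * ∫ t : ℝ, Gt t * Complex.exp (I * w * t)) := by
    rw [lu1_term m r hm hr, loc_exp hδ hψ hL0, hK, hQ, hwℓ]
    have : Complex.exp (-(I * ((γ * ℓ : ℝ) : ℂ))) *
        Complex.exp (I * ((ℓ + (Real.log m - Real.log r) : ℝ) : ℂ) * γ) =
        Complex.exp (I * ((γ * (Real.log m - Real.log r) : ℝ) : ℂ)) := by
      rw [← Complex.exp_add]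
      congr 1
      push_cast
      ring
    rw [← this, ← hwℓ, hc, hxx]
    simp only [← hw]
    push_cast
    ring
  have hmomg := hmom L hL γ
  have hgi : Integrable (fun t : ℝ => ‖Gt t‖) := by
    refine hmomg.1.mono hGc.norm.aestronglyMeasurable (ae_of_all _ fun t => ?_)
    rw [norm_norm, Real.norm_of_nonneg (by positivity)]
    have : (1 : ℝ) ≤ 1 + |t - γ| ^ 2 := le_add_of_nonneg_right (by positivity)
    exact le_mul_of_one_le_right (norm_nonneg _) this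
  have hexpc : Continuous fun t : ℝ => Complex.exp (I * w * t) := by fun_prop
  have hne : ∀ t : ℝ, ‖Complex.exp (I * w * t)‖ = 1 := by
    intro t
    rw [mul_assoc, ← Complex.ofReal_mul, lu1_norm_exp]
  have hGe : Integrable fun t : ℝ => Gt t * Complex.exp (I * w * t) := by
    refine hgi.mono (hGc.mul hexpc).aestronglyMeasurable (ae_of_all _ fun t => ?_)
    rw [norm_mul, hne, mul_one, norm_norm]
  have hsplit : ∫ t in (T1 T)..(T2 T), Gt t * Ft t =
      (c : ℂ) * K * (∫ t in (T1 T)..(T2 T), Gt t * Complex.exp (I * w * t)) +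
      ∫ t in (T1 T)..(T2 T), Gt t * (Ft t - (c : ℂ) * K * Complex.exp (I * w * t)) := by
    rw [← intervalIntegral.integral_const_mul, ← intervalIntegral.integral_add]
    · refine intervalIntegral.integral_congr fun t _ => ?_
      show Gt t * Ft t = (c : ℂ) * K * (Gt t * Complex.exp (I * w * t)) +
        Gt t * (Ft t - (c : ℂ) * K * Complex.exp (I * w * t))
      ring
    · exact (Continuous.intervalIntegrable (by fun_prop) _ _)
    · refine ContinuousOn.intervalIntegrable ?_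
      rw [uIcc_of_le h12]
      exact hGc.continuousOn.mul (hFc.sub (by fun_prop))
  have hfar : ∫ t : ℝ, Gt t * Complex.exp (I * w * t) =
      (∫ t in (T1 T)..(T2 T), Gt t * Complex.exp (I * w * t)) +
      ∫ t in (Ioc (T1 T) (T2 T))ᶜ, Gt t * Complex.exp (I * w * t) := by
    rw [intervalIntegral.integral_of_le h12, integral_add_compl measurableSet_Ioc hGe]
  have hfarb : ‖∫ t in (Ioc (T1 T) (T2 T))ᶜ, Gt t * Complex.exp (I * w * t)‖ ≤
      ∫ t in {t : ℝ | B ≤ |t - γ|}, ‖Gt t‖ := by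
    refine (norm_integral_le_integral_norm _).trans ?_
    have h1 : ∫ t in (Ioc (T1 T) (T2 T))ᶜ, ‖Gt t * Complex.exp (I * w * t)‖ =
        ∫ t in (Ioc (T1 T) (T2 T))ᶜ, ‖Gt t‖ := by
      congr 1
      ext t
      rw [norm_mul, hne, mul_one]
    rw [h1]
    refine setIntegral_mono_set hgi.integrableOn (ae_of_all _ fun t => norm_nonneg _) ?_
    refine Filter.Eventually.of_forall fun t ht => ?_
    show B ≤ |t - γ|
    have ht' : ¬ (T1 T < t ∧ t ≤ T2 T) := ht
    rcases le_or_gt t (T1 T) with h | h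
    · rw [abs_sub_comm, le_abs]
      left
      linarith
    · have h2 : T2 T < t := by
        by_contra h3
        exact ht' ⟨h, not_lt.1 h3⟩
      rw [le_abs]
      left
      linarith
  have htl := htail L hL γ B (by linarith)
  have hKn : ‖K‖ ≤ M := by
    rw [hK, hQ, norm_mul, norm_mul, Complex.norm_conj, chi_norm, one_mul, Complex.norm_real,
      Real.norm_eq_abs, show -(I * ((γ * ℓ : ℝ) : ℂ)) = I * ((-(γ * ℓ) : ℝ) : ℂ) by push_cast; ring,
      lu1_norm_exp, mul_one]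
    exact hMl _ (hxt γ hγT1 hγT2)
  have hRint : ‖∫ t in (T1 T)..(T2 T), Gt t * (Ft t - (c : ℂ) * K * Complex.exp (I * w * t))‖ ≤
      c * (M * (Cχ + 1) * (L / T)) * ∫ t : ℝ, ‖Gt t‖ * (1 + |t - γ| ^ 2) := by
    have h1 : ‖∫ t in (T1 T)..(T2 T), Gt t * (Ft t - (c : ℂ) * K * Complex.exp (I * w * t))‖ ≤
        ∫ t in (T1 T)..(T2 T), c * (M * (Cχ + 1) * (L / T)) * (‖Gt t‖ * (1 + |t - γ| ^ 2)) := by
      refine intervalIntegral.norm_integral_le_of_norm_le h12 (ae_of_all _ fun t ht => ?_)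
        ((hmomg.1.const_mul _).intervalIntegrable)
      rw [norm_mul]
      have h2 := hR t ⟨ht.1.le, ht.2⟩
      calc ‖Gt t‖ * _ ≤ ‖Gt t‖ * (c * (M * (Cχ + 1) * (L / T)) * (1 + |t - γ| ^ 2)) :=
            mul_le_mul_of_nonneg_left h2 (norm_nonneg _)
        _ = _ := by ring
    refine h1.trans ?_
    rw [intervalIntegral.integral_const_mul, intervalIntegral.integral_of_le h12]
    refine mul_le_mul_of_nonneg_left ?_ (by positivity)
    exact setIntegral_le_integral hmomg.1 (ae_of_all _ fun t => by positivity)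
  -- assembly
  have hTm : T⁻¹ ≤ T ^ (-(3 / 4) : ℝ) := by
    rw [← Real.rpow_neg_one]
    exact Real.rpow_le_rpow_of_exponent_le hT1' (by norm_num)
  have hLT : L / T ≤ T ^ (-(3 / 4) : ℝ) := by
    rw [div_le_iff₀ hT0]
    have h1 : T ^ (-(3 / 4) : ℝ) * T = B := by
      rw [hB]
      nth_rewrite 2 [← Real.rpow_one T]
      rw [← Real.rpow_add hT0]
      norm_num
    rw [h1]
    exact hLB
  have hL2 : (0 : ℝ) ≤ L / (2 * π) := by positivity
  have hnL : ‖((L / (2 * π) : ℝ) : ℂ)‖ = L / (2 * π) := by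
    rw [Complex.norm_real, Real.norm_of_nonneg hL2]
  have hL2' : L / (2 * π) ≤ L := by
    rw [div_le_iff₀ (by positivity)]
    exact le_mul_of_one_le_right hL0.le (by linarith)
  show ‖((L / (2 * π) : ℝ) : ℂ) * (∫ t in (T1 T)..(T2 T), Gt t * Ft t) - _‖ ≤ _
  rw [hval, hsplit, hfar]
  have hfin : ((L / (2 * π) : ℝ) : ℂ) *
      ((c : ℂ) * K * (∫ t in (T1 T)..(T2 T), Gt t * Complex.exp (I * w * t)) +
      ∫ t in (T1 T)..(T2 T), Gt t * (Ft t - (c : ℂ) * K * Complex.exp (I * w * t))) -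
      (c : ℂ) * K * (((L / (2 * π) : ℝ) : ℂ) *
        ((∫ t in (T1 T)..(T2 T), Gt t * Complex.exp (I * w * t)) +
        ∫ t in (Ioc (T1 T) (T2 T))ᶜ, Gt t * Complex.exp (I * w * t))) =
      ((L / (2 * π) : ℝ) : ℂ) *
        (∫ t in (T1 T)..(T2 T), Gt t * (Ft t - (c : ℂ) * K * Complex.exp (I * w * t))) -
      (c : ℂ) * K * (((L / (2 * π) : ℝ) : ℂ) *
        (∫ t in (Ioc (T1 T) (T2 T))ᶜ, Gt t * Complex.exp (I * w * t))) := by
    ring
  rw [hfin]
  refine (norm_sub_le _ _).trans ?_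
  have hcn : ‖(c : ℂ)‖ = c := by rw [Complex.norm_real, Real.norm_of_nonneg hc0]
  rw [norm_mul ((L / (2 * π) : ℝ) : ℂ), norm_mul ((c : ℂ) * K), norm_mul (c : ℂ) K,
    norm_mul ((L / (2 * π) : ℝ) : ℂ), hnL, hcn]
  have b1 : L / (2 * π) *
      ‖∫ t in (T1 T)..(T2 T), Gt t * (Ft t - (c : ℂ) * K * Complex.exp (I * w * t))‖ ≤
      c * (M * (Cχ + 1) * Cm * T ^ (-(3 / 4) : ℝ)) := by
    calc L / (2 * π) * _ ≤ L * (c * (M * (Cχ + 1) * (L / T)) *
          ∫ t : ℝ, ‖Gt t‖ * (1 + |t - γ| ^ 2)) :=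
          mul_le_mul hL2' hRint (norm_nonneg _) hL0.le
      _ = c * (M * (Cχ + 1) * (L / T)) * (L * ∫ t : ℝ, ‖Gt t‖ * (1 + |t - γ| ^ 2)) := by ring
      _ ≤ c * (M * (Cχ + 1) * (L / T)) * Cm :=
          mul_le_mul_of_nonneg_left hmomg.2 (by positivity)
      _ ≤ c * (M * (Cχ + 1) * T ^ (-(3 / 4) : ℝ)) * Cm := by
          refine mul_le_mul_of_nonneg_right (mul_le_mul_of_nonneg_left
            (mul_le_mul_of_nonneg_left hLT (by positivity)) hc0) hCm.le
      _ = _ := by ring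
  have b2 : c * ‖K‖ * (L / (2 * π) *
      ‖∫ t in (Ioc (T1 T) (T2 T))ᶜ, Gt t * Complex.exp (I * w * t)‖) ≤
      c * (M * Ct * T ^ (-(3 / 4) : ℝ)) := by
    have h1 : L / (2 * π) * ‖∫ t in (Ioc (T1 T) (T2 T))ᶜ, Gt t * Complex.exp (I * w * t)‖ ≤
        Ct * T ^ (-(3 / 4) : ℝ) := by
      calc _ ≤ L * ∫ t in {t : ℝ | B ≤ |t - γ|}, ‖Gt t‖ :=
            mul_le_mul hL2' hfarb (norm_nonneg _) hL0.le
        _ ≤ Ct / B ^ 4 := htl
        _ = Ct * T⁻¹ := by rw [hB4, div_eq_mul_inv]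
        _ ≤ _ := mul_le_mul_of_nonneg_left hTm hCt.le
    calc c * ‖K‖ * _ ≤ c * M * (Ct * T ^ (-(3 / 4) : ℝ)) :=
          mul_le_mul (mul_le_mul_of_nonneg_left hKn hc0) h1 (by positivity) (by positivity)
      _ = _ := by ring
  refine (add_le_add b1 b2).trans (le_of_eq ?_)
  ring

end Pool.Agent.MP_67227b_nt.Fb
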