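import Pool.Agent.MP_67227b_nt.Fb.FbRk

set_option autoImplicit false

open Filter Topology Set MeasureTheory Complex
open scoped Real ContDiff ArithmeticFunction ArithmeticFunction.Moebius ComplexConjugate

namespace Pool.Agent.MP_67227b_nt.Fb

open Pool.Agent.Lib.ZetaCount_helper33 Pool.Agent.MP_67227b_nt Pool.Agent.MP_67227b_nt.Mo

namespace MelAux

private theorem deriv_zero {κ : ℝ → ℝ} {e : ℝ} (hκ : Step (1 - 2 * e) (1 - e) κ) {v : ℝ}
    (hv : v < 1 - 2 * e ∨ 1 - e < v) : deriv κ v = 0 := by
  rcases hv with hv | hv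
  · have h : κ =ᶠ[𝓝 v] fun _ => (1 : ℝ) := by
      filter_upwards [Iio_mem_nhds hv] with x hx
      exact hκ.one x (le_of_lt hx)
    rw [h.deriv_eq]; simp
  · have h : κ =ᶠ[𝓝 v] fun _ => (0 : ℝ) := by
      filter_upwards [Ioi_mem_nhds hv] with x hx
      exact hκ.zero x (le_of_lt hx)
    rw [h.deriv_eq]; simp

private theorem deriv_cont {κ : ℝ → ℝ} {e : ℝ} (hκ : Step (1 - 2 * e) (1 - e) κ) :
    Continuous (deriv κ) := ((contDiff_infty_iff_deriv (𝕜 := ℝ)).1 hκ.smooth).2.continuous

private theorem deriv_cs {κ : ℝ → ℝ} {e : ℝ} (hκ : Step (1 - 2 * e) (1 - e) κ) :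
    HasCompactSupport (deriv κ) := by
  refine HasCompactSupport.intro (isCompact_Icc : IsCompact (Icc (1 - 2 * e) (1 - e)))
    fun v hv => ?_
  apply deriv_zero hκ
  by_contra h
  push Not at h
  exact hv ⟨h.1, h.2⟩

private theorem ln_re (σ y : ℝ) : (ln σ y).re = σ := by simp [ln]
private theorem ln_im (σ y : ℝ) : (ln σ y).im = y := by simp [ln]

private theorem ln_ne {σ : ℝ} (hσ : σ ≠ 0) (y : ℝ) : ln σ y ≠ 0 := fun h => hσ (by
  have := congrArg Complex.re h
  rwa [ln_re] at this)

private theorem sq_le {σ : ℝ} (hσ : 1 ≤ |σ|) (y : ℝ) : 1 + y ^ 2 ≤ ‖ln σ y‖ ^ 2 := by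
  rw [← Complex.normSq_eq_norm_sq, Complex.normSq_apply, ln_re, ln_im]
  have : 1 ≤ σ * σ := by nlinarith [abs_mul_abs_self σ, abs_nonneg σ]
  nlinarith

/-- integrability along the line -/
private theorem H_int {κ : ℝ → ℝ} {L σ C : ℝ} (hσ : 1 ≤ |σ|) (hd : Differentiable ℂ (Rk κ L))
    (hb : ∀ y : ℝ, ‖Rk κ L (ln σ y)‖ ≤ C / (1 + ‖ln σ y‖) ^ 2) :
    Integrable fun y : ℝ => Rk κ L (ln σ y) / ln σ y := by
  have hσ0 : σ ≠ 0 := by
    intro h
    rw [h, abs_zero] at hσ
    linarith
  have hc : Continuous fun y : ℝ => Rk κ L (ln σ y) / ln σ y := by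
    have h1 : Continuous (ln σ) := by unfold ln; fun_prop
    exact (hd.continuous.comp h1).div h1 fun y => ln_ne hσ0 y
  have hC : 0 ≤ C := by
    have := (norm_nonneg _).trans (hb 0)
    by_contra h
    push Not at h
    have h2 : C / (1 + ‖ln σ 0‖) ^ 2 < 0 := div_neg_of_neg_of_pos h (by positivity)
    linarith
  refine Integrable.mono' (integrable_inv_one_add_sq.const_mul C) hc.aestronglyMeasurable
    (Eventually.of_forall fun y => ?_)
  have h1 := sq_le hσ y
  have h2 : 1 ≤ ‖ln σ y‖ := by
    by_contra h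
    push Not at h
    nlinarith [norm_nonneg (ln σ y), sq_nonneg y]
  rw [norm_div]
  refine (div_le_self (norm_nonneg _) h2).trans ((hb y).trans ?_)
  rw [div_eq_mul_inv]
  refine mul_le_mul_of_nonneg_left (inv_anti₀ (by positivity) ?_) hC
  nlinarith [norm_nonneg (ln σ y)]

private theorem gen {κ c : ℝ → ℝ} {e L σ : ℝ} (hκ : Step (1 - 2 * e) (1 - e) κ) (hL : 0 < L)
    (hσ : σ ≠ 0) (hc : ∀ v, HasDerivAt c (deriv κ v) v)
    (hg : Integrable fun v : ℝ => c v * Real.exp (L * σ * v))
    (hH : Integrable fun y : ℝ => Rk κ L (ln σ y) / ln σ y) {x : ℝ} (hx : 0 < x) :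
    (1 / (2 * π : ℂ)) * ∫ y : ℝ, (x : ℂ) ^ (-(ln σ y)) * Rk κ L (ln σ y) / ln σ y =
      (c (Real.log x / L) : ℂ) := by
  have hcc : Continuous c := continuous_iff_continuousAt.2 fun v => (hc v).continuousAt
  have hL' : (L : ℂ) ≠ 0 := by exact_mod_cast hL.ne'
  -- integration by parts
  have key : ∀ y : ℝ, ∫ v : ℝ, (c v : ℂ) * Complex.exp (L * v * ln σ y) =
      (1 / L : ℂ) * (Rk κ L (ln σ y) / ln σ y) := by
    intro y
    have hw := ln_ne hσ y
    set w := ln σ y with hwdef
    have hLw : (L : ℂ) * w ≠ 0 := mul_ne_zero hL' hw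
    have hint : Integrable fun v : ℝ => (c v : ℂ) * Complex.exp (L * v * w) := by
      refine Integrable.mono hg (by fun_prop : Continuous fun v : ℝ => (c v : ℂ) *
        Complex.exp (L * v * w)).aestronglyMeasurable (Eventually.of_forall fun v => ?_)
      rw [norm_mul, norm_mul, Complex.norm_exp, Complex.norm_real, Real.norm_eq_abs (Real.exp _),
        Real.abs_exp]
      refine le_of_eq ?_
      congr 2
      have : ((L : ℂ) * v * w).re = L * v * w.re := by
        rw [← Complex.ofReal_mul, Complex.re_ofReal_mul]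
      rw [this, hwdef, ln_re]
      ring
    have hde : ∀ v : ℝ, HasDerivAt (fun v : ℝ => Complex.exp (L * v * w) / (L * w))
        (Complex.exp (L * v * w)) v := by
      intro v
      have h1 : HasDerivAt (fun v : ℝ => (L : ℂ) * (v : ℂ) * w) (L * w) v := by
        have h0 : HasDerivAt (fun v : ℝ => (v : ℂ)) 1 v := Complex.ofRealCLM.hasDerivAt
        simpa using (h0.const_mul (L : ℂ)).mul_const w
      have h2 := (h1.cexp).div_const (L * w)
      refine h2.congr_deriv ?_
      field_simp
    have h := integral_mul_deriv_eq_deriv_mul_of_integrable (u := fun v : ℝ => (c v : ℂ))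
      (v := fun v : ℝ => Complex.exp (L * v * w) / (L * w))
      (u' := fun v : ℝ => ((deriv κ v : ℝ) : ℂ)) (v' := fun v : ℝ => Complex.exp (L * v * w))
      (fun v _ => (hc v).ofReal_comp) (fun v _ => hde v) hint ?_ ?_
    · rw [h, Rk, ← integral_neg, div_eq_mul_inv (∫ v : ℝ, _) w, ← integral_mul_const,
        ← integral_const_mul]
      refine integral_congr_ae (Eventually.of_forall fun v => ?_)
      simp only
      push_cast
      field_simp
    · refine (by
        have := deriv_cont hκ
        fun_prop : Continuous fun v : ℝ => ((deriv κ v : ℝ) : ℂ) *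
          (Complex.exp (L * v * w) / (L * w))).integrable_of_hasCompactSupport ?_
      refine (deriv_cs hκ).mono' ?_
      intro v hv
      by_contra h
      have : deriv κ v = 0 := by
        by_contra h'
        exact h (subset_tsupport _ h')
      simp [this] at hv
    · have : ((fun v : ℝ => (c v : ℂ)) * fun v : ℝ => Complex.exp (L * v * w) / (L * w)) =
          fun v : ℝ => ((c v : ℂ) * Complex.exp (L * v * w)) / (L * w) := by
        funext v
        simp only [Pi.mul_apply]
        ring
      rw [this]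
      exact hint.div_const _
  set g : ℝ → ℂ := fun v => (c v : ℂ) * ((Real.exp (L * σ * v) : ℝ) : ℂ) with hgdef
  have hgc : Continuous g := by rw [hgdef]; fun_prop
  have hgi : Integrable g := by
    have := hg.ofReal (𝕜 := ℂ)
    refine this.congr (Eventually.of_forall fun v => ?_)
    simp [hgdef]
  set H : ℝ → ℂ := fun y => Rk κ L (ln σ y) / ln σ y with hHdef
  have hinv : ∀ t : ℝ, FourierTransformInv.fourierInv g t = (1 / L : ℂ) * H (2 * π / L * t) := by
    intro t
    rw [Real.fourierInv_eq', hHdef, ← key]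
    refine integral_congr_ae (Eventually.of_forall fun v => ?_)
    simp only [smul_eq_mul, hgdef]
    rw [mul_comm, mul_assoc]
    congr 1
    rw [Complex.ofReal_exp, ← Complex.exp_add]
    congr 1
    simp only [ln]
    push_cast
    simp only [inner, star_trivial, RCLike.re_to_real]
    push_cast
    field_simp
  have hF : Integrable (FourierTransform.fourier g) := by
    have h1 : (FourierTransform.fourier g) = fun t : ℝ => (1 / L : ℂ) * H (-(2 * π / L) * t) := by
      funext t
      have h2 := hinv (-t)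
      rw [Real.fourierInv_eq_fourier_neg, neg_neg] at h2
      rw [h2]
      congr 2
      ring
    rw [h1]
    refine (hH.comp_mul_left' ?_).const_mul _
    have := Real.pi_pos
    exact neg_ne_zero.2 (by positivity)
  have h := congrFun (hgc.fourier_fourierInv_eq hgi hF) (Real.log x / L)
  rw [Real.fourier_eq'] at h
  have h2 : (∫ t : ℝ, Complex.exp ((-2 * π * inner ℝ t (Real.log x / L) : ℝ) * I) •
      FourierTransformInv.fourierInv g t) =
      ∫ t : ℝ, (fun y : ℝ => Complex.exp (-(I * Real.log x * y)) * ((1 / L : ℂ) * H y))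
        (2 * π / L * t) := by
    refine integral_congr_ae (Eventually.of_forall fun t => ?_)
    simp only [smul_eq_mul]
    rw [hinv t]
    congr 2
    simp only [inner, star_trivial, RCLike.re_to_real]
    push_cast
    field_simp
  have h2' := Measure.integral_comp_mul_left
    (fun y : ℝ => Complex.exp (-(I * Real.log x * y)) * ((1 / L : ℂ) * H y)) (2 * π / L)
  rw [h2] at h
  have h := h2'.symm.trans h
  have hexp : ((Real.exp (L * σ * (Real.log x / L)) : ℝ) : ℂ) =
      Complex.exp (σ * Real.log x) := by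
    push_cast
    congr 1
    field_simp
  have h3 : ∀ y : ℝ, (x : ℂ) ^ (-(ln σ y)) * Rk κ L (ln σ y) / ln σ y =
      (L * Complex.exp (-(σ * Real.log x))) *
        (Complex.exp (-(I * Real.log x * y)) * ((1 / L : ℂ) * H y)) := by
    intro y
    rw [Complex.cpow_def_of_ne_zero (by exact_mod_cast hx.ne'), ← Complex.ofReal_log hx.le]
    have h4 : Complex.exp (Real.log x * -(ln σ y)) =
        Complex.exp (-(σ * Real.log x)) * Complex.exp (-(I * Real.log x * y)) := by
      rw [← Complex.exp_add]
      congr 1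
      simp only [ln]
      ring
    rw [h4, hHdef]
    field_simp
  rw [integral_congr_ae (Eventually.of_forall h3), integral_const_mul]
  rw [hgdef] at h
  simp only at h
  rw [hexp, Complex.real_smul] at h
  set Q : ℂ := ∫ y : ℝ, Complex.exp (-(I * Real.log x * y)) * ((1 / L : ℂ) * H y) with hQ
  have hpi := Real.pi_pos
  have habs : |(2 * π / L)⁻¹| = L / (2 * π) := by
    rw [abs_of_pos (by positivity)]
    field_simp
  rw [habs] at h
  have hpi' : (π : ℂ) ≠ 0 := by exact_mod_cast Real.pi_ne_zero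
  have h5 : (L : ℂ) * Q = 2 * π * (c (Real.log x / L) * Complex.exp (σ * Real.log x)) := by
    rw [← h]
    push_cast
    field_simp
  calc (1 / (2 * π : ℂ)) * (L * Complex.exp (-(σ * Real.log x)) * Q)
      = (1 / (2 * π : ℂ)) * Complex.exp (-(σ * Real.log x)) * (L * Q) := by ring
    _ = c (Real.log x / L) * (Complex.exp (-(σ * Real.log x)) * Complex.exp (σ * Real.log x)) := by
        rw [h5]; field_simp
    _ = c (Real.log x / L) := by
        rw [← Complex.exp_add]
        simp

end MelAux

open MelAux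

/-- **Module mel** (2 theorems, about 170 lines). The Mellin inversion formula on `Re w = 1`.

PROOF. `f(x) = κ(log x/L)` on `(0,∞)`: it is `1` for `x ≤ e^{L(1-2e)}`, `0` for `x ≥ e^{L(1-e)}`,
continuous, so `MellinConvergent f 1` (and for all `Re > 0`), and for `w = 1 + iy`
`mellin f w = ∫_0^∞ x^{w-1} f(x) dx = Rk κ L w / w`: substitute `x = e^{Lv}`
(`∫_0^∞ x^{w-1} f(x) dx = L ∫ e^{Lvw} κ(v) dv`) and integrate by parts (`κ(v) e^{Lvw}/w → 0` at both
ends; `MeasureTheory.integral_mul_deriv_eq_deriv_mul_of_integrable`). `VerticalIntegrable` from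
`Rk_right` with `k = 2`. Then `mellin_inversion` (Mathlib) at `x`. (Equivalently: Fourier inversion
for `v ↦ κ(v) e^{Lv}`, `MeasureTheory.Integrable.fourierInv_fourier_eq`.) -/
theorem mellin_right {κ : ℝ → ℝ} {e : ℝ} (he : 0 < e) (hκ : Step (1 - 2 * e) (1 - e) κ) {L : ℝ}
    (hL : 1 ≤ L) {x : ℝ} (hx : 0 < x) :
    (1 / (2 * π : ℂ)) * ∫ y : ℝ, (x : ℂ) ^ (-(ln 1 y)) * Rk κ L (ln 1 y) / ln 1 y =
      (κ (Real.log x / L) : ℂ) := by
  have hL0 : 0 < L := lt_of_lt_of_le one_pos hL
  obtain ⟨C, hC, hb⟩ := Rk_right he hκ 2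
  have hcd : ∀ v, HasDerivAt κ (deriv κ v) v := fun v =>
    ((hκ.smooth.differentiable (by simp)) v).hasDerivAt
  have hκc : Continuous κ := hκ.smooth.continuous
  refine gen hκ hL0 one_ne_zero hcd ?_ ?_ hx
  · have h1 : IntegrableOn (fun v : ℝ => κ v * Real.exp (L * 1 * v)) (Iic (1 - e)) := by
      refine Integrable.mono' (integrableOn_exp_mul_Iic (a := L * 1) (by linarith) (1 - e))
        (by fun_prop : Continuous fun v : ℝ => κ v * Real.exp (L * 1 * v)).aestronglyMeasurable
        (Eventually.of_forall fun v => ?_)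
      rw [norm_mul, Real.norm_eq_abs, Real.norm_eq_abs, Real.abs_exp, abs_of_nonneg (hκ.nonneg v)]
      exact mul_le_of_le_one_left (Real.exp_pos _).le (hκ.le_one v)
    refine (integrableOn_iff_integrable_of_support_subset ?_).1 h1
    intro v hv
    by_contra h
    have : κ v = 0 := hκ.zero v (le_of_lt (not_le.1 h))
    simp [this] at hv
  · refine H_int (C := C * Real.exp (L * (1 - e) * 1)) (by simp) (Rk_differentiable he hκ L)
      fun y => ?_
    have := hb L hL (ln 1 y) (by rw [ln_re]; norm_num)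
    rwa [ln_re] at this

/-- The same on `Re w = -1`. PROOF. `f(x) = κ(log x/L) - 1` is `0` for small `x` and `-1` for large
`x`, so `MellinConvergent f (-1)`, and `mellin f w = Rk κ L w/w` again (now the boundary terms are
`(κ(v) - 1) e^{Lvw}/w → 0`); `Rk_left` for the vertical integrability. -/
theorem mellin_left {κ : ℝ → ℝ} {e : ℝ} (he : 0 < e) (he2 : e < 1 / 2)
    (hκ : Step (1 - 2 * e) (1 - e) κ) {L : ℝ}
    (hL : 1 ≤ L) {x : ℝ} (hx : 0 < x) :
    (1 / (2 * π : ℂ)) * ∫ y : ℝ, (x : ℂ) ^ (-(ln (-1) y)) * Rk κ L (ln (-1) y) / ln (-1) y =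
      ((κ (Real.log x / L) - 1 : ℝ) : ℂ) := by
  have hL0 : 0 < L := lt_of_lt_of_le one_pos hL
  obtain ⟨C, hC, hb⟩ := Rk_left he hκ 2
  have hcd : ∀ v, HasDerivAt (fun v => κ v - 1) (deriv κ v) v := fun v =>
    (((hκ.smooth.differentiable (by simp)) v).hasDerivAt).sub_const 1
  have hκc : Continuous κ := hκ.smooth.continuous
  refine gen hκ hL0 (by norm_num) hcd ?_ ?_ hx
  · have h1 : IntegrableOn (fun v : ℝ => (κ v - 1) * Real.exp (L * (-1) * v))
        (Ioi (1 - 2 * e)) := by
      refine Integrable.mono' (integrableOn_exp_mul_Ioi (a := L * (-1)) (by linarith) (1 - 2 * e))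
        (by fun_prop : Continuous fun v : ℝ => (κ v - 1) *
          Real.exp (L * (-1) * v)).aestronglyMeasurable
        (Eventually.of_forall fun v => ?_)
      rw [norm_mul, Real.norm_eq_abs, Real.norm_eq_abs, Real.abs_exp]
      refine mul_le_of_le_one_left (Real.exp_pos _).le ?_
      rw [abs_le]
      constructor <;> linarith [hκ.nonneg v, hκ.le_one v]
    refine (integrableOn_iff_integrable_of_support_subset ?_).1 h1
    intro v hv
    by_contra h
    have : κ v = 1 := hκ.one v (not_lt.1 h)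
    simp [this] at hv
  · refine H_int (C := C * Real.exp (L * (1 - 2 * e) * (-1))) (by simp)
      (Rk_differentiable he hκ L) fun y => ?_
    have := hb L hL (ln (-1) y) (by rw [ln_re]; norm_num)
    rwa [ln_re] at this

end Pool.Agent.MP_67227b_nt.Fb
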