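import Pool.Agent.MP_67227b_nt.Fb.FbPos

set_option autoImplicit false

open Filter Topology Set MeasureTheory Complex
open scoped Real ContDiff ArithmeticFunction ArithmeticFunction.Moebius ComplexConjugate

namespace Pool.Agent.MP_67227b_nt.Fb

open Pool.Agent.Lib.ZetaCount_helper33 Pool.Agent.MP_67227b_nt Pool.Agent.MP_67227b_nt.Mo

private theorem m1_cont {g : ℝ → ℝ} {δ : ℝ} (hg : Bump δ (cf g)) : Continuous g := by
  have h := Complex.continuous_re.comp hg.smooth.continuous
  exact h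

private theorem m1_supp {g : ℝ → ℝ} {δ : ℝ} (hg : Bump δ (cf g)) : HasCompactSupport g := by
  refine HasCompactSupport.intro (isCompact_Icc (a := -δ) (b := δ)) fun x hx => ?_
  have h1 : δ < |x| := by
    by_contra h
    exact hx (abs_le.1 (not_lt.1 h))
  have h2 := hg.supp x h1
  simpa [cf] using h2

private theorem m1_int {g : ℝ → ℝ} {δ : ℝ} (hg : Bump δ (cf g)) (u : ℝ) :
    Integrable (fun x : ℝ => g x * Real.cos (x * u)) := by
  apply Continuous.integrable_of_hasCompactSupport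
  · exact (m1_cont hg).mul (by fun_prop)
  · exact (m1_supp hg).mul_right

private theorem m1_gs {g : ℝ → ℝ} {δ : ℝ} (hg : Bump δ (cf g)) (u : ℝ) :
    ∫ x : ℝ, g x * Real.cos (x * u) = (gs (cf g) ((u / (2 * π) : ℝ) : ℂ)).re := by
  have hint : Integrable (fun v : ℝ => cf g v * Complex.exp (2 * π * I * v * ((u / (2 * π) : ℝ) : ℂ))) := by
    apply Continuous.integrable_of_hasCompactSupport
    · exact (hg.smooth.continuous).mul (by fun_prop)
    · apply HasCompactSupport.mul_right
      refine HasCompactSupport.intro (isCompact_Icc (a := -δ) (b := δ)) fun x hx => ?_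
      have h1 : δ < |x| := by
        by_contra h
        exact hx (abs_le.1 (not_lt.1 h))
      exact hg.supp x h1
  have h := integral_re hint
  unfold gs
  rw [show (∫ v : ℝ, cf g v * Complex.exp (2 * π * I * v * ((u / (2 * π) : ℝ) : ℂ))).re =
    RCLike.re (∫ v : ℝ, cf g v * Complex.exp (2 * π * I * v * ((u / (2 * π) : ℝ) : ℂ))) from rfl, ← h]
  congr 1
  ext x
  have hpi : (π : ℂ) ≠ 0 := by exact_mod_cast Real.pi_ne_zero
  have e1 : (2 * π * I * x * ((u / (2 * π) : ℝ) : ℂ)) = ((x * u : ℝ) : ℂ) * I := by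
    push_cast
    field_simp
  rw [e1]
  change g x * Real.cos (x * u) = ((g x : ℂ) * Complex.exp (((x * u : ℝ) : ℂ) * I)).re
  rw [Complex.re_ofReal_mul, Complex.exp_ofReal_mul_I_re]

/-- Module MONT1 (a). PROOF. Exchange the finite sums with the integral (`hg` has compact support and
is continuous, the cosines are bounded continuous) and use
`gs (cf g) x = ∫ g(v) exp(2πi v x) dv`, whose real part at `x = (γ-γ')L/(2π)` is
`∫ g(v) cos(v (γ-γ') L) dv` (`integral_re`, `Complex.exp_re` etc.), `L = log T`. -/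
theorem integral_montF {g : ℝ → ℝ} {δ : ℝ} (hδ : 0 ≤ δ) (hg : Bump δ (cf g)) (T : ℝ) :
    ∫ x : ℝ, g x * montF T x =
      (∑ i ∈ PT goodFamily_zeta T, ∑ j ∈ PT goodFamily_zeta T,
        (gs (cf g) (((zetaOrdinate i - zetaOrdinate j) * Real.log T / (2 * π) : ℝ) : ℂ)).re *
          (4 / (4 + (zetaOrdinate i - zetaOrdinate j) ^ 2))) / zeroScale T := by
  have e : ∀ x : ℝ, g x * montF T x = (∑ i ∈ PT goodFamily_zeta T, ∑ j ∈ PT goodFamily_zeta T,
      (g x * Real.cos (x * ((zetaOrdinate i - zetaOrdinate j) * Real.log T))) *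
        (4 / (4 + (zetaOrdinate i - zetaOrdinate j) ^ 2))) / zeroScale T := by
    intro x
    unfold montF
    rw [← mul_div_assoc, Finset.mul_sum]
    congr 1
    refine Finset.sum_congr rfl fun i _ => ?_
    rw [Finset.mul_sum]
    refine Finset.sum_congr rfl fun j _ => ?_
    rw [mul_assoc x, ← mul_assoc]
  simp only [e]
  rw [integral_div]
  congr 1
  rw [integral_finsetSum]
  · refine Finset.sum_congr rfl fun i _ => ?_
    rw [integral_finsetSum]
    · refine Finset.sum_congr rfl fun j _ => ?_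
      rw [integral_mul_const, m1_gs hg]
    · intro j _
      exact (m1_int hg _).mul_const _
  · intro i _
    exact integrable_finsetSum _ fun j _ => (m1_int hg _).mul_const _

private theorem m1_term {C L u n : ℝ} (hC : 0 < C) (hL : 2 * π ≤ L)
    (hn : n ≤ C / (1 + (u * L / (2 * π)) ^ 2) ^ 2) :
    n * (1 - 4 / (4 + u ^ 2)) ≤ C * (2 * π / L) ^ 2 * (1 + u ^ 2)⁻¹ := by
  have hpi := Real.pi_pos
  have hL0 : 0 < L := by linarith
  set x : ℝ := u * L / (2 * π) with hx
  have hux : u = (2 * π / L) * x := by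
    rw [hx]; field_simp
  have h1 : 1 - 4 / (4 + u ^ 2) = u ^ 2 / (4 + u ^ 2) := by
    field_simp; ring
  have h2 : u ^ 2 / (4 + u ^ 2) ≤ u ^ 2 := by
    apply div_le_self (by positivity)
    nlinarith [sq_nonneg u]
  have h3 : 0 ≤ u ^ 2 / (4 + u ^ 2) := by positivity
  have hxu : u ^ 2 ≤ x ^ 2 := by
    have : 1 ≤ L / (2 * π) := by rw [le_div_iff₀ (by positivity)]; linarith
    rw [hx, mul_div_assoc, mul_pow]
    exact le_mul_of_one_le_right (sq_nonneg u) (one_le_pow₀ this)
  rw [h1]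
  calc n * (u ^ 2 / (4 + u ^ 2)) ≤ C / (1 + x ^ 2) ^ 2 * u ^ 2 :=
        mul_le_mul hn h2 h3 (by positivity)
    _ = C * (2 * π / L) ^ 2 * (x ^ 2 / (1 + x ^ 2) ^ 2) := by
        rw [hux]; ring
    _ ≤ C * (2 * π / L) ^ 2 * (1 + u ^ 2)⁻¹ := by
        apply mul_le_mul_of_nonneg_left _ (by positivity)
        rw [← one_div, div_le_div_iff₀ (by positivity) (by positivity)]
        nlinarith [sq_nonneg x, sq_nonneg u, mul_nonneg (sq_nonneg x) (sq_nonneg x)]

/-- Module MONT1 (b). The weight is harmless.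
PROOF. `0 ≤ 1 - 4/(4+u²) = u²/(4+u²) ≤ u²`. `Mo.gs_real_bound hδ hg 2`: with `x = uL/(2π)`,
`‖gs x‖ u² ≤ C u²/(1+x²)² ≤ C (2π/L)² x²/(1+x²)² ≤ C (2π/L)²/(1+x²) ≤ C (2π/L)²/(1+u²)` for
`L ≥ 2π`. For fixed `i`, `∑_j 1/(1+(γ_i-γ_j)²) = wT T γ_i ≤ C' log(T+3)` (`ED92.exists_wT`), and
`|PT| ≤ 2 zeroScale T` for large `T` (`goodFamily_zeta.count`). The total divided by `zeroScale` is
`≤ 2 C C' (2π)² log(T+3)/L² → 0`. -/
theorem weight_error (hRH : RiemannHypothesis) {g : ℝ → ℝ} {δ : ℝ} (hδ : 0 ≤ δ)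
    (hg : Bump δ (cf g)) :
    Tendsto (fun T : ℝ => (∑ i ∈ PT goodFamily_zeta T, ∑ j ∈ PT goodFamily_zeta T,
        ‖gs (cf g) (((zetaOrdinate i - zetaOrdinate j) * Real.log T / (2 * π) : ℝ) : ℂ)‖ *
          (1 - 4 / (4 + (zetaOrdinate i - zetaOrdinate j) ^ 2))) / zeroScale T) atTop (𝓝 0) := by
  obtain ⟨C, hC, hB⟩ := gs_real_bound hδ hg 2
  obtain ⟨D, hD, hW⟩ := ED92.exists_wT hRH
  have hpi := Real.pi_pos
  have hlim : Tendsto (fun T : ℝ => (C * (2 * π) ^ 2 * D * 2 * (2 * π)) / Real.log T) atTop (𝓝 0) :=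
    Tendsto.const_div_atTop Real.tendsto_log_atTop _
  refine squeeze_zero' ?_ ?_ hlim
  · filter_upwards [eventually_gt_atTop 1] with T hT
    apply div_nonneg _ (zeroScale_pos hT).le
    refine Finset.sum_nonneg fun i _ => Finset.sum_nonneg fun j _ => mul_nonneg (norm_nonneg _) ?_
    rw [sub_nonneg, div_le_one (by positivity)]
    nlinarith [sq_nonneg (zetaOrdinate i - zetaOrdinate j)]
  · filter_upwards [Real.tendsto_log_atTop.eventually_ge_atTop (2 * π), ED92.eventually_card,
      eventually_gt_atTop 3] with T hL hcard hT3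
    have hT0 : 0 < T := by linarith
    have hL0 : 0 < Real.log T := Real.log_pos (by linarith)
    have hlog3 : Real.log (T + 3) ≤ 2 * Real.log T := by
      rw [← Real.log_rpow hT0]
      apply Real.log_le_log (by linarith)
      have : T ^ (2 : ℝ) = T ^ 2 := by exact_mod_cast Real.rpow_natCast T 2
      rw [this]
      nlinarith
    have hrow : ∀ i ∈ PT goodFamily_zeta T, ∑ j ∈ PT goodFamily_zeta T,
        ‖gs (cf g) (((zetaOrdinate i - zetaOrdinate j) * Real.log T / (2 * π) : ℝ) : ℂ)‖ *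
          (1 - 4 / (4 + (zetaOrdinate i - zetaOrdinate j) ^ 2)) ≤
        C * (2 * π / Real.log T) ^ 2 * (D * (2 * Real.log T)) := by
      intro i _
      calc _ ≤ ∑ j ∈ PT goodFamily_zeta T,
          C * (2 * π / Real.log T) ^ 2 * (1 + (zetaOrdinate i - zetaOrdinate j) ^ 2)⁻¹ :=
            Finset.sum_le_sum fun j _ => m1_term hC hL (hB _)
        _ = C * (2 * π / Real.log T) ^ 2 * ED92.wT T (zetaOrdinate i) := by
            rw [ED92.wT, Finset.mul_sum]
        _ ≤ _ := by
            apply mul_le_mul_of_nonneg_left _ (by positivity)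
            refine (hW T _ hT0.le).trans ?_
            exact mul_le_mul_of_nonneg_left hlog3 hD.le
    rw [div_le_iff₀ (zeroScale_pos (by linarith))]
    refine (Finset.sum_le_sum hrow).trans ?_
    rw [Finset.sum_const, nsmul_eq_mul]
    refine (mul_le_mul_of_nonneg_right hcard (by positivity)).trans (le_of_eq ?_)
    unfold zeroScale
    field_simp

end Pool.Agent.MP_67227b_nt.Fb
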