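import Pool.Agent.MP_67227b_nt.Fb.FbCore
import Pool.Agent.MP_67227b_nt.Fb.FbBdd
import Pool.Agent.MP_67227b_nt.Fb.FbChoice

set_option autoImplicit false

open Filter Topology Set MeasureTheory Complex
open scoped Real ContDiff ArithmeticFunction ArithmeticFunction.Moebius ComplexConjugate

namespace Pool.Agent.MP_67227b_nt.Fb

open Pool.Agent.Lib.ZetaCount_helper33 Pool.Agent.MP_67227b_nt Pool.Agent.MP_67227b_nt.Mo

private theorem one_sq_int {p : ℝ → ℝ} (hp : Bump 2 (cf p)) (T : ℝ) :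
    Integrable fun x => p x ^ 2 * montF T x := by
  have hpc : Continuous p := by
    have h1 := Complex.continuous_re.comp hp.smooth.continuous
    have h2 : (Complex.re ∘ cf p) = p := by funext x; simp [cf]
    rwa [h2] at h1
  refine ((hpc.pow 2).mul (continuous_montF T)).integrable_of_hasCompactSupport ?_
  refine HasCompactSupport.intro (isCompact_Icc (a := (-2 : ℝ)) (b := 2)) ?_
  intro x hx
  have h1 : 2 < |x| := by
    by_contra h
    exact hx (abs_le.1 (not_lt.1 h))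
  have h4 : ((p x : ℝ) : ℂ) = 0 := hp.supp x h1
  have h3 : p x = 0 := by exact_mod_cast h4
  show p x ^ 2 * montF T x = 0
  rw [h3]
  ring

private theorem one_V_pos {v : ℝ → ℝ} (hv : Hok v) {y : ℝ} (hy : 0 < y) :
    0 < ∫ x in (0 : ℝ)..y, 1 / v x := by
  have hc : Continuous fun x => 1 / v x := continuous_const.div hv.cont fun x => (hv.pos x).ne'
  exact intervalIntegral.intervalIntegral_pos_of_pos (hc.intervalIntegrable _ _)
    (fun x => one_div_pos.2 (hv.pos x)) hy

private theorem one_h1 {v : ℝ → ℝ} {y : ℝ} (hy : 0 ≤ y) :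
    y * hopt v y = y ^ 2 / ∫ x in (0 : ℝ)..y, 1 / v x := by
  rcases hy.eq_or_lt with rfl | hy
  · simp
  · unfold hopt
    rw [if_neg (not_le.2 hy)]
    ring

private theorem one_h2 {v : ℝ → ℝ} (hv : Hok v) {y : ℝ} (hy : 0 ≤ y) :
    hopt v y ^ 2 * (∫ x in (0 : ℝ)..y, 1 / v x) = y ^ 2 / ∫ x in (0 : ℝ)..y, 1 / v x := by
  rcases hy.eq_or_lt with rfl | hy
  · simp
  · have hV := one_V_pos hv hy
    unfold hopt
    rw [if_neg (not_le.2 hy)]
    field_simp

/-- Module FIN (a). The inequality for one choice of the parameters.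

PROOF. `exists_phi hv hε` gives `φ`, `exists_choice` with `e = e₁/2` the functions (`2d + 2e < 1`,
`2e + e₁ ≤ 3e₁`); apply `core` with `h = hopt v`, `δ = 2`. On the left `∫_0^1 κ ≤ 1` (`0 ≤ κ ≤ 1`), so the left side is at least
`(∫_0^d y h)/(∫_0^d h)`. On the right: `∫ p₂² F ≤ ∫_{3/4}^{5/4} F ≤ C` (`montF_nonneg`,
`S_bdd`; `C` does not depend on the parameters); `En h l₂ d ≤ (2e+e₁) ∫_0^d h²/(∫_0^d h)²`;
`∫ p₃² F ≤ ∫_1^{1+d+e₁} φ(x-1)² F(x) dx ≤ ∫_0^{d+e₁} F(1+x) v(x) dx`; `En h l₃ d ≤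
(∫_0^d h(y)² (∫_0^y 1/φ²) dy)/(∫_0^d h)² ≤ (1+ε)(∫_0^d h² V)/(∫_0^d h)²` with
`V(y) = ∫_0^y 1/v`. With `h = y/V` on `(0,d]`: `y h = h² V = y²/V`. All with `Real.sqrt_le_sqrt`. -/
theorem one_choice (hRH : RiemannHypothesis) {v : ℝ → ℝ} (hv : Hok v) {C : ℝ}
    (hC : ∀ᶠ T : ℝ in atTop, (∫ x in (3 / 4 : ℝ)..(5 / 4), montF T x) ≤ C) {d e₁ ε : ℝ}
    (hd : 0 < d) (he₁ : 0 < e₁) (he₁' : e₁ ≤ 1 / 20) (hde : d + e₁ ≤ 1 / 2) (hε : 0 < ε) :
    ∀ᶠ T : ℝ in atTop,
      (∫ x in (0 : ℝ)..d, x ^ 2 / ∫ y in (0 : ℝ)..x, 1 / v y) / (∫ y in (0 : ℝ)..d, hopt v y) ≤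
        Real.sqrt (C + ε) * Real.sqrt ((3 * e₁) * (∫ y in (0 : ℝ)..d, hopt v y ^ 2) /
          (∫ y in (0 : ℝ)..d, hopt v y) ^ 2 + ε) +
        Real.sqrt ((∫ x in (0 : ℝ)..(d + e₁), montF T (1 + x) * v x) + ε) *
          Real.sqrt ((1 + ε) * (∫ x in (0 : ℝ)..d, x ^ 2 / ∫ y in (0 : ℝ)..x, 1 / v y) /
            (∫ y in (0 : ℝ)..d, hopt v y) ^ 2 + ε) + ε := by
  obtain ⟨φ, hφs, hφ0, hφ⟩ := exists_phi hv hε
  obtain ⟨κ, l₂, p₂, l₃, p₃, hκ, hl₂, hl₃, hp₂, hp₃, hpart, hP₂, hP₃, hE₂, hE₃⟩ :=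
    exists_choice hφs hφ0 hd (show 0 < e₁ / 2 by linarith) (by linarith) he₁ (by linarith) hde
  have hh := hopt_ok hv
  have hcore := core hRH hh hd (show 0 < e₁ / 2 by linarith) (by linarith)
    (show 2 * d + 2 * (e₁ / 2) < 1 by linarith) hκ hl₂ hl₃ (show (0 : ℝ) ≤ 2 by norm_num)
    hp₂ hp₃ hpart hε
  have hhc : Continuous (hopt v) := hh.cont
  have hvc : Continuous fun x => 1 / v x :=
    continuous_const.div hv.cont fun x => (hv.pos x).ne'
  have hφc : Continuous fun x => 1 / φ x ^ 2 :=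
    continuous_const.div (hφs.continuous.pow 2) fun x => (pow_pos (hφ0 x) 2).ne'
  have hl₂c : Continuous fun x : ℝ => l₂ (1 + x) ^ 2 :=
    (hl₂.smooth.continuous.comp (by fun_prop)).pow 2
  have hl₃c : Continuous fun x : ℝ => l₃ (1 + x) ^ 2 :=
    (hl₃.smooth.continuous.comp (by fun_prop)).pow 2
  have hV : Continuous fun y : ℝ => ∫ x in (0 : ℝ)..y, 1 / v x :=
    intervalIntegral.continuous_primitive (fun a b => hvc.intervalIntegrable a b) 0
  have hΦ : Continuous fun y : ℝ => ∫ x in (0 : ℝ)..y, 1 / φ x ^ 2 :=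
    intervalIntegral.continuous_primitive (fun a b => hφc.intervalIntegrable a b) 0
  have hL₂ : Continuous fun y : ℝ => ∫ x in (-1 : ℝ)..y, l₂ (1 + x) ^ 2 :=
    intervalIntegral.continuous_primitive (fun a b => hl₂c.intervalIntegrable a b) (-1)
  have hL₃ : Continuous fun y : ℝ => ∫ x in (-1 : ℝ)..y, l₃ (1 + x) ^ 2 :=
    intervalIntegral.continuous_primitive (fun a b => hl₃c.intervalIntegrable a b) (-1)
  have hHpos : 0 < ∫ y in (0 : ℝ)..d, hopt v y :=
    intervalIntegral.intervalIntegral_pos_of_pos (hhc.intervalIntegrable _ _) hh.pos hd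
  set H := ∫ y in (0 : ℝ)..d, hopt v y with hHdef
  have hH2 : 0 < H ^ 2 := by positivity
  set J := ∫ x in (0 : ℝ)..d, x ^ 2 / ∫ y in (0 : ℝ)..x, 1 / v y with hJ
  have hJ1 : (∫ y in (0 : ℝ)..d, y * hopt v y) = J := by
    apply intervalIntegral.integral_congr
    intro y hy
    rw [uIcc_of_le hd.le] at hy
    exact one_h1 hy.1
  have hJ2 : (∫ y in (0 : ℝ)..d, hopt v y ^ 2 * ∫ x in (0 : ℝ)..y, 1 / v x) = J := by
    apply intervalIntegral.integral_congr
    intro y hy
    rw [uIcc_of_le hd.le] at hy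
    exact one_h2 hv hy.1
  have hκ1 : (∫ x in (0 : ℝ)..1, κ x) ≤ 1 := by
    calc (∫ x in (0 : ℝ)..1, κ x) ≤ ∫ x in (0 : ℝ)..1, (1 : ℝ) :=
          intervalIntegral.integral_mono_on zero_le_one
            (hκ.smooth.continuous.intervalIntegrable _ _)
            (continuous_const.intervalIntegrable _ _) fun x _ => hκ.le_one x
      _ = 1 := by simp
  have hEn2 : En (hopt v) l₂ d ≤ (3 * e₁) * (∫ y in (0 : ℝ)..d, hopt v y ^ 2) / H ^ 2 := by
    unfold En
    rw [← hHdef]
    apply div_le_div_of_nonneg_right _ hH2.le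
    rw [← intervalIntegral.integral_const_mul]
    apply intervalIntegral.integral_mono_on hd.le
      (((hhc.pow 2).mul hL₂).intervalIntegrable _ _)
      ((continuous_const.mul (hhc.pow 2)).intervalIntegrable _ _)
    intro y hy
    have h1 := hE₂ y hy
    show hopt v y ^ 2 * (∫ x in (-1 : ℝ)..y, l₂ (1 + x) ^ 2) ≤ 3 * e₁ * hopt v y ^ 2
    rw [mul_comm (3 * e₁)]
    apply mul_le_mul_of_nonneg_left _ (sq_nonneg _)
    linarith
  have hEn3 : En (hopt v) l₃ d ≤ (1 + ε) * J / H ^ 2 := by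
    unfold En
    rw [← hHdef]
    apply div_le_div_of_nonneg_right _ hH2.le
    rw [← hJ2, ← intervalIntegral.integral_const_mul]
    apply intervalIntegral.integral_mono_on hd.le
      (((hhc.pow 2).mul hL₃).intervalIntegrable _ _)
      ((continuous_const.mul ((hhc.pow 2).mul hV)).intervalIntegrable _ _)
    intro y hy
    have h1 := hE₃ y hy
    have h2 : (∫ x in (0 : ℝ)..y, 1 / φ x ^ 2) ≤ (1 + ε) * ∫ x in (0 : ℝ)..y, 1 / v x := by
      rw [← intervalIntegral.integral_const_mul]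
      apply intervalIntegral.integral_mono_on hy.1 (hφc.intervalIntegrable _ _)
        ((continuous_const.mul hvc).intervalIntegrable _ _)
      intro x hx
      have h3 := (hφ x ⟨hx.1, by linarith [hx.2, hy.2]⟩).2
      show 1 / φ x ^ 2 ≤ (1 + ε) * (1 / v x)
      rw [mul_one_div]
      exact h3
    show hopt v y ^ 2 * (∫ x in (-1 : ℝ)..y, l₃ (1 + x) ^ 2) ≤
      (1 + ε) * (hopt v y ^ 2 * ∫ x in (0 : ℝ)..y, 1 / v x)
    calc hopt v y ^ 2 * (∫ x in (-1 : ℝ)..y, l₃ (1 + x) ^ 2)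
        ≤ hopt v y ^ 2 * ((1 + ε) * ∫ x in (0 : ℝ)..y, 1 / v x) :=
          mul_le_mul_of_nonneg_left (h1.trans h2) (sq_nonneg _)
      _ = _ := by ring
  filter_upwards [hcore, hC, eventually_gt_atTop (1 : ℝ)] with T hT hCT hT1
  have hF := montF_nonneg hT1
  have hFc := continuous_montF T
  have hA2 : (∫ x : ℝ, p₂ x ^ 2 * montF T x) ≤ C := by
    refine le_trans ?_ hCT
    have hi : Integrable ((Icc (3 / 4 : ℝ) (5 / 4)).indicator (montF T)) := by
      rw [integrable_indicator_iff measurableSet_Icc]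
      exact hFc.continuousOn.integrableOn_Icc
    calc (∫ x : ℝ, p₂ x ^ 2 * montF T x)
        ≤ ∫ x, (Icc (3 / 4 : ℝ) (5 / 4)).indicator (montF T) x := by
          apply integral_mono (one_sq_int hp₂ T) hi
          intro x
          have h1 := mul_le_mul_of_nonneg_right (hP₂ x) (hF x)
          refine h1.trans (le_of_eq ?_)
          by_cases hx : x ∈ Icc (3 / 4 : ℝ) (5 / 4)
          · rw [indicator_of_mem hx, indicator_of_mem hx, Pi.one_apply, one_mul]
          · rw [indicator_of_notMem hx, indicator_of_notMem hx, zero_mul]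
      _ = ∫ x in (3 / 4 : ℝ)..(5 / 4), montF T x := by
          rw [integral_indicator measurableSet_Icc, integral_Icc_eq_integral_Ioc,
            intervalIntegral.integral_of_le (by norm_num)]
  have hA3 : (∫ x : ℝ, p₃ x ^ 2 * montF T x) ≤
      ∫ x in (0 : ℝ)..(d + e₁), montF T (1 + x) * v x := by
    have hcφ : Continuous fun y : ℝ => φ (y - 1) ^ 2 * montF T y :=
      ((hφs.continuous.comp (by fun_prop)).pow 2).mul hFc
    have hi : Integrable ((Icc (1 : ℝ) (1 + d + e₁)).indicator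
        fun y => φ (y - 1) ^ 2 * montF T y) := by
      rw [integrable_indicator_iff measurableSet_Icc]
      exact hcφ.continuousOn.integrableOn_Icc
    calc (∫ x : ℝ, p₃ x ^ 2 * montF T x)
        ≤ ∫ x, (Icc (1 : ℝ) (1 + d + e₁)).indicator (fun y => φ (y - 1) ^ 2 * montF T y) x := by
          apply integral_mono (one_sq_int hp₃ T) hi
          intro x
          have h1 := mul_le_mul_of_nonneg_right (hP₃ x) (hF x)
          refine h1.trans (le_of_eq ?_)
          by_cases hx : x ∈ Icc (1 : ℝ) (1 + d + e₁)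
          · rw [indicator_of_mem hx, indicator_of_mem hx]
          · rw [indicator_of_notMem hx, indicator_of_notMem hx, zero_mul]
      _ = ∫ x in (1 : ℝ)..(1 + d + e₁), φ (x - 1) ^ 2 * montF T x := by
          rw [integral_indicator measurableSet_Icc, integral_Icc_eq_integral_Ioc,
            intervalIntegral.integral_of_le (by linarith)]
      _ = ∫ x in (0 : ℝ)..(d + e₁), φ x ^ 2 * montF T (1 + x) := by
          have h1 := intervalIntegral.integral_comp_add_left
            (fun y => φ (y - 1) ^ 2 * montF T y) (1 : ℝ) (a := 0) (b := d + e₁)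
          rw [add_zero, show (1 : ℝ) + (d + e₁) = 1 + d + e₁ by ring] at h1
          rw [← h1]
          apply intervalIntegral.integral_congr
          intro x _
          show φ (1 + x - 1) ^ 2 * montF T (1 + x) = φ x ^ 2 * montF T (1 + x)
          rw [add_sub_cancel_left]
      _ ≤ ∫ x in (0 : ℝ)..(d + e₁), montF T (1 + x) * v x := by
          have hF1 : Continuous fun x : ℝ => montF T (1 + x) := hFc.comp (by fun_prop)
          apply intervalIntegral.integral_mono_on (by linarith)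
            (((hφs.continuous.pow 2).mul hF1).intervalIntegrable _ _)
            ((hF1.mul hv.cont).intervalIntegrable _ _)
          intro x hx
          rw [mul_comm]
          exact mul_le_mul_of_nonneg_left (hφ x ⟨hx.1, by linarith [hx.2]⟩).1 (hF _)
  rw [hJ1] at hT
  have e2 : Real.sqrt ((∫ x : ℝ, p₂ x ^ 2 * montF T x) + ε) * Real.sqrt (En (hopt v) l₂ d + ε) ≤
      Real.sqrt (C + ε) *
        Real.sqrt ((3 * e₁) * (∫ y in (0 : ℝ)..d, hopt v y ^ 2) / H ^ 2 + ε) :=
    mul_le_mul (Real.sqrt_le_sqrt (by linarith)) (Real.sqrt_le_sqrt (by linarith))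
      (Real.sqrt_nonneg _) (Real.sqrt_nonneg _)
  have e3 : Real.sqrt ((∫ x : ℝ, p₃ x ^ 2 * montF T x) + ε) * Real.sqrt (En (hopt v) l₃ d + ε) ≤
      Real.sqrt ((∫ x in (0 : ℝ)..(d + e₁), montF T (1 + x) * v x) + ε) *
        Real.sqrt ((1 + ε) * J / H ^ 2 + ε) :=
    mul_le_mul (Real.sqrt_le_sqrt (by linarith)) (Real.sqrt_le_sqrt (by linarith))
      (Real.sqrt_nonneg _) (Real.sqrt_nonneg _)
  linarith

end Pool.Agent.MP_67227b_nt.Fb
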