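import Pool.Agent.MP_67227b_nt.Fb.FbDefs

set_option autoImplicit false

open Filter Topology Set MeasureTheory Complex
open scoped Real ContDiff ArithmeticFunction ArithmeticFunction.Moebius ComplexConjugate

namespace Pool.Agent.MP_67227b_nt.Fb

open Pool.Agent.Lib.ZetaCount_helper33 Pool.Agent.MP_67227b_nt Pool.Agent.MP_67227b_nt.Mo

private theorem POS_cexp (u : ℝ) : IntegrableOn (fun y : ℝ => Complex.exp ((-2 + u * I) * y)) (Ioi 0) := by
  refine integrableOn_exp_mul_complex_Ioi (a := -2 + u * I) ?_ 0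
  simp

private theorem POS_re (u y : ℝ) :
    (Complex.exp ((-2 + u * I) * y)).re = Real.exp (-2 * y) * Real.cos (u * y) := by
  have e : (-2 + (u : ℂ) * I) * y = ((-2 * y : ℝ) : ℂ) + ((u * y : ℝ) : ℂ) * I := by
    push_cast
    ring
  rw [e, Complex.exp_add_mul_I, ← Complex.ofReal_exp, Complex.re_ofReal_mul, Complex.add_re,
    ← Complex.ofReal_cos, ← Complex.ofReal_sin, Complex.ofReal_re, Complex.re_ofReal_mul,
    Complex.I_re, mul_zero, add_zero]

private theorem POS_int (u : ℝ) :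
    IntegrableOn (fun y : ℝ => Real.exp (-2 * y) * Real.cos (u * y)) (Ioi 0) := by
  have h := (POS_cexp u).re
  refine h.congr (Eventually.of_forall fun y => ?_)
  exact POS_re u y

/-- Module POS (a): the weight as a Fourier transform.
PROOF. Both halves are elementary: `∫_0^∞ e^{-2y} cos(uy) dy = 2/(4+u²)` (the real part of
`∫ exp(-(2-iu)y) = 1/(2-iu)`, `integral_exp_neg_mul_Ioi` or `integral_exp_mul_complex_Ioi`). -/
theorem weight_eq (u : ℝ) :
    4 / (4 + u ^ 2) = 2 * ∫ y in Ioi (0 : ℝ), Real.exp (-2 * y) * Real.cos (u * y) := by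
  have h1 := integral_exp_mul_complex_Ioi (a := -2 + u * I) (by simp) 0
  have h2 : (∫ y in Ioi (0 : ℝ), Complex.exp ((-2 + u * I) * y)).re =
      ∫ y in Ioi (0 : ℝ), Real.exp (-2 * y) * Real.cos (u * y) := by
    have h3 := integral_re (𝕜 := ℂ) (POS_cexp u)
    rw [RCLike.re_eq_complex_re] at h3
    rw [← h3]
    refine integral_congr_ae (Eventually.of_forall fun y => ?_)
    exact POS_re u y
  rw [← h2, h1]
  have hne : (-2 + (u : ℂ) * I) ≠ 0 := by
    intro h
    have := congrArg Complex.re h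
    simp at this
  simp only [Complex.ofReal_zero, mul_zero, Complex.exp_zero]
  rw [Complex.div_re]
  simp [Complex.normSq_apply]
  field_simp
  ring

/-- Module POS (b): a positive definite kernel.
PROOF. By `weight_eq` and `cos(βx) cos(yx) = (cos((β+y)x) + cos((β-y)x))/2` the double sum is
`∫_0^∞ e^{-2y} ∑_i ∑_j (cos((β+y)(x_i-x_j)) + cos((β-y)(x_i-x_j))) dy`, and
`∑_i ∑_j cos(c(x_i-x_j)) = (∑ cos c x_i)² + (∑ sin c x_i)² ≥ 0`. -/
theorem weight_psd {ι : Type*} (s : Finset ι) (x : ι → ℝ) (β : ℝ) :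
    0 ≤ ∑ i ∈ s, ∑ j ∈ s, Real.cos (β * (x i - x j)) * (4 / (4 + (x i - x j) ^ 2)) := by
  have hdiff : ∀ c : ℝ, ∑ i ∈ s, ∑ j ∈ s, Real.cos (c * (x i - x j)) =
      (∑ i ∈ s, Real.cos (c * x i)) ^ 2 + (∑ i ∈ s, Real.sin (c * x i)) ^ 2 := by
    intro c
    rw [sq, sq, Finset.sum_mul_sum, Finset.sum_mul_sum, ← Finset.sum_add_distrib]
    refine Finset.sum_congr rfl fun i _ => ?_
    rw [← Finset.sum_add_distrib]
    refine Finset.sum_congr rfl fun j _ => ?_
    rw [mul_sub, Real.cos_sub]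
  have hterm : ∀ i j, Real.cos (β * (x i - x j)) * (4 / (4 + (x i - x j) ^ 2)) =
      ∫ y in Ioi (0 : ℝ), 2 * Real.cos (β * (x i - x j)) *
        (Real.exp (-2 * y) * Real.cos ((x i - x j) * y)) := by
    intro i j
    rw [weight_eq, integral_const_mul]
    ring
  have hint : ∀ i j, IntegrableOn (fun y : ℝ => 2 * Real.cos (β * (x i - x j)) *
      (Real.exp (-2 * y) * Real.cos ((x i - x j) * y))) (Ioi 0) := fun i j =>
    (POS_int _).const_mul _
  simp only [hterm]
  have h1 : ∀ i, ∑ j ∈ s, (∫ y in Ioi (0 : ℝ), 2 * Real.cos (β * (x i - x j)) *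
      (Real.exp (-2 * y) * Real.cos ((x i - x j) * y))) =
      ∫ y in Ioi (0 : ℝ), ∑ j ∈ s, 2 * Real.cos (β * (x i - x j)) *
        (Real.exp (-2 * y) * Real.cos ((x i - x j) * y)) := fun i =>
    (integral_finsetSum s fun j _ => hint i j).symm
  simp only [h1]
  rw [← integral_finsetSum s fun i _ => integrable_finsetSum s fun j _ => hint i j]
  refine setIntegral_nonneg measurableSet_Ioi fun y _ => ?_
  have h2 : ∑ i ∈ s, ∑ j ∈ s, 2 * Real.cos (β * (x i - x j)) *
      (Real.exp (-2 * y) * Real.cos ((x i - x j) * y)) =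
      Real.exp (-2 * y) * (∑ i ∈ s, ∑ j ∈ s, Real.cos ((β + y) * (x i - x j)) +
        ∑ i ∈ s, ∑ j ∈ s, Real.cos ((β - y) * (x i - x j))) := by
    rw [← Finset.sum_add_distrib, Finset.mul_sum]
    refine Finset.sum_congr rfl fun i _ => ?_
    rw [← Finset.sum_add_distrib, Finset.mul_sum]
    refine Finset.sum_congr rfl fun j _ => ?_
    have e1 : (x i - x j) * y = y * (x i - x j) := mul_comm _ _
    have e2 : (β + y) * (x i - x j) = β * (x i - x j) + y * (x i - x j) := by ring
    have e3 : (β - y) * (x i - x j) = β * (x i - x j) - y * (x i - x j) := by ring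
    rw [e1, e2, e3, Real.cos_add, Real.cos_sub (β * (x i - x j))]
    ring
  rw [h2, hdiff, hdiff]
  positivity

/-- Module POS (c). `F` is nonnegative: `weight_psd` with `β = α log T`, `zeroScale_pos`. -/
theorem montF_nonneg {T : ℝ} (hT : 1 < T) (α : ℝ) : 0 ≤ montF T α := by
  unfold montF
  refine div_nonneg ?_ (zeroScale_pos hT).le
  have h1 := weight_psd (PT goodFamily_zeta T) (fun i => zetaOrdinate i) (α * Real.log T)
  refine le_trans h1 (le_of_eq ?_)
  refine Finset.sum_congr rfl fun i _ => Finset.sum_congr rfl fun j _ => ?_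
  congr 2
  ring

/-- Module POS (d). `F` is continuous in `α`: a finite sum (`fun_prop`). -/
theorem continuous_montF (T : ℝ) : Continuous (montF T) := by
  unfold montF
  fun_prop

end Pool.Agent.MP_67227b_nt.Fb
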