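import Pool.Agent.MP_67227b_nt.Fb.FbRs
import Pool.Agent.MT.HW
import Pool.Agent.MP_67227b_nt.Pp.PpMert

set_option autoImplicit false

open Filter Topology Set MeasureTheory Complex
open scoped Real ContDiff ArithmeticFunction ArithmeticFunction.Moebius ComplexConjugate

namespace Pool.Agent.MP_67227b_nt.Fb

open Pool.Agent.Lib.ZetaCount_helper33 Pool.Agent.MP_67227b_nt Pool.Agent.MP_67227b_nt.Mo

private lemma riem_HW (M : ℕ) :
    ∑ n ∈ Finset.Icc 1 M, mf n = Pool.Agent.MT.HW 1 ((M : ℝ) + 1) := by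
  unfold Pool.Agent.MT.HW
  have hc : ⌈(M : ℝ) + 1⌉₊ = M + 1 := by
    have : (M : ℝ) + 1 = ((M + 1 : ℕ) : ℝ) := by push_cast; ring
    rw [this, Nat.ceil_natCast]
  rw [hc, Finset.sum_filter]
  have hI : Finset.Ico 1 (M + 1) = Finset.Icc 1 M := by
    ext k
    simp only [Finset.mem_Icc, Finset.mem_Ico]
    omega
  rw [hI]
  refine Finset.sum_congr rfl fun n _ => ?_
  unfold mf
  by_cases hn : Squarefree n
  · rw [if_pos ⟨hn, Nat.coprime_one_right n⟩]
    have h1 := ArithmeticFunction.moebius_sq_eq_one_of_squarefree hn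
    have h2 : ((μ n : ℝ)) ^ 2 = 1 := by exact_mod_cast h1
    rw [h2]
  · rw [if_neg (fun h => hn h.1), ArithmeticFunction.moebius_eq_zero_of_not_squarefree hn]
    simp

private lemma riem_log : Tendsto (fun x : ℝ => Real.log ((⌊x⌋₊ : ℝ) + 1) / Real.log x) atTop (𝓝 1) := by
  have h1 : Tendsto (fun x : ℝ => 1 + Real.log 2 / Real.log x) atTop (𝓝 (1 + 0)) := by
    apply Tendsto.const_add
    exact Real.tendsto_log_atTop.const_div_atTop _
  rw [add_zero] at h1
  refine tendsto_of_tendsto_of_tendsto_of_le_of_le' tendsto_const_nhds h1 ?_ ?_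
  · filter_upwards [eventually_gt_atTop 1] with x hx
    have hL : 0 < Real.log x := Real.log_pos hx
    rw [le_div_iff₀ hL, one_mul]
    exact Real.log_le_log (by linarith) (Nat.lt_floor_add_one x).le
  · filter_upwards [eventually_gt_atTop 1] with x hx
    have hL : 0 < Real.log x := Real.log_pos hx
    rw [div_le_iff₀ hL, add_mul, one_mul, div_mul_cancel₀ _ hL.ne']
    rw [add_comm (Real.log x), ← Real.log_mul (by norm_num) (by linarith)]
    apply Real.log_le_log (by positivity)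
    have := Nat.floor_le (show (0 : ℝ) ≤ x by linarith)
    linarith

/-- **Module riem** (2 theorems, about 90 lines). Riemann sums with respect to `μ²/φ`.

PROOF. `riem_gen` with `w = mf` (`mf k = 1/φ(k)` for squarefree `k`, `0` otherwise:
`ArithmeticFunction.moebius_sq_eq_one_of_squarefree`, `moebius_eq_zero_of_not_squarefree`) and
`MT.HW_tendsto 1` (`HW 1 x = ∑_{n < x, squarefree} 1/φ(n)`, `Ico 1 ⌈x⌉₊` against `Icc 1 ⌊x⌋₊`: at most
one term of size `≤ 1` more; or use `HW 1 (⌊x⌋₊ + 1)` and `log(⌊x⌋+1)/log x → 1`). -/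
theorem riem {f : ℝ → ℝ} (hf : Continuous f) {d : ℝ} (hd : 0 < d) :
    Tendsto (fun T : ℝ => (1 / Real.log T) * ∑ k ∈ Finset.Icc 1 (Zd d T),
      mf k * f (Real.log k / Real.log T)) atTop (𝓝 (∫ x in (0 : ℝ)..d, f x)) := by
  apply riem_gen (w := mf) _ _ hf hd
  · intro n
    unfold mf
    positivity
  · have h1 := Pool.Agent.MT.HW_tendsto 1 le_rfl
    have h2 : Tendsto (fun x : ℝ => (⌊x⌋₊ : ℝ) + 1) atTop atTop :=
      tendsto_atTop_add_const_right _ _ (tendsto_natCast_atTop_atTop.comp tendsto_nat_floor_atTop)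
    have h3 := (h1.comp h2).mul riem_log
    rw [Nat.totient_one, Nat.cast_one, div_one, mul_one] at h3
    refine h3.congr' ?_
    filter_upwards [eventually_gt_atTop 1] with x hx
    simp only [Function.comp]
    rw [riem_HW]
    have hpos : 0 < Real.log ((⌊x⌋₊ : ℝ) + 1) := by
      apply Real.log_pos
      have : 1 ≤ ⌊x⌋₊ := Nat.le_floor (by simpa using hx.le)
      have h5 : (1 : ℝ) ≤ ⌊x⌋₊ := by exact_mod_cast this
      linarith
    have hL : 0 < Real.log x := Real.log_pos hx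
    field_simp

/-- Riemann sums with respect to `Λ(n)/n`.

PROOF. `riem_gen` with `w n = Λ n/n`, `d = 1`, and `Pp.sum_vonMangoldt_div` (with `x = 1`). -/
theorem riem_mangoldt {f : ℝ → ℝ} (hf : Continuous f) :
    Tendsto (fun T : ℝ => (1 / Real.log T) * ∑ n ∈ Finset.Icc 1 ⌊T⌋₊,
      Λ n / n * f (Real.log n / Real.log T)) atTop (𝓝 (∫ x in (0 : ℝ)..1, f x)) := by
  have hA : Tendsto (fun x : ℝ => (∑ n ∈ Finset.Icc 1 ⌊x⌋₊, Λ n / n) / Real.log x) atTop
      (𝓝 1) := by
    obtain ⟨C, hC, hb⟩ := Pool.Agent.MP_67227b_nt.Pp.sum_vonMangoldt_div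
    rw [tendsto_iff_norm_sub_tendsto_zero]
    have h1 : Tendsto (fun x : ℝ => C / Real.log x) atTop (𝓝 0) :=
      Real.tendsto_log_atTop.const_div_atTop _
    refine squeeze_zero' (Eventually.of_forall fun x => norm_nonneg _) ?_ h1
    filter_upwards [eventually_gt_atTop 1] with x hx
    have hL : 0 < Real.log x := Real.log_pos hx
    have h2 := hb 1 x le_rfl hx.le
    rw [Nat.floor_one, Real.log_one, sub_zero] at h2
    have h3 : ∑ n ∈ Finset.Icc 1 ⌊x⌋₊, Λ n / n = ∑ n ∈ Finset.Ioc 1 ⌊x⌋₊, Λ n / n := by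
      symm
      apply Finset.sum_subset
      · intro n hn
        rw [Finset.mem_Ioc] at hn
        rw [Finset.mem_Icc]
        omega
      · intro n hn hn2
        rw [Finset.mem_Icc] at hn
        rw [Finset.mem_Ioc] at hn2
        have : n = 1 := by omega
        rw [this, ArithmeticFunction.vonMangoldt_apply_one, zero_div]
    rw [h3, Real.norm_eq_abs]
    have h4 : (∑ n ∈ Finset.Ioc 1 ⌊x⌋₊, Λ n / n) / Real.log x - 1 =
        ((∑ n ∈ Finset.Ioc 1 ⌊x⌋₊, Λ n / n) - Real.log x) / Real.log x := by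
      field_simp
    rw [h4, abs_div, abs_of_pos hL]
    exact div_le_div_of_nonneg_right h2 hL.le
  have h := riem_gen (w := fun n => Λ n / n)
    (fun n => div_nonneg ArithmeticFunction.vonMangoldt_nonneg (Nat.cast_nonneg n)) hA hf one_pos
  simp only [Real.rpow_one] at h
  exact h

end Pool.Agent.MP_67227b_nt.Fb
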