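import Pool.Agent.MP_67227b_nt.Fb.FbZsDefs

set_option autoImplicit false

open Filter Topology Set MeasureTheory Complex
open scoped Real ContDiff ArithmeticFunction ArithmeticFunction.Moebius ComplexConjugate

namespace Pool.Agent.MP_67227b_nt.Fb

open Pool.Agent.Lib.ZetaCount_helper33 Pool.Agent.MP_67227b_nt Pool.Agent.MP_67227b_nt.Mo

namespace RkAux

/-- the derivative of the step, shifted to the origin -/
private noncomputable def eta (κ : ℝ → ℝ) (e : ℝ) : ℝ → ℂ :=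
  fun v => ((-deriv κ (v + (1 - 3 * e / 2)) : ℝ) : ℂ)

private theorem deriv_zero {κ : ℝ → ℝ} {e : ℝ} (hκ : Step (1 - 2 * e) (1 - e) κ) {v : ℝ}
    (hv : v < 1 - 2 * e ∨ 1 - e < v) : deriv κ v = 0 := by
  rcases hv with hv | hv
  · have h : κ =ᶠ[𝓝 v] fun _ => (1 : ℝ) := by
      filter_upwards [Iio_mem_nhds hv] with x hx
      exact hκ.one x (le_of_lt hx)
    rw [h.deriv_eq]; simp
  · have h : κ =ᶠ[𝓝 v] fun _ => (0 : ℝ) := by
      filter_upwards [Ioi_mem_nhds hv] with x hx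
      exact hκ.zero x (le_of_lt hx)
    rw [h.deriv_eq]; simp

private theorem deriv_smooth {κ : ℝ → ℝ} {e : ℝ} (hκ : Step (1 - 2 * e) (1 - e) κ) :
    ContDiff ℝ ∞ (deriv κ) := ((contDiff_infty_iff_deriv (𝕜 := ℝ)).1 hκ.smooth).2

private theorem deriv_cs {κ : ℝ → ℝ} {e : ℝ} (hκ : Step (1 - 2 * e) (1 - e) κ) :
    HasCompactSupport (deriv κ) := by
  refine HasCompactSupport.intro (isCompact_Icc : IsCompact (Icc (1 - 2 * e) (1 - e)))
    fun v hv => ?_
  apply deriv_zero hκ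
  by_contra h
  push Not at h
  exact hv ⟨h.1, h.2⟩

private theorem eta_bump {κ : ℝ → ℝ} {e : ℝ} (hκ : Step (1 - 2 * e) (1 - e) κ) :
    Bump (e / 2) (eta κ e) := by
  refine ⟨?_, ?_⟩
  · have h1 : ContDiff ℝ ∞ fun v : ℝ => -deriv κ (v + (1 - 3 * e / 2)) :=
      ((deriv_smooth hκ).comp (by fun_prop)).neg
    exact Complex.ofRealCLM.contDiff.comp h1
  · intro v hv
    have : deriv κ (v + (1 - 3 * e / 2)) = 0 := by
      apply deriv_zero hκ
      rcases lt_abs.1 hv with h | h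
      · right; linarith
      · left; linarith
    simp [eta, this]

private theorem Rk_eq (κ : ℝ → ℝ) (e L : ℝ) (w : ℂ) :
    Rk κ L w = Complex.exp (L * (1 - 3 * e / 2 : ℝ) * w) * gs (eta κ e) (L * w / (2 * π * I)) := by
  have h1 : Rk κ L w = ∫ v : ℝ, ((-deriv κ (v + (1 - 3 * e / 2)) : ℝ) : ℂ) *
      Complex.exp (L * (v + (1 - 3 * e / 2) : ℝ) * w) := by
    unfold Rk
    exact (integral_add_right_eq_self (fun v : ℝ => ((-deriv κ v : ℝ) : ℂ) *
      Complex.exp (L * v * w)) (1 - 3 * e / 2)).symm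
  rw [h1, gs, ← integral_const_mul]
  refine integral_congr_ae (Eventually.of_forall fun v => ?_)
  simp only [eta]
  have h2 : (2 * π * I : ℂ) ≠ 0 := by
    simp [Real.pi_ne_zero]
  have h3 : Complex.exp (L * ((v + (1 - 3 * e / 2) : ℝ) : ℂ) * w) =
      Complex.exp (L * (1 - 3 * e / 2 : ℝ) * w) *
        Complex.exp (2 * π * I * v * (L * w / (2 * π * I))) := by
    rw [← Complex.exp_add]
    congr 1
    field_simp
    push_cast
    ring
  rw [h3]
  ring

private theorem Rk_bound {κ : ℝ → ℝ} {e : ℝ} (he : 0 < e) (hκ : Step (1 - 2 * e) (1 - e) κ)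
    (k : ℕ) : ∃ C : ℝ, 0 < C ∧ ∀ L : ℝ, 1 ≤ L → ∀ w : ℂ,
      ‖Rk κ L w‖ ≤ C * Real.exp (L * (1 - 3 * e / 2) * w.re + L * (e / 2) * |w.re|) /
        (1 + ‖w‖) ^ k := by
  obtain ⟨C, hC, h⟩ := gs_decay (by positivity : (0:ℝ) ≤ e / 2) (eta_bump hκ) k
  refine ⟨C * (2 * π) ^ k, by positivity, fun L hL w => ?_⟩
  have hL0 : 0 < L := lt_of_lt_of_le one_pos hL
  have hpi := Real.pi_pos
  rw [Rk_eq κ e L w, norm_mul, Complex.norm_exp]
  have hre : ((L : ℂ) * ((1 - 3 * e / 2 : ℝ) : ℂ) * w).re = L * (1 - 3 * e / 2) * w.re := by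
    simp [Complex.mul_re]
  have hz : (L * w / (2 * π * I) : ℂ) = ((L / (2 * π) : ℝ) : ℂ) * (-I * w) := by
    have h2 : (2 * π * I : ℂ) ≠ 0 := by
      simp [Real.pi_ne_zero]
    rw [div_eq_iff h2]
    push_cast
    have h4 : (π : ℂ) ≠ 0 := by exact_mod_cast Real.pi_ne_zero
    field_simp
    ring_nf
    rw [Complex.I_sq]
    ring
  have hzim : (L * w / (2 * π * I) : ℂ).im = -(L / (2 * π) * w.re) := by
    rw [hz, Complex.im_ofReal_mul]; simp
  have hznorm : ‖(L * w / (2 * π * I) : ℂ)‖ = L / (2 * π) * ‖w‖ := by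
    rw [hz, norm_mul, Complex.norm_real, norm_mul, norm_neg, Complex.norm_I, one_mul,
      Real.norm_of_nonneg (by positivity)]
  have h1 := h (L * w / (2 * π * I))
  rw [hzim, hznorm, abs_neg, abs_mul, abs_of_nonneg (by positivity : (0:ℝ) ≤ L / (2 * π))] at h1
  have h3 : (2 * π * (e / 2) * (L / (2 * π) * |w.re|)) = L * (e / 2) * |w.re| := by
    field_simp
  rw [h3] at h1
  rw [hre, Real.exp_add]
  have h4 : ((1 + ‖w‖) / (2 * π)) ^ k ≤ (1 + L / (2 * π) * ‖w‖) ^ k := by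
    refine pow_le_pow_left₀ (by positivity) ?_ k
    rw [div_le_iff₀ (by positivity)]
    have h5 : (1 + L / (2 * π) * ‖w‖) * (2 * π) = 2 * π + L * ‖w‖ := by
      field_simp
    rw [h5]
    have := Real.pi_gt_three
    nlinarith [norm_nonneg w]
  have h5 : C * Real.exp (L * (e / 2) * |w.re|) / (1 + L / (2 * π) * ‖w‖) ^ k ≤
      C * (2 * π) ^ k * Real.exp (L * (e / 2) * |w.re|) / (1 + ‖w‖) ^ k := by
    have h6 : C * (2 * π) ^ k * Real.exp (L * (e / 2) * |w.re|) / (1 + ‖w‖) ^ k =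
        C * Real.exp (L * (e / 2) * |w.re|) / ((1 + ‖w‖) / (2 * π)) ^ k := by
      rw [div_pow]
      field_simp
    rw [h6]
    exact div_le_div_of_nonneg_left (by positivity) (by positivity) h4
  calc Real.exp (L * (1 - 3 * e / 2) * w.re) * ‖gs (eta κ e) (L * w / (2 * π * I))‖
      ≤ Real.exp (L * (1 - 3 * e / 2) * w.re) *
        (C * (2 * π) ^ k * Real.exp (L * (e / 2) * |w.re|) / (1 + ‖w‖) ^ k) :=
        mul_le_mul_of_nonneg_left (h1.trans h5) (Real.exp_pos _).le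
    _ = _ := by ring

end RkAux

open RkAux

/-- **Module rk** (5 lemmas, about 160 lines). `R(0) = 1`: `-∫ κ' = κ(1-2e) - κ(1-e) = 1`. -/
theorem Rk_zero {κ : ℝ → ℝ} {e : ℝ} (he : 0 < e) (hκ : Step (1 - 2 * e) (1 - e) κ) (L : ℝ) :
    Rk κ L 0 = 1 := by
  have h1 : ∫ v : ℝ, deriv κ v = 0 - 1 := by
    refine integral_of_hasDerivAt_of_tendsto (f := κ)
      (fun x => ((hκ.smooth.differentiable (by simp)) x).hasDerivAt)
      ((deriv_smooth hκ).continuous.integrable_of_hasCompactSupport (deriv_cs hκ)) ?_ ?_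
    · refine tendsto_const_nhds.congr' ?_
      filter_upwards [eventually_le_atBot (1 - 2 * e)] with x hx
      exact (hκ.one x hx).symm
    · refine tendsto_const_nhds.congr' ?_
      filter_upwards [eventually_ge_atTop (1 - e)] with x hx
      exact (hκ.zero x hx).symm
  unfold Rk
  simp only [mul_zero, Complex.exp_zero, mul_one]
  rw [integral_complex_ofReal, integral_neg, h1]
  norm_num

/-- `R` is entire: `-κ'` is smooth with support in `[1-2e, 1-e]`; with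
`η(v) = -κ'(v + v₀)`, `v₀ = 1 - 3e/2`, `Bump (e/2) η`, one has
`Rk κ L w = e^{L v₀ w} gs η (L w/(2πi))`. Differentiability: `hasDerivAt_integral_of_dominated...`
or `Mo` has the analyticity of `gs` (look for `differentiable` in Mo/*). -/
theorem Rk_differentiable {κ : ℝ → ℝ} {e : ℝ} (he : 0 < e) (hκ : Step (1 - 2 * e) (1 - e) κ)
    (L : ℝ) : Differentiable ℂ (Rk κ L) := by
  intro w₀
  have hc : Continuous (deriv κ) := (deriv_smooth hκ).continuous
  have hcs := deriv_cs hκ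
  refine (hasDerivAt_integral_of_dominated_loc_of_deriv_le
    (F := fun w v => ((-deriv κ v : ℝ) : ℂ) * Complex.exp (L * v * w))
    (F' := fun w v => ((-deriv κ v : ℝ) : ℂ) * (Complex.exp (L * v * w) * (L * v)))
    (bound := fun v => |deriv κ v| * (Real.exp (|L * v| * (‖w₀‖ + 1)) * |L * v|))
    (x₀ := w₀) (s := Metric.ball w₀ 1) (Metric.ball_mem_nhds w₀ one_pos)
    ?_ ?_ ?_ ?_ ?_ ?_).2.differentiableAt
  · refine Eventually.of_forall fun w => ?_
    exact (by fun_prop : Continuous fun v : ℝ => ((-deriv κ v : ℝ) : ℂ) *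
      Complex.exp (L * v * w)).aestronglyMeasurable
  · refine (by fun_prop : Continuous fun v : ℝ => ((-deriv κ v : ℝ) : ℂ) *
      Complex.exp (L * v * w₀)).integrable_of_hasCompactSupport ?_
    refine hcs.mono' ?_
    intro v hv
    by_contra h
    have : deriv κ v = 0 := by
      by_contra h'
      exact h (subset_tsupport _ h')
    simp [this] at hv
  · exact (by fun_prop : Continuous fun v : ℝ => ((-deriv κ v : ℝ) : ℂ) *
      (Complex.exp (L * v * w₀) * (L * v))).aestronglyMeasurable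
  · refine Eventually.of_forall fun v w hw => ?_
    rw [norm_mul, norm_mul, Complex.norm_real, norm_neg, Real.norm_eq_abs, Complex.norm_exp]
    have h1 : ‖((L : ℂ) * (v : ℂ))‖ = |L * v| := by
      rw [← Complex.ofReal_mul, Complex.norm_real, Real.norm_eq_abs]
    rw [h1]
    refine mul_le_mul_of_nonneg_left (mul_le_mul_of_nonneg_right (Real.exp_le_exp.2 ?_)
      (abs_nonneg _)) (abs_nonneg _)
    have h2 : ‖w‖ ≤ ‖w₀‖ + 1 := by
      have h3 : ‖w - w₀‖ < 1 := by simpa [dist_eq_norm] using hw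
      have h4 : ‖w‖ ≤ ‖w - w₀‖ + ‖w₀‖ := by
        simpa using norm_add_le (w - w₀) w₀
      linarith
    calc ((L : ℂ) * v * w).re ≤ ‖(L : ℂ) * v * w‖ := Complex.re_le_norm _
      _ = |L * v| * ‖w‖ := by rw [norm_mul, h1]
      _ ≤ |L * v| * (‖w₀‖ + 1) := mul_le_mul_of_nonneg_left h2 (abs_nonneg _)
  · refine (by fun_prop : Continuous fun v : ℝ => |deriv κ v| *
      (Real.exp (|L * v| * (‖w₀‖ + 1)) * |L * v|)).integrable_of_hasCompactSupport ?_
    refine hcs.mono' ?_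
    intro v hv
    by_contra h
    have : deriv κ v = 0 := by
      by_contra h'
      exact h (subset_tsupport _ h')
    simp [this] at hv
  · refine Eventually.of_forall fun v w _ => ?_
    have h1 : HasDerivAt (fun w : ℂ => (L : ℂ) * v * w) (L * v) w := by
      simpa using (hasDerivAt_id w).const_mul ((L : ℂ) * v)
    exact h1.cexp.const_mul _

/-- Decay to the left. PROOF. `Rk κ L w = e^{L v₀ w} gs η (L w/(2πi))` as above, and `Mo.gs_decay`
(`δ = e/2`, exponent `k`): `‖gs η z‖ ≤ C e^{2π (e/2) |Im z|}/(1+‖z‖)^k`, `z = L w/(2πi)`,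
`|Im z| = L |Re w|/2π`, `‖z‖ = L‖w‖/2π ≥ ‖w‖/(2π)`, `(1 + ‖w‖/2π)^(-k) ≤ (2π)^k (1+‖w‖)^(-k)`. For
`Re w ≤ 0`: `e^{L v₀ Re w} e^{(e/2) L |Re w|} = e^{L (v₀ - e/2) Re w} = e^{L(1-2e) Re w}`. -/
theorem Rk_left {κ : ℝ → ℝ} {e : ℝ} (he : 0 < e) (hκ : Step (1 - 2 * e) (1 - e) κ) (k : ℕ) :
    ∃ C : ℝ, 0 < C ∧ ∀ L : ℝ, 1 ≤ L → ∀ w : ℂ, w.re ≤ 0 →
      ‖Rk κ L w‖ ≤ C * Real.exp (L * (1 - 2 * e) * w.re) / (1 + ‖w‖) ^ k := by
  obtain ⟨C, hC, h⟩ := Rk_bound he hκ k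
  refine ⟨C, hC, fun L hL w hw => (h L hL w).trans (le_of_eq ?_)⟩
  rw [abs_of_nonpos hw]
  congr 3
  ring

/-- Decay to the right: the same with `e^{L (v₀ + e/2) Re w} = e^{L(1-e) Re w}`. -/
theorem Rk_right {κ : ℝ → ℝ} {e : ℝ} (he : 0 < e) (hκ : Step (1 - 2 * e) (1 - e) κ) (k : ℕ) :
    ∃ C : ℝ, 0 < C ∧ ∀ L : ℝ, 1 ≤ L → ∀ w : ℂ, 0 ≤ w.re →
      ‖Rk κ L w‖ ≤ C * Real.exp (L * (1 - e) * w.re) / (1 + ‖w‖) ^ k := by
  obtain ⟨C, hC, h⟩ := Rk_bound he hκ k
  refine ⟨C, hC, fun L hL w hw => (h L hL w).trans (le_of_eq ?_)⟩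
  rw [abs_of_nonneg hw]
  congr 3
  ring

end Pool.Agent.MP_67227b_nt.Fb
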