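import Pool.Agent.MP_67227b_nt.Fb.FbArDefs

set_option autoImplicit false

open Filter Topology Set MeasureTheory Complex
open scoped Real ContDiff ArithmeticFunction ArithmeticFunction.Moebius ComplexConjugate

namespace Pool.Agent.MP_67227b_nt.Fb

open Pool.Agent.Lib.ZetaCount_helper33 Pool.Agent.MP_67227b_nt Pool.Agent.MP_67227b_nt.Mo

private lemma rs_S {w : ℕ → ℝ}
    (hA : Tendsto (fun x : ℝ => (∑ n ∈ Finset.Icc 1 ⌊x⌋₊, w n) / Real.log x) atTop (𝓝 1))
    {a : ℝ} (ha : 0 ≤ a) :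
    Tendsto (fun T : ℝ => (1 / Real.log T) * ∑ n ∈ Finset.Icc 1 ⌊T ^ a⌋₊, w n) atTop (𝓝 a) := by
  rcases eq_or_lt_of_le ha with h0 | h0
  · subst h0
    have h1 : Tendsto (fun T : ℝ => (1 / Real.log T) * w 1) atTop (𝓝 (0 * w 1)) := by
      apply Tendsto.mul_const
      simp_rw [one_div]
      exact tendsto_inv_atTop_zero.comp Real.tendsto_log_atTop
    rw [zero_mul] at h1
    refine h1.congr fun T => ?_
    rw [Real.rpow_zero, Nat.floor_one, Finset.Icc_self, Finset.sum_singleton]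
  · have h1 := (hA.comp (tendsto_rpow_atTop h0)).const_mul a
    rw [mul_one] at h1
    refine h1.congr' ?_
    filter_upwards [eventually_gt_atTop 1] with T hT
    have hL : 0 < Real.log T := Real.log_pos hT
    simp only [Function.comp]
    rw [Real.log_rpow (by linarith)]
    field_simp

private lemma rs_split (F : ℕ → ℝ) {A B : ℕ} (hAB : A ≤ B) :
    ∑ n ∈ Finset.Icc 1 B, F n = ∑ n ∈ Finset.Icc 1 A, F n + ∑ n ∈ Finset.Ioc A B, F n := by
  have h1 : ∀ N : ℕ, Finset.Icc 1 N = Finset.Ioc 0 N := fun N => by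
    ext k
    simp only [Finset.mem_Icc, Finset.mem_Ioc]
    omega
  rw [h1, h1]
  exact (Finset.sum_Ioc_consecutive F (Nat.zero_le _) hAB).symm

private lemma rs_piece {w : ℕ → ℝ} (hw : ∀ n, 0 ≤ w n) {f : ℝ → ℝ} {T a b ε : ℝ} (hT : 1 < T)
    (h : ∀ x, a ≤ x → x ≤ b → |f x - f a| ≤ ε) :
    |(1 / Real.log T) * ∑ k ∈ Finset.Ioc ⌊T ^ a⌋₊ ⌊T ^ b⌋₊, w k * f (Real.log k / Real.log T) -
      f a * ((1 / Real.log T) * ∑ k ∈ Finset.Ioc ⌊T ^ a⌋₊ ⌊T ^ b⌋₊, w k)| ≤
      ε * ((1 / Real.log T) * ∑ k ∈ Finset.Ioc ⌊T ^ a⌋₊ ⌊T ^ b⌋₊, w k) := by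
  have hL : 0 < Real.log T := Real.log_pos hT
  have hT0 : 0 < T := by linarith
  have e1 : (1 / Real.log T) * ∑ k ∈ Finset.Ioc ⌊T ^ a⌋₊ ⌊T ^ b⌋₊,
      w k * f (Real.log k / Real.log T) -
      f a * ((1 / Real.log T) * ∑ k ∈ Finset.Ioc ⌊T ^ a⌋₊ ⌊T ^ b⌋₊, w k) =
      (1 / Real.log T) * ∑ k ∈ Finset.Ioc ⌊T ^ a⌋₊ ⌊T ^ b⌋₊,
        w k * (f (Real.log k / Real.log T) - f a) := by
    have : ∀ k ∈ Finset.Ioc ⌊T ^ a⌋₊ ⌊T ^ b⌋₊, w k * (f (Real.log k / Real.log T) - f a) =
        w k * f (Real.log k / Real.log T) - f a * w k := fun k _ => by ring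
    rw [Finset.sum_congr rfl this, Finset.sum_sub_distrib, ← Finset.mul_sum]
    ring
  rw [e1, abs_mul, abs_of_pos (by positivity)]
  have e2 : ε * ((1 / Real.log T) * ∑ k ∈ Finset.Ioc ⌊T ^ a⌋₊ ⌊T ^ b⌋₊, w k) =
      (1 / Real.log T) * ∑ k ∈ Finset.Ioc ⌊T ^ a⌋₊ ⌊T ^ b⌋₊, w k * ε := by
    rw [← Finset.sum_mul]
    ring
  rw [e2]
  apply mul_le_mul_of_nonneg_left _ (by positivity)
  refine (Finset.abs_sum_le_sum_abs _ _).trans (Finset.sum_le_sum fun k hk => ?_)
  rw [abs_mul, abs_of_nonneg (hw k)]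
  apply mul_le_mul_of_nonneg_left _ (hw k)
  rw [Finset.mem_Ioc] at hk
  have hk1 : T ^ a < k := (Nat.floor_lt (Real.rpow_nonneg hT0.le a)).1 hk.1
  have hk2 : (k : ℝ) ≤ T ^ b :=
    (Nat.cast_le.2 hk.2).trans (Nat.floor_le (Real.rpow_nonneg hT0.le b))
  have hk0 : (0 : ℝ) < k := (Real.rpow_pos_of_pos hT0 a).trans hk1
  apply h
  · rw [le_div_iff₀ hL, ← Real.log_rpow hT0]
    exact Real.log_le_log (Real.rpow_pos_of_pos hT0 a) hk1.le
  · rw [div_le_iff₀ hL, ← Real.log_rpow hT0]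
    exact Real.log_le_log hk0 hk2

private lemma rs_int {f : ℝ → ℝ} (hf : Continuous f) {a b ε : ℝ} (hab : a ≤ b)
    (h : ∀ x, a ≤ x → x ≤ b → |f x - f a| ≤ ε) :
    |(∫ x in a..b, f x) - f a * (b - a)| ≤ ε * (b - a) := by
  have e1 : (∫ x in a..b, f x) - f a * (b - a) = ∫ x in a..b, (f x - f a) := by
    rw [intervalIntegral.integral_sub (hf.intervalIntegrable _ _) (by simp),
      intervalIntegral.integral_const, smul_eq_mul]
    ring
  rw [e1]
  have h1 := intervalIntegral.norm_integral_le_of_norm_le_const (a := a) (b := b) (C := ε)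
    (f := fun x => f x - f a) (fun x hx => by
      rw [uIoc_of_le hab] at hx
      rw [Real.norm_eq_abs]
      exact h x hx.1.le hx.2)
  rw [Real.norm_eq_abs, abs_of_nonneg (by linarith : 0 ≤ b - a)] at h1
  exact h1

/-- **Module rs** (about 150 lines, pure analysis). Riemann sums in the logarithmic scale.

PROOF. For every `a ≥ 0`: `A_T(a) := (1/log T) ∑_{n ≤ T^a} w n → a` (for `a > 0` put `x = T^a`,
`log x = a log T`; for `a = 0` the sum is `w 1`, divided by `log T`). Given `ε > 0` choose `N` such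
that `|f(x) - f(y)| ≤ ε` for `x, y ∈ [0,d]`, `|x - y| ≤ d/N` (uniform continuity), and put
`a_i = i d/N`. The `k` with `T^{a_i} < k ≤ T^{a_{i+1}}` (i.e. `⌊T^{a_i}⌋ < k ≤ ⌊T^{a_{i+1}}⌋`) have
`log k/log T ∈ [a_i, a_{i+1}]`, and `k = 1` is one extra term (`w 1 f(0)/log T → 0`). So the sum
differs from `∑_i f(a_i) (A_T(a_{i+1}) - A_T(a_i))` by at most `ε A_T(d) + o(1)`; the latter tends to
`∑_i f(a_i) d/N`, within `ε d` of `∫_0^d f`. Hence `limsup |sum - ∫| ≤ 2 ε d`. -/
theorem riem_gen {w : ℕ → ℝ} (hw : ∀ n, 0 ≤ w n)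
    (hA : Tendsto (fun x : ℝ => (∑ n ∈ Finset.Icc 1 ⌊x⌋₊, w n) / Real.log x) atTop (𝓝 1))
    {f : ℝ → ℝ} (hf : Continuous f) {d : ℝ} (hd : 0 < d) :
    Tendsto (fun T : ℝ => (1 / Real.log T) * ∑ k ∈ Finset.Icc 1 ⌊T ^ d⌋₊,
      w k * f (Real.log k / Real.log T)) atTop (𝓝 (∫ x in (0 : ℝ)..d, f x)) := by
  rw [Metric.tendsto_nhds]
  intro ρ hρ
  set ε : ℝ := ρ / (8 * d) with hε
  have hε0 : 0 < ε := by positivity
  -- uniform continuity
  have huc : UniformContinuousOn f (Icc 0 d) :=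
    isCompact_Icc.uniformContinuousOn_of_continuous hf.continuousOn
  rw [Metric.uniformContinuousOn_iff] at huc
  obtain ⟨r, hr, hfr⟩ := huc ε hε0
  obtain ⟨N, hN⟩ := exists_nat_gt (d / r)
  have hN0 : (0 : ℝ) < N := lt_trans (by positivity) hN
  have hstep : d / N < r := by
    rw [div_lt_iff₀ hN0]
    rw [div_lt_iff₀ hr] at hN
    linarith [mul_comm (N : ℝ) r]
  set a : ℕ → ℝ := fun i => i * (d / N) with ha
  have ha0 : ∀ i, 0 ≤ a i := fun i => by simp only [ha]; positivity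
  have has : ∀ i, a (i + 1) = a i + d / N := fun i => by simp only [ha]; push_cast; ring
  have haN : a N = d := by simp only [ha]; field_simp
  have had : ∀ i, i ≤ N → a i ≤ d := fun i hi => by
    rw [← haN]
    simp only [ha]
    apply mul_le_mul_of_nonneg_right _ (by positivity)
    exact_mod_cast hi
  have hosc : ∀ i, i + 1 ≤ N → ∀ x, a i ≤ x → x ≤ a (i + 1) → |f x - f (a i)| ≤ ε := by
    intro i hi x hx1 hx2
    have h1 := hfr x ⟨(ha0 i).trans hx1, hx2.trans (had _ hi)⟩ (a i) ⟨ha0 i, had i (by omega)⟩ (by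
      rw [Real.dist_eq, abs_of_nonneg (by linarith)]
      rw [has] at hx2
      linarith)
    rw [Real.dist_eq] at h1
    exact h1.le
  have hmain : ∀ i, i ≤ N → ∀ η : ℝ, 0 < η → ∀ᶠ T : ℝ in atTop,
      |(1 / Real.log T) * ∑ k ∈ Finset.Icc 1 ⌊T ^ a i⌋₊, w k * f (Real.log k / Real.log T) -
        ∫ x in (0 : ℝ)..a i, f x| ≤ 2 * ε * a i + η := by
    intro i
    induction i with
    | zero =>
      intro _ η hη
      have h1 : Tendsto (fun T : ℝ => (1 / Real.log T) * (w 1 * f 0)) atTop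
          (𝓝 (0 * (w 1 * f 0))) := by
        apply Tendsto.mul_const
        simp_rw [one_div]
        exact tendsto_inv_atTop_zero.comp Real.tendsto_log_atTop
      rw [zero_mul, Metric.tendsto_nhds] at h1
      filter_upwards [h1 η hη] with T hT
      have e0 : a 0 = 0 := by simp [ha]
      rw [Real.dist_eq, sub_zero] at hT
      rw [e0, Real.rpow_zero, Nat.floor_one, Finset.Icc_self, Finset.sum_singleton,
        intervalIntegral.integral_same]
      simp only [Nat.cast_one, Real.log_one, zero_div, sub_zero, mul_zero, zero_add]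
      exact hT.le
    | succ i ih =>
      intro hi η hη
      have hS := (rs_S hA (ha0 (i + 1))).sub (rs_S hA (ha0 i))
      rw [has, add_sub_cancel_left] at hS
      rw [Metric.tendsto_nhds] at hS
      have hη' : 0 < η / (2 * (ε + |f (a i)| + 1)) := by positivity
      filter_upwards [ih (by omega) (η / 2) (by positivity), hS _ hη', eventually_gt_atTop 1]
        with T h1 h2 hT
      have hle : ⌊T ^ a i⌋₊ ≤ ⌊T ^ a (i + 1)⌋₊ :=
        Nat.floor_le_floor (Real.rpow_le_rpow_of_exponent_le hT.le (by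
          rw [has]
          have : 0 < d / N := by positivity
          linarith))
      have hsub : (1 / Real.log T) * ∑ n ∈ Finset.Icc 1 ⌊T ^ (a i + d / N)⌋₊, w n -
          (1 / Real.log T) * ∑ n ∈ Finset.Icc 1 ⌊T ^ a i⌋₊, w n =
          (1 / Real.log T) * ∑ k ∈ Finset.Ioc ⌊T ^ a i⌋₊ ⌊T ^ a (i + 1)⌋₊, w k := by
        rw [← has, rs_split w hle]
        ring
      rw [hsub, Real.dist_eq] at h2
      set D := (1 / Real.log T) * ∑ k ∈ Finset.Ioc ⌊T ^ a i⌋₊ ⌊T ^ a (i + 1)⌋₊, w k with hD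
      have h3 := rs_piece hw (f := f) (T := T) (a := a i) (b := a (i + 1)) (ε := ε) hT
        (hosc i hi)
      rw [← hD] at h3
      have h4 := rs_int hf (a := a i) (b := a (i + 1)) (ε := ε) (by
          rw [has]
          have : 0 < d / N := by positivity
          linarith) (hosc i hi)
      have e3 : a (i + 1) - a i = d / N := by rw [has]; ring
      rw [e3] at h4
      rw [rs_split (fun k => w k * f (Real.log k / Real.log T)) hle, mul_add,
        ← intervalIntegral.integral_add_adjacent_intervals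
          (hf.intervalIntegrable 0 (a i))
          (hf.intervalIntegrable (a i) (a (i + 1)))]
      set P := (1 / Real.log T) * ∑ k ∈ Finset.Icc 1 ⌊T ^ a i⌋₊,
        w k * f (Real.log k / Real.log T) with hP
      set Q := (1 / Real.log T) * ∑ k ∈ Finset.Ioc ⌊T ^ a i⌋₊ ⌊T ^ a (i + 1)⌋₊,
        w k * f (Real.log k / Real.log T) with hQ
      set I1 := ∫ x in (0 : ℝ)..a i, f x with hI1
      set I2 := ∫ x in a i..a (i + 1), f x with hI2
      have hc : (ε + |f (a i)|) * |D - d / N| ≤ η / 2 := by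
        have h5 : 0 < ε + |f (a i)| + 1 := by positivity
        have h6 : (ε + |f (a i)|) * |D - d / N| ≤ (ε + |f (a i)| + 1) *
            (η / (2 * (ε + |f (a i)| + 1))) := by
          apply mul_le_mul (by linarith) h2.le (abs_nonneg _) h5.le
        have h7 : (ε + |f (a i)| + 1) * (η / (2 * (ε + |f (a i)| + 1))) = η / 2 := by
          field_simp
        rw [h7] at h6
        exact h6
      have e5 : P + Q - (I1 + I2) = (P - I1) + (Q - f (a i) * D) + f (a i) * (D - d / N) -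
          (I2 - f (a i) * (d / N)) := by ring
      rw [e5]
      have h8 : |f (a i) * (D - d / N)| = |f (a i)| * |D - d / N| := abs_mul _ _
      have h9 : ε * D ≤ ε * (d / N) + ε * |D - d / N| := by
        have : D ≤ d / N + |D - d / N| := by linarith [le_abs_self (D - d / N)]
        calc ε * D ≤ ε * (d / N + |D - d / N|) := mul_le_mul_of_nonneg_left this hε0.le
          _ = _ := by ring
      have h10 : |(P - I1) + (Q - f (a i) * D) + f (a i) * (D - d / N) -
          (I2 - f (a i) * (d / N))| ≤ |P - I1| + |Q - f (a i) * D| + |f (a i) * (D - d / N)| +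
          |I2 - f (a i) * (d / N)| := by
        have t1 := abs_sub ((P - I1) + (Q - f (a i) * D) + f (a i) * (D - d / N))
          (I2 - f (a i) * (d / N))
        have t2 := abs_add_le ((P - I1) + (Q - f (a i) * D)) (f (a i) * (D - d / N))
        have t3 := abs_add_le (P - I1) (Q - f (a i) * D)
        linarith
      rw [h8] at h10
      rw [has]
      have e6 : 2 * ε * (a i + d / N) + η = (2 * ε * a i + η / 2) + ε * (d / N) + η / 2 +
          ε * (d / N) := by ring
      rw [e6]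
      have e7 : (ε + |f (a i)|) * |D - d / N| = ε * |D - d / N| + |f (a i)| * |D - d / N| := by
        ring
      rw [e7] at hc
      linarith
  have h1 := hmain N le_rfl (ρ / 4) (by positivity)
  rw [haN] at h1
  filter_upwards [h1] with T hT
  rw [Real.dist_eq]
  refine hT.trans_lt ?_
  have : 2 * ε * d = ρ / 4 := by
    rw [hε]
    field_simp
    norm_num
  rw [this]
  linarith

end Pool.Agent.MP_67227b_nt.Fb
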