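import Pool.Agent.MP_67227b_nt.Fb.FbDefs

set_option autoImplicit false

open Filter Topology Set MeasureTheory Complex
open scoped Real ContDiff ArithmeticFunction ArithmeticFunction.Moebius ComplexConjugate

namespace Pool.Agent.MP_67227b_nt.Fb

open Pool.Agent.Lib.ZetaCount_helper33 Pool.Agent.MP_67227b_nt Pool.Agent.MP_67227b_nt.Mo

/-- The entire function `(s-1) ζ(s)`. -/
noncomputable def zs (s : ℂ) : ℂ := if s = 1 then 1 else (s - 1) * riemannZeta s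

/-- The two sided Laplace transform of `-κ'`. -/
noncomputable def Rk (κ : ℝ → ℝ) (L : ℝ) (w : ℂ) : ℂ :=
  ∫ v : ℝ, ((-deriv κ v : ℝ) : ℂ) * Complex.exp (L * v * w)

/-- The point `σ + iy`. -/
noncomputable def ln (σ y : ℝ) : ℂ := (σ : ℂ) + (y : ℂ) * I

/-- The truncated sum `∑_{j ≤ T} κ(log(mj)/log T) j^{-1/2-iγ}`. -/
noncomputable def Sj (κ : ℝ → ℝ) (T : ℝ) (m : ℕ) (γ : ℝ) : ℂ :=
  ∑ j ∈ Finset.Icc 1 ⌊T⌋₊, (κ (Real.log (m * j) / Real.log T) : ℂ) *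
    (j : ℂ) ^ (-(1 / 2 + (γ : ℂ) * I))

/-- The dual sum `∑_{r ≤ T} (1 - κ(log(mγ/(2πr))/log T)) r^{-1/2+iγ}`. -/
noncomputable def Sr (κ : ℝ → ℝ) (T : ℝ) (m : ℕ) (γ : ℝ) : ℂ :=
  ∑ r ∈ Finset.Icc 1 ⌊T⌋₊, ((1 - κ (Real.log (m * γ / (2 * π * r)) / Real.log T) : ℝ) : ℂ) *
    (r : ℂ) ^ (-(1 / 2 - (γ : ℂ) * I))

/-- The integral over the line `Re w = σ`. -/
noncomputable def Jl (κ : ℝ → ℝ) (T : ℝ) (m : ℕ) (γ σ : ℝ) : ℂ :=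
  (1 / (2 * π : ℂ)) * ∫ y : ℝ, riemannZeta (1 / 2 + (γ : ℂ) * I + ln σ y) *
    (m : ℂ) ^ (-(ln σ y)) * Rk κ (Real.log T) (ln σ y) / ln σ y

end Pool.Agent.MP_67227b_nt.Fb
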